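import Pool.Agent.Q236.CR.Stm

/-!
# Project CR, job CHR: from additive to multiplicative characters
-/

set_option autoImplicit false

namespace Pool.Agent.K9h19.CR

open Finset Pool.Agent.Q236.CR
open Pool.Agent.H469R2.NK (e)

theorem std_eq {q : ℕ} [NeZero q] (j : ZMod q) (n : ℕ) :
    ZMod.stdAddChar (j * (n : ZMod q)) = e ((j.val : ℝ) / q * n) := by
  have h1 : j * (n : ZMod q) = (((j.val : ℤ) * (n : ℤ) : ℤ) : ZMod q) := by
    push_cast
    rw [ZMod.natCast_zmod_val]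
  rw [h1, ZMod.stdAddChar_coe]
  unfold e
  congr 1
  push_cast
  ring

theorem fin_exp {q : ℕ} [NeZero q] (Φ : ZMod q → ℂ) (n : ℕ) :
    Φ (n : ZMod q) = ∑ j : ZMod q, ((q : ℂ)⁻¹ * ZMod.dft Φ j) * e ((j.val : ℝ) / q * n) := by
  have h := congrFun ((ZMod.dft (N := q) (E := ℂ)).symm_apply_apply Φ) (n : ZMod q)
  rw [← h, ZMod.invDFT_apply, smul_eq_mul, Finset.mul_sum]
  refine Finset.sum_congr rfl fun j _ => ?_
  rw [smul_eq_mul, std_eq]
  ring

theorem dft_le {q : ℕ} [NeZero q] (Φ : ZMod q → ℂ) (hΦ : ∀ a, ‖Φ a‖ ≤ 1) (j : ZMod q) :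
    ‖(q : ℂ)⁻¹ * ZMod.dft Φ j‖ ≤ 1 := by
  have hq : (0 : ℝ) < q := by exact_mod_cast (Nat.pos_of_ne_zero (NeZero.ne q))
  rw [norm_mul, norm_inv, Complex.norm_natCast, ZMod.dft_apply]
  have h1 : ‖∑ k : ZMod q, ZMod.stdAddChar (-(k * j)) • Φ k‖ ≤ q := by
    refine (norm_sum_le _ _).trans ?_
    refine (Finset.sum_le_sum (g := fun _ => (1 : ℝ)) fun k _ => ?_).trans ?_
    · rw [norm_smul]
      have h2 : ‖ZMod.stdAddChar (-(k * j))‖ = 1 := by
        rw [ZMod.stdAddChar_apply]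
        exact Circle.norm_coe _
      rw [h2, one_mul]
      exact hΦ k
    · simp [ZMod.card]
  rw [inv_mul_le_iff₀ hq, mul_one]
  exact h1

/-- from additive twists to functions modulo `q` -/
theorem mod_le {q : ℕ} [NeZero q] (Φ : ZMod q → ℂ) (hΦ : ∀ a, ‖Φ a‖ ≤ 1) (s : Finset ℕ) (f : ℕ → ℂ)
    (R : ℝ) (h : ∀ β : ℝ, ‖∑ n ∈ s, e (β * n) * f n‖ ≤ R) :
    ‖∑ n ∈ s, Φ (n : ZMod q) * f n‖ ≤ q * R := by
  have h1 : ∑ n ∈ s, Φ (n : ZMod q) * f n =
      ∑ j : ZMod q, ((q : ℂ)⁻¹ * ZMod.dft Φ j) * ∑ n ∈ s, e ((j.val : ℝ) / q * n) * f n := by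
    calc ∑ n ∈ s, Φ (n : ZMod q) * f n
        = ∑ n ∈ s, ∑ j : ZMod q, ((q : ℂ)⁻¹ * ZMod.dft Φ j) * (e ((j.val : ℝ) / q * n) * f n) := by
          refine Finset.sum_congr rfl fun n _ => ?_
          rw [fin_exp Φ n, Finset.sum_mul]
          exact Finset.sum_congr rfl fun j _ => by ring
      _ = _ := by
          rw [Finset.sum_comm]
          exact Finset.sum_congr rfl fun j _ => by rw [Finset.mul_sum]
  rw [h1]
  refine (norm_sum_le _ _).trans ?_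
  refine (Finset.sum_le_sum (g := fun _ => R) fun j _ => ?_).trans ?_
  · rw [norm_mul]
    have hR : 0 ≤ R := (norm_nonneg _).trans (h 0)
    calc _ ≤ 1 * R := mul_le_mul (dft_le Φ hΦ j) (h _) (norm_nonneg _) zero_le_one
      _ = R := one_mul R
  · simp [ZMod.card]

theorem chr (h1 : S_ZSB) (h2 : S_SDB) : S_CHR := by
  constructor
  · obtain ⟨C, c, hc0, hc1, h⟩ := h1
    refine ⟨C, c, hc0, hc1, ?_⟩
    intro q hq χ N N' t κ hN hNN hN2 hκ ht
    exact mod_le (fun a => χ a) (fun a => χ.norm_le_one a) _ _ _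
      fun β => h N N' t κ β hN hNN hN2 hκ ht
  · obtain ⟨C, hC, h⟩ := h2
    refine ⟨C, hC, ?_⟩
    intro q hq χ N N' t hN hNN hN2 ht
    exact mod_le (fun a => χ a) (fun a => χ.norm_le_one a) _ _ _
      fun β => h N N' t β hN hNN hN2 ht

end Pool.Agent.K9h19.CR
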