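import Pool.Agent.K9h19.CR.EC
import Pool.Agent.N946.GN.Grow
import Pool.Agent.Y957.VK.Fin1

/-!
# Project CR, job LUP: upper bound for the Dirichlet L-functions to small moduli near the line one
-/

set_option autoImplicit false

namespace Pool.Agent.K9h19.CR

open Finset Filter Topology Pool.Agent.Q236.CR
open Pool.Agent.N782.GN (ds)

/-- the continuation of the Dirichlet series is the L-function -/
theorem LF_eq {q : ℕ} [NeZero q] {χ : DirichletCharacter ℂ q} (hχ : χ ≠ 1) {L : ℂ → ℂ}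
    (hd : DifferentiableOn ℂ L {s | 9 / 10 < s.re})
    (he : ∀ s : ℂ, 1 < s.re → L s = LSeries (fun n : ℕ => if n = 0 then 0 else χ (n : ZMod q)) s) :
    ∀ s : ℂ, 9 / 10 < s.re → L s = χ.LFunction s := by
  have hopen : IsOpen {s : ℂ | (9 / 10 : ℝ) < s.re} := isOpen_lt continuous_const Complex.continuous_re
  have h1 : AnalyticOnNhd ℂ L {s : ℂ | (9 / 10 : ℝ) < s.re} := hd.analyticOnNhd hopen
  have h2 : AnalyticOnNhd ℂ χ.LFunction {s : ℂ | (9 / 10 : ℝ) < s.re} := by
    apply DifferentiableOn.analyticOnNhd _ hopen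
    exact (DirichletCharacter.differentiable_LFunction hχ).differentiableOn
  have h3 : IsPreconnected {s : ℂ | (9 / 10 : ℝ) < s.re} :=
    (convex_halfSpace_re_gt _).isPreconnected
  have h4 : L =ᶠ[𝓝 (2 : ℂ)] χ.LFunction := by
    have h5 : {s : ℂ | (1 : ℝ) < s.re} ∈ 𝓝 (2 : ℂ) :=
      (isOpen_lt continuous_const Complex.continuous_re).mem_nhds (by simp)
    filter_upwards [h5] with s hs
    rw [he s hs, DirichletCharacter.LFunction_eq_LSeries χ hs]
    refine LSeries_congr (fun {n} hn => ?_) s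
    rw [if_neg hn]
  intro s hs
  exact h1.eqOn_of_preconnected_of_eventuallyEq h2 h3 (z₀ := 2) (by simp; norm_num) h4 hs

theorem prod_le {q : ℕ} (hq : q ≠ 0) {s : ℂ} (hs : 0 ≤ s.re) :
    ‖∏ p ∈ q.primeFactors, (1 - (p : ℂ) ^ (-s))‖ ≤ q := by
  rw [norm_prod]
  have h1 : ∀ p ∈ q.primeFactors, ‖1 - (p : ℂ) ^ (-s)‖ ≤ (p : ℝ) := by
    intro p hp
    have hp1 := (Nat.prime_of_mem_primeFactors hp)
    have h2 : ‖(p : ℂ) ^ (-s)‖ ≤ 1 := by
      rw [Complex.norm_natCast_cpow_of_pos hp1.pos, Complex.neg_re]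
      exact Real.rpow_le_one_of_one_le_of_nonpos (by exact_mod_cast hp1.one_le) (by linarith)
    have h3 := norm_sub_le (1 : ℂ) ((p : ℂ) ^ (-s))
    rw [norm_one] at h3
    have h4 : (2 : ℝ) ≤ p := by exact_mod_cast hp1.two_le
    linarith
  refine (Finset.prod_le_prod (fun p _ => norm_nonneg _) h1).trans ?_
  have h2 : (∏ p ∈ q.primeFactors, p) ≤ q :=
    Nat.le_of_dvd (Nat.pos_of_ne_zero hq) (Nat.prod_primeFactors_dvd q)
  have h3 : ((∏ p ∈ q.primeFactors, p : ℕ) : ℝ) ≤ (q : ℝ) := Nat.cast_le.mpr h2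
  rwa [Nat.cast_prod] at h3

theorem ev_pow (α c : ℝ) (hα : 0 < α) : ∀ᶠ l : ℝ in atTop, c ≤ l ^ α :=
  (tendsto_rpow_atTop hα).eventually_ge_atTop c

theorem lup (hc : S_CHR) : S_LUP := by
  intro B
  obtain ⟨a, b, T₁, ha0, hab, hb1, hT₁, hec⟩ := ec hc B
  obtain ⟨C, hC, hgrow⟩ := Pool.Agent.N946.GN.grow
  obtain ⟨δz, Kz, t₀, hδz, hδz1, hKz, ht₀, hz⟩ := Pool.Agent.Y957.VK.zeta_all
  -- the zeta function at small heights
  obtain ⟨Z, hZ⟩ : ∃ Z : ℝ, ∀ s : ℂ, 1 / 2 ≤ s.re → s.re ≤ 3 → 1 ≤ |s.im| → |s.im| ≤ t₀ →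
      ‖riemannZeta s‖ ≤ Z := by
    have hcomp : IsCompact ((Set.Icc (1 / 2 : ℝ) 3) ×ℂ (Set.Icc (-t₀) t₀)) :=
      IsCompact.reProdIm isCompact_Icc isCompact_Icc
    have hcl : IsClosed {s : ℂ | 1 ≤ |s.im|} := isClosed_le continuous_const (by fun_prop)
    have hcomp2 := hcomp.inter_right hcl
    have hcont : ContinuousOn riemannZeta
        (((Set.Icc (1 / 2 : ℝ) 3) ×ℂ (Set.Icc (-t₀) t₀)) ∩ {s : ℂ | 1 ≤ |s.im|}) := by
      intro s hs
      have hs1 : s ≠ 1 := by
        rintro rfl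
        have : (1 : ℝ) ≤ |(1 : ℂ).im| := hs.2
        norm_num at this
      exact (differentiableAt_riemannZeta hs1).continuousAt.continuousWithinAt
    obtain ⟨Z, hZ⟩ := hcomp2.exists_bound_of_continuousOn hcont
    refine ⟨Z, fun s h1 h2 h3 h4 => hZ s ⟨?_, h3⟩⟩
    rw [Complex.mem_reProdIm]
    exact ⟨⟨h1, h2⟩, abs_le.1 h4⟩
  obtain ⟨δ, hδ⟩ : ∃ δ : ℝ, δ = min ((1 - b) / 2) (δz / 2) := ⟨_, rfl⟩
  have hδ0 : 0 < δ := by rw [hδ]; exact lt_min (by linarith) (by linarith)
  have hδb : δ ≤ (1 - b) / 2 := by rw [hδ]; exact min_le_left _ _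
  have hδz2 : δ ≤ δz / 2 := by rw [hδ]; exact min_le_right _ _
  -- large parameters
  have hev : ∀ᶠ l : ℝ in atTop, 4 ≤ l ^ ((1 - b) / 2) ∧ 4 ≤ l ^ (δz / 2) ∧ 20 ≤ l ^ a ∧
      2 ≤ l ^ (1 - δ) ∧ 8 * C ≤ l ∧ 2 * Kz ≤ l ∧ Z ≤ l ∧ 4 ≤ l ∧ Real.log T₁ ≤ l := by
    filter_upwards [ev_pow ((1 - b) / 2) 4 (by linarith), ev_pow (δz / 2) 4 (by linarith),
      ev_pow a 20 ha0, ev_pow (1 - δ) 2 (by linarith), eventually_ge_atTop (8 * C),
      eventually_ge_atTop (2 * Kz), eventually_ge_atTop Z, eventually_ge_atTop 4,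
      eventually_ge_atTop (Real.log T₁)] with l h1 h2 h3 h4 h5 h6 h7 h8 h9
    exact ⟨h1, h2, h3, h4, h5, h6, h7, h8, h9⟩
  obtain ⟨T₀, hT₀⟩ := (Real.tendsto_log_atTop.eventually hev).exists_forall_of_atTop
  refine ⟨δ, B + 3, max T₀ 3, hδ0, by linarith, by
    have : (0 : ℝ) ≤ B := Nat.cast_nonneg B
    linarith, le_max_right _ _, ?_⟩
  intro T hT q hq hqT χ s hχ him hre1 hre2
  obtain ⟨h1, h2, h3, h4, h5, h6, h7, h8, h9⟩ := hT₀ T ((le_max_left _ _).trans hT)
  have hT3 : 3 ≤ T := (le_max_right _ _).trans hT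
  have hT0 : 0 < T := by linarith
  obtain ⟨l, hl⟩ : ∃ l : ℝ, l = Real.log T := ⟨_, rfl⟩
  rw [← hl] at h1 h2 h3 h4 h5 h6 h7 h8 h9 hqT hre1 ⊢
  have hl0 : 0 < l := by linarith
  have hl1 : 1 ≤ l := by linarith
  obtain ⟨l', hl'⟩ : ∃ l' : ℝ, l' = Real.log (3 * T) := ⟨_, rfl⟩
  have hll' : l ≤ l' := by
    rw [hl, hl']
    exact Real.log_le_log hT0 (by linarith)
  have hl'2 : l' ≤ 2 * l := by
    rw [hl', hl, Real.log_mul (by norm_num) hT0.ne', two_mul]
    have : Real.log 3 ≤ Real.log T := Real.log_le_log (by norm_num) hT3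
    linarith
  have hl'0 : 0 < l' := by linarith
  have hqT' : (q : ℝ) ≤ l' ^ B := hqT.trans (pow_le_pow_left₀ hl0.le hll' B)
  have hw : l ^ (δ - 1) ≤ 1 / 2 := by
    have e : l ^ (δ - 1) = (l ^ (1 - δ))⁻¹ := by
      rw [← Real.rpow_neg hl0.le]
      congr 1
      ring
    rw [e, ← one_div]
    exact one_div_le_one_div_of_le (by norm_num) h4
  have hpow : l ^ ((B : ℝ) + 3) = l ^ B * l ^ 3 := by
    rw [Real.rpow_add hl0, Real.rpow_natCast]
    norm_cast
  rw [hpow]
  have hlB : 1 ≤ l ^ B := one_le_pow₀ hl1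
  by_cases hχ1 : χ = 1
  · -- the principal character
    have him1 : 1 ≤ |s.im| := by
      rcases hχ with h | h
      · exact absurd hχ1 h
      · exact h
    have hs1 : s ≠ 1 := by
      rintro rfl
      norm_num at him1
    rw [hχ1]
    have e1 : (1 : DirichletCharacter ℂ q).LFunction s =
        (∏ p ∈ q.primeFactors, (1 - (p : ℂ) ^ (-s))) * riemannZeta s :=
      DirichletCharacter.LFunctionTrivChar_eq_mul_riemannZeta hs1
    rw [e1, norm_mul]
    have h10 := prod_le (NeZero.ne q) (s := s) (by linarith)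
    have h11 : ‖riemannZeta s‖ ≤ l ^ 3 := by
      rcases le_or_gt t₀ |s.im| with hc | hc
      · have h12 : l ^ (δ - 1) ≤ (Real.log |s.im|) ^ (δz - 1) := by
          have hlim : Real.log |s.im| ≤ l' := by
            rw [hl']
            exact Real.log_le_log (by linarith) him
          have hlim0 : 0 < Real.log |s.im| := Real.log_pos (by linarith)
          have h13 : l' ^ (δz - 1) ≤ (Real.log |s.im|) ^ (δz - 1) :=
            Real.rpow_le_rpow_of_nonpos hlim0 hlim (by linarith)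
          have h14 : (2 * l) ^ (δz - 1) ≤ l' ^ (δz - 1) :=
            Real.rpow_le_rpow_of_nonpos hl'0 hl'2 (by linarith)
          have h15 : (1 / 2 : ℝ) ≤ (2 : ℝ) ^ (δz - 1) := by
            calc (1 / 2 : ℝ) = (2 : ℝ) ^ (-1 : ℝ) := by
                  rw [Real.rpow_neg_one]
                  norm_num
              _ ≤ (2 : ℝ) ^ (δz - 1) := Real.rpow_le_rpow_of_exponent_le (by norm_num) (by linarith)
          refine le_trans ?_ (h14.trans h13)
          rw [Real.mul_rpow (by norm_num) hl0.le]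
          have h16 : l ^ (δ - 1) * 2 ≤ l ^ (δz - 1) := by
            have e : l ^ (δz - 1) = l ^ (δ - 1) * l ^ (δz - δ) := by
              rw [← Real.rpow_add hl0]
              congr 1
              ring
            rw [e]
            apply mul_le_mul_of_nonneg_left _ (Real.rpow_nonneg hl0.le _)
            have h17 : l ^ (δz / 2) ≤ l ^ (δz - δ) :=
              Real.rpow_le_rpow_of_exponent_le hl1 (by linarith)
            linarith
          have h17 : 0 ≤ l ^ (δz - 1) := Real.rpow_nonneg hl0.le _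
          nlinarith
        have h13 := hz s.re s.im hc (by linarith) hre2
        have e : (⟨s.re, s.im⟩ : ℂ) = s := rfl
        rw [e] at h13
        refine h13.trans ?_
        have h14 : Real.log |s.im| ≤ 2 * l := by
          refine le_trans ?_ hl'2
          rw [hl']
          exact Real.log_le_log (by linarith) him
        calc Kz * Real.log |s.im| ≤ Kz * (2 * l) := by gcongr
          _ = (2 * Kz) * l := by ring
          _ ≤ l * l := by gcongr
          _ = l ^ 2 := by ring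
          _ ≤ l ^ 3 := pow_le_pow_right₀ hl1 (by norm_num)
      · refine (hZ s (by linarith) hre2 him1 hc.le).trans (h7.trans ?_)
        calc l = l ^ 1 := (pow_one l).symm
          _ ≤ l ^ 3 := pow_le_pow_right₀ hl1 (by norm_num)
    exact mul_le_mul (h10.trans hqT) h11 (norm_nonneg _) (by positivity)
  · -- nonprincipal characters
    obtain ⟨f, hf⟩ : ∃ f : ℕ → ℂ, f = fun n : ℕ => if n = 0 then 0 else χ (n : ZMod q) := ⟨_, rfl⟩
    have hTT : T₁ ≤ 3 * T := by
      have h10 : Real.log T₁ ≤ Real.log (3 * T) := by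
        rw [← hl']
        linarith
      exact (Real.log_le_log_iff (by linarith) (by linarith)).1 h10
    have hdsf : ∀ x t : ℝ, ds f x t = ∑ n ∈ Icc 1 ⌊x⌋₊, χ (n : ZMod q) * nt t n := by
      intro x t
      unfold ds nt
      refine Finset.sum_congr rfl fun n hn => ?_
      have : n ≠ 0 := by
        have := (Finset.mem_Icc.1 hn).1
        omega
      rw [hf]
      simp only [if_neg this]
    have hb0 : 0 < b := by linarith
    have hx0 : 3 ≤ Real.exp (l' ^ b) := by
      have h10 : 1 ≤ l' ^ b := Real.one_le_rpow (by linarith) hb0.le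
      have h11 : (4 : ℝ) ≤ l' ^ b ∨ True := Or.inr trivial
      have h12 : (20 : ℝ) ≤ l' ^ b := by
        calc (20 : ℝ) ≤ l ^ a := h3
          _ ≤ l ^ b := Real.rpow_le_rpow_of_exponent_le hl1 hab.le
          _ ≤ l' ^ b := Real.rpow_le_rpow hl0.le hll' hb0.le
      linarith [Real.add_one_le_exp (l' ^ b)]
    have hη0 : 0 < l' ^ (-a) := Real.rpow_pos_of_pos hl'0 _
    have hη1 : l' ^ (-a) ≤ 1 / 10 := by
      rw [Real.rpow_neg hl'0.le, ← one_div]
      apply one_div_le_one_div_of_le (by norm_num)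
      have : l ^ a ≤ l' ^ a := Real.rpow_le_rpow hl0.le hll' ha0.le
      linarith
    obtain ⟨L, hLd, hLe, hLb⟩ := hgrow f (3 * T) (Real.exp (l' ^ b)) (l' ^ (-a)) (2 * q) (by linarith)
      hx0 hη0 hη1 (by rw [hf]; simp) (by
        intro n
        rw [hf]
        simp only
        split_ifs with hn
        · simp
        · have h10 : 1 ≤ n.divisors.card := Finset.card_pos.2 ⟨1, Nat.one_mem_divisors.2 hn⟩
          have h11 : (1 : ℝ) ≤ (n.divisors.card : ℝ) := by exact_mod_cast h10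
          exact (χ.norm_le_one _).trans h11) (by
        intro x hx
        rw [hdsf]
        have e : ∀ n ∈ Icc 1 ⌊x⌋₊, χ (n : ZMod q) * nt 0 n = χ (n : ZMod q) := by
          intro n _
          unfold nt
          simp
        rw [Finset.sum_congr rfl e]
        refine (H370.DL.norm_sum_Icc_le hχ1 _).trans ?_
        have h10 : (1 : ℝ) ≤ q := by exact_mod_cast Nat.one_le_iff_ne_zero.2 (NeZero.ne q)
        have h11 : 1 ≤ x ^ (9 / 10 : ℝ) := Real.one_le_rpow hx (by norm_num)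
        nlinarith) (by
        intro x t hx ht
        rw [hdsf]
        have h10 := hec (3 * T) x t q hq χ hTT
        rw [← hl'] at h10
        exact h10 hx ht hqT' hχ1)
    have hmin : l ^ (δ - 1) ≤ min (l' ^ (-a) / 2) (1 / Real.log (Real.exp (l' ^ b))) := by
      have h10 : l ^ (δ - 1) * 4 ≤ l ^ (-b) := by
        have e : l ^ (-b) = l ^ (δ - 1) * l ^ (1 - b - δ) := by
          rw [← Real.rpow_add hl0]
          congr 1
          ring
        rw [e]
        apply mul_le_mul_of_nonneg_left _ (Real.rpow_nonneg hl0.le _)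
        refine h1.trans (Real.rpow_le_rpow_of_exponent_le hl1 (by linarith))
      have h11 : l ^ (-b) ≤ 2 * l' ^ (-b) := by
        have h12 : (2 * l) ^ (-b) ≤ l' ^ (-b) := Real.rpow_le_rpow_of_nonpos hl'0 hl'2 (by linarith)
        rw [Real.mul_rpow (by norm_num) hl0.le] at h12
        have h13 : (1 / 2 : ℝ) ≤ (2 : ℝ) ^ (-b) := by
          calc (1 / 2 : ℝ) = (2 : ℝ) ^ (-1 : ℝ) := by
                rw [Real.rpow_neg_one]
                norm_num
            _ ≤ (2 : ℝ) ^ (-b) := Real.rpow_le_rpow_of_exponent_le (by norm_num) (by linarith)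
        have h14 : 0 ≤ l ^ (-b) := Real.rpow_nonneg hl0.le _
        nlinarith
      have h12 : l' ^ (-b) ≤ l' ^ (-a) :=
        Real.rpow_le_rpow_of_exponent_le (by linarith) (by linarith)
      have h13 : 0 ≤ l ^ (δ - 1) := Real.rpow_nonneg hl0.le _
      apply le_min
      · linarith
      · rw [Real.log_exp, one_div, ← Real.rpow_neg hl'0.le]
        linarith
    have hmin2 : min (l' ^ (-a) / 2) (1 / Real.log (Real.exp (l' ^ b))) ≤ 1 / 20 :=
      (min_le_left _ _).trans (by linarith)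
    have h10 := hLb s (by linarith) hre2 him
    have hsre : 9 / 10 < s.re := by linarith
    rw [← LF_eq hχ1 hLd (by rw [← hf]; exact hLe) s hsre]
    refine h10.trans ?_
    rw [Real.log_exp]
    have h11 : (l' ^ b) ^ 2 ≤ (2 * l) ^ 2 := by
      have h12 : l' ^ b ≤ l' ^ (1 : ℝ) := Real.rpow_le_rpow_of_exponent_le (by linarith) hb1.le
      rw [Real.rpow_one] at h12
      exact pow_le_pow_left₀ (by positivity) (h12.trans hl'2) 2
    have h12 : 1 / l' ^ (-a) ≤ 2 * l := by
      rw [Real.rpow_neg hl'0.le, one_div, inv_inv]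
      have h13 : l' ^ a ≤ l' ^ (1 : ℝ) := Real.rpow_le_rpow_of_exponent_le (by linarith) (by linarith)
      rw [Real.rpow_one] at h13
      linarith
    calc C * ((l' ^ b) ^ 2 + 1 / l' ^ (-a)) ≤ C * ((2 * l) ^ 2 + 2 * l) := by gcongr
      _ ≤ C * (8 * l ^ 2) := by
          apply mul_le_mul_of_nonneg_left _ (by linarith)
          nlinarith
      _ = (8 * C) * l ^ 2 := by ring
      _ ≤ l * l ^ 2 := by gcongr
      _ = 1 * l ^ 3 := by ring
      _ ≤ l ^ B * l ^ 3 := by gcongr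

end Pool.Agent.K9h19.CR
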