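import Pool.Agent.K9h19.CR.LInv

/-!
# Project CR, job LZF: zero free region and bound for the inverse of the Dirichlet L-functions
-/

set_option autoImplicit false

namespace Pool.Agent.K9h19.CR

open Finset Filter Topology Pool.Agent.Q236.CR

theorem lzf (hu : S_LUP) : S_LZF := by
  intro B
  obtain ⟨δ₁, K₁, T₁, hδ₁, hδ₁1, hK₁, hT₁, hup⟩ := hu B
  obtain ⟨C, hC, hinv⟩ := LI.invl
  have hev : ∀ᶠ l : ℝ in atTop, 8 * C * (K₁ + 2) * Real.log l ≤ l ^ (δ₁ / 2) ∧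
      3 ≤ l ^ (1 - δ₁) ∧ 8 ≤ l := by
    have h1 := (isLittleO_log_rpow_atTop (show 0 < δ₁ / 2 by linarith)).bound
      (show (0 : ℝ) < 1 / (8 * C * (K₁ + 2)) by positivity)
    filter_upwards [h1, (tendsto_rpow_atTop (show 0 < 1 - δ₁ by linarith)).eventually_ge_atTop 3,
      eventually_ge_atTop 8] with l h2 h3 h4
    refine ⟨?_, h3, h4⟩
    rw [Real.norm_of_nonneg (Real.log_nonneg (by linarith)),
      Real.norm_of_nonneg (Real.rpow_nonneg (by linarith) _)] at h2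
    have h5 : 0 < 8 * C * (K₁ + 2) := by positivity
    rw [div_mul_eq_mul_div, one_mul, le_div_iff₀ h5] at h2
    linarith
  obtain ⟨T₀, hT₀⟩ := (Real.tendsto_log_atTop.eventually hev).exists_forall_of_atTop
  refine ⟨δ₁ / 2, (K₁ + 2) * C, max (max T₀ T₁) 3, by linarith, by linarith, by nlinarith,
    le_max_right _ _, ?_⟩
  intro T hT q hq hqT χ s him1 him2 hre1 hre2
  obtain ⟨h1, h2, h3⟩ := hT₀ T ((le_max_left _ _).trans ((le_max_left _ _).trans hT))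
  have hTT₁ : T₁ ≤ T := (le_max_right _ _).trans ((le_max_left _ _).trans hT)
  have hT3 : 3 ≤ T := (le_max_right _ _).trans hT
  have hup' := hup T hTT₁ q hq hqT
  obtain ⟨l, hl⟩ : ∃ l : ℝ, l = Real.log T := ⟨_, rfl⟩
  rw [← hl] at h1 h2 h3 hre1 hup' ⊢
  have hl0 : 0 < l := by linarith
  have hl1 : 1 ≤ l := by linarith
  obtain ⟨θ, hθ⟩ : ∃ θ : ℝ, θ = l ^ (δ₁ - 1) / 8 := ⟨_, rfl⟩
  have hpos : 0 < l ^ (δ₁ - 1) := Real.rpow_pos_of_pos hl0 _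
  have hw : l ^ (δ₁ - 1) ≤ 1 / 3 := by
    have e : l ^ (δ₁ - 1) = (l ^ (1 - δ₁))⁻¹ := by
      rw [← Real.rpow_neg hl0.le]
      congr 1
      ring
    rw [e, ← one_div]
    exact one_div_le_one_div_of_le (by norm_num) h2
  have hθ0 : 0 < θ := by rw [hθ]; positivity
  have hθ1 : θ ≤ 1 / 20 := by rw [hθ]; linarith
  have hR3 : 3 ≤ l ^ K₁ := by
    calc (3 : ℝ) ≤ l := by linarith
      _ = l ^ (1 : ℝ) := (Real.rpow_one l).symm
      _ ≤ l ^ K₁ := Real.rpow_le_rpow_of_exponent_le hl1 hK₁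
  have hre : ∀ z : ℂ, 1 - 4 * θ < z.re → 1 - l ^ (δ₁ - 1) ≤ z.re := by
    intro z hz
    rw [hθ] at hz
    linarith
  have D1 : LI.Dat χ s.im (4 * θ) θ (l ^ K₁) := by
    refine ⟨hθ0, hθ1, hR3, Or.inr (by linarith), fun z hz1 hz2 hz3 => ?_⟩
    have h4 := abs_sub_abs_le_abs_sub z.im s.im
    have h5 := abs_sub_abs_le_abs_sub s.im z.im
    rw [abs_sub_comm s.im z.im] at h5
    exact hup' χ z (Or.inr (by linarith)) (by linarith) (hre z hz1) hz2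
  have D2 : LI.Dat (χ ^ 2) (2 * s.im) (8 * θ) θ (l ^ K₁) := by
    have h2s : |2 * s.im| = 2 * |s.im| := by rw [abs_mul, abs_two]
    refine ⟨hθ0, hθ1, hR3, Or.inr (by rw [h2s]; linarith), fun z hz1 hz2 hz3 => ?_⟩
    have h4 := abs_sub_abs_le_abs_sub z.im (2 * s.im)
    have h5 := abs_sub_abs_le_abs_sub (2 * s.im) z.im
    rw [abs_sub_comm (2 * s.im) z.im] at h5
    exact hup' (χ ^ 2) z (Or.inr (by linarith)) (by linarith) (hre z hz1) hz2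
  have hRθ : l ^ K₁ / θ ≤ l ^ (K₁ + 2) := by
    rw [div_le_iff₀ hθ0, hθ]
    have e : l ^ (K₁ + 2) = l ^ K₁ * l ^ (1 - δ₁) * (l ^ δ₁ * l) := by
      rw [← Real.rpow_add hl0, ← Real.rpow_add_one hl0.ne', ← Real.rpow_add hl0]
      congr 1
      ring
    have e2 : l ^ (1 - δ₁) * l ^ (δ₁ - 1) = 1 := by
      rw [← Real.rpow_add hl0]
      norm_num
    have h4 : 1 ≤ l ^ δ₁ := Real.one_le_rpow hl1 hδ₁.le
    have h5 : 8 ≤ l ^ δ₁ * l := by nlinarith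
    have h6 : 0 ≤ l ^ K₁ := Real.rpow_nonneg hl0.le _
    calc l ^ K₁ = l ^ K₁ * (l ^ (1 - δ₁) * l ^ (δ₁ - 1)) * 1 := by rw [e2]; ring
      _ ≤ l ^ K₁ * (l ^ (1 - δ₁) * l ^ (δ₁ - 1)) * ((l ^ δ₁ * l) / 8) := by
          apply mul_le_mul_of_nonneg_left _ (by rw [e2]; linarith)
          linarith
      _ = l ^ (K₁ + 2) * (l ^ (δ₁ - 1) / 8) := by rw [e]; ring
  have hRθ0 : 0 < l ^ K₁ / θ := by
    apply div_pos _ hθ0
    linarith
  have hRθ1 : 1 < l ^ K₁ / θ := by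
    rw [lt_div_iff₀ hθ0]
    linarith
  have hlog : Real.log (l ^ K₁ / θ) ≤ (K₁ + 2) * Real.log l := by
    rw [← Real.log_rpow hl0]
    exact Real.log_le_log hRθ0 hRθ
  have hlog0 : 0 < Real.log (l ^ K₁ / θ) := Real.log_pos hRθ1
  have hσ : 1 - θ / (C * Real.log (l ^ K₁ / θ)) ≤ s.re := by
    refine le_trans ?_ hre1
    have h4 : l ^ (δ₁ / 2 - 1) ≤ θ / (C * Real.log (l ^ K₁ / θ)) := by
      rw [le_div_iff₀ (by positivity)]
      have e0 : l ^ (δ₁ - 1) = l ^ (δ₁ / 2 - 1) * l ^ (δ₁ / 2) := by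
        rw [← Real.rpow_add hl0]
        congr 1
        ring
      have e : θ = l ^ (δ₁ / 2 - 1) * l ^ (δ₁ / 2) / 8 := by rw [← e0]; exact hθ
      have h5 : 0 ≤ l ^ (δ₁ / 2 - 1) := Real.rpow_nonneg hl0.le _
      have h6 : C * Real.log (l ^ K₁ / θ) ≤ l ^ (δ₁ / 2) / 8 := by
        calc C * Real.log (l ^ K₁ / θ) ≤ C * ((K₁ + 2) * Real.log l) := by gcongr
          _ = (8 * C * (K₁ + 2) * Real.log l) / 8 := by ring
          _ ≤ _ := by linarith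
      calc l ^ (δ₁ / 2 - 1) * (C * Real.log (l ^ K₁ / θ)) ≤ l ^ (δ₁ / 2 - 1) * (l ^ (δ₁ / 2) / 8) :=
            mul_le_mul_of_nonneg_left h6 h5
        _ = l ^ (δ₁ / 2 - 1) * l ^ (δ₁ / 2) / 8 := by ring
        _ = θ := e.symm
    linarith
  obtain ⟨k1, k2⟩ := hinv q χ s.im θ (l ^ K₁) D1 D2 s.re hσ hre2
  have e : (⟨s.re, s.im⟩ : ℂ) = s := rfl
  rw [e] at k1 k2
  refine ⟨k1, k2.trans ?_⟩
  rw [Real.rpow_mul hl0.le]
  exact Real.rpow_le_rpow hRθ0.le hRθ (by linarith)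

end Pool.Agent.K9h19.CR
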