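import Pool.Agent.K9h19.CR.LInv
import Pool.Agent.K9h19.CR.PG
import Pool.Agent.Q53.CR.SHB

/-!
# Project CR, job MOC: twisted sums of the Moebius function with a character
-/

set_option autoImplicit false

namespace Pool.Agent.K9h19.CR

open Finset Filter Topology Pool.Agent.Q236.CR
open Pool.Agent.Q53.CR (norm_nt)

theorem moc (hz : S_LZF) : S_MOC := by
  intro A B K
  obtain ⟨δ, K₁, T₀, hδ, hδ1, hK₁, hT₀, hzf⟩ := hz B
  have hD1 : (1 : ℝ) ≤ (A : ℝ) + 1 := by
    have : (0 : ℝ) ≤ A := Nat.cast_nonneg A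
    linarith
  obtain ⟨L1, hL1, hasym⟩ := Pool.Agent.Y25.VK.asym δ K₁ (A + 1) hδ hD1 K
  obtain ⟨C₀, hC₀⟩ : ∃ C₀ : ℕ, C₀ = 2 * K + ⌈K₁⌉₊ + 3 := ⟨_, rfl⟩
  obtain ⟨W, hW⟩ : ∃ W : ℝ, W = ((A : ℝ) + 1) ^ K₁ := ⟨_, rfl⟩
  have hW1 : 1 ≤ W := by rw [hW]; exact Real.one_le_rpow hD1 (by linarith)
  obtain ⟨L2, hL2⟩ : ∃ L2 : ℝ, L2 = max (max L1 (Real.log T₀)) 4 := ⟨_, rfl⟩
  have hL24 : 4 ≤ L2 := by rw [hL2]; exact le_max_right _ _
  refine ⟨C₀, 288 * (5 + 4 * W) + 2 + L2 ^ K, ?_⟩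
  intro N q hq χ τ hN hqN hτ1 hτ2
  have hN0 : (0 : ℝ) < N := by exact_mod_cast (by omega : 0 < N)
  have hN1 : (1 : ℝ) ≤ N := by exact_mod_cast (by omega : 1 ≤ N)
  have hN2 : (2 : ℝ) ≤ N := by exact_mod_cast hN
  obtain ⟨l, hl⟩ : ∃ l : ℝ, l = Real.log N := ⟨_, rfl⟩
  rw [← hl] at hqN hτ1 ⊢
  have hl0 : 0 < l := by
    rw [hl]
    exact Real.log_pos (by linarith)
  have hlK : 0 < l ^ K := by positivity
  obtain ⟨a, ha⟩ : ∃ a : ℕ → ℂ, a = fun n => ((ArithmeticFunction.moebius n : ℤ) : ℂ) *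
      (χ (n : ZMod q) * nt τ n) := ⟨_, rfl⟩
  have hmu : ∀ n : ℕ, ‖((ArithmeticFunction.moebius n : ℤ) : ℂ)‖ ≤ 1 := by
    intro n
    rw [← Complex.ofReal_intCast, Complex.norm_real, Real.norm_eq_abs]
    exact_mod_cast ArithmeticFunction.abs_moebius_le_one
  have ha1 : ∀ n, ‖a n‖ ≤ 1 := by
    intro n
    rw [ha]
    simp only
    rcases Nat.eq_zero_or_pos n with rfl | hn
    · simp
    · rw [norm_mul, norm_mul, norm_nt τ n hn, mul_one]
      exact mul_le_one₀ (hmu n) (norm_nonneg _) (χ.norm_le_one _)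
  have hsum : ∑ n ∈ Icc 1 N, ((ArithmeticFunction.moebius n : ℤ) : ℂ) * (χ (n : ZMod q) * nt τ n) =
      ∑ n ∈ Icc 1 N, a n := by rw [ha]
  rw [hsum]
  rcases le_or_gt L2 l with hc | hc
  · have hl4 : 4 ≤ l := hL24.trans hc
    have hl1 : 1 ≤ l := by linarith
    have hlL1 : L1 ≤ l := by
      refine le_trans ?_ hc
      rw [hL2]
      exact (le_max_left _ _).trans (le_max_left _ _)
    have hlT : Real.log T₀ ≤ l := by
      refine le_trans ?_ hc
      rw [hL2]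
      exact (le_max_right _ _).trans (le_max_left _ _)
    obtain ⟨T, hT⟩ : ∃ T : ℝ, T = (N : ℝ) ^ (A + 1) := ⟨_, rfl⟩
    have hT0 : 0 < T := by rw [hT]; positivity
    have hlogT : Real.log T = ((A : ℝ) + 1) * l := by
      rw [hT, Real.log_pow, hl]
      push_cast
      ring
    have hTT₀ : T₀ ≤ T := by
      have h1 : Real.log T₀ ≤ Real.log T := by
        rw [hlogT]
        nlinarith
      exact (Real.log_le_log_iff (by linarith) hT0).1 h1
    have hqT : (q : ℝ) ≤ Real.log T ^ B := by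
      refine hqN.trans (pow_le_pow_left₀ hl0.le ?_ B)
      rw [hlogT]
      nlinarith
    have hzf' := hzf T hTT₀ q hq hqT χ
    rw [hlogT] at hzf'
    have hτ4 : 4 ≤ |τ| := by
      refine le_trans hl4 (le_trans ?_ hτ1)
      calc l = l ^ 1 := (pow_one l).symm
        _ ≤ l ^ C₀ := pow_le_pow_right₀ hl1 (by omega)
    obtain ⟨R, hR⟩ : ∃ R : ℝ, R = |τ| / 2 := ⟨_, rfl⟩
    have hR1 : 1 ≤ R := by rw [hR]; linarith
    have hR0 : 0 < R := by linarith
    obtain ⟨ll, hll⟩ : ∃ ll : ℝ, ll = ((A : ℝ) + 1) * l := ⟨_, rfl⟩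
    have hll1 : 1 ≤ ll := by rw [hll]; nlinarith
    have hll0 : 0 < ll := by linarith
    rw [← hll] at hzf'
    obtain ⟨w, hw⟩ : ∃ w : ℝ, w = ll ^ (δ - 1) / 2 := ⟨_, rfl⟩
    have hpos : 0 < ll ^ (δ - 1) := Real.rpow_pos_of_pos hll0 _
    have hle1 : ll ^ (δ - 1) ≤ 1 := Real.rpow_le_one_of_one_le_of_nonpos hll1 (by linarith)
    have hw0 : 0 < w := by rw [hw]; positivity
    have hw1 : w ≤ 1 / 2 := by rw [hw]; linarith
    obtain ⟨F, hF⟩ : ∃ F : ℂ → ℂ, F = fun s => (χ.LFunction (s + ⟨0, τ⟩))⁻¹ := ⟨_, rfl⟩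
    have hFe : ∀ s : ℂ, 1 < s.re → LSeries a s = F s := by
      intro s hs
      have hs' : 1 < (s + ⟨0, τ⟩ : ℂ).re := by simpa using hs
      rw [hF]
      simp only
      rw [LI.LF_inv χ hs']
      unfold LSeries
      refine tsum_congr fun n => ?_
      rcases Nat.eq_zero_or_pos n with rfl | hn
      · simp
      · have hn0 : (n : ℂ) ≠ 0 := by exact_mod_cast hn.ne'
        rw [LSeries.term_of_ne_zero hn.ne', LSeries.term_of_ne_zero hn.ne', Complex.cpow_add _ _ hn0, ha]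
        simp only
        unfold LI.cmu nt
        have h1 : (n : ℂ) ^ (-(τ : ℂ) * Complex.I) = ((n : ℂ) ^ (⟨0, τ⟩ : ℂ))⁻¹ := by
          rw [← Complex.cpow_neg]
          congr 1
          apply Complex.ext <;> simp
        rw [h1]
        have h2 : (n : ℂ) ^ (⟨0, τ⟩ : ℂ) ≠ 0 := by
          rw [Complex.cpow_def_of_ne_zero hn0]
          exact Complex.exp_ne_zero _
        field_simp
    have hFR : ∀ s : ℂ, 1 - w ≤ s.re → s.re ≤ 2 → |s.im| ≤ R →
        DifferentiableAt ℂ F s ∧ ‖F s‖ ≤ ll ^ K₁ := by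
      intro s hs1 hs2 hs3
      have him : (s + ⟨0, τ⟩ : ℂ).im = s.im + τ := by simp
      have hre : (s + ⟨0, τ⟩ : ℂ).re = s.re := by simp
      have h1 : |τ| - |s.im| ≤ |s.im + τ| := by
        have := abs_sub_abs_le_abs_sub τ (-s.im)
        rw [abs_neg, sub_neg_eq_add, add_comm τ] at this
        exact this
      have h2 : |s.im + τ| ≤ |s.im| + |τ| := abs_add_le _ _
      have h3 : 2 ≤ |(s + ⟨0, τ⟩ : ℂ).im| := by
        rw [him]
        rw [hR] at hs3
        linarith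
      have h4 : |(s + ⟨0, τ⟩ : ℂ).im| ≤ T := by
        rw [him]
        have h5 : (N : ℝ) ^ A * 2 ≤ T := by
          rw [hT, pow_succ]
          apply mul_le_mul_of_nonneg_left hN2 (by positivity)
        rw [hR] at hs3
        have h6 : 0 ≤ (N : ℝ) ^ A := by positivity
        linarith
      obtain ⟨k1, k2⟩ := hzf' (s + ⟨0, τ⟩) h3 h4 (by
        rw [hre]
        rw [hw] at hs1
        linarith) (by rw [hre]; exact hs2)
      have hne : (s + ⟨0, τ⟩ : ℂ) ≠ 1 := by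
        intro h
        rw [h] at h3
        norm_num at h3
      refine ⟨?_, ?_⟩
      · rw [hF]
        have h5 : DifferentiableAt ℂ χ.LFunction (s + ⟨0, τ⟩) :=
          DirichletCharacter.differentiableAt_LFunction χ _ (Or.inl hne)
        have h6 : DifferentiableAt ℂ (fun z : ℂ => z + (⟨0, τ⟩ : ℂ)) s := by fun_prop
        exact (DifferentiableAt.comp (g := χ.LFunction) (f := fun z : ℂ => z + (⟨0, τ⟩ : ℂ)) s h5 h6).inv k1
      · rw [hF]
        exact k2
    have hH0 : 0 < ll ^ K₁ := Real.rpow_pos_of_pos hll0 _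
    have hN3 : 3 ≤ N := by
      by_contra hcon
      have hN2' : N = 2 := by omega
      have : l ≤ 1 := by
        rw [hl, hN2']
        have := Real.log_two_lt_d9
        push_cast
        linarith
      linarith
    have hh0 : 0 < 1 / l ^ K := by positivity
    have hh1 : 1 / l ^ K ≤ 1 := by
      rw [div_le_one hlK]
      exact one_le_pow₀ hl1
    have hmain := PG.perron ha1 hFe hw0 hw1 hH0 hR1 hFR hN3 hh0 hh1
    rw [← hl] at hmain
    refine hmain.trans ?_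
    -- the three terms
    have hlK2 : 0 < l ^ (2 * K) := by positivity
    have t1 : l ^ (2 * K) * (ll ^ K₁ * Real.exp (-(w * l))) ≤ 1 := by
      have h1 := hasym l hlL1
      rw [← hll, ← hw] at h1
      refine le_trans (mul_le_mul_of_nonneg_left ?_ hlK2.le) h1
      have h2 : 0 ≤ ll ^ K₁ * Real.exp (-(2 * l)) := by positivity
      have h3 : 0 ≤ (l + 1) * Real.exp (-l) := by positivity
      linarith
    have hRl : l ^ C₀ / 2 ≤ R := by rw [hR]; linarith
    have hllK : ll ^ K₁ ≤ W * l ^ ⌈K₁⌉₊ := by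
      rw [hll, Real.mul_rpow (by linarith) hl0.le, hW]
      apply mul_le_mul_of_nonneg_left _ (by positivity)
      rw [← Real.rpow_natCast]
      exact Real.rpow_le_rpow_of_exponent_le hl1 (Nat.le_ceil _)
    have t2 : l ^ (2 * K) * (ll ^ K₁ / R ^ 2) ≤ 4 * W := by
      rw [mul_div_assoc', div_le_iff₀ (by positivity)]
      have h1 : (l ^ C₀ / 2) ^ 2 ≤ R ^ 2 := pow_le_pow_left₀ (by positivity) hRl 2
      calc l ^ (2 * K) * ll ^ K₁ ≤ l ^ (2 * K) * (W * l ^ ⌈K₁⌉₊) := by gcongr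
        _ = W * l ^ (2 * K + ⌈K₁⌉₊) := by rw [pow_add]; ring
        _ ≤ W * l ^ (C₀ * 2) := by
            apply mul_le_mul_of_nonneg_left _ (by linarith)
            exact pow_le_pow_right₀ hl1 (by omega)
        _ = 4 * W * (l ^ C₀ / 2) ^ 2 := by rw [pow_mul]; ring
        _ ≤ 4 * W * R ^ 2 := by gcongr
    have t3 : l ^ (2 * K) * ((l + 1) / R) ≤ 4 := by
      rw [mul_div_assoc', div_le_iff₀ hR0]
      calc l ^ (2 * K) * (l + 1) ≤ l ^ (2 * K) * (2 * l) := by gcongr; linarith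
        _ = 2 * l ^ (2 * K + 1) := by ring
        _ ≤ 2 * l ^ C₀ := by
            apply mul_le_mul_of_nonneg_left _ (by norm_num)
            exact pow_le_pow_right₀ hl1 (by omega)
        _ = 4 * (l ^ C₀ / 2) := by ring
        _ ≤ 4 * R := by gcongr
    have t4 : l ^ (2 * K) * (ll ^ K₁ * Real.exp (-(w * l)) + ll ^ K₁ / R ^ 2 + (l + 1) / R) ≤
        5 + 4 * W := by
      rw [mul_add, mul_add]
      linarith
    have t5 : 288 * (N : ℝ) * (ll ^ K₁ * Real.exp (-(w * l)) + ll ^ K₁ / R ^ 2 + (l + 1) / R) /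
        (1 / l ^ K) ≤ 288 * (5 + 4 * W) * N / l ^ K := by
      rw [div_le_iff₀ hh0]
      have e : 288 * (5 + 4 * W) * (N : ℝ) / l ^ K * (1 / l ^ K) =
          288 * N * ((5 + 4 * W) / l ^ (2 * K)) := by
        rw [two_mul, pow_add]
        field_simp
      rw [e]
      apply mul_le_mul_of_nonneg_left _ (by positivity)
      rw [le_div_iff₀ hlK2, mul_comm]
      exact t4
    have t6 : 2 * (1 / l ^ K) * (N : ℝ) = 2 * N / l ^ K := by ring
    calc _ ≤ 288 * (5 + 4 * W) * N / l ^ K + 2 * N / l ^ K := add_le_add t5 t6.le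
      _ = (288 * (5 + 4 * W) + 2) * N / l ^ K := by ring
      _ ≤ (288 * (5 + 4 * W) + 2 + L2 ^ K) * N / l ^ K := by
          apply div_le_div_of_nonneg_right _ hlK.le
          apply mul_le_mul_of_nonneg_right _ hN0.le
          have : 0 ≤ L2 ^ K := by positivity
          linarith
  · have h1 : ‖∑ n ∈ Icc 1 N, a n‖ ≤ N := by
      refine (norm_sum_le _ _).trans ?_
      refine (Finset.sum_le_sum (g := fun _ => (1 : ℝ)) fun n _ => ha1 n).trans ?_
      simp
    refine h1.trans ?_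
    rw [le_div_iff₀ hlK]
    have h2 : l ^ K ≤ L2 ^ K := pow_le_pow_left₀ hl0.le hc.le K
    have h3 : 0 ≤ (288 * (5 + 4 * W) + 2) * (N : ℝ) := by positivity
    calc (N : ℝ) * l ^ K ≤ N * L2 ^ K := by gcongr
      _ ≤ (288 * (5 + 4 * W) + 2 + L2 ^ K) * N := by linarith

end Pool.Agent.K9h19.CR
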