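import Pool.Agent.K9h19.CR.TNB
import Pool.Agent.K9h19.CR.ZSB
import Pool.Agent.K9h19.CR.CHR
import Pool.Agent.K9h19.CR.LZF
import Pool.Agent.K9h19.CR.LUP
import Pool.Agent.K9h19.CR.MOC
import Pool.Agent.Q53.CR.SHB
import Pool.Agent.Q53.CR.SDB

/-!
# The assembly of the statements on the characters
-/

set_option autoImplicit false

namespace Pool.Agent.K9h19.CR

open Pool.Agent.Q236.CR

theorem s_chr : S_CHR := chr (zsb Pool.Agent.Q53.CR.shb tnb) Pool.Agent.Q53.CR.sdb

theorem s_moc : S_MOC := moc (lzf (lup s_chr))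

end Pool.Agent.K9h19.CR
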