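import Pool.Agent.K9h19.CR.SM3

/-!
# Exceptional constant terms for one window; gluing
-/

set_option autoImplicit false

namespace Pool.Agent.K9h19.CR

open Finset Filter Topology
open Pool.Agent.Q236.CR
open Pool.Agent.H373R2.T7 (lamz Vz pz Vz_pos Vz_inv_small)

theorem wdiff0 {M v w : ℝ} (hM : 3 ≤ M) (hv : M ≤ v) (hvw : v ≤ w) :
    |1 / Real.log v - 1 / Real.log w| ≤ |v - w| / M := by
  have hv0 : 0 < v := by linarith
  have hw0 : 0 < w := by linarith
  have h3 : (1 : ℝ) ≤ Real.log v := by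
    rw [Real.le_log_iff_exp_le hv0]
    have := Real.exp_one_lt_d9
    linarith
  have h4 : Real.log v ≤ Real.log w := Real.log_le_log hv0 hvw
  have h5 : 0 ≤ 1 / Real.log v - 1 / Real.log w := by
    rw [sub_nonneg]
    exact one_div_le_one_div_of_le (by linarith) h4
  rw [abs_of_nonneg h5, abs_of_nonpos (by linarith)]
  have h6 : 1 / Real.log v - 1 / Real.log w = (Real.log w - Real.log v) / (Real.log v * Real.log w) := by
    have h7 : Real.log v ≠ 0 := by linarith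
    have h8 : Real.log w ≠ 0 := by linarith
    field_simp
  have h7 : Real.log w - Real.log v ≤ -(v - w) / M := by
    rw [← Real.log_div hw0.ne' hv0.ne']
    have h8 := Real.log_le_sub_one_of_pos (show 0 < w / v by positivity)
    refine h8.trans ?_
    have h9 : w / v - 1 = (w - v) / v := by
      field_simp
    rw [h9]
    have h10 : -(v - w) = w - v := by ring
    rw [h10]
    exact div_le_div_of_nonneg_left (by linarith) (by linarith) hv
  rw [h6]
  have h8 : 0 ≤ Real.log w - Real.log v := by linarith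
  have h9 : (1 : ℝ) ≤ Real.log v * Real.log w :=
    one_le_mul_of_one_le_of_one_le h3 (h3.trans h4)
  calc (Real.log w - Real.log v) / (Real.log v * Real.log w) ≤ (Real.log w - Real.log v) / 1 :=
        div_le_div_of_nonneg_left h8 one_pos h9
    _ ≤ _ := by rw [div_one]; exact h7

theorem wdiff {M v w : ℝ} (hM : 3 ≤ M) (hv : M ≤ v) (hw : M ≤ w) :
    |1 / Real.log v - 1 / Real.log w| ≤ |v - w| / M := by
  rcases le_total v w with h | h
  · exact wdiff0 hM hv h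
  · rw [abs_sub_comm (1 / Real.log v), abs_sub_comm v w]
    exact wdiff0 hM hw h

theorem log_ge_one {n : ℕ} (hn : 3 ≤ n) : 1 ≤ Real.log n := by
  have h4 : (3 : ℝ) ≤ n := by exact_mod_cast hn
  rw [Real.le_log_iff_exp_le (by linarith)]
  have := Real.exp_one_lt_d9
  linarith

/-- the number of the primes in a window on which the weight is nearly constant -/
theorem glue {z k m : ℕ} {F : ℕ → ℕ} {S ε₁ ε₂ δ L : ℝ} (hV : (Vz z)⁻¹ ≤ L) (hS0 : 0 ≤ S) (hS : S ≤ L)
    (h1 : |∑ t ∈ Ioc k (k + m), PE z (F t)| ≤ ε₁ * m)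
    (h2 : |∑ t ∈ Ioc k (k + m), lamz z (F t) - S * m| ≤ ε₂ * m)
    (hF : ∀ t ∈ Ioc k (k + m), 3 ≤ F t)
    (hδ : ∀ t ∈ Ioc k (k + m), ∀ t' ∈ Ioc k (k + m), |1 / Real.log (F t) - 1 / Real.log (F t')| ≤ δ) :
    |∑ t ∈ Ioc k (k + m), ((if (F t).Prime then 1 else 0) - S * (1 / Real.log (F t)))| ≤
      (ε₁ + ε₂ + L * δ) * m := by
  rcases Nat.eq_zero_or_pos m with h0 | hm
  · subst h0
    simp
  have ht0 : k + 1 ∈ Ioc k (k + m) := by
    rw [mem_Ioc]
    omega
  obtain ⟨w0, hw0⟩ : ∃ w0 : ℝ, w0 = 1 / Real.log (F (k + 1)) := ⟨_, rfl⟩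
  have hw1 : |w0| ≤ 1 := by
    have h3 := log_ge_one (hF _ ht0)
    rw [hw0, abs_of_pos (by positivity), div_le_one (by linarith)]
    exact h3
  have hL0 : 0 ≤ L := hS0.trans hS
  have e1 : ∑ t ∈ Ioc k (k + m), ((if (F t).Prime then 1 else 0) - S * (1 / Real.log (F t))) =
      ∑ t ∈ Ioc k (k + m), PE z (F t) + (w0 * (∑ t ∈ Ioc k (k + m), lamz z (F t) - S * m) +
        ∑ t ∈ Ioc k (k + m), (lamz z (F t) - S) * (1 / Real.log (F t) - w0)) := by
    have e2 : S * (m : ℝ) = ∑ _t ∈ Ioc k (k + m), S := by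
      rw [Finset.sum_const, nsmul_eq_mul, Nat.card_Ioc, Nat.add_sub_cancel_left]
      ring
    rw [e2, ← Finset.sum_sub_distrib, Finset.mul_sum, ← Finset.sum_add_distrib, ← Finset.sum_add_distrib]
    apply Finset.sum_congr rfl
    intro t _
    unfold PE
    ring
  rw [e1]
  have h3 : |w0 * (∑ t ∈ Ioc k (k + m), lamz z (F t) - S * m)| ≤ ε₂ * m := by
    rw [abs_mul]
    calc |w0| * |∑ t ∈ Ioc k (k + m), lamz z (F t) - S * m| ≤
          1 * |∑ t ∈ Ioc k (k + m), lamz z (F t) - S * m| := by gcongr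
      _ ≤ ε₂ * m := by rw [one_mul]; exact h2
  have h4 : |∑ t ∈ Ioc k (k + m), (lamz z (F t) - S) * (1 / Real.log (F t) - w0)| ≤ L * δ * m := by
    refine (abs_sum_le_sum_abs _ _).trans ?_
    refine (Finset.sum_le_sum (g := fun _ => L * δ) fun t ht => ?_).trans ?_
    · rw [abs_mul]
      apply mul_le_mul _ _ (abs_nonneg _) hL0
      · have a1 := lamz_nonneg z (F t)
        have a2 := (lamz_le z (F t)).trans hV
        rw [abs_le]
        constructor <;> linarith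
      · rw [hw0]
        exact hδ t ht _ ht0
    · rw [Finset.sum_const, nsmul_eq_mul, Nat.card_Ioc, Nat.add_sub_cancel_left]
      linarith
  refine (abs_add_le _ _).trans ?_
  have h5 := abs_add_le (w0 * (∑ t ∈ Ioc k (k + m), lamz z (F t) - S * m))
    (∑ t ∈ Ioc k (k + m), (lamz z (F t) - S) * (1 / Real.log (F t) - w0))
  have h6 : (ε₁ + ε₂ + L * δ) * (m : ℝ) = ε₁ * m + (ε₂ * m + L * δ * m) := by ring
  rw [h6]
  linarith

/-- splitting an interval into blocks -/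
theorem blocks (g : ℕ → ℝ) (u y m : ℕ) (hm : 1 ≤ m) {η G : ℝ} (hη : 0 ≤ η)
    (h1 : ∀ j < y / m, |∑ t ∈ Ioc (u + j * m) (u + j * m + m), g t| ≤ η * m)
    (hG : ∀ t ∈ Ioc u (u + y), |g t| ≤ G) (hG0 : 0 ≤ G) :
    |∑ t ∈ Ioc u (u + y), g t| ≤ η * y + G * m := by
  have hind : ∀ J : ℕ, J ≤ y / m → |∑ t ∈ Ioc u (u + J * m), g t| ≤ η * (J * m : ℕ) := by
    intro J
    induction J with
    | zero => intro _; simp
    | succ J ih =>
      intro hJ
      have h2 := ih (by omega)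
      have h3 := h1 J (by omega)
      have e1 : Ioc u (u + (J + 1) * m) = Ioc u (u + J * m) ∪ Ioc (u + J * m) (u + J * m + m) := by
        have : u + (J + 1) * m = u + J * m + m := by ring
        rw [this, Finset.Ioc_union_Ioc_eq_Ioc (by omega) (by omega)]
      rw [e1, Finset.sum_union (Finset.Ioc_disjoint_Ioc_of_le le_rfl)]
      refine (abs_add_le _ _).trans ?_
      push_cast at h2 ⊢
      nlinarith
  have h2 := hind (y / m) le_rfl
  have hle : (y / m) * m ≤ y := Nat.div_mul_le_self y m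
  have e1 : Ioc u (u + y) = Ioc u (u + (y / m) * m) ∪ Ioc (u + (y / m) * m) (u + y) := by
    rw [Finset.Ioc_union_Ioc_eq_Ioc (by omega) (by omega)]
  rw [e1, Finset.sum_union (Finset.Ioc_disjoint_Ioc_of_le le_rfl)]
  refine (abs_add_le _ _).trans ?_
  apply add_le_add
  · refine h2.trans ?_
    apply mul_le_mul_of_nonneg_left _ hη
    exact_mod_cast hle
  · refine (abs_sum_le_sum_abs _ _).trans ?_
    refine (Finset.sum_le_sum (g := fun _ => G) fun t ht => hG t ?_).trans ?_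
    · rw [mem_Ioc] at ht ⊢
      omega
    · rw [Finset.sum_const, nsmul_eq_mul, Nat.card_Ioc, mul_comm]
      apply mul_le_mul_of_nonneg_left _ hG0
      have h3 : y < (y / m + 1) * m := by
        have := Nat.lt_mul_div_succ y hm
        calc y < m * (y / m + 1) := this
          _ = (y / m + 1) * m := by ring
      have h4 : u + y - (u + y / m * m) ≤ m := by
        have : (y / m + 1) * m = y / m * m + m := by ring
        omega
      exact_mod_cast h4

theorem ext0_le {z N : ℕ} (hV : (Vz z)⁻¹ ≤ Real.log N) (hL : 1 ≤ Real.log N) (v : ℤ) :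
    |ext0 (PE z) N v| ≤ 3 * Real.log N := by
  unfold ext0
  split_ifs
  · exact PE_le hV hL
  · rw [abs_zero]
    linarith

/-- the exceptional constant terms for one window -/
theorem bad_win (hc : S_CHR) (hm : S_MOC) (α : ℕ) (hα : 1 ≤ α) (A C : ℕ) : ∃ B₀ : ℕ, ∀ E : ℕ, ∃ D N₀ : ℕ,
    ∀ N : ℕ, N₀ ≤ N → ∀ z : ℕ, Real.log N ^ B₀ ≤ z → (z : ℝ) ≤ Real.log N ^ E →
    ∀ (γ : ℤ) (k m : ℕ), Real.log N ^ D ≤ m → (N : ℝ) ^ (1 / 3 : ℝ) * Real.log N ^ D ≤ (m : ℝ) ^ 2 →
    (m : ℝ) ^ 2 ≤ N → ∀ S : Finset ℤ,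
    ((S.filter (fun c : ℤ => (m : ℝ) / Real.log N ^ C <
      |∑ t ∈ Ioc k (k + m), ext0 (PE z) N (c + α * (t : ℤ) ^ 2 + γ * (t : ℤ))|)).card : ℝ) ≤
      N / Real.log N ^ A := by
  obtain ⟨B₀, hB₀⟩ := sm hc hm α hα (A + 2 * C + 4)
  refine ⟨B₀, fun E => ?_⟩
  obtain ⟨D, N₁, hsm⟩ := hB₀ E
  obtain ⟨N₂, hVz⟩ := Vz_inv_small E
  obtain ⟨N₃, hN₃⟩ := ev_natlog (P := fun l => 4300 ≤ l) (eventually_ge_atTop 4300)
  refine ⟨D + C + 5 + (A + 2 * C + 4), max (max N₁ N₂) (max N₃ 3), ?_⟩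
  intro N hN z hz1 hz2 γ k m hm1 hm2 hm3 S
  have hN1' : N₁ ≤ N := (le_max_left _ _).trans ((le_max_left _ _).trans hN)
  have g1 := hN₃ N ((le_max_left _ _).trans ((le_max_right _ _).trans hN))
  have hN3 : 3 ≤ N := (le_max_right _ _).trans ((le_max_right _ _).trans hN)
  have hN0 : (0 : ℝ) < N := by exact_mod_cast (by omega : 0 < N)
  have hN1 : (1 : ℝ) ≤ N := by exact_mod_cast (by omega : 1 ≤ N)
  obtain ⟨L, hL⟩ : ∃ L : ℝ, L = Real.log N := ⟨_, rfl⟩
  have hVz0 := hVz N ((le_max_right _ _).trans ((le_max_left _ _).trans hN)) z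
  have hsm0 := hsm N hN1' z hz1 hz2 γ k
  rw [← hL] at g1 hz1 hz2 hm1 hm2 hVz0 hsm0 ⊢
  have hL0 : 0 < L := by linarith
  have hL1 : 1 ≤ L := by linarith
  have hz1' : 1 ≤ z := by
    have : (1 : ℝ) ≤ z := (one_le_pow₀ hL1).trans hz1
    exact_mod_cast this
  have hVz' := hVz0 hz1' hz2
  have hext : ∀ v : ℤ, |ext0 (PE z) N v| ≤ 3 * L := by
    intro v
    rw [hL]
    exact ext0_le (by rw [← hL]; exact hVz') (by rw [← hL]; exact hL1) v
  have hm0 : (0 : ℝ) < m := lt_of_lt_of_le (by positivity) hm1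
  have hm1' : 1 ≤ m := by exact_mod_cast hm0
  have hP3 : 0 < L ^ (C + 3) := by positivity
  obtain ⟨K, hK⟩ : ∃ K : ℕ, K = ⌊(m : ℝ) / L ^ (C + 3)⌋₊ := ⟨_, rfl⟩
  have hK1 : (K : ℝ) ≤ m / L ^ (C + 3) := by rw [hK]; exact Nat.floor_le (by positivity)
  have hK2 : (m : ℝ) / L ^ (C + 3) < K + 1 := by rw [hK]; exact Nat.lt_floor_add_one _
  have hKm : (m : ℝ) / L ^ (C + 4) ≤ K := by
    have h1 : (L : ℝ) ≤ m / L ^ (C + 3) := by
      rw [le_div_iff₀ hP3]
      calc L * L ^ (C + 3) = L ^ (C + 4) := by ring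
        _ ≤ L ^ (D + C + 5 + (A + 2 * C + 4)) := pow_le_pow_right₀ hL1 (by omega)
        _ ≤ m := hm1
    have h2 : (m : ℝ) / L ^ (C + 4) = (m / L ^ (C + 3)) / L := by
      rw [div_div]
      ring
    rw [h2, div_le_iff₀ hL0]
    nlinarith
  have hKm' : (K : ℝ) ≤ m := hK1.trans (div_le_self hm0.le (one_le_pow₀ hL1))
  have hKD : L ^ D ≤ K := by
    refine le_trans ?_ hKm
    rw [le_div_iff₀ (by positivity), ← pow_add]
    exact (pow_le_pow_right₀ hL1 (by omega)).trans hm1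
  have hK0 : (0 : ℝ) < K := lt_of_lt_of_le (by positivity) hKD
  have h1 := hsm0 K m hm1' hKD
    (by
      calc (N : ℝ) ^ (1 / 3 : ℝ) * L ^ D ≤ (m : ℝ) ^ 2 / L ^ (C + 4) := by
            rw [le_div_iff₀ (by positivity)]
            refine le_trans ?_ hm2
            rw [mul_assoc, ← pow_add]
            apply mul_le_mul_of_nonneg_left _ (by positivity)
            exact pow_le_pow_right₀ hL1 (by omega)
        _ = (m : ℝ) * (m / L ^ (C + 4)) := by ring
        _ ≤ (m : ℝ) * K := by gcongr)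
    (by
      calc (m : ℝ) * K ≤ m * m := by gcongr
        _ = (m : ℝ) ^ 2 := by ring
        _ ≤ N := hm3) S
  have h1' : 2100 * (N * K * m / L) + N * K * (m : ℝ) ^ 2 / L ^ (A + 2 * C + 4) ≤
      N * K * (m : ℝ) ^ 2 / L ^ (A + 2 * C + 3) := by
    have e1 : N * K * (m : ℝ) ^ 2 / L ^ (A + 2 * C + 4) =
        (1 / L) * (N * K * (m : ℝ) ^ 2 / L ^ (A + 2 * C + 3)) := by
      rw [pow_succ L (A + 2 * C + 3)]
      field_simp
    have e2 : 2100 * (N * K * m / L) ≤ (2100 / L) * (N * K * (m : ℝ) ^ 2 / L ^ (A + 2 * C + 3)) := by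
      have h5 : (1 : ℝ) ≤ m / L ^ (A + 2 * C + 3) := by
        rw [one_le_div (by positivity)]
        exact (pow_le_pow_right₀ hL1 (by omega)).trans hm1
      calc 2100 * (N * K * m / L) = (2100 / L) * (N * K * m * 1) := by ring
        _ ≤ (2100 / L) * (N * K * m * (m / L ^ (A + 2 * C + 3))) := by gcongr
        _ = _ := by ring
    have h6 : 0 ≤ N * K * (m : ℝ) ^ 2 / L ^ (A + 2 * C + 3) := by positivity
    have h7 : (2100 / L) + 1 / L ≤ 1 := by
      rw [← add_div, div_le_one hL0]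
      linarith
    rw [e1]
    refine (add_le_add_left e2 _).trans ?_
    rw [← add_mul]
    calc (2100 / L + 1 / L) * (N * K * (m : ℝ) ^ 2 / L ^ (A + 2 * C + 3)) ≤
          1 * (N * K * (m : ℝ) ^ 2 / L ^ (A + 2 * C + 3)) := by gcongr
      _ = _ := one_mul _
  replace h1 := h1.trans h1'
  obtain ⟨Bd, hBd⟩ : ∃ Bd : Finset ℤ, Bd = S.filter (fun c : ℤ => (m : ℝ) / L ^ C <
      |∑ t ∈ Ioc k (k + m), ext0 (PE z) N (c + α * (t : ℤ) ^ 2 + γ * (t : ℤ))|) := ⟨_, rfl⟩
  rw [← hBd]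
  -- each bad constant term is bad for all the neighbouring windows
  have h2 : ∀ c ∈ Bd, (K : ℝ) * (m / (2 * L ^ C)) ^ 2 ≤ ∑ k' ∈ Ioc k (k + K),
      |∑ t ∈ Ioc k' (k' + m), ext0 (PE z) N (c + α * (t : ℤ) ^ 2 + γ * (t : ℤ))| ^ 2 := by
    intro c hc'
    rw [hBd, mem_filter] at hc'
    obtain ⟨G, hG⟩ : ∃ G : ℕ → ℝ, G = fun t : ℕ => ext0 (PE z) N (c + α * (t : ℤ) ^ 2 + γ * (t : ℤ)) := ⟨_, rfl⟩
    have hGb : ∀ t, |G t| ≤ 3 * L := by intro t; rw [hG]; exact hext _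
    have hbig : (m : ℝ) / L ^ C < |∑ t ∈ Ioc k (k + m), G t| := by rw [hG]; exact hc'.2
    have h3 : ∀ k' ∈ Ioc k (k + K), m / (2 * L ^ C) ≤ |∑ t ∈ Ioc k' (k' + m), G t| := by
      intro k' hk'
      rw [mem_Ioc] at hk'
      have e1 : Ioc k (k' + m) = Ioc k (k + m) ∪ Ioc (k + m) (k' + m) := by
        rw [Finset.Ioc_union_Ioc_eq_Ioc (by omega) (by omega)]
      have e2 : Ioc k (k' + m) = Ioc k k' ∪ Ioc k' (k' + m) := by
        rw [Finset.Ioc_union_Ioc_eq_Ioc (by omega) (by omega)]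
      have e3 : ∑ t ∈ Ioc k (k + m), G t + ∑ t ∈ Ioc (k + m) (k' + m), G t =
          ∑ t ∈ Ioc k k', G t + ∑ t ∈ Ioc k' (k' + m), G t := by
        rw [← Finset.sum_union (Finset.Ioc_disjoint_Ioc_of_le le_rfl), ← e1, e2,
          Finset.sum_union (Finset.Ioc_disjoint_Ioc_of_le le_rfl)]
      have hsm' : ∀ p q : ℕ, q - p ≤ K → |∑ t ∈ Ioc p q, G t| ≤ K * (3 * L) := by
        intro p q hpq
        refine (abs_sum_le_sum_abs _ _).trans ?_
        refine (Finset.sum_le_sum (g := fun _ => 3 * L) fun t _ => hGb t).trans ?_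
        rw [Finset.sum_const, nsmul_eq_mul, Nat.card_Ioc]
        apply mul_le_mul_of_nonneg_right _ (by positivity)
        exact_mod_cast hpq
      have a1 := hsm' (k + m) (k' + m) (by omega)
      have a2 := hsm' k k' (by omega)
      have a3 : |∑ t ∈ Ioc k (k + m), G t| ≤ |∑ t ∈ Ioc k' (k' + m), G t| + 2 * (K * (3 * L)) := by
        have e4 : ∑ t ∈ Ioc k (k + m), G t = ∑ t ∈ Ioc k' (k' + m), G t +
            (∑ t ∈ Ioc k k', G t - ∑ t ∈ Ioc (k + m) (k' + m), G t) := by linarith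
        rw [e4]
        refine (abs_add_le _ _).trans ?_
        have := abs_sub (∑ t ∈ Ioc k k', G t) (∑ t ∈ Ioc (k + m) (k' + m), G t)
        linarith
      have a4 : 2 * ((K : ℝ) * (3 * L)) ≤ m / (2 * L ^ C) := by
        calc 2 * ((K : ℝ) * (3 * L)) ≤ 2 * ((m / L ^ (C + 3)) * (3 * L)) := by gcongr
          _ = (m / (2 * L ^ C)) * (12 / L ^ 2) := by
              rw [pow_add L C 3]
              field_simp
              ring
          _ ≤ (m / (2 * L ^ C)) * 1 := by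
              apply mul_le_mul_of_nonneg_left _ (by positivity)
              rw [div_le_one (by positivity)]
              have : L ≤ L ^ 2 := le_self_pow₀ hL1 (by norm_num)
              linarith
          _ = _ := mul_one _
      have a5 : (m : ℝ) / L ^ C = 2 * (m / (2 * L ^ C)) := by field_simp
      linarith
    have h4 : (K : ℝ) * (m / (2 * L ^ C)) ^ 2 = ∑ _k' ∈ Ioc k (k + K), (m / (2 * L ^ C)) ^ 2 := by
      rw [Finset.sum_const, nsmul_eq_mul, Nat.card_Ioc, Nat.add_sub_cancel_left]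
    rw [h4]
    rw [hG] at h3
    apply Finset.sum_le_sum
    intro k' hk'
    exact pow_le_pow_left₀ (by positivity) (h3 k' hk') 2
  have h3 : (Bd.card : ℝ) * ((K : ℝ) * (m / (2 * L ^ C)) ^ 2) ≤ N * K * (m : ℝ) ^ 2 / L ^ (A + 2 * C + 3) := by
    refine le_trans ?_ h1
    rw [Finset.sum_comm]
    calc (Bd.card : ℝ) * ((K : ℝ) * (m / (2 * L ^ C)) ^ 2) = ∑ _c ∈ Bd, ((K : ℝ) * (m / (2 * L ^ C)) ^ 2) := by
          rw [Finset.sum_const, nsmul_eq_mul]
      _ ≤ ∑ c ∈ Bd, ∑ k' ∈ Ioc k (k + K),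
          |∑ t ∈ Ioc k' (k' + m), ext0 (PE z) N (c + α * (t : ℤ) ^ 2 + γ * (t : ℤ))| ^ 2 :=
          Finset.sum_le_sum h2
      _ ≤ _ := by
          apply Finset.sum_le_sum_of_subset_of_nonneg
          · rw [hBd]
            exact filter_subset _ _
          · intro c _ _
            positivity
  have h4 : (Bd.card : ℝ) * ((K : ℝ) * (m : ℝ) ^ 2 / (4 * L ^ (2 * C))) ≤
      (4 * N / L ^ (A + 3)) * ((K : ℝ) * (m : ℝ) ^ 2 / (4 * L ^ (2 * C))) := by
    have e1 : (K : ℝ) * (m / (2 * L ^ C)) ^ 2 = (K : ℝ) * (m : ℝ) ^ 2 / (4 * L ^ (2 * C)) := by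
      rw [div_pow, mul_pow, ← pow_mul, mul_comm C 2]
      field_simp
      try norm_num
    have e2 : N * K * (m : ℝ) ^ 2 / L ^ (A + 2 * C + 3) =
        (4 * N / L ^ (A + 3)) * ((K : ℝ) * (m : ℝ) ^ 2 / (4 * L ^ (2 * C))) := by
      have : L ^ (A + 2 * C + 3) = L ^ (A + 3) * L ^ (2 * C) := by ring
      rw [this]
      field_simp
    rw [← e1, ← e2] at *
    exact h3
  have h5 := le_of_mul_le_mul_right h4 (by positivity)
  refine h5.trans ?_
  rw [div_le_div_iff₀ (by positivity) (by positivity)]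
  calc 4 * (N : ℝ) * L ^ A ≤ L ^ 3 * N * L ^ A := by
        have : L ≤ L ^ 3 := le_self_pow₀ hL1 (by norm_num)
        gcongr
        linarith
    _ = N * L ^ (A + 3) := by ring

end Pool.Agent.K9h19.CR
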