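import Pool.Agent.K9h19.CR.MD1

/-!
# The model in windows: the mean square over the quadratic polynomials
-/

set_option autoImplicit false

namespace Pool.Agent.K9h19.CR

open Finset Filter Topology
open Pool.Agent.H373R2.T7 (lamz Vz pz Vz_pos nuB PerB nuB_le mem_pz)

/-- the model at an integer -/
noncomputable def sgz (z : ℕ) (v : ℤ) : ℝ := if ∀ p ∈ pz z, ¬ (p : ℤ) ∣ v then (Vz z)⁻¹ else 0

theorem lamz_eq_sgz {z : ℕ} {v : ℤ} (hv : 0 ≤ v) : lamz z v.toNat = sgz z v := by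
  unfold lamz sgz
  have h : ∀ p : ℕ, p ∣ v.toNat ↔ (p : ℤ) ∣ v := by
    intro p
    have e : ((v.toNat : ℕ) : ℤ) = v := Int.toNat_of_nonneg hv
    rw [← Int.natCast_dvd_natCast, e]
  simp only [h]

theorem sgz_nonneg (z : ℕ) (v : ℤ) : 0 ≤ sgz z v := by
  unfold sgz
  have := inv_pos.2 (Vz_pos z)
  split_ifs
  · exact this.le
  · exact le_rfl

theorem sgz_le (z : ℕ) (v : ℤ) : sgz z v ≤ (Vz z)⁻¹ := by
  unfold sgz
  have := inv_pos.2 (Vz_pos z)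
  split_ifs
  · exact le_rfl
  · exact this.le

/-- the correlation -/
noncomputable def WW (z : ℕ) (h : ℤ) : ℝ :=
  ((Vz z)⁻¹) ^ 2 * ∏ p ∈ pz z, (1 - (if (p : ℤ) ∣ h then 1 else 2) / (p : ℝ))

/-- the average of the correlation -/
noncomputable def gz (z : ℕ) (j : ℤ) : ℝ := ∏ p ∈ pz z, (if (p : ℤ) ∣ j then (1 - 1 / (p : ℝ))⁻¹ else 1)

theorem cnt_dvd {d : ℕ} (hd : 1 ≤ d) (r : ℤ) (B K : ℕ) :
    |(((Ioc B (B + K)).filter (fun b : ℕ => (d : ℤ) ∣ b + r)).card : ℝ) - K / d| ≤ 1 := by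
  have hd0 : (0 : ℤ) < d := by exact_mod_cast hd
  have hdr : (0 : ℝ) < d := by exact_mod_cast hd
  have e1 : ((Ioc B (B + K)).filter (fun b : ℕ => (d : ℤ) ∣ b + r)).card =
      ((Ioc ((B : ℤ) + r) (B + K + r)).filter (fun v : ℤ => (d : ℤ) ∣ v)).card := by
    refine card_nbij' (fun b => (b : ℤ) + r) (fun v => (v - r).toNat) ?_ ?_ ?_ ?_
    · intro b hb
      rw [mem_coe, mem_filter, mem_Ioc] at hb
      rw [mem_coe, mem_filter, mem_Ioc]
      refine ⟨⟨?_, ?_⟩, hb.2⟩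
      · have : (B : ℤ) < b := by exact_mod_cast hb.1.1
        linarith
      · have : (b : ℤ) ≤ B + K := by exact_mod_cast hb.1.2
        linarith
    · intro v hv
      rw [mem_coe, mem_filter, mem_Ioc] at hv
      rw [mem_coe, mem_filter, mem_Ioc]
      have h2 : (((v - r).toNat : ℕ) : ℤ) = v - r := Int.toNat_of_nonneg (by omega)
      refine ⟨⟨by show B < (v - r).toNat; omega, by show (v - r).toNat ≤ B + K; omega⟩, ?_⟩
      show (d : ℤ) ∣ (((v - r).toNat : ℕ) : ℤ) + r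
      rw [h2]
      have : v - r + r = v := by ring
      rw [this]
      exact hv.2
    · intro b _
      simp
    · intro v hv
      rw [mem_coe, mem_filter, mem_Ioc] at hv
      have h2 : (((v - r).toNat : ℕ) : ℤ) = v - r := Int.toNat_of_nonneg (by omega)
      simp only [h2]
      ring
  rw [e1]
  have h1 := Int.Ioc_filter_dvd_card ((B : ℤ) + r) (B + K + r) hd0
  have h2 : (((Ioc ((B : ℤ) + r) (B + K + r)).filter (fun v : ℤ => (d : ℤ) ∣ v)).card : ℤ) =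
      ⌊(((B + K + r : ℤ) : ℚ) / (d : ℤ))⌋ - ⌊((((B : ℤ) + r : ℤ) : ℚ) / (d : ℤ))⌋ := by
    rw [h1]
    apply max_eq_left
    rw [sub_nonneg]
    apply Int.floor_mono
    apply div_le_div_of_nonneg_right
    · push_cast
      have : (0 : ℚ) ≤ K := Nat.cast_nonneg _
      linarith
    · exact_mod_cast hd0.le
  obtain ⟨x, hx⟩ : ∃ x : ℤ, x = ⌊(((B + K + r : ℤ) : ℚ) / (d : ℤ))⌋ := ⟨_, rfl⟩
  obtain ⟨y, hy⟩ : ∃ y : ℤ, y = ⌊((((B : ℤ) + r : ℤ) : ℚ) / (d : ℤ))⌋ := ⟨_, rfl⟩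
  rw [← hx, ← hy] at h2
  have x1 : (x : ℚ) ≤ ((B + K + r : ℤ) : ℚ) / (d : ℤ) := by rw [hx]; exact Int.floor_le _
  have x2 : ((B + K + r : ℤ) : ℚ) / (d : ℤ) < x + 1 := by rw [hx]; exact Int.lt_floor_add_one _
  have y1 : (y : ℚ) ≤ (((B : ℤ) + r : ℤ) : ℚ) / (d : ℤ) := by rw [hy]; exact Int.floor_le _
  have y2 : (((B : ℤ) + r : ℤ) : ℚ) / (d : ℤ) < y + 1 := by rw [hy]; exact Int.lt_floor_add_one _
  have hdq : (0 : ℚ) < d := by exact_mod_cast hd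
  have e2 : ((B + K + r : ℤ) : ℚ) / (d : ℤ) = (((B : ℤ) + r : ℤ) : ℚ) / (d : ℤ) + K / d := by
    push_cast
    field_simp
    ring
  have h3 : ((x - y : ℤ) : ℝ) - K / d ≤ 1 := by
    have h5 : ((x - y : ℤ) : ℚ) - K / d ≤ 1 := by
      push_cast
      linarith
    have h6 : (((((x - y : ℤ) : ℚ) - K / d) : ℚ) : ℝ) ≤ ((1 : ℚ) : ℝ) := Rat.cast_le.2 h5
    push_cast at h6 ⊢
    exact h6
  have h4 : -1 ≤ ((x - y : ℤ) : ℝ) - K / d := by
    have h5 : -1 ≤ ((x - y : ℤ) : ℚ) - K / d := by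
      push_cast
      linarith
    have h6 : ((-1 : ℚ) : ℝ) ≤ (((((x - y : ℤ) : ℚ) - K / d) : ℚ) : ℝ) := Rat.cast_le.2 h5
    push_cast at h6 ⊢
    exact h6
  have e3 : (((Ioc ((B : ℤ) + r) (B + K + r)).filter (fun v : ℤ => (d : ℤ) ∣ v)).card : ℝ) =
      ((x - y : ℤ) : ℝ) := by
    exact_mod_cast h2
  rw [e3, abs_le]
  exact ⟨h4, h3⟩

/-- divisibility by all the primes of a set -/
theorem all_dvd {z : ℕ} {T : Finset ℕ} (hT : T ⊆ pz z) (v : ℤ) :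
    (∀ p ∈ T, (p : ℤ) ∣ v) ↔ ((∏ p ∈ T, p : ℕ) : ℤ) ∣ v := by
  constructor
  · intro h
    rw [Int.natCast_dvd]
    apply Finset.prod_primes_dvd
    · intro p hp
      exact (mem_pz.1 (hT hp)).2.prime
    · intro p hp
      exact Int.natCast_dvd.1 (h p hp)
  · intro h p hp
    refine dvd_trans ?_ h
    exact_mod_cast Finset.dvd_prod_of_mem (fun p => p) hp

theorem prodT_pos {z : ℕ} {T : Finset ℕ} (hT : T ⊆ pz z) : 1 ≤ ∏ p ∈ T, p :=
  Finset.prod_pos fun p hp => (mem_pz.1 (hT hp)).2.pos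

theorem Vz_inv_prod (z : ℕ) : (Vz z)⁻¹ = ∏ p ∈ pz z, (1 - 1 / (p : ℝ))⁻¹ := by
  unfold Vz
  rw [Finset.prod_inv_distrib]

/-- the average of the correlations over the linear coefficients -/
theorem b_avg (z : ℕ) (j r : ℤ) (B K : ℕ) :
    |∑ b ∈ Ioc B (B + K), WW z (j * (b + r)) - K * gz z j| ≤ (Vz z)⁻¹ := by
  classical
  obtain ⟨xp, hxp⟩ : ∃ xp : ℕ → ℝ, xp = fun p : ℕ => if (p : ℤ) ∣ j then (1 - 1 / (p : ℝ))⁻¹
    else (1 - 2 / (p : ℝ)) * ((1 - 1 / (p : ℝ))⁻¹) ^ 2 := ⟨_, rfl⟩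
  obtain ⟨yp, hyp⟩ : ∃ yp : ℕ → ℝ, yp = fun p : ℕ => if (p : ℤ) ∣ j then 0
    else 1 / (p : ℝ) * ((1 - 1 / (p : ℝ))⁻¹) ^ 2 := ⟨_, rfl⟩
  have hp2 : ∀ p ∈ pz z, (2 : ℝ) ≤ p := fun p hp => by exact_mod_cast (mem_pz.1 hp).2.two_le
  have hq : ∀ p ∈ pz z, (1 : ℝ) - 1 / p ≠ 0 := by
    intro p hp
    have h1 := hp2 p hp
    have h2 : 1 / (p : ℝ) ≤ 1 / 2 := one_div_le_one_div_of_le two_pos h1
    linarith
  have hx0 : ∀ p ∈ pz z, 0 ≤ xp p := by
    intro p hp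
    have h1 := hp2 p hp
    have h2 : 2 / (p : ℝ) ≤ 1 := by rw [div_le_one (by linarith)]; exact h1
    have h3 : 1 / (p : ℝ) ≤ 1 / 2 := one_div_le_one_div_of_le two_pos h1
    have h4 : 0 < (1 - 1 / (p : ℝ))⁻¹ := inv_pos.2 (by linarith)
    rw [hxp]
    simp only
    split_ifs
    · exact h4.le
    · apply mul_nonneg (by linarith) (by positivity)
  have hy0 : ∀ p ∈ pz z, 0 ≤ yp p := by
    intro p hp
    rw [hyp]
    simp only
    split_ifs <;> positivity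
  -- the product formula
  have hW : ∀ b : ℕ, WW z (j * (b + r)) =
      ∏ p ∈ pz z, ((if (p : ℤ) ∣ b + r then yp p else 0) + xp p) := by
    intro b
    unfold WW
    rw [Vz_inv_prod, ← Finset.prod_pow, ← Finset.prod_mul_distrib]
    apply Finset.prod_congr rfl
    intro p hp
    have hpp : Prime (p : ℤ) := Nat.prime_iff_prime_int.1 (mem_pz.1 hp).2
    have h1 := hq p hp
    have h2 : (p : ℝ) ≠ 0 := by have := hp2 p hp; linarith
    rw [hxp, hyp]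
    simp only
    have hor : (p : ℤ) ∣ j * (b + r) ↔ (p : ℤ) ∣ j ∨ (p : ℤ) ∣ (b : ℤ) + r := hpp.dvd_mul
    by_cases hj : (p : ℤ) ∣ j
    · rw [if_pos (hor.2 (Or.inl hj)), if_pos hj, if_pos hj]
      have : (if (p : ℤ) ∣ (b : ℤ) + r then (0 : ℝ) else 0) = 0 := by split_ifs <;> rfl
      rw [this, zero_add]
      field_simp
    · rw [if_neg hj, if_neg hj]
      by_cases hb : (p : ℤ) ∣ (b : ℤ) + r
      · rw [if_pos (hor.2 (Or.inr hb)), if_pos hb]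
        ring
      · rw [if_neg (fun h => (hor.1 h).elim hj hb), if_neg hb]
        ring
  have hexp : ∀ b : ℕ, WW z (j * (b + r)) = ∑ T ∈ (pz z).powerset,
      ((∏ p ∈ T, yp p) * ∏ p ∈ pz z \ T, xp p) *
        (if ((∏ p ∈ T, p : ℕ) : ℤ) ∣ (b : ℤ) + r then 1 else 0) := by
    intro b
    rw [hW, Finset.prod_add]
    apply Finset.sum_congr rfl
    intro T hT
    have hT' := mem_powerset.1 hT
    have h1 := all_dvd hT' ((b : ℤ) + r)
    by_cases h : ∀ p ∈ T, (p : ℤ) ∣ (b : ℤ) + r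
    · rw [if_pos (h1.1 h), mul_one]
      congr 1
      apply Finset.prod_congr rfl
      intro p hp
      rw [if_pos (h p hp)]
    · rw [if_neg (fun h' => h (h1.2 h')), mul_zero]
      push Not at h
      obtain ⟨p, hp, hnd⟩ := h
      rw [Finset.prod_eq_zero hp (if_neg hnd), zero_mul]
  have hgz : gz z j = ∑ T ∈ (pz z).powerset, ((∏ p ∈ T, yp p) * ∏ p ∈ pz z \ T, xp p) *
      (1 / ((∏ p ∈ T, p : ℕ) : ℝ)) := by
    have h1 : gz z j = ∏ p ∈ pz z, (yp p / p + xp p) := by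
      unfold gz
      apply Finset.prod_congr rfl
      intro p hp
      have h1 := hq p hp
      have h2 : (p : ℝ) ≠ 0 := by have := hp2 p hp; linarith
      rw [hxp, hyp]
      simp only
      by_cases hj : (p : ℤ) ∣ j
      · rw [if_pos hj, if_pos hj, if_pos hj]
        ring
      · rw [if_neg hj, if_neg hj, if_neg hj]
        have h3 : (p : ℝ) - 1 ≠ 0 := by have := hp2 p hp; linarith
        have h4 : (1 : ℝ) - 1 / p = (p - 1) / p := by field_simp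
        rw [h4]
        field_simp
        ring
    rw [h1, Finset.prod_add]
    apply Finset.sum_congr rfl
    intro T _
    rw [Finset.prod_div_distrib]
    push_cast
    ring
  have hsum : ∑ T ∈ (pz z).powerset, ((∏ p ∈ T, yp p) * ∏ p ∈ pz z \ T, xp p) = (Vz z)⁻¹ := by
    rw [← Finset.prod_add, Vz_inv_prod]
    apply Finset.prod_congr rfl
    intro p hp
    have h1 := hq p hp
    have h2 : (p : ℝ) ≠ 0 := by have := hp2 p hp; linarith
    rw [hxp, hyp]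
    simp only
    by_cases hj : (p : ℤ) ∣ j
    · rw [if_pos hj, if_pos hj, zero_add]
    · rw [if_neg hj, if_neg hj]
      have h3 : (p : ℝ) - 1 ≠ 0 := by have := hp2 p hp; linarith
      have h4 : (1 : ℝ) - 1 / p = (p - 1) / p := by field_simp
      rw [h4]
      field_simp
      ring
  have e1 : ∑ b ∈ Ioc B (B + K), WW z (j * (b + r)) - K * gz z j =
      ∑ T ∈ (pz z).powerset, ((∏ p ∈ T, yp p) * ∏ p ∈ pz z \ T, xp p) *
        ((((Ioc B (B + K)).filter (fun b : ℕ => ((∏ p ∈ T, p : ℕ) : ℤ) ∣ b + r)).card : ℝ) -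
          K / ((∏ p ∈ T, p : ℕ) : ℝ)) := by
    rw [hgz, Finset.sum_congr rfl (fun b _ => hexp b), Finset.sum_comm, Finset.mul_sum,
      ← Finset.sum_sub_distrib]
    apply Finset.sum_congr rfl
    intro T _
    rw [← Finset.mul_sum, ← Finset.sum_filter, Finset.sum_const, nsmul_eq_mul, mul_one]
    ring
  rw [e1, ← hsum]
  refine (abs_sum_le_sum_abs _ _).trans ?_
  apply Finset.sum_le_sum
  intro T hT
  have hT' := mem_powerset.1 hT
  have h1 : 0 ≤ (∏ p ∈ T, yp p) * ∏ p ∈ pz z \ T, xp p :=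
    mul_nonneg (Finset.prod_nonneg fun p hp => hy0 p (hT' hp))
      (Finset.prod_nonneg fun p hp => hx0 p (mem_sdiff.1 hp).1)
  rw [abs_mul, abs_of_nonneg h1]
  calc ((∏ p ∈ T, yp p) * ∏ p ∈ pz z \ T, xp p) *
      |(((Ioc B (B + K)).filter (fun b : ℕ => ((∏ p ∈ T, p : ℕ) : ℤ) ∣ b + r)).card : ℝ) -
          K / ((∏ p ∈ T, p : ℕ) : ℝ)| ≤ ((∏ p ∈ T, yp p) * ∏ p ∈ pz z \ T, xp p) * 1 :=
        mul_le_mul_of_nonneg_left (cnt_dvd (prodT_pos hT') r B K) h1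
    _ = _ := mul_one _

/-- the number of the classes for a pair -/
theorem nuB_pair {p : ℕ} (hp : p.Prime) (r r' : ℤ) :
    nuB (fun p n => (p : ℤ) ∣ (n : ℤ) + r ∨ (p : ℤ) ∣ (n : ℤ) + r') p =
      if (p : ℤ) ∣ r - r' then 1 else 2 := by
  classical
  have hp0 : (0 : ℤ) < p := by exact_mod_cast hp.pos
  have huniq : ∀ r : ℤ, ((range p).filter (fun n : ℕ => (p : ℤ) ∣ (n : ℤ) + r)).card = 1 := by
    intro r
    rw [Finset.card_eq_one]
    refine ⟨((-r) % (p : ℤ)).toNat, ?_⟩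
    have h1 : ((((-r) % (p : ℤ)).toNat : ℕ) : ℤ) = (-r) % (p : ℤ) :=
      Int.toNat_of_nonneg (Int.emod_nonneg _ hp0.ne')
    have h2 : (-r) % (p : ℤ) < p := Int.emod_lt_of_pos _ hp0
    have h3 : (p : ℤ) ∣ (-r) % (p : ℤ) + r := by
      have := Int.emod_add_mul_ediv (-r) p
      refine ⟨-((-r) / (p : ℤ)), ?_⟩
      linarith
    ext n
    rw [mem_filter, mem_range, mem_singleton]
    constructor
    · rintro ⟨h4, h5⟩
      have h6 := dvd_sub h5 h3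
      have h7 : (n : ℤ) + r - ((-r) % (p : ℤ) + r) = (n : ℤ) - ((((-r) % (p : ℤ)).toNat : ℕ) : ℤ) := by
        rw [h1]
        ring
      rw [h7] at h6
      exact Pool.Agent.R460.SB.eq_of_dvd h4 (by omega) h6
    · rintro rfl
      refine ⟨by omega, ?_⟩
      rw [h1]
      exact h3
  have hset : ∀ S : Finset ℕ, S = (range p).filter (fun n : ℕ => (p : ℤ) ∣ (n : ℤ) + r ∨ (p : ℤ) ∣ (n : ℤ) + r') →
      S.card = if (p : ℤ) ∣ r - r' then 1 else 2 := by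
    intro S hS
    rw [hS, Finset.filter_or]
    split_ifs with h
    · have e1 : (range p).filter (fun n : ℕ => (p : ℤ) ∣ (n : ℤ) + r') =
          (range p).filter (fun n : ℕ => (p : ℤ) ∣ (n : ℤ) + r) := by
        apply Finset.filter_congr
        intro n _
        have e2 : (n : ℤ) + r = ((n : ℤ) + r') + (r - r') := by ring
        rw [e2]
        exact (dvd_add_left h).symm
      rw [e1, Finset.union_self, huniq]
    · rw [Finset.card_union_of_disjoint, huniq, huniq]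
      rw [Finset.disjoint_left]
      intro n h1 h2
      rw [mem_filter] at h1 h2
      apply h
      have := dvd_sub h1.2 h2.2
      have e : (n : ℤ) + r - ((n : ℤ) + r') = r - r' := by ring
      rwa [e] at this
  unfold nuB
  apply hset
  ext n
  simp only [mem_filter]

/-- the correlation for a fixed pair of the values -/
theorem pair_corr (E U : ℕ) : ∃ X₀ : ℕ, ∀ X : ℕ, X₀ ≤ X → ∀ z : ℕ, 1 ≤ z → (z : ℝ) ≤ Real.log X ^ E →
    (Vz z)⁻¹ ≤ Real.log X → ∀ (r r' : ℤ) (c₀ : ℕ),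
    |∑ c ∈ Ioc c₀ (c₀ + X), sgz z (c + r) * sgz z (c + r') - X * WW z (r - r')| ≤ X / Real.log X ^ U := by
  classical
  obtain ⟨X₀, h0⟩ := sys_win' 2 E (U + 2) 1 (by norm_num)
  obtain ⟨X₁, hX₁⟩ := ev_natlog (P := fun l => 1 ≤ l) (eventually_ge_atTop 1)
  refine ⟨max X₀ X₁, fun X hX z hz hzE hV r r' c₀ => ?_⟩
  have g1 := hX₁ X ((le_max_right _ _).trans hX)
  have h1 := h0 X ((le_max_left _ _).trans hX) z hz hzE X (by rw [pow_one])
    (fun p n => (p : ℤ) ∣ (n : ℤ) + r ∨ (p : ℤ) ∣ (n : ℤ) + r') ⟨?_, ?_⟩ c₀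
  · obtain ⟨L, hL⟩ : ∃ L : ℝ, L = Real.log X := ⟨_, rfl⟩
    rw [← hL] at g1 hV h1 ⊢
    have hL0 : 0 < L := by linarith
    have hV0 := inv_pos.2 (Vz_pos z)
    have e1 : ∑ c ∈ Ioc c₀ (c₀ + X), sgz z (c + r) * sgz z (c + r') = ((Vz z)⁻¹) ^ 2 *
        (((Ioc c₀ (c₀ + X)).filter (fun n : ℕ => ∀ p ∈ pz z, ¬ ((p : ℤ) ∣ (n : ℤ) + r ∨ (p : ℤ) ∣ (n : ℤ) + r'))).card : ℝ) := by
      rw [Finset.card_eq_sum_ones, Nat.cast_sum, Finset.sum_filter, Finset.mul_sum]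
      apply Finset.sum_congr rfl
      intro c _
      unfold sgz
      by_cases ha : ∀ p ∈ pz z, ¬ (p : ℤ) ∣ (c : ℤ) + r
      · by_cases hb : ∀ p ∈ pz z, ¬ (p : ℤ) ∣ (c : ℤ) + r'
        · rw [if_pos ha, if_pos hb, if_pos (fun p hp h => h.elim (ha p hp) (hb p hp))]
          push_cast
          ring
        · have hn : ¬ ∀ p ∈ pz z, ¬ ((p : ℤ) ∣ (c : ℤ) + r ∨ (p : ℤ) ∣ (c : ℤ) + r') :=
            fun h => hb fun p hp h2 => h p hp (Or.inr h2)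
          rw [if_neg hb, if_neg hn]
          ring
      · have hn : ¬ ∀ p ∈ pz z, ¬ ((p : ℤ) ∣ (c : ℤ) + r ∨ (p : ℤ) ∣ (c : ℤ) + r') :=
          fun h => ha fun p hp h2 => h p hp (Or.inl h2)
        rw [if_neg ha, if_neg hn]
        ring
    have e2 : X * WW z (r - r') = ((Vz z)⁻¹) ^ 2 * (X * ∏ p ∈ pz z,
        (1 - (nuB (fun p n => (p : ℤ) ∣ (n : ℤ) + r ∨ (p : ℤ) ∣ (n : ℤ) + r') p : ℝ) / p)) := by
      unfold WW
      have e3 : ∏ p ∈ pz z, (1 - (nuB (fun p n => (p : ℤ) ∣ (n : ℤ) + r ∨ (p : ℤ) ∣ (n : ℤ) + r') p : ℝ) / p) =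
          ∏ p ∈ pz z, (1 - (if (p : ℤ) ∣ r - r' then 1 else 2) / (p : ℝ)) := by
        apply Finset.prod_congr rfl
        intro p hp
        rw [nuB_pair (mem_pz.1 hp).2 r r']
        push_cast
        rfl
      rw [e3]
      ring
    have h1' : |(((Ioc c₀ (c₀ + X)).filter (fun n : ℕ => ∀ p ∈ pz z, ¬ ((p : ℤ) ∣ (n : ℤ) + r ∨ (p : ℤ) ∣ (n : ℤ) + r'))).card : ℝ) -
          X * ∏ p ∈ pz z, (1 - (nuB (fun p n => (p : ℤ) ∣ (n : ℤ) + r ∨ (p : ℤ) ∣ (n : ℤ) + r') p : ℝ) / p)| ≤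
          X / L ^ (U + 2) := by
      convert h1
    rw [e1, e2, ← mul_sub, abs_mul, abs_of_pos (by positivity)]
    calc ((Vz z)⁻¹) ^ 2 * |(((Ioc c₀ (c₀ + X)).filter (fun n : ℕ => ∀ p ∈ pz z, ¬ ((p : ℤ) ∣ (n : ℤ) + r ∨ (p : ℤ) ∣ (n : ℤ) + r'))).card : ℝ) -
          X * ∏ p ∈ pz z, (1 - (nuB (fun p n => (p : ℤ) ∣ (n : ℤ) + r ∨ (p : ℤ) ∣ (n : ℤ) + r') p : ℝ) / p)| ≤
          L ^ 2 * (X / L ^ (U + 2)) := by
          exact mul_le_mul (pow_le_pow_left₀ hV0.le hV 2) h1' (abs_nonneg _) (by positivity)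
      _ = X / L ^ U := by
          rw [pow_add]
          field_simp
  · intro p n
    have h2 : ∀ r : ℤ, (p : ℤ) ∣ (n : ℤ) + r ↔ (p : ℤ) ∣ ((n % p : ℕ) : ℤ) + r := by
      intro r
      apply Int.dvd_iff_dvd_of_dvd_sub
      refine ⟨(n / p : ℕ), ?_⟩
      have h3 : (n : ℤ) = (n % p : ℕ) + p * (n / p : ℕ) := by exact_mod_cast (Nat.mod_add_div n p).symm
      have h4 : (n : ℤ) + r - (((n % p : ℕ) : ℤ) + r) = (n : ℤ) - ((n % p : ℕ) : ℤ) := by ring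
      rw [h4]
      linarith
    rw [h2 r, h2 r']
  · intro p hp
    rw [nuB_pair hp r r']
    split_ifs <;> norm_num

/-- the weights -/
noncomputable def wt (u m M s : ℕ) : ℝ := (if s ∈ Ioc u (u + m) then 1 / (m : ℝ) else 0) - 1 / M

theorem wt_abs {u m M : ℕ} (hm : 1 ≤ m) (hM : u + m ≤ M) : ∑ s ∈ Ioc 0 M, |wt u m M s| ≤ 2 := by
  have hm0 : (0 : ℝ) < m := by exact_mod_cast hm
  have hM0 : (0 : ℝ) < M := by exact_mod_cast (by omega : 0 < M)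
  have h1 : ∀ s ∈ Ioc 0 M, |wt u m M s| ≤ (if s ∈ Ioc u (u + m) then 1 / (m : ℝ) else 0) + 1 / M := by
    intro s _
    unfold wt
    have h2 : (0 : ℝ) ≤ (if s ∈ Ioc u (u + m) then 1 / (m : ℝ) else 0) := by split_ifs <;> positivity
    have h3 : (0 : ℝ) ≤ 1 / M := by positivity
    rw [abs_le]
    constructor <;> linarith
  refine (Finset.sum_le_sum h1).trans ?_
  rw [Finset.sum_add_distrib, ← Finset.sum_filter]
  have e1 : (Ioc 0 M).filter (fun s => s ∈ Ioc u (u + m)) = Ioc u (u + m) := by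
    ext s
    rw [mem_filter, mem_Ioc, mem_Ioc]
    omega
  rw [e1, Finset.sum_const, Finset.sum_const, nsmul_eq_mul, nsmul_eq_mul, Nat.card_Ioc, Nat.card_Ioc,
    Nat.add_sub_cancel_left, Nat.sub_zero]
  have e2 : (m : ℝ) * (1 / m) = 1 := by field_simp
  have e3 : (M : ℝ) * (1 / M) = 1 := by field_simp
  rw [e2, e3]
  norm_num

theorem wt_class {u m M : ℕ} (hm : 1 ≤ m) (hM : u + m ≤ M) {d : ℕ} (hd : 1 ≤ d) (r : ℤ) :
    |∑ s ∈ (Ioc 0 M).filter (fun s : ℕ => (d : ℤ) ∣ s + r), wt u m M s| ≤ 2 / m := by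
  have hm0 : (0 : ℝ) < m := by exact_mod_cast hm
  have hM0 : (0 : ℝ) < M := by exact_mod_cast (by omega : 0 < M)
  have hd0 : (0 : ℝ) < d := by exact_mod_cast hd
  have e1 : ∑ s ∈ (Ioc 0 M).filter (fun s : ℕ => (d : ℤ) ∣ s + r), wt u m M s =
      (1 / (m : ℝ)) * ((((Ioc u (u + m)).filter (fun s : ℕ => (d : ℤ) ∣ s + r)).card : ℝ) - m / d) -
      (1 / (M : ℝ)) * ((((Ioc 0 (0 + M)).filter (fun s : ℕ => (d : ℤ) ∣ s + r)).card : ℝ) - M / d) := by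
    unfold wt
    rw [Finset.sum_sub_distrib, ← Finset.sum_filter, Finset.sum_const, Finset.sum_const, nsmul_eq_mul,
      nsmul_eq_mul]
    have e2 : ((Ioc 0 M).filter (fun s : ℕ => (d : ℤ) ∣ s + r)).filter (fun s => s ∈ Ioc u (u + m)) =
        (Ioc u (u + m)).filter (fun s : ℕ => (d : ℤ) ∣ s + r) := by
      ext s
      rw [mem_filter, mem_filter, mem_filter, mem_Ioc, mem_Ioc]
      constructor
      · rintro ⟨⟨h1, h2⟩, h3⟩
        exact ⟨h3, h2⟩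
      · rintro ⟨h1, h2⟩
        exact ⟨⟨by omega, h2⟩, h1⟩
    rw [e2, zero_add]
    field_simp
    ring
  rw [e1]
  have h1 := cnt_dvd hd r u m
  have h2 := cnt_dvd hd r 0 M
  have h3 : 1 / (M : ℝ) ≤ 1 / m := one_div_le_one_div_of_le hm0 (by exact_mod_cast (by omega : m ≤ M))
  refine (abs_sub _ _).trans ?_
  rw [abs_mul, abs_mul, abs_of_pos (show (0 : ℝ) < 1 / m by positivity),
    abs_of_pos (show (0 : ℝ) < 1 / M by positivity)]
  calc 1 / (m : ℝ) * |(((Ioc u (u + m)).filter (fun s : ℕ => (d : ℤ) ∣ s + r)).card : ℝ) - m / d| +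
      1 / (M : ℝ) * |(((Ioc 0 (0 + M)).filter (fun s : ℕ => (d : ℤ) ∣ s + r)).card : ℝ) - M / d| ≤
      1 / (m : ℝ) * 1 + 1 / (m : ℝ) * 1 := by gcongr
    _ = 2 / m := by ring

/-- the quadratic form of the weights in the classes -/
theorem wt_form {u m M : ℕ} (hm : 1 ≤ m) (hM : u + m ≤ M) {d : ℕ} (hd : 1 ≤ d) :
    ∑ s ∈ Ioc 0 M, ∑ s' ∈ Ioc 0 M, wt u m M s * wt u m M s' *
      (if (d : ℤ) ∣ (s : ℤ) - s' then 1 else 0) ≤ 4 / m := by
  have hm0 : (0 : ℝ) < m := by exact_mod_cast hm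
  have h1 : ∀ s ∈ Ioc 0 M, ∑ s' ∈ Ioc 0 M, wt u m M s * wt u m M s' *
      (if (d : ℤ) ∣ (s : ℤ) - s' then 1 else 0) ≤ |wt u m M s| * (2 / m) := by
    intro s _
    have e1 : ∑ s' ∈ Ioc 0 M, wt u m M s * wt u m M s' * (if (d : ℤ) ∣ (s : ℤ) - s' then 1 else 0) =
        wt u m M s * ∑ s' ∈ (Ioc 0 M).filter (fun s' : ℕ => (d : ℤ) ∣ s' + (-(s : ℤ))), wt u m M s' := by
      rw [Finset.mul_sum, Finset.sum_filter]
      apply Finset.sum_congr rfl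
      intro s' _
      have e2 : (d : ℤ) ∣ (s : ℤ) - s' ↔ (d : ℤ) ∣ (s' : ℤ) + (-(s : ℤ)) := by
        rw [← dvd_neg]
        have : -((s : ℤ) - s') = (s' : ℤ) + (-(s : ℤ)) := by ring
        rw [this]
      by_cases h : (d : ℤ) ∣ (s' : ℤ) + (-(s : ℤ))
      · rw [if_pos h, if_pos (e2.2 h), mul_one]
      · rw [if_neg h, if_neg (fun h' => h (e2.1 h')), mul_zero]
    rw [e1]
    refine (le_abs_self _).trans ?_
    rw [abs_mul]
    exact mul_le_mul_of_nonneg_left (wt_class hm hM hd _) (abs_nonneg _)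
  refine (Finset.sum_le_sum h1).trans ?_
  rw [← Finset.sum_mul]
  calc (∑ s ∈ Ioc 0 M, |wt u m M s|) * (2 / m) ≤ 2 * (2 / m) := by
        apply mul_le_mul_of_nonneg_right (wt_abs hm hM) (by positivity)
    _ = 4 / m := by ring

/-- the expansion of the average correlation -/
theorem gz_exp (z : ℕ) (j : ℤ) : gz z j = ∑ T ∈ (pz z).powerset, (∏ p ∈ T, 1 / ((p : ℝ) - 1)) *
    (if ((∏ p ∈ T, p : ℕ) : ℤ) ∣ j then 1 else 0) := by
  classical
  have h1 : gz z j = ∏ p ∈ pz z, ((if (p : ℤ) ∣ j then 1 / ((p : ℝ) - 1) else 0) + 1) := by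
    unfold gz
    apply Finset.prod_congr rfl
    intro p hp
    have h2 : (2 : ℝ) ≤ p := by exact_mod_cast (mem_pz.1 hp).2.two_le
    have h3 : (p : ℝ) - 1 ≠ 0 := by linarith
    have h4 : (p : ℝ) ≠ 0 := by linarith
    split_ifs
    · have h5 : (1 : ℝ) - 1 / p = (p - 1) / p := by field_simp
      rw [h5]
      field_simp
      ring
    · ring
  rw [h1, Finset.prod_add]
  apply Finset.sum_congr rfl
  intro T hT
  have hT' := mem_powerset.1 hT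
  have h1 := all_dvd hT' j
  rw [Finset.prod_const_one, mul_one]
  by_cases h : ∀ p ∈ T, (p : ℤ) ∣ j
  · rw [if_pos (h1.1 h), mul_one]
    apply Finset.prod_congr rfl
    intro p hp
    rw [if_pos (h p hp)]
  · rw [if_neg (fun h' => h (h1.2 h')), mul_zero]
    push Not at h
    obtain ⟨p, hp, hnd⟩ := h
    exact Finset.prod_eq_zero hp (if_neg hnd)

theorem sum_eT (z : ℕ) : ∑ T ∈ (pz z).powerset, ∏ p ∈ T, 1 / ((p : ℝ) - 1) = (Vz z)⁻¹ := by
  classical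
  have h := gz_exp z 0
  have h2 : gz z 0 = (Vz z)⁻¹ := by
    unfold gz
    rw [Vz_inv_prod]
    apply Finset.prod_congr rfl
    intro p _
    rw [if_pos (dvd_zero _)]
  rw [← h2, h]
  apply Finset.sum_congr rfl
  intro T _
  rw [if_pos (dvd_zero _), mul_one]

theorem form_gz {u m M z : ℕ} (hm : 1 ≤ m) (hM : u + m ≤ M) :
    ∑ s ∈ Ioc 0 M, ∑ s' ∈ Ioc 0 M, wt u m M s * wt u m M s' * gz z ((s : ℤ) - s') ≤
      4 / m * (Vz z)⁻¹ := by
  classical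
  have e1 : ∑ s ∈ Ioc 0 M, ∑ s' ∈ Ioc 0 M, wt u m M s * wt u m M s' * gz z ((s : ℤ) - s') =
      ∑ T ∈ (pz z).powerset, (∏ p ∈ T, 1 / ((p : ℝ) - 1)) *
        ∑ s ∈ Ioc 0 M, ∑ s' ∈ Ioc 0 M, wt u m M s * wt u m M s' *
          (if ((∏ p ∈ T, p : ℕ) : ℤ) ∣ (s : ℤ) - s' then 1 else 0) := by
    calc ∑ s ∈ Ioc 0 M, ∑ s' ∈ Ioc 0 M, wt u m M s * wt u m M s' * gz z ((s : ℤ) - s') =
        ∑ s ∈ Ioc 0 M, ∑ T ∈ (pz z).powerset, ∑ s' ∈ Ioc 0 M, (∏ p ∈ T, 1 / ((p : ℝ) - 1)) *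
          (wt u m M s * wt u m M s' * (if ((∏ p ∈ T, p : ℕ) : ℤ) ∣ (s : ℤ) - s' then 1 else 0)) := by
          apply Finset.sum_congr rfl
          intro s _
          rw [Finset.sum_comm]
          apply Finset.sum_congr rfl
          intro s' _
          rw [gz_exp, Finset.mul_sum]
          apply Finset.sum_congr rfl
          intro T _
          ring
      _ = ∑ T ∈ (pz z).powerset, ∑ s ∈ Ioc 0 M, ∑ s' ∈ Ioc 0 M, (∏ p ∈ T, 1 / ((p : ℝ) - 1)) *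
          (wt u m M s * wt u m M s' * (if ((∏ p ∈ T, p : ℕ) : ℤ) ∣ (s : ℤ) - s' then 1 else 0)) :=
          Finset.sum_comm
      _ = _ := by
          apply Finset.sum_congr rfl
          intro T _
          rw [Finset.mul_sum]
          apply Finset.sum_congr rfl
          intro s _
          rw [Finset.mul_sum]
  rw [e1, ← sum_eT, Finset.mul_sum]
  apply Finset.sum_le_sum
  intro T hT
  have hT' := mem_powerset.1 hT
  have h1 : 0 ≤ ∏ p ∈ T, 1 / ((p : ℝ) - 1) := by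
    apply Finset.prod_nonneg
    intro p hp
    have : (2 : ℝ) ≤ p := by exact_mod_cast (mem_pz.1 (hT' hp)).2.two_le
    apply div_nonneg zero_le_one
    linarith
  rw [mul_comm (4 / (m : ℝ))]
  exact mul_le_mul_of_nonneg_left (wt_form hm hM (prodT_pos hT')) h1

/-- the mean square of the model: short windows against long windows -/
theorem model_var (E U : ℕ) : ∃ X₀ : ℕ, ∀ X : ℕ, X₀ ≤ X → ∀ z : ℕ, 1 ≤ z → (z : ℝ) ≤ Real.log X ^ E →
    (Vz z)⁻¹ ≤ Real.log X → ∀ (a : ℤ) (B K u m M c₀ : ℕ), 1 ≤ m → u + m ≤ M →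
    ∑ b ∈ Ioc B (B + K), ∑ c ∈ Ioc c₀ (c₀ + X),
      (1 / (m : ℝ) * ∑ s ∈ Ioc u (u + m), sgz z ((c : ℤ) + (a * (s : ℤ) ^ 2 + b * (s : ℤ))) -
        1 / (M : ℝ) * ∑ s ∈ Ioc 0 M, sgz z ((c : ℤ) + (a * (s : ℤ) ^ 2 + b * (s : ℤ)))) ^ 2 ≤
      X * K * (4 / m * (Vz z)⁻¹) + X * (4 * (Vz z)⁻¹) + K * (4 * (X / Real.log X ^ U)) := by
  obtain ⟨X₀, h0⟩ := pair_corr E U
  refine ⟨max X₀ 3, fun X hX z hz hzE hV a B K u m M c₀ hm hM => ?_⟩
  have h1 := h0 X ((le_max_left _ _).trans hX) z hz hzE hV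
  have hX3 : 3 ≤ X := (le_max_right _ _).trans hX
  obtain ⟨R, hR⟩ : ∃ R : ℝ, R = X / Real.log X ^ U := ⟨_, rfl⟩
  rw [← hR] at h1 ⊢
  have hR0 : 0 ≤ R := by rw [hR]; positivity
  obtain ⟨J, hJ⟩ : ∃ J : Finset ℕ, J = Ioc 0 M := ⟨_, rfl⟩
  obtain ⟨w, hw⟩ : ∃ w : ℕ → ℝ, w = wt u m M := ⟨_, rfl⟩
  have hwabs : ∑ s ∈ J, |w s| ≤ 2 := by rw [hJ, hw]; exact wt_abs hm hM
  have hV0 : 0 < (Vz z)⁻¹ := inv_pos.2 (Vz_pos z)
  -- the linear form
  have hlin : ∀ g : ℕ → ℝ, 1 / (m : ℝ) * ∑ s ∈ Ioc u (u + m), g s - 1 / (M : ℝ) * ∑ s ∈ J, g s =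
      ∑ s ∈ J, w s * g s := by
    intro g
    rw [hJ, hw]
    unfold wt
    have e1 : ∑ s ∈ Ioc 0 M, ((if s ∈ Ioc u (u + m) then 1 / (m : ℝ) else 0) - 1 / M) * g s =
        ∑ s ∈ Ioc 0 M, (if s ∈ Ioc u (u + m) then 1 / (m : ℝ) * g s else 0) -
          ∑ s ∈ Ioc 0 M, 1 / (M : ℝ) * g s := by
      rw [← Finset.sum_sub_distrib]
      apply Finset.sum_congr rfl
      intro s _
      split_ifs <;> ring
    rw [e1, ← Finset.sum_filter, Finset.mul_sum, Finset.mul_sum]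
    congr 1
    have e2 : (Ioc 0 M).filter (fun s => s ∈ Ioc u (u + m)) = Ioc u (u + m) := by
      ext s
      rw [mem_filter, mem_Ioc, mem_Ioc]
      omega
    rw [e2]
  -- the pairs, for one linear coefficient
  have hb1 : ∀ b ∈ Ioc B (B + K), ∑ c ∈ Ioc c₀ (c₀ + X),
      (1 / (m : ℝ) * ∑ s ∈ Ioc u (u + m), sgz z ((c : ℤ) + (a * (s : ℤ) ^ 2 + b * (s : ℤ))) -
        1 / (M : ℝ) * ∑ s ∈ J, sgz z ((c : ℤ) + (a * (s : ℤ) ^ 2 + b * (s : ℤ)))) ^ 2 ≤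
      X * ∑ s ∈ J, ∑ s' ∈ J, w s * w s' * WW z (((s : ℤ) - s') * (b + a * (s + s'))) + 4 * R := by
    intro b _
    have e1 : ∑ c ∈ Ioc c₀ (c₀ + X),
      (1 / (m : ℝ) * ∑ s ∈ Ioc u (u + m), sgz z ((c : ℤ) + (a * (s : ℤ) ^ 2 + b * (s : ℤ))) -
        1 / (M : ℝ) * ∑ s ∈ J, sgz z ((c : ℤ) + (a * (s : ℤ) ^ 2 + b * (s : ℤ)))) ^ 2 =
        ∑ s ∈ J, ∑ s' ∈ J, w s * w s' * ∑ c ∈ Ioc c₀ (c₀ + X),
          sgz z ((c : ℤ) + (a * (s : ℤ) ^ 2 + b * (s : ℤ))) *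
            sgz z ((c : ℤ) + (a * (s' : ℤ) ^ 2 + b * (s' : ℤ))) := by
      calc ∑ c ∈ Ioc c₀ (c₀ + X),
        (1 / (m : ℝ) * ∑ s ∈ Ioc u (u + m), sgz z ((c : ℤ) + (a * (s : ℤ) ^ 2 + b * (s : ℤ))) -
          1 / (M : ℝ) * ∑ s ∈ J, sgz z ((c : ℤ) + (a * (s : ℤ) ^ 2 + b * (s : ℤ)))) ^ 2 =
          ∑ c ∈ Ioc c₀ (c₀ + X), ∑ s ∈ J, ∑ s' ∈ J, w s * w s' *
            (sgz z ((c : ℤ) + (a * (s : ℤ) ^ 2 + b * (s : ℤ))) *
              sgz z ((c : ℤ) + (a * (s' : ℤ) ^ 2 + b * (s' : ℤ)))) := by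
            apply Finset.sum_congr rfl
            intro c _
            rw [hlin (fun s => sgz z ((c : ℤ) + (a * (s : ℤ) ^ 2 + b * (s : ℤ)))), sq,
              Finset.sum_mul_sum]
            apply Finset.sum_congr rfl
            intro s _
            apply Finset.sum_congr rfl
            intro s' _
            ring
        _ = ∑ s ∈ J, ∑ c ∈ Ioc c₀ (c₀ + X), ∑ s' ∈ J, w s * w s' *
            (sgz z ((c : ℤ) + (a * (s : ℤ) ^ 2 + b * (s : ℤ))) *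
              sgz z ((c : ℤ) + (a * (s' : ℤ) ^ 2 + b * (s' : ℤ)))) := Finset.sum_comm
        _ = _ := by
            apply Finset.sum_congr rfl
            intro s _
            rw [Finset.sum_comm]
            apply Finset.sum_congr rfl
            intro s' _
            rw [Finset.mul_sum]
    rw [e1, Finset.mul_sum]
    have h2 : ∀ s ∈ J, ∑ s' ∈ J, w s * w s' * ∑ c ∈ Ioc c₀ (c₀ + X),
          sgz z ((c : ℤ) + (a * (s : ℤ) ^ 2 + b * (s : ℤ))) *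
            sgz z ((c : ℤ) + (a * (s' : ℤ) ^ 2 + b * (s' : ℤ))) ≤
        X * ∑ s' ∈ J, w s * w s' * WW z (((s : ℤ) - s') * (b + a * (s + s'))) + |w s| * (2 * R) := by
      intro s _
      have h3 : ∀ s' ∈ J, w s * w s' * ∑ c ∈ Ioc c₀ (c₀ + X),
          sgz z ((c : ℤ) + (a * (s : ℤ) ^ 2 + b * (s : ℤ))) *
            sgz z ((c : ℤ) + (a * (s' : ℤ) ^ 2 + b * (s' : ℤ))) ≤
          X * (w s * w s' * WW z (((s : ℤ) - s') * (b + a * (s + s')))) + |w s| * (|w s'| * R) := by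
        intro s' _
        have h4 := h1 (a * (s : ℤ) ^ 2 + b * (s : ℤ)) (a * (s' : ℤ) ^ 2 + b * (s' : ℤ)) c₀
        have e2 : a * (s : ℤ) ^ 2 + b * (s : ℤ) - (a * (s' : ℤ) ^ 2 + b * (s' : ℤ)) =
            ((s : ℤ) - s') * (b + a * (s + s')) := by ring
        rw [e2] at h4
        obtain ⟨x, hx⟩ : ∃ x : ℝ, x = ∑ c ∈ Ioc c₀ (c₀ + X),
          sgz z ((c : ℤ) + (a * (s : ℤ) ^ 2 + b * (s : ℤ))) *
            sgz z ((c : ℤ) + (a * (s' : ℤ) ^ 2 + b * (s' : ℤ))) := ⟨_, rfl⟩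
        rw [← hx] at h4 ⊢
        obtain ⟨y, hy⟩ : ∃ y : ℝ, y = WW z (((s : ℤ) - s') * (b + a * (s + s'))) := ⟨_, rfl⟩
        rw [← hy] at h4 ⊢
        have h5 : w s * w s' * (x - X * y) ≤ |w s| * (|w s'| * R) := by
          refine (le_abs_self _).trans ?_
          rw [abs_mul, abs_mul, mul_assoc]
          exact mul_le_mul_of_nonneg_left (mul_le_mul_of_nonneg_left h4 (abs_nonneg _)) (abs_nonneg _)
        have e3 : w s * w s' * x = X * (w s * w s' * y) + w s * w s' * (x - X * y) := by ring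
        rw [e3]
        linarith
      refine (Finset.sum_le_sum h3).trans ?_
      rw [Finset.sum_add_distrib, ← Finset.mul_sum, ← Finset.mul_sum, ← Finset.sum_mul]
      have h4 : |w s| * ((∑ s' ∈ J, |w s'|) * R) ≤ |w s| * (2 * R) := by gcongr
      linarith
    refine (Finset.sum_le_sum h2).trans ?_
    rw [Finset.sum_add_distrib, ← Finset.sum_mul]
    have h4 : (∑ s ∈ J, |w s|) * (2 * R) ≤ 2 * (2 * R) := by gcongr
    linarith
  rw [← hJ]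
  refine (Finset.sum_le_sum hb1).trans ?_
  rw [Finset.sum_add_distrib, Finset.sum_const, nsmul_eq_mul, Nat.card_Ioc, Nat.add_sub_cancel_left]
  have hmain : ∑ b ∈ Ioc B (B + K), X * ∑ s ∈ J, ∑ s' ∈ J, w s * w s' *
      WW z (((s : ℤ) - s') * (b + a * (s + s'))) ≤ X * K * (4 / m * (Vz z)⁻¹) + X * (4 * (Vz z)⁻¹) := by
    rw [← Finset.mul_sum]
    have e1 : ∑ b ∈ Ioc B (B + K), ∑ s ∈ J, ∑ s' ∈ J, w s * w s' *
        WW z (((s : ℤ) - s') * (b + a * (s + s'))) =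
        ∑ s ∈ J, ∑ s' ∈ J, w s * w s' * ∑ b ∈ Ioc B (B + K), WW z (((s : ℤ) - s') * (b + a * (s + s'))) := by
      rw [Finset.sum_comm]
      apply Finset.sum_congr rfl
      intro s _
      rw [Finset.sum_comm]
      apply Finset.sum_congr rfl
      intro s' _
      rw [Finset.mul_sum]
    have h2 : ∀ s ∈ J, ∑ s' ∈ J, w s * w s' * ∑ b ∈ Ioc B (B + K),
        WW z (((s : ℤ) - s') * (b + a * (s + s'))) ≤
        K * ∑ s' ∈ J, w s * w s' * gz z ((s : ℤ) - s') + |w s| * (2 * (Vz z)⁻¹) := by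
      intro s _
      have h3 : ∀ s' ∈ J, w s * w s' * ∑ b ∈ Ioc B (B + K),
          WW z (((s : ℤ) - s') * (b + a * (s + s'))) ≤
          K * (w s * w s' * gz z ((s : ℤ) - s')) + |w s| * (|w s'| * (Vz z)⁻¹) := by
        intro s' _
        have h4 := b_avg z ((s : ℤ) - s') (a * (s + s')) B K
        obtain ⟨x, hx⟩ : ∃ x : ℝ, x = ∑ b ∈ Ioc B (B + K), WW z (((s : ℤ) - s') * (b + a * (s + s'))) := ⟨_, rfl⟩
        rw [← hx] at h4 ⊢
        obtain ⟨y, hy⟩ : ∃ y : ℝ, y = gz z ((s : ℤ) - s') := ⟨_, rfl⟩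
        rw [← hy] at h4 ⊢
        have h5 : w s * w s' * (x - K * y) ≤ |w s| * (|w s'| * (Vz z)⁻¹) := by
          refine (le_abs_self _).trans ?_
          rw [abs_mul, abs_mul, mul_assoc]
          exact mul_le_mul_of_nonneg_left (mul_le_mul_of_nonneg_left h4 (abs_nonneg _)) (abs_nonneg _)
        have e3 : w s * w s' * x = K * (w s * w s' * y) + w s * w s' * (x - K * y) := by ring
        rw [e3]
        linarith
      refine (Finset.sum_le_sum h3).trans ?_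
      rw [Finset.sum_add_distrib, ← Finset.mul_sum, ← Finset.mul_sum, ← Finset.sum_mul]
      have h4 : |w s| * ((∑ s' ∈ J, |w s'|) * (Vz z)⁻¹) ≤ |w s| * (2 * (Vz z)⁻¹) := by gcongr
      linarith
    have h3 : ∑ b ∈ Ioc B (B + K), ∑ s ∈ J, ∑ s' ∈ J, w s * w s' *
        WW z (((s : ℤ) - s') * (b + a * (s + s'))) ≤ K * (4 / m * (Vz z)⁻¹) + 4 * (Vz z)⁻¹ := by
      rw [e1]
      refine (Finset.sum_le_sum h2).trans ?_
      rw [Finset.sum_add_distrib, ← Finset.mul_sum, ← Finset.sum_mul]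
      have h4 : (∑ s ∈ J, |w s|) * (2 * (Vz z)⁻¹) ≤ 2 * (2 * (Vz z)⁻¹) := by gcongr
      have h5 : ∑ s ∈ J, ∑ s' ∈ J, w s * w s' * gz z ((s : ℤ) - s') ≤ 4 / m * (Vz z)⁻¹ := by
        rw [hJ, hw]
        exact form_gz hm hM
      have h6 : (K : ℝ) * ∑ s ∈ J, ∑ s' ∈ J, w s * w s' * gz z ((s : ℤ) - s') ≤ K * (4 / m * (Vz z)⁻¹) := by
        gcongr
      linarith
    calc (X : ℝ) * ∑ b ∈ Ioc B (B + K), ∑ s ∈ J, ∑ s' ∈ J, w s * w s' *
        WW z (((s : ℤ) - s') * (b + a * (s + s'))) ≤ X * (K * (4 / m * (Vz z)⁻¹) + 4 * (Vz z)⁻¹) := by gcongr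
      _ = _ := by ring
  linarith

end Pool.Agent.K9h19.CR
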