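import Pool.Agent.R460.SC.Fa
import Pool.Agent.R460.SC.Cl
import Pool.Agent.K9h19.CR.MD2
import Pool.Agent.K9h19.CR.GL

/-!
# One constant term: the limit of the product, and the number of the primes in a window
-/

set_option autoImplicit false

namespace Pool.Agent.K9h19.CR

open Finset Filter Topology
open Pool.Agent.H373R2.T7 (lamz Vz pz Vz_pos Vz_inv_small nuB mem_pz)
open Pool.Agent.R460.SB (QS Sz Sz_bd fv fv_two)
open Pool.Agent.R460.SC (Sz_split PJ_lim)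
open Pool.Agent.W468.ConjF (SJ PJ)

theorem S_lim {a b c : ℤ} (ha : 0 < a) {z V : ℕ} (hz : 2 ≤ z) (haz : a ≤ z) {L : ℝ} (hL : 64 ≤ L)
    (hV : (Vz z)⁻¹ ≤ L) (hzL : L ^ (V + 2) ≤ z) (hsq : ¬ IsSquare (b ^ 2 - 4 * a * c))
    (htail : ∀ᶠ M in atTop, |SJ (b ^ 2 - 4 * a * c) z M| ≤ 1 / L ^ (V + 2)) :
    ∃ S : ℝ, Tendsto (fun z : ℕ => Sz (-a) (-b) c z) atTop (𝓝 S) ∧
      |S - Sz (-a) (-b) c z| ≤ 12 / L ^ (V + 1) ∧ Sz (-a) (-b) c z / 2 ≤ S := by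
  have hL0 : 0 < L := by linarith
  have hL1 : 1 ≤ L := by linarith
  have hP0 : 0 < L ^ (V + 2) := by positivity
  have h5z : 5 / (z : ℝ) ≤ 5 / L ^ (V + 2) := div_le_div_of_nonneg_left (by norm_num) hP0 hzL
  have hLP : L ≤ L ^ (V + 2) := le_self_pow₀ hL1 (by omega)
  have h6 : 1 / L ^ (V + 2) + 5 / z ≤ 6 / L ^ (V + 2) := by
    have : 6 / L ^ (V + 2) = 1 / L ^ (V + 2) + 5 / L ^ (V + 2) := by ring
    linarith
  have h7 : 6 / L ^ (V + 2) ≤ 1 / 10 := by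
    rw [div_le_div_iff₀ hP0 (by norm_num)]
    linarith
  obtain ⟨ℓ, hℓ0, hℓ, hℓ1⟩ := PJ_lim hsq hz (by positivity) (h6.trans (h7.trans (by norm_num))) htail
  obtain ⟨s0, s1⟩ := Sz_bd (-a) (-b) c z
  have h10 : |ℓ - 1| ≤ 12 / L ^ (V + 2) := by
    refine hℓ1.trans ?_
    have : 12 / L ^ (V + 2) = 2 * (6 / L ^ (V + 2)) := by ring
    linarith
  refine ⟨Sz (-a) (-b) c z * ℓ, ?_, ?_, ?_⟩
  · refine (hℓ.const_mul (Sz (-a) (-b) c z)).congr' ?_
    filter_upwards [eventually_ge_atTop z] with M hM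
    rw [Sz_split ha hz haz hM]
  · have e : Sz (-a) (-b) c z * ℓ - Sz (-a) (-b) c z = Sz (-a) (-b) c z * (ℓ - 1) := by ring
    rw [e, abs_mul, abs_of_nonneg s0]
    calc Sz (-a) (-b) c z * |ℓ - 1| ≤ L * (12 / L ^ (V + 2)) := by
          apply mul_le_mul (s1.trans hV) h10 (abs_nonneg _) hL0.le
      _ = 12 / L ^ (V + 1) := by
          rw [pow_succ L (V + 1)]
          field_simp
  · have h11 : 1 / 2 ≤ ℓ := by
      have h12 : 12 / L ^ (V + 2) ≤ 1 / 2 := by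
        have : 12 / L ^ (V + 2) = 2 * (6 / L ^ (V + 2)) := by ring
        linarith
      have := (abs_le.1 (h10.trans h12)).1
      linarith
    calc Sz (-a) (-b) c z / 2 = Sz (-a) (-b) c z * (1 / 2) := by ring
      _ ≤ Sz (-a) (-b) c z * ℓ := by gcongr

theorem fv_val (a b c : ℤ) (t : ℕ) : fv (-a) (-b) c t = c + a * (t : ℤ) ^ 2 + b * (t : ℤ) := by
  unfold fv
  ring

theorem QS_fv (a b c : ℤ) (p t : ℕ) : QS (-a) (-b) c p t ↔ (p : ℤ) ∣ fv (-a) (-b) c t := by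
  unfold QS fv
  exact Iff.rfl

/-- lower bound for the values -/
theorem fv_low {a b c : ℤ} (ha : 0 < a) (t : ℕ) : c - b ^ 2 ≤ fv (-a) (-b) c t := by
  rw [fv_val]
  have h1 : (1 : ℤ) * (t : ℤ) ^ 2 ≤ a * (t : ℤ) ^ 2 := mul_le_mul_of_nonneg_right (by omega) (sq_nonneg _)
  nlinarith [sq_nonneg ((t : ℤ) + b), sq_nonneg ((t : ℤ) - b), sq_nonneg (t : ℤ), sq_nonneg b]

/-- the sum of the model over a window -/
theorem lamz_window {a b c : ℤ} (ha : 0 < a) (hc : b ^ 2 + 2 ≤ c) (z k m : ℕ) :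
    ∑ t ∈ Ioc k (k + m), lamz z (fv (-a) (-b) c t).toNat =
      ∑ t ∈ Ioc k (k + m), sgz z (fv (-a) (-b) c t) := by
  apply Finset.sum_congr rfl
  intro t _
  apply lamz_eq_sgz
  have := fv_low (b := b) (c := c) ha t
  linarith

open Classical in
theorem sgz_window (a b c : ℤ) (z k m : ℕ) :
    ∑ t ∈ Ioc k (k + m), sgz z (fv (-a) (-b) c t) =
      (Vz z)⁻¹ * (((Ioc k (k + m)).filter (fun t : ℕ => ∀ p ∈ pz z, ¬ QS (-a) (-b) c p t)).card : ℝ) := by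
  rw [Finset.card_eq_sum_ones, Nat.cast_sum, Finset.sum_filter, Finset.mul_sum]
  apply Finset.sum_congr rfl
  intro t _
  unfold sgz
  have h : (∀ p ∈ pz z, ¬ (p : ℤ) ∣ fv (-a) (-b) c t) ↔ (∀ p ∈ pz z, ¬ QS (-a) (-b) c p t) := by
    simp only [QS_fv]
  by_cases h1 : ∀ p ∈ pz z, ¬ (p : ℤ) ∣ fv (-a) (-b) c t
  · rw [if_pos h1, if_pos (h.1 h1)]
    push_cast
    ring
  · rw [if_neg h1, if_neg (fun h2 => h1 (h.2 h2))]
    push_cast
    ring

/-- the difference of two values -/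
theorem fv_sub (a b c : ℤ) (t t' : ℕ) : fv (-a) (-b) c t - fv (-a) (-b) c t' =
    ((t : ℤ) - t') * (a * (t + t') + b) := by
  rw [fv_val, fv_val]
  ring

theorem fv_diff {a b c : ℤ} (ha : 0 < a) {k m t t' : ℕ} {R : ℝ} (hR : 1 ≤ R) (hk : (k : ℝ) + m ≤ R)
    (ht : t ∈ Ioc k (k + m)) (ht' : t' ∈ Ioc k (k + m)) :
    |((fv (-a) (-b) c t : ℤ) : ℝ) - ((fv (-a) (-b) c t' : ℤ) : ℝ)| ≤ m * ((2 * a + |(b : ℝ)|) * R) := by
  rw [mem_Ioc] at ht ht'
  have e : ((fv (-a) (-b) c t : ℤ) : ℝ) - ((fv (-a) (-b) c t' : ℤ) : ℝ) =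
      ((t : ℝ) - t') * (a * (t + t') + b) := by
    have := fv_sub a b c t t'
    exact_mod_cast this
  rw [e, abs_mul]
  have ha0 : (0 : ℝ) < a := by exact_mod_cast ha
  have h1 : (t : ℝ) ≤ R := by
    have : (t : ℝ) ≤ k + m := by exact_mod_cast ht.2
    linarith
  have h2 : (t' : ℝ) ≤ R := by
    have : (t' : ℝ) ≤ k + m := by exact_mod_cast ht'.2
    linarith
  have h3 : |(t : ℝ) - t'| ≤ m := by
    have a1 : (k : ℝ) < t := by exact_mod_cast ht.1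
    have a2 : (t : ℝ) ≤ k + m := by exact_mod_cast ht.2
    have a3 : (k : ℝ) < t' := by exact_mod_cast ht'.1
    have a4 : (t' : ℝ) ≤ k + m := by exact_mod_cast ht'.2
    rw [abs_le]
    constructor <;> linarith
  have h4 : |(a : ℝ) * (t + t') + b| ≤ (2 * a + |(b : ℝ)|) * R := by
    refine (abs_add_le _ _).trans ?_
    have h5 : |(a : ℝ) * (t + t')| ≤ 2 * a * R := by
      rw [abs_of_nonneg (by positivity)]
      calc (a : ℝ) * (t + t') ≤ a * (R + R) := by gcongr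
        _ = 2 * a * R := by ring
    have h6 : |(b : ℝ)| ≤ |(b : ℝ)| * R := le_mul_of_one_le_right (abs_nonneg _) hR
    have e2 : (2 * a + |(b : ℝ)|) * R = 2 * a * R + |(b : ℝ)| * R := by ring
    linarith
  exact mul_le_mul h3 h4 (abs_nonneg _) (Nat.cast_nonneg _)

end Pool.Agent.K9h19.CR
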