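import Pool.Agent.K9h19.CR.SN1
import Pool.Agent.K9h19.CR.SR0

/-!
# Progressions: generic lemmas and the model
-/

set_option autoImplicit false

namespace Pool.Agent.K9h19.CR

open Finset Filter Topology
open Pool.Agent.Q236.CR
open Pool.Agent.H373R2.T7 (lamz Vz pz Vz_pos Vz_inv_small nuB mem_pz PerB)
open Pool.Agent.R460.SB (QS Sz Sz_bd fv QS_per)

/-- a better bound for the product of Mertens -/
theorem Vz_sqrt (E : ℕ) : ∃ N₀ : ℕ, ∀ N : ℕ, N₀ ≤ N → ∀ z : ℕ, 1 ≤ z → (z : ℝ) ≤ Real.log N ^ E →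
    ((Vz z)⁻¹) ^ 2 ≤ Real.log N := by
  obtain ⟨N₁, h1⟩ := Vz_inv_small (4 * E)
  obtain ⟨N₂, hN₂⟩ := ev_natlog (P := fun l => max 16 ((Real.log (N₁ + 1)) ^ 2) ≤ l) (eventually_ge_atTop _)
  refine ⟨N₂, fun N hN z hz hzE => ?_⟩
  have g1 := hN₂ N hN
  obtain ⟨L, hL⟩ : ∃ L : ℝ, L = Real.log N := ⟨_, rfl⟩
  rw [← hL] at g1 hzE ⊢
  have hL16 : 16 ≤ L := (le_max_left _ _).trans g1
  have hLN : (Real.log (N₁ + 1)) ^ 2 ≤ L := (le_max_right _ _).trans g1
  have hL0 : 0 < L := by linarith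
  obtain ⟨s, hs⟩ : ∃ s : ℝ, s = Real.sqrt L := ⟨_, rfl⟩
  have hss : s ^ 2 = L := by rw [hs]; exact Real.sq_sqrt hL0.le
  have hs0 : 0 ≤ s := by rw [hs]; exact Real.sqrt_nonneg _
  have hs4 : 4 ≤ s := by
    rw [hs]
    apply Real.le_sqrt_of_sq_le
    linarith
  obtain ⟨N', hN'⟩ : ∃ N' : ℕ, N' = ⌊Real.exp s⌋₊ := ⟨_, rfl⟩
  have he1 : (1 : ℝ) ≤ Real.exp s := Real.one_le_exp hs0
  have hN1 : (N' : ℝ) ≤ Real.exp s := by rw [hN']; exact Nat.floor_le (by positivity)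
  have hN2 : Real.exp s < N' + 1 := by rw [hN']; exact Nat.lt_floor_add_one _
  have hlogN1 : Real.log (N₁ + 1) ≤ s := by
    have h0 : (0 : ℝ) ≤ Real.log (N₁ + 1) := Real.log_nonneg (by
      have : (0 : ℝ) ≤ N₁ := Nat.cast_nonneg _
      linarith)
    apply le_of_sq_le_sq _ hs0
    rw [hss]
    exact hLN
  have hN₁N : N₁ ≤ N' := by
    have h2 : (N₁ : ℝ) + 1 ≤ Real.exp s := by
      rw [← Real.log_le_iff_le_exp (by positivity)]
      exact hlogN1
    have h3 : (N₁ : ℝ) + 1 < N' + 1 := lt_of_le_of_lt h2 hN2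
    have h4 : N₁ + 1 < N' + 1 := by exact_mod_cast h3
    omega
  have hN'1 : 1 ≤ N' := by
    rw [hN']
    apply Nat.le_floor
    exact_mod_cast he1
  have hN'0 : (0 : ℝ) < N' := by exact_mod_cast hN'1
  have hlog1 : Real.log N' ≤ s := by
    rw [← Real.log_exp s]
    exact Real.log_le_log hN'0 hN1
  have hlog2 : s / 2 ≤ Real.log N' := by
    have h2 : Real.exp (s / 2) ≤ N' := by
      have h3 : Real.exp s = Real.exp (s / 2) * Real.exp (s / 2) := by
        rw [← Real.exp_add]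
        congr 1
        ring
      have h4 : s / 2 + 1 ≤ Real.exp (s / 2) := Real.add_one_le_exp _
      rw [h3] at hN2
      have h5 : 2 ≤ Real.exp (s / 2) := by linarith
      have h6 : Real.exp (s / 2) * 2 ≤ Real.exp (s / 2) * Real.exp (s / 2) := by gcongr
      linarith
    rw [Real.le_log_iff_exp_le hN'0]
    exact h2
  have h3 := h1 N' hN₁N z hz (by
    refine hzE.trans ?_
    have h4 : L ^ E ≤ (s / 2) ^ (4 * E) := by
      have e : (s / 2) ^ (4 * E) = ((s / 2) ^ 4) ^ E := pow_mul _ _ _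
      rw [e]
      apply pow_le_pow_left₀ hL0.le
      have e2 : (s / 2) ^ 4 = L * (L / 16) := by
        rw [← hss]
        ring
      rw [e2]
      apply le_mul_of_one_le_right hL0.le
      linarith
    exact h4.trans (pow_le_pow_left₀ (by positivity) hlog2 _))
  have h4 : (Vz z)⁻¹ ≤ s := h3.trans hlog1
  calc ((Vz z)⁻¹) ^ 2 ≤ s ^ 2 := pow_le_pow_left₀ (inv_nonneg.2 (Vz_pos z).le) h4 2
    _ = L := hss

/-- partial summation with squares -/
theorem abel_sq (a W : ℕ → ℝ) (J : ℕ) (hJ : 1 ≤ J) (hW : ∀ t ∈ Ico 1 J, W (t + 1) ≤ W t) (hWJ : 0 ≤ W J) :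
    (∑ t ∈ Icc 1 J, a t * W t) ^ 2 ≤
      W 1 * (∑ t ∈ Ico 1 J, (∑ s ∈ Ioc 0 (0 + t), a s) ^ 2 * (W t - W (t + 1)) +
        (∑ s ∈ Ioc 0 (0 + J), a s) ^ 2 * W J) := by
  obtain ⟨A, hA⟩ : ∃ A : ℕ → ℝ, A = fun t => ∑ s ∈ Ioc 0 (0 + t), a s := ⟨_, rfl⟩
  have hA1 : ∀ t, A (t + 1) = A t + a (t + 1) := by
    intro t
    rw [hA]
    simp only
    have e : Ioc 0 (0 + (t + 1)) = insert (t + 1) (Ioc 0 (0 + t)) := by
      ext x
      rw [mem_insert, mem_Ioc, mem_Ioc]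
      omega
    rw [e, Finset.sum_insert (by rw [mem_Ioc]; omega)]
    ring
  have hA0 : A 0 = 0 := by
    rw [hA]
    simp
  -- summation by parts
  have h1 : ∀ n : ℕ, ∑ t ∈ Icc 1 (n + 1), a t * W t =
      ∑ t ∈ Ico 1 (n + 1), A t * (W t - W (t + 1)) + A (n + 1) * W (n + 1) := by
    intro n
    induction n with
    | zero =>
      rw [zero_add, Icc_self, Finset.sum_singleton, Ico_self, Finset.sum_empty, zero_add]
      have := hA1 0
      rw [zero_add, hA0, zero_add] at this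
      rw [this]
    | succ n ih =>
      have e1 : Icc 1 (n + 1 + 1) = insert (n + 1 + 1) (Icc 1 (n + 1)) := by
        ext x
        rw [mem_insert, mem_Icc, mem_Icc]
        omega
      rw [e1, Finset.sum_insert (by rw [mem_Icc]; omega), ih, Finset.sum_Ico_succ_top (by omega : 1 ≤ n + 1),
        hA1 (n + 1)]
      ring
  obtain ⟨n, rfl⟩ : ∃ n, J = n + 1 := ⟨J - 1, by omega⟩
  rw [h1 n]
  -- the weights
  have h2 : ∑ t ∈ Ico 1 (n + 1), (W t - W (t + 1)) + W (n + 1) = W 1 := by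
    have := Finset.sum_Ico_consecutive (fun t => W t - W (t + 1)) (le_refl 1) (by omega : 1 ≤ n + 1)
    have h3 : ∀ m : ℕ, ∑ t ∈ Ico 1 (m + 1), (W t - W (t + 1)) = W 1 - W (m + 1) := by
      intro m
      induction m with
      | zero => simp
      | succ m ih =>
        rw [Finset.sum_Ico_succ_top (by omega : 1 ≤ m + 1), ih]
        ring
    rw [h3]
    ring
  obtain ⟨w, hw⟩ : ∃ w : ℕ → ℝ, w = fun t => if t ∈ Ico 1 (n + 1) then W t - W (t + 1) else W (n + 1) := ⟨_, rfl⟩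
  have hw0 : ∀ t ∈ Icc 1 (n + 1), 0 ≤ w t := by
    intro t ht
    rw [hw]
    simp only
    split_ifs with h
    · linarith [hW t h]
    · exact hWJ
  have hsplit : ∀ f : ℕ → ℝ, ∑ t ∈ Icc 1 (n + 1), f t * w t =
      ∑ t ∈ Ico 1 (n + 1), f t * (W t - W (t + 1)) + f (n + 1) * W (n + 1) := by
    intro f
    have e1 : Icc 1 (n + 1) = insert (n + 1) (Ico 1 (n + 1)) := by
      ext x
      rw [mem_insert, mem_Icc, mem_Ico]
      omega
    rw [e1, Finset.sum_insert (by rw [mem_Ico]; omega), add_comm]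
    congr 1
    · apply Finset.sum_congr rfl
      intro t ht
      rw [hw]
      simp only
      rw [if_pos ht]
    · rw [hw]
      simp only
      rw [if_neg (by rw [mem_Ico]; omega)]
  have hcs := Finset.sum_sq_le_sum_mul_sum_of_sq_eq_mul (Icc 1 (n + 1)) (f := fun t => w t)
    (g := fun t => A t ^ 2 * w t) (r := fun t => A t * w t) hw0
    (fun t ht => mul_nonneg (sq_nonneg _) (hw0 t ht)) (fun t _ => by ring)
  have e3 := hsplit A
  have e4 := hsplit (fun t => A t ^ 2)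
  have e5 := hsplit (fun _ => 1)
  simp only [one_mul] at e5
  rw [h2] at e5
  rw [e3, e4, e5] at hcs
  rw [hA] at hcs ⊢
  exact hcs

/-- the product for a progression -/
noncomputable def Sq (z q : ℕ) : ℝ := (Vz z)⁻¹ * ∏ p ∈ pz z, (if p ∣ q then (1 : ℝ) else 1 - 1 / p)

/-- the condition for the linear polynomials -/
theorem lin_perB {q c : ℕ} (hqc : Nat.Coprime q c) : PerB (QS 0 (-(q : ℤ)) (c : ℤ)) 1 := by
  classical
  refine ⟨fun p m => QS_per 0 (-(q : ℤ)) (c : ℤ) p m, fun p hp => ?_⟩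
  unfold nuB
  rw [Finset.card_le_one]
  intro x hx y hy
  rw [mem_filter, mem_range] at hx hy
  have h1 : (p : ℤ) ∣ c + q * x := by
    have := hx.2
    unfold QS at this
    have e : (c : ℤ) - (0 * (x : ℤ) ^ 2 + -(q : ℤ) * x) = c + q * x := by ring
    rwa [e] at this
  have h2 : (p : ℤ) ∣ c + q * y := by
    have := hy.2
    unfold QS at this
    have e : (c : ℤ) - (0 * (y : ℤ) ^ 2 + -(q : ℤ) * y) = c + q * y := by ring
    rwa [e] at this
  have h3 : (p : ℤ) ∣ q * ((x : ℤ) - y) := by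
    have := dvd_sub h1 h2
    have e : (c + q * x : ℤ) - (c + q * y) = q * ((x : ℤ) - y) := by ring
    rwa [e] at this
  have hpz : Prime (p : ℤ) := Nat.prime_iff_prime_int.1 hp
  rcases hpz.dvd_or_dvd h3 with h4 | h4
  · exfalso
    have h5 : (p : ℤ) ∣ c := by
      have := dvd_sub h1 (Dvd.dvd.mul_right h4 (x : ℤ))
      have e : (c + q * x : ℤ) - q * x = c := by ring
      rwa [e] at this
    have h6 : p ∣ Nat.gcd q c := Nat.dvd_gcd (by exact_mod_cast h4) (by exact_mod_cast h5)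
    rw [hqc] at h6
    exact hp.one_lt.ne' (Nat.dvd_one.1 h6)
  · obtain ⟨k, hk⟩ := h4
    have hx1 : (x : ℤ) < p := by exact_mod_cast hx.1
    have hy1 : (y : ℤ) < p := by exact_mod_cast hy.1
    have hx0 : (0 : ℤ) ≤ x := by positivity
    have hy0 : (0 : ℤ) ≤ y := by positivity
    have hk0 : k = 0 := by
      by_contra hne
      rcases lt_or_gt_of_ne hne with h | h
      · have : (p : ℤ) * k ≤ p * (-1) := mul_le_mul_of_nonneg_left (by omega) (by positivity)
        omega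
      · have : (p : ℤ) * 1 ≤ p * k := mul_le_mul_of_nonneg_left (by omega) (by positivity)
        omega
    rw [hk0, mul_zero] at hk
    have : (x : ℤ) = y := by linarith
    exact_mod_cast this

theorem lin_nu {q c p : ℕ} (hqc : Nat.Coprime q c) (hp : p.Prime) :
    nuB (QS 0 (-(q : ℤ)) (c : ℤ)) p = if p ∣ q then 0 else 1 := by
  classical
  have e : ∀ x : ℕ, QS 0 (-(q : ℤ)) (c : ℤ) p x ↔ (p : ℤ) ∣ c + q * x := by
    intro x
    unfold QS
    have e : (c : ℤ) - (0 * (x : ℤ) ^ 2 + -(q : ℤ) * x) = c + q * x := by ring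
    rw [e]
  split_ifs with h
  · unfold nuB
    rw [Finset.card_eq_zero, Finset.filter_eq_empty_iff]
    intro x _ hx
    rw [e] at hx
    have h5 : (p : ℤ) ∣ c := by
      have h6 : (p : ℤ) ∣ q := by exact_mod_cast h
      have := dvd_sub hx (Dvd.dvd.mul_right h6 (x : ℤ))
      have e : (c + q * x : ℤ) - q * x = c := by ring
      rwa [e] at this
    have h6 : p ∣ Nat.gcd q c := Nat.dvd_gcd h (by exact_mod_cast h5)
    rw [hqc] at h6
    exact hp.one_lt.ne' (Nat.dvd_one.1 h6)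
  · apply le_antisymm ((lin_perB hqc).few p hp)
    -- there is a root
    have hcop : IsCoprime (q : ℤ) (p : ℤ) := by
      rw [Nat.isCoprime_iff_coprime]
      exact ((Nat.Prime.coprime_iff_not_dvd hp).2 h).symm
    obtain ⟨u, v, huv⟩ := hcop
    have hp0 : (0 : ℤ) < p := by exact_mod_cast hp.pos
    obtain ⟨x, hx⟩ : ∃ x : ℕ, (x : ℤ) = (-(c : ℤ) * u) % p :=
      ⟨((-(c : ℤ) * u) % p).toNat, Int.toNat_of_nonneg (Int.emod_nonneg _ hp0.ne')⟩
    have hxp : x < p := by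
      have : (x : ℤ) < p := by
        rw [hx]
        exact Int.emod_lt_of_pos _ hp0
      exact_mod_cast this
    unfold nuB
    rw [Nat.one_le_iff_ne_zero, Finset.card_ne_zero]
    refine ⟨x, ?_⟩
    rw [mem_filter, mem_range, e]
    refine ⟨hxp, ?_⟩
    have h1 : (x : ℤ) = -(c : ℤ) * u - p * ((-(c : ℤ) * u) / p) := by
      rw [hx]
      have := Int.emod_add_mul_ediv (-(c : ℤ) * u) p
      linarith
    refine ⟨c * v - q * ((-(c : ℤ) * u) / p), ?_⟩
    have e9 : (c : ℤ) + q * x = c * (1 - u * q) - p * (q * ((-(c : ℤ) * u) / p)) := by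
      rw [h1]
      ring
    rw [e9]
    have h2 : 1 - u * q = v * p := by linarith
    rw [h2]
    ring

theorem lin_prod {q c : ℕ} (hqc : Nat.Coprime q c) (z : ℕ) :
    (Vz z)⁻¹ * ∏ p ∈ pz z, (1 - (nuB (QS 0 (-(q : ℤ)) (c : ℤ)) p : ℝ) / p) = Sq z q := by
  unfold Sq
  congr 1
  apply Finset.prod_congr rfl
  intro p hp
  rw [lin_nu hqc (mem_pz.1 hp).2]
  split_ifs <;> simp

theorem Sq_bd (z q : ℕ) : 0 ≤ Sq z q ∧ Sq z q ≤ (Vz z)⁻¹ := by
  have hV := inv_pos.2 (Vz_pos z)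
  have h : ∀ p ∈ pz z, 0 ≤ (if p ∣ q then (1 : ℝ) else 1 - 1 / p) ∧ (if p ∣ q then (1 : ℝ) else 1 - 1 / p) ≤ 1 := by
    intro p hp
    have hp1 : (1 : ℝ) ≤ p := by exact_mod_cast (mem_pz.1 hp).2.one_le
    have h1 : 1 / (p : ℝ) ≤ 1 := by rw [div_le_one (by linarith)]; exact hp1
    have h2 : 0 ≤ 1 / (p : ℝ) := by positivity
    split_ifs
    · exact ⟨by norm_num, le_rfl⟩
    · constructor <;> linarith
  unfold Sq
  constructor
  · exact mul_nonneg hV.le (prod_nonneg fun p hp => (h p hp).1)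
  · exact mul_le_of_le_one_right hV.le (prod_le_one (fun p hp => (h p hp).1) fun p hp => (h p hp).2)

open Classical in
/-- a window in a progression -/
theorem lin_window (c q z k m : ℕ) : ∑ t ∈ Ioc k (k + m), sgz z ((c : ℤ) + (q : ℤ) * (t : ℤ)) =
    (Vz z)⁻¹ * ((((Ioc k (k + m)).filter (fun n : ℕ => ∀ p ∈ pz z, ¬ QS 0 (-(q : ℤ)) (c : ℤ) p n)).card : ℕ) : ℝ) := by
  have h := sgz_window 0 (q : ℤ) (c : ℤ) z k m
  rw [neg_zero] at h
  have e : ∀ t : ℕ, fv 0 (-(q : ℤ)) (c : ℤ) t = (c : ℤ) + (q : ℤ) * (t : ℤ) := by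
    intro t
    unfold fv
    ring
  simp only [e] at h
  rw [h]

end Pool.Agent.K9h19.CR
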