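import Pool.Agent.K9h19.CR.BD1

/-!
# Progressions with moduli in a short interval: the mean square of the error term
-/

set_option autoImplicit false

namespace Pool.Agent.K9h19.CR

open Finset Filter Topology
open Pool.Agent.Q236.CR
open Pool.Agent.H373R2.T7 (lamz Vz pz Vz_pos Vz_inv_small nuB mem_pz PerB)

/-- the sum over a progression -/
noncomputable def HH (a : ℕ → ℝ) (N q c : ℕ) : ℝ := ∑ i ∈ range (N / q + 1), ext0 a N ((c : ℤ) + (q : ℤ) * (i : ℤ))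

theorem ext0_neg (a : ℕ → ℝ) (N : ℕ) {v : ℤ} (hv : v ≤ 0) : ext0 a N v = 0 := by
  unfold ext0
  rw [if_neg (by omega)]

theorem ext0_big (a : ℕ → ℝ) (N : ℕ) {v : ℤ} (hv : (N : ℤ) < v) : ext0 a N v = 0 := by
  unfold ext0
  rw [if_neg (by omega)]

/-- a long window of a progression which begins at a negative number -/
theorem HH_window (a : ℕ → ℝ) {N q c j y : ℕ} (hc : c < q) (hj : j ∈ Icc 1 (N / q)) (hy : 2 * (N / q) ≤ y) :
    ∑ t ∈ Ioc 0 (0 + y), ext0 a N (((c : ℤ) - (q : ℤ) * (j : ℤ)) + (q : ℤ) * (t : ℤ)) = HH a N q c := by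
  rw [mem_Icc] at hj
  have hq : 0 < q := by omega
  have hqz : (0 : ℤ) < q := by exact_mod_cast hq
  have hcq : (c : ℤ) < q := by exact_mod_cast hc
  have hc0 : (0 : ℤ) ≤ c := by positivity
  -- split the window
  have e1 : Ioc 0 (0 + y) = Ioc 0 (j - 1) ∪ (range (N / q + 1)).image (fun i => j + i) ∪ Ioc (j + N / q) y := by
    ext t
    rw [mem_union, mem_union, mem_image, mem_Ioc, mem_Ioc, mem_Ioc]
    constructor
    · rintro ⟨h1, h2⟩
      by_cases h3 : t ≤ j - 1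
      · exact Or.inl (Or.inl ⟨h1, h3⟩)
      · by_cases h4 : t ≤ j + N / q
        · refine Or.inl (Or.inr ⟨t - j, ?_, by omega⟩)
          rw [mem_range]
          omega
        · exact Or.inr ⟨by omega, by omega⟩
    · rintro ((⟨h1, h2⟩ | ⟨i, hi, rfl⟩) | ⟨h1, h2⟩)
      · omega
      · rw [mem_range] at hi
        omega
      · omega
  have hd1 : Disjoint (Ioc 0 (j - 1)) ((range (N / q + 1)).image (fun i => j + i)) := by
    rw [Finset.disjoint_left]
    intro t h1 h2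
    rw [mem_Ioc] at h1
    rw [mem_image] at h2
    obtain ⟨i, _, rfl⟩ := h2
    omega
  have hd2 : Disjoint (Ioc 0 (j - 1) ∪ (range (N / q + 1)).image (fun i => j + i)) (Ioc (j + N / q) y) := by
    rw [Finset.disjoint_left]
    intro t h1 h2
    rw [mem_Ioc] at h2
    rw [mem_union, mem_Ioc, mem_image] at h1
    rcases h1 with h1 | ⟨i, hi, rfl⟩
    · omega
    · rw [mem_range] at hi
      omega
  rw [e1, Finset.sum_union hd2, Finset.sum_union hd1]
  have z1 : ∑ t ∈ Ioc 0 (j - 1), ext0 a N (((c : ℤ) - (q : ℤ) * (j : ℤ)) + (q : ℤ) * (t : ℤ)) = 0 := by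
    apply Finset.sum_eq_zero
    intro t ht
    rw [mem_Ioc] at ht
    apply ext0_neg
    have h1 : (t : ℤ) + 1 ≤ j := by
      have : t + 1 ≤ j := by omega
      exact_mod_cast this
    have h2 : (q : ℤ) * ((t : ℤ) + 1) ≤ q * j := mul_le_mul_of_nonneg_left h1 hqz.le
    have h3 : (q : ℤ) * ((t : ℤ) + 1) = q * t + q := by ring
    linarith
  have z2 : ∑ t ∈ Ioc (j + N / q) y, ext0 a N (((c : ℤ) - (q : ℤ) * (j : ℤ)) + (q : ℤ) * (t : ℤ)) = 0 := by
    apply Finset.sum_eq_zero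
    intro t ht
    rw [mem_Ioc] at ht
    apply ext0_big
    have h1 : (j : ℤ) + ((N / q : ℕ) : ℤ) + 1 ≤ t := by
      have : j + N / q + 1 ≤ t := by omega
      exact_mod_cast this
    have h2 : (q : ℤ) * ((j : ℤ) + ((N / q : ℕ) : ℤ) + 1) ≤ q * t := mul_le_mul_of_nonneg_left h1 hqz.le
    have h3 : (N : ℤ) < q * (((N / q : ℕ) : ℤ) + 1) := by
      have := Nat.lt_mul_div_succ N hq
      exact_mod_cast this
    have h4 : (q : ℤ) * ((j : ℤ) + ((N / q : ℕ) : ℤ) + 1) = q * j + q * (((N / q : ℕ) : ℤ) + 1) := by ring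
    linarith
  rw [z1, z2, zero_add, add_zero, Finset.sum_image (fun x _ y _ h => by
    have : j + x = j + y := h
    omega)]
  unfold HH
  apply Finset.sum_congr rfl
  intro i _
  congr 1
  push_cast
  ring

/-- the mean square of the error term in the progressions with moduli in a short interval -/
theorem pe_part (hcr : S_CHR) (hmo : S_MOC) (A : ℕ) : ∃ B₀ : ℕ, ∀ E : ℕ, ∃ D N₀ : ℕ,
    ∀ N : ℕ, N₀ ≤ N → ∀ z : ℕ, Real.log N ^ B₀ ≤ z → (z : ℝ) ≤ Real.log N ^ E →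
    ∀ Q K : ℕ, Real.log N ^ D ≤ K → K ≤ Q → Q + K ≤ N →
    (Q : ℝ) * Real.log N ^ D ≤ K * (N : ℝ) ^ (2 / 3 : ℝ) →
    ∑ q ∈ Ioc Q (Q + K), ∑ c ∈ range q, (HH (PE z) N q c) ^ 2 ≤
      26000 * (N * K / Real.log N) + 40 * (N ^ 2 * K / (Q * Real.log N ^ A)) := by
  obtain ⟨B₀, hB₀⟩ := sm_gen hcr hmo 1 le_rfl A
  refine ⟨B₀, fun E => ?_⟩
  obtain ⟨D, N₁, h0⟩ := hB₀ E
  obtain ⟨N₂, hN₂⟩ := ev_natlog (P := fun l => 4 ≤ l) (eventually_ge_atTop 4)
  refine ⟨D, N₁ + N₂ + 3, fun N hN z hz1 hz2 Q K hK hKQ hQN hQK => ?_⟩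
  have g1 := hN₂ N (by omega)
  have hN0 : (0 : ℝ) < N := by exact_mod_cast (by omega : 0 < N)
  have h1 := h0 N (by omega) z hz1 hz2
  obtain ⟨L, hL⟩ : ∃ L : ℝ, L = Real.log N := ⟨_, rfl⟩
  rw [← hL] at g1 hK hQK h1 ⊢
  have hL0 : 0 < L := by linarith
  have hL1 : 1 ≤ L := by linarith
  have hK1r : (1 : ℝ) ≤ K := (one_le_pow₀ hL1).trans hK
  have hK1 : 1 ≤ K := by exact_mod_cast hK1r
  have hK0 : (0 : ℝ) < K := by linarith
  have hQ1 : 1 ≤ Q := hK1.trans hKQ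
  have hQ0 : (0 : ℝ) < Q := by exact_mod_cast hQ1
  have hQNr : (Q : ℝ) ≤ N := by exact_mod_cast (by omega : Q ≤ N)
  have hKQr : (K : ℝ) ≤ Q := by exact_mod_cast hKQ
  obtain ⟨y, hy⟩ : ∃ y : ℕ, y = 2 * (N / Q) + 1 := ⟨_, rfl⟩
  have hNQ : ((N / Q : ℕ) : ℝ) ≤ N / Q := Nat.cast_div_le
  have hNQ1 : 1 ≤ (N : ℝ) / Q := by rw [one_le_div hQ0]; exact hQNr
  have hyr : (y : ℝ) ≤ 3 * (N / Q) := by
    rw [hy]
    push_cast
    linarith
  have hylow : (N : ℝ) / Q ≤ y := by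
    have h2 : (N : ℝ) / Q < ((N / Q : ℕ) : ℝ) + 1 := by
      rw [div_lt_iff₀ hQ0]
      have := Nat.lt_mul_div_succ N (by omega : 0 < Q)
      calc (N : ℝ) < ((Q * (N / Q + 1) : ℕ) : ℝ) := by exact_mod_cast this
        _ = _ := by push_cast; ring
    have h3 : (0 : ℝ) ≤ ((N / Q : ℕ) : ℝ) := Nat.cast_nonneg _
    rw [hy]
    push_cast
    linarith
  have hy1 : 1 ≤ y := by omega
  have hy0 : (0 : ℝ) < y := by exact_mod_cast hy1
  obtain ⟨S, hS⟩ : ∃ S : ℕ → Finset ℤ, S = fun q => (range q ×ˢ Icc 1 (N / q)).image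
    (fun x : ℕ × ℕ => (x.1 : ℤ) - (q : ℤ) * (x.2 : ℤ)) := ⟨_, rfl⟩
  have hmain := h1 ℕ (Ioc Q (Q + K)) (fun _ => Ioc 0 (0 + y)) (fun q t => (q : ℤ) * (t : ℤ)) K y
    (fam_lin 0 Q K y) hy1 hK (by
      have e : (N : ℝ) ^ (1 / 3 : ℝ) * L ^ D * Q ≤ N * K := by
        calc (N : ℝ) ^ (1 / 3 : ℝ) * L ^ D * Q = (N : ℝ) ^ (1 / 3 : ℝ) * (Q * L ^ D) := by ring
          _ ≤ (N : ℝ) ^ (1 / 3 : ℝ) * (K * (N : ℝ) ^ (2 / 3 : ℝ)) := by gcongr
          _ = ((N : ℝ) ^ (1 / 3 : ℝ) * (N : ℝ) ^ (2 / 3 : ℝ)) * K := by ring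
          _ = N * K := by
              rw [← Real.rpow_add hN0]
              norm_num
      calc (N : ℝ) ^ (1 / 3 : ℝ) * L ^ D ≤ N * K / Q := by
            rw [le_div_iff₀ hQ0]
            exact e
        _ = N / Q * K := by ring
        _ ≤ y * K := by gcongr) (by
      calc (y : ℝ) * K ≤ 3 * (N / Q) * Q := by gcongr
        _ = 3 * N := by field_simp
        _ ≤ N * L := by
            rw [mul_comm]
            apply mul_le_mul_of_nonneg_left _ hN0.le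
            linarith) S
  -- the left side
  have h2 : ∀ q ∈ Ioc Q (Q + K), (N : ℝ) / (4 * Q) * ∑ c ∈ range q, (HH (PE z) N q c) ^ 2 ≤
      ∑ c ∈ S q, |∑ t ∈ Ioc 0 (0 + y), ext0 (PE z) N (c + (q : ℤ) * (t : ℤ))| ^ 2 := by
    intro q hq
    rw [mem_Ioc] at hq
    have hq0 : 0 < q := by omega
    have hqz : (0 : ℤ) < q := by exact_mod_cast hq0
    have hqr0 : (0 : ℝ) < q := by exact_mod_cast hq0
    have hq2 : (q : ℝ) ≤ 2 * Q := by
      have : (q : ℝ) ≤ Q + K := by exact_mod_cast hq.2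
      linarith
    have hqN : q ≤ N := by omega
    rw [hS]
    simp only
    rw [Finset.sum_image (by
      intro x hx x' hx' hxx'
      rw [mem_coe, mem_product, mem_range, mem_Icc] at hx hx'
      have e : (x.1 : ℤ) - q * x.2 = (x'.1 : ℤ) - q * x'.2 := hxx'
      have h3 : (x.1 : ℤ) = x'.1 := by
        have h4 : ((x.1 : ℤ) - q * x.2) % q = ((x'.1 : ℤ) - q * x'.2) % q := by rw [e]
        rw [Int.sub_mul_emod_self_left, Int.sub_mul_emod_self_left,
          Int.emod_eq_of_lt (by positivity) (by exact_mod_cast hx.1),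
          Int.emod_eq_of_lt (by positivity) (by exact_mod_cast hx'.1)] at h4
        exact h4
      have h5 : (x.2 : ℤ) = x'.2 := by
        have h6 : (q : ℤ) * x.2 = q * x'.2 := by linarith
        exact mul_left_cancel₀ hqz.ne' h6
      ext
      · exact_mod_cast h3
      · exact_mod_cast h5), Finset.sum_product]
    rw [Finset.mul_sum]
    apply Finset.sum_le_sum
    intro c hc
    rw [mem_range] at hc
    have h3 : ∀ j ∈ Icc 1 (N / q), |∑ t ∈ Ioc 0 (0 + y), ext0 (PE z) N ((((c : ℤ) - (q : ℤ) * (j : ℤ))) +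
        (q : ℤ) * (t : ℤ))| ^ 2 = (HH (PE z) N q c) ^ 2 := by
      intro j hj
      rw [HH_window (PE z) hc hj (by
        have : N / q ≤ N / Q := Nat.div_le_div_left (by omega) (by omega)
        omega), sq_abs]
    rw [Finset.sum_congr rfl h3, Finset.sum_const, nsmul_eq_mul, Nat.card_Icc, Nat.add_sub_cancel]
    apply mul_le_mul_of_nonneg_right _ (by positivity)
    have h4 : (N : ℝ) / q < ((N / q : ℕ) : ℝ) + 1 := by
      rw [div_lt_iff₀ hqr0]
      have := Nat.lt_mul_div_succ N hq0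
      calc (N : ℝ) < ((q * (N / q + 1) : ℕ) : ℝ) := by exact_mod_cast this
        _ = _ := by push_cast; ring
    have h5 : (1 : ℝ) ≤ ((N / q : ℕ) : ℝ) := by
      have : 1 ≤ N / q := (Nat.one_le_div_iff hq0).2 hqN
      exact_mod_cast this
    have h6 : (N : ℝ) / q ≤ 2 * ((N / q : ℕ) : ℝ) := by linarith
    have h7 : (N : ℝ) / (4 * Q) ≤ N / q / 2 := by
      rw [div_div]
      apply div_le_div_of_nonneg_left hN0.le (by positivity)
      linarith
    linarith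
  have h3 : (N : ℝ) / (4 * Q) * ∑ q ∈ Ioc Q (Q + K), ∑ c ∈ range q, (HH (PE z) N q c) ^ 2 ≤
      2100 * (N * K * y / L) + N * K * (y : ℝ) ^ 2 / L ^ A := by
    rw [Finset.mul_sum]
    exact (Finset.sum_le_sum h2).trans hmain
  have h4 : 2100 * (N * K * y / L) + N * K * (y : ℝ) ^ 2 / L ^ A ≤
      (N : ℝ) / (4 * Q) * (25200 * (N * K / L) + 36 * (N ^ 2 * K / (Q * L ^ A))) := by
    have e1 : (N : ℝ) / (4 * Q) * (25200 * (N * K / L) + 36 * (N ^ 2 * K / (Q * L ^ A))) =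
        2100 * (N * K * (3 * (N / Q)) / L) + N * K * (3 * (N / Q)) ^ 2 / L ^ A := by
      field_simp
      ring
    rw [e1]
    gcongr
  have h5 := le_of_mul_le_mul_left (h3.trans h4) (by positivity)
  refine h5.trans ?_
  have p1 : 0 ≤ N * K / L := by positivity
  have p2 : 0 ≤ (N : ℝ) ^ 2 * K / (Q * L ^ A) := by positivity
  linarith

end Pool.Agent.K9h19.CR
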