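import Pool.Agent.K9h19.CR.VR2

/-!
# The variance of the number of the prime values: the theorem
-/

set_option autoImplicit false

namespace Pool.Agent.K9h19.CR

open Finset Filter Topology
open Pool.Agent.Q236.CR
open Pool.Agent.H373R2.T7 (lamz Vz pz Vz_pos Vz_inv_small nuB mem_pz)
open Pool.Agent.R460.SB (QS Sz Sz_bd fv fv_two)
open Pool.Agent.W468.ConjF (SJ PJ)

theorem var_arith {Q L a2 : ℝ} (hQ : 0 ≤ Q) (hL : 100 ≤ L) (ha2L : 6 * a2 ≤ L) (A : ℕ) :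
    (3 * a2 + 228) * (Q / L ^ (A + 2)) ≤ Q / L ^ A := by
  have hL0 : 0 < L := by linarith
  have e1 : (3 * a2 + 228) * (Q / L ^ (A + 2)) = (Q / L ^ A) * ((3 * a2 + 228) / L ^ 2) := by
    rw [pow_add]
    field_simp
  rw [e1]
  have h1 : (3 * a2 + 228) / L ^ 2 ≤ 1 := by
    rw [div_le_one (by positivity)]
    nlinarith
  calc (Q / L ^ A) * ((3 * a2 + 228) / L ^ 2) ≤ (Q / L ^ A) * 1 := by gcongr
    _ = _ := mul_one _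

theorem two_sq {x y : ℝ} : (x + y) ^ 2 ≤ 2 * x ^ 2 + 2 * y ^ 2 := by nlinarith [sq_nonneg (x - y)]

/-- the sum of the squares of the errors of the model -/
theorem sum_model {a : ℤ} (ha : 0 < a) (A E : ℕ) : ∃ X₀ : ℕ, ∀ X : ℕ, X₀ ≤ X → ∀ z : ℕ, 1 ≤ z →
    (z : ℝ) ≤ Real.log X ^ E → (Vz z)⁻¹ ≤ Real.log X → ∀ B K u y : ℕ, 1 ≤ y →
    Real.log X ^ (A + 1) ≤ K →
    12 / Real.log X ^ 2 * ∑ b ∈ Ioc B (B + K), ∑ c ∈ Ioc 0 (0 + X),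
      (∑ t ∈ Ioc u (u + y), sgz z (fv (-a) (-(b : ℤ)) (c : ℤ) t) - Sz (-a) (-(b : ℤ)) (c : ℤ) z * y) ^ 2 ≤
      96 * (X * K * y / Real.log X) + 216 * (X * K * (y : ℝ) ^ 2 / Real.log X ^ (A + 2)) := by
  obtain ⟨X₁, h1⟩ := model_var E (A + 3)
  have h2 : ∀ b : ℕ, (-a) ≠ 0 := fun _ => by omega
  obtain ⟨X₂, h2⟩ : ∃ X₂ : ℕ, ∀ X : ℕ, X₂ ≤ X → ∀ z : ℕ, 1 ≤ z → (z : ℝ) ≤ Real.log X ^ E →
      (Vz z)⁻¹ ≤ Real.log X → ∀ (b : ℕ) (n : ℤ) (y : ℕ), X ≤ y ^ 8 →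
      |∑ t ∈ Ioc 0 (0 + y), sgz z (fv (-a) (-(b : ℤ)) n t) - Sz (-a) (-(b : ℤ)) n z * y| ≤
        y / Real.log X ^ (A + 3) := by
    classical
    obtain ⟨X0, h0⟩ := sys_win' ((-a).natAbs + 2) E (A + 3 + 1) 8 (by omega)
    obtain ⟨X1, hX1⟩ := ev_natlog (P := fun l => 1 ≤ l) (eventually_ge_atTop 1)
    refine ⟨max X0 X1, fun X hX z hz hzE hV b n y hy => ?_⟩
    have hL1 := hX1 X ((le_max_right _ _).trans hX)
    have h1 := h0 X ((le_max_left _ _).trans hX) z hz hzE y hy (QS (-a) (-(b : ℤ)) n)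
      (Pool.Agent.R460.SB.QS_perB (by omega) n) 0
    obtain ⟨L, hL⟩ : ∃ L : ℝ, L = Real.log X := ⟨_, rfl⟩
    rw [← hL] at h1 hV hL1 ⊢
    have hL0 : 0 < L := by linarith
    rw [sgz_window]
    obtain ⟨c, hc⟩ : ∃ c : ℝ, c = (((Ioc 0 (0 + y)).filter (fun m : ℕ => ∀ p ∈ pz z,
      ¬ QS (-a) (-(b : ℤ)) n p m)).card : ℝ) := ⟨_, rfl⟩
    have h1' : |c - y * ∏ p ∈ pz z, (1 - (nuB (QS (-a) (-(b : ℤ)) n) p : ℝ) / p)| ≤ y / L ^ (A + 3 + 1) := by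
      rw [hc]
      convert h1
    rw [← hc]
    have hVp := inv_pos.2 (Vz_pos z)
    have e1 : (Vz z)⁻¹ * c - Sz (-a) (-(b : ℤ)) n z * y =
        (Vz z)⁻¹ * (c - y * ∏ p ∈ pz z, (1 - (nuB (QS (-a) (-(b : ℤ)) n) p : ℝ) / p)) := by
      unfold Sz
      ring
    rw [e1, abs_mul, abs_of_pos hVp]
    calc (Vz z)⁻¹ * |c - y * ∏ p ∈ pz z, (1 - (nuB (QS (-a) (-(b : ℤ)) n) p : ℝ) / p)| ≤
          L * (y / L ^ (A + 3 + 1)) := by gcongr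
      _ = y / L ^ (A + 3) := by
          rw [pow_succ L (A + 3)]
          field_simp
  obtain ⟨X₃, h3⟩ := ev_natlog (P := fun l => 100 ≤ l) (eventually_ge_atTop 100)
  refine ⟨X₁ + X₂ + X₃ + 3, fun X hX z hz hzE hV B K u y hy hK => ?_⟩
  have g1 := h3 X (by omega)
  have hX0 : (0 : ℝ) < X := by exact_mod_cast (by omega : 0 < X)
  obtain ⟨M, hM⟩ : ∃ M : ℕ, M = u + y + (Nat.sqrt X + 1) := ⟨_, rfl⟩
  have hyM : u + y ≤ M := by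
    rw [hM]
    exact Nat.le_add_right _ _
  have hXM : X ≤ M ^ 8 := by
    have h4 : X < (Nat.sqrt X + 1) ^ 2 := Nat.lt_succ_sqrt' X
    have h5 : Nat.sqrt X + 1 ≤ M := by
      rw [hM]
      exact Nat.le_add_left _ _
    have hM1 : 1 ≤ M := by omega
    calc X ≤ (Nat.sqrt X + 1) ^ 2 := h4.le
      _ ≤ M ^ 2 := Nat.pow_le_pow_left h5 2
      _ ≤ M ^ 8 := Nat.pow_le_pow_right hM1 (by norm_num)
  have k1 := h1 X (by omega) z hz hzE hV a B K u y M 0 hy hyM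
  have k2 := h2 X (by omega) z hz hzE hV
  obtain ⟨L, hL⟩ : ∃ L : ℝ, L = Real.log X := ⟨_, rfl⟩
  rw [← hL] at g1 hV hK k1 k2 ⊢
  have hL0 : 0 < L := by linarith
  have hL1 : 1 ≤ L := by linarith
  have hyr : (1 : ℝ) ≤ y := by exact_mod_cast hy
  have hy0 : (0 : ℝ) < y := by linarith
  have hM0 : (0 : ℝ) < M := by exact_mod_cast (by omega : 0 < M)
  have hV0 := inv_pos.2 (Vz_pos z)
  obtain ⟨D1, hD1⟩ : ∃ D1 : ℕ → ℕ → ℝ, D1 = fun (b c : ℕ) =>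
    1 / (y : ℝ) * ∑ s ∈ Ioc u (u + y), sgz z ((c : ℤ) + (a * (s : ℤ) ^ 2 + (b : ℤ) * (s : ℤ))) -
      1 / (M : ℝ) * ∑ s ∈ Ioc 0 M, sgz z ((c : ℤ) + (a * (s : ℤ) ^ 2 + (b : ℤ) * (s : ℤ))) := ⟨_, rfl⟩
  have hpt : ∀ b ∈ Ioc B (B + K), ∀ c ∈ Ioc 0 (0 + X),
      (∑ t ∈ Ioc u (u + y), sgz z (fv (-a) (-(b : ℤ)) (c : ℤ) t) - Sz (-a) (-(b : ℤ)) (c : ℤ) z * y) ^ 2 ≤
      2 * (y : ℝ) ^ 2 * (D1 b c) ^ 2 + 2 * ((y : ℝ) ^ 2 / L ^ (A + 3)) := by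
    intro b _ c _
    have k3 := k2 b c M hXM
    have hfv : ∀ t : ℕ, fv (-a) (-(b : ℤ)) (c : ℤ) t = (c : ℤ) + (a * (t : ℤ) ^ 2 + (b : ℤ) * (t : ℤ)) := by
      intro t
      rw [fv_val]
      ring
    simp only [hfv] at k3 ⊢
    rw [zero_add M] at k3
    obtain ⟨s1, hs1⟩ : ∃ s1 : ℝ, s1 = ∑ s ∈ Ioc u (u + y), sgz z ((c : ℤ) + (a * (s : ℤ) ^ 2 + (b : ℤ) * (s : ℤ))) := ⟨_, rfl⟩
    obtain ⟨s2, hs2⟩ : ∃ s2 : ℝ, s2 = ∑ s ∈ Ioc 0 M, sgz z ((c : ℤ) + (a * (s : ℤ) ^ 2 + (b : ℤ) * (s : ℤ))) := ⟨_, rfl⟩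
    obtain ⟨σ, hσ⟩ : ∃ σ : ℝ, σ = Sz (-a) (-(b : ℤ)) (c : ℤ) z := ⟨_, rfl⟩
    have e1 : D1 b c = 1 / (y : ℝ) * s1 - 1 / (M : ℝ) * s2 := by rw [hD1, hs1, hs2]
    rw [← hs2, ← hσ] at k3
    rw [← hs1, ← hσ]
    have e2 : s1 - σ * y = y * D1 b c + y * (1 / (M : ℝ) * (s2 - σ * M)) := by
      rw [e1]
      field_simp
      ring
    rw [e2]
    refine two_sq.trans ?_
    have h5 : |1 / (M : ℝ) * (s2 - σ * M)| ≤ 1 / L ^ (A + 3) := by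
      rw [abs_mul, abs_of_pos (by positivity)]
      calc 1 / (M : ℝ) * |s2 - σ * M| ≤ 1 / (M : ℝ) * (M / L ^ (A + 3)) := by gcongr
        _ = 1 / L ^ (A + 3) := by field_simp
    have h6 : (y * (1 / (M : ℝ) * (s2 - σ * M))) ^ 2 ≤ (y : ℝ) ^ 2 / L ^ (A + 3) := by
      have h7 : (1 / (M : ℝ) * (s2 - σ * M)) ^ 2 ≤ (1 / L ^ (A + 3)) ^ 2 := by
        rw [← sq_abs]
        exact pow_le_pow_left₀ (abs_nonneg _) h5 2
      have h8 : (1 / L ^ (A + 3)) ^ 2 ≤ 1 / L ^ (A + 3) := by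
        have h9 : 1 / L ^ (A + 3) ≤ 1 := by
          rw [div_le_one (by positivity)]
          exact one_le_pow₀ hL1
        have h10 : 0 ≤ 1 / L ^ (A + 3) := by positivity
        rw [sq]
        exact mul_le_of_le_one_right h10 h9
      calc (y * (1 / (M : ℝ) * (s2 - σ * M))) ^ 2 = (y : ℝ) ^ 2 * (1 / (M : ℝ) * (s2 - σ * M)) ^ 2 := by ring
        _ ≤ (y : ℝ) ^ 2 * (1 / L ^ (A + 3)) := by
            apply mul_le_mul_of_nonneg_left (h7.trans h8) (by positivity)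
        _ = _ := by ring
    have h7 : 2 * (y * D1 b c) ^ 2 = 2 * (y : ℝ) ^ 2 * (D1 b c) ^ 2 := by ring
    rw [h7]
    linarith
  have hsum : ∑ b ∈ Ioc B (B + K), ∑ c ∈ Ioc 0 (0 + X),
      (∑ t ∈ Ioc u (u + y), sgz z (fv (-a) (-(b : ℤ)) (c : ℤ) t) - Sz (-a) (-(b : ℤ)) (c : ℤ) z * y) ^ 2 ≤
      2 * (y : ℝ) ^ 2 * (X * K * (4 / y * (Vz z)⁻¹) + X * (4 * (Vz z)⁻¹) + K * (4 * (X / L ^ (A + 3)))) +
        2 * (X * K * ((y : ℝ) ^ 2 / L ^ (A + 3))) := by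
    calc ∑ b ∈ Ioc B (B + K), ∑ c ∈ Ioc 0 (0 + X),
      (∑ t ∈ Ioc u (u + y), sgz z (fv (-a) (-(b : ℤ)) (c : ℤ) t) - Sz (-a) (-(b : ℤ)) (c : ℤ) z * y) ^ 2 ≤
        ∑ b ∈ Ioc B (B + K), ∑ c ∈ Ioc 0 (0 + X), (2 * (y : ℝ) ^ 2 * (D1 b c) ^ 2 + 2 * ((y : ℝ) ^ 2 / L ^ (A + 3))) :=
          Finset.sum_le_sum fun b hb => Finset.sum_le_sum fun c hc => hpt b hb c hc
      _ = 2 * (y : ℝ) ^ 2 * ∑ b ∈ Ioc B (B + K), ∑ c ∈ Ioc 0 (0 + X), (D1 b c) ^ 2 +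
          2 * (X * K * ((y : ℝ) ^ 2 / L ^ (A + 3))) := by
          simp_rw [Finset.sum_add_distrib, Finset.sum_const, nsmul_eq_mul, Nat.card_Ioc,
            Nat.add_sub_cancel_left, Finset.mul_sum]
          ring
      _ ≤ _ := by
          have k1' : ∑ b ∈ Ioc B (B + K), ∑ c ∈ Ioc 0 (0 + X), (D1 b c) ^ 2 ≤
            X * K * (4 / y * (Vz z)⁻¹) + X * (4 * (Vz z)⁻¹) + K * (4 * (X / L ^ (A + 3))) := by
            rw [hD1]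
            exact k1
          gcongr
  have hfin : 12 / L ^ 2 * (2 * (y : ℝ) ^ 2 * (X * K * (4 / y * (Vz z)⁻¹) + X * (4 * (Vz z)⁻¹) +
      K * (4 * (X / L ^ (A + 3)))) + 2 * (X * K * ((y : ℝ) ^ 2 / L ^ (A + 3)))) ≤
      96 * (X * K * y / L) + 216 * (X * K * (y : ℝ) ^ 2 / L ^ (A + 2)) := by
    obtain ⟨Q, hQ⟩ : ∃ Q : ℝ, Q = X * K * (y : ℝ) ^ 2 / L ^ (A + 2) := ⟨_, rfl⟩
    have hQ0 : 0 ≤ Q := by rw [hQ]; positivity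
    calc 12 / L ^ 2 * (2 * (y : ℝ) ^ 2 * (X * K * (4 / y * (Vz z)⁻¹) + X * (4 * (Vz z)⁻¹) +
        K * (4 * (X / L ^ (A + 3)))) + 2 * (X * K * ((y : ℝ) ^ 2 / L ^ (A + 3)))) ≤
        12 / L ^ 2 * (2 * (y : ℝ) ^ 2 * (X * K * (4 / y * L) + X * (4 * L) +
          K * (4 * (X / L ^ (A + 3)))) + 2 * (X * K * ((y : ℝ) ^ 2 / L ^ (A + 3)))) := by gcongr
      _ = 96 * (X * K * y / L) + 96 * (X * (y : ℝ) ^ 2 / L) + 120 * (Q * (1 / L ^ 3)) := by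
          rw [hQ, pow_add L A 3, pow_add L A 2]
          field_simp
          ring
      _ ≤ 96 * (X * K * y / L) + 96 * Q + 120 * (Q * 1) := by
          have h5 : X * (y : ℝ) ^ 2 / L ≤ Q := by
            rw [hQ, div_le_div_iff₀ hL0 (by positivity)]
            calc X * (y : ℝ) ^ 2 * L ^ (A + 2) = X * (y : ℝ) ^ 2 * L * L ^ (A + 1) := by ring
              _ ≤ X * (y : ℝ) ^ 2 * L * K := by gcongr
              _ = X * K * (y : ℝ) ^ 2 * L := by ring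
          have h6 : 1 / L ^ 3 ≤ 1 := by
            rw [div_le_one (by positivity)]
            exact one_le_pow₀ hL1
          gcongr
      _ = _ := by
          rw [hQ]
          ring
  refine le_trans ?_ hfin
  exact mul_le_mul_of_nonneg_left hsum (by positivity)

end Pool.Agent.K9h19.CR
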