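import Pool.Agent.K9h19.CR.BD2
import Pool.Agent.K9h19.CR.VR3

/-!
# Progressions: the mean square of the model
-/

set_option autoImplicit false

namespace Pool.Agent.K9h19.CR

open Finset Filter Topology
open Pool.Agent.Q236.CR
open Pool.Agent.H373R2.T7 (lamz Vz pz Vz_pos Vz_inv_small nuB mem_pz PerB)
open Pool.Agent.R460.SB (QS Sz Sz_bd fv QS_per)

/-- the mean square of the errors of the model -/
theorem lin_model (A E : ℕ) : ∃ X₀ : ℕ, ∀ X : ℕ, X₀ ≤ X → ∀ z : ℕ, 1 ≤ z → (z : ℝ) ≤ Real.log X ^ E →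
    (Vz z)⁻¹ ≤ Real.log X → ∀ Q K t : ℕ, 1 ≤ t → Real.log X ^ (A + 4) ≤ K →
    ∑ q ∈ Ioc Q (Q + K), ∑ c ∈ (Ioc 0 (0 + X)).filter (fun c => Nat.Coprime q c),
      (∑ s ∈ Ioc 0 (0 + t), (sgz z ((c : ℤ) + (q : ℤ) * (s : ℤ)) - Sq z q)) ^ 2 ≤
      8 * (X * K * t * (Vz z)⁻¹) + 18 * (X * K * (t : ℝ) ^ 2 / Real.log X ^ (A + 3)) := by
  classical
  obtain ⟨X₁, h1⟩ := model_var E (A + 3)
  obtain ⟨X₂, h2⟩ := sys_win' 1 E (A + 3 + 1) 8 le_rfl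
  obtain ⟨X₃, h3⟩ := ev_natlog (P := fun l => 100 ≤ l) (eventually_ge_atTop 100)
  refine ⟨X₁ + X₂ + X₃ + 3, fun X hX z hz hzE hV Q K t ht hK => ?_⟩
  have g1 := h3 X (by omega)
  have hX0 : (0 : ℝ) < X := by exact_mod_cast (by omega : 0 < X)
  obtain ⟨M, hM⟩ : ∃ M : ℕ, M = t + (Nat.sqrt X + 1) := ⟨_, rfl⟩
  have hyM : 0 + t ≤ M := by omega
  have hXM : X ≤ M ^ 8 := by
    have h4 : X < (Nat.sqrt X + 1) ^ 2 := Nat.lt_succ_sqrt' X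
    have h5 : Nat.sqrt X + 1 ≤ M := by
      rw [hM]
      exact Nat.le_add_left _ _
    have hM1 : 1 ≤ M := by omega
    calc X ≤ (Nat.sqrt X + 1) ^ 2 := h4.le
      _ ≤ M ^ 2 := Nat.pow_le_pow_left h5 2
      _ ≤ M ^ 8 := Nat.pow_le_pow_right hM1 (by norm_num)
  have k1 := h1 X (by omega) z hz hzE hV 0 Q K 0 t M 0 ht hyM
  have k2 := h2 X (by omega) z hz hzE M hXM
  obtain ⟨L, hL⟩ : ∃ L : ℝ, L = Real.log X := ⟨_, rfl⟩
  rw [← hL] at g1 hV hK k1 k2 ⊢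
  simp only [zero_mul, zero_add ((_ : ℤ) * _)] at k1
  have hL0 : 0 < L := by linarith
  have hL1 : 1 ≤ L := by linarith
  have hyr : (1 : ℝ) ≤ t := by exact_mod_cast ht
  have hy0 : (0 : ℝ) < t := by linarith
  have hM0 : (0 : ℝ) < M := by exact_mod_cast (by omega : 0 < M)
  have hV0 := inv_pos.2 (Vz_pos z)
  obtain ⟨D1, hD1⟩ : ∃ D1 : ℕ → ℕ → ℝ, D1 = fun (b c : ℕ) =>
    1 / (t : ℝ) * ∑ s ∈ Ioc 0 (0 + t), sgz z ((c : ℤ) + (b : ℤ) * (s : ℤ)) -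
      1 / (M : ℝ) * ∑ s ∈ Ioc 0 M, sgz z ((c : ℤ) + (b : ℤ) * (s : ℤ)) := ⟨_, rfl⟩
  have hpt : ∀ q ∈ Ioc Q (Q + K), ∀ c ∈ (Ioc 0 (0 + X)).filter (fun c => Nat.Coprime q c),
      (∑ s ∈ Ioc 0 (0 + t), (sgz z ((c : ℤ) + (q : ℤ) * (s : ℤ)) - Sq z q)) ^ 2 ≤
      2 * (t : ℝ) ^ 2 * (D1 q c) ^ 2 + 2 * ((t : ℝ) ^ 2 / L ^ (A + 3)) := by
    intro q _ c hc
    rw [mem_filter] at hc
    have k3 := k2 (QS 0 (-(q : ℤ)) (c : ℤ)) (lin_perB hc.2) 0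
    obtain ⟨σ, hσ⟩ : ∃ σ : ℝ, σ = Sq z q := ⟨_, rfl⟩
    obtain ⟨s1, hs1⟩ : ∃ s1 : ℝ, s1 = ∑ s ∈ Ioc 0 (0 + t), sgz z ((c : ℤ) + (q : ℤ) * (s : ℤ)) := ⟨_, rfl⟩
    obtain ⟨s2, hs2⟩ : ∃ s2 : ℝ, s2 = ∑ s ∈ Ioc 0 M, sgz z ((c : ℤ) + (q : ℤ) * (s : ℤ)) := ⟨_, rfl⟩
    have k4 : |s2 - σ * M| ≤ M / L ^ (A + 3) := by
      have e1 := lin_window c q z 0 M
      rw [zero_add] at e1
      rw [hs2, e1, hσ, ← lin_prod hc.2 z]
      rw [zero_add] at k3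
      obtain ⟨cd, hcd⟩ : ∃ cd : ℝ, cd = ((((Ioc 0 M).filter (fun n : ℕ => ∀ p ∈ pz z, ¬ QS 0 (-(q : ℤ)) (c : ℤ) p n)).card : ℕ) : ℝ) := ⟨_, rfl⟩
      rw [← hcd] at k3 ⊢
      obtain ⟨pr, hpr⟩ : ∃ pr : ℝ, pr = ∏ p ∈ pz z, (1 - (nuB (QS 0 (-(q : ℤ)) (c : ℤ)) p : ℝ) / p) := ⟨_, rfl⟩
      rw [← hpr] at k3 ⊢
      have e2 : (Vz z)⁻¹ * cd - (Vz z)⁻¹ * pr * M = (Vz z)⁻¹ * (cd - M * pr) := by ring
      rw [e2, abs_mul, abs_of_pos hV0]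
      calc (Vz z)⁻¹ * |cd - M * pr| ≤ L * (M / L ^ (A + 3 + 1)) := by gcongr
        _ = M / L ^ (A + 3) := by
            rw [pow_succ L (A + 3)]
            field_simp
    have e0 : ∑ s ∈ Ioc 0 (0 + t), (sgz z ((c : ℤ) + (q : ℤ) * (s : ℤ)) - Sq z q) = s1 - σ * t := by
      rw [Finset.sum_sub_distrib, ← hs1, ← hσ, Finset.sum_const, nsmul_eq_mul, Nat.card_Ioc,
        Nat.add_sub_cancel_left]
      ring
    rw [e0]
    have e1 : D1 q c = 1 / (t : ℝ) * s1 - 1 / (M : ℝ) * s2 := by rw [hD1, hs1, hs2]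
    have e2 : s1 - σ * t = t * D1 q c + t * (1 / (M : ℝ) * (s2 - σ * M)) := by
      rw [e1]
      field_simp
      ring
    rw [e2]
    refine two_sq.trans ?_
    have h5 : |1 / (M : ℝ) * (s2 - σ * M)| ≤ 1 / L ^ (A + 3) := by
      rw [abs_mul, abs_of_pos (by positivity)]
      calc 1 / (M : ℝ) * |s2 - σ * M| ≤ 1 / (M : ℝ) * (M / L ^ (A + 3)) := by gcongr
        _ = 1 / L ^ (A + 3) := by field_simp
    have h6 : (t * (1 / (M : ℝ) * (s2 - σ * M))) ^ 2 ≤ (t : ℝ) ^ 2 / L ^ (A + 3) := by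
      have h7 : (1 / (M : ℝ) * (s2 - σ * M)) ^ 2 ≤ (1 / L ^ (A + 3)) ^ 2 := by
        rw [← sq_abs]
        exact pow_le_pow_left₀ (abs_nonneg _) h5 2
      have h8 : (1 / L ^ (A + 3)) ^ 2 ≤ 1 / L ^ (A + 3) := by
        have h9 : 1 / L ^ (A + 3) ≤ 1 := by
          rw [div_le_one (by positivity)]
          exact one_le_pow₀ hL1
        have h10 : 0 ≤ 1 / L ^ (A + 3) := by positivity
        rw [sq]
        exact mul_le_of_le_one_right h10 h9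
      calc (t * (1 / (M : ℝ) * (s2 - σ * M))) ^ 2 = (t : ℝ) ^ 2 * (1 / (M : ℝ) * (s2 - σ * M)) ^ 2 := by ring
        _ ≤ (t : ℝ) ^ 2 * (1 / L ^ (A + 3)) := by
            apply mul_le_mul_of_nonneg_left (h7.trans h8) (by positivity)
        _ = _ := by ring
    have h7 : 2 * (t * D1 q c) ^ 2 = 2 * (t : ℝ) ^ 2 * (D1 q c) ^ 2 := by ring
    rw [h7]
    linarith
  have hsum : ∑ q ∈ Ioc Q (Q + K), ∑ c ∈ (Ioc 0 (0 + X)).filter (fun c => Nat.Coprime q c),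
      (∑ s ∈ Ioc 0 (0 + t), (sgz z ((c : ℤ) + (q : ℤ) * (s : ℤ)) - Sq z q)) ^ 2 ≤
      2 * (t : ℝ) ^ 2 * (X * K * (4 / t * (Vz z)⁻¹) + X * (4 * (Vz z)⁻¹) + K * (4 * (X / L ^ (A + 3)))) +
        2 * (X * K * ((t : ℝ) ^ 2 / L ^ (A + 3))) := by
    calc ∑ q ∈ Ioc Q (Q + K), ∑ c ∈ (Ioc 0 (0 + X)).filter (fun c => Nat.Coprime q c),
      (∑ s ∈ Ioc 0 (0 + t), (sgz z ((c : ℤ) + (q : ℤ) * (s : ℤ)) - Sq z q)) ^ 2 ≤
        ∑ q ∈ Ioc Q (Q + K), ∑ c ∈ (Ioc 0 (0 + X)).filter (fun c => Nat.Coprime q c),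
          (2 * (t : ℝ) ^ 2 * (D1 q c) ^ 2 + 2 * ((t : ℝ) ^ 2 / L ^ (A + 3))) :=
          Finset.sum_le_sum fun b hb => Finset.sum_le_sum fun c hc => hpt b hb c hc
      _ ≤ ∑ q ∈ Ioc Q (Q + K), ∑ c ∈ Ioc 0 (0 + X),
          (2 * (t : ℝ) ^ 2 * (D1 q c) ^ 2 + 2 * ((t : ℝ) ^ 2 / L ^ (A + 3))) := by
          apply Finset.sum_le_sum
          intro q _
          apply Finset.sum_le_sum_of_subset_of_nonneg (filter_subset _ _)
          intro _ _ _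
          positivity
      _ = 2 * (t : ℝ) ^ 2 * ∑ b ∈ Ioc Q (Q + K), ∑ c ∈ Ioc 0 (0 + X), (D1 b c) ^ 2 +
          2 * (X * K * ((t : ℝ) ^ 2 / L ^ (A + 3))) := by
          simp_rw [Finset.sum_add_distrib, Finset.sum_const, nsmul_eq_mul, Nat.card_Ioc,
            Nat.add_sub_cancel_left, Finset.mul_sum]
          ring
      _ ≤ _ := by
          have k1' : ∑ b ∈ Ioc Q (Q + K), ∑ c ∈ Ioc 0 (0 + X), (D1 b c) ^ 2 ≤
            X * K * (4 / t * (Vz z)⁻¹) + X * (4 * (Vz z)⁻¹) + K * (4 * (X / L ^ (A + 3))) := by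
            rw [hD1]
            exact k1
          gcongr
  refine hsum.trans ?_
  have e1 : 2 * (t : ℝ) ^ 2 * (X * K * (4 / t * (Vz z)⁻¹) + X * (4 * (Vz z)⁻¹) + K * (4 * (X / L ^ (A + 3)))) +
        2 * (X * K * ((t : ℝ) ^ 2 / L ^ (A + 3))) =
      8 * (X * K * t * (Vz z)⁻¹) + 8 * (X * (t : ℝ) ^ 2 * (Vz z)⁻¹) + 10 * (X * K * (t : ℝ) ^ 2 / L ^ (A + 3)) := by
    field_simp
    ring
  rw [e1]
  have e2 : X * (t : ℝ) ^ 2 * (Vz z)⁻¹ ≤ X * K * (t : ℝ) ^ 2 / L ^ (A + 3) := by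
    rw [le_div_iff₀ (by positivity)]
    calc X * (t : ℝ) ^ 2 * (Vz z)⁻¹ * L ^ (A + 3) ≤ X * (t : ℝ) ^ 2 * L * L ^ (A + 3) := by gcongr
      _ = X * (t : ℝ) ^ 2 * L ^ (A + 4) := by ring
      _ ≤ X * (t : ℝ) ^ 2 * K := by gcongr
      _ = X * K * (t : ℝ) ^ 2 := by ring
  linarith

/-- the decrease of the weight -/
theorem w_dec {x q ℓ : ℝ} {t : ℕ} (ht : 1 ≤ t) (hq : 0 < q) (hx : q * t ≤ x) (hℓ : 0 < ℓ) (hlog : ℓ ≤ Real.log x) :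
    1 / Real.log x - 1 / Real.log (x + q) ≤ 1 / (t * ℓ ^ 2) ∧ 1 / Real.log (x + q) ≤ 1 / Real.log x := by
  have htr : (1 : ℝ) ≤ t := by exact_mod_cast ht
  have hx0 : 0 < x := lt_of_lt_of_le (by positivity) hx
  have hl0 : 0 < Real.log x := by linarith
  have hl1 : Real.log x ≤ Real.log (x + q) := Real.log_le_log hx0 (by linarith)
  have hl2 : 0 < Real.log (x + q) := by linarith
  constructor
  · have h1 : Real.log (x + q) - Real.log x ≤ q / x := by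
      rw [← Real.log_div (by positivity) hx0.ne']
      have h2 := Real.log_le_sub_one_of_pos (show 0 < (x + q) / x by positivity)
      have e : (x + q) / x - 1 = q / x := by field_simp; ring
      rw [e] at h2
      exact h2
    have h2 : q / x ≤ 1 / t := by
      rw [div_le_div_iff₀ hx0 (by linarith)]
      linarith
    have e : 1 / Real.log x - 1 / Real.log (x + q) =
        (Real.log (x + q) - Real.log x) / (Real.log x * Real.log (x + q)) := by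
      field_simp
    rw [e]
    have h3 : ℓ ^ 2 ≤ Real.log x * Real.log (x + q) := by
      rw [sq]
      exact mul_le_mul hlog (hlog.trans hl1) hℓ.le hl0.le
    calc (Real.log (x + q) - Real.log x) / (Real.log x * Real.log (x + q)) ≤ (1 / t) / ℓ ^ 2 := by
          apply div_le_div₀ (by positivity) (h1.trans h2) (by positivity) h3
      _ = 1 / (t * ℓ ^ 2) := by rw [div_div]
  · exact one_div_le_one_div_of_le hl0 hl1

/-- the model with the weights -/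
theorem lin_weighted (A E : ℕ) : ∃ X₀ : ℕ, ∀ Q : ℕ, X₀ ≤ Q → ∀ z : ℕ, 1 ≤ z →
    (z : ℝ) ≤ Real.log (2 * Q : ℕ) ^ E → (Vz z)⁻¹ ≤ Real.log (2 * Q : ℕ) → ∀ K J : ℕ, 1 ≤ J → K ≤ Q →
    Real.log (2 * Q : ℕ) ^ (A + 4) ≤ K →
    ∑ q ∈ Ioc Q (Q + K), ∑ c ∈ (range q).filter (fun c => Nat.Coprime q c),
      (∑ t ∈ Icc 1 J, (sgz z ((c : ℤ) + (q : ℤ) * (t : ℤ)) - Sq z q) * (1 / Real.log ((c + q * t : ℕ) : ℝ))) ^ 2 ≤
      2 / Real.log Q ^ 2 * (16 * (Q * K * J * (Vz z)⁻¹) + 36 * (Q * K * (J : ℝ) ^ 2 / Real.log (2 * Q : ℕ) ^ (A + 3))) := by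
  obtain ⟨X₁, h1⟩ := lin_model A E
  obtain ⟨X₂, hX₂⟩ := ev_natlog (P := fun l => 1 ≤ l) (eventually_ge_atTop 1)
  refine ⟨X₁ + X₂ + 3, fun Q hQ z hz hzE hV K J hJ hKQ hK => ?_⟩
  have g1 := hX₂ Q (by omega)
  have h2 := h1 (2 * Q) (by omega) z hz hzE hV Q K
  obtain ⟨ℓ, hℓ⟩ : ∃ ℓ : ℝ, ℓ = Real.log Q := ⟨_, rfl⟩
  rw [← hℓ] at g1 ⊢
  have hℓ0 : 0 < ℓ := by linarith
  have hQ0 : (0 : ℝ) < Q := by exact_mod_cast (by omega : 0 < Q)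
  obtain ⟨α, hα⟩ : ∃ α : ℝ, α = 16 * (Q * K * (Vz z)⁻¹) := ⟨_, rfl⟩
  obtain ⟨β, hβ⟩ : ∃ β : ℝ, β = 36 * (Q * K / Real.log (2 * Q : ℕ) ^ (A + 3)) := ⟨_, rfl⟩
  have hV0 := inv_pos.2 (Vz_pos z)
  have hl2 : 0 < Real.log (2 * Q : ℕ) := lt_of_lt_of_le hV0 hV
  have hα0 : 0 ≤ α := by rw [hα]; positivity
  have hβ0 : 0 ≤ β := by rw [hβ]; positivity
  obtain ⟨At, hAt⟩ : ∃ At : ℕ → ℕ → ℕ → ℝ, At = fun (q c t : ℕ) =>
    ∑ s ∈ Ioc 0 (0 + t), (sgz z ((c : ℤ) + (q : ℤ) * (s : ℤ)) - Sq z q) := ⟨_, rfl⟩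
  have h3 : ∀ t : ℕ, 1 ≤ t → ∑ q ∈ Ioc Q (Q + K), ∑ c ∈ (range q).filter (fun c => Nat.Coprime q c), (At q c t) ^ 2 ≤
      α * t + β * (t : ℝ) ^ 2 := by
    intro t ht
    have h4 := h2 t ht hK
    refine le_trans ?_ (h4.trans (le_of_eq ?_))
    · apply Finset.sum_le_sum
      intro q hq
      rw [mem_Ioc] at hq
      rw [hAt]
      apply Finset.sum_le_sum_of_subset_of_nonneg
      · intro c hc
        rw [mem_filter, mem_range] at hc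
        rw [mem_filter, mem_Ioc]
        refine ⟨⟨?_, by omega⟩, hc.2⟩
        rcases Nat.eq_zero_or_pos c with h | h
        · exfalso
          have := hc.2
          rw [h, Nat.coprime_zero_right] at this
          omega
        · exact h
      · intro _ _ _
        positivity
    · rw [hα, hβ]
      push_cast
      ring
  -- one progression
  have h5 : ∀ q ∈ Ioc Q (Q + K), ∀ c ∈ (range q).filter (fun c => Nat.Coprime q c),
      (∑ t ∈ Icc 1 J, (sgz z ((c : ℤ) + (q : ℤ) * (t : ℤ)) - Sq z q) * (1 / Real.log ((c + q * t : ℕ) : ℝ))) ^ 2 ≤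
      1 / ℓ * (∑ t ∈ Ico 1 J, (At q c t) ^ 2 * (1 / (t * ℓ ^ 2)) + (At q c J) ^ 2 * (1 / ℓ)) := by
    intro q hq c _
    rw [mem_Ioc] at hq
    have hqQ : (Q : ℝ) ≤ q := by exact_mod_cast hq.1.le
    have hq0 : (0 : ℝ) < q := by linarith
    have hx : ∀ t : ℕ, 1 ≤ t → (q : ℝ) * t ≤ ((c + q * t : ℕ) : ℝ) ∧ ℓ ≤ Real.log ((c + q * t : ℕ) : ℝ) := by
      intro t ht
      have htr : (1 : ℝ) ≤ t := by exact_mod_cast ht
      have h6 : (q : ℝ) * t ≤ ((c + q * t : ℕ) : ℝ) := by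
        push_cast
        have : (0 : ℝ) ≤ c := Nat.cast_nonneg _
        linarith
      refine ⟨h6, ?_⟩
      rw [hℓ]
      apply Real.log_le_log hQ0
      calc (Q : ℝ) ≤ q * 1 := by linarith
        _ ≤ q * t := by gcongr
        _ ≤ _ := h6
    have hstep : ∀ t : ℕ, ((c + q * (t + 1) : ℕ) : ℝ) = ((c + q * t : ℕ) : ℝ) + q := by
      intro t
      push_cast
      ring
    have h7 := abel_sq (fun t => sgz z ((c : ℤ) + (q : ℤ) * (t : ℤ)) - Sq z q)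
      (fun t => 1 / Real.log ((c + q * t : ℕ) : ℝ)) J hJ (by
        intro t ht
        rw [mem_Ico] at ht
        obtain ⟨k1, k2⟩ := hx t ht.1
        rw [hstep]
        exact (w_dec ht.1 hq0 k1 hℓ0 k2).2) (by
        have := (hx J hJ).2
        have : 0 < Real.log ((c + q * J : ℕ) : ℝ) := by linarith
        positivity)
    refine h7.trans ?_
    have e1 : 1 / Real.log ((c + q * 1 : ℕ) : ℝ) ≤ 1 / ℓ := one_div_le_one_div_of_le hℓ0 (hx 1 le_rfl).2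
    have e2 : 1 / Real.log ((c + q * J : ℕ) : ℝ) ≤ 1 / ℓ := one_div_le_one_div_of_le hℓ0 (hx J hJ).2
    have e3 : ∑ t ∈ Ico 1 J, (∑ s ∈ Ioc 0 (0 + t), (sgz z ((c : ℤ) + (q : ℤ) * (s : ℤ)) - Sq z q)) ^ 2 *
        (1 / Real.log ((c + q * t : ℕ) : ℝ) - 1 / Real.log ((c + q * (t + 1) : ℕ) : ℝ)) ≤
        ∑ t ∈ Ico 1 J, (At q c t) ^ 2 * (1 / (t * ℓ ^ 2)) := by
      apply Finset.sum_le_sum
      intro t ht
      rw [mem_Ico] at ht
      obtain ⟨k1, k2⟩ := hx t ht.1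
      rw [hAt]
      apply mul_le_mul_of_nonneg_left _ (by positivity)
      rw [hstep]
      exact (w_dec ht.1 hq0 k1 hℓ0 k2).1
    have e4 : (∑ s ∈ Ioc 0 (0 + J), (sgz z ((c : ℤ) + (q : ℤ) * (s : ℤ)) - Sq z q)) ^ 2 *
        (1 / Real.log ((c + q * J : ℕ) : ℝ)) ≤ (At q c J) ^ 2 * (1 / ℓ) := by
      rw [hAt]
      exact mul_le_mul_of_nonneg_left e2 (by positivity)
    have e5 : 0 ≤ ∑ t ∈ Ico 1 J, (At q c t) ^ 2 * (1 / (t * ℓ ^ 2)) + (At q c J) ^ 2 * (1 / ℓ) := by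
      apply add_nonneg
      · exact Finset.sum_nonneg fun _ _ => by positivity
      · positivity
    exact mul_le_mul e1 (add_le_add e3 e4) (by
      apply add_nonneg
      · apply Finset.sum_nonneg
        intro t ht
        rw [mem_Ico] at ht
        obtain ⟨k1, k2⟩ := hx t ht.1
        apply mul_nonneg (by positivity)
        rw [hstep]
        have := (w_dec ht.1 hq0 k1 hℓ0 k2).2
        linarith
      · have := (hx J hJ).2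
        have : 0 < Real.log ((c + q * J : ℕ) : ℝ) := by linarith
        positivity) (by positivity)
  refine (Finset.sum_le_sum fun q hq => Finset.sum_le_sum fun c hc => h5 q hq c hc).trans ?_
  -- the sum
  have hJr : (1 : ℝ) ≤ J := by exact_mod_cast hJ
  have e6 : ∑ q ∈ Ioc Q (Q + K), ∑ c ∈ (range q).filter (fun c => Nat.Coprime q c),
      1 / ℓ * (∑ t ∈ Ico 1 J, (At q c t) ^ 2 * (1 / (t * ℓ ^ 2)) + (At q c J) ^ 2 * (1 / ℓ)) =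
      1 / ℓ * (∑ t ∈ Ico 1 J, (∑ q ∈ Ioc Q (Q + K), ∑ c ∈ (range q).filter (fun c => Nat.Coprime q c), (At q c t) ^ 2) *
        (1 / (t * ℓ ^ 2)) + (∑ q ∈ Ioc Q (Q + K), ∑ c ∈ (range q).filter (fun c => Nat.Coprime q c), (At q c J) ^ 2) *
          (1 / ℓ)) := by
    simp_rw [Finset.sum_mul, ← Finset.mul_sum, Finset.sum_add_distrib]
    congr 2
    have e7 : ∀ q ∈ Ioc Q (Q + K), ∑ c ∈ (range q).filter (fun c => Nat.Coprime q c), ∑ t ∈ Ico 1 J,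
        (At q c t) ^ 2 * (1 / (t * ℓ ^ 2)) = ∑ t ∈ Ico 1 J, ∑ c ∈ (range q).filter (fun c => Nat.Coprime q c),
        (At q c t) ^ 2 * (1 / (t * ℓ ^ 2)) := fun q _ => Finset.sum_comm
    rw [Finset.sum_congr rfl e7, Finset.sum_comm]
  rw [e6]
  have e8 : ∑ t ∈ Ico 1 J, (∑ q ∈ Ioc Q (Q + K), ∑ c ∈ (range q).filter (fun c => Nat.Coprime q c), (At q c t) ^ 2) *
        (1 / (t * ℓ ^ 2)) ≤ (α * J + β * (J : ℝ) ^ 2) * (1 / ℓ ^ 2) := by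
    calc ∑ t ∈ Ico 1 J, (∑ q ∈ Ioc Q (Q + K), ∑ c ∈ (range q).filter (fun c => Nat.Coprime q c), (At q c t) ^ 2) *
        (1 / (t * ℓ ^ 2)) ≤ ∑ _t ∈ Ico 1 J, (α + β * J) * (1 / ℓ ^ 2) := by
          apply Finset.sum_le_sum
          intro t ht
          rw [mem_Ico] at ht
          have ht0 : (0 : ℝ) < t := by exact_mod_cast (by omega : 0 < t)
          have htJ : (t : ℝ) ≤ J := by exact_mod_cast ht.2.le
          calc (∑ q ∈ Ioc Q (Q + K), ∑ c ∈ (range q).filter (fun c => Nat.Coprime q c), (At q c t) ^ 2) *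
              (1 / (t * ℓ ^ 2)) ≤ (α * t + β * (t : ℝ) ^ 2) * (1 / (t * ℓ ^ 2)) :=
                mul_le_mul_of_nonneg_right (h3 t ht.1) (by positivity)
            _ = (α + β * t) * (1 / ℓ ^ 2) := by field_simp
            _ ≤ (α + β * J) * (1 / ℓ ^ 2) := by gcongr
      _ = ((J : ℝ) - 1) * ((α + β * J) * (1 / ℓ ^ 2)) := by
          rw [Finset.sum_const, nsmul_eq_mul, Nat.card_Ico, Nat.cast_sub hJ, Nat.cast_one]
      _ ≤ J * ((α + β * J) * (1 / ℓ ^ 2)) := by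
          apply mul_le_mul_of_nonneg_right _ (by positivity)
          linarith
      _ = (α * J + β * (J : ℝ) ^ 2) * (1 / ℓ ^ 2) := by ring
  have e9 := mul_le_mul_of_nonneg_right (h3 J hJ) (show 0 ≤ 1 / ℓ by positivity)
  have e10 : 1 / ℓ * ((α * J + β * (J : ℝ) ^ 2) * (1 / ℓ ^ 2) + (α * J + β * (J : ℝ) ^ 2) * (1 / ℓ)) ≤
      2 / ℓ ^ 2 * (α * J + β * (J : ℝ) ^ 2) := by
    have e11 : 1 / ℓ * ((α * J + β * (J : ℝ) ^ 2) * (1 / ℓ ^ 2) + (α * J + β * (J : ℝ) ^ 2) * (1 / ℓ)) =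
        (1 / ℓ + 1) / ℓ ^ 2 * (α * J + β * (J : ℝ) ^ 2) := by
      field_simp
    rw [e11]
    apply mul_le_mul_of_nonneg_right _ (by positivity)
    apply div_le_div_of_nonneg_right _ (by positivity)
    have : 1 / ℓ ≤ 1 := by rw [div_le_one hℓ0]; exact g1
    linarith
  refine (mul_le_mul_of_nonneg_left (add_le_add e8 e9) (by positivity)).trans (e10.trans (le_of_eq ?_))
  rw [hα, hβ]
  ring

end Pool.Agent.K9h19.CR
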