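import Pool.Agent.K9h19.CR.BD3

/-!
# Progressions: classes without a small prime
-/

set_option autoImplicit false

namespace Pool.Agent.K9h19.CR

open Finset Filter Topology
open Pool.Agent.Q236.CR
open Pool.Agent.H373R2.T7 (lamz Vz pz Vz_pos Vz_inv_small nuB mem_pz PerB)

theorem Sq_one (z q : ℕ) : 1 ≤ Sq z q := by
  unfold Sq
  have hV := Vz_pos z
  have h : Vz z ≤ ∏ p ∈ pz z, (if p ∣ q then (1 : ℝ) else 1 - 1 / p) := by
    unfold Vz
    apply Finset.prod_le_prod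
    · intro p hp
      have hp1 : (1 : ℝ) ≤ p := by exact_mod_cast (mem_pz.1 hp).2.one_le
      have h1 : 1 / (p : ℝ) ≤ 1 := by rw [div_le_one (by linarith)]; exact hp1
      linarith
    · intro p hp
      have hp1 : (1 : ℝ) ≤ p := by exact_mod_cast (mem_pz.1 hp).2.one_le
      have h2 : 0 ≤ 1 / (p : ℝ) := by positivity
      split_ifs
      · linarith
      · exact le_rfl
  calc (1 : ℝ) = (Vz z)⁻¹ * Vz z := by field_simp
    _ ≤ _ := by
      apply mul_le_mul_of_nonneg_left h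
      positivity

theorem PE_one {z n : ℕ} {l : ℝ} (hl : 0 < l) (hn : l ≤ Real.log n) (hV : (Vz z)⁻¹ ≤ l) : |PE z n| ≤ 1 := by
  have h1 := lamz_nonneg z n
  have h2 := (lamz_le z n).trans hV
  have h3 : 0 < Real.log n := by linarith
  have h4 : 0 ≤ lamz z n / Real.log n := by positivity
  have h5 : lamz z n / Real.log n ≤ 1 := by
    rw [div_le_one h3]
    linarith
  unfold PE
  rw [abs_le]
  split_ifs
  · constructor <;> linarith
  · constructor <;> linarith

/-- a class without a small prime -/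
theorem late_pt {M K N z m c J : ℕ} {R L : ℝ} (hm : m ∈ Ioc M (M + K)) (hc : c < m)
    (hM : 3 ≤ M) (hV : (Vz z)⁻¹ ≤ Real.log M) (hL : Real.log N ≤ L)
    (hJ : (J + 1) * (M + K) ≤ N) (hR : ((N / m : ℕ) : ℝ) ≤ J + R) (hRJ : R ≤ J / (2 * L))
    (hlate : ∀ p : ℕ, p.Prime → p ≤ N → p % m ≠ c) :
    (J : ℝ) ^ 2 / (4 * L ^ 2) ≤
      3 * (∑ t ∈ Icc 1 J, (sgz z ((c : ℤ) + (m : ℤ) * (t : ℤ)) - Sq z m) * (1 / Real.log ((c + m * t : ℕ) : ℝ))) ^ 2 +
      3 * (HH (PE z) N m c) ^ 2 + 3 * (ext0 (PE z) N (c : ℤ)) ^ 2 := by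
  rw [mem_Ioc] at hm
  have hm0 : 0 < m := by omega
  have hJm : (J + 1) * m ≤ N := le_trans (Nat.mul_le_mul_left _ hm.2) hJ
  have hJN : J + 1 ≤ N / m := (Nat.le_div_iff_mul_le hm0).2 hJm
  have hM0 : (0 : ℝ) < M := by exact_mod_cast (by omega : 0 < M)
  have hlM : 1 ≤ Real.log M := by
    rw [Real.le_log_iff_exp_le hM0]
    have h1 := Real.exp_one_lt_d9
    have h2 : (3 : ℝ) ≤ M := by exact_mod_cast hM
    linarith
  have hlM0 : 0 < Real.log M := by linarith
  have hMN : M ≤ N := by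
    have : 1 * (M + K) ≤ (J + 1) * (M + K) := Nat.mul_le_mul_right _ (by omega)
    omega
  have hN0 : (0 : ℝ) < N := by exact_mod_cast (by omega : 0 < N)
  have hlN : Real.log M ≤ Real.log N := Real.log_le_log hM0 (by exact_mod_cast hMN)
  have hL0 : 0 < L := by linarith
  -- the elements of the class
  have hbig : ∀ n : ℕ, M ≤ n → n ≤ N → Real.log M ≤ Real.log n ∧ Real.log n ≤ L := by
    intro n h1 h2
    have hn0 : (0 : ℝ) < n := by exact_mod_cast (by omega : 0 < n)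
    exact ⟨Real.log_le_log hM0 (by exact_mod_cast h1), (Real.log_le_log hn0 (by exact_mod_cast h2)).trans hL⟩
  have hterm : ∀ i ∈ Ico 1 (J + 1), ext0 (PE z) N ((c : ℤ) + (m : ℤ) * (i : ℤ)) =
      -(sgz z ((c : ℤ) + (m : ℤ) * (i : ℤ)) * (1 / Real.log ((c + m * i : ℕ) : ℝ))) := by
    intro i hi
    rw [mem_Ico] at hi
    have h1 : c + m * i ≤ N := by
      have h2 : m * i + m ≤ (J + 1) * m := by
        have h3 : (i + 1) * m ≤ (J + 1) * m := Nat.mul_le_mul_right _ (by omega)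
        calc m * i + m = (i + 1) * m := by ring
          _ ≤ _ := h3
      omega
    have h2 : 1 ≤ c + m * i := by
      have : m * 1 ≤ m * i := Nat.mul_le_mul_left _ hi.1
      omega
    have e : (c : ℤ) + (m : ℤ) * (i : ℤ) = ((c + m * i : ℕ) : ℤ) := by push_cast; ring
    rw [e]
    have hnp : ¬ (c + m * i).Prime := by
      intro hp
      apply hlate _ hp h1
      rw [Nat.add_mul_mod_self_left, Nat.mod_eq_of_lt hc]
    unfold ext0
    rw [if_pos ⟨by exact_mod_cast h2, by exact_mod_cast h1⟩, Int.toNat_natCast, ← lamz_eq_sgz (by positivity),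
      Int.toNat_natCast]
    unfold PE
    rw [if_neg hnp]
    ring
  have hrest : ∀ i ∈ Ico (J + 1) (N / m + 1), |ext0 (PE z) N ((c : ℤ) + (m : ℤ) * (i : ℤ))| ≤ 1 := by
    intro i hi
    rw [mem_Ico] at hi
    have e : (c : ℤ) + (m : ℤ) * (i : ℤ) = ((c + m * i : ℕ) : ℤ) := by push_cast; ring
    rw [e]
    unfold ext0
    split_ifs with h
    · rw [Int.toNat_natCast]
      have h1 : M ≤ c + m * i := by
        have : m * 1 ≤ m * i := Nat.mul_le_mul_left _ (by omega)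
        omega
      have h2 : c + m * i ≤ N := by exact_mod_cast h.2
      exact PE_one hlM0 (hbig _ h1 h2).1 hV
    · rw [abs_zero]
      norm_num
  -- the decomposition
  obtain ⟨e0, he0⟩ : ∃ e0 : ℝ, e0 = ext0 (PE z) N (c : ℤ) := ⟨_, rfl⟩
  obtain ⟨S1, hS1⟩ : ∃ S1 : ℝ, S1 = ∑ t ∈ Icc 1 J, sgz z ((c : ℤ) + (m : ℤ) * (t : ℤ)) * (1 / Real.log ((c + m * t : ℕ) : ℝ)) :=
    ⟨_, rfl⟩
  obtain ⟨W, hW⟩ : ∃ W : ℝ, W = ∑ t ∈ Icc 1 J, 1 / Real.log ((c + m * t : ℕ) : ℝ) := ⟨_, rfl⟩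
  obtain ⟨rr, hrr⟩ : ∃ rr : ℝ, rr = ∑ i ∈ Ico (J + 1) (N / m + 1), ext0 (PE z) N ((c : ℤ) + (m : ℤ) * (i : ℤ)) := ⟨_, rfl⟩
  have hH : HH (PE z) N m c = e0 - S1 + rr := by
    unfold HH
    rw [Finset.range_eq_Ico, ← Finset.sum_Ico_consecutive _ (Nat.zero_le 1) (by omega : 1 ≤ N / m + 1),
      ← Finset.sum_Ico_consecutive _ (by omega : 1 ≤ J + 1) (by omega : J + 1 ≤ N / m + 1), Finset.sum_congr rfl hterm,
      Finset.sum_neg_distrib, ← hrr]
    have e1 : ∑ i ∈ Ico (0 : ℕ) 1, ext0 (PE z) N ((c : ℤ) + (m : ℤ) * (i : ℤ)) = e0 := by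
      rw [he0]
      simp
    have e2 : Ico 1 (J + 1) = Icc 1 J := by
      ext i
      rw [mem_Ico, mem_Icc]
      omega
    rw [e1, e2, ← hS1]
    ring
  have hrr' : |rr| ≤ R := by
    rw [hrr]
    calc |∑ i ∈ Ico (J + 1) (N / m + 1), ext0 (PE z) N ((c : ℤ) + (m : ℤ) * (i : ℤ))| ≤
        ∑ i ∈ Ico (J + 1) (N / m + 1), |ext0 (PE z) N ((c : ℤ) + (m : ℤ) * (i : ℤ))| := abs_sum_le_sum_abs _ _
      _ ≤ ∑ _i ∈ Ico (J + 1) (N / m + 1), (1 : ℝ) := Finset.sum_le_sum hrest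
      _ = ((N / m + 1 - (J + 1) : ℕ) : ℝ) := by
          rw [Finset.sum_const, nsmul_eq_mul, mul_one, Nat.card_Ico]
      _ ≤ R := by
          rw [Nat.cast_sub (by omega)]
          push_cast
          linarith
  have hDD : ∑ t ∈ Icc 1 J, (sgz z ((c : ℤ) + (m : ℤ) * (t : ℤ)) - Sq z m) * (1 / Real.log ((c + m * t : ℕ) : ℝ)) =
      S1 - Sq z m * W := by
    rw [hS1, hW, Finset.mul_sum, ← Finset.sum_sub_distrib]
    exact Finset.sum_congr rfl fun _ _ => by ring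
  obtain ⟨D, hD⟩ : ∃ D : ℝ, D = ∑ t ∈ Icc 1 J, (sgz z ((c : ℤ) + (m : ℤ) * (t : ℤ)) - Sq z m) *
    (1 / Real.log ((c + m * t : ℕ) : ℝ)) := ⟨_, rfl⟩
  rw [← hD] at hDD ⊢
  rw [← he0]
  obtain ⟨H, hHH⟩ : ∃ H : ℝ, H = HH (PE z) N m c := ⟨_, rfl⟩
  rw [← hHH] at hH ⊢
  have hWb : J / L ≤ W := by
    rw [hW]
    calc (J : ℝ) / L = ∑ _t ∈ Icc 1 J, 1 / L := by
          rw [Finset.sum_const, nsmul_eq_mul, Nat.card_Icc, Nat.add_sub_cancel]
          ring
      _ ≤ _ := by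
          apply Finset.sum_le_sum
          intro i hi
          rw [mem_Icc] at hi
          have h1 : c + m * i ≤ N := by
            have h2 : m * i + m ≤ (J + 1) * m := by
              have h3 : (i + 1) * m ≤ (J + 1) * m := Nat.mul_le_mul_right _ (by omega)
              calc m * i + m = (i + 1) * m := by ring
                _ ≤ _ := h3
            omega
          have h2 : M ≤ c + m * i := by
            have : m * 1 ≤ m * i := Nat.mul_le_mul_left _ hi.1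
            omega
          obtain ⟨h3, h4⟩ := hbig _ h2 h1
          exact one_div_le_one_div_of_le (by linarith) h4
  have hSW : J / L ≤ Sq z m * W := by
    have h1 := Sq_one z m
    have h2 : 0 ≤ (J : ℝ) / L := by positivity
    calc J / L ≤ W := hWb
      _ ≤ Sq z m * W := le_mul_of_one_le_left (h2.trans hWb) h1
  have hfin : |(J : ℝ) / (2 * L)| ≤ |D| + |H| + |e0| := by
    have h1 : (J : ℝ) / L = J / (2 * L) + J / (2 * L) := by
      field_simp
      ring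
    rw [abs_of_nonneg (by positivity)]
    have a1 := neg_abs_le D
    have a2 := neg_abs_le H
    have a3 := le_abs_self e0
    have a4 := le_abs_self rr
    linarith
  have h9 := three_sq' _ hfin
  rw [sq_abs, sq_abs, sq_abs] at h9
  have e9 : (J : ℝ) ^ 2 / (4 * L ^ 2) = (J / (2 * L)) ^ 2 := by
    rw [div_pow]
    ring
  rw [e9]
  exact h9

end Pool.Agent.K9h19.CR
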