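import Pool.Agent.K9h19.CR.BD4

/-!
# Progressions: the number of the classes without a small prime
-/

set_option autoImplicit false

namespace Pool.Agent.K9h19.CR

open Finset Filter Topology
open Pool.Agent.Q236.CR
open Pool.Agent.H373R2.T7 (lamz Vz pz Vz_pos Vz_inv_small nuB mem_pz PerB)

/-- the residue classes modulo `m` without a prime up to `N` -/
def Late (N m c : ℕ) : Prop := ∀ p : ℕ, p.Prime → p ≤ N → p % m ≠ c

open Classical in
/-- the set of the residue classes prime to `m` without a prime up to `N` -/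
noncomputable def lateS (N m : ℕ) : Finset ℕ := (range m).filter (fun c => Nat.Coprime m c ∧ Late N m c)

/-- the final computation -/
theorem late_arith {K M N L T J l2 Λ a b V c : ℝ} (A : ℕ) (hK : 0 ≤ K) (hM : 0 < M) (hL : 30000 ≤ L) (hN : N = T * M)
    (hT : 200 * L ≤ T) (hJ1 : T / 3 ≤ J) (hl2 : L ≤ l2) (hΛ : L ≤ Λ) (ha : L ^ (A + 3) ≤ a) (hb : L ^ (A + 3) ≤ b)
    (hV : V ≤ L) (hV0 : 0 ≤ V)
    (h : c * (J ^ 2 / (16 * L ^ 2)) ≤ 3 * (2 / L ^ 2 * (16 * (M * K * J * V) + 36 * (M * K * J ^ 2 / a))) +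
      3 * (26000 * (N * K / Λ) + 40 * (N ^ 2 * K / (M * b))) + 3 * (K * (26 * (2 * M / l2)))) :
    c ≤ 12000000 * (K * M ^ 2 * L / N) + K * M / L ^ A := by
  have hL0 : 0 < L := by linarith
  have hT0 : 0 < T := by linarith
  have hJ0 : 0 < J := by linarith
  have hl0 : 0 < l2 := by linarith
  have hΛ0 : 0 < Λ := by linarith
  have hLA : 0 < L ^ (A + 3) := by positivity
  have ha0 : 0 < a := by linarith
  have hb0 : 0 < b := by linarith
  have hJT : T ^ 2 / 9 ≤ J ^ 2 := by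
    have : (T / 3) ^ 2 ≤ J ^ 2 := pow_le_pow_left₀ (by positivity) hJ1 2
    calc T ^ 2 / 9 = (T / 3) ^ 2 := by ring
      _ ≤ _ := this
  have t1 : M * K * V / J ≤ 3 * (K * M * L / T) := by
    calc M * K * V / J ≤ M * K * L / (T / 3) := by gcongr
      _ = 3 * (K * M * L / T) := by field_simp
  have t2 : M * K / a ≤ K * M / L ^ (A + 1) * 1 := by
    calc M * K / a ≤ M * K / L ^ (A + 3) := by gcongr
      _ = K * M / L ^ (A + 1) * (1 / L ^ 2) := by
          rw [show A + 3 = (A + 1) + 2 by ring, pow_add L (A + 1) 2]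
          field_simp
      _ ≤ _ := by
          apply mul_le_mul_of_nonneg_left _ (by positivity)
          rw [div_le_one (by positivity)]
          exact one_le_pow₀ (by linarith)
  have t3 : L ^ 2 * N * K / (Λ * J ^ 2) ≤ 9 * (K * M * L / T) := by
    calc L ^ 2 * N * K / (Λ * J ^ 2) ≤ L ^ 2 * N * K / (L * (T ^ 2 / 9)) := by
          rw [hN]
          gcongr
      _ = 9 * (K * M * L / T) := by
          rw [hN]
          field_simp
  have t4 : L ^ 2 * N ^ 2 * K / (M * b * J ^ 2) ≤ 9 * (K * M / L ^ (A + 1)) := by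
    calc L ^ 2 * N ^ 2 * K / (M * b * J ^ 2) ≤ L ^ 2 * N ^ 2 * K / (M * L ^ (A + 3) * (T ^ 2 / 9)) := by
          gcongr
      _ = 9 * (K * M / L ^ (A + 1)) := by
          rw [hN, show A + 3 = (A + 1) + 2 by ring, pow_add L (A + 1) 2]
          field_simp
  have t5 : L ^ 2 * K * M / (l2 * J ^ 2) ≤ 1 / 20 * (K * M * L / T) := by
    calc L ^ 2 * K * M / (l2 * J ^ 2) ≤ L ^ 2 * K * M / (L * (T ^ 2 / 9)) := by gcongr
      _ = K * M * L / T * (9 / T) := by
          field_simp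
      _ ≤ K * M * L / T * (1 / 20) := by
          apply mul_le_mul_of_nonneg_left _ (by positivity)
          rw [div_le_div_iff₀ hT0 (by norm_num)]
          linarith
      _ = _ := by ring
  have e1 : c = c * (J ^ 2 / (16 * L ^ 2)) * (16 * L ^ 2 / J ^ 2) := by
    field_simp
  have e2 : c ≤ (3 * (2 / L ^ 2 * (16 * (M * K * J * V) + 36 * (M * K * J ^ 2 / a))) +
      3 * (26000 * (N * K / Λ) + 40 * (N ^ 2 * K / (M * b))) + 3 * (K * (26 * (2 * M / l2)))) * (16 * L ^ 2 / J ^ 2) := by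
    rw [e1]
    exact mul_le_mul_of_nonneg_right h (by positivity)
  have e3 : (3 * (2 / L ^ 2 * (16 * (M * K * J * V) + 36 * (M * K * J ^ 2 / a))) +
      3 * (26000 * (N * K / Λ) + 40 * (N ^ 2 * K / (M * b))) + 3 * (K * (26 * (2 * M / l2)))) * (16 * L ^ 2 / J ^ 2) =
      1536 * (M * K * V / J) + 3456 * (M * K / a) + 1248000 * (L ^ 2 * N * K / (Λ * J ^ 2)) +
        1920 * (L ^ 2 * N ^ 2 * K / (M * b * J ^ 2)) + 2496 * (L ^ 2 * K * M / (l2 * J ^ 2)) := by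
    field_simp
    ring
  rw [e3] at e2
  have e4 : K * M ^ 2 * L / N = K * M * L / T := by
    rw [hN]
    field_simp
  rw [e4]
  have e5 : 30000 * (K * M / L ^ (A + 1)) ≤ K * M / L ^ A := by
    rw [pow_succ L A]
    have e6 : K * M / L ^ A = L * (K * M / (L ^ A * L)) := by
      field_simp
    rw [e6]
    apply mul_le_mul_of_nonneg_right hL
    positivity
  have e7 : 0 ≤ K * M * L / T := by positivity
  have e8 : 0 ≤ K * M / L ^ (A + 1) := by positivity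
  linarith

/-- the number of the classes without a small prime -/
theorem late_count (hcr : S_CHR) (hmo : S_MOC) (A : ℕ) : ∃ D M₀ : ℕ, ∀ M K N : ℕ, M₀ ≤ M →
    Real.log M ^ D ≤ K → K * Real.log M ^ D ≤ M → 200 * Real.log M * M ≤ N → N ≤ M ^ 2 →
    (M : ℝ) * Real.log M ^ D ≤ K * (N : ℝ) ^ (2 / 3 : ℝ) →
    ∑ m ∈ Ioc M (M + K), (((lateS N m).card : ℕ) : ℝ) ≤
      12000000 * (K * (M : ℝ) ^ 2 * Real.log M / N) + K * M / Real.log M ^ A := by
  classical
  obtain ⟨B₀, hB₀⟩ := pe_part hcr hmo (A + 3)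
  obtain ⟨D₁, N₁, h1⟩ := hB₀ (B₀ + 1)
  obtain ⟨X₁, h2⟩ := lin_weighted A (2 * (B₀ + 1))
  obtain ⟨N₂, h3⟩ := PE_sq (2 * (B₀ + 1))
  obtain ⟨N₃, h4⟩ := Vz_inv_small (2 * (B₀ + 1))
  obtain ⟨N₄, h5⟩ := ev_natlog (P := fun l => 30000 ≤ l) (eventually_ge_atTop 30000)
  refine ⟨2 * (D₁ + A + 8), N₁ + X₁ + N₂ + N₃ + N₄ + 3, fun M K N hM hK hKM hN hN2 hKN => ?_⟩
  have g1 := h5 M (by omega)
  have hM0 : (0 : ℝ) < M := by exact_mod_cast (by omega : 0 < M)
  have hM1 : (1 : ℝ) ≤ M := by exact_mod_cast (by omega : 1 ≤ M)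
  obtain ⟨L, hL⟩ : ∃ L : ℝ, L = Real.log M := ⟨_, rfl⟩
  rw [← hL] at g1 hK hKM hN hKN ⊢
  have hL0 : 0 < L := by linarith
  have hL1 : 1 ≤ L := by linarith
  have hMN : (M : ℝ) ≤ N := by
    calc (M : ℝ) = 1 * M := (one_mul _).symm
      _ ≤ 200 * L * M := by
          apply mul_le_mul_of_nonneg_right _ hM0.le
          linarith
      _ ≤ N := hN
  have hMNn : M ≤ N := by exact_mod_cast hMN
  have hN0 : (0 : ℝ) < N := by linarith
  obtain ⟨Λ, hΛ⟩ : ∃ Λ : ℝ, Λ = Real.log N := ⟨_, rfl⟩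
  have hLΛ : L ≤ Λ := by rw [hL, hΛ]; exact Real.log_le_log hM0 hMN
  have hΛ2 : Λ ≤ 2 * L := by
    have e : (2 : ℝ) * Real.log M = Real.log ((M : ℝ) ^ 2) := by
      rw [Real.log_pow]
      norm_num
    rw [hL, hΛ, e]
    exact Real.log_le_log hN0 (by exact_mod_cast hN2)
  obtain ⟨l2, hl2⟩ : ∃ l2 : ℝ, l2 = Real.log ((2 * M : ℕ) : ℝ) := ⟨_, rfl⟩
  have hLl2 : L ≤ l2 := by
    rw [hL, hl2]
    exact Real.log_le_log hM0 (by push_cast; linarith)
  have hl22 : l2 ≤ 2 * L := by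
    have e : (2 : ℝ) * Real.log M = Real.log ((M : ℝ) ^ 2) := by
      rw [Real.log_pow]
      norm_num
    rw [hL, hl2, e]
    apply Real.log_le_log (by push_cast; linarith)
    have : 2 * M ≤ M ^ 2 := by
      have h6 : 2 ≤ M := by omega
      calc 2 * M ≤ M * M := Nat.mul_le_mul_right _ h6
        _ = M ^ 2 := by ring
    push_cast
    exact_mod_cast this
  have hLL : 2 * L ≤ L ^ 2 := by
    rw [sq]
    exact mul_le_mul_of_nonneg_right (by linarith) hL0.le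
  -- the parameter of the sieve
  obtain ⟨z, hz⟩ : ∃ z : ℕ, z = ⌈Λ ^ B₀⌉₊ := ⟨_, rfl⟩
  have hΛ0 : 0 < Λ := by linarith
  have hz1 : Λ ^ B₀ ≤ z := by rw [hz]; exact Nat.le_ceil _
  have hz2 : (z : ℝ) ≤ Λ ^ (B₀ + 1) := by
    have h6 : (z : ℝ) < Λ ^ B₀ + 1 := by rw [hz]; exact Nat.ceil_lt_add_one (by positivity)
    have h7 : 1 ≤ Λ ^ B₀ := one_le_pow₀ (by linarith)
    calc (z : ℝ) ≤ Λ ^ B₀ * 2 := by linarith
      _ ≤ Λ ^ B₀ * Λ := by
          apply mul_le_mul_of_nonneg_left _ (by positivity)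
          linarith
      _ = Λ ^ (B₀ + 1) := (pow_succ _ _).symm
  have hz0 : 1 ≤ z := by
    have h7 : 1 ≤ Λ ^ B₀ := one_le_pow₀ (by linarith)
    exact_mod_cast h7.trans hz1
  have hz3 : (z : ℝ) ≤ L ^ (2 * (B₀ + 1)) := by
    refine hz2.trans ?_
    rw [pow_mul]
    exact pow_le_pow_left₀ hΛ0.le (hΛ2.trans hLL) _
  have hz4 : (z : ℝ) ≤ l2 ^ (2 * (B₀ + 1)) := hz3.trans (pow_le_pow_left₀ hL0.le hLl2 _)
  have hV : (Vz z)⁻¹ ≤ L := by
    rw [hL]
    apply h4 M (by omega) z hz0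
    rw [← hL]
    exact hz3
  have hV0 := inv_pos.2 (Vz_pos z)
  -- the parameters
  have hKM' : (K : ℝ) ≤ M := by
    have h7 : 1 ≤ L ^ (2 * (D₁ + A + 8)) := one_le_pow₀ hL1
    have hK0 : (0 : ℝ) ≤ K := Nat.cast_nonneg _
    calc (K : ℝ) = K * 1 := (mul_one _).symm
      _ ≤ K * L ^ (2 * (D₁ + A + 8)) := by gcongr
      _ ≤ M := hKM
  have hKMn : K ≤ M := by exact_mod_cast hKM'
  have hpow : ∀ {k : ℕ} {x : ℝ}, 0 ≤ x → x ≤ 2 * L → k ≤ D₁ + A + 8 → x ^ k ≤ L ^ (2 * (D₁ + A + 8)) := by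
    intro k x hx0 hx hk
    calc x ^ k ≤ (L ^ 2) ^ k := pow_le_pow_left₀ hx0 (hx.trans hLL) _
      _ = L ^ (2 * k) := (pow_mul _ _ _).symm
      _ ≤ _ := pow_le_pow_right₀ hL1 (by omega)
  have hK0 : (0 : ℝ) < K := lt_of_lt_of_le (by positivity) hK
  have hMKN : M + K ≤ N := by
    have h6 : (M : ℝ) + K ≤ N := by
      calc (M : ℝ) + K ≤ 2 * M := by linarith
        _ ≤ 200 * L * M := by
            apply mul_le_mul_of_nonneg_right _ hM0.le
            linarith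
        _ ≤ N := hN
    exact_mod_cast h6
  -- the three bounds
  have k1 := h1 N (by omega) z (by rw [← hΛ]; exact hz1) (by rw [← hΛ]; exact hz2) M K
    (by rw [← hΛ]; exact (hpow hΛ0.le hΛ2 (by omega)).trans hK) hKMn hMKN (by
      rw [← hΛ]
      calc (M : ℝ) * Λ ^ D₁ ≤ M * L ^ (2 * (D₁ + A + 8)) := by
            apply mul_le_mul_of_nonneg_left (hpow hΛ0.le hΛ2 (by omega)) hM0.le
        _ ≤ _ := hKN)
  rw [← hΛ] at k1
  obtain ⟨T, hT⟩ : ∃ T : ℝ, T = N / M := ⟨_, rfl⟩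
  have hNT : (N : ℝ) = T * M := by rw [hT]; field_simp
  have hT1 : 200 * L ≤ T := by
    rw [hT, le_div_iff₀ hM0]
    exact hN
  have hT0 : 0 < T := by linarith
  obtain ⟨J, hJ⟩ : ∃ J : ℕ, J = N / (M + K) - 1 := ⟨_, rfl⟩
  have hMKp : 0 < M + K := by omega
  have hJ2 : (N : ℝ) / (M + K) - 2 ≤ J := by
    have h6 : (N : ℝ) / ((M + K : ℕ) : ℝ) < (N / (M + K) : ℕ) + 1 := by
      rw [div_lt_iff₀ (by exact_mod_cast hMKp), mul_comm]
      exact_mod_cast Nat.lt_mul_div_succ N hMKp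
    have h7 : (N / (M + K) : ℕ) ≤ J + 1 := by omega
    have h8 : ((N / (M + K) : ℕ) : ℝ) ≤ J + 1 := by exact_mod_cast h7
    push_cast at h6
    linarith
  have hJ3 : T / 3 ≤ J := by
    have h6 : T / 2 ≤ (N : ℝ) / (M + K) := by
      rw [hT, div_div]
      apply div_le_div_of_nonneg_left hN0.le (by positivity)
      linarith
    linarith
  have hJ0 : (0 : ℝ) < J := by linarith
  have hJ1 : 1 ≤ J := by
    have : (0 : ℝ) < J := hJ0
    exact_mod_cast this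
  have hJN : (J + 1) * (M + K) ≤ N := by
    have h6 : J + 1 = N / (M + K) := by omega
    rw [h6]
    exact Nat.div_mul_le_self _ _
  have k2 := h2 M (by omega) z hz0 (by rw [← hl2]; exact hz4) (by rw [← hl2]; exact hV.trans hLl2) K J hJ1 hKMn
    (by rw [← hl2]; exact (hpow (by linarith) hl22 (by omega)).trans hK)
  have k3 := h3 (2 * M) (by omega) z hz0 (by rw [← hl2]; exact hz4)
  rw [← hL, ← hl2] at k2
  rw [← hl2] at k3
  -- the error in the number of the terms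
  obtain ⟨R, hR⟩ : ∃ R : ℝ, R = T / L ^ (2 * (D₁ + A + 8)) + 2 := ⟨_, rfl⟩
  have hRm : ∀ m ∈ Ioc M (M + K), ((N / m : ℕ) : ℝ) ≤ J + R := by
    intro m hm
    rw [mem_Ioc] at hm
    have hmM : (M : ℝ) ≤ m := by exact_mod_cast hm.1.le
    have h6 : ((N / m : ℕ) : ℝ) ≤ T := by
      calc ((N / m : ℕ) : ℝ) ≤ (N : ℝ) / m := Nat.cast_div_le
        _ ≤ N / M := by gcongr
        _ = T := hT.symm
    have h7 : T - (N : ℝ) / (M + K) ≤ T / L ^ (2 * (D₁ + A + 8)) := by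
      have h8 : T - (N : ℝ) / (M + K) = T * (K / (M + K)) := by
        rw [hNT]
        field_simp
        ring
      rw [h8, div_eq_mul_one_div T]
      apply mul_le_mul_of_nonneg_left _ hT0.le
      rw [div_le_div_iff₀ (by positivity) (by positivity)]
      linarith
    rw [hR]
    linarith
  have hRJ : R ≤ J / (2 * (2 * L)) := by
    have h6 : T / L ^ (2 * (D₁ + A + 8)) ≤ T / (24 * L) := by
      apply div_le_div_of_nonneg_left hT0.le (by positivity)
      calc 24 * L ≤ L * L := by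
            apply mul_le_mul_of_nonneg_right _ hL0.le
            linarith
        _ = L ^ 2 := by ring
        _ ≤ _ := pow_le_pow_right₀ hL1 (by omega)
    have h7 : 2 ≤ T / (24 * L) := by
      rw [le_div_iff₀ (by positivity)]
      linarith
    have h8 : T / (24 * L) + T / (24 * L) = T / 3 / (2 * (2 * L)) := by
      field_simp
      norm_num
    have h9 : T / 3 / (2 * (2 * L)) ≤ J / (2 * (2 * L)) := by gcongr
    rw [hR]
    linarith
  -- the classes
  obtain ⟨DD, hDD⟩ : ∃ DD : ℕ → ℕ → ℝ, DD = fun (m c : ℕ) =>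
    ∑ t ∈ Icc 1 J, (sgz z ((c : ℤ) + (m : ℤ) * (t : ℤ)) - Sq z m) * (1 / Real.log ((c + m * t : ℕ) : ℝ)) := ⟨_, rfl⟩
  obtain ⟨cnt, hcnt⟩ : ∃ cnt : ℝ, cnt = ∑ m ∈ Ioc M (M + K), (((lateS N m).card : ℕ) : ℝ) := ⟨_, rfl⟩
  rw [← hcnt]
  have hpt : ∀ m ∈ Ioc M (M + K), ∀ c ∈ lateS N m, (J : ℝ) ^ 2 / (16 * L ^ 2) ≤
      3 * (DD m c) ^ 2 + 3 * (HH (PE z) N m c) ^ 2 + 3 * (ext0 (PE z) N (c : ℤ)) ^ 2 := by
    intro m hm c hc
    unfold lateS at hc
    rw [mem_filter, mem_range] at hc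
    have h6 := late_pt (L := 2 * L) hm hc.1 (by omega : 3 ≤ M) (by rw [← hL]; exact hV) (by rw [← hΛ]; exact hΛ2) hJN
      (hRm m hm) hRJ hc.2.2
    rw [hDD]
    refine le_trans (le_of_eq ?_) h6
    ring
  have hE : ∀ m ∈ Ioc M (M + K), ∑ c ∈ range m, (ext0 (PE z) N (c : ℤ)) ^ 2 ≤ 26 * (2 * M / l2) := by
    intro m hm
    rw [mem_Ioc] at hm
    calc ∑ c ∈ range m, (ext0 (PE z) N (c : ℤ)) ^ 2 ≤ ∑ c ∈ range m, (if c ∈ Icc 1 (2 * M) then (PE z c) ^ 2 else 0) := by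
          apply Finset.sum_le_sum
          intro c hc
          rw [mem_range] at hc
          unfold ext0
          split_ifs with a1 a2 a2
          · rw [Int.toNat_natCast]
          · exfalso
            apply a2
            rw [mem_Icc]
            refine ⟨by exact_mod_cast a1.1, by omega⟩
          · rw [zero_pow (by norm_num)]
            positivity
          · simp
      _ = ∑ c ∈ (range m).filter (fun c => c ∈ Icc 1 (2 * M)), (PE z c) ^ 2 := by rw [Finset.sum_filter]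
      _ ≤ ∑ c ∈ Icc 1 (2 * M), (PE z c) ^ 2 := by
          apply Finset.sum_le_sum_of_subset_of_nonneg
          · intro c hc
            exact (mem_filter.1 hc).2
          · intro _ _ _
            positivity
      _ ≤ 26 * (((2 * M : ℕ) : ℝ) / l2) := k3
      _ = 26 * (2 * M / l2) := by push_cast; ring
  have hmain : cnt * ((J : ℝ) ^ 2 / (16 * L ^ 2)) ≤
      3 * (2 / L ^ 2 * (16 * (M * K * J * (Vz z)⁻¹) + 36 * (M * K * (J : ℝ) ^ 2 / l2 ^ (A + 3)))) +
      3 * (26000 * (N * K / Λ) + 40 * ((N : ℝ) ^ 2 * K / (M * Λ ^ (A + 3)))) + 3 * (K * (26 * (2 * M / l2))) := by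
    calc cnt * ((J : ℝ) ^ 2 / (16 * L ^ 2)) = ∑ m ∈ Ioc M (M + K), ∑ _c ∈ lateS N m, (J : ℝ) ^ 2 / (16 * L ^ 2) := by
          rw [hcnt, Finset.sum_mul]
          apply Finset.sum_congr rfl
          intro m _
          rw [Finset.sum_const, nsmul_eq_mul]
      _ ≤ ∑ m ∈ Ioc M (M + K), ∑ c ∈ lateS N m,
          (3 * (DD m c) ^ 2 + 3 * (HH (PE z) N m c) ^ 2 + 3 * (ext0 (PE z) N (c : ℤ)) ^ 2) :=
          Finset.sum_le_sum fun m hm => Finset.sum_le_sum fun c hc => hpt m hm c hc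
      _ = 3 * (∑ m ∈ Ioc M (M + K), ∑ c ∈ lateS N m, (DD m c) ^ 2) +
          3 * (∑ m ∈ Ioc M (M + K), ∑ c ∈ lateS N m, (HH (PE z) N m c) ^ 2) +
          3 * (∑ m ∈ Ioc M (M + K), ∑ c ∈ lateS N m, (ext0 (PE z) N (c : ℤ)) ^ 2) := by
          simp_rw [Finset.sum_add_distrib, ← Finset.mul_sum]
      _ ≤ 3 * (∑ m ∈ Ioc M (M + K), ∑ c ∈ (range m).filter (fun c => Nat.Coprime m c), (DD m c) ^ 2) +
          3 * (∑ m ∈ Ioc M (M + K), ∑ c ∈ range m, (HH (PE z) N m c) ^ 2) +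
          3 * (∑ m ∈ Ioc M (M + K), ∑ c ∈ range m, (ext0 (PE z) N (c : ℤ)) ^ 2) := by
          have b1 : ∀ m : ℕ, lateS N m ⊆ (range m).filter (fun c => Nat.Coprime m c) := by
            intro m c hc
            unfold lateS at hc
            rw [mem_filter] at hc ⊢
            exact ⟨hc.1, hc.2.1⟩
          have b2 : ∀ m : ℕ, lateS N m ⊆ range m := fun m c hc => (mem_filter.1 (b1 m hc)).1
          have b3 : ∑ m ∈ Ioc M (M + K), ∑ c ∈ lateS N m, (DD m c) ^ 2 ≤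
              ∑ m ∈ Ioc M (M + K), ∑ c ∈ (range m).filter (fun c => Nat.Coprime m c), (DD m c) ^ 2 :=
            Finset.sum_le_sum fun m _ => Finset.sum_le_sum_of_subset_of_nonneg (b1 m) fun _ _ _ => by positivity
          have b4 : ∑ m ∈ Ioc M (M + K), ∑ c ∈ lateS N m, (HH (PE z) N m c) ^ 2 ≤
              ∑ m ∈ Ioc M (M + K), ∑ c ∈ range m, (HH (PE z) N m c) ^ 2 :=
            Finset.sum_le_sum fun m _ => Finset.sum_le_sum_of_subset_of_nonneg (b2 m) fun _ _ _ => by positivity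
          have b5 : ∑ m ∈ Ioc M (M + K), ∑ c ∈ lateS N m, (ext0 (PE z) N (c : ℤ)) ^ 2 ≤
              ∑ m ∈ Ioc M (M + K), ∑ c ∈ range m, (ext0 (PE z) N (c : ℤ)) ^ 2 :=
            Finset.sum_le_sum fun m _ => Finset.sum_le_sum_of_subset_of_nonneg (b2 m) fun _ _ _ => by positivity
          linarith
      _ ≤ _ := by
          have b3 : ∑ m ∈ Ioc M (M + K), ∑ c ∈ (range m).filter (fun c => Nat.Coprime m c), (DD m c) ^ 2 ≤
              2 / L ^ 2 * (16 * (M * K * J * (Vz z)⁻¹) + 36 * (M * K * (J : ℝ) ^ 2 / l2 ^ (A + 3))) := by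
            rw [hDD]
            exact k2
          have b5 : ∑ m ∈ Ioc M (M + K), ∑ c ∈ range m, (ext0 (PE z) N (c : ℤ)) ^ 2 ≤ K * (26 * (2 * M / l2)) := by
            calc ∑ m ∈ Ioc M (M + K), ∑ c ∈ range m, (ext0 (PE z) N (c : ℤ)) ^ 2 ≤
                ∑ _m ∈ Ioc M (M + K), 26 * (2 * (M : ℝ) / l2) := Finset.sum_le_sum hE
              _ = K * (26 * (2 * M / l2)) := by
                  rw [Finset.sum_const, nsmul_eq_mul, Nat.card_Ioc, Nat.add_sub_cancel_left]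
          linarith
  exact late_arith A hK0.le hM0 g1 hNT hT1 hJ3 hLl2 hLΛ (pow_le_pow_left₀ hL0.le hLl2 _)
    (pow_le_pow_left₀ hL0.le hLΛ _) hV hV0.le hmain

end Pool.Agent.K9h19.CR
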