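import Pool.Agent.K9h19.CR.BD5

/-!
# Progressions: moduli in intervals of every length
-/

set_option autoImplicit false

namespace Pool.Agent.K9h19.CR

open Finset Filter Topology
open Pool.Agent.Q236.CR

theorem card_lateS (N m : ℕ) : (((lateS N m).card : ℕ) : ℝ) ≤ m := by
  classical
  have h : (lateS N m).card ≤ m := by
    unfold lateS
    calc _ ≤ (range m).card := card_filter_le _ _
      _ = m := card_range m
  exact_mod_cast h

/-- the sum over consecutive blocks -/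
theorem blocks_le (f : ℕ → ℝ) (M K₁ : ℕ) (β : ℝ) : ∀ n : ℕ, (∀ i < n, ∑ m ∈ Ioc (M + i * K₁) (M + i * K₁ + K₁), f m ≤ β) →
    ∑ m ∈ Ioc M (M + n * K₁), f m ≤ n * β := by
  intro n
  induction n with
  | zero => intro _; simp
  | succ n ih =>
    intro h
    have h1 := ih fun i hi => h i (by omega)
    have h2 := h n (by omega)
    have e : M + (n + 1) * K₁ = M + n * K₁ + K₁ := by ring
    rw [e, ← Finset.sum_Ioc_consecutive _ (by omega : M ≤ M + n * K₁) (by omega : M + n * K₁ ≤ M + n * K₁ + K₁)]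
    push_cast
    linarith

/-- the number of the classes without a small prime, for the moduli in an interval -/
theorem late_all (hcr : S_CHR) (hmo : S_MOC) (A : ℕ) : ∃ D M₀ : ℕ, ∀ M K N : ℕ, M₀ ≤ M → K ≤ M →
    Real.log M ^ D ≤ K → M ≤ N → N ≤ M ^ 2 →
    (M : ℝ) * Real.log M ^ D ≤ K * (N : ℝ) ^ (2 / 3 : ℝ) →
    ∑ m ∈ Ioc M (M + K), (((lateS N m).card : ℕ) : ℝ) ≤
      500000000 * (K * (M : ℝ) ^ 2 * Real.log M / N) + K * M / Real.log M ^ A := by
  obtain ⟨D, M₁, h1⟩ := late_count hcr hmo (A + 1)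
  obtain ⟨M₂, h2⟩ := ev_natlog (P := fun l => 200 ≤ l ∧ 6 * 4 ^ D * l ^ (2 * D) ≤ Real.exp (2 / 3 * l)) (by
    filter_upwards [eventually_ge_atTop 200, ev_exp (2 / 3) (6 * 4 ^ D) (2 * D) (by norm_num)] with l h1 h2
    exact ⟨h1, h2⟩)
  refine ⟨D, M₁ + M₂ + 3, fun M K N hM hKM hK hMN hN2 hKN => ?_⟩
  obtain ⟨g1, g2⟩ := h2 M (by omega)
  have hM0 : (0 : ℝ) < M := by exact_mod_cast (by omega : 0 < M)
  have hM1 : (1 : ℝ) ≤ M := by exact_mod_cast (by omega : 1 ≤ M)
  obtain ⟨L, hL⟩ : ∃ L : ℝ, L = Real.log M := ⟨_, rfl⟩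
  have hL' := hL
  rw [← hL] at g1 g2 hK hKN ⊢
  have hL0 : 0 < L := by linarith
  have hL1 : 1 ≤ L := by linarith
  have hMNr : (M : ℝ) ≤ N := by exact_mod_cast hMN
  have hN0 : (0 : ℝ) < N := by linarith
  have hK0 : (0 : ℝ) < K := lt_of_lt_of_le (by positivity) hK
  have hKMr : (K : ℝ) ≤ M := by exact_mod_cast hKM
  have hexp : Real.exp (2 / 3 * L) = (M : ℝ) ^ (2 / 3 : ℝ) := by
    rw [hL, Real.rpow_def_of_pos hM0, mul_comm]
  rw [hexp] at g2
  have g2' : 6 * ((2 * L) ^ D * (2 * L) ^ D) ≤ (M : ℝ) ^ (2 / 3 : ℝ) := by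
    refine le_trans (le_of_eq ?_) g2
    have e : (2 * L) ^ D * (2 * L) ^ D = 4 ^ D * L ^ (2 * D) := by
      rw [← mul_pow, pow_mul L, ← mul_pow]
      congr 1
      ring
    rw [e]
    ring
  have hM23 : (M : ℝ) ^ (2 / 3 : ℝ) ≤ M := by
    calc (M : ℝ) ^ (2 / 3 : ℝ) ≤ (M : ℝ) ^ (1 : ℝ) := Real.rpow_le_rpow_of_exponent_le hM1 (by norm_num)
      _ = M := Real.rpow_one _
  have hN23 : (M : ℝ) ^ (2 / 3 : ℝ) ≤ (N : ℝ) ^ (2 / 3 : ℝ) := Real.rpow_le_rpow hM0.le hMNr (by norm_num)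
  obtain ⟨P, hP⟩ : ∃ P : ℝ, P = (2 * L) ^ D := ⟨_, rfl⟩
  rw [← hP] at g2'
  have hP1 : 1 ≤ P := by rw [hP]; exact one_le_pow₀ (by linarith)
  have hP0 : 0 < P := by linarith
  have hLP : L ^ D ≤ P := by rw [hP]; exact pow_le_pow_left₀ hL0.le (by linarith) _
  rcases lt_or_ge (N : ℝ) (1200 * L * M) with hN | hN
  · -- the trivial range
    calc ∑ m ∈ Ioc M (M + K), (((lateS N m).card : ℕ) : ℝ) ≤ ∑ _m ∈ Ioc M (M + K), (2 * M : ℝ) := by
          apply Finset.sum_le_sum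
          intro m hm
          rw [mem_Ioc] at hm
          have h3 : (m : ℝ) ≤ M + K := by exact_mod_cast hm.2
          linarith [card_lateS N m]
      _ = 2 * (K * M) := by
          rw [Finset.sum_const, nsmul_eq_mul, Nat.card_Ioc, Nat.add_sub_cancel_left]
          ring
      _ ≤ 500000000 * (K * (M : ℝ) ^ 2 * L / N) := by
          have h3 : K * (M : ℝ) ^ 2 * L / (1200 * L * M) ≤ K * (M : ℝ) ^ 2 * L / N :=
            div_le_div_of_nonneg_left (by positivity) hN0 hN.le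
          have h4 : K * (M : ℝ) ^ 2 * L / (1200 * L * M) = 1 / 1200 * (K * M) := by
            field_simp
          rw [h4] at h3
          have h5 : 0 ≤ (K : ℝ) * M := by positivity
          linarith
      _ ≤ _ := by
          have : 0 ≤ (K : ℝ) * M / L ^ A := by positivity
          linarith
  have hKA : K * (M : ℝ) / L ^ (A + 1) * 200 ≤ K * M / L ^ A := by
    rw [pow_succ L A]
    have e6 : K * M / L ^ A = (K * M / (L ^ A * L)) * L := by
      field_simp
    rw [e6]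
    apply mul_le_mul_of_nonneg_left g1
    positivity
  obtain ⟨K₁, hK₁⟩ : ∃ K₁ : ℕ, K₁ = ⌊(M : ℝ) / P⌋₊ := ⟨_, rfl⟩
  have hK1a : (K₁ : ℝ) ≤ M / P := by rw [hK₁]; exact Nat.floor_le (by positivity)
  have hK1b : (M : ℝ) / P < K₁ + 1 := by rw [hK₁]; exact Nat.lt_floor_add_one _
  rcases lt_or_ge K K₁ with hKK | hKK
  · -- one block
    have h3 := h1 M K N (by omega) (by rw [← hL]; exact hK) (by
      rw [← hL]
      have h4 : (K : ℝ) ≤ K₁ := by exact_mod_cast hKK.le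
      calc K * L ^ D ≤ (M / P) * P := by
            apply mul_le_mul (h4.trans hK1a) hLP (by positivity) (by positivity)
        _ = M := by field_simp) (by
      rw [← hL]
      refine le_trans ?_ hN
      apply mul_le_mul_of_nonneg_right _ hM0.le
      linarith) hN2 (by rw [← hL]; exact hKN)
    rw [← hL] at h3
    have h4 : 0 ≤ K * (M : ℝ) ^ 2 * L / N := by positivity
    have h5 : 0 ≤ K * (M : ℝ) / L ^ (A + 1) := by positivity
    linarith
  -- many blocks
  have hMP : 6 * P ≤ M / P := by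
    rw [le_div_iff₀ hP0]
    calc 6 * P * P = 6 * (P * P) := by ring
      _ ≤ _ := g2'.trans hM23
  have hK1c : M / P / 2 ≤ K₁ := by linarith
  have hK1d : P ≤ K₁ := by linarith
  have hK1p : 0 < K₁ := by
    have : (0 : ℝ) < K₁ := by linarith
    exact_mod_cast this
  obtain ⟨n, hn⟩ : ∃ n : ℕ, n = K / K₁ + 1 := ⟨_, rfl⟩
  have hn1 : K ≤ n * K₁ := by
    rw [hn]
    have := Nat.lt_mul_div_succ K hK1p
    calc K ≤ K₁ * (K / K₁ + 1) := this.le
      _ = _ := by ring
  have hn2 : n * K₁ ≤ 2 * K := by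
    rw [hn, Nat.add_mul, one_mul]
    have := Nat.div_mul_le_self K K₁
    omega
  have hblock : ∀ i < n, ∑ m ∈ Ioc (M + i * K₁) (M + i * K₁ + K₁), (((lateS N m).card : ℕ) : ℝ) ≤
      12000000 * (K₁ * (3 * M : ℝ) ^ 2 * (2 * L) / N) + K₁ * (3 * M) / L ^ (A + 1) := by
    intro i hi
    obtain ⟨M', hM'⟩ : ∃ M' : ℕ, M' = M + i * K₁ := ⟨_, rfl⟩
    rw [← hM']
    have h3 : i * K₁ ≤ 2 * M := by
      have : i * K₁ ≤ n * K₁ := Nat.mul_le_mul_right _ hi.le
      omega
    have h4 : M' ≤ 3 * M := by omega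
    have h5 : M ≤ M' := by omega
    have h4r : (M' : ℝ) ≤ 3 * M := by exact_mod_cast h4
    have h5r : (M : ℝ) ≤ M' := by exact_mod_cast h5
    have hM'0 : (0 : ℝ) < M' := by linarith
    obtain ⟨L', hL''⟩ : ∃ L' : ℝ, L' = Real.log M' := ⟨_, rfl⟩
    have h6 : L ≤ L' := by rw [hL, hL'']; exact Real.log_le_log hM0 h5r
    have h7 : L' ≤ 2 * L := by
      have e : (2 : ℝ) * Real.log M = Real.log ((M : ℝ) ^ 2) := by
        rw [Real.log_pow]
        norm_num
      rw [hL, hL'', e]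
      apply Real.log_le_log hM'0
      calc (M' : ℝ) ≤ 3 * M := h4r
        _ ≤ M * M := by
            apply mul_le_mul_of_nonneg_right _ hM0.le
            exact_mod_cast (by omega : 3 ≤ M)
        _ = _ := by ring
    have hL'0 : 0 < L' := by linarith
    have hLD : L' ^ D ≤ P := by rw [hP]; exact pow_le_pow_left₀ hL'0.le h7 _
    have h8 := h1 M' K₁ N (by omega) (by rw [← hL'']; exact hLD.trans hK1d) (by
      rw [← hL'']
      calc K₁ * L' ^ D ≤ (M / P) * P := mul_le_mul hK1a hLD (by positivity) (by positivity)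
        _ = M := by field_simp
        _ ≤ M' := h5r) (by
      rw [← hL'']
      refine le_trans ?_ hN
      calc 200 * L' * M' ≤ 200 * (2 * L) * (3 * M) := by gcongr
        _ = 1200 * L * M := by ring) (hN2.trans (Nat.pow_le_pow_left h5 2)) (by
      rw [← hL'']
      calc (M' : ℝ) * L' ^ D ≤ 3 * M * P := mul_le_mul h4r hLD (by positivity) (by positivity)
        _ = M / P / 2 * (6 * (P * P)) := by
            field_simp
            norm_num
        _ ≤ K₁ * (N : ℝ) ^ (2 / 3 : ℝ) := mul_le_mul hK1c (g2'.trans hN23) (by positivity) (by positivity))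
    rw [← hL''] at h8
    refine h8.trans ?_
    apply add_le_add
    · apply mul_le_mul_of_nonneg_left _ (by norm_num)
      gcongr
    · gcongr
  have hsum := blocks_le (fun m => (((lateS N m).card : ℕ) : ℝ)) M K₁ _ n hblock
  have hle : ∑ m ∈ Ioc M (M + K), (((lateS N m).card : ℕ) : ℝ) ≤ ∑ m ∈ Ioc M (M + n * K₁), (((lateS N m).card : ℕ) : ℝ) := by
    apply Finset.sum_le_sum_of_subset_of_nonneg
    · apply Ioc_subset_Ioc_right
      omega
    · intro _ _ _
      positivity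
  refine hle.trans (hsum.trans ?_)
  have hn2r : (n : ℝ) * K₁ ≤ 2 * K := by exact_mod_cast hn2
  have e1 : (n : ℝ) * (12000000 * (K₁ * (3 * M : ℝ) ^ 2 * (2 * L) / N) + K₁ * (3 * M) / L ^ (A + 1)) =
      (n * K₁) * (216000000 * ((M : ℝ) ^ 2 * L / N) + 3 * (M / L ^ (A + 1))) := by
    ring
  rw [e1]
  have e2 : 0 ≤ 216000000 * ((M : ℝ) ^ 2 * L / N) + 3 * (M / L ^ (A + 1)) := by positivity
  have e3 : (n * K₁) * (216000000 * ((M : ℝ) ^ 2 * L / N) + 3 * (M / L ^ (A + 1))) ≤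
      2 * K * (216000000 * ((M : ℝ) ^ 2 * L / N) + 3 * (M / L ^ (A + 1))) := mul_le_mul_of_nonneg_right hn2r e2
  have e4 : 2 * K * (216000000 * ((M : ℝ) ^ 2 * L / N) + 3 * (M / L ^ (A + 1))) =
      432000000 * (K * (M : ℝ) ^ 2 * L / N) + 6 * (K * (M : ℝ) / L ^ (A + 1)) := by ring
  have h4 : 0 ≤ K * (M : ℝ) ^ 2 * L / N := by positivity
  have h5 : 0 ≤ K * (M : ℝ) / L ^ (A + 1) := by positivity
  linarith

end Pool.Agent.K9h19.CR
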