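import Pool.Agent.K9h19.CR.SIC
import Pool.Agent.H373R2.T7.LamZ

/-!
# Project CR: residue classes in almost all short intervals, the primes and the sieve model
-/

set_option autoImplicit false

namespace Pool.Agent.K9h19.CR

open Finset Filter Topology
open Pool.Agent.Q236.CR
open Pool.Agent.H373R2.T7 (lamz Vz pz Vz_pos Vz_inv_le mem_pz count_sys sieve_gen' card_small card_pz_le es es_le
  es_nonneg sum_pz_le choice)

/-- the numbers free of small primes in a progression in a short interval -/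
theorem rough_win (z q c m Y r : ℕ) (hq : 1 ≤ q) (hc : c.Coprime q)
    (hqz : ∀ p, p.Prime → p ∣ q → p ≤ z) :
    |(((Ioc m (m + Y)).filter (fun n => n ≡ c [MOD q])).filter (fun n => ∀ p ∈ pz z, ¬ p ∣ n)).card -
      (Y : ℝ) / (Nat.totient q : ℝ) * Vz z| ≤
      2 * ((z : ℝ) + 1) ^ r + 2 * Y * Real.exp (3 * (1 + Real.log z) - r) := by
  obtain ⟨T, hT⟩ : ∃ T, T = (pz z).filter (fun p => ¬ p ∣ q) := ⟨_, rfl⟩
  have hq0 : (0 : ℝ) < q := by exact_mod_cast hq
  have hTz : T ⊆ pz z := by rw [hT]; exact filter_subset _ _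
  have hTq : ∀ p ∈ T, ¬ p ∣ q := by
    intro p hp
    rw [hT, mem_filter] at hp
    exact hp.2
  -- only primes not dividing `q` matter
  have e1 : ((Ioc m (m + Y)).filter (fun n => n ≡ c [MOD q])).filter (fun n => ∀ p ∈ pz z, ¬ p ∣ n) =
      ((Ioc m (m + Y)).filter (fun n => n ≡ c [MOD q])).filter (fun n => ∀ p ∈ T, ¬ p ∣ n) := by
    apply filter_congr
    intro n hn
    rw [mem_filter] at hn
    constructor
    · intro h p hp
      exact h p (hTz hp)
    · intro h p hp hpn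
      by_cases hpq : p ∣ q
      · have h1 : p ∣ c := (hn.2.dvd_iff hpq).1 hpn
        have h2 := Nat.dvd_gcd h1 hpq
        rw [hc] at h2
        exact (mem_pz.1 hp).2.one_lt.ne' (Nat.dvd_one.1 h2)
      · exact h p (by rw [hT]; exact mem_filter.2 ⟨hp, hpq⟩) hpn
  rw [e1]
  have key := sieve_gen' ((Ioc m (m + Y)).filter (fun n => n ≡ c [MOD q])) (fun _ => (1 : ℝ))
    (fun _ _ => zero_le_one)
    (fun p n => p ∣ n) T (fun p => 1 / (p : ℝ)) (fun p hp => by
      have hp2 : (2 : ℝ) ≤ p := by exact_mod_cast (mem_pz.1 (hTz hp)).2.two_le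
      constructor
      · positivity
      · rw [div_le_one (by linarith)]; linarith) ((Y : ℝ) / q) (by positivity) (fun _ => 2) r (by
      intro S hS _
      have hSp : ∀ p ∈ S, p.Prime := fun p hp => (mem_pz.1 (hTz (hS hp))).2
      have h := fun y => count_sys (fun _ a => a = 0) y S hSp q hq (fun p hp => hTq p (hS hp)) c
      have h1 : ∀ p ∈ S, (((range p).filter (fun a => a = 0)).card : ℝ) = 1 := by
        intro p hp
        have : (range p).filter (fun a => a = 0) = {0} := by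
          ext a
          rw [mem_filter, mem_range, mem_singleton]
          constructor
          · rintro ⟨_, h⟩; exact h
          · rintro rfl; exact ⟨(hSp p hp).pos, rfl⟩
        rw [this]; simp
      have h2 : ∏ p ∈ S, ((((range p).filter (fun a => a = 0)).card : ℝ) / p) = ∏ p ∈ S, (1 / (p : ℝ)) :=
        prod_congr rfl fun p hp => by rw [h1 p hp]
      simp only [h2, prod_congr rfl h1, prod_const_one] at h
      have ha := h (m + Y)
      have hb := h m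
      have h3 : ∑ i ∈ ((Ioc m (m + Y)).filter (fun n => n ≡ c [MOD q])) with ∀ p ∈ S, p ∣ i, (1 : ℝ) =
          (((Icc 1 (m + Y)).filter (fun n => n ≡ c [MOD q] ∧ ∀ p ∈ S, n % p = 0)).card : ℝ) -
          (((Icc 1 m).filter (fun n => n ≡ c [MOD q] ∧ ∀ p ∈ S, n % p = 0)).card : ℝ) := by
        have e4 : (Icc 1 (m + Y)).filter (fun n => n ≡ c [MOD q] ∧ ∀ p ∈ S, n % p = 0) =
            ((Icc 1 m).filter (fun n => n ≡ c [MOD q] ∧ ∀ p ∈ S, n % p = 0)) ∪
            ((Ioc m (m + Y)).filter (fun n => n ≡ c [MOD q] ∧ ∀ p ∈ S, n % p = 0)) := by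
          rw [← filter_union]
          congr 1
          ext n
          rw [mem_union, mem_Icc, mem_Icc, mem_Ioc]
          omega
        have e5 : Disjoint ((Icc 1 m).filter (fun n => n ≡ c [MOD q] ∧ ∀ p ∈ S, n % p = 0))
            ((Ioc m (m + Y)).filter (fun n => n ≡ c [MOD q] ∧ ∀ p ∈ S, n % p = 0)) := by
          apply disjoint_filter_filter
          rw [Finset.disjoint_left]
          intro n h4 h5
          rw [mem_Icc] at h4
          rw [mem_Ioc] at h5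
          omega
        rw [e4, card_union_of_disjoint e5, sum_const, nsmul_eq_mul, mul_one, filter_filter]
        push_cast
        rw [add_sub_cancel_left]
        congr 2
        apply filter_congr
        intro n _
        simp only [Nat.dvd_iff_mod_eq_zero]
      rw [h3]
      push_cast at ha
      rw [abs_le] at ha hb ⊢
      have e6 : ((m : ℝ) + Y) / q * ∏ p ∈ S, (1 / (p : ℝ)) =
          (m : ℝ) / q * ∏ p ∈ S, (1 / (p : ℝ)) + (Y : ℝ) / q * ∏ p ∈ S, (1 / (p : ℝ)) := by ring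
      rw [e6] at ha
      constructor <;> linarith [ha.1, ha.2, hb.1, hb.2])
  have e2 : ∑ i ∈ ((Ioc m (m + Y)).filter (fun n => n ≡ c [MOD q])) with ∀ p ∈ T, ¬ p ∣ i, (1 : ℝ) =
      ((((Ioc m (m + Y)).filter (fun n => n ≡ c [MOD q])).filter (fun n => ∀ p ∈ T, ¬ p ∣ n)).card : ℝ) := by
    rw [sum_const, nsmul_eq_mul, mul_one]
  rw [e2] at key
  have e3 : (Y : ℝ) / q * ∏ p ∈ T, (1 - 1 / (p : ℝ)) = (Y : ℝ) / (Nat.totient q : ℝ) * Vz z := by
    have h1 : ((Nat.totient q : ℕ) : ℝ) = q * ∏ p ∈ q.primeFactors, (1 - 1 / (p : ℝ)) := by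
      have := Nat.totient_eq_mul_prod_factors q
      have h2 : (((Nat.totient q : ℕ) : ℚ) : ℝ) = ((q * ∏ p ∈ q.primeFactors, (1 - (p : ℚ)⁻¹) : ℚ) : ℝ) := by
        rw [this]
      push_cast at h2
      simp only [one_div]
      exact h2
    have h2 : Vz z = (∏ p ∈ q.primeFactors, (1 - 1 / (p : ℝ))) * ∏ p ∈ T, (1 - 1 / (p : ℝ)) := by
      unfold Vz
      have h3 : q.primeFactors = (pz z).filter (fun p => p ∣ q) := by
        ext p
        rw [Nat.mem_primeFactors, mem_filter, mem_pz]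
        constructor
        · rintro ⟨h1, h2, h3⟩
          exact ⟨⟨hqz p h1 h2, h1⟩, h2⟩
        · rintro ⟨⟨h1, h2⟩, h3⟩
          exact ⟨h2, h3, by omega⟩
      rw [h3, hT, prod_filter_mul_prod_filter_not]
    have h3 : (0 : ℝ) < ∏ p ∈ q.primeFactors, (1 - 1 / (p : ℝ)) := by
      apply prod_pos
      intro p hp
      have : (2 : ℝ) ≤ p := by exact_mod_cast (Nat.prime_of_mem_primeFactors hp).two_le
      rw [sub_pos, div_lt_one (by linarith)]
      linarith
    rw [h1, h2]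
    field_simp
  rw [e3] at key
  refine key.trans ?_
  have h4 : ∑ j ∈ range (r + 1), ∑ S ∈ T.powersetCard j, (2 : ℝ) ≤ 2 * ((z : ℝ) + 1) ^ r := by
    have h5 := card_small T r
    have h6 : ∑ j ∈ range (r + 1), ∑ S ∈ T.powersetCard j, (2 : ℝ) =
        2 * ((∑ j ∈ range (r + 1), (T.powersetCard j).card : ℕ) : ℝ) := by
      push_cast
      rw [Finset.mul_sum]
      apply sum_congr rfl
      intro j _
      rw [sum_const, nsmul_eq_mul, mul_comm]
    rw [h6]
    have h7 : (T.card : ℝ) ≤ z := by exact_mod_cast (card_le_card hTz).trans (card_pz_le z)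
    have h8 : ((T.card : ℝ) + 1) ^ r ≤ ((z : ℝ) + 1) ^ r := by gcongr
    linarith
  have h5 : es (fun p => 1 / (p : ℝ)) T r ≤ Real.exp (3 * (1 + Real.log z) - r) := by
    refine (es_le (fun p _ => by positivity) r).trans ?_
    apply Real.exp_le_exp.2
    have h6 : ∑ p ∈ T, 1 / (p : ℝ) ≤ ∑ p ∈ pz z, 1 / (p : ℝ) :=
      sum_le_sum_of_subset_of_nonneg hTz (fun _ _ _ => by positivity)
    have := sum_pz_le z
    linarith
  have h6 : (Y : ℝ) / q ≤ Y := div_le_self (Nat.cast_nonneg _) (by exact_mod_cast hq)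
  have h7 : 2 * ((Y : ℝ) / q) * es (fun p => 1 / (p : ℝ)) T r ≤
      2 * Y * Real.exp (3 * (1 + Real.log z) - r) := by
    have h8 : 0 ≤ es (fun p => 1 / (p : ℝ)) T r := es_nonneg (fun p _ => by positivity) r
    gcongr
  linarith

/-- the model in short intervals -/
theorem lamz_win (E U : ℕ) : ∃ X₀ : ℕ, ∀ x : ℕ, X₀ ≤ x → ∀ z : ℕ, 1 ≤ z → (z : ℝ) ≤ Real.log x ^ E →
    ∀ q : ℕ, 1 ≤ q → q ≤ z → ∀ c m Y : ℕ, (x : ℝ) ^ (1 / 8 : ℝ) ≤ Y →
    |∑ n ∈ (Ioc m (m + Y)).filter (fun n => n ≡ c [MOD q]), lamz z n -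
      (if c.Coprime q then (Y : ℝ) / (Nat.totient q : ℝ) else 0)| ≤ Y / Real.log x ^ U := by
  obtain ⟨N0, h0⟩ := choice 1 E (U + E + 1) 16
  obtain ⟨X₁, hX₁⟩ := ev_natlog (P := fun l => 4 ≤ l ∧ 1 * l ^ (U + E + 1) ≤ Real.exp (1 / 16 * l)) (by
    filter_upwards [eventually_ge_atTop 4, ev_exp (1 / 16) 1 (U + E + 1) (by norm_num)] with l h3 h4
    exact ⟨h3, h4⟩)
  refine ⟨max (max N0 X₁) 2, fun x hx z hz hzE q hq hqz c m Y hY => ?_⟩
  obtain ⟨g1, g2⟩ := hX₁ x ((le_max_right _ _).trans ((le_max_left _ _).trans hx))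
  have a0 := h0 x ((le_max_left _ _).trans ((le_max_left _ _).trans hx)) z hzE
  have hx2 : 2 ≤ x := (le_max_right _ _).trans hx
  have hx0 : (0 : ℝ) < x := by exact_mod_cast (by omega : 0 < x)
  obtain ⟨L, hLd⟩ : ∃ L : ℝ, L = Real.log x := ⟨_, rfl⟩
  rw [← hLd] at a0 g1 g2 hzE ⊢
  have hL0 : 0 < L := by linarith
  have hVinv := Vz_inv_le z hz
  have hV0 : 0 < (Vz z)⁻¹ := inv_pos.2 (Vz_pos z)
  have hY0 : (0 : ℝ) ≤ Y := Nat.cast_nonneg Y
  obtain ⟨r, hr1, hr2, _⟩ := a0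
  by_cases hc : c.Coprime q
  · rw [if_pos hc]
    have h3 := rough_win z q c m Y r hq hc (fun p hp hpq => (Nat.le_of_dvd (by omega) hpq).trans hqz)
    have h4 : ∑ n ∈ (Ioc m (m + Y)).filter (fun n => n ≡ c [MOD q]), lamz z n =
        (Vz z)⁻¹ * ((((Ioc m (m + Y)).filter (fun n => n ≡ c [MOD q])).filter
          (fun n => ∀ p ∈ pz z, ¬ p ∣ n)).card : ℝ) := by
      unfold lamz
      rw [← sum_filter, sum_const, nsmul_eq_mul, mul_comm]
    rw [h4]
    have h5 : (Vz z)⁻¹ * ((((Ioc m (m + Y)).filter (fun n => n ≡ c [MOD q])).filter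
        (fun n => ∀ p ∈ pz z, ¬ p ∣ n)).card : ℝ) - (Y : ℝ) / (Nat.totient q : ℝ) = (Vz z)⁻¹ *
        (((((Ioc m (m + Y)).filter (fun n => n ≡ c [MOD q])).filter
          (fun n => ∀ p ∈ pz z, ¬ p ∣ n)).card : ℝ) - (Y : ℝ) / (Nat.totient q : ℝ) * Vz z) := by
      have := (Vz_pos z).ne'
      field_simp
    rw [h5, abs_mul, abs_of_pos hV0]
    have h6 : ((z : ℝ) + 1) ^ r ≤ Real.exp (1 / 16 * L) := by
      have h7 : (((z : ℝ) + 1) ^ r) ^ 16 ≤ (Real.exp (1 / 16 * L)) ^ 16 := by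
        rw [← Real.exp_nat_mul]
        have e : ((16 : ℕ) : ℝ) * (1 / 16 * L) = L := by
          push_cast
          ring
        rw [e, hLd, Real.exp_log hx0]
        exact_mod_cast hr2
      exact (pow_le_pow_iff_left₀ (by positivity) (Real.exp_pos _).le (by norm_num)).1 h7
    have h6' : 2 * ((z : ℝ) + 1) ^ r ≤ 2 * (Y / L ^ (U + E + 1)) := by
      apply mul_le_mul_of_nonneg_left _ (by norm_num)
      refine h6.trans ?_
      rw [le_div_iff₀ (by positivity)]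
      rw [one_mul] at g2
      calc Real.exp (1 / 16 * L) * L ^ (U + E + 1) ≤ Real.exp (1 / 16 * L) * Real.exp (1 / 16 * L) := by
            gcongr
        _ = (x : ℝ) ^ (1 / 8 : ℝ) := by
            rw [← Real.exp_add, Real.rpow_def_of_pos hx0, ← hLd]
            congr 1
            ring
        _ ≤ Y := hY
    have h7 : Real.exp (3 * (1 + Real.log z) - r) ≤ 1 / L ^ (U + E + 1) := by
      refine le_trans (le_of_eq ?_) hr1
      push_cast
      ring_nf
    calc (Vz z)⁻¹ * |((((Ioc m (m + Y)).filter (fun n => n ≡ c [MOD q])).filter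
          (fun n => ∀ p ∈ pz z, ¬ p ∣ n)).card : ℝ) - (Y : ℝ) / (Nat.totient q : ℝ) * Vz z| ≤
          L ^ E * (2 * (Y / L ^ (U + E + 1)) + 2 * Y * (1 / L ^ (U + E + 1))) := by
          apply mul_le_mul (hVinv.trans hzE) _ (abs_nonneg _) (by positivity)
          refine h3.trans ?_
          apply add_le_add h6'
          gcongr
      _ = 4 / L * (Y / L ^ U) := by
          field_simp
          ring
      _ ≤ 1 * (Y / L ^ U) := by
          apply mul_le_mul_of_nonneg_right _ (by positivity)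
          rw [div_le_one hL0]
          exact g1
      _ = Y / L ^ U := one_mul _
  · rw [if_neg hc, sub_zero]
    have h3 : ∑ n ∈ (Ioc m (m + Y)).filter (fun n => n ≡ c [MOD q]), lamz z n = 0 := by
      apply sum_eq_zero
      intro n hn
      rw [mem_filter] at hn
      unfold lamz
      rw [if_neg]
      intro h
      obtain ⟨p, hp, hpc, hpq⟩ := Nat.Prime.not_coprime_iff_dvd.1 hc
      exact h p (mem_pz.2 ⟨(Nat.le_of_dvd (by omega) hpq).trans hqz, hp⟩) ((hn.2.dvd_iff hpq).2 hpc)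
    rw [h3, abs_zero]
    positivity

/-- primes in a class from the characters -/
theorem cls_char {q : ℕ} [NeZero q] {c m Y : ℕ} (hc : c.Coprime q) :
    |∑ n ∈ (Ioc m (m + Y)).filter (fun n => n ≡ c [MOD q]), ArithmeticFunction.vonMangoldt n -
      (Y : ℝ) / (Nat.totient q : ℝ)| ^ 2 ≤
      1 / (Nat.totient q : ℝ) * ∑ χ : DirichletCharacter ℂ q, ‖∑ n ∈ Ioc m (m + Y), bb χ n‖ ^ 2 := by
  classical
  have hq0 : 0 < q := Nat.pos_of_ne_zero (NeZero.ne q)
  have hφ0 : (0 : ℝ) < (Nat.totient q : ℝ) := by exact_mod_cast Nat.totient_pos.2 hq0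
  have hφc : (Nat.totient q : ℂ) ≠ 0 := by exact_mod_cast hφ0.ne'
  have hu : IsUnit (c : ZMod q) := (ZMod.isUnit_iff_coprime c q).2 hc
  obtain ⟨S, hS⟩ : ∃ S : ℝ, S = ∑ n ∈ (Ioc m (m + Y)).filter (fun n => n ≡ c [MOD q]),
    ArithmeticFunction.vonMangoldt n := ⟨_, rfl⟩
  have hor : ∀ n : ℕ, ∑ χ : DirichletCharacter ℂ q, χ (c : ZMod q)⁻¹ * χ (n : ZMod q) =
      if n ≡ c [MOD q] then (Nat.totient q : ℂ) else 0 := by
    intro n
    rw [DirichletCharacter.sum_char_inv_mul_char_eq ℂ hu]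
    have h1 : (c : ZMod q) = (n : ZMod q) ↔ n ≡ c [MOD q] := by
      rw [ZMod.natCast_eq_natCast_iff]
      exact ⟨fun h => h.symm, fun h => h.symm⟩
    simp only [h1]
  have e1 : (Nat.totient q : ℂ) * S = ∑ χ : DirichletCharacter ℂ q, χ (c : ZMod q)⁻¹ *
      ∑ n ∈ Ioc m (m + Y), cL χ n := by
    rw [hS, Complex.ofReal_sum, Finset.sum_filter, Finset.mul_sum]
    simp_rw [Finset.mul_sum]
    rw [Finset.sum_comm]
    apply Finset.sum_congr rfl
    intro n _
    unfold cL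
    simp_rw [← mul_assoc]
    rw [← Finset.sum_mul, hor]
    split_ifs
    · rfl
    · simp
  have e2 : ∑ χ : DirichletCharacter ℂ q, χ (c : ZMod q)⁻¹ * ∑ n ∈ Ioc m (m + Y), cL χ n =
      ∑ χ : DirichletCharacter ℂ q, χ (c : ZMod q)⁻¹ * (∑ n ∈ Ioc m (m + Y), bb χ n) + Y := by
    have h1 : ∀ χ : DirichletCharacter ℂ q, ∑ n ∈ Ioc m (m + Y), cL χ n =
        ∑ n ∈ Ioc m (m + Y), bb χ n + (if χ = 1 then 1 else 0) * Y := by
      intro χ
      unfold bb
      rw [Finset.sum_sub_distrib, Finset.sum_const, Nat.card_Ioc, nsmul_eq_mul, add_tsub_cancel_left]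
      ring
    simp_rw [h1, mul_add]
    rw [Finset.sum_add_distrib]
    congr 1
    rw [Finset.sum_eq_single (1 : DirichletCharacter ℂ q)]
    · rw [if_pos rfl, one_mul]
      have h2 : (1 : DirichletCharacter ℂ q) (c : ZMod q)⁻¹ = 1 := by
        apply MulChar.one_apply
        rw [← hu.unit_spec, ZMod.inv_coe_unit]
        exact Units.isUnit _
      rw [h2, one_mul]
    · intro χ _ hχ
      rw [if_neg hχ, zero_mul, mul_zero]
    · intro h
      exact absurd (mem_univ _) h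
  have e3 : ((S - (Y : ℝ) / (Nat.totient q : ℝ) : ℝ) : ℂ) = 1 / (Nat.totient q : ℂ) *
      ∑ χ : DirichletCharacter ℂ q, χ (c : ZMod q)⁻¹ * (∑ n ∈ Ioc m (m + Y), bb χ n) := by
    have h1 : ∑ χ : DirichletCharacter ℂ q, χ (c : ZMod q)⁻¹ * (∑ n ∈ Ioc m (m + Y), bb χ n) =
        (Nat.totient q : ℂ) * S - Y := by
      rw [e1, e2]
      ring
    rw [h1]
    push_cast
    field_simp
  rw [← hS]
  have h1 : |S - (Y : ℝ) / (Nat.totient q : ℝ)| ≤ 1 / (Nat.totient q : ℝ) *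
      ∑ χ : DirichletCharacter ℂ q, ‖∑ n ∈ Ioc m (m + Y), bb χ n‖ := by
    rw [← Real.norm_eq_abs, ← Complex.norm_real, e3, norm_mul, norm_div, norm_one, Complex.norm_natCast]
    apply mul_le_mul_of_nonneg_left _ (by positivity)
    refine (norm_sum_le _ _).trans (Finset.sum_le_sum fun χ _ => ?_)
    rw [norm_mul]
    calc ‖χ (c : ZMod q)⁻¹‖ * ‖∑ n ∈ Ioc m (m + Y), bb χ n‖ ≤ 1 * ‖∑ n ∈ Ioc m (m + Y), bb χ n‖ :=
          mul_le_mul_of_nonneg_right (χ.norm_le_one _) (norm_nonneg _)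
      _ = _ := one_mul _
  have hcard : ((univ : Finset (DirichletCharacter ℂ q)).card : ℝ) = (Nat.totient q : ℝ) := by
    rw [Finset.card_univ, ← Nat.card_eq_fintype_card,
      DirichletCharacter.card_eq_totient_of_hasEnoughRootsOfUnity ℂ q]
  have h2 := sq_sum_le_card_mul_sum_sq (s := (univ : Finset (DirichletCharacter ℂ q)))
    (f := fun χ => ‖∑ n ∈ Ioc m (m + Y), bb χ n‖)
  rw [hcard] at h2
  calc |S - (Y : ℝ) / (Nat.totient q : ℝ)| ^ 2 ≤ (1 / (Nat.totient q : ℝ) *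
        ∑ χ : DirichletCharacter ℂ q, ‖∑ n ∈ Ioc m (m + Y), bb χ n‖) ^ 2 :=
        pow_le_pow_left₀ (abs_nonneg _) h1 2
    _ = (1 / (Nat.totient q : ℝ)) ^ 2 *
        (∑ χ : DirichletCharacter ℂ q, ‖∑ n ∈ Ioc m (m + Y), bb χ n‖) ^ 2 := by ring
    _ ≤ (1 / (Nat.totient q : ℝ)) ^ 2 * ((Nat.totient q : ℝ) *
        ∑ χ : DirichletCharacter ℂ q, ‖∑ n ∈ Ioc m (m + Y), bb χ n‖ ^ 2) := by gcongr
    _ = _ := by field_simp

/-- primes in residue classes in almost all short intervals -/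
theorem lam_cls (hc : S_CHR) (hm : S_MOC) : ∀ B U : ℕ, ∃ C X₀ : ℕ, ∀ x : ℕ, X₀ ≤ x → ∀ q : ℕ, 1 ≤ q →
    (q : ℝ) ≤ Real.log x ^ B → ∀ c Y : ℕ, (x : ℝ) ^ (1 / 3 : ℝ) * Real.log x ^ C ≤ Y → Y ≤ x →
    ∑ m ∈ Ioc x (2 * x), |∑ n ∈ (Ioc m (m + Y)).filter (fun n => n ≡ c [MOD q]),
      ArithmeticFunction.vonMangoldt n -
      (if c.Coprime q then (Y : ℝ) / (Nat.totient q : ℝ) else 0)| ^ 2 ≤
      x * (Y : ℝ) ^ 2 / Real.log x ^ U := by
  intro B U
  obtain ⟨C, X₁, hsic⟩ := sic hc hm B U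
  obtain ⟨X₂, hX₂⟩ := ev_natlog (P := fun l => 4 ≤ l ∧ 1 * l ^ (U + B + 2) ≤ Real.exp (1 / 3 * l)) (by
    filter_upwards [eventually_ge_atTop 4, ev_exp (1 / 3) 1 (U + B + 2) (by norm_num)] with l h3 h4
    exact ⟨h3, h4⟩)
  refine ⟨C, max (max X₁ X₂) 3, ?_⟩
  intro x hx q hq hqx c Y hY hYx
  obtain ⟨g1, g2⟩ := hX₂ x ((le_max_right _ _).trans ((le_max_left _ _).trans hx))
  have hx3 : 3 ≤ x := (le_max_right _ _).trans hx
  have hx0 : (0 : ℝ) < x := by exact_mod_cast (by omega : 0 < x)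
  haveI : NeZero q := ⟨by omega⟩
  have hsic' := hsic x ((le_max_left _ _).trans ((le_max_left _ _).trans hx)) q inferInstance hqx
  obtain ⟨l, hl⟩ : ∃ l : ℝ, l = Real.log x := ⟨_, rfl⟩
  rw [← hl] at g1 g2 hsic' hqx hY ⊢
  have hl0 : 0 < l := by linarith
  have hl1 : 1 ≤ l := by linarith
  have hφ0 : (0 : ℝ) < (Nat.totient q : ℝ) := by exact_mod_cast Nat.totient_pos.2 (by omega : 0 < q)
  by_cases hcq : c.Coprime q
  · simp only [if_pos hcq]
    refine (Finset.sum_le_sum fun m _ => cls_char hcq).trans ?_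
    rw [← Finset.mul_sum, Finset.sum_comm]
    have h1 : ∑ χ : DirichletCharacter ℂ q, ∑ m ∈ Ioc x (2 * x), ‖∑ n ∈ Ioc m (m + Y), bb χ n‖ ^ 2 ≤
        (Nat.totient q : ℝ) * (x * (Y : ℝ) ^ 2 / l ^ U) := by
      refine (Finset.sum_le_sum fun χ _ => hsic' χ Y hY hYx).trans (le_of_eq ?_)
      rw [Finset.sum_const, nsmul_eq_mul, Finset.card_univ, ← Nat.card_eq_fintype_card,
        DirichletCharacter.card_eq_totient_of_hasEnoughRootsOfUnity ℂ q]
    calc _ ≤ 1 / (Nat.totient q : ℝ) * ((Nat.totient q : ℝ) * (x * (Y : ℝ) ^ 2 / l ^ U)) :=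
          mul_le_mul_of_nonneg_left h1 (by positivity)
      _ = _ := by field_simp
  · simp only [if_neg hcq, sub_zero]
    have h1 : ∀ m ∈ Ioc x (2 * x), |∑ n ∈ (Ioc m (m + Y)).filter (fun n => n ≡ c [MOD q]),
        ArithmeticFunction.vonMangoldt n| ^ 2 ≤ (l ^ (B + 1) * 2) ^ 2 := by
      intro m hmx
      rw [mem_Ioc] at hmx
      apply pow_le_pow_left₀ (abs_nonneg _)
      rw [abs_of_nonneg (Finset.sum_nonneg fun _ _ => ArithmeticFunction.vonMangoldt_nonneg)]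
      have h2 := Pool.Agent.H398R2.BV.sum_not_coprime (3 * x) q hq
      have h3 : ∑ n ∈ (Ioc m (m + Y)).filter (fun n => n ≡ c [MOD q]),
          ArithmeticFunction.vonMangoldt n ≤
          ∑ n ∈ (Icc 1 (3 * x)).filter (fun n => ¬ n.Coprime q), ArithmeticFunction.vonMangoldt n := by
        apply Finset.sum_le_sum_of_subset_of_nonneg
        · intro n hn
          rw [mem_filter, mem_Ioc] at hn
          rw [mem_filter, mem_Icc]
          refine ⟨⟨by omega, by omega⟩, fun h => hcq ?_⟩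
          have h4 : Nat.gcd n q = Nat.gcd c q := hn.2.gcd_eq
          rw [Nat.Coprime, ← h4]
          exact h
        · intro n _ _
          exact ArithmeticFunction.vonMangoldt_nonneg
      refine h3.trans (h2.trans ?_)
      have h4 : (q.primeFactors.card : ℝ) ≤ l ^ B := by
        refine le_trans ?_ hqx
        have h5 : q.primeFactors.card ≤ q := by
          calc q.primeFactors.card ≤ (Icc 1 q).card := by
                apply card_le_card
                intro p hp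
                rw [mem_Icc]
                exact ⟨(Nat.prime_of_mem_primeFactors hp).one_le, Nat.le_of_mem_primeFactors hp⟩
            _ = q := by simp
        exact_mod_cast h5
      have h5 : Real.log ((3 * x : ℕ) : ℝ) ≤ l * 2 := by
        push_cast
        rw [Real.log_mul (by norm_num) hx0.ne', ← hl]
        have h6 : Real.log 3 ≤ 2 := by
          have := Real.log_le_sub_one_of_pos (show (0 : ℝ) < 3 by norm_num)
          linarith
        linarith
      calc (q.primeFactors.card : ℝ) * Real.log ((3 * x : ℕ) : ℝ) ≤ l ^ B * (l * 2) :=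
            mul_le_mul h4 h5 (Real.log_natCast_nonneg _) (by positivity)
        _ = l ^ (B + 1) * 2 := by ring
    refine (Finset.sum_le_sum h1).trans ?_
    rw [Finset.sum_const, Nat.card_Ioc, nsmul_eq_mul]
    have e : 2 * x - x = x := by omega
    rw [e, mul_div_assoc]
    apply mul_le_mul_of_nonneg_left _ hx0.le
    rw [le_div_iff₀ (by positivity)]
    have h2 : Real.exp (1 / 3 * l) ≤ Y := by
      refine le_trans ?_ hY
      have h3 : (x : ℝ) ^ (1 / 3 : ℝ) = Real.exp (1 / 3 * l) := by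
        rw [Real.rpow_def_of_pos hx0, ← hl, mul_comm]
      rw [h3]
      exact le_mul_of_one_le_right (Real.exp_pos _).le (one_le_pow₀ hl1)
    have h3 : l ^ (U + B + 2) ≤ Y := by
      rw [one_mul] at g2
      exact g2.trans h2
    have h4 : (l ^ (B + 1) * 2) ^ 2 * l ^ U ≤ (l ^ (U + B + 2)) ^ 2 := by
      calc (l ^ (B + 1) * 2) ^ 2 * l ^ U = 4 * (l ^ (2 * B + 2 + U)) := by ring
        _ ≤ l * l ^ (2 * B + 2 + U) := by gcongr
        _ = l ^ (2 * B + 3 + U) := by ring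
        _ ≤ l ^ ((U + B + 2) * 2) := pow_le_pow_right₀ hl1 (by omega)
        _ = _ := by rw [pow_mul]
    refine h4.trans ?_
    exact pow_le_pow_left₀ (by positivity) h3 2

/-- primes against the model in residue classes in almost all short intervals -/
theorem e_cls (hc : S_CHR) (hm : S_MOC) : ∀ B E U : ℕ, ∃ C X₀ : ℕ, ∀ x : ℕ, X₀ ≤ x → ∀ z q : ℕ, 1 ≤ q →
    (q : ℝ) ≤ Real.log x ^ B → q ≤ z → (z : ℝ) ≤ Real.log x ^ E →
    ∀ c Y : ℕ, (x : ℝ) ^ (1 / 3 : ℝ) * Real.log x ^ C ≤ Y → Y ≤ x →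
    ∑ m ∈ Ioc x (2 * x), |∑ n ∈ (Ioc m (m + Y)).filter (fun n => n ≡ c [MOD q]),
      (ArithmeticFunction.vonMangoldt n - lamz z n)| ^ 2 ≤ x * (Y : ℝ) ^ 2 / Real.log x ^ U := by
  intro B E U
  obtain ⟨C, X₁, hlam⟩ := lam_cls hc hm B (U + 1)
  obtain ⟨X₂, hmod⟩ := lamz_win E (U + 1)
  obtain ⟨X₃, hX₃⟩ := ev_natlog (P := fun l => 4 ≤ l) (eventually_ge_atTop 4)
  refine ⟨C, max (max X₁ X₂) (max X₃ 3), ?_⟩
  intro x hx z q hq hqx hqz hzx c Y hY hYx
  have hlam' := hlam x ((le_max_left _ _).trans ((le_max_left _ _).trans hx)) q hq hqx c Y hY hYx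
  have hmod' := hmod x ((le_max_right _ _).trans ((le_max_left _ _).trans hx)) z (hq.trans hqz) hzx q hq
    hqz c
  have g1 := hX₃ x ((le_max_left _ _).trans ((le_max_right _ _).trans hx))
  have hx3 : 3 ≤ x := (le_max_right _ _).trans ((le_max_right _ _).trans hx)
  have hx0 : (0 : ℝ) < x := by exact_mod_cast (by omega : 0 < x)
  have hx1 : (1 : ℝ) ≤ x := by exact_mod_cast (by omega : 1 ≤ x)
  obtain ⟨l, hl⟩ : ∃ l : ℝ, l = Real.log x := ⟨_, rfl⟩
  rw [← hl] at g1 hlam' hmod' hY ⊢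
  have hl0 : 0 < l := by linarith
  have hl1 : 1 ≤ l := by linarith
  have hY8 : (x : ℝ) ^ (1 / 8 : ℝ) ≤ Y := by
    refine le_trans ?_ hY
    calc (x : ℝ) ^ (1 / 8 : ℝ) ≤ (x : ℝ) ^ (1 / 3 : ℝ) :=
          Real.rpow_le_rpow_of_exponent_le hx1 (by norm_num)
      _ ≤ _ := le_mul_of_one_le_right (by positivity) (one_le_pow₀ hl1)
  obtain ⟨M, hM⟩ : ∃ M : ℝ, M = if c.Coprime q then (Y : ℝ) / (Nat.totient q : ℝ) else 0 := ⟨_, rfl⟩
  have hmod'' := fun m => hmod' m Y hY8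
  rw [← hM] at hlam' hmod''
  have h1 : ∀ m ∈ Ioc x (2 * x), |∑ n ∈ (Ioc m (m + Y)).filter (fun n => n ≡ c [MOD q]),
      (ArithmeticFunction.vonMangoldt n - lamz z n)| ^ 2 ≤
      2 * |∑ n ∈ (Ioc m (m + Y)).filter (fun n => n ≡ c [MOD q]),
        ArithmeticFunction.vonMangoldt n - M| ^ 2 + 2 * (Y / l ^ (U + 1)) ^ 2 := by
    intro m _
    have h2 := hmod'' m
    obtain ⟨P, hP⟩ : ∃ P : ℝ, P = ∑ n ∈ (Ioc m (m + Y)).filter (fun n => n ≡ c [MOD q]),
      ArithmeticFunction.vonMangoldt n := ⟨_, rfl⟩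
    obtain ⟨Q, hQ⟩ : ∃ Q : ℝ, Q = ∑ n ∈ (Ioc m (m + Y)).filter (fun n => n ≡ c [MOD q]), lamz z n :=
      ⟨_, rfl⟩
    rw [Finset.sum_sub_distrib, ← hP, ← hQ]
    rw [← hQ] at h2
    have h3 : |P - Q| ≤ |P - M| + Y / l ^ (U + 1) := by
      have e : P - Q = (P - M) - (Q - M) := by ring
      rw [e]
      exact (abs_sub _ _).trans (add_le_add_right h2 _)
    have h4 : |P - Q| ^ 2 ≤ (|P - M| + Y / l ^ (U + 1)) ^ 2 := pow_le_pow_left₀ (abs_nonneg _) h3 2
    nlinarith [sq_nonneg (|P - M| - Y / l ^ (U + 1))]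
  refine (Finset.sum_le_sum h1).trans ?_
  rw [Finset.sum_add_distrib, ← Finset.mul_sum, Finset.sum_const, Nat.card_Ioc, nsmul_eq_mul]
  have e : 2 * x - x = x := by omega
  rw [e]
  have h2 : (x : ℝ) * (2 * (Y / l ^ (U + 1)) ^ 2) ≤ 2 * (x * (Y : ℝ) ^ 2 / l ^ (U + 1)) := by
    have h3 : ((Y : ℝ) / l ^ (U + 1)) ^ 2 ≤ (Y : ℝ) ^ 2 / l ^ (U + 1) := by
      rw [div_pow]
      apply div_le_div_of_nonneg_left (by positivity) (by positivity)
      rw [sq]
      exact le_mul_of_one_le_right (by positivity) (one_le_pow₀ hl1)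
    calc (x : ℝ) * (2 * (Y / l ^ (U + 1)) ^ 2) ≤ x * (2 * ((Y : ℝ) ^ 2 / l ^ (U + 1))) := by gcongr
      _ = _ := by ring
  calc _ ≤ 2 * (x * (Y : ℝ) ^ 2 / l ^ (U + 1)) + 2 * (x * (Y : ℝ) ^ 2 / l ^ (U + 1)) :=
        add_le_add (mul_le_mul_of_nonneg_left hlam' (by norm_num)) h2
    _ = 4 * (x * (Y : ℝ) ^ 2 / l ^ (U + 1)) := by ring
    _ ≤ l * (x * (Y : ℝ) ^ 2 / l ^ (U + 1)) := mul_le_mul_of_nonneg_right g1 (by positivity)
    _ = _ := by
        rw [pow_succ l U]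
        field_simp

end Pool.Agent.K9h19.CR
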