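import Pool.Agent.K9h19.CR.FD
import Pool.Agent.Q257.KS.HB
import Pool.Agent.Q95.KS.TupA
import Pool.Agent.H398R2.BA1
import Pool.Agent.H370R2.MV

/-!
# Project CR, job DPL, first part: Heath-Brown's identity with three factors and dyadic pieces
-/

set_option autoImplicit false

namespace Pool.Agent.K9h19.CR

open Finset Filter Topology Pool.Agent.Q236.CR
open Pool.Agent.Q95.KS (Sup Sup_mul)
open Pool.Agent.Q240.KS (Mz)
open Pool.Agent.Q257.KS (evn mul_vanish pow_vanish eta_vanish)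
open Pool.Agent.Q53.CR (norm_nt)

/-- the Riemann zeta coefficient sequence -/
noncomputable def ze : ArithmeticFunction ℝ :=
  ((ArithmeticFunction.zeta : ArithmeticFunction ℕ) : ArithmeticFunction ℝ)

/-- the four kinds of factors -/
noncomputable def fac (z : ℕ) : Fin 4 → ArithmeticFunction ℝ := ![1, Mz z, ze, ArithmeticFunction.log]

/-- the kinds of the six factors of the three products -/
def ty : Fin 3 → Fin 6 → Fin 4 := ![![1, 0, 0, 0, 0, 3], ![1, 1, 0, 2, 0, 3], ![1, 1, 1, 2, 2, 3]]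

/-- the coefficients of the three products -/
def cj : Fin 3 → ℝ := ![3, -3, 1]

theorem hb3 {z n : ℕ} (hz : 1 ≤ z) (hn : 1 ≤ n) (hnz : n < (z + 1) ^ 3) :
    ArithmeticFunction.vonMangoldt n = ∑ j : Fin 3, cj j * (∏ i, fac z (ty j i)) n := by
  obtain ⟨M, hM⟩ : ∃ M, M = Mz z := ⟨_, rfl⟩
  have hE : ((ArithmeticFunction.vonMangoldt * (1 - ze * M) ^ 3 : ArithmeticFunction ℝ)) n = 0 := by
    have h5 := pow_vanish (eta_vanish z hz) 2
    rw [ArithmeticFunction.mul_apply]
    refine Finset.sum_eq_zero fun p hp => ?_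
    have hp' := Nat.mem_divisorsAntidiagonal.1 hp
    have hle : p.2 ≤ n := Nat.le_of_dvd (by omega) ⟨p.1, by rw [← hp'.1]; ring⟩
    have h6 := h5 p.2 (by simpa using lt_of_le_of_lt hle hnz)
    rw [hM]
    unfold ze
    rw [h6, mul_zero]
  have hLz : ArithmeticFunction.vonMangoldt * ze = ArithmeticFunction.log :=
    ArithmeticFunction.vonMangoldt_mul_zeta
  have hid : (ArithmeticFunction.vonMangoldt : ArithmeticFunction ℝ) =
      ArithmeticFunction.vonMangoldt * (1 - ze * M) ^ 3 +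
      ((3 : ℤ) • (M * ArithmeticFunction.log) + (-3 : ℤ) • (M * M * ze * ArithmeticFunction.log) +
       (1 : ℤ) • (M * M * M * ze * ze * ArithmeticFunction.log)) := by
    rw [← hLz]
    simp only [zsmul_eq_mul]
    push_cast
    ring
  have hev := congrArg (evn n) hid
  simp only [map_add, map_zsmul] at hev
  have e1 : evn n (ArithmeticFunction.vonMangoldt * (1 - ze * M) ^ 3) = 0 := hE
  rw [e1, zero_add] at hev
  have e2 : ∀ f : ArithmeticFunction ℝ, evn n f = f n := fun f => rfl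
  simp only [e2, zsmul_eq_mul] at hev
  rw [hev, Fin.sum_univ_three]
  have p0 : (∏ i, fac z (ty 0 i)) = M * ArithmeticFunction.log := by
    rw [Fin.prod_univ_six, hM]
    simp [fac, ty]
  have p1 : (∏ i, fac z (ty 1 i)) = M * M * ze * ArithmeticFunction.log := by
    rw [Fin.prod_univ_six, hM]
    simp [fac, ty]
  have p2 : (∏ i, fac z (ty 2 i)) = M * M * M * ze * ze * ArithmeticFunction.log := by
    rw [Fin.prod_univ_six, hM]
    simp [fac, ty]
  rw [p0, p1, p2]
  simp [cj]

/-! ### Dirichlet polynomials -/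

/-- the Dirichlet polynomial with a weight -/
noncomputable def Lg (g : ℕ → ℂ) (N : ℕ) (f : ArithmeticFunction ℝ) : ℂ :=
  ∑ n ∈ Icc 1 N, ((f n : ℝ) : ℂ) * g n

theorem Lg_mul {g : ℕ → ℂ} (hg : ∀ m n, g (m * n) = g m * g n) {f h : ArithmeticFunction ℝ} {N M : ℕ}
    (hf : Sup f N) (hh : Sup h M) : Lg g N f * Lg g M h = Lg g (N * M) (f * h) := by
  unfold Lg
  rw [sum_mul_sum, ← sum_product']
  have hmaps : ∀ p ∈ Icc 1 N ×ˢ Icc 1 M, p.1 * p.2 ∈ Icc 1 (N * M) := by
    rintro ⟨x, y⟩ hp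
    rw [mem_product, mem_Icc, mem_Icc] at hp
    rw [mem_Icc]
    exact ⟨Nat.mul_pos hp.1.1 hp.2.1, Nat.mul_le_mul hp.1.2 hp.2.2⟩
  rw [← sum_fiberwise_of_maps_to hmaps]
  apply sum_congr rfl
  intro n hn
  rw [mem_Icc] at hn
  rw [ArithmeticFunction.mul_apply]
  push_cast
  rw [sum_mul]
  have hsub : (Icc 1 N ×ˢ Icc 1 M).filter (fun p => p.1 * p.2 = n) ⊆ n.divisorsAntidiagonal := by
    rintro ⟨x, y⟩ hp
    rw [mem_filter] at hp
    rw [Nat.mem_divisorsAntidiagonal]
    exact ⟨hp.2, by omega⟩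
  rw [← sum_subset hsub]
  · apply sum_congr rfl
    rintro ⟨x, y⟩ hp
    rw [mem_filter, mem_product, mem_Icc, mem_Icc] at hp
    obtain ⟨⟨hx, hy⟩, hxy⟩ := hp
    simp only at hx hy hxy ⊢
    rw [← hxy, hg]
    ring
  · rintro ⟨x, y⟩ hp hnp
    rw [Nat.mem_divisorsAntidiagonal] at hp
    rw [mem_filter, mem_product, mem_Icc, mem_Icc] at hnp
    obtain ⟨h1, h2⟩ := hp
    simp only at h1 hnp ⊢
    have hx1 : 1 ≤ x := by
      rcases Nat.eq_zero_or_pos x with h | h
      · rw [h, zero_mul] at h1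
        omega
      · exact h
    have hy1 : 1 ≤ y := by
      rcases Nat.eq_zero_or_pos y with h | h
      · rw [h, mul_zero] at h1
        omega
      · exact h
    by_cases hx : N < x
    · rw [hf x hx]
      simp
    · by_cases hy : M < y
      · rw [hh y hy]
        simp
      · exfalso
        exact hnp ⟨⟨⟨hx1, not_lt.mp hx⟩, ⟨hy1, not_lt.mp hy⟩⟩, h1⟩

theorem Lg_prod {ι : Type} [DecidableEq ι] {g : ℕ → ℂ} (hg : ∀ m n, g (m * n) = g m * g n) (hg1 : g 1 = 1)
    (s : Finset ι) (N : ι → ℕ) (f : ι → ArithmeticFunction ℝ) (hf : ∀ i, Sup (f i) (N i)) :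
    Sup (∏ i ∈ s, f i) (∏ i ∈ s, N i) ∧
      ∏ i ∈ s, Lg g (N i) (f i) = Lg g (∏ i ∈ s, N i) (∏ i ∈ s, f i) := by
  induction s using Finset.induction_on with
  | empty =>
    constructor
    · intro n hn
      rw [prod_empty] at hn ⊢
      exact ArithmeticFunction.one_apply_ne (by omega)
    · simp [Lg, hg1]
  | insert a s ha ih =>
    rw [prod_insert ha, prod_insert ha, prod_insert ha, ih.2]
    exact ⟨Sup_mul (hf a) ih.1, Lg_mul hg (hf a) ih.1⟩

/-- products of functions which agree at small arguments -/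
theorem prod_congr_lt {ι : Type} [DecidableEq ι] {a : ℕ} (s : Finset ι)
    (f g : ι → ArithmeticFunction ℝ) (h : ∀ i, ∀ m, m < a → f i m = g i m) :
    ∀ m, m < a → (∏ i ∈ s, f i) m = (∏ i ∈ s, g i) m := by
  induction s using Finset.induction_on with
  | empty => intro m _; rfl
  | insert i s hi ih =>
    intro m hm
    rw [prod_insert hi, prod_insert hi, ArithmeticFunction.mul_apply, ArithmeticFunction.mul_apply]
    apply sum_congr rfl
    rintro ⟨x, y⟩ hxy
    rw [Nat.mem_divisorsAntidiagonal] at hxy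
    have hx : x ≤ m := Nat.le_of_dvd (by omega) (Dvd.intro y hxy.1)
    have hy : y ≤ m := Nat.le_of_dvd (by omega) (Dvd.intro_left x hxy.1)
    simp only
    rw [h i x (by omega), ih y (by omega)]

/-- products vanish at small arguments -/
theorem prod_low {ι : Type} [DecidableEq ι] (s : Finset ι) (f : ι → ArithmeticFunction ℝ) (a : ι → ℕ)
    (h : ∀ i, ∀ m, m < a i → f i m = 0) : ∀ m, m < ∏ i ∈ s, a i → (∏ i ∈ s, f i) m = 0 := by
  induction s using Finset.induction_on with
  | empty =>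
    intro m hm
    rw [prod_empty] at hm
    have : m = 0 := by omega
    rw [this]
    simp
  | insert i s hi ih =>
    intro m hm
    rw [prod_insert hi] at hm ⊢
    exact mul_vanish (h i) ih m hm

/-- products are bounded by powers of the divisor function -/
theorem prod_bd {ι : Type} [DecidableEq ι] (s : Finset ι) (f : ι → ArithmeticFunction ℝ) {W : ℝ}
    (hW : 0 ≤ W) (h : ∀ i m, |f i m| ≤ W) :
    ∀ m, |(∏ i ∈ s, f i) m| ≤ (W * (m.divisors.card : ℝ)) ^ s.card := by
  induction s using Finset.induction_on with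
  | empty =>
    intro m
    simp only [prod_empty, card_empty, pow_zero]
    by_cases h1 : m = 1
    · rw [h1]; simp
    · rw [ArithmeticFunction.one_apply_ne h1]
      simp
  | insert a s ha ih =>
    intro m
    rcases Nat.eq_zero_or_pos m with rfl | hm
    · simp only [ArithmeticFunction.map_zero, abs_zero]
      positivity
    rw [prod_insert ha, ArithmeticFunction.mul_apply, card_insert_of_notMem ha]
    calc |∑ x ∈ m.divisorsAntidiagonal, f a x.1 * (∏ i ∈ s, f i) x.2|
        ≤ ∑ x ∈ m.divisorsAntidiagonal, |f a x.1 * (∏ i ∈ s, f i) x.2| := abs_sum_le_sum_abs _ _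
      _ ≤ ∑ x ∈ m.divisorsAntidiagonal, (W * (W * (m.divisors.card : ℝ)) ^ s.card) := by
          apply sum_le_sum
          rintro ⟨x, y⟩ hxy
          rw [Nat.mem_divisorsAntidiagonal] at hxy
          have hy : y ∣ m := Dvd.intro_left x hxy.1
          simp only
          rw [abs_mul]
          apply mul_le_mul (h a x) _ (abs_nonneg _) hW
          refine (ih y).trans ?_
          apply pow_le_pow_left₀ (by positivity)
          apply mul_le_mul_of_nonneg_left _ hW
          exact_mod_cast card_le_card (Nat.divisors_subset_of_dvd (by omega) hy)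
      _ = (m.divisors.card : ℝ) * (W * (W * (m.divisors.card : ℝ)) ^ s.card) := by
          rw [Nat.sum_divisorsAntidiagonal (fun _ _ => (W * (W * (m.divisors.card : ℝ)) ^ s.card)),
            sum_const, nsmul_eq_mul]
      _ = _ := by rw [pow_succ]; ring

/-! ### dyadic pieces -/

/-- the piece of `f` in `[2^d, 2^(d+1))` -/
noncomputable def pc (f : ArithmeticFunction ℝ) (d : ℕ) : ArithmeticFunction ℝ :=
  ⟨fun n => if 2 ^ d ≤ n ∧ n < 2 ^ (d + 1) then f n else 0, by simp⟩

theorem pc_apply (f : ArithmeticFunction ℝ) (d n : ℕ) :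
    pc f d n = if 2 ^ d ≤ n ∧ n < 2 ^ (d + 1) then f n else 0 := rfl

theorem pc_sup (f : ArithmeticFunction ℝ) (d : ℕ) : Sup (pc f d) (2 ^ (d + 1)) := by
  intro n hn
  rw [pc_apply, if_neg]
  omega

theorem pc_low (f : ArithmeticFunction ℝ) (d n : ℕ) (hn : n < 2 ^ d) : pc f d n = 0 := by
  rw [pc_apply, if_neg]
  omega

theorem pc_sum (f : ArithmeticFunction ℝ) {D n : ℕ} (hn : n < 2 ^ D) :
    (∑ d ∈ range D, pc f d) n = f n := by
  have e : (∑ d ∈ range D, pc f d) n = ∑ d ∈ range D, pc f d n := by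
    have := map_sum (evn n) (fun d => pc f d) (range D)
    exact this
  rw [e]
  rcases Nat.eq_zero_or_pos n with rfl | hn0
  · simp
  have h1 : Nat.log 2 n ∈ range D := by
    rw [mem_range]
    exact Nat.log_lt_of_lt_pow (by omega) hn
  rw [Finset.sum_eq_single_of_mem _ h1]
  · rw [pc_apply, if_pos]
    exact ⟨Nat.pow_log_le_self 2 (by omega), Nat.lt_pow_succ_log_self (by norm_num) n⟩
  · intro d _ hd
    rw [pc_apply, if_neg]
    rintro ⟨h2, h3⟩
    exact hd (Nat.log_eq_of_pow_le_of_lt_pow h2 h3).symm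

/-- the exponents of the relevant pieces -/
def PP (D x : ℕ) : Finset (Fin 6 → ℕ) :=
  (Fintype.piFinset fun _ : Fin 6 => range D).filter
    (fun p => 2 ^ (∑ i, p i) ≤ 4 * x ∧ x < 2 ^ (∑ i, p i + 6))

theorem card_PP (D x : ℕ) : (PP D x).card ≤ D ^ 6 := by
  refine (card_filter_le _ _).trans ?_
  rw [Fintype.card_piFinset]
  simp

/-- the product of six pieces -/
noncomputable def tp (z : ℕ) (j : Fin 3) (p : Fin 6 → ℕ) : ArithmeticFunction ℝ :=
  ∏ i, pc (fac z (ty j i)) (p i)

theorem tp_sup (z : ℕ) (j : Fin 3) (p : Fin 6 → ℕ) : Sup (tp z j p) (2 ^ (∑ i, p i + 6)) := by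
  have h := (Lg_prod (g := fun _ => 1) (by simp) rfl univ (fun i : Fin 6 => 2 ^ (p i + 1))
    (fun i => pc (fac z (ty j i)) (p i)) (fun i => pc_sup _ _)).1
  have e : ∏ i : Fin 6, 2 ^ (p i + 1) = 2 ^ (∑ i, p i + 6) := by
    rw [Finset.prod_pow_eq_pow_sum, Finset.sum_add_distrib]
    simp
  rw [e] at h
  exact h

theorem tp_low (z : ℕ) (j : Fin 3) (p : Fin 6 → ℕ) {m : ℕ} (hm : m < 2 ^ (∑ i, p i)) :
    tp z j p m = 0 := by
  apply prod_low univ (fun i => pc (fac z (ty j i)) (p i)) (fun i : Fin 6 => 2 ^ (p i))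
    (fun i m hm => pc_low _ _ _ hm)
  rw [Finset.prod_pow_eq_pow_sum]
  exact hm

/-- the coefficients -/
noncomputable def ax (z D x n : ℕ) : ℝ := ∑ j : Fin 3, cj j * ∑ p ∈ PP D x, tp z j p n

theorem ax_zero {z D x n : ℕ} (hn : 256 * x < n) : ax z D x n = 0 := by
  unfold ax
  apply Finset.sum_eq_zero
  intro j _
  rw [Finset.sum_eq_zero, mul_zero]
  intro p hp
  rw [PP, mem_filter] at hp
  apply tp_sup
  have e : 2 ^ (∑ i, p i + 6) = 64 * 2 ^ (∑ i, p i) := by ring
  rw [e]
  omega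

theorem ax_eq {z D x n : ℕ} (hz : 1 ≤ z) (hx1 : 1 ≤ x) (hx : x ≤ n) (hn : n ≤ 4 * x) (hD : 4 * x < 2 ^ D)
    (hzx : 4 * x < (z + 1) ^ 3) : ax z D x n = ArithmeticFunction.vonMangoldt n := by
  rw [hb3 hz (by omega) (by omega : n < (z + 1) ^ 3)]
  unfold ax
  apply Finset.sum_congr rfl
  intro j _
  congr 1
  have h1 : (∏ i, fac z (ty j i)) n = (∏ i, ∑ d ∈ range D, pc (fac z (ty j i)) d) n :=
    prod_congr_lt univ _ _ (fun i m hm => (pc_sum _ hm).symm) n (by omega)
  rw [h1, Finset.prod_univ_sum]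
  have e : (∑ p ∈ Fintype.piFinset fun _ : Fin 6 => range D, ∏ i, pc (fac z (ty j i)) (p i)) n =
      ∑ p ∈ Fintype.piFinset fun _ : Fin 6 => range D, tp z j p n := by
    have := map_sum (evn n) (fun p : Fin 6 → ℕ => ∏ i, pc (fac z (ty j i)) (p i))
      (Fintype.piFinset fun _ : Fin 6 => range D)
    exact this
  rw [e]
  apply Finset.sum_subset (filter_subset _ _)
  intro p hp hnp
  rw [mem_filter, not_and, not_and_or] at hnp
  rcases hnp hp with h | h
  · exact tp_low z j p (by omega)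
  · by_cases h3 : n = 2 ^ (∑ i, p i + 6)
    · -- the endpoint
      have hlt : ∀ i : Fin 6, ∀ m, 2 ^ (p i + 1) ≤ m → pc (fac z (ty j i)) (p i) m = 0 := by
        intro i m hm
        rw [pc_apply, if_neg]
        omega
      have hs : ∀ i : Fin 6, Sup (pc (fac z (ty j i)) (p i)) (2 ^ (p i + 1) - 1) := by
        intro i m hm
        have h4 : 1 ≤ 2 ^ (p i + 1) := Nat.one_le_two_pow
        exact hlt i m (by omega)
      have h5 := (Lg_prod (g := fun _ => 1) (by simp) rfl univ (fun i : Fin 6 => 2 ^ (p i + 1) - 1)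
        (fun i => pc (fac z (ty j i)) (p i)) hs).1
      apply h5
      rw [h3]
      have e2 : 2 ^ (∑ i, p i + 6) = ∏ i : Fin 6, 2 ^ (p i + 1) := by
        rw [Finset.prod_pow_eq_pow_sum, Finset.sum_add_distrib]
        simp
      rw [e2]
      apply Finset.prod_lt_prod_of_nonempty
      · intro i _
        have h4 : 2 ≤ 2 ^ (p i + 1) := by
          calc 2 = 2 ^ 1 := by norm_num
            _ ≤ 2 ^ (p i + 1) := Nat.pow_le_pow_right (by norm_num) (by omega)
        omega
      · intro i _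
        have h4 : 1 ≤ 2 ^ (p i + 1) := Nat.one_le_two_pow
        omega
      · exact univ_nonempty
    · exact tp_sup z j p n (by omega)

/-- the Dirichlet polynomial of the coefficients -/
noncomputable def Ax (g : ℕ → ℂ) (z D x : ℕ) : ℂ := ∑ n ∈ Icc 1 (256 * x), ((ax z D x n : ℝ) : ℂ) * g n

theorem Ax_eq {g : ℕ → ℂ} (hg : ∀ m n, g (m * n) = g m * g n) (hg1 : g 1 = 1) (z D x : ℕ) :
    Ax g z D x = ∑ j : Fin 3, ∑ p ∈ PP D x,
      ((cj j : ℝ) : ℂ) * ∏ i, Lg g (2 ^ (p i + 1)) (pc (fac z (ty j i)) (p i)) := by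
  unfold Ax ax
  push_cast
  simp_rw [Finset.sum_mul]
  rw [Finset.sum_comm]
  apply Finset.sum_congr rfl
  intro j _
  simp_rw [mul_assoc, Finset.sum_mul, Finset.mul_sum]
  rw [Finset.sum_comm]
  apply Finset.sum_congr rfl
  intro p hp
  rw [← Finset.mul_sum]
  congr 1
  have h := (Lg_prod hg hg1 univ (fun i : Fin 6 => 2 ^ (p i + 1))
    (fun i => pc (fac z (ty j i)) (p i)) (fun i => pc_sup _ _))
  rw [h.2]
  unfold Lg
  have e : ∏ i : Fin 6, 2 ^ (p i + 1) = 2 ^ (∑ i, p i + 6) := by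
    rw [Finset.prod_pow_eq_pow_sum, Finset.sum_add_distrib]
    simp
  rw [e]
  rw [PP, mem_filter] at hp
  symm
  apply Finset.sum_subset
  · apply Icc_subset_Icc_right
    have e : 2 ^ (∑ i, p i + 6) = 64 * 2 ^ (∑ i, p i) := by ring
    rw [e]
    omega
  · intro n hn hn'
    rw [mem_Icc] at hn hn'
    have h3 : tp z j p n = 0 := tp_sup z j p n (by omega)
    have h4 : (∏ i, pc (fac z (ty j i)) (p i)) n = 0 := h3
    rw [h4]
    simp

end Pool.Agent.K9h19.CR
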