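import Pool.Agent.K9h19.CR.DP1

/-!
# Project CR, job DPL, second part: pieces of the factors are small at all heights in question
-/

set_option autoImplicit false

namespace Pool.Agent.K9h19.CR

open Finset Filter Topology Pool.Agent.Q236.CR
open Pool.Agent.Q95.KS (Sup Sup_mul)
open Pool.Agent.Q240.KS (Mz)
open Pool.Agent.Q53.CR (norm_nt)

/-- the completely multiplicative weight -/
noncomputable def gt {q : ℕ} (χ : DirichletCharacter ℂ q) (τ : ℝ) (n : ℕ) : ℂ := χ (n : ZMod q) * nt τ n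

theorem gt_mul {q : ℕ} (χ : DirichletCharacter ℂ q) (τ : ℝ) (m n : ℕ) :
    gt χ τ (m * n) = gt χ τ m * gt χ τ n := by
  unfold gt nt
  rw [Nat.cast_mul, map_mul, Nat.cast_mul, Complex.natCast_mul_natCast_cpow]
  ring

theorem gt_one {q : ℕ} (χ : DirichletCharacter ℂ q) (τ : ℝ) : gt χ τ 1 = 1 := by
  unfold gt nt
  simp

theorem norm_gt {q : ℕ} (χ : DirichletCharacter ℂ q) (τ : ℝ) {n : ℕ} (hn : 1 ≤ n) :
    ‖gt χ τ n‖ ≤ 1 := by
  unfold gt
  rw [norm_mul, norm_nt τ n hn, mul_one]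
  exact χ.norm_le_one _

theorem Lg_pc (g : ℕ → ℂ) (f : ArithmeticFunction ℝ) (d : ℕ) :
    Lg g (2 ^ (d + 1)) (pc f d) = ∑ n ∈ Ico (2 ^ d) (2 * 2 ^ d), ((f n : ℝ) : ℂ) * g n := by
  unfold Lg
  have e : Ico (2 ^ d) (2 * 2 ^ d) = (Icc 1 (2 ^ (d + 1))).filter (fun n => 2 ^ d ≤ n ∧ n < 2 ^ (d + 1)) := by
    ext n
    have h4 : 1 ≤ 2 ^ d := Nat.one_le_two_pow
    have h5 : 2 ^ (d + 1) = 2 * 2 ^ d := by ring
    simp only [mem_Ico, mem_filter, mem_Icc]
    omega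
  rw [e, Finset.sum_filter]
  apply Finset.sum_congr rfl
  intro n _
  rw [pc_apply]
  split_ifs <;> simp

/-- smooth blocks -/
theorem smooth {q : ℕ} (χ : DirichletCharacter ℂ q) {τ R l : ℝ} {M : ℕ} (hM : 1 ≤ M) (hl : 3 ≤ l)
    (hMl : Real.log M ≤ 2 * l) (hvl : Real.log ((2 * M - 1 : ℕ) : ℝ) ≤ 2 * l)
    (hR : ∀ w, M ≤ w → w ≤ 2 * M → ‖∑ n ∈ Ioc M w, gt χ τ n‖ ≤ R) :
    ‖∑ n ∈ Ico M (2 * M), gt χ τ n‖ ≤ 6 * l * (1 + R) ∧
    ‖∑ n ∈ Ico M (2 * M), (Real.log n : ℂ) * gt χ τ n‖ ≤ 6 * l * (1 + R) := by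
  have hR0 : 0 ≤ R := (norm_nonneg _).trans (hR M le_rfl (by omega))
  have h1 := norm_gt χ τ hM
  constructor
  · rw [ico_eq _ hM]
    refine (norm_add_le _ _).trans ?_
    have h2 := hR (2 * M - 1) (by omega) (by omega)
    nlinarith
  · rw [ico_eq (fun n => (Real.log n : ℂ) * gt χ τ n) hM]
    refine (norm_add_le _ _).trans ?_
    have h2 := logw' (h := fun n => gt χ τ n) (u := M) (v := 2 * M - 1) (R := R) (by omega)
      fun w h1 h2 => hR w h1 (by omega)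
    have h3 : ‖(Real.log M : ℂ) * gt χ τ M‖ ≤ 2 * l := by
      rw [norm_mul, Complex.norm_real, Real.norm_of_nonneg (Real.log_natCast_nonneg M)]
      calc Real.log M * ‖gt χ τ M‖ ≤ (2 * l) * 1 :=
            mul_le_mul hMl h1 (norm_nonneg _) (by positivity)
        _ = 2 * l := mul_one _
    have h4 : 2 * R * Real.log ((2 * M - 1 : ℕ) : ℝ) ≤ 2 * R * (2 * l) :=
      mul_le_mul_of_nonneg_left hvl (by positivity)
    nlinarith

/-- the algebra of case (c), first range -/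
theorem alg1 {x y M T l : ℝ} {E : ℕ} (hl : 1 ≤ l) (hy : 0 < y) (hx : x = y ^ 3) (hM : y ≤ M)
    (hMx : M * l ^ E ≤ x) (hT : l ^ E ≤ T) (hT2 : T * l ^ E ≤ y ^ 2) :
    (T + M ^ 2 / T) * ((T + x / M) * (x / M)) ≤ 4 * (x ^ 2 / l ^ E) := by
  have hl0 : 0 < l := by linarith
  have hlE : 1 ≤ l ^ E := one_le_pow₀ hl
  have hlE0 : 0 < l ^ E := by positivity
  have hT0 : 0 < T := by linarith
  have hM0 : 0 < M := by linarith
  have hx0 : 0 < x := by rw [hx]; positivity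
  have e : (T + M ^ 2 / T) * ((T + x / M) * (x / M)) =
      T ^ 2 * x / M + T * x ^ 2 / M ^ 2 + M * x + x ^ 2 / T := by
    field_simp
    ring
  have hTy : T ≤ y ^ 2 := by nlinarith
  have h1 : T ^ 2 * x / M ≤ x ^ 2 / l ^ E := by
    rw [div_le_div_iff₀ hM0 hlE0]
    calc T ^ 2 * x * l ^ E = T * x * (T * l ^ E) := by ring
      _ ≤ y ^ 2 * x * y ^ 2 := by gcongr
      _ = x ^ 2 * y := by rw [hx]; ring
      _ ≤ x ^ 2 * M := by gcongr
  have h2 : T * x ^ 2 / M ^ 2 ≤ x ^ 2 / l ^ E := by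
    rw [div_le_div_iff₀ (by positivity) hlE0]
    calc T * x ^ 2 * l ^ E = x ^ 2 * (T * l ^ E) := by ring
      _ ≤ x ^ 2 * y ^ 2 := by gcongr
      _ ≤ x ^ 2 * M ^ 2 := by gcongr
  have h3 : M * x ≤ x ^ 2 / l ^ E := by
    rw [le_div_iff₀ hlE0]
    calc M * x * l ^ E = (M * l ^ E) * x := by ring
      _ ≤ x * x := by gcongr
      _ = x ^ 2 := by ring
  have h4 : x ^ 2 / T ≤ x ^ 2 / l ^ E := div_le_div_of_nonneg_left (by positivity) hlE0 hT
  rw [e]
  linarith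

/-- the algebra of case (c), second range -/
theorem alg2 {x y M T l : ℝ} {E : ℕ} (hl : 1 ≤ l) (hy : 0 < y) (hx : x = y ^ 3) (hM0 : 0 < M)
    (hM : M ≤ 4 * x) (hMx : x ≤ M * l ^ E) (hT : l ^ (2 * E) ≤ T) (hT2 : T * l ^ E ≤ y ^ 2) :
    (M ^ 2 / T ^ 2 + T ^ 2) * ((T + x / M) * (x / M)) ≤ 34 * (x ^ 2 / l ^ E) := by
  have hl0 : 0 < l := by linarith
  have hlE : 1 ≤ l ^ E := one_le_pow₀ hl
  have hlE0 : 0 < l ^ E := by positivity
  have h2E : l ^ (2 * E) = l ^ E * l ^ E := by ring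
  obtain ⟨v, hv⟩ : ∃ v, v = l ^ E := ⟨_, rfl⟩
  rw [h2E] at hT
  rw [← hv] at hlE hlE0 hMx hT hT2 ⊢
  have hT0 : 0 < T := by nlinarith
  have hx0 : 0 < x := by rw [hx]; positivity
  have h1 : x / M ≤ v := by rw [div_le_iff₀ hM0]; linarith
  have h1' : 0 < x / M := by positivity
  have h2 : (T + x / M) * (x / M) ≤ 2 * T * v := by
    calc (T + x / M) * (x / M) ≤ (T + v) * v := by gcongr
      _ ≤ 2 * T * v := by nlinarith
  have hTy : T ≤ y ^ 2 := by nlinarith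
  have h3 : M ^ 2 / T ^ 2 + T ^ 2 ≤ 16 * x ^ 2 / T ^ 2 + T ^ 2 := by
    gcongr
    nlinarith
  calc (M ^ 2 / T ^ 2 + T ^ 2) * ((T + x / M) * (x / M))
      ≤ (16 * x ^ 2 / T ^ 2 + T ^ 2) * (2 * T * v) := by
        apply mul_le_mul h3 h2 (by positivity) (by positivity)
    _ = 32 * (x ^ 2 * v / T) + 2 * (T ^ 3 * v) := by
        field_simp
        ring
    _ ≤ 32 * (x ^ 2 / v) + 2 * (x ^ 2 / v) := by
        have h4 : x ^ 2 * v / T ≤ x ^ 2 / v := by
          rw [div_le_div_iff₀ hT0 hlE0]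
          nlinarith [sq_nonneg x]
        have h5 : T ^ 3 * v ≤ x ^ 2 / v := by
          rw [le_div_iff₀ hlE0]
          calc T ^ 3 * v * v = T * (T * v) * (T * v) := by ring
            _ ≤ y ^ 2 * y ^ 2 * y ^ 2 := by gcongr
            _ = x ^ 2 := by rw [hx]; ring
        linarith
    _ = _ := by ring

theorem fac_good (hc : S_CHR) (hm : S_MOC) : ∀ B K : ℕ, ∃ Cm X₀ : ℕ, ∀ x : ℕ, X₀ ≤ x →
    ∀ (q : ℕ) (_ : NeZero q), (q : ℝ) ≤ Real.log x ^ B → ∀ (χ : DirichletCharacter ℂ q) (z : ℕ),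
    (z : ℝ) ≤ 2 * (x : ℝ) ^ (1 / 3 : ℝ) → ∀ (t : Fin 4) (d : ℕ), (x : ℝ) ≤ ((2 ^ d : ℕ) : ℝ) ^ 20 →
    ((2 ^ d : ℕ) : ℝ) ≤ 4 * x → ∀ T τ : ℝ, Real.log x ^ Cm ≤ T →
    T * Real.log x ^ Cm ≤ ((x : ℝ) ^ (1 / 3 : ℝ)) ^ 2 → T ≤ |τ| → |τ| ≤ 2 * T →
    ‖Lg (gt χ τ) (2 ^ (d + 1)) (pc (fac z t) d)‖ ^ 2 *
      ((T + x / ((2 ^ d : ℕ) : ℝ)) * (x / ((2 ^ d : ℕ) : ℝ))) ≤ (x : ℝ) ^ 2 / Real.log x ^ K := by
  intro B K
  obtain ⟨C₁, X₁, hpw⟩ := pw hc hm B (K + 1)
  obtain ⟨-, ⟨C₂, hC₂, h2⟩⟩ := hc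
  obtain ⟨C₃, hC₃, h3⟩ := fd
  obtain ⟨E, hE⟩ : ∃ E : ℕ, E = 2 * B + K + 5 := ⟨_, rfl⟩
  obtain ⟨X₂, hX₂⟩ := ev_natlog (P := fun l => 489600 * C₂ ^ 2 ≤ l ∧ 28800 * 34 * C₃ ^ 2 ≤ l ∧ 3 ≤ l) (by
    filter_upwards [eventually_ge_atTop (489600 * C₂ ^ 2), eventually_ge_atTop (28800 * 34 * C₃ ^ 2),
      eventually_ge_atTop 3] with l h3 h4 h5
    exact ⟨h3, h4, h5⟩)
  refine ⟨max C₁ (2 * E), max (max X₁ X₂) 64, ?_⟩
  intro x hx q hq hqx χ z hz t d hd20 hd4 T τ hT1 hT2 hτ1 hτ2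
  obtain ⟨g1, g2, g3⟩ := hX₂ x ((le_max_right _ _).trans ((le_max_left _ _).trans hx))
  have hx64 : 64 ≤ x := (le_max_right _ _).trans hx
  have hx64r : (64 : ℝ) ≤ x := by exact_mod_cast hx64
  have hpw' := hpw x ((le_max_left _ _).trans ((le_max_left _ _).trans hx)) q hq hqx χ τ
  obtain ⟨l, hl⟩ : ∃ l : ℝ, l = Real.log x := ⟨_, rfl⟩
  obtain ⟨y, hy⟩ : ∃ y : ℝ, y = (x : ℝ) ^ (1 / 3 : ℝ) := ⟨_, rfl⟩
  rw [← hl] at g1 g2 g3 hqx hT1 hT2 hpw' ⊢
  rw [← hy] at hz hT2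
  have hx0 : (0 : ℝ) < x := by linarith
  have hy0 : 0 < y := by rw [hy]; positivity
  have hy3 : (x : ℝ) = y ^ 3 := by
    rw [hy, ← Real.rpow_natCast, ← Real.rpow_mul hx0.le]
    norm_num
  have hl0 : 0 < l := by linarith
  have hl1 : 1 ≤ l := by linarith
  have hq1 : (1 : ℝ) ≤ q := by exact_mod_cast Nat.one_le_iff_ne_zero.2 (NeZero.ne q)
  have hCmC : l ^ C₁ ≤ l ^ (max C₁ (2 * E)) := pow_le_pow_right₀ hl1 (le_max_left _ _)
  have hCmE : l ^ (2 * E) ≤ l ^ (max C₁ (2 * E)) := pow_le_pow_right₀ hl1 (le_max_right _ _)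
  have hE2E : l ^ E ≤ l ^ (2 * E) := pow_le_pow_right₀ hl1 (by omega)
  have hT0 : 0 < T := lt_of_lt_of_le (by positivity) hT1
  have hT2' : T * l ^ E ≤ y ^ 2 :=
    (mul_le_mul_of_nonneg_left (hE2E.trans hCmE) hT0.le).trans hT2
  have hTy : T ≤ y ^ 2 := by
    have : 1 ≤ l ^ E := one_le_pow₀ hl1
    nlinarith
  have hτ0 : 0 < |τ| := by linarith
  have hy4 : 4 ≤ y := by
    have h5 : (4 : ℝ) ^ 3 ≤ y ^ 3 := by rw [← hy3]; linarith
    exact (pow_le_pow_iff_left₀ (by norm_num) hy0.le (by norm_num)).1 h5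
  have hτx : |τ| ≤ x := by
    rw [hy3]
    nlinarith
  obtain ⟨M, hM⟩ : ∃ M : ℕ, M = 2 ^ d := ⟨_, rfl⟩
  rw [Lg_pc]
  rw [← hM] at hd20 hd4 ⊢
  have hM1 : 1 ≤ M := by rw [hM]; exact Nat.one_le_two_pow
  have hM0 : (0 : ℝ) < M := by exact_mod_cast hM1
  have hMr1 : (1 : ℝ) ≤ M := by exact_mod_cast hM1
  have hM2 : 2 ≤ M := by
    by_contra hcon
    have : M = 1 := by omega
    rw [this] at hd20
    norm_num at hd20
    linarith
  have hMX2 : (M : ℝ) ≤ (x : ℝ) ^ 2 := by nlinarith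
  obtain ⟨S, hS⟩ : ∃ S : ℝ, S = ‖∑ n ∈ Ico M (2 * M), (((fac z t) n : ℝ) : ℂ) * gt χ τ n‖ := ⟨_, rfl⟩
  rw [← hS]
  have hS0 : 0 ≤ S := by rw [hS]; exact norm_nonneg _
  have hP0 : 0 ≤ (T + x / (M : ℝ)) * (x / (M : ℝ)) := by positivity
  -- case (a)
  have casea : S ≤ M / l ^ (K + 1) → (M : ℝ) ≤ 8 * y →
      S ^ 2 * ((T + x / (M : ℝ)) * (x / (M : ℝ))) ≤ (x : ℝ) ^ 2 / l ^ K := by
    intro h5 h6
    calc S ^ 2 * ((T + x / (M : ℝ)) * (x / (M : ℝ))) ≤
        (M / l ^ (K + 1)) ^ 2 * ((T + x / (M : ℝ)) * (x / (M : ℝ))) := by gcongr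
      _ = (M * x * T + x ^ 2) / (l ^ (K + 1)) ^ 2 := by field_simp
      _ ≤ ((8 * y) * x * y ^ 2 + x ^ 2) / (l ^ (K + 1)) ^ 2 := by gcongr
      _ = 9 * (x ^ 2 / (l ^ (K + 1)) ^ 2) := by
          have e : (8 * y) * x * y ^ 2 = 8 * (x : ℝ) ^ 2 := by rw [hy3]; ring
          rw [e]
          ring
      _ ≤ (l ^ 2 * l ^ K) * (x ^ 2 / (l ^ (K + 1)) ^ 2) := by
          apply mul_le_mul_of_nonneg_right _ (by positivity)
          have h7 : 1 ≤ l ^ K := one_le_pow₀ hl1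
          nlinarith
      _ = x ^ 2 / l ^ K := by
          have e : l ^ (K + 1) = l ^ K * l := pow_succ _ _
          rw [e]
          field_simp
  have hlogM : Real.log M ≤ 2 * l := by
    have h5 : Real.log M ≤ Real.log (4 * x) := Real.log_le_log hM0 hd4
    rw [Real.log_mul (by norm_num) hx0.ne', ← hl] at h5
    have h6 : Real.log 4 = 2 * Real.log 2 := by
      rw [show (4 : ℝ) = 2 ^ 2 by norm_num, Real.log_pow]
      norm_num
    have := Real.log_two_lt_d9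
    linarith
  have hlog2M : Real.log ((2 * M - 1 : ℕ) : ℝ) ≤ 2 * l := by
    have h5 : Real.log ((2 * M - 1 : ℕ) : ℝ) ≤ Real.log (8 * x) := by
      apply Real.log_le_log
      · exact_mod_cast (by omega : 0 < 2 * M - 1)
      · have h7 : ((2 * M - 1 : ℕ) : ℝ) ≤ ((2 * M : ℕ) : ℝ) := by
          exact_mod_cast (by omega : 2 * M - 1 ≤ 2 * M)
        push_cast at h7
        linarith
    rw [Real.log_mul (by norm_num) hx0.ne', ← hl] at h5
    have h6 : Real.log 8 = 3 * Real.log 2 := by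
      rw [show (8 : ℝ) = 2 ^ 3 by norm_num, Real.log_pow]
      norm_num
    have := Real.log_two_lt_d9
    linarith
  -- smooth case
  have casec : (8 * y < M) → S ≤ 6 * l * (1 + 0) ∨ (∀ R : ℝ, (∀ w, M ≤ w → w ≤ 2 * M →
      ‖∑ n ∈ Ioc M w, gt χ τ n‖ ≤ R) → S ≤ 6 * l * (1 + R)) →
      S ^ 2 * ((T + x / (M : ℝ)) * (x / (M : ℝ))) ≤ (x : ℝ) ^ 2 / l ^ K := by
    intro h5 h6
    have h6' : ∀ R : ℝ, (∀ w, M ≤ w → w ≤ 2 * M → ‖∑ n ∈ Ioc M w, gt χ τ n‖ ≤ R) →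
        S ≤ 6 * l * (1 + R) := by
      intro R hR
      rcases h6 with h6 | h6
      · have hR0 : 0 ≤ R := (norm_nonneg _).trans (hR M le_rfl (by omega))
        refine h6.trans ?_
        gcongr
      · exact h6 R hR
    have hτ1' : 1 ≤ |τ| := by
      have : 1 ≤ l ^ (max C₁ (2 * E)) := one_le_pow₀ hl1
      linarith
    have hfin : ∀ c A : ℝ, 0 ≤ A → S ^ 2 ≤ c * l ^ 4 * q ^ 2 * A →
        A * ((T + x / (M : ℝ)) * (x / (M : ℝ))) ≤ 34 * (x ^ 2 / l ^ E) → 0 ≤ c → 34 * c ≤ l →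
        S ^ 2 * ((T + x / (M : ℝ)) * (x / (M : ℝ))) ≤ (x : ℝ) ^ 2 / l ^ K := by
      intro c A hA hSA hAP hc0 hcl
      calc S ^ 2 * ((T + x / (M : ℝ)) * (x / (M : ℝ))) ≤
          (c * l ^ 4 * q ^ 2 * A) * ((T + x / (M : ℝ)) * (x / (M : ℝ))) := by gcongr
        _ = c * l ^ 4 * q ^ 2 * (A * ((T + x / (M : ℝ)) * (x / (M : ℝ)))) := by ring
        _ ≤ c * l ^ 4 * (l ^ B) ^ 2 * (34 * (x ^ 2 / l ^ E)) := by gcongr
        _ = (34 * c) * (x ^ 2 / l ^ (K + 1)) := by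
            rw [hE]
            have e : l ^ (2 * B + K + 5) = (l ^ B) ^ 2 * l ^ 4 * l ^ (K + 1) := by ring
            rw [e]
            field_simp
        _ ≤ l * (x ^ 2 / l ^ (K + 1)) := by gcongr
        _ = x ^ 2 / l ^ K := by
            have e : l ^ (K + 1) = l ^ K * l := pow_succ _ _
            rw [e]
            field_simp
    rcases le_or_gt ((M : ℝ) * l ^ E) x with h7 | h7
    · -- second derivative test
      have hR := h6' (q * (C₂ * (√|τ| + M / √|τ|) * (1 + Real.log M)))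
        (fun w hw1 hw2 => h2 q hq χ M w τ hM1 hw1 hw2 hτ1')
      have hs1 : 1 ≤ √|τ| := Real.one_le_sqrt.2 hτ1'
      have hs0 : 0 < √|τ| := by linarith
      have hR1 : 1 ≤ (q : ℝ) * (C₂ * (√|τ| + M / √|τ|) * (1 + Real.log M)) := by
        have a1 : 1 ≤ √|τ| + M / √|τ| := by
          have : 0 ≤ (M : ℝ) / √|τ| := by positivity
          linarith
        have a2 : 0 ≤ Real.log M := Real.log_natCast_nonneg M
        have a3 : 1 ≤ C₂ * (√|τ| + M / √|τ|) := one_le_mul_of_one_le_of_one_le hC₂ a1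
        have a4 : 1 ≤ C₂ * (√|τ| + M / √|τ|) * (1 + Real.log M) :=
          one_le_mul_of_one_le_of_one_le a3 (by linarith)
        exact one_le_mul_of_one_le_of_one_le hq1 a4
      have hs2 : (√|τ| + M / √|τ|) ^ 2 ≤ 4 * (T + M ^ 2 / T) := by
        have a1 : (√|τ|) ^ 2 = |τ| := Real.sq_sqrt hτ0.le
        have a2 : (M / √|τ|) ^ 2 = (M : ℝ) ^ 2 / |τ| := by rw [div_pow, a1]
        have a3 : (M : ℝ) ^ 2 / |τ| ≤ M ^ 2 / T := div_le_div_of_nonneg_left (by positivity) hT0 hτ1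
        have a4 : (√|τ| + M / √|τ|) ^ 2 ≤ 2 * (√|τ|) ^ 2 + 2 * (M / √|τ|) ^ 2 := by
          nlinarith [sq_nonneg (√|τ| - M / √|τ|)]
        rw [a1, a2] at a4
        have a5 : 0 ≤ (M : ℝ) ^ 2 / T := by positivity
        linarith
      refine hfin (14400 * C₂ ^ 2) (T + M ^ 2 / T) (by positivity) ?_ ?_ (by positivity) ?_
      · calc S ^ 2 ≤ (6 * l * (2 * (q * (C₂ * (√|τ| + M / √|τ|) * (5 * l))))) ^ 2 := by
              apply pow_le_pow_left₀ hS0
              refine hR.trans ?_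
              apply mul_le_mul_of_nonneg_left _ (by positivity)
              have a1 : (q : ℝ) * (C₂ * (√|τ| + M / √|τ|) * (1 + Real.log M)) ≤
                  q * (C₂ * (√|τ| + M / √|τ|) * (5 * l)) := by
                gcongr
                linarith
              linarith
          _ = 3600 * C₂ ^ 2 * l ^ 4 * q ^ 2 * (√|τ| + M / √|τ|) ^ 2 := by ring
          _ ≤ 3600 * C₂ ^ 2 * l ^ 4 * q ^ 2 * (4 * (T + M ^ 2 / T)) := by gcongr
          _ = _ := by ring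
      · refine (alg1 hl1 hy0 hy3 (by linarith) h7 (hE2E.trans (hCmE.trans hT1)) hT2').trans ?_
        apply mul_le_mul_of_nonneg_right (by norm_num) (by positivity)
      · linarith
    · have hR := h6' (C₃ * (M / |τ| + q * |τ|) * (1 + Real.log M))
        (fun w hw1 hw2 => h3 q hq χ M w τ hM1 hw1 hw2 hτ1')
      have hR1 : 1 ≤ C₃ * (M / |τ| + q * |τ|) * (1 + Real.log M) := by
        have a1 : 1 ≤ M / |τ| + q * |τ| := by
          have : 0 ≤ (M : ℝ) / |τ| := by positivity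
          have : 1 ≤ q * |τ| := one_le_mul_of_one_le_of_one_le hq1 hτ1'
          linarith
        have a2 : 0 ≤ Real.log M := Real.log_natCast_nonneg M
        exact one_le_mul_of_one_le_of_one_le (one_le_mul_of_one_le_of_one_le hC₃ a1) (by linarith)
      have hs2 : (M / |τ| + q * |τ|) ^ 2 ≤ 8 * q ^ 2 * (M ^ 2 / T ^ 2 + T ^ 2) := by
        have a1 : (M : ℝ) / |τ| ≤ M / T := div_le_div_of_nonneg_left hM0.le hT0 hτ1
        have a2 : (M : ℝ) / T ≤ q * (M / T) := le_mul_of_one_le_left (by positivity) hq1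
        have a3 : (q : ℝ) * |τ| ≤ q * (2 * T) := by gcongr
        have a4 : M / |τ| + q * |τ| ≤ q * (M / T + 2 * T) := by
          calc M / |τ| + q * |τ| ≤ q * (M / T) + q * (2 * T) := add_le_add (a1.trans a2) a3
            _ = _ := by ring
        calc (M / |τ| + q * |τ|) ^ 2 ≤ (q * (M / T + 2 * T)) ^ 2 :=
              pow_le_pow_left₀ (by positivity) a4 2
          _ = q ^ 2 * (M / T + 2 * T) ^ 2 := by ring
          _ ≤ q ^ 2 * (8 * (M ^ 2 / T ^ 2 + T ^ 2)) := by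
              apply mul_le_mul_of_nonneg_left _ (by positivity)
              have a5 : (M : ℝ) ^ 2 / T ^ 2 = (M / T) ^ 2 := by rw [div_pow]
              rw [a5]
              nlinarith [sq_nonneg ((M : ℝ) / T - 2 * T), sq_nonneg ((M : ℝ) / T)]
          _ = _ := by ring
      refine hfin (28800 * C₃ ^ 2) (M ^ 2 / T ^ 2 + T ^ 2) (by positivity) ?_ ?_ (by positivity) ?_
      · calc S ^ 2 ≤ (6 * l * (2 * (C₃ * (M / |τ| + q * |τ|) * (5 * l)))) ^ 2 := by
              apply pow_le_pow_left₀ hS0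
              refine hR.trans ?_
              apply mul_le_mul_of_nonneg_left _ (by positivity)
              have a1 : C₃ * (M / |τ| + q * |τ|) * (1 + Real.log M) ≤
                  C₃ * (M / |τ| + q * |τ|) * (5 * l) := by
                gcongr
                linarith
              linarith
          _ = 3600 * C₃ ^ 2 * l ^ 4 * (M / |τ| + q * |τ|) ^ 2 := by ring
          _ ≤ 3600 * C₃ ^ 2 * l ^ 4 * (8 * q ^ 2 * (M ^ 2 / T ^ 2 + T ^ 2)) := by gcongr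
          _ = _ := by ring
      · exact alg2 hl1 hy0 hy3 hM0 hd4 h7.le (hCmE.trans hT1) hT2'
      · linarith
  have hz0 : (z : ℝ) ≤ 8 * y := by linarith
  have hlast := hpw' (hCmC.trans (hT1.trans hτ1)) hτx M hd20 hMX2
  have ht : t = 0 ∨ t = 1 ∨ t = 2 ∨ t = 3 := by fin_cases t <;> simp
  rcases ht with rfl | rfl | rfl | rfl
  · have h5 : S = 0 := by
      rw [hS, norm_eq_zero]
      apply Finset.sum_eq_zero
      intro n hn
      rw [mem_Ico] at hn
      have h6 : (fac z 0) n = 0 := ArithmeticFunction.one_apply_ne (by omega)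
      rw [h6]
      simp
    rw [h5]
    simp only [ne_eq, OfNat.ofNat_ne_zero, not_false_eq_true, zero_pow, zero_mul]
    positivity
  · have hfac : ∀ n : ℕ, (((fac z 1) n : ℝ) : ℂ) =
        (if n ≤ z then ((ArithmeticFunction.moebius n : ℤ) : ℂ) else 0) := by
      intro n
      have h6 : (fac z 1) n = if n ≤ z then ((ArithmeticFunction.moebius n : ℤ) : ℝ) else 0 := rfl
      rw [h6]
      split_ifs <;> simp
    rcases lt_or_ge z M with h5 | h5
    · have h7 : S = 0 := by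
        rw [hS, norm_eq_zero]
        apply Finset.sum_eq_zero
        intro n hn
        rw [mem_Ico] at hn
        rw [hfac, if_neg (by omega), zero_mul]
      rw [h7]
      simp only [ne_eq, OfNat.ofNat_ne_zero, not_false_eq_true, zero_pow, zero_mul]
      positivity
    · apply casea
      · have h6 := hlast.1 z
        rw [hS]
        refine le_trans (le_of_eq ?_) h6
        congr 1
        apply Finset.sum_congr rfl
        intro n _
        rw [hfac]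
        rfl
      · have : (M : ℝ) ≤ z := by exact_mod_cast h5
        linarith
  · have hS' : S = ‖∑ n ∈ Ico M (2 * M), gt χ τ n‖ := by
      rw [hS]
      congr 1
      apply Finset.sum_congr rfl
      intro n hn
      rw [mem_Ico] at hn
      have h6 : (fac z 2) n = 1 := by
        have h7 : (fac z 2) n = ze n := rfl
        rw [h7]
        unfold ze
        rw [ArithmeticFunction.natCoe_apply, ArithmeticFunction.zeta_apply, if_neg (by omega)]
        simp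
      rw [h6]
      simp
    rcases le_or_gt (M : ℝ) (8 * y) with h5 | h5
    · apply casea _ h5
      rw [hS']
      exact hlast.2.1
    · apply casec h5
      right
      intro R hR
      rw [hS']
      exact (smooth χ hM1 g3 hlogM hlog2M hR).1
  · have hS' : S = ‖∑ n ∈ Ico M (2 * M), (Real.log n : ℂ) * gt χ τ n‖ := by
      rw [hS]
      congr 1
    rcases le_or_gt (M : ℝ) (8 * y) with h5 | h5
    · apply casea _ h5
      rw [hS']
      exact hlast.2.2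
    · apply casec h5
      right
      intro R hR
      rw [hS']
      exact (smooth χ hM1 g3 hlogM hlog2M hR).2

end Pool.Agent.K9h19.CR
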