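import Pool.Agent.K9h19.CR.DP2

/-!
# Project CR, job DPL, third part: the mean square of the Dirichlet polynomial
-/

set_option autoImplicit false

namespace Pool.Agent.K9h19.CR

open Finset Filter Topology Pool.Agent.Q236.CR MeasureTheory
open Pool.Agent.Q95.KS (Sup Sup_mul)
open Pool.Agent.Q240.KS (Mz)
open Pool.Agent.Q53.CR (norm_nt)

theorem cont_gt {q : ℕ} (χ : DirichletCharacter ℂ q) {n : ℕ} (hn : 1 ≤ n) :
    Continuous fun τ : ℝ => gt χ τ n := by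
  unfold gt nt
  apply Continuous.mul continuous_const
  apply Continuous.const_cpow
  · fun_prop
  · left
    exact_mod_cast (by omega : n ≠ 0)

theorem cont_Lg {q : ℕ} (χ : DirichletCharacter ℂ q) (N : ℕ) (f : ArithmeticFunction ℝ) :
    Continuous fun τ : ℝ => Lg (gt χ τ) N f := by
  unfold Lg
  apply continuous_finsetSum
  intro n hn
  exact continuous_const.mul (cont_gt χ (mem_Icc.1 hn).1)

/-- sums of powers of the divisor function -/
theorem div_sum (k Z : ℕ) (hZ : 1 ≤ Z) :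
    ∑ n ∈ Icc 1 Z, (n.divisors.card : ℝ) ^ k ≤ Z * (1 + Real.log Z) ^ (2 ^ k) := by
  have h1 := Pool.Agent.H398R2.BV.sum_card_pow_div k Z
  calc ∑ n ∈ Icc 1 Z, (n.divisors.card : ℝ) ^ k ≤
      ∑ n ∈ Icc 1 Z, (Z : ℝ) * ((n.divisors.card : ℝ) ^ k / n) := by
        apply Finset.sum_le_sum
        intro n hn
        rw [mem_Icc] at hn
        have hn0 : (0 : ℝ) < n := by exact_mod_cast hn.1
        have hnZ : (n : ℝ) ≤ Z := by exact_mod_cast hn.2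
        rw [mul_div_assoc', le_div_iff₀ hn0, mul_comm]
        gcongr
    _ = (Z : ℝ) * ∑ n ∈ Icc 1 Z, (n.divisors.card : ℝ) ^ k / n := by rw [Finset.mul_sum]
    _ ≤ _ := by gcongr

theorem tup_mv {q : ℕ} (χ : DirichletCharacter ℂ q) (F : Fin 6 → ArithmeticFunction ℝ) (N : Fin 6 → ℕ)
    (hS : ∀ i, Sup (F i) (N i)) (hN : ∀ i, 1 ≤ N i) {W S T1 T2 : ℝ} (hW : 0 ≤ W)
    (hF : ∀ i m, |F i m| ≤ W) (i0 : Fin 6) (hT : T1 ≤ T2)
    (hgood : ∀ τ ∈ Set.Icc T1 T2, ‖Lg (gt χ τ) (N i0) (F i0)‖ ^ 2 ≤ S) (Z : ℕ)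
    (hZ : Z = ∏ i ∈ univ.erase i0, N i) (e0 : ℕ) (he0 : e0 = 2 ^ 10) :
    ∫ τ in T1..T2, ‖∏ i, Lg (gt χ τ) (N i) (F i)‖ ^ 2 ≤
      S * ((T2 - T1 + 8 * Z * (1 + Real.log Z)) * (W ^ 10 * (Z * (1 + Real.log Z) ^ e0))) := by
  obtain ⟨G, hG⟩ : ∃ G : ArithmeticFunction ℝ, G = ∏ i ∈ univ.erase i0, F i := ⟨_, rfl⟩
  have hZ1 : 1 ≤ Z := by
    rw [hZ]
    exact Finset.one_le_prod' fun i _ => hN i
  have hcard : (univ.erase i0 : Finset (Fin 6)).card = 5 := by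
    rw [card_erase_of_mem (mem_univ _)]
    simp
  have hS0 : 0 ≤ S := (by positivity : (0 : ℝ) ≤ ‖Lg (gt χ T1) (N i0) (F i0)‖ ^ 2).trans
    (hgood T1 ⟨le_rfl, hT⟩)
  have hR : ∀ τ : ℝ, ∏ i ∈ univ.erase i0, Lg (gt χ τ) (N i) (F i) = Lg (gt χ τ) Z G := by
    intro τ
    rw [hZ, hG]
    exact (Lg_prod (gt_mul χ τ) (gt_one χ τ) (univ.erase i0) N F hS).2
  have hpt : ∀ τ ∈ Set.Icc T1 T2, ‖∏ i, Lg (gt χ τ) (N i) (F i)‖ ^ 2 ≤ S * ‖Lg (gt χ τ) Z G‖ ^ 2 := by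
    intro τ hτ
    rw [← Finset.mul_prod_erase univ _ (mem_univ i0), hR, norm_mul, mul_pow]
    exact mul_le_mul_of_nonneg_right (hgood τ hτ) (by positivity)
  have hc1 : Continuous fun τ : ℝ => ‖∏ i, Lg (gt χ τ) (N i) (F i)‖ ^ 2 :=
    (continuous_finsetProd _ fun i _ => cont_Lg χ (N i) (F i)).norm.pow 2
  have hc2 : Continuous fun τ : ℝ => S * ‖Lg (gt χ τ) Z G‖ ^ 2 :=
    continuous_const.mul ((cont_Lg χ Z G).norm.pow 2)
  refine (intervalIntegral.integral_mono_on hT (hc1.intervalIntegrable _ _) (hc2.intervalIntegrable _ _)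
    hpt).trans ?_
  rw [intervalIntegral.integral_const_mul]
  apply mul_le_mul_of_nonneg_left _ hS0
  have h1 := H370.mean_value (fun n => ((G n : ℝ) : ℂ) * χ (n : ZMod q)) Z T1 T2 hT
  have e : ∀ τ : ℝ, Lg (gt χ τ) Z G = ∑ n ∈ Icc 1 Z, (((G n : ℝ) : ℂ) * χ (n : ZMod q)) *
      (n : ℂ) ^ (-(τ : ℂ) * Complex.I) := by
    intro τ
    unfold Lg gt nt
    apply Finset.sum_congr rfl
    intro n _
    ring
  simp_rw [← e] at h1
  refine h1.trans ?_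
  have hlogZ : 0 ≤ Real.log Z := Real.log_natCast_nonneg Z
  apply mul_le_mul_of_nonneg_left _ (by
    have : 0 ≤ T2 - T1 := by linarith
    positivity)
  calc ∑ n ∈ Icc 1 Z, ‖((G n : ℝ) : ℂ) * χ (n : ZMod q)‖ ^ 2
      ≤ ∑ n ∈ Icc 1 Z, W ^ 10 * (n.divisors.card : ℝ) ^ 10 := by
        apply Finset.sum_le_sum
        intro n _
        have h2 : ‖((G n : ℝ) : ℂ) * χ (n : ZMod q)‖ ≤ (W * (n.divisors.card : ℝ)) ^ 5 := by
          rw [norm_mul, Complex.norm_real, Real.norm_eq_abs]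
          have h3 := prod_bd (univ.erase i0) F hW hF n
          rw [hcard, ← hG] at h3
          calc |G n| * ‖χ (n : ZMod q)‖ ≤ |G n| * 1 :=
                mul_le_mul_of_nonneg_left (χ.norm_le_one _) (abs_nonneg _)
            _ ≤ _ := by rw [mul_one]; exact h3
        calc ‖((G n : ℝ) : ℂ) * χ (n : ZMod q)‖ ^ 2 ≤ ((W * (n.divisors.card : ℝ)) ^ 5) ^ 2 :=
              pow_le_pow_left₀ (norm_nonneg _) h2 2
          _ = _ := by ring
    _ = W ^ 10 * ∑ n ∈ Icc 1 Z, (n.divisors.card : ℝ) ^ 10 := by rw [Finset.mul_sum]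
    _ ≤ _ := by
        apply mul_le_mul_of_nonneg_left _ (by positivity)
        rw [he0]
        exact div_sum 10 Z hZ1

theorem pc_bd {z D : ℕ} (t : Fin 4) {d : ℕ} (hd : d < D) (m : ℕ) :
    |pc (fac z t) d m| ≤ D := by
  have hD1 : (1 : ℝ) ≤ D := by exact_mod_cast (by omega : 1 ≤ D)
  rw [pc_apply]
  split_ifs with h
  · have ht : t = 0 ∨ t = 1 ∨ t = 2 ∨ t = 3 := by fin_cases t <;> simp
    have hm1 : 1 ≤ m := le_trans Nat.one_le_two_pow h.1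
    rcases ht with rfl | rfl | rfl | rfl
    · have h7 : (fac z 0) m = (1 : ArithmeticFunction ℝ) m := rfl
      rw [h7]
      by_cases h1 : m = 1
      · rw [h1]; simpa using hD1
      · rw [ArithmeticFunction.one_apply_ne h1]
        simp
    · have h6 : (fac z 1) m = if m ≤ z then ((ArithmeticFunction.moebius m : ℤ) : ℝ) else 0 := rfl
      rw [h6]
      split_ifs
      · have h8 := ArithmeticFunction.abs_moebius_le_one (n := m)
        have h9 : |((ArithmeticFunction.moebius m : ℤ) : ℝ)| ≤ 1 := by exact_mod_cast h8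
        linarith
      · simp
    · have h7 : (fac z 2) m = ze m := rfl
      rw [h7]
      unfold ze
      rw [ArithmeticFunction.natCoe_apply, ArithmeticFunction.zeta_apply, if_neg (by omega)]
      simpa using hD1
    · have h7 : (fac z 3) m = Real.log m := rfl
      rw [h7, abs_of_nonneg (Real.log_natCast_nonneg m)]
      have h8 : Real.log m ≤ Real.log ((2 : ℝ) ^ (d + 1)) := by
        apply Real.log_le_log (by exact_mod_cast hm1)
        have : m ≤ 2 ^ (d + 1) := h.2.le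
        exact_mod_cast this
      rw [Real.log_pow] at h8
      have h9 : ((d + 1 : ℕ) : ℝ) ≤ D := by exact_mod_cast hd
      have h10 := Real.log_two_lt_d9
      have h11 : ((d + 1 : ℕ) : ℝ) * Real.log 2 ≤ D * 1 := by
        apply mul_le_mul h9 (by linarith) (Real.log_nonneg (by norm_num)) (by positivity)
      linarith
  · simp

theorem exists_big {D x : ℕ} (hx : 4096 ≤ x) {p : Fin 6 → ℕ} (hp : p ∈ PP D x) :
    ∃ i, x ≤ (2 ^ (p i)) ^ 20 := by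
  by_contra hcon
  push Not at hcon
  unfold PP at hp
  rw [mem_filter] at hp
  have h1 : ∏ i : Fin 6, (2 ^ (p i)) ^ 20 ≤ x ^ 6 := by
    calc ∏ i : Fin 6, (2 ^ (p i)) ^ 20 ≤ ∏ _i : Fin 6, x := Finset.prod_le_prod' fun i _ => (hcon i).le
      _ = x ^ 6 := by simp
  rw [Finset.prod_pow, Finset.prod_pow_eq_pow_sum] at h1
  have h2 : x < 64 * 2 ^ (∑ i, p i) := by
    have e : 2 ^ (∑ i, p i + 6) = 64 * 2 ^ (∑ i, p i) := by ring
    rw [← e]
    exact hp.2.2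
  have h3 : x ^ 20 < (64 * 2 ^ (∑ i, p i)) ^ 20 := Nat.pow_lt_pow_left h2 (by norm_num)
  rw [mul_pow] at h3
  have h4 : x ^ 20 < 64 ^ 20 * x ^ 6 := lt_of_lt_of_le h3 (Nat.mul_le_mul_left _ h1)
  have h5 : 64 ^ 20 ≤ x ^ 14 := by
    calc 64 ^ 20 ≤ 4096 ^ 14 := by norm_num
      _ ≤ x ^ 14 := Nat.pow_le_pow_left hx 14
  have h6 : 64 ^ 20 * x ^ 6 ≤ x ^ 20 := by
    calc 64 ^ 20 * x ^ 6 ≤ x ^ 14 * x ^ 6 := Nat.mul_le_mul_right _ h5
      _ = x ^ 20 := by ring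
  omega

theorem dpl (hc : S_CHR) (hm : S_MOC) : ∀ B U : ℕ, ∃ Cm X₀ : ℕ, ∀ x : ℕ, X₀ ≤ x →
    ∀ (q : ℕ) (_ : NeZero q), (q : ℝ) ≤ Real.log x ^ B → ∀ (χ : DirichletCharacter ℂ q) (z D : ℕ),
    (z : ℝ) ≤ 2 * (x : ℝ) ^ (1 / 3 : ℝ) → (D : ℝ) ≤ 3 * Real.log x → ∀ T T1 T2 : ℝ,
    Real.log x ^ Cm ≤ T → T * Real.log x ^ Cm ≤ ((x : ℝ) ^ (1 / 3 : ℝ)) ^ 2 → T1 ≤ T2 → T2 - T1 ≤ T →
    (∀ τ ∈ Set.Icc T1 T2, T ≤ |τ| ∧ |τ| ≤ 2 * T) →
    ∫ τ in T1..T2, ‖Ax (gt χ τ) z D x‖ ^ 2 ≤ (x : ℝ) ^ 2 / Real.log x ^ U := by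
  intro B U
  obtain ⟨e0, he0⟩ : ∃ e0 : ℕ, e0 = 2 ^ 10 := ⟨_, rfl⟩
  obtain ⟨K, hK⟩ : ∃ K : ℕ, K = 1 + e0 + 10 + 12 + (U + 1) := ⟨_, rfl⟩
  obtain ⟨c', hc'⟩ : ∃ c' : ℝ, c' = 27 * 3 * 3 ^ 12 * (1024 * 128 * 8 ^ (1 + e0) * 3 ^ 10) := ⟨_, rfl⟩
  have hc'0 : 0 < c' := by rw [hc']; positivity
  obtain ⟨Cm, X₁, hfac⟩ := fac_good hc hm B K
  obtain ⟨X₂, hX₂⟩ := ev_natlog (P := fun l => c' ≤ l ∧ 3 ≤ l) (by
    filter_upwards [eventually_ge_atTop c', eventually_ge_atTop 3] with l h3 h4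
    exact ⟨h3, h4⟩)
  refine ⟨Cm, max (max X₁ X₂) 4096, ?_⟩
  intro x hx q hq hqx χ z D hz hD T T1 T2 hT1 hT2 hTT hTd hτ
  obtain ⟨g1, g2⟩ := hX₂ x ((le_max_right _ _).trans ((le_max_left _ _).trans hx))
  have hx4096 : 4096 ≤ x := (le_max_right _ _).trans hx
  have hx4096r : (4096 : ℝ) ≤ x := by exact_mod_cast hx4096
  have hx0 : (0 : ℝ) < x := by linarith
  have hfac' := hfac x ((le_max_left _ _).trans ((le_max_left _ _).trans hx)) q hq hqx χ z hz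
  obtain ⟨l, hl⟩ : ∃ l : ℝ, l = Real.log x := ⟨_, rfl⟩
  rw [← hl] at g1 g2 hD hT1 hT2 hfac' ⊢
  have hl0 : 0 < l := by linarith
  have hl1 : 1 ≤ l := by linarith
  have hT0 : 0 < T := lt_of_lt_of_le (by positivity) hT1
  -- one tuple
  have one : ∀ j : Fin 3, ∀ p ∈ PP D x,
      ∫ τ in T1..T2, ‖∏ i, Lg (gt χ τ) (2 ^ (p i + 1)) (pc (fac z (ty j i)) (p i))‖ ^ 2 ≤
      x ^ 2 / l ^ K * (1024 * 128 * 8 ^ (1 + e0) * 3 ^ 10 * (l ^ (1 + e0) * l ^ 10)) := by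
    intro j p hp
    obtain ⟨i0, hi0⟩ := exists_big hx4096 hp
    have hp' := hp
    unfold PP at hp'
    rw [mem_filter, Fintype.mem_piFinset] at hp'
    have hpD : ∀ i, p i < D := fun i => mem_range.1 (hp'.1 i)
    obtain ⟨M, hM⟩ : ∃ M : ℕ, M = 2 ^ (p i0) := ⟨_, rfl⟩
    have hM1 : 1 ≤ M := by rw [hM]; exact Nat.one_le_two_pow
    have hM0 : (0 : ℝ) < M := by exact_mod_cast hM1
    have hMx : (M : ℝ) ≤ 4 * x := by
      have h1 : M ≤ 4 * x := by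
        rw [hM]
        refine le_trans ?_ hp'.2.1
        exact Nat.pow_le_pow_right (by norm_num)
          (Finset.single_le_sum (f := p) (fun i _ => Nat.zero_le _) (mem_univ i0))
      exact_mod_cast h1
    obtain ⟨v, hv⟩ : ∃ v : ℝ, v = x / M := ⟨_, rfl⟩
    have hv0 : 0 < v := by rw [hv]; positivity
    obtain ⟨Z, hZ⟩ : ∃ Z : ℕ, Z = ∏ i ∈ univ.erase i0, 2 ^ (p i + 1) := ⟨_, rfl⟩
    have hZ1 : 1 ≤ Z := by
      rw [hZ]
      exact Finset.one_le_prod' fun i _ => Nat.one_le_two_pow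
    have hZ1r : (1 : ℝ) ≤ Z := by exact_mod_cast hZ1
    have hZM : 2 * M * Z ≤ 256 * x := by
      have h1 : 2 ^ (p i0 + 1) * Z = ∏ i : Fin 6, 2 ^ (p i + 1) := by
        rw [hZ, Finset.mul_prod_erase univ (fun i => 2 ^ (p i + 1)) (mem_univ i0)]
      have h2 : ∏ i : Fin 6, 2 ^ (p i + 1) = 64 * 2 ^ (∑ i, p i) := by
        rw [Finset.prod_pow_eq_pow_sum, Finset.sum_add_distrib]
        simp only [sum_const, card_univ, Fintype.card_fin, smul_eq_mul]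
        ring
      have h3 : 2 ^ (p i0 + 1) = 2 * M := by rw [hM]; ring
      rw [← h3, h1, h2]
      omega
    have hZMr : 2 * (M : ℝ) * Z ≤ 256 * x := by exact_mod_cast hZM
    have hZv : (Z : ℝ) ≤ 128 * v := by
      rw [hv, ← mul_div_assoc, le_div_iff₀ hM0]
      linarith
    have hZx : (Z : ℝ) ≤ 256 * x := by
      have h1 : (1 : ℝ) ≤ M := by exact_mod_cast hM1
      calc (Z : ℝ) = 1 * Z := (one_mul _).symm
        _ ≤ 2 * M * Z := mul_le_mul_of_nonneg_right (by linarith) (by linarith)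
        _ ≤ 256 * x := hZMr
    have hlogZ : 1 + Real.log Z ≤ 8 * l := by
      have h1 : Real.log Z ≤ Real.log (256 * x) := Real.log_le_log (by linarith) hZx
      rw [Real.log_mul (by norm_num) hx0.ne', ← hl] at h1
      have h6 : Real.log 256 = 8 * Real.log 2 := by
        rw [show (256 : ℝ) = 2 ^ 8 by norm_num, Real.log_pow]
        norm_num
      have := Real.log_two_lt_d9
      linarith
    have hlogZ0 : 0 ≤ Real.log Z := Real.log_natCast_nonneg Z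
    obtain ⟨S, hS⟩ : ∃ S : ℝ, S = x ^ 2 / l ^ K / ((T + v) * v) := ⟨_, rfl⟩
    have hS0 : 0 ≤ S := by rw [hS]; positivity
    have hgood : ∀ τ ∈ Set.Icc T1 T2,
        ‖Lg (gt χ τ) (2 ^ (p i0 + 1)) (pc (fac z (ty j i0)) (p i0))‖ ^ 2 ≤ S := by
      intro τ hτm
      obtain ⟨a1, a2⟩ := hτ τ hτm
      have h1 := hfac' (ty j i0) (p i0) (by rw [← hM]; rw [← hM] at hi0; exact_mod_cast hi0)
        (by rw [← hM]; exact hMx) T τ hT1 hT2 a1 a2
      rw [← hM, ← hv] at h1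
      rw [hS, le_div_iff₀ (by positivity)]
      exact h1
    have h1 := tup_mv χ (fun i => pc (fac z (ty j i)) (p i)) (fun i => 2 ^ (p i + 1))
      (fun i => pc_sup _ _) (fun i => Nat.one_le_two_pow) (W := D) (S := S) (Nat.cast_nonneg D)
      (fun i m => pc_bd (ty j i) (hpD i) m) i0 hTT hgood Z hZ e0 he0
    refine h1.trans ?_
    have h2 : T2 - T1 + 8 * Z * (1 + Real.log Z) ≤ 1024 * (1 + Real.log Z) * (T + v) := by
      have h3 : 8 * Z * (1 + Real.log Z) ≤ 8 * (128 * v) * (1 + Real.log Z) := by gcongr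
      have h4 : T2 - T1 ≤ 1024 * (1 + Real.log Z) * T := by
        calc T2 - T1 ≤ 1 * T := by linarith
          _ ≤ 1024 * (1 + Real.log Z) * T := mul_le_mul_of_nonneg_right (by linarith) hT0.le
      calc _ ≤ 1024 * (1 + Real.log Z) * T + 8 * (128 * v) * (1 + Real.log Z) := add_le_add h4 h3
        _ = _ := by ring
    have hlZ1 : 1 ≤ 1 + Real.log Z := by linarith
    calc S * ((T2 - T1 + 8 * Z * (1 + Real.log Z)) *
          ((D : ℝ) ^ 10 * (Z * (1 + Real.log Z) ^ e0)))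
        ≤ S * ((1024 * (1 + Real.log Z) * (T + v)) *
          ((3 * l) ^ 10 * ((128 * v) * (1 + Real.log Z) ^ e0))) := by
          apply mul_le_mul_of_nonneg_left _ hS0
          apply mul_le_mul h2 _ (by positivity) (by positivity)
          apply mul_le_mul (pow_le_pow_left₀ (Nat.cast_nonneg D) hD 10) _ (by positivity) (by positivity)
          exact mul_le_mul_of_nonneg_right hZv (by positivity)
      _ = (S * ((T + v) * v)) * (1024 * 128 * (1 + Real.log Z) ^ (1 + e0) * (3 * l) ^ 10) := by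
          have e : (1 + Real.log Z) ^ (1 + e0) = (1 + Real.log Z) * (1 + Real.log Z) ^ e0 :=
            by rw [pow_add, pow_one]
          rw [e]
          ring
      _ = (x ^ 2 / l ^ K) * (1024 * 128 * (1 + Real.log Z) ^ (1 + e0) * (3 * l) ^ 10) := by
          rw [hS, div_mul_cancel₀]
          positivity
      _ ≤ (x ^ 2 / l ^ K) * (1024 * 128 * (8 * l) ^ (1 + e0) * (3 * l) ^ 10) := by
          gcongr
      _ = _ := by
          rw [mul_pow, mul_pow]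
          ring
  -- the sum over the tuples
  have hcont : ∀ k : Fin 3 × (Fin 6 → ℕ), Continuous fun τ : ℝ =>
      ‖((cj k.1 : ℝ) : ℂ) * ∏ i, Lg (gt χ τ) (2 ^ (k.2 i + 1)) (pc (fac z (ty k.1 i)) (k.2 i))‖ ^ 2 := by
    intro k
    exact (continuous_const.mul (continuous_finsetProd _ fun i _ => cont_Lg χ _ _)).norm.pow 2
  obtain ⟨s, hs⟩ : ∃ s : Finset (Fin 3 × (Fin 6 → ℕ)), s = univ ×ˢ PP D x := ⟨_, rfl⟩
  have hAx : ∀ τ : ℝ, Ax (gt χ τ) z D x = ∑ k ∈ s,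
      ((cj k.1 : ℝ) : ℂ) * ∏ i, Lg (gt χ τ) (2 ^ (k.2 i + 1)) (pc (fac z (ty k.1 i)) (k.2 i)) := by
    intro τ
    rw [Ax_eq (gt_mul χ τ) (gt_one χ τ), hs, Finset.sum_product]
  have hscard : (s.card : ℝ) ≤ 3 * (3 * l) ^ 6 := by
    rw [hs, card_product]
    have h1 := card_PP D x
    have h2 : ((PP D x).card : ℝ) ≤ (D : ℝ) ^ 6 := by exact_mod_cast h1
    have h3 : (D : ℝ) ^ 6 ≤ (3 * l) ^ 6 := pow_le_pow_left₀ (Nat.cast_nonneg D) hD 6
    simp only [card_univ, Fintype.card_fin]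
    push_cast
    linarith
  have hAxc : Continuous fun τ : ℝ => ‖Ax (gt χ τ) z D x‖ ^ 2 := by
    simp_rw [hAx]
    apply Continuous.pow
    apply Continuous.norm
    apply continuous_finsetSum
    intro k _
    exact continuous_const.mul (continuous_finsetProd _ fun i _ => cont_Lg χ _ _)
  have hcs : ∀ τ : ℝ, ‖Ax (gt χ τ) z D x‖ ^ 2 ≤ (s.card : ℝ) * ∑ k ∈ s,
      ‖((cj k.1 : ℝ) : ℂ) * ∏ i, Lg (gt χ τ) (2 ^ (k.2 i + 1)) (pc (fac z (ty k.1 i)) (k.2 i))‖ ^ 2 := by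
    intro τ
    rw [hAx]
    refine le_trans (pow_le_pow_left₀ (norm_nonneg _) (norm_sum_le _ _) 2) ?_
    exact sq_sum_le_card_mul_sum_sq
  have hcont2 : Continuous fun τ : ℝ => (s.card : ℝ) * ∑ k ∈ s,
      ‖((cj k.1 : ℝ) : ℂ) * ∏ i, Lg (gt χ τ) (2 ^ (k.2 i + 1)) (pc (fac z (ty k.1 i)) (k.2 i))‖ ^ 2 :=
    continuous_const.mul (continuous_finsetSum _ fun k _ => hcont k)
  refine (intervalIntegral.integral_mono_on hTT (hAxc.intervalIntegrable _ _)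
    (hcont2.intervalIntegrable _ _) (fun τ _ => hcs τ)).trans ?_
  rw [intervalIntegral.integral_const_mul, intervalIntegral.integral_finset_sum
    (fun k _ => (hcont k).intervalIntegrable _ _)]
  obtain ⟨I, hI⟩ : ∃ I : ℝ, I = x ^ 2 / l ^ K *
    (1024 * 128 * 8 ^ (1 + e0) * 3 ^ 10 * (l ^ (1 + e0) * l ^ 10)) := ⟨_, rfl⟩
  have hI0 : 0 ≤ I := by rw [hI]; positivity
  have hterm : ∀ k ∈ s, ∫ τ in T1..T2, ‖((cj k.1 : ℝ) : ℂ) *
      ∏ i, Lg (gt χ τ) (2 ^ (k.2 i + 1)) (pc (fac z (ty k.1 i)) (k.2 i))‖ ^ 2 ≤ 9 * I := by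
    intro k hk
    rw [hs, mem_product] at hk
    have h1 := one k.1 k.2 hk.2
    rw [← hI] at h1
    have h2 : ∀ τ : ℝ, ‖((cj k.1 : ℝ) : ℂ) *
        ∏ i, Lg (gt χ τ) (2 ^ (k.2 i + 1)) (pc (fac z (ty k.1 i)) (k.2 i))‖ ^ 2 = (cj k.1) ^ 2 *
        ‖∏ i, Lg (gt χ τ) (2 ^ (k.2 i + 1)) (pc (fac z (ty k.1 i)) (k.2 i))‖ ^ 2 := by
      intro τ
      rw [norm_mul, mul_pow, Complex.norm_real, Real.norm_eq_abs, sq_abs]
    simp_rw [h2]
    rw [intervalIntegral.integral_const_mul]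
    have h3 : (cj k.1) ^ 2 ≤ 9 := by
      have ht : k.1 = 0 ∨ k.1 = 1 ∨ k.1 = 2 := by
        obtain ⟨k1, k2⟩ := k
        fin_cases k1 <;> simp
      rcases ht with h | h | h <;> rw [h] <;> simp [cj] <;> norm_num
    have h4 : 0 ≤ ∫ τ in T1..T2,
        ‖∏ i, Lg (gt χ τ) (2 ^ (k.2 i + 1)) (pc (fac z (ty k.1 i)) (k.2 i))‖ ^ 2 :=
      intervalIntegral.integral_nonneg hTT fun _ _ => by positivity
    calc _ ≤ 9 * ∫ τ in T1..T2,
        ‖∏ i, Lg (gt χ τ) (2 ^ (k.2 i + 1)) (pc (fac z (ty k.1 i)) (k.2 i))‖ ^ 2 :=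
          mul_le_mul_of_nonneg_right h3 h4
      _ ≤ 9 * I := by linarith
  calc (s.card : ℝ) * ∑ k ∈ s, ∫ τ in T1..T2, ‖((cj k.1 : ℝ) : ℂ) *
      ∏ i, Lg (gt χ τ) (2 ^ (k.2 i + 1)) (pc (fac z (ty k.1 i)) (k.2 i))‖ ^ 2
      ≤ (s.card : ℝ) * ∑ _k ∈ s, 9 * I := by
        apply mul_le_mul_of_nonneg_left (Finset.sum_le_sum hterm) (Nat.cast_nonneg _)
    _ = (s.card : ℝ) ^ 2 * (9 * I) := by
        rw [Finset.sum_const, nsmul_eq_mul]
        ring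
    _ ≤ (3 * (3 * l) ^ 6) ^ 2 * (9 * I) := by
        apply mul_le_mul_of_nonneg_right _ (by positivity)
        exact pow_le_pow_left₀ (Nat.cast_nonneg _) hscard 2
    _ = c' * (l ^ (1 + e0) * l ^ 10 * l ^ 12 * (x ^ 2 / l ^ K)) := by
        rw [hI, hc']
        ring
    _ ≤ l * (l ^ (1 + e0) * l ^ 10 * l ^ 12 * (x ^ 2 / l ^ K)) := by
        apply mul_le_mul_of_nonneg_right g1 (by positivity)
    _ = x ^ 2 / l ^ U := by
        rw [hK, pow_add l (1 + e0 + 10 + 12), pow_add l (1 + e0 + 10), pow_add l (1 + e0),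
          pow_succ l U]
        field_simp

end Pool.Agent.K9h19.CR
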