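import Pool.Agent.Q236.CR.Stm
import Pool.Agent.Q53.CR.SHB
import Pool.Agent.N782.GN.Defs
import Pool.Agent.H370R2.DirGood

/-!
# Project CR, job LUP, first part: twisted sums of Dirichlet characters
-/

set_option autoImplicit false

namespace Pool.Agent.K9h19.CR

open Finset Pool.Agent.Q236.CR
open Pool.Agent.N782.GN (ds)
open Pool.Agent.Q53.CR (norm_nt)

/-- the inequalities between the parameters -/
theorem params (C B : ℕ) (C₂ c : ℝ) (hC₂ : 0 < C₂) (hc : 0 < c) : ∃ X₀ : ℝ, 2 ≤ X₀ ∧ ∀ x : ℝ, X₀ ≤ x →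
    1 / x ^ 4 ≤ c / (1 + 8 * x) ^ 2 / 2 ∧
    C₂ * x ^ (8 * (C + 4) * B) * Real.exp (C * (1 + 8 * x) ^ C) ≤ Real.exp (x ^ (8 * (C + 4) - 5)) := by
  refine ⟨1000 / c + C₂ + C * 9 ^ C + (8 * (C + 4) * B : ℕ) + 1000, ?_, ?_⟩
  · have : (0 : ℝ) ≤ C * 9 ^ C := by positivity
    have : (0 : ℝ) ≤ ((8 * (C + 4) * B : ℕ) : ℝ) := by positivity
    have : (0 : ℝ) ≤ 1000 / c := by positivity
    linarith
  intro x hx
  have h1 : (0 : ℝ) ≤ C * 9 ^ C := by positivity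
  have h2 : (0 : ℝ) ≤ ((8 * (C + 4) * B : ℕ) : ℝ) := by positivity
  have h3 : (0 : ℝ) ≤ 1000 / c := by positivity
  have hx8 : (1000 : ℝ) / c ≤ x := by linarith
  have hx1 : (1 : ℝ) ≤ x := by linarith
  have hx0 : (0 : ℝ) < x := by linarith
  refine ⟨?_, ?_⟩
  · have h3 : (1 + 8 * x) ^ 2 ≤ 81 * x ^ 2 := by nlinarith
    have h4 : (1000 : ℝ) ≤ c * x ^ 2 := by
      rw [div_le_iff₀ hc] at hx8
      nlinarith
    rw [div_div, div_le_div_iff₀ (by positivity) (by positivity)]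
    calc 1 * ((1 + 8 * x) ^ 2 * 2) ≤ 162 * x ^ 2 := by linarith
      _ ≤ (c * x ^ 2) * x ^ 2 := by nlinarith [sq_nonneg x]
      _ = c * x ^ 4 := by ring
  · have e1 : C₂ ≤ Real.exp C₂ := by linarith [Real.add_one_le_exp C₂]
    have e2 : x ^ (8 * (C + 4) * B) ≤ Real.exp (((8 * (C + 4) * B : ℕ) : ℝ) * x) := by
      rw [Real.exp_nat_mul]
      apply pow_le_pow_left₀ hx0.le
      linarith [Real.add_one_le_exp x]
    calc C₂ * x ^ (8 * (C + 4) * B) * Real.exp (C * (1 + 8 * x) ^ C)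
        ≤ Real.exp C₂ * Real.exp (((8 * (C + 4) * B : ℕ) : ℝ) * x) * Real.exp (C * (1 + 8 * x) ^ C) := by
          gcongr
      _ = Real.exp (C₂ + ((8 * (C + 4) * B : ℕ) : ℝ) * x + C * (1 + 8 * x) ^ C) := by
          rw [Real.exp_add, Real.exp_add]
      _ ≤ Real.exp (x ^ (8 * (C + 4) - 5)) := by
          apply Real.exp_le_exp.2
          have h3 : (1 + 8 * x) ^ C ≤ 9 ^ C * x ^ C := by
            rw [← mul_pow]
            exact pow_le_pow_left₀ (by positivity) (by linarith) _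
          have h4 : (1 : ℝ) ≤ x ^ C := one_le_pow₀ hx1
          have h5 : x ^ C ≤ x ^ (C + 1) := pow_le_pow_right₀ hx1 (by omega)
          have h6 : x ≤ x ^ (C + 1) := by
            calc x = x ^ 1 := (pow_one x).symm
              _ ≤ x ^ (C + 1) := pow_le_pow_right₀ hx1 (by omega)
          have h7 : 1 ≤ x ^ (C + 1) := one_le_pow₀ hx1
          calc C₂ + ((8 * (C + 4) * B : ℕ) : ℝ) * x + C * (1 + 8 * x) ^ C
              ≤ C₂ * x ^ (C + 1) + ((8 * (C + 4) * B : ℕ) : ℝ) * x ^ (C + 1) +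
                C * (9 ^ C * x ^ (C + 1)) := by
                apply add_le_add (add_le_add _ _) _
                · exact le_mul_of_one_le_right hC₂.le h7
                · exact mul_le_mul_of_nonneg_left h6 h2
                · apply mul_le_mul_of_nonneg_left _ (Nat.cast_nonneg C)
                  exact h3.trans (mul_le_mul_of_nonneg_left h5 (by positivity))
            _ = (C₂ + ((8 * (C + 4) * B : ℕ) : ℝ) + C * 9 ^ C) * x ^ (C + 1) := by ring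
            _ ≤ x * x ^ (C + 1) := by
                apply mul_le_mul_of_nonneg_right _ (by positivity)
                linarith
            _ = x ^ (C + 2) := by ring
            _ ≤ x ^ (8 * (C + 4) - 5) := pow_le_pow_right₀ hx1 (by omega)

/-- one block -/
theorem blk {C : ℕ} {c C₂ : ℝ} (hc0 : 0 < c) (hc1 : c ≤ 1 / 10) (hC₂ : 1 ≤ C₂)
    (h1 : ∀ (q : ℕ) (_ : NeZero q) (χ : DirichletCharacter ℂ q)
      (N N' : ℕ) (t κ : ℝ), 2 ≤ N → N ≤ N' → N' ≤ 2 * N → 1 ≤ κ → |t| = (N : ℝ) ^ κ →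
      ‖∑ n ∈ Finset.Ioc N N', χ (n : ZMod q) * nt t n‖ ≤
        q * (Real.exp (C * (1 + κ) ^ C) * (N : ℝ) ^ (1 - c / (1 + κ) ^ 2 : ℝ)))
    (h2 : ∀ (q : ℕ) (_ : NeZero q) (χ : DirichletCharacter ℂ q)
      (N N' : ℕ) (t : ℝ), 1 ≤ N → N ≤ N' → N' ≤ 2 * N → 1 ≤ |t| →
      ‖∑ n ∈ Finset.Ioc N N', χ (n : ZMod q) * nt t n‖ ≤ q * (C₂ * (√|t| + N / √|t|) * (1 + Real.log N)))
    {q : ℕ} [NeZero q] (χ : DirichletCharacter ℂ q) {N N' : ℕ} {t K : ℝ} (hN : 3 ≤ N) (hNN : N ≤ N')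
    (hN2 : N' ≤ 2 * N) (hK : 1 ≤ K) (ht1 : √N ≤ |t|) (htK : Real.log |t| ≤ K * Real.log N) :
    ‖∑ n ∈ Finset.Ioc N N', χ (n : ZMod q) * nt t n‖ ≤
      18 * C₂ * q * Real.exp (C * (1 + K) ^ C) * (N : ℝ) ^ (1 - c / (1 + K) ^ 2 : ℝ) := by
  have hNr : (3 : ℝ) ≤ N := by exact_mod_cast hN
  have hN0 : (0 : ℝ) < N := by linarith
  have hN1 : (1 : ℝ) ≤ N := by linarith
  have hq0 : (0 : ℝ) ≤ q := Nat.cast_nonneg q
  have hlogN : 0 < Real.log N := Real.log_pos (by linarith)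
  have hsN : 1 ≤ √(N : ℝ) := by rw [Real.one_le_sqrt]; exact hN1
  have ht0 : 0 < |t| := by linarith
  have hE1 : 1 ≤ Real.exp (C * (1 + K) ^ C) := Real.one_le_exp (by positivity)
  have hη : c / (1 + K) ^ 2 ≤ 1 / 40 := by
    rw [div_le_iff₀ (by positivity)]
    nlinarith
  rcases le_or_gt (N : ℝ) |t| with hc | hc
  · have hκ1 : 1 ≤ Real.log |t| / Real.log N := by
      rw [le_div_iff₀ hlogN, one_mul]
      exact Real.log_le_log hN0 hc
    have hκK : Real.log |t| / Real.log N ≤ K := by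
      rw [div_le_iff₀ hlogN]
      exact htK
    have hκ : |t| = (N : ℝ) ^ (Real.log |t| / Real.log N) := by
      rw [Real.rpow_def_of_pos hN0, mul_div_cancel₀ _ hlogN.ne', Real.exp_log ht0]
    set κ := Real.log |t| / Real.log N with hκd
    have h3 := h1 q inferInstance χ N N' t κ (by omega) hNN hN2 hκ1 hκ
    refine h3.trans ?_
    have h4 : Real.exp (C * (1 + κ) ^ C) ≤ Real.exp (C * (1 + K) ^ C) := by
      apply Real.exp_le_exp.2
      apply mul_le_mul_of_nonneg_left _ (Nat.cast_nonneg C)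
      exact pow_le_pow_left₀ (by linarith) (by linarith) _
    have h5 : (N : ℝ) ^ (1 - c / (1 + κ) ^ 2 : ℝ) ≤ (N : ℝ) ^ (1 - c / (1 + K) ^ 2 : ℝ) := by
      apply Real.rpow_le_rpow_of_exponent_le hN1
      have : c / (1 + K) ^ 2 ≤ c / (1 + κ) ^ 2 := by
        apply div_le_div_of_nonneg_left hc0.le (by positivity)
        exact pow_le_pow_left₀ (by linarith) (by linarith) _
      linarith
    calc (q : ℝ) * (Real.exp (C * (1 + κ) ^ C) * (N : ℝ) ^ (1 - c / (1 + κ) ^ 2 : ℝ))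
        ≤ q * (Real.exp (C * (1 + K) ^ C) * (N : ℝ) ^ (1 - c / (1 + K) ^ 2 : ℝ)) := by gcongr
      _ = 1 * (q * Real.exp (C * (1 + K) ^ C) * (N : ℝ) ^ (1 - c / (1 + K) ^ 2 : ℝ)) := by ring
      _ ≤ (18 * C₂) * (q * Real.exp (C * (1 + K) ^ C) * (N : ℝ) ^ (1 - c / (1 + K) ^ 2 : ℝ)) := by
          apply mul_le_mul_of_nonneg_right _ (by positivity)
          linarith
      _ = _ := by ring
  · have h3 := h2 q inferInstance χ N N' t (by omega) hNN hN2 (by linarith)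
    refine h3.trans ?_
    have h4 : √|t| ≤ (N : ℝ) ^ (1 / 2 : ℝ) := by
      rw [← Real.sqrt_eq_rpow]
      exact Real.sqrt_le_sqrt hc.le
    have h5 : (N : ℝ) ^ (1 / 4 : ℝ) ≤ √|t| := by
      have e : (N : ℝ) ^ (1 / 4 : ℝ) = √(√(N : ℝ)) := by
        rw [Real.sqrt_eq_rpow, Real.sqrt_eq_rpow, ← Real.rpow_mul hN0.le]
        norm_num
      rw [e]
      exact Real.sqrt_le_sqrt ht1
    have h6 : N / √|t| ≤ (N : ℝ) ^ (3 / 4 : ℝ) := by
      rw [div_le_iff₀ (by positivity)]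
      calc (N : ℝ) = (N : ℝ) ^ (3 / 4 : ℝ) * (N : ℝ) ^ (1 / 4 : ℝ) := by
            rw [← Real.rpow_add hN0]
            norm_num
        _ ≤ _ := mul_le_mul_of_nonneg_left h5 (by positivity)
    have h7 : (N : ℝ) ^ (1 / 2 : ℝ) ≤ (N : ℝ) ^ (3 / 4 : ℝ) :=
      Real.rpow_le_rpow_of_exponent_le hN1 (by norm_num)
    have h8 : 1 + Real.log N ≤ 9 * (N : ℝ) ^ (1 / 8 : ℝ) := by
      have h9 := Real.log_le_rpow_div hN0.le (show (0 : ℝ) < 1 / 8 by norm_num)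
      have h10 : 1 ≤ (N : ℝ) ^ (1 / 8 : ℝ) := Real.one_le_rpow hN1 (by norm_num)
      have h11 : (N : ℝ) ^ (1 / 8 : ℝ) / (1 / 8) = 8 * (N : ℝ) ^ (1 / 8 : ℝ) := by ring
      linarith
    have h9 : (N : ℝ) ^ (7 / 8 : ℝ) ≤ (N : ℝ) ^ (1 - c / (1 + K) ^ 2 : ℝ) :=
      Real.rpow_le_rpow_of_exponent_le hN1 (by linarith)
    calc (q : ℝ) * (C₂ * (√|t| + N / √|t|) * (1 + Real.log N))
        ≤ q * (C₂ * ((N : ℝ) ^ (3 / 4 : ℝ) + (N : ℝ) ^ (3 / 4 : ℝ)) * (9 * (N : ℝ) ^ (1 / 8 : ℝ))) := by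
          gcongr
          exact h4.trans h7
      _ = 18 * C₂ * q * 1 * ((N : ℝ) ^ (3 / 4 : ℝ) * (N : ℝ) ^ (1 / 8 : ℝ)) := by ring
      _ = 18 * C₂ * q * 1 * (N : ℝ) ^ (7 / 8 : ℝ) := by
          rw [← Real.rpow_add hN0]
          norm_num
      _ ≤ _ := by gcongr

/-- dyadic summation -/
theorem dyad {f : ℕ → ℂ} {M0 n0 : ℕ} {D η : ℝ} (hM : 3 ≤ M0) (hη0 : 0 ≤ η) (hη1 : η ≤ 1 / 8)
    (hD : 0 ≤ D) (hf : ∀ n, 1 ≤ n → ‖f n‖ ≤ 1)
    (hb : ∀ N N' : ℕ, M0 ≤ N → N ≤ N' → N' ≤ 2 * N → N' ≤ n0 →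
      ‖∑ n ∈ Ioc N N', f n‖ ≤ D * (N : ℝ) ^ (1 - η)) :
    ∀ n ≤ n0, ‖∑ k ∈ Icc 1 n, f k‖ ≤ 2 * M0 + 4 * D * (n : ℝ) ^ (1 - η) := by
  intro n
  induction n using Nat.strong_induction_on with
  | _ n ih =>
    intro hn
    have hnp : (0 : ℝ) ≤ (n : ℝ) ^ (1 - η) := by positivity
    by_cases hc : n ≤ 2 * M0
    · have h1 : ‖∑ k ∈ Icc 1 n, f k‖ ≤ n := by
        refine (norm_sum_le _ _).trans ?_
        refine (Finset.sum_le_sum (g := fun _ => (1 : ℝ)) fun k hk =>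
          hf k (Finset.mem_Icc.1 hk).1).trans ?_
        simp
      have h2 : (n : ℝ) ≤ 2 * M0 := by exact_mod_cast hc
      have h3 : 0 ≤ 4 * D * (n : ℝ) ^ (1 - η) := by positivity
      linarith
    · push Not at hc
      obtain ⟨N, hN⟩ : ∃ N : ℕ, N = (n + 1) / 2 := ⟨_, rfl⟩
      have hN1 : M0 ≤ N := by omega
      have hN2 : N < n := by omega
      have hN3 : n ≤ 2 * N := by omega
      have h1 := ih N hN2 (by omega)
      have h2 := hb N n hN1 hN2.le hN3 hn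
      have h3 : ∑ k ∈ Icc 1 n, f k = ∑ k ∈ Icc 1 N, f k + ∑ k ∈ Ioc N n, f k := by
        have e : ∀ m : ℕ, Icc 1 m = Ioc 0 m := fun m => by ext k; simp [Nat.succ_le_iff]
        rw [e, e, Finset.sum_Ioc_consecutive _ (Nat.zero_le _) hN2.le]
      have h4 : 5 * (N : ℝ) ^ (1 - η) ≤ 4 * (n : ℝ) ^ (1 - η) := by
        have h5 : (N : ℝ) ≤ 2 / 3 * n := by
          have h6 : 3 * N ≤ 2 * n := by omega
          have h7 : (3 * N : ℝ) ≤ 2 * n := by exact_mod_cast h6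
          linarith
        have h6 : (N : ℝ) ^ (1 - η) ≤ (2 / 3 : ℝ) ^ (1 - η) * (n : ℝ) ^ (1 - η) := by
          rw [← Real.mul_rpow (by norm_num) (Nat.cast_nonneg n)]
          exact Real.rpow_le_rpow (Nat.cast_nonneg N) h5 (by linarith)
        have h7 : (2 / 3 : ℝ) ^ (1 - η) ≤ 4 / 5 := by
          calc (2 / 3 : ℝ) ^ (1 - η) ≤ (2 / 3 : ℝ) ^ (7 / 8 : ℝ) :=
                Real.rpow_le_rpow_of_exponent_ge (by norm_num) (by norm_num) (by linarith)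
            _ ≤ 4 / 5 := by
                have e : ((2 / 3 : ℝ) ^ (7 / 8 : ℝ)) ^ 8 ≤ (4 / 5 : ℝ) ^ 8 := by
                  rw [← Real.rpow_natCast, ← Real.rpow_mul (by norm_num)]
                  norm_num
                exact (pow_le_pow_iff_left₀ (by positivity) (by norm_num) (by norm_num)).1 e
        calc 5 * (N : ℝ) ^ (1 - η) ≤ 5 * ((2 / 3 : ℝ) ^ (1 - η) * (n : ℝ) ^ (1 - η)) := by linarith
          _ ≤ 5 * (4 / 5 * (n : ℝ) ^ (1 - η)) := by gcongr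
          _ = _ := by ring
      rw [h3]
      refine (norm_add_le _ _).trans ?_
      have h5 : 5 * D * (N : ℝ) ^ (1 - η) ≤ 4 * D * (n : ℝ) ^ (1 - η) := by
        calc 5 * D * (N : ℝ) ^ (1 - η) = D * (5 * (N : ℝ) ^ (1 - η)) := by ring
          _ ≤ D * (4 * (n : ℝ) ^ (1 - η)) := mul_le_mul_of_nonneg_left h4 hD
          _ = _ := by ring
      linarith

theorem nt_diff (t : ℝ) {n : ℕ} (hn : 1 ≤ n) :
    ‖nt t n - nt t (n + 1)‖ ≤ |t| * (Real.log (n + 1 : ℕ) - Real.log n) := by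
  have e : ∀ m : ℕ, 1 ≤ m → nt t m = Complex.exp (((-(t * Real.log m) : ℝ) : ℂ) * Complex.I) := by
    intro m hm
    have hm0 : (m : ℂ) ≠ 0 := by exact_mod_cast (by omega : m ≠ 0)
    unfold nt
    rw [Complex.cpow_def_of_ne_zero hm0, ← Complex.natCast_log]
    congr 1
    push_cast
    ring
  rw [e n hn, e (n + 1) (by omega)]
  have h1 : Complex.exp (((-(t * Real.log n) : ℝ) : ℂ) * Complex.I) -
      Complex.exp (((-(t * Real.log (n + 1 : ℕ)) : ℝ) : ℂ) * Complex.I) =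
      Complex.exp (((-(t * Real.log (n + 1 : ℕ)) : ℝ) : ℂ) * Complex.I) *
        (Complex.exp (Complex.I * ((t * (Real.log (n + 1 : ℕ) - Real.log n) : ℝ) : ℂ)) - 1) := by
    rw [mul_sub, mul_one, ← Complex.exp_add]
    congr 2
    push_cast
    ring
  rw [h1, norm_mul, Complex.norm_exp_ofReal_mul_I, one_mul]
  refine (Real.norm_exp_I_mul_ofReal_sub_one_le).trans ?_
  rw [Real.norm_eq_abs, abs_mul]
  have hn0 : (0 : ℝ) < n := by exact_mod_cast hn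
  have h2 : 0 ≤ Real.log (n + 1 : ℕ) - Real.log n := by
    have := Real.log_le_log hn0 (show (n : ℝ) ≤ (n + 1 : ℕ) by push_cast; linarith)
    linarith
  rw [abs_of_nonneg h2]

/-- summation by parts -/
theorem parts {f : ℕ → ℂ} {A : ℝ} (hf : ∀ n : ℕ, ‖∑ k ∈ Icc 1 n, f k‖ ≤ A) (t : ℝ) :
    ∀ n : ℕ, 1 ≤ n → ‖∑ k ∈ Icc 1 n, f k * nt t k - (∑ k ∈ Icc 1 n, f k) * nt t n‖ ≤
      A * (|t| * Real.log n) := by
  intro n hn
  induction n, hn using Nat.le_induction with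
  | base => simp
  | succ n hn ih =>
    have h1 : ∑ k ∈ Icc 1 (n + 1), f k * nt t k - (∑ k ∈ Icc 1 (n + 1), f k) * nt t (n + 1) =
        (∑ k ∈ Icc 1 n, f k * nt t k - (∑ k ∈ Icc 1 n, f k) * nt t n) +
          (∑ k ∈ Icc 1 n, f k) * (nt t n - nt t (n + 1)) := by
      rw [Finset.sum_Icc_succ_top (by omega), Finset.sum_Icc_succ_top (by omega)]
      ring
    rw [h1]
    refine (norm_add_le _ _).trans ?_
    rw [norm_mul]
    have h2 := nt_diff t hn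
    have hA : 0 ≤ A := (norm_nonneg _).trans (hf 0)
    calc _ ≤ A * (|t| * Real.log n) + A * (|t| * (Real.log (n + 1 : ℕ) - Real.log n)) := by
          apply add_le_add ih
          exact mul_le_mul (hf n) h2 (norm_nonneg _) hA
      _ = _ := by ring

theorem parts' {f : ℕ → ℂ} {A : ℝ} (hf : ∀ n : ℕ, ‖∑ k ∈ Icc 1 n, f k‖ ≤ A) (t : ℝ) {n : ℕ}
    (hn : 1 ≤ n) : ‖∑ k ∈ Icc 1 n, f k * nt t k‖ ≤ A * (1 + |t| * Real.log n) := by
  have h1 := parts hf t n hn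
  have h2 : ‖(∑ k ∈ Icc 1 n, f k) * nt t n‖ ≤ A := by
    rw [norm_mul, norm_nt t n hn, mul_one]
    exact hf n
  calc ‖∑ k ∈ Icc 1 n, f k * nt t k‖ = ‖(∑ k ∈ Icc 1 n, f k * nt t k - (∑ k ∈ Icc 1 n, f k) * nt t n) +
        (∑ k ∈ Icc 1 n, f k) * nt t n‖ := by rw [sub_add_cancel]
    _ ≤ _ := norm_add_le _ _
    _ ≤ A * (|t| * Real.log n) + A := add_le_add h1 h2
    _ = _ := by ring

/-- twisted sums of a nonprincipal character to a small modulus -/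
theorem ec (h : S_CHR) : ∀ B : ℕ, ∃ a b T₀ : ℝ, 0 < a ∧ a < b ∧ b < 1 ∧ 3 ≤ T₀ ∧
    ∀ (T Y t : ℝ) (q : ℕ) (_ : NeZero q) (χ : DirichletCharacter ℂ q), T₀ ≤ T →
    Real.exp ((Real.log T) ^ b) ≤ Y → |t| ≤ T → (q : ℝ) ≤ (Real.log T) ^ B → χ ≠ 1 →
    ‖∑ n ∈ Icc 1 ⌊Y⌋₊, χ (n : ZMod q) * nt t n‖ ≤ Y ^ (1 - (Real.log T) ^ (-a)) := by
  intro B
  obtain ⟨⟨C, c, hc0, hc1, h1⟩, ⟨C₂, hC₂, h2⟩⟩ := h
  obtain ⟨X₀, hX₀, hpar⟩ := params C B (100 * C₂) c (by positivity) hc0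
  set m : ℕ := 8 * (C + 4) with hm
  have hm32 : 32 ≤ m := by omega
  have hm0 : m ≠ 0 := by omega
  have hmR : (32 : ℝ) ≤ (m : ℝ) := by exact_mod_cast hm32
  have hmpos : (0 : ℝ) < (m : ℝ) := by linarith
  refine ⟨4 / m, 1 - 1 / m, Real.exp (X₀ ^ m), by positivity, ?_, ?_, ?_, ?_⟩
  · have : 5 / (m : ℝ) < 1 := by
      rw [div_lt_one hmpos]
      linarith
    have e : (5 : ℝ) / m = 4 / m + 1 / m := by ring
    linarith
  · have : 0 < 1 / (m : ℝ) := by positivity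
    linarith
  · have h3 : (2 : ℝ) ≤ X₀ ^ m := by
      calc (2 : ℝ) ≤ X₀ := hX₀
        _ = X₀ ^ 1 := (pow_one _).symm
        _ ≤ X₀ ^ m := pow_le_pow_right₀ (by linarith) (by omega)
    linarith [Real.add_one_le_exp (X₀ ^ m)]
  intro T Y t q hq0 χ hT hY htT hqT hχ
  have hX0m : 0 < X₀ ^ m := by positivity
  have hTpos : 0 < T := lt_of_lt_of_le (Real.exp_pos _) hT
  have hL : X₀ ^ m ≤ Real.log T := by
    rw [Real.le_log_iff_exp_le hTpos]
    exact hT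
  obtain ⟨L, hLd⟩ : ∃ L : ℝ, L = Real.log T := ⟨_, rfl⟩
  rw [← hLd] at hL hY hqT ⊢
  have hL0 : 0 < L := lt_of_lt_of_le hX0m hL
  obtain ⟨x, hx⟩ : ∃ x : ℝ, x = L ^ ((m : ℝ)⁻¹) := ⟨_, rfl⟩
  have hxm : x ^ m = L := by
    rw [hx]
    exact Real.rpow_inv_natCast_pow hL0.le hm0
  have hx0 : 0 < x := by
    rw [hx]
    exact Real.rpow_pos_of_pos hL0 _
  have hxX : X₀ ≤ x := by
    rw [← hxm] at hL
    exact (pow_le_pow_iff_left₀ (by linarith) hx0.le hm0).1 hL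
  have hx1 : 1 ≤ x := by linarith
  have hLb : L ^ (1 - 1 / (m : ℝ)) = x ^ (m - 1) := by
    rw [← hxm, ← Real.rpow_natCast, ← Real.rpow_mul hx0.le, ← Real.rpow_natCast]
    congr 1
    rw [Nat.cast_sub (by omega)]
    push_cast
    field_simp
  have hLa : L ^ (-(4 / (m : ℝ))) = 1 / x ^ 4 := by
    rw [← hxm, ← Real.rpow_natCast, ← Real.rpow_mul hx0.le]
    have e : (m : ℝ) * -(4 / (m : ℝ)) = -(4 : ℕ) := by
      push_cast
      field_simp
    rw [e, Real.rpow_neg hx0.le, Real.rpow_natCast, one_div]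
  rw [hLa]
  rw [hLb] at hY
  obtain ⟨hp1, hp2⟩ := hpar x hxX
  obtain ⟨K, hK⟩ : ∃ K : ℝ, K = 8 * x := ⟨_, rfl⟩
  obtain ⟨ε, hε⟩ : ∃ ε : ℝ, ε = 1 / x ^ 4 := ⟨_, rfl⟩
  obtain ⟨η, hη⟩ : ∃ η : ℝ, η = c / (1 + K) ^ 2 := ⟨_, rfl⟩
  obtain ⟨E, hE⟩ : ∃ E : ℝ, E = Real.exp (C * (1 + K) ^ C) := ⟨_, rfl⟩
  rw [← hK, ← hε, ← hη] at hp1
  rw [← hK, ← hE] at hp2
  rw [← hε]
  have hK8 : 8 ≤ K := by rw [hK]; linarith
  have hε0 : 0 < ε := by rw [hε]; positivity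
  have hη1 : η ≤ 1 / 40 := by
    rw [hη, div_le_iff₀ (by positivity)]
    nlinarith
  have hη0 : 0 ≤ η := by rw [hη]; positivity
  have hE0 : 1 ≤ E := by
    rw [hE]
    exact Real.one_le_exp (by positivity)
  have hqr : (1 : ℝ) ≤ q := by exact_mod_cast Nat.one_le_iff_ne_zero.2 (NeZero.ne q)
  have hY1 : 1 < Y := lt_of_lt_of_le (Real.one_lt_exp_iff.2 (by positivity)) hY
  have hY0 : 0 < Y := by linarith
  have hlogY : x ^ (m - 1) ≤ Real.log Y := by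
    rw [Real.le_log_iff_exp_le hY0]
    exact hY
  have hq2 : (q : ℝ) ≤ x ^ (8 * (C + 4) * B) := by
    refine hqT.trans (le_of_eq ?_)
    rw [← hxm, ← pow_mul]
  have hYε : 100 * C₂ * q * E ≤ Y ^ ε := by
    calc 100 * C₂ * q * E ≤ 100 * C₂ * x ^ (8 * (C + 4) * B) * E := by gcongr
      _ ≤ Real.exp (x ^ (8 * (C + 4) - 5)) := hp2
      _ ≤ Y ^ ε := by
        rw [Real.rpow_def_of_pos hY0]
        apply Real.exp_le_exp.2
        rw [hε]
        calc x ^ (8 * (C + 4) - 5) = x ^ (m - 1) * (1 / x ^ 4) := by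
              rw [mul_one_div, eq_div_iff (by positivity), ← pow_add]
              congr 1
          _ ≤ Real.log Y * (1 / x ^ 4) := mul_le_mul_of_nonneg_right hlogY (by positivity)
  have hfl : (⌊Y⌋₊ : ℝ) ≤ Y := Nat.floor_le hY0.le
  have hfl1 : 1 ≤ ⌊Y⌋₊ := Nat.le_floor (by simpa using hY1.le)
  have hlast : ∀ α : ℝ, α ≤ 1 - 2 * ε → Y ^ ε * Y ^ α ≤ Y ^ (1 - ε) := by
    intro α hα
    rw [← Real.rpow_add hY0]
    exact Real.rpow_le_rpow_of_exponent_le hY1.le (by linarith)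
  rcases lt_or_ge |t| (√Y) with hcase | hcase
  · have h3 := parts' (f := fun n => χ (n : ZMod q)) (A := q + 1)
      (fun n => H370.DL.norm_sum_Icc_le hχ n) t hfl1
    refine h3.trans ?_
    have h4 : Real.log ⌊Y⌋₊ ≤ 8 * Y ^ (1 / 8 : ℝ) := by
      have h5 : Real.log ⌊Y⌋₊ ≤ Real.log Y := Real.log_le_log (by exact_mod_cast hfl1) hfl
      have h6 := Real.log_le_rpow_div hY0.le (show (0 : ℝ) < 1 / 8 by norm_num)
      have h7 : Y ^ (1 / 8 : ℝ) / (1 / 8) = 8 * Y ^ (1 / 8 : ℝ) := by ring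
      linarith
    have h5 : 0 ≤ Real.log ⌊Y⌋₊ := Real.log_natCast_nonneg _
    have h6 : |t| * Real.log ⌊Y⌋₊ ≤ 8 * Y ^ (5 / 8 : ℝ) := by
      calc |t| * Real.log ⌊Y⌋₊ ≤ √Y * (8 * Y ^ (1 / 8 : ℝ)) :=
            mul_le_mul hcase.le h4 h5 (Real.sqrt_nonneg _)
        _ = 8 * (Y ^ (1 / 2 : ℝ) * Y ^ (1 / 8 : ℝ)) := by
            rw [Real.sqrt_eq_rpow]
            ring
        _ = 8 * Y ^ (5 / 8 : ℝ) := by
            rw [← Real.rpow_add hY0]
            norm_num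
    have h7 : 1 ≤ Y ^ (5 / 8 : ℝ) := Real.one_le_rpow hY1.le (by norm_num)
    calc ((q : ℝ) + 1) * (1 + |t| * Real.log ⌊Y⌋₊) ≤ (2 * q) * (9 * Y ^ (5 / 8 : ℝ)) := by
          apply mul_le_mul (by linarith) (by linarith) (by positivity) (by positivity)
      _ = (18 * 1 * q * 1) * Y ^ (5 / 8 : ℝ) := by ring
      _ ≤ (100 * C₂ * q * E) * Y ^ (5 / 8 : ℝ) := by
          apply mul_le_mul_of_nonneg_right _ (by positivity)
          gcongr
          norm_num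
      _ ≤ Y ^ ε * Y ^ (5 / 8 : ℝ) := mul_le_mul_of_nonneg_right hYε (by positivity)
      _ ≤ Y ^ (1 - ε) := hlast _ (by linarith)
  · obtain ⟨M0, hM0⟩ : ∃ M0 : ℕ, M0 = ⌈Y ^ (1 / 4 : ℝ)⌉₊ + 3 := ⟨_, rfl⟩
    have hM0a : Y ^ (1 / 4 : ℝ) ≤ M0 := by
      rw [hM0]
      push_cast
      linarith [Nat.le_ceil (Y ^ (1 / 4 : ℝ))]
    have hY14 : 1 ≤ Y ^ (1 / 4 : ℝ) := Real.one_le_rpow hY1.le (by norm_num)
    have hM0b : (M0 : ℝ) ≤ 5 * Y ^ (1 / 4 : ℝ) := by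
      rw [hM0]
      push_cast
      linarith [Nat.ceil_lt_add_one (show 0 ≤ Y ^ (1 / 4 : ℝ) by positivity)]
    have h3 := dyad (f := fun n => χ (n : ZMod q) * nt t n) (M0 := M0) (n0 := ⌊Y⌋₊)
      (D := 18 * C₂ * q * E) (η := η) (by omega) hη0 (by linarith) (by positivity)
      (fun n hn => by
        rw [norm_mul, norm_nt t n hn, mul_one]
        exact χ.norm_le_one _)
      (fun N N' hN hNN hN2 hN0 => by
        have hN3 : 3 ≤ N := by omega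
        have hNr : Y ^ (1 / 4 : ℝ) ≤ N := hM0a.trans (by exact_mod_cast hN)
        have hNY : (N : ℝ) ≤ Y := le_trans (by exact_mod_cast (hNN.trans hN0)) hfl
        rw [hE, hη]
        refine blk hc0 hc1 hC₂ h1 h2 χ hN3 hNN hN2 (by linarith)
          ((Real.sqrt_le_sqrt hNY).trans hcase) ?_
        have h4 : Real.log |t| ≤ L := by
          rw [hLd]
          have : 0 < |t| := lt_of_lt_of_le (Real.sqrt_pos.2 hY0) hcase
          exact Real.log_le_log this htT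
        have h5 : 1 / 4 * Real.log Y ≤ Real.log N := by
          rw [← Real.log_rpow hY0]
          exact Real.log_le_log (by positivity) hNr
        have h6 : L = x * x ^ (m - 1) := by
          rw [← hxm, ← pow_succ']
          congr 1
        have h7 : x * x ^ (m - 1) ≤ x * Real.log Y := mul_le_mul_of_nonneg_left hlogY hx0.le
        have h8 : 0 ≤ x * Real.log Y := mul_nonneg hx0.le (Real.log_nonneg hY1.le)
        rw [hK]
        nlinarith)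
      ⌊Y⌋₊ le_rfl
    refine h3.trans ?_
    have h4 : (⌊Y⌋₊ : ℝ) ^ (1 - η) ≤ Y ^ (1 - η) :=
      Real.rpow_le_rpow (Nat.cast_nonneg _) hfl (by linarith)
    have h5 : Y ^ (1 / 4 : ℝ) ≤ Y ^ (1 - η) :=
      Real.rpow_le_rpow_of_exponent_le hY1.le (by linarith)
    have h6 : 1 ≤ C₂ * q * E := by
      have : 1 ≤ C₂ * q := one_le_mul_of_one_le_of_one_le hC₂ hqr
      exact one_le_mul_of_one_le_of_one_le this hE0
    calc 2 * (M0 : ℝ) + 4 * (18 * C₂ * q * E) * (⌊Y⌋₊ : ℝ) ^ (1 - η)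
        ≤ 2 * (5 * Y ^ (1 - η)) + 4 * (18 * C₂ * q * E) * Y ^ (1 - η) := by
          gcongr
          linarith
      _ = (10 + 72 * (C₂ * q * E)) * Y ^ (1 - η) := by ring
      _ ≤ (100 * C₂ * q * E) * Y ^ (1 - η) := by
          apply mul_le_mul_of_nonneg_right _ (by positivity)
          linarith
      _ ≤ Y ^ ε * Y ^ (1 - η) := mul_le_mul_of_nonneg_right hYε (by positivity)
      _ ≤ Y ^ (1 - ε) := hlast _ (by linarith)

end Pool.Agent.K9h19.CR
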