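import Pool.Agent.K9h19.CR.PW

/-!
# Project CR, job FD: sums of smooth factors at small heights
-/

set_option autoImplicit false

namespace Pool.Agent.K9h19.CR

open Finset Filter Topology Pool.Agent.Q236.CR
open Pool.Agent.Q53.CR (norm_nt)

theorem nt_exp (t : ℝ) {n : ℕ} (hn : 1 ≤ n) :
    nt t n = Complex.exp (((-(t * Real.log n) : ℝ) : ℂ) * Complex.I) := by
  have hm0 : (n : ℂ) ≠ 0 := by exact_mod_cast (by omega : n ≠ 0)
  unfold nt
  rw [Complex.cpow_def_of_ne_zero hm0, ← Complex.natCast_log]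
  congr 1
  push_cast
  ring

theorem exp_taylor (x : ℝ) : ‖Complex.exp (x * Complex.I) - 1 - x * Complex.I‖ ≤ 2 * x ^ 2 := by
  rcases le_or_gt |x| 1 with h | h
  · have h1 : ‖(x : ℂ) * Complex.I‖ = |x| := by
      rw [norm_mul, Complex.norm_I, mul_one, Complex.norm_real, Real.norm_eq_abs]
    have h2 := Complex.norm_exp_sub_one_sub_id_le (x := (x : ℂ) * Complex.I) (by rw [h1]; exact h)
    rw [h1, sq_abs] at h2
    nlinarith [sq_nonneg x]
  · have h1 : ‖(x : ℂ) * Complex.I‖ = |x| := by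
      rw [norm_mul, Complex.norm_I, mul_one, Complex.norm_real, Real.norm_eq_abs]
    have h2 := norm_sub_le (Complex.exp (x * Complex.I) - 1) (x * Complex.I)
    have h3 := Real.norm_exp_I_mul_ofReal_sub_one_le (x := x)
    rw [mul_comm Complex.I, Real.norm_eq_abs] at h3
    rw [h1] at h2
    have h4 : |x| ≤ x ^ 2 := by
      rw [← sq_abs]
      nlinarith
    linarith

/-- the telescoping approximation -/
theorem tel {τ : ℝ} (hτ : 1 ≤ |τ|) {n : ℕ} (hn : 1 ≤ n) :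
    ‖nt τ (n + 1) * (1 - τ * Complex.I) - (((n + 1 : ℕ) : ℂ) * nt τ (n + 1) - (n : ℂ) * nt τ n)‖ ≤
      3 * τ ^ 2 / n := by
  have hn0 : (0 : ℝ) < n := by exact_mod_cast hn
  obtain ⟨δ, hδ⟩ : ∃ δ : ℝ, δ = Real.log ((n + 1 : ℕ) : ℝ) - Real.log n := ⟨_, rfl⟩
  have hδ1 : 1 / ((n : ℝ) + 1) ≤ δ := by
    rw [hδ, ← Real.log_div (by positivity) hn0.ne']
    have h := Real.one_sub_inv_le_log_of_pos (show (0 : ℝ) < ((n + 1 : ℕ) : ℝ) / n by positivity)
    refine le_trans (le_of_eq ?_) h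
    push_cast
    field_simp
    ring
  have hδ2 : δ ≤ 1 / n := by
    rw [hδ, ← Real.log_div (by positivity) hn0.ne']
    have h := Real.log_le_sub_one_of_pos (show (0 : ℝ) < ((n + 1 : ℕ) : ℝ) / n by positivity)
    refine h.trans (le_of_eq ?_)
    push_cast
    field_simp
    ring
  have hδ0 : 0 ≤ δ := le_trans (by positivity) hδ1
  have e1 : nt τ n = nt τ (n + 1) * Complex.exp (((τ * δ : ℝ) : ℂ) * Complex.I) := by
    rw [nt_exp τ hn, nt_exp τ (show 1 ≤ n + 1 by omega), ← Complex.exp_add]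
    congr 1
    rw [hδ]
    push_cast
    ring
  have e2 : nt τ (n + 1) * (1 - τ * Complex.I) -
      (((n + 1 : ℕ) : ℂ) * nt τ (n + 1) - (n : ℂ) * nt τ n) =
      nt τ (n + 1) * ((n : ℂ) * (Complex.exp (((τ * δ : ℝ) : ℂ) * Complex.I) - 1 -
        ((τ * δ : ℝ) : ℂ) * Complex.I) + ((τ * (n * δ - 1) : ℝ) : ℂ) * Complex.I) := by
    rw [e1]
    push_cast
    ring
  rw [e2, norm_mul, norm_nt τ _ (by omega), one_mul]
  refine (norm_add_le _ _).trans ?_
  rw [norm_mul, norm_mul, Complex.norm_natCast, Complex.norm_I, mul_one, Complex.norm_real,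
    Real.norm_eq_abs, abs_mul]
  have h1 := exp_taylor (τ * δ)
  have h2 : |(n : ℝ) * δ - 1| ≤ 1 / n := by
    rw [abs_le]
    constructor
    · have : (n : ℝ) * (1 / ((n : ℝ) + 1)) ≤ n * δ := mul_le_mul_of_nonneg_left hδ1 hn0.le
      have e : (n : ℝ) * (1 / ((n : ℝ) + 1)) - 1 = - (1 / ((n : ℝ) + 1)) := by
        field_simp
        ring
      have h3 : 1 / ((n : ℝ) + 1) ≤ 1 / n := one_div_le_one_div_of_le hn0 (by linarith)
      linarith
    · have : (n : ℝ) * δ ≤ n * (1 / n) := mul_le_mul_of_nonneg_left hδ2 hn0.le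
      have e : (n : ℝ) * (1 / n) = 1 := by field_simp
      have h3 : (0 : ℝ) < 1 / n := by positivity
      linarith
  have h3 : (n : ℝ) * (2 * (τ * δ) ^ 2) ≤ 2 * τ ^ 2 / n := by
    have h4 : δ ^ 2 ≤ (1 / n) ^ 2 := pow_le_pow_left₀ hδ0 hδ2 2
    calc (n : ℝ) * (2 * (τ * δ) ^ 2) = 2 * τ ^ 2 * (n * δ ^ 2) := by ring
      _ ≤ 2 * τ ^ 2 * (n * (1 / n) ^ 2) := by gcongr
      _ = 2 * τ ^ 2 / n := by field_simp
  have h4 : |τ| * |(n : ℝ) * δ - 1| ≤ τ ^ 2 / n := by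
    have h5 : |τ| ≤ τ ^ 2 := by
      rw [← sq_abs]
      nlinarith
    calc |τ| * |(n : ℝ) * δ - 1| ≤ τ ^ 2 * (1 / n) := mul_le_mul h5 h2 (abs_nonneg _) (by positivity)
      _ = _ := by ring
  calc _ ≤ (n : ℝ) * (2 * (τ * δ) ^ 2) + |τ| * |(n : ℝ) * δ - 1| := by gcongr
    _ ≤ 2 * τ ^ 2 / n + τ ^ 2 / n := add_le_add h3 h4
    _ = _ := by ring

/-- the zeta factor at small heights -/
theorem zfd {τ : ℝ} (hτ : 1 ≤ |τ|) {M w : ℕ} (hM : 1 ≤ M) (hMw : M ≤ w) (hw : w ≤ 2 * M) :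
    ‖∑ n ∈ Ioc M w, nt τ n‖ ≤ 3 * M / |τ| + 3 * |τ| := by
  have hM0 : (0 : ℝ) < M := by exact_mod_cast hM
  have hτ0 : 0 < |τ| := by linarith
  have key : ∀ v : ℕ, M ≤ v → ‖(∑ n ∈ Ioc M v, nt τ n) * (1 - τ * Complex.I) -
      ((v : ℂ) * nt τ v - (M : ℂ) * nt τ M)‖ ≤ 3 * τ ^ 2 / M * (v - M) := by
    intro v hv
    induction v, hv using Nat.le_induction with
    | base => simp
    | succ v hv ih =>
      have e : (∑ n ∈ Ioc M (v + 1), nt τ n) * (1 - τ * Complex.I) -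
          (((v + 1 : ℕ) : ℂ) * nt τ (v + 1) - (M : ℂ) * nt τ M) =
          ((∑ n ∈ Ioc M v, nt τ n) * (1 - τ * Complex.I) - ((v : ℂ) * nt τ v - (M : ℂ) * nt τ M)) +
          (nt τ (v + 1) * (1 - τ * Complex.I) -
            (((v + 1 : ℕ) : ℂ) * nt τ (v + 1) - (v : ℂ) * nt τ v)) := by
        rw [Finset.sum_Ioc_succ_top (by omega)]
        ring
      rw [e]
      refine (norm_add_le _ _).trans ?_
      have h1 := tel hτ (n := v) (by omega)
      have h2 : 3 * τ ^ 2 / v ≤ 3 * τ ^ 2 / M := by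
        apply div_le_div_of_nonneg_left (by positivity) hM0
        exact_mod_cast hv
      have h3 : 3 * τ ^ 2 / M * (((v + 1 : ℕ) : ℝ) - M) = 3 * τ ^ 2 / M * ((v : ℝ) - M) +
          3 * τ ^ 2 / M := by
        push_cast
        ring
      rw [h3]
      exact add_le_add ih (h1.trans h2)
  have h1 := key w hMw
  have hw' : (w : ℝ) ≤ 2 * M := by exact_mod_cast hw
  have h2 : 3 * τ ^ 2 / M * (w - M) ≤ 3 * τ ^ 2 := by
    calc 3 * τ ^ 2 / M * (w - M) ≤ 3 * τ ^ 2 / M * M := by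
          apply mul_le_mul_of_nonneg_left _ (by positivity)
          linarith
      _ = 3 * τ ^ 2 := by field_simp
  have h3 : ‖(w : ℂ) * nt τ w - (M : ℂ) * nt τ M‖ ≤ 3 * M := by
    refine (norm_sub_le _ _).trans ?_
    rw [norm_mul, norm_mul, norm_nt τ _ (by omega), norm_nt τ _ hM, mul_one, mul_one,
      Complex.norm_natCast, Complex.norm_natCast]
    linarith
  have h4 : ‖(∑ n ∈ Ioc M w, nt τ n) * (1 - τ * Complex.I)‖ ≤ 3 * M + 3 * τ ^ 2 := by
    calc ‖(∑ n ∈ Ioc M w, nt τ n) * (1 - τ * Complex.I)‖ =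
        ‖((∑ n ∈ Ioc M w, nt τ n) * (1 - τ * Complex.I) - ((w : ℂ) * nt τ w - (M : ℂ) * nt τ M)) +
          ((w : ℂ) * nt τ w - (M : ℂ) * nt τ M)‖ := by rw [sub_add_cancel]
      _ ≤ 3 * τ ^ 2 + 3 * M := (norm_add_le _ _).trans (add_le_add (h1.trans h2) h3)
      _ = _ := by ring
  rw [norm_mul] at h4
  have h5 : |τ| ≤ ‖(1 : ℂ) - τ * Complex.I‖ := by
    have h6 := Complex.abs_im_le_norm ((1 : ℂ) - τ * Complex.I)
    simpa using h6
  have h7 : ‖∑ n ∈ Ioc M w, nt τ n‖ * |τ| ≤ 3 * M + 3 * τ ^ 2 :=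
    (mul_le_mul_of_nonneg_left h5 (norm_nonneg _)).trans h4
  have h8 : ‖∑ n ∈ Ioc M w, nt τ n‖ ≤ (3 * M + 3 * τ ^ 2) / |τ| := by
    rw [le_div_iff₀ hτ0]
    exact h7
  refine h8.trans (le_of_eq ?_)
  rw [← sq_abs τ]
  field_simp

/-- partial sums of periodic functions with mean value zero -/
theorem per_sum {f : ℕ → ℂ} {q : ℕ} {A : ℝ} (hq : 0 < q) (hA : ∀ n, ‖f n‖ ≤ A)
    (hp : ∀ n, f (n + q) = f n) (h0 : ∑ k ∈ range q, f k = 0) :
    ∀ n : ℕ, ‖∑ k ∈ range n, f k‖ ≤ q * A := by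
  intro n
  induction n using Nat.strong_induction_on with
  | _ n ih =>
    rcases lt_or_ge n q with h | h
    · refine (norm_sum_le _ _).trans ?_
      refine (Finset.sum_le_sum fun k _ => hA k).trans ?_
      rw [Finset.sum_const, card_range, nsmul_eq_mul]
      have hA0 : 0 ≤ A := (norm_nonneg _).trans (hA 0)
      apply mul_le_mul_of_nonneg_right _ hA0
      exact_mod_cast h.le
    · have e : ∑ k ∈ range n, f k = ∑ k ∈ range (n - q), f k := by
        have h1 : n = q + (n - q) := by omega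
        rw [h1, Finset.sum_range_add, h0, zero_add]
        simp only [add_tsub_cancel_left]
        apply Finset.sum_congr rfl
        intro k _
        rw [add_comm q k, hp]
      rw [e]
      exact ih _ (by omega)

theorem fd : ∃ C : ℝ, 1 ≤ C ∧ ∀ (q : ℕ) (_ : NeZero q) (χ : DirichletCharacter ℂ q) (M w : ℕ) (τ : ℝ),
    1 ≤ M → M ≤ w → w ≤ 2 * M → 1 ≤ |τ| →
    ‖∑ n ∈ Ioc M w, χ (n : ZMod q) * nt τ n‖ ≤ C * (M / |τ| + q * |τ|) * (1 + Real.log M) := by
  refine ⟨20, by norm_num, ?_⟩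
  intro q hq χ M w τ hM hMw hw hτ
  have hq0 : 0 < q := Nat.pos_of_ne_zero (NeZero.ne q)
  have hq1 : (1 : ℝ) ≤ q := by exact_mod_cast hq0
  have hM0 : (0 : ℝ) < M := by exact_mod_cast hM
  have hτ0 : 0 < |τ| := by linarith
  obtain ⟨m, hm⟩ : ∃ m : ℂ, m = (∑ b ∈ range q, χ (b : ZMod q)) / q := ⟨_, rfl⟩
  have hm1 : ‖m‖ ≤ 1 := by
    rw [hm, norm_div, Complex.norm_natCast, div_le_one (by positivity)]
    refine (norm_sum_le _ _).trans ?_
    refine (Finset.sum_le_sum (g := fun _ => (1 : ℝ)) fun k _ => χ.norm_le_one _).trans ?_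
    simp
  obtain ⟨f, hf⟩ : ∃ f : ℕ → ℂ, f = fun n : ℕ => χ (n : ZMod q) - m := ⟨_, rfl⟩
  have hfA : ∀ n, ‖f n‖ ≤ 2 := by
    intro n
    rw [hf]
    have h1 := norm_sub_le (χ (n : ZMod q)) m
    have h2 := χ.norm_le_one (n : ZMod q)
    simp only
    linarith
  have hfp : ∀ n, f (n + q) = f n := by
    intro n
    rw [hf]
    simp
  have hf0 : ∑ k ∈ range q, f k = 0 := by
    rw [hf, Finset.sum_sub_distrib, Finset.sum_const, card_range, nsmul_eq_mul, hm,
      mul_div_cancel₀ _ (by exact_mod_cast hq0.ne'), sub_self]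
  have hps := per_sum hq0 hfA hfp hf0
  have hps' : ∀ n : ℕ, ‖∑ k ∈ Icc 1 n, f k‖ ≤ 2 * q + 2 := by
    intro n
    have e : ∑ k ∈ range (n + 1), f k = f 0 + ∑ k ∈ Icc 1 n, f k := by
      rw [Finset.sum_range_eq_add_Ico _ (by omega)]
      congr 1
    have e2 : ∑ k ∈ Icc 1 n, f k = ∑ k ∈ range (n + 1), f k - f 0 := by rw [e]; ring
    rw [e2]
    refine (norm_sub_le _ _).trans ?_
    have h1 := hps (n + 1)
    have h2 := hfA 0
    linarith
  have hblk : ‖∑ n ∈ Ioc M w, f n * nt τ n‖ ≤ 2 * ((2 * q + 2) * (1 + |τ| * Real.log w)) := by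
    have e : ∑ n ∈ Ioc M w, f n * nt τ n = ∑ n ∈ Icc 1 w, f n * nt τ n -
        ∑ n ∈ Icc 1 M, f n * nt τ n := by
      have e : ∀ m : ℕ, Icc 1 m = Ioc 0 m := fun m => by ext k; simp [Nat.succ_le_iff]
      rw [e, e, ← Finset.sum_Ioc_consecutive _ (Nat.zero_le M) hMw]
      ring
    rw [e]
    refine (norm_sub_le _ _).trans ?_
    have h1 := parts' hps' τ (n := w) (by omega)
    have h2 := parts' hps' τ (n := M) hM
    have h3 : Real.log M ≤ Real.log w := Real.log_le_log hM0 (by exact_mod_cast hMw)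
    have h4 : (2 * q + 2) * (1 + |τ| * Real.log M) ≤ (2 * (q : ℝ) + 2) * (1 + |τ| * Real.log w) := by
      gcongr
    linarith
  have hz := zfd hτ hM hMw hw
  have e : ∑ n ∈ Ioc M w, χ (n : ZMod q) * nt τ n = ∑ n ∈ Ioc M w, f n * nt τ n +
      m * ∑ n ∈ Ioc M w, nt τ n := by
    rw [Finset.mul_sum, ← Finset.sum_add_distrib]
    apply Finset.sum_congr rfl
    intro n _
    rw [hf]
    ring
  rw [e]
  refine (norm_add_le _ _).trans ?_
  rw [norm_mul]
  have hlM : 0 ≤ Real.log M := Real.log_natCast_nonneg M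
  have hlw : Real.log w ≤ 1 + Real.log M := by
    have h1 : Real.log w ≤ Real.log (2 * M) :=
      Real.log_le_log (by exact_mod_cast (by omega : 0 < w)) (by exact_mod_cast hw)
    rw [Real.log_mul (by norm_num) hM0.ne'] at h1
    have := Real.log_two_lt_d9
    linarith
  have h1 : 2 * ((2 * q + 2) * (1 + |τ| * Real.log w)) ≤ 16 * (q * |τ|) * (1 + Real.log M) := by
    have h2 : 1 + |τ| * Real.log w ≤ 2 * (|τ| * (1 + Real.log M)) := by
      have h3 : |τ| * Real.log w ≤ |τ| * (1 + Real.log M) := mul_le_mul_of_nonneg_left hlw hτ0.le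
      have h4 : 1 ≤ |τ| * (1 + Real.log M) := by
        calc (1 : ℝ) = 1 * 1 := by ring
          _ ≤ |τ| * (1 + Real.log M) := mul_le_mul hτ (by linarith) zero_le_one hτ0.le
      linarith
    calc 2 * ((2 * (q : ℝ) + 2) * (1 + |τ| * Real.log w)) ≤
        2 * ((4 * q) * (2 * (|τ| * (1 + Real.log M)))) := by
          gcongr
          linarith
      _ = _ := by ring
  have h2 : ‖m‖ * ‖∑ n ∈ Ioc M w, nt τ n‖ ≤ (3 * M / |τ| + 3 * (q * |τ|)) * (1 + Real.log M) := by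
    calc ‖m‖ * ‖∑ n ∈ Ioc M w, nt τ n‖ ≤ 1 * (3 * M / |τ| + 3 * |τ|) :=
          mul_le_mul hm1 hz (norm_nonneg _) zero_le_one
      _ = (3 * M / |τ| + 3 * (1 * |τ|)) * 1 := by ring
      _ ≤ (3 * M / |τ| + 3 * (q * |τ|)) * (1 + Real.log M) := by
          apply mul_le_mul _ (by linarith) zero_le_one (by positivity)
          gcongr
  calc _ ≤ 16 * (q * |τ|) * (1 + Real.log M) +
        (3 * M / |τ| + 3 * (q * |τ|)) * (1 + Real.log M) := add_le_add (hblk.trans h1) h2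
    _ = (3 * (M / |τ|) + 19 * (q * |τ|)) * (1 + Real.log M) := by ring
    _ ≤ 20 * (M / |τ| + q * |τ|) * (1 + Real.log M) := by
        apply mul_le_mul_of_nonneg_right _ (by linarith)
        have : 0 ≤ M / |τ| := by positivity
        have : 0 ≤ q * |τ| := by positivity
        linarith

end Pool.Agent.K9h19.CR
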