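import Pool.Agent.N864.GN.InvB
import Pool.Agent.W66.LB
import Pool.Agent.Q236.CR.Stm

/-!
# Project CR, job LZF: zero free region and bound for the inverse, local form

The proof follows `Pool.Agent.N864.GN.InvB` (Gaussian integers).
-/

set_option autoImplicit false

namespace Pool.Agent.K9h19.CR.LI

open Finset Filter Topology Complex Metric
open scoped ArithmeticFunction.vonMangoldt ArithmeticFunction.Moebius
open Pool.Agent.N864.GN (loc grow inv_exp mA exA isOpen_reg)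
open Pool.Agent.W66L (three_four_one_char)

variable {Q : ℕ} [NeZero Q]

/-- a bounded Dirichlet series to the right of the line -/
lemma norm_LS_le {a : ℕ → ℂ} (ha : ∀ n, ‖a n‖ ≤ 1) {w : ℂ} (hw : 1 < w.re) :
    ‖LSeries a w‖ ≤ 1 + 1 / (w.re - 1) := by
  set c := w.re with hc
  have h0 := ZetaAsymptotics.zeta_limit_aux1 hw
  have h1 : ∀ n, ‖LSeries.term a w n‖ ≤ if n = 0 then 0 else 1 / (n : ℝ) ^ c := by
    intro n
    rw [LSeries.norm_term_eq]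
    split_ifs with h
    · exact le_rfl
    · exact div_le_div_of_nonneg_right (ha n) (by positivity)
  have h2 : Summable (fun n : ℕ => 1 / ((n : ℝ) + 1) ^ c) := by
    have h3 := (Real.summable_one_div_nat_rpow.2 hw)
    have h4 := (summable_nat_add_iff 1).2 h3
    simpa using h4
  have h3 : HasSum (fun n : ℕ => if n = 0 then 0 else 1 / (n : ℝ) ^ c)
      (∑' n : ℕ, 1 / ((n : ℝ) + 1) ^ c) := by
    rw [← hasSum_nat_add_iff' 1]
    simpa using h2.hasSum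
  have h4 : ‖LSeries a w‖ ≤ ∑' n : ℕ, 1 / ((n : ℝ) + 1) ^ c := by
    unfold LSeries
    exact tsum_of_norm_bounded h3 h1
  have h5 : 0 ≤ ZetaAsymptotics.termTSum c := tsum_nonneg fun n => ZetaAsymptotics.term_nonneg _ _
  have h6 : 0 ≤ c * ZetaAsymptotics.termTSum c := by positivity
  linarith

/-- `χ μ` -/
noncomputable def cmu (χ : DirichletCharacter ℂ Q) (n : ℕ) : ℂ :=
  χ (n : ZMod Q) * ((ArithmeticFunction.moebius n : ℤ) : ℂ)

lemma cmu_le (χ : DirichletCharacter ℂ Q) (n : ℕ) : ‖cmu χ n‖ ≤ 1 := by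
  unfold cmu
  rw [norm_mul]
  have h2 : ‖((ArithmeticFunction.moebius n : ℤ) : ℂ)‖ ≤ 1 := by
    rw [← Complex.ofReal_intCast, Complex.norm_real, Real.norm_eq_abs]
    exact_mod_cast ArithmeticFunction.abs_moebius_le_one
  exact mul_le_one₀ (χ.norm_le_one _) (norm_nonneg _) h2

/-- the inverse as a Dirichlet series -/
lemma LF_inv (χ : DirichletCharacter ℂ Q) {s : ℂ} (hs : 1 < s.re) :
    (χ.LFunction s)⁻¹ = LSeries (cmu χ) s := by
  have h1 := DirichletCharacter.LSeries.mul_mu_eq_one χ hs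
  have h2 : ((fun n : ℕ => (χ n : ℂ)) * (fun n : ℕ => ((ArithmeticFunction.moebius n : ℤ) : ℂ))) =
      cmu χ := by
    ext n
    rfl
  rw [h2] at h1
  rw [DirichletCharacter.LFunction_eq_LSeries χ hs]
  exact inv_eq_of_mul_eq_one_right h1

lemma LSeries_eq_DL' (χ : DirichletCharacter ℂ Q) {s : ℂ} (hs : 1 < s.re) :
    LSeries ((fun n : ℕ => (χ n : ℂ)) * (fun n : ℕ => (Λ n : ℂ))) s =
      - (deriv χ.LFunction s / χ.LFunction s) := by
  rw [DirichletCharacter.LSeries_twist_vonMangoldt_eq χ hs]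
  have h1 : χ.LFunction =ᶠ[𝓝 s] LSeries (fun n : ℕ => χ n) := by
    have h4 : {z : ℂ | 1 < z.re} ∈ 𝓝 s :=
      (isOpen_lt continuous_const Complex.continuous_re).mem_nhds hs
    filter_upwards [h4] with z hz
    exact DirichletCharacter.LFunction_eq_LSeries χ hz
  rw [h1.deriv_eq, h1.eq_of_nhds]
  ring

/-- the main term of the logarithmic derivative -/
noncomputable def AA (σ : ℝ) : ℝ := (LSeries (fun n => (Λ n : ℂ)) (⟨σ, 0⟩ : ℂ)).re

lemma AA_le : ∃ K : ℝ, 0 < K ∧ ∀ σ : ℝ, 1 < σ → σ ≤ 2 → AA σ ≤ 1 / (σ - 1) + K := by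
  obtain ⟨K0, hK0, hD0⟩ := Pool.Agent.W66.D_re
  have hell := Pool.Agent.W66.one_le_ell 0
  refine ⟨K0 * Pool.Agent.W66.ell 0, by positivity, fun σ hσ1 hσ2 => ?_⟩
  unfold AA
  rw [Pool.Agent.W66.LSeries_eq_DD (by simpa using hσ1), sub_re]
  have d0 := (hD0 0 σ hσ1 hσ2).1
  have e0 : (1 / ((⟨σ, 0⟩ : ℂ) - 1)).re = 1 / (σ - 1) := by
    have e : (⟨σ, 0⟩ : ℂ) - 1 = ((σ - 1 : ℝ) : ℂ) := by
      apply Complex.ext <;> simp
    rw [e, ← Complex.ofReal_one, ← Complex.ofReal_div, Complex.ofReal_re]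
  change _ ≤ (Pool.Agent.W66.DD _).re at d0
  rw [e0]
  linarith

/-- the 3-4-1 inequality -/
lemma tfo (χ : DirichletCharacter ℂ Q) {σ : ℝ} (hσ : 1 < σ) (t : ℝ) :
    4 * (deriv χ.LFunction (⟨σ, t⟩ : ℂ) / χ.LFunction (⟨σ, t⟩ : ℂ)).re +
      (deriv (χ ^ 2).LFunction (⟨σ, 2 * t⟩ : ℂ) / (χ ^ 2).LFunction (⟨σ, 2 * t⟩ : ℂ)).re ≤
      3 * AA σ := by
  have h := three_four_one_char χ hσ t
  rw [LSeries_eq_DL' χ (by simpa using hσ), LSeries_eq_DL' (χ ^ 2) (by simpa using hσ), neg_re,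
    neg_re] at h
  unfold AA
  linarith

/-- the hypotheses near one height -/
structure Dat (χ : DirichletCharacter ℂ Q) (t r θ R : ℝ) : Prop where
  θ0 : 0 < θ
  θ1 : θ ≤ 1 / 20
  R3 : 3 ≤ R
  reg : χ ≠ 1 ∨ r ≤ |t|
  bd : ∀ s : ℂ, 1 - 4 * θ < s.re → s.re ≤ 3 → |s.im - t| < r → ‖χ.LFunction s‖ ≤ R

lemma Dat.ne1 {χ : DirichletCharacter ℂ Q} {t r θ R : ℝ} (D : Dat χ t r θ R) {s : ℂ}
    (hi : |s.im - t| < r) : s ≠ 1 ∨ χ ≠ 1 := by
  rcases D.reg with h | h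
  · exact Or.inr h
  · left
    intro hs
    rw [hs] at hi
    simp only [Complex.one_im, zero_sub, abs_neg] at hi
    linarith

lemma Dat.diff {χ : DirichletCharacter ℂ Q} {t r θ R : ℝ} (D : Dat χ t r θ R) :
    DifferentiableOn ℂ χ.LFunction {s | 1 - 4 * θ < s.re ∧ |s.im - t| < r} := by
  intro s hs
  exact (DirichletCharacter.differentiableAt_LFunction χ s (D.ne1 hs.2)).differentiableWithinAt

lemma Dat.ne {χ : DirichletCharacter ℂ Q} {t r θ R : ℝ} (D : Dat χ t r θ R) {s : ℂ} (hs : 1 < s.re)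
    (hi : |s.im - t| < r) : χ.LFunction s ≠ 0 ∧
      ‖(χ.LFunction s)⁻¹‖ ≤ (1 + 1 / (s.re - 1)) ^ 2 := by
  refine ⟨DirichletCharacter.LFunction_ne_zero_of_one_le_re χ (D.ne1 hi).symm hs.le, ?_⟩
  rw [LF_inv χ hs]
  have h1 := norm_LS_le (cmu_le χ) hs
  have h2 : 0 ≤ 1 / (s.re - 1) := by
    apply div_nonneg zero_le_one
    linarith
  refine h1.trans ?_
  nlinarith

/-- the local lemma for our functions -/
lemma Dat.loc {χ : DirichletCharacter ℂ Q} {t r θ R : ℝ} (D : Dat χ t r θ R) {A η τ : ℝ} (hA : 1 ≤ A)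
    (hη : η = θ / (A * Real.log (R / θ))) (hτ : |τ - t| + 2 * θ < r) :
    (-(24 * (mA A) * Real.log (R / θ) / θ) ≤ (deriv χ.LFunction ⟨1 + η, τ⟩ / χ.LFunction ⟨1 + η, τ⟩).re) ∧
    (∀ ρ ∈ closedBall (⟨1 + η, τ⟩ : ℂ) θ, χ.LFunction ρ = 0 →
      (1 / ((⟨1 + η, τ⟩ : ℂ) - ρ)).re - 24 * (mA A) * Real.log (R / θ) / θ ≤
        (deriv χ.LFunction ⟨1 + η, τ⟩ / χ.LFunction ⟨1 + η, τ⟩).re) ∧
    (∀ z ∈ closedBall (⟨1 + η, τ⟩ : ℂ) (θ / 2), ∀ d : ℝ, 0 < d →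
      (∀ ρ ∈ closedBall (⟨1 + η, τ⟩ : ℂ) θ, χ.LFunction ρ = 0 → d ≤ ‖z - ρ‖) →
      χ.LFunction z ≠ 0 ∧ ‖deriv χ.LFunction z / χ.LFunction z‖ ≤ mA A * Real.log (R / θ) * (3 / 2) / d +
        24 * (mA A) * Real.log (R / θ) / θ) := by
  have hθ0 := D.θ0
  have hθ1 := D.θ1
  have hR3 := D.R3
  obtain ⟨hQ4, hη0, hη1, hi1, hi2⟩ := inv_exp hA D.θ0 D.θ1 D.R3 hη
  have hball : ∀ z ∈ closedBall (⟨1 + η, τ⟩ : ℂ) (4 * (θ / 2)),
      1 - 4 * θ < z.re ∧ z.re ≤ 3 ∧ |z.im - t| < r := by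
    intro z hz
    rw [mem_closedBall, dist_eq_norm] at hz
    have h1 := (abs_re_le_norm (z - ⟨1 + η, τ⟩)).trans hz
    have h2 := (abs_im_le_norm (z - ⟨1 + η, τ⟩)).trans hz
    rw [sub_re, abs_le] at h1
    rw [sub_im] at h2
    have h3 : (⟨1 + η, τ⟩ : ℂ).re = 1 + η := rfl
    have h4 : (⟨1 + η, τ⟩ : ℂ).im = τ := rfl
    rw [h3] at h1
    rw [h4] at h2
    refine ⟨by linarith [h1.1], by linarith [h1.2], ?_⟩
    have h5 : |z.im - t| ≤ |z.im - τ| + |τ - t| := abs_sub_le _ _ _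
    linarith
  have han : AnalyticOnNhd ℂ χ.LFunction (closedBall (⟨1 + η, τ⟩ : ℂ) (4 * (θ / 2))) :=
    (D.diff.analyticOnNhd (isOpen_reg _ _ _)).mono fun z hz =>
      ⟨(hball z hz).1, (hball z hz).2.2⟩
  have hc1 : 1 < (⟨1 + η, τ⟩ : ℂ).re := by
    show 1 < 1 + η
    linarith
  have hc2 : |(⟨1 + η, τ⟩ : ℂ).im - t| < r := by
    show |τ - t| < r
    linarith
  obtain ⟨n1, n2⟩ := D.ne hc1 hc2
  have hinv : R * ‖(χ.LFunction ⟨1 + η, τ⟩)⁻¹‖ ≤ Real.exp ((mA A - 1) * Real.log (R / θ)) := by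
    refine le_trans (mul_le_mul_of_nonneg_left (n2.trans ?_) (by linarith)) hi2
    have e1 : (⟨1 + η, τ⟩ : ℂ).re - 1 = η := by
      show 1 + η - 1 = η
      ring
    rw [e1]
    have h3 : 1 ≤ 1 / η := by
      rw [le_div_iff₀ hη0]
      linarith
    have h4 : 2 / η = 1 / η + 1 / η := by ring
    exact pow_le_pow_left₀ (by positivity) (by linarith) 2
  have hz : ∀ ρ ∈ closedBall (⟨1 + η, τ⟩ : ℂ) (4 * (θ / 2)), χ.LFunction ρ = 0 → ρ.re ≤ 1 := by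
    intro ρ hρ hρ0
    by_contra hcon
    push Not at hcon
    exact (D.ne hcon (hball ρ hρ).2.2).1 hρ0
  obtain ⟨l1, l2, l3⟩ := Pool.Agent.N864.GN.loc (w := θ / 2) (by linarith) (by linarith) hη0 han
    (fun z hz => D.bd z (hball z hz).1 (hball z hz).2.1 (hball z hz).2.2) n1 hinv hz
  have hm : (mA A - 1) * Real.log (R / θ) + 1 ≤ mA A * Real.log (R / θ) := by linarith
  have hE : 12 * ((mA A - 1) * Real.log (R / θ) + 1) / (θ / 2) ≤
      24 * (mA A) * Real.log (R / θ) / θ := by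
    have e1 : 24 * (mA A) * Real.log (R / θ) / θ = 12 * (mA A * Real.log (R / θ)) / (θ / 2) := by
      field_simp
      ring
    rw [e1]
    gcongr
  have hr2 : 2 * (θ / 2) = θ := by ring
  rw [hr2] at l2 l3
  refine ⟨by linarith, fun ρ hρ hρ0 => ?_, fun z hz d hd hdist => ?_⟩
  · have := l2 ρ hρ hρ0
    linarith
  · obtain ⟨m1, m2⟩ := l3 z hz d hd hdist
    refine ⟨m1, m2.trans (add_le_add ?_ hE)⟩
    have : (mA A - 1) * Real.log (R / θ) ≤ mA A * Real.log (R / θ) := by linarith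
    gcongr

/-- no zeros near the line -/
lemma zfree {A K : ℝ} (hA : 1 ≤ A) (hK0 : 0 < K)
    (hK : ∀ σ : ℝ, 1 < σ → σ ≤ 2 → AA σ ≤ 1 / (σ - 1) + K) (hAK : 3 * K + 120 * mA A ≤ A / 2)
    {χ : DirichletCharacter ℂ Q} {t θ R : ℝ} (D1 : Dat χ t (4 * θ) θ R)
    (D2 : Dat (χ ^ 2) (2 * t) (8 * θ) θ R) {ρ : ℂ} (hρ : χ.LFunction ρ = 0) (ht : |ρ.im - t| ≤ θ)
    (hre : 1 - θ / 2 ≤ ρ.re) : ρ.re ≤ 1 - θ / (7 * A * Real.log (R / θ)) := by
  have hθ0 := D1.θ0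
  have hθ1 := D1.θ1
  have hR3 := D1.R3
  obtain ⟨η, hη⟩ : ∃ η : ℝ, η = θ / (A * Real.log (R / θ)) := ⟨_, rfl⟩
  obtain ⟨hQ4, hη0, hη1, hi1, hi2⟩ := inv_exp hA D1.θ0 D1.θ1 D1.R3 hη
  have hre1 : ρ.re ≤ 1 := by
    by_contra hcon
    push Not at hcon
    exact (D1.ne hcon (by linarith)).1 hρ
  obtain ⟨a1, a2, -⟩ := D1.loc (τ := ρ.im) hA hη (by linarith)
  have h2t : |2 * ρ.im - 2 * t| = 2 * |ρ.im - t| := by
    rw [← mul_sub, abs_mul]
    norm_num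
  obtain ⟨b1, b2, -⟩ := D2.loc (τ := 2 * ρ.im) hA hη (by rw [h2t]; linarith)
  have hball : ρ ∈ closedBall (⟨1 + η, ρ.im⟩ : ℂ) θ := by
    rw [mem_closedBall, dist_eq_norm]
    have e : ρ - ⟨1 + η, ρ.im⟩ = ((ρ.re - (1 + η) : ℝ) : ℂ) := by
      apply Complex.ext <;> simp
    rw [e, Complex.norm_real, Real.norm_eq_abs, abs_le]
    constructor <;> linarith
  have a3 := a2 ρ hball hρ
  have e1 : (1 / ((⟨1 + η, ρ.im⟩ : ℂ) - ρ)).re = 1 / (1 + η - ρ.re) := by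
    have e : (⟨1 + η, ρ.im⟩ : ℂ) - ρ = ((1 + η - ρ.re : ℝ) : ℂ) := by
      apply Complex.ext <;> simp
    rw [e, ← Complex.ofReal_one, ← Complex.ofReal_div, Complex.ofReal_re]
  rw [e1] at a3
  have hc1 : ∀ v : ℝ, 1 < (⟨1 + η, v⟩ : ℂ).re := fun v => by
    show 1 < 1 + η
    linarith
  have h341 := tfo χ (σ := 1 + η) (by linarith) ρ.im
  have hAA := hK (1 + η) (by linarith) (by linarith)
  have e2 : 1 + η - 1 = η := by ring
  rw [e2] at hAA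
  generalize Real.log (R / θ) = Ql at *
  have hQ0 : 0 < Ql := by linarith
  have hA0 : 0 < A := by linarith
  have h3η : 1 / η = A * (Ql / θ) := by
    rw [hη]
    field_simp
  have hQθ : 1 ≤ Ql / θ := by
    rw [le_div_iff₀ hθ0]
    linarith
  have e3 : 24 * (mA A) * Ql / θ = 24 * (mA A) * (Ql / θ) := by ring
  rw [e3] at a3 b1
  have hD0 : 0 < 1 + η - ρ.re := by linarith
  have hKQ : K ≤ K * (Ql / θ) := by nlinarith
  have hm : 4 * (1 / (1 + η - ρ.re)) ≤ 7 / 2 * A * (Ql / θ) := by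
    have h8 : (3 * K + 120 * mA A) * (Ql / θ) ≤ A / 2 * (Ql / θ) :=
      mul_le_mul_of_nonneg_right hAK (by linarith)
    rw [h3η] at hAA
    linarith
  have h9 : 4 / (1 + η - ρ.re) ≤ 7 / 2 * A * (Ql / θ) := by
    have h1 : 4 * (1 / (1 + η - ρ.re)) = 4 / (1 + η - ρ.re) := by ring
    rwa [h1] at hm
  rw [div_le_iff₀ hD0] at h9
  have h10 : η = 1 / A * (θ / Ql) := by
    rw [hη]
    field_simp
  have h11 : θ / (7 * A * Ql) = 1 / 7 * η := by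
    rw [hη]
    field_simp
  rw [h11]
  have h12 : 8 / 7 * η ≤ 1 + η - ρ.re := by
    by_contra hcon
    push Not at hcon
    have h13 : 7 / 2 * A * (Ql / θ) * (1 + η - ρ.re) < 7 / 2 * A * (Ql / θ) * (8 / 7 * η) :=
      mul_lt_mul_of_pos_left hcon (by positivity)
    have h14 : 7 / 2 * A * (Ql / θ) * (8 / 7 * η) = 4 := by
      rw [hη]
      field_simp
      norm_num
    linarith
  linarith

/-- zero free region and bound for the inverse near the height `t` -/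
theorem invl : ∃ C : ℝ, 1 ≤ C ∧ ∀ (Q : ℕ) [NeZero Q] (χ : DirichletCharacter ℂ Q) (t θ R : ℝ),
    Dat χ t (4 * θ) θ R → Dat (χ ^ 2) (2 * t) (8 * θ) θ R →
    ∀ σ : ℝ, 1 - θ / (C * Real.log (R / θ)) ≤ σ → σ ≤ 2 →
    χ.LFunction ⟨σ, t⟩ ≠ 0 ∧ ‖(χ.LFunction ⟨σ, t⟩)⁻¹‖ ≤ (R / θ) ^ C := by
  obtain ⟨K, hK0, hK⟩ := AA_le
  obtain ⟨A, hA, hAK⟩ := exA K
  set M : ℝ := mA (28 * A) with hM
  have hM6 : 6 ≤ M := by
    rw [hM]
    unfold mA
    have := Real.log_nonneg (show (1 : ℝ) ≤ 2 * (28 * A) by linarith)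
    linarith
  refine ⟨28 * A + 100 * M, by linarith, ?_⟩
  intro Q _ χ t θ R D1 D2 σ hσ1 hσ2
  have hθ0 := D1.θ0
  have hθ1 := D1.θ1
  have hR3 := D1.R3
  have hd1 := D1.diff
  obtain ⟨w1, hw1⟩ : ∃ w1 : ℝ, w1 = θ / (28 * A * Real.log (R / θ)) := ⟨_, rfl⟩
  obtain ⟨hQ4, hw0, hw2, hi1, hi2⟩ := inv_exp (A := 28 * A) (by linarith) hθ0 hθ1 hR3 hw1
  have hzf : ∀ ρ : ℂ, χ.LFunction ρ = 0 → |ρ.im - t| ≤ θ → ρ.re ≤ 1 - 4 * w1 := by
    intro ρ hρ hρt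
    rcases le_or_gt (1 - θ / 2) ρ.re with hc | hc
    · have h1 := zfree hA hK0 hK hAK D1 D2 hρ hρt hc
      have h2 : θ / (7 * A * Real.log (R / θ)) = 4 * w1 := by
        rw [hw1]
        field_simp
        norm_num
      linarith
    · have h3 : 4 * w1 ≤ θ / 2 := by
        have : w1 ≤ θ / 8 := by
          rw [hw1]
          exact div_le_div_of_nonneg_left hθ0.le (by norm_num) (by nlinarith)
        linarith
      linarith
  have hσw : 1 - w1 ≤ σ := by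
    have h1 : θ / ((28 * A + 100 * M) * Real.log (R / θ)) ≤ w1 := by
      rw [hw1]
      apply div_le_div_of_nonneg_left hθ0.le (by positivity)
      nlinarith
    linarith
  have hrpow : (R / θ) ^ (28 * A + 100 * M) = Real.exp ((28 * A + 100 * M) * Real.log (R / θ)) := by
    rw [Real.rpow_def_of_pos (by positivity), mul_comm]
  rw [hrpow]
  have hl := D1.loc (A := 28 * A) (η := w1) (τ := t) (by linarith) hw1 (by
    rw [sub_self, abs_zero]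
    linarith)
  have hright : ∀ x : ℝ, 1 + w1 ≤ x → χ.LFunction ⟨x, t⟩ ≠ 0 ∧
      ‖(χ.LFunction ⟨x, t⟩)⁻¹‖ ≤ Real.exp (M * Real.log (R / θ)) := by
    intro x hx
    have h1 : 1 < (⟨x, t⟩ : ℂ).re := by
      show 1 < x
      linarith
    obtain ⟨n1, n2⟩ := D1.ne h1 (by
      show |t - t| < 4 * θ
      rw [sub_self, abs_zero]
      linarith)
    refine ⟨n1, n2.trans ?_⟩
    show (1 + 1 / (x - 1)) ^ 2 ≤ _
    have h2 : 1 / (x - 1) ≤ 1 / w1 := one_div_le_one_div_of_le hw0 (by linarith)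
    have h3 : 1 ≤ 1 / w1 := by
      rw [le_div_iff₀ hw0]
      linarith
    have h4 : 2 / w1 = 1 / w1 + 1 / w1 := by ring
    have h5 : 0 ≤ 1 / (x - 1) := by
      apply div_nonneg zero_le_one
      linarith
    calc (1 + 1 / (x - 1)) ^ 2 ≤ (2 / w1) ^ 2 := pow_le_pow_left₀ (by linarith) (by linarith) 2
      _ ≤ Real.exp ((mA (28 * A) - 2) * Real.log (R / θ)) := hi1
      _ ≤ Real.exp (M * Real.log (R / θ)) := Real.exp_le_exp.2 (by
        rw [← hM]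
        nlinarith)
  rw [← hM] at hl hi1 hi2
  obtain ⟨-, -, hl3⟩ := hl
  generalize hQ : Real.log (R / θ) = Ql at *
  have hQ0 : 0 < Ql := by linarith
  rcases le_or_gt (1 + w1) σ with hc | hc
  · obtain ⟨h1, h2⟩ := hright σ hc
    exact ⟨h1, h2.trans (Real.exp_le_exp.2 (by nlinarith))⟩
  have hseg : ∀ x ∈ Set.Icc σ (1 + w1), χ.LFunction ⟨x, t⟩ ≠ 0 ∧
      ‖deriv χ.LFunction ⟨x, t⟩ / χ.LFunction ⟨x, t⟩‖ ≤ 25 * M * Ql / w1 := by
    intro x hx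
    obtain ⟨h1, h2⟩ := hl3 ⟨x, t⟩ (by
      rw [mem_closedBall, dist_eq_norm]
      have e : (⟨x, t⟩ : ℂ) - ⟨1 + w1, t⟩ = ((x - (1 + w1) : ℝ) : ℂ) := by
        apply Complex.ext <;> simp
      rw [e, Complex.norm_real, Real.norm_eq_abs, abs_le]
      constructor <;> linarith [hx.1, hx.2]) (3 * w1) (by linarith) (by
      intro ρ hρ hρ0
      rw [mem_closedBall, dist_eq_norm] at hρ
      have h2 := (abs_im_le_norm (ρ - ⟨1 + w1, t⟩)).trans hρ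
      rw [sub_im] at h2
      have h3 := hzf ρ hρ0 h2
      have h4 := (le_abs_self _).trans (abs_re_le_norm ((⟨x, t⟩ : ℂ) - ρ))
      rw [sub_re] at h4
      have h5 : (⟨x, t⟩ : ℂ).re = x := rfl
      rw [h5] at h4
      linarith [hx.1])
    refine ⟨h1, h2.trans ?_⟩
    have e1 : M * Ql * (3 / 2) / (3 * w1) ≤ M * Ql / w1 := by
      have : M * Ql * (3 / 2) / (3 * w1) = 1 / 2 * (M * Ql / w1) := by
        field_simp
        try norm_num
      rw [this]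
      have : 0 < M * Ql / w1 := by positivity
      linarith
    have e2 : 24 * M * Ql / θ ≤ 24 * M * Ql / w1 :=
      div_le_div_of_nonneg_left (by positivity) hw0 (by linarith)
    have e3 : 25 * M * Ql / w1 = M * Ql / w1 + 24 * M * Ql / w1 := by ring
    rw [e3]
    exact add_le_add e1 e2
  have hdf : ∀ x ∈ Set.Icc σ (1 + w1), DifferentiableAt ℂ χ.LFunction ⟨x, t⟩ := by
    intro x hx
    refine (hd1 ⟨x, t⟩ ?_).differentiableAt ((isOpen_reg _ _ _).mem_nhds ?_)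
    all_goals
      refine ⟨?_, ?_⟩
      · show 1 - 4 * θ < x
        linarith [hx.1]
      · show |t - t| < 4 * θ
        rw [sub_self, abs_zero]
        linarith
  have hg := grow hc.le hdf hseg
  obtain ⟨k1, k2⟩ := hright (1 + w1) le_rfl
  have k3 := (hseg σ ⟨le_rfl, hc.le⟩).1
  refine ⟨k3, ?_⟩
  have hexp2 : Real.exp (25 * M * Ql / w1 * (1 + w1 - σ)) ≤ Real.exp (50 * M * Ql) := by
    apply Real.exp_le_exp.2
    have h1 : 25 * M * Ql / w1 * (1 + w1 - σ) ≤ 25 * M * Ql / w1 * (2 * w1) :=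
      mul_le_mul_of_nonneg_left (by linarith) (by positivity)
    have h2 : 25 * M * Ql / w1 * (2 * w1) = 50 * M * Ql := by
      field_simp
      norm_num
    linarith
  have k4 : 0 < ‖χ.LFunction ⟨σ, t⟩‖ := norm_pos_iff.2 k3
  have k5 : 0 < ‖χ.LFunction ⟨1 + w1, t⟩‖ := norm_pos_iff.2 k1
  have k6 : ‖χ.LFunction ⟨1 + w1, t⟩‖ ≤ ‖χ.LFunction ⟨σ, t⟩‖ * Real.exp (50 * M * Ql) :=
    hg.trans (mul_le_mul_of_nonneg_left hexp2 (norm_nonneg _))
  rw [norm_inv] at k2 ⊢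
  have k7 : ‖χ.LFunction ⟨σ, t⟩‖⁻¹ ≤ Real.exp (50 * M * Ql) * ‖χ.LFunction ⟨1 + w1, t⟩‖⁻¹ := by
    rw [inv_eq_one_div, div_le_iff₀ k4]
    have h1 : Real.exp (50 * M * Ql) * ‖χ.LFunction ⟨1 + w1, t⟩‖⁻¹ * ‖χ.LFunction ⟨σ, t⟩‖ =
        (‖χ.LFunction ⟨σ, t⟩‖ * Real.exp (50 * M * Ql)) / ‖χ.LFunction ⟨1 + w1, t⟩‖ := by
      ring
    rw [h1, le_div_iff₀ k5, one_mul]
    exact k6
  refine k7.trans ?_
  calc Real.exp (50 * M * Ql) * ‖χ.LFunction ⟨1 + w1, t⟩‖⁻¹ ≤ Real.exp (50 * M * Ql) * Real.exp (M * Ql) :=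
        mul_le_mul_of_nonneg_left k2 (Real.exp_pos _).le
    _ = Real.exp (51 * M * Ql) := by
      rw [← Real.exp_add]
      congr 1
      ring
    _ ≤ _ := Real.exp_le_exp.2 (by
      have h1 : 0 < A * Ql := by positivity
      have h2 : 0 < M * Ql := by positivity
      nlinarith)

end Pool.Agent.K9h19.CR.LI
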