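import Pool.Agent.K9h19.CR.EC

/-!
# Project CR, job PW: pointwise bounds for dyadic blocks
-/

set_option autoImplicit false

namespace Pool.Agent.K9h19.CR

open Finset Filter Topology Pool.Agent.Q236.CR
open Pool.Agent.Q53.CR (norm_nt)

/-- a logarithmic weight -/
theorem logw {h : ℕ → ℂ} {u : ℕ} {R : ℝ} : ∀ v : ℕ, u ≤ v →
    (∀ w, u ≤ w → w ≤ v → ‖∑ n ∈ Ioc u w, h n‖ ≤ R) →
    ‖∑ n ∈ Ioc u v, (Real.log n : ℂ) * h n - (Real.log v : ℂ) * ∑ n ∈ Ioc u v, h n‖ ≤
      R * (Real.log v - Real.log u) := by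
  intro v hv
  induction v, hv using Nat.le_induction with
  | base => intro _; simp
  | succ v hv ih =>
    intro hR
    have ih' := ih fun w h1 h2 => hR w h1 (by omega)
    have e : ∑ n ∈ Ioc u (v + 1), (Real.log n : ℂ) * h n -
        (Real.log (v + 1 : ℕ) : ℂ) * ∑ n ∈ Ioc u (v + 1), h n =
        (∑ n ∈ Ioc u v, (Real.log n : ℂ) * h n - (Real.log v : ℂ) * ∑ n ∈ Ioc u v, h n) +
          ((Real.log v - Real.log (v + 1 : ℕ) : ℝ) : ℂ) * ∑ n ∈ Ioc u v, h n := by
      rw [Finset.sum_Ioc_succ_top (by omega), Finset.sum_Ioc_succ_top (by omega)]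
      push_cast
      ring
    rw [e]
    refine (norm_add_le _ _).trans ?_
    rw [norm_mul, Complex.norm_real, Real.norm_eq_abs]
    have h1 : Real.log v ≤ Real.log (v + 1 : ℕ) := by
      rcases Nat.eq_zero_or_pos v with rfl | hv0
      · simp
      · exact Real.log_le_log (by exact_mod_cast hv0) (by push_cast; linarith)
    rw [abs_of_nonpos (by linarith)]
    have h2 := hR v hv (by omega)
    calc _ ≤ R * (Real.log v - Real.log u) + -(Real.log v - Real.log (v + 1 : ℕ)) * R := by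
          apply add_le_add ih'
          exact mul_le_mul_of_nonneg_left h2 (by linarith)
      _ = _ := by ring

theorem logw' {h : ℕ → ℂ} {u v : ℕ} {R : ℝ} (huv : u ≤ v)
    (hR : ∀ w, u ≤ w → w ≤ v → ‖∑ n ∈ Ioc u w, h n‖ ≤ R) :
    ‖∑ n ∈ Ioc u v, (Real.log n : ℂ) * h n‖ ≤ 2 * R * Real.log v := by
  have h1 := logw v huv hR
  have h2 := hR v huv le_rfl
  have h3 : 0 ≤ Real.log v := Real.log_natCast_nonneg v
  have h4 : 0 ≤ Real.log u := Real.log_natCast_nonneg u
  have hR0 : 0 ≤ R := (norm_nonneg _).trans h2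
  have h5 : ‖(Real.log v : ℂ) * ∑ n ∈ Ioc u v, h n‖ ≤ Real.log v * R := by
    rw [norm_mul, Complex.norm_real, Real.norm_of_nonneg h3]
    exact mul_le_mul_of_nonneg_left h2 h3
  calc ‖∑ n ∈ Ioc u v, (Real.log n : ℂ) * h n‖ =
        ‖(∑ n ∈ Ioc u v, (Real.log n : ℂ) * h n - (Real.log v : ℂ) * ∑ n ∈ Ioc u v, h n) +
          (Real.log v : ℂ) * ∑ n ∈ Ioc u v, h n‖ := by rw [sub_add_cancel]
    _ ≤ R * (Real.log v - Real.log u) + Real.log v * R := (norm_add_le _ _).trans (add_le_add h1 h5)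
    _ ≤ 2 * R * Real.log v := by nlinarith

/-- a block `[M, 2M)` and the block `(M, 2M - 1]` -/
theorem ico_eq (h : ℕ → ℂ) {M : ℕ} (hM : 1 ≤ M) :
    ∑ n ∈ Ico M (2 * M), h n = h M + ∑ n ∈ Ioc M (2 * M - 1), h n := by
  rw [Finset.sum_eq_sum_Ico_succ_bot (by omega)]
  congr 1
  apply Finset.sum_congr _ fun _ _ => rfl
  ext n
  simp only [mem_Ico, mem_Ioc]
  omega

theorem ev_natlog {P : ℝ → Prop} (h : ∀ᶠ l : ℝ in atTop, P l) : ∃ X₀ : ℕ, ∀ X : ℕ, X₀ ≤ X →
    P (Real.log X) := by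
  have h1 : Tendsto (fun X : ℕ => Real.log X) atTop atTop :=
    Real.tendsto_log_atTop.comp tendsto_natCast_atTop_atTop
  obtain ⟨X₀, hX₀⟩ := (h1.eventually h).exists_forall_of_atTop
  exact ⟨X₀, hX₀⟩

theorem ev_exp (c C : ℝ) (k : ℕ) (hc : 0 < c) : ∀ᶠ l : ℝ in atTop, C * l ^ k ≤ Real.exp (c * l) := by
  have h1 := (Real.tendsto_pow_mul_exp_neg_atTop_nhds_zero k).comp (tendsto_id.const_mul_atTop hc)
  have h2 : ∀ᶠ l : ℝ in atTop, (c * l) ^ k * Real.exp (-(c * l)) < c ^ k / (|C| + 1) :=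
    h1.eventually_lt_const (by positivity)
  filter_upwards [h2, eventually_ge_atTop 0] with l h3 h4
  rw [Real.exp_neg, ← div_eq_mul_inv, div_lt_div_iff₀ (Real.exp_pos _) (by positivity), mul_pow,
    mul_assoc] at h3
  have h5 : l ^ k * (|C| + 1) < Real.exp (c * l) := lt_of_mul_lt_mul_left h3 (by positivity)
  have h6 : 0 ≤ l ^ k := by positivity
  have h7 := le_abs_self C
  nlinarith

/-- sub-blocks of the constant function -/
theorem pw1 (hc : S_CHR) : ∀ B K : ℕ, ∃ C₀ X₀ : ℕ, ∀ X : ℕ, X₀ ≤ X → ∀ (q : ℕ) (_ : NeZero q),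
    (q : ℝ) ≤ Real.log X ^ B → ∀ (χ : DirichletCharacter ℂ q) (τ : ℝ), Real.log X ^ C₀ ≤ |τ| →
    |τ| ≤ X → ∀ M v : ℕ, (X : ℝ) ≤ (M : ℝ) ^ 20 → (M : ℝ) ≤ (X : ℝ) ^ 2 → M ≤ v → v ≤ 2 * M →
    ‖∑ n ∈ Ioc M v, χ (n : ZMod q) * nt τ n‖ ≤ M / Real.log X ^ K := by
  intro B K
  obtain ⟨⟨C, c, hc0, hc1, h1⟩, ⟨C₂, hC₂, h2⟩⟩ := hc
  obtain ⟨E, hE⟩ : ∃ E : ℝ, E = Real.exp (C * (1 + 20) ^ C) := ⟨_, rfl⟩
  have hE0 : 0 < E := by rw [hE]; exact Real.exp_pos _
  have hev : ∀ᶠ l : ℝ in atTop, E * l ^ (B + K) ≤ Real.exp (c / 8820 * l) ∧ 10 * C₂ ≤ l ∧ 4 ≤ l := by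
    filter_upwards [ev_exp (c / 8820) E (B + K) (by positivity), eventually_ge_atTop (10 * C₂),
      eventually_ge_atTop 4] with l h3 h4 h5
    exact ⟨h3, h4, h5⟩
  obtain ⟨X₀, hX₀⟩ := ev_natlog hev
  refine ⟨2 * (B + K + 2), max X₀ 3, ?_⟩
  intro X hX q hq hqX χ τ hτ1 hτ2 M v hMX hMX2 hMv hvM
  obtain ⟨g1, g2, g3⟩ := hX₀ X ((le_max_left _ _).trans hX)
  have hX3 : 3 ≤ X := (le_max_right _ _).trans hX
  have hX3r : (3 : ℝ) ≤ X := by exact_mod_cast hX3
  have hX0 : (0 : ℝ) < X := by linarith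
  obtain ⟨l, hl⟩ : ∃ l : ℝ, l = Real.log X := ⟨_, rfl⟩
  rw [← hl] at g1 g2 g3 hqX hτ1 ⊢
  have hl0 : 0 < l := by linarith
  have hl1 : 1 ≤ l := by linarith
  have hM2 : 2 ≤ M := by
    by_contra hcon
    have : M ≤ 1 := by omega
    have hM1 : (M : ℝ) ≤ 1 := by exact_mod_cast this
    have : (M : ℝ) ^ 20 ≤ 1 := pow_le_one₀ (Nat.cast_nonneg M) hM1
    linarith
  have hM2r : (2 : ℝ) ≤ M := by exact_mod_cast hM2
  have hM0 : (0 : ℝ) < M := by linarith
  have hM1 : (1 : ℝ) ≤ M := by linarith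
  have hlogM : 0 < Real.log M := Real.log_pos (by linarith)
  have hlX : l ≤ 20 * Real.log M := by
    rw [hl]
    have := Real.log_le_log hX0 hMX
    rwa [Real.log_pow] at this
  have hlM2 : Real.log M ≤ 2 * l := by
    have := Real.log_le_log hM0 hMX2
    rw [Real.log_pow] at this
    rw [hl]
    exact_mod_cast this
  have hlK : 0 < l ^ K := by positivity
  have hτ1' : 1 ≤ |τ| := le_trans (one_le_pow₀ hl1) hτ1
  have hτ0 : 0 < |τ| := by linarith
  rcases le_or_gt (M : ℝ) |τ| with hcase | hcase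
  · have hκ1 : 1 ≤ Real.log |τ| / Real.log M := by
      rw [le_div_iff₀ hlogM, one_mul]
      exact Real.log_le_log hM0 hcase
    have hκ2 : Real.log |τ| / Real.log M ≤ 20 := by
      rw [div_le_iff₀ hlogM]
      refine le_trans ?_ hlX
      rw [hl]
      exact Real.log_le_log hτ0 hτ2
    have hκ : |τ| = (M : ℝ) ^ (Real.log |τ| / Real.log M) := by
      rw [Real.rpow_def_of_pos hM0, mul_div_cancel₀ _ hlogM.ne', Real.exp_log hτ0]
    obtain ⟨κ, hκd⟩ : ∃ κ : ℝ, κ = Real.log |τ| / Real.log M := ⟨_, rfl⟩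
    rw [← hκd] at hκ1 hκ2 hκ
    have h3 := h1 q hq χ M v τ κ hM2 hMv hvM hκ1 hκ
    refine h3.trans ?_
    have h4 : Real.exp (C * (1 + κ) ^ C) ≤ E := by
      rw [hE]
      apply Real.exp_le_exp.2
      apply mul_le_mul_of_nonneg_left _ (Nat.cast_nonneg C)
      exact pow_le_pow_left₀ (by linarith) (by linarith) _
    have h5 : (M : ℝ) ^ (1 - c / (1 + κ) ^ 2 : ℝ) ≤ M * Real.exp (-(c / 8820 * l)) := by
      have h6 : c / 441 ≤ c / (1 + κ) ^ 2 := by
        apply div_le_div_of_nonneg_left hc0.le (by positivity)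
        nlinarith
      calc (M : ℝ) ^ (1 - c / (1 + κ) ^ 2 : ℝ) ≤ (M : ℝ) ^ (1 - c / 441 : ℝ) :=
            Real.rpow_le_rpow_of_exponent_le hM1 (by linarith)
        _ = M * Real.exp (-(c / 441 * Real.log M)) := by
            rw [sub_eq_add_neg, Real.rpow_add hM0, Real.rpow_one, Real.rpow_def_of_pos hM0]
            congr 2
            ring
        _ ≤ M * Real.exp (-(c / 8820 * l)) := by
            apply mul_le_mul_of_nonneg_left _ hM0.le
            apply Real.exp_le_exp.2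
            have : c / 8820 * l ≤ c / 8820 * (20 * Real.log M) :=
              mul_le_mul_of_nonneg_left hlX (by positivity)
            have e : c / 8820 * (20 * Real.log M) = c / 441 * Real.log M := by ring
            linarith
    have h6 : Real.exp (-(c / 8820 * l)) ≤ 1 / (E * l ^ (B + K)) := by
      rw [Real.exp_neg, ← one_div]
      exact one_div_le_one_div_of_le (by positivity) g1
    calc (q : ℝ) * (Real.exp (C * (1 + κ) ^ C) * (M : ℝ) ^ (1 - c / (1 + κ) ^ 2 : ℝ))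
        ≤ l ^ B * (E * (M * (1 / (E * l ^ (B + K))))) := by
          apply mul_le_mul hqX _ (by positivity) (by positivity)
          apply mul_le_mul h4 _ (by positivity) hE0.le
          exact h5.trans (mul_le_mul_of_nonneg_left h6 hM0.le)
      _ = M / l ^ K := by
          rw [pow_add]
          field_simp
  · have h3 := h2 q hq χ M v τ (by omega) hMv hvM hτ1'
    refine h3.trans ?_
    have h4 : l ^ (B + K + 2) ≤ √|τ| := by
      apply Real.le_sqrt_of_sq_le
      rw [← pow_mul, mul_comm]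
      exact hτ1
    have hs0 : 0 < √|τ| := Real.sqrt_pos.2 hτ0
    have h5 : √|τ| ≤ M / √|τ| := by
      rw [le_div_iff₀ hs0, Real.mul_self_sqrt hτ0.le]
      exact hcase.le
    have h6 : (M : ℝ) / √|τ| ≤ M / l ^ (B + K + 2) :=
      div_le_div_of_nonneg_left hM0.le (by positivity) h4
    calc (q : ℝ) * (C₂ * (√|τ| + M / √|τ|) * (1 + Real.log M))
        ≤ l ^ B * (C₂ * (M / l ^ (B + K + 2) + M / l ^ (B + K + 2)) * (5 * l)) := by
          apply mul_le_mul hqX _ (by positivity) (by positivity)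
          apply mul_le_mul _ (by linarith) (by positivity) (by positivity)
          apply mul_le_mul_of_nonneg_left _ (by linarith)
          exact add_le_add (h5.trans h6) h6
      _ = (10 * C₂) * (M / l ^ (K + 1)) := by
          have e : l ^ (B + K + 2) = l ^ B * l * l ^ (K + 1) := by ring
          rw [e]
          field_simp
          ring
      _ ≤ l * (M / l ^ (K + 1)) := mul_le_mul_of_nonneg_right g2 (by positivity)
      _ = M / l ^ K := by
          rw [pow_succ]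
          field_simp

theorem pw (hc : S_CHR) (hm : S_MOC) : ∀ B K : ℕ, ∃ C₀ X₀ : ℕ, ∀ X : ℕ, X₀ ≤ X →
    ∀ (q : ℕ) (_ : NeZero q), (q : ℝ) ≤ Real.log X ^ B → ∀ (χ : DirichletCharacter ℂ q) (τ : ℝ),
    Real.log X ^ C₀ ≤ |τ| → |τ| ≤ X → ∀ M : ℕ, (X : ℝ) ≤ (M : ℝ) ^ 20 → (M : ℝ) ≤ (X : ℝ) ^ 2 →
    (∀ z : ℕ, ‖∑ n ∈ Ico M (2 * M), (if n ≤ z then ((ArithmeticFunction.moebius n : ℤ) : ℂ) else 0) *
      (χ (n : ZMod q) * nt τ n)‖ ≤ M / Real.log X ^ K) ∧
    ‖∑ n ∈ Ico M (2 * M), χ (n : ZMod q) * nt τ n‖ ≤ M / Real.log X ^ K ∧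
    ‖∑ n ∈ Ico M (2 * M), (Real.log n : ℂ) * (χ (n : ZMod q) * nt τ n)‖ ≤ M / Real.log X ^ K := by
  intro B K
  obtain ⟨C₁, X₁, hp1⟩ := pw1 hc B (K + 2)
  obtain ⟨C₃, D, hmo⟩ := hm 40 (B + 1) (K + 1)
  have hev : ∀ᶠ l : ℝ in atTop, 3 * l ^ (K + 1) ≤ Real.exp (1 / 20 * l) ∧
      (40 : ℝ) ^ (B + 2) ≤ l ∧ 3 ^ C₃ ≤ l ∧ 8 * |D| * 40 ^ (K + 1) ≤ l ∧ 100 ≤ l := by
    filter_upwards [ev_exp (1 / 20) 3 (K + 1) (by norm_num), eventually_ge_atTop ((40 : ℝ) ^ (B + 2)),
      eventually_ge_atTop ((3 : ℝ) ^ C₃), eventually_ge_atTop (8 * |D| * 40 ^ (K + 1)),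
      eventually_ge_atTop 100] with l h3 h4 h5 h6 h7
    exact ⟨h3, h4, h5, h6, h7⟩
  obtain ⟨X₂, hX₂⟩ := ev_natlog hev
  refine ⟨max C₁ (C₃ + 1), max (max X₁ X₂) 3, ?_⟩
  intro X hX q hq hqX χ τ hτ1 hτ2 M hMX hMX2
  obtain ⟨g1, g2, g3, g4, g5⟩ := hX₂ X ((le_max_right _ _).trans ((le_max_left _ _).trans hX))
  have hX3 : 3 ≤ X := (le_max_right _ _).trans hX
  have hX3r : (3 : ℝ) ≤ X := by exact_mod_cast hX3
  have hX0 : (0 : ℝ) < X := by linarith
  have hp1' := hp1 X ((le_max_left _ _).trans ((le_max_left _ _).trans hX)) q hq hqX χ τ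
  obtain ⟨l, hl⟩ : ∃ l : ℝ, l = Real.log X := ⟨_, rfl⟩
  rw [← hl] at g1 g2 g3 g4 g5 hqX hτ1 hp1' ⊢
  have hl0 : 0 < l := by linarith
  have hl1 : 1 ≤ l := by linarith
  have hM2 : 2 ≤ M := by
    by_contra hcon
    have : M ≤ 1 := by omega
    have hM1 : (M : ℝ) ≤ 1 := by exact_mod_cast this
    have : (M : ℝ) ^ 20 ≤ 1 := pow_le_one₀ (Nat.cast_nonneg M) hM1
    linarith
  have hM2r : (2 : ℝ) ≤ M := by exact_mod_cast hM2
  have hM0 : (0 : ℝ) < M := by linarith
  have hlogM : 0 < Real.log M := Real.log_pos (by linarith)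
  have hlX : l ≤ 20 * Real.log M := by
    rw [hl]
    have := Real.log_le_log hX0 hMX
    rwa [Real.log_pow] at this
  have hlM2 : Real.log M ≤ 2 * l := by
    have := Real.log_le_log hM0 hMX2
    rw [Real.log_pow] at this
    rw [hl]
    exact_mod_cast this
  have hMl : 3 * l ^ (K + 1) ≤ M := by
    refine g1.trans ?_
    calc Real.exp (1 / 20 * l) ≤ Real.exp (Real.log M) := Real.exp_le_exp.2 (by linarith)
      _ = M := Real.exp_log hM0
  have hτC1 : l ^ C₁ ≤ |τ| := (pow_le_pow_right₀ hl1 (le_max_left _ _)).trans hτ1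
  have hτC3 : l ^ (C₃ + 1) ≤ |τ| := (pow_le_pow_right₀ hl1 (le_max_right _ _)).trans hτ1
  have hsub := hp1' hτC1 hτ2 M
  have hg1 : ‖χ (M : ZMod q) * nt τ M‖ ≤ 1 := by
    rw [norm_mul, norm_nt τ M (by omega), mul_one]
    exact χ.norm_le_one _
  have hlK : 0 < l ^ K := by positivity
  have hlK2 : (0 : ℝ) < l ^ (K + 2) := by positivity
  refine ⟨?_, ?_, ?_⟩
  · intro z
    obtain ⟨S, hS⟩ : ∃ S : ℕ → ℂ, S = fun N => ∑ n ∈ Icc 1 N, ((ArithmeticFunction.moebius n : ℤ) : ℂ) *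
        (χ (n : ZMod q) * nt τ n) := ⟨_, rfl⟩
    have hSb : ∀ N : ℕ, M - 1 ≤ N → N ≤ 2 * M → ‖S N‖ ≤ M / l ^ K / 2 := by
      intro N hN1 hN2
      have hM100 : 100 ≤ M := by
        have h3 : (100 : ℝ) ≤ M := by
          calc (100 : ℝ) ≤ l := g5
            _ = 1 * l ^ 1 := by ring
            _ ≤ 3 * l ^ (K + 1) := by
                apply mul_le_mul (by norm_num) (pow_le_pow_right₀ hl1 (by omega)) (by positivity)
                  (by norm_num)
            _ ≤ M := hMl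
        exact_mod_cast h3
      have hNr1 : (M : ℝ) / 2 ≤ N := by
        have h3 : M ≤ 2 * N := by omega
        have h4 : (M : ℝ) ≤ 2 * N := by exact_mod_cast h3
        linarith
      have hNr2 : (N : ℝ) ≤ 2 * M := by exact_mod_cast hN2
      have hN0 : (0 : ℝ) < N := by linarith
      have hlN1 : l / 40 ≤ Real.log N := by
        have h3 : Real.log (M / 2) ≤ Real.log N := Real.log_le_log (by linarith) hNr1
        rw [Real.log_div hM0.ne' (by norm_num)] at h3
        have h4 := Real.log_two_lt_d9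
        linarith
      have hlN2 : Real.log N ≤ 3 * l := by
        have h3 : Real.log N ≤ Real.log (2 * M) := Real.log_le_log hN0 hNr2
        rw [Real.log_mul (by norm_num) hM0.ne'] at h3
        have h4 := Real.log_two_lt_d9
        linarith
      have hlN0 : 0 < Real.log N := by linarith
      have k1 : (q : ℝ) ≤ Real.log N ^ (B + 1) := by
        refine hqX.trans ?_
        have h3 : (l / 40) ^ (B + 1) ≤ Real.log N ^ (B + 1) :=
          pow_le_pow_left₀ (by positivity) hlN1 _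
        refine le_trans ?_ h3
        rw [div_pow, le_div_iff₀ (by positivity)]
        calc l ^ B * 40 ^ (B + 1) ≤ l ^ B * 40 ^ (B + 2) := by
              gcongr
              · norm_num
              · omega
          _ ≤ l ^ B * l := by gcongr
          _ = l ^ (B + 1) := by ring
      have k2 : Real.log N ^ C₃ ≤ |τ| := by
        refine le_trans ?_ hτC3
        calc Real.log N ^ C₃ ≤ (3 * l) ^ C₃ := pow_le_pow_left₀ hlN0.le hlN2 _
          _ = 3 ^ C₃ * l ^ C₃ := mul_pow _ _ _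
          _ ≤ l * l ^ C₃ := by gcongr
          _ = l ^ (C₃ + 1) := by ring
      have k3 : |τ| ≤ (N : ℝ) ^ 40 := by
        refine hτ2.trans (hMX.trans ?_)
        have h3 : (M : ℝ) ≤ (N : ℝ) ^ 2 := by
          have h4 : (2 : ℝ) ≤ N := by
            have h5 : (100 : ℝ) ≤ M := by exact_mod_cast hM100
            linarith
          nlinarith
        calc (M : ℝ) ^ 20 ≤ ((N : ℝ) ^ 2) ^ 20 := pow_le_pow_left₀ hM0.le h3 20
          _ = (N : ℝ) ^ 40 := by rw [← pow_mul]
      have hN2' : 2 ≤ N := by omega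
      have h3 := hmo N q hq χ τ hN2' k1 k2 k3
      rw [hS]
      refine h3.trans ?_
      have h4 : D * (N : ℝ) / Real.log N ^ (K + 1) ≤ |D| * (2 * M) / (l / 40) ^ (K + 1) := by
        apply div_le_div₀ (by positivity) _ (by positivity)
          (pow_le_pow_left₀ (by positivity) hlN1 _)
        exact mul_le_mul (le_abs_self D) hNr2 hN0.le (abs_nonneg D)
      refine h4.trans ?_
      have e : |D| * (2 * (M : ℝ)) / (l / 40) ^ (K + 1) =
          (8 * |D| * 40 ^ (K + 1)) * (M / (4 * l ^ (K + 1))) := by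
        rw [div_pow]
        field_simp
        ring
      rw [e]
      calc (8 * |D| * 40 ^ (K + 1)) * (M / (4 * l ^ (K + 1))) ≤ l * (M / (4 * l ^ (K + 1))) := by
            gcongr
        _ = M / l ^ K / 4 := by
            rw [pow_succ]
            field_simp
        _ ≤ M / l ^ K / 2 := by
            apply div_le_div_of_nonneg_left (by positivity) (by norm_num) (by norm_num)
    rcases lt_or_ge z M with hzM | hzM
    · have h3 : ∑ n ∈ Ico M (2 * M), (if n ≤ z then ((ArithmeticFunction.moebius n : ℤ) : ℂ) else 0) *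
          (χ (n : ZMod q) * nt τ n) = 0 := by
        apply Finset.sum_eq_zero
        intro n hn
        rw [mem_Ico] at hn
        rw [if_neg (by omega), zero_mul]
      rw [h3, norm_zero]
      positivity
    · have h3 : ∑ n ∈ Ico M (2 * M), (if n ≤ z then ((ArithmeticFunction.moebius n : ℤ) : ℂ) else 0) *
          (χ (n : ZMod q) * nt τ n) = S (min (2 * M - 1) z) - S (M - 1) := by
        rw [hS]
        simp only
        have e1 : Icc 1 (min (2 * M - 1) z) = Icc 1 (M - 1) ∪ Icc M (min (2 * M - 1) z) := by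
          ext n
          simp only [mem_union, mem_Icc]
          omega
        have e2 : Disjoint (Icc 1 (M - 1)) (Icc M (min (2 * M - 1) z)) := by
          rw [Finset.disjoint_left]
          intro n h4 h5
          rw [mem_Icc] at h4 h5
          omega
        rw [e1, Finset.sum_union e2, add_sub_cancel_left]
        have e3 : Icc M (min (2 * M - 1) z) = (Ico M (2 * M)).filter (fun n => n ≤ z) := by
          ext n
          simp only [mem_filter, mem_Icc, mem_Ico]
          omega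
        rw [e3, Finset.sum_filter]
        apply Finset.sum_congr rfl
        intro n _
        split_ifs <;> simp
      rw [h3]
      refine (norm_sub_le _ _).trans ?_
      have h4 := hSb (min (2 * M - 1) z) (by omega) (by omega)
      have h5 := hSb (M - 1) le_rfl (by omega)
      linarith
  · rw [ico_eq _ (by omega)]
    refine (norm_add_le _ _).trans ?_
    have h3 := hsub (2 * M - 1) hMX hMX2 (by omega) (by omega)
    have h4 : (M : ℝ) / l ^ (K + 2) ≤ M / l ^ K / 3 := by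
      rw [div_div]
      apply div_le_div_of_nonneg_left hM0.le (by positivity)
      calc l ^ K * 3 ≤ l ^ K * l ^ 2 := by
            apply mul_le_mul_of_nonneg_left _ hlK.le
            nlinarith
        _ = l ^ (K + 2) := by ring
    have h5 : 1 ≤ (M : ℝ) / l ^ K / 3 := by
      rw [div_div, le_div_iff₀ (by positivity)]
      have : l ^ K ≤ l ^ (K + 1) := pow_le_pow_right₀ hl1 (by omega)
      linarith
    have h6 : 0 ≤ (M : ℝ) / l ^ K := by positivity
    linarith
  · rw [ico_eq (fun n => (Real.log n : ℂ) * (χ (n : ZMod q) * nt τ n)) (by omega)]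
    refine (norm_add_le _ _).trans ?_
    have h3 := logw' (h := fun n => χ (n : ZMod q) * nt τ n) (u := M) (v := 2 * M - 1)
      (R := M / l ^ (K + 2)) (by omega) fun w h1 h2 => hsub w hMX hMX2 h1 (by omega)
    have h2M : Real.log ((2 * M - 1 : ℕ) : ℝ) ≤ 3 * l := by
      have h4 : Real.log ((2 * M - 1 : ℕ) : ℝ) ≤ Real.log (2 * M) := by
        apply Real.log_le_log
        · exact_mod_cast (by omega : 0 < 2 * M - 1)
        · have h5 : 2 * M - 1 ≤ 2 * M := by omega
          exact_mod_cast h5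
      rw [Real.log_mul (by norm_num) hM0.ne'] at h4
      have h5 := Real.log_two_lt_d9
      linarith
    have h4 : ‖(Real.log M : ℂ) * (χ (M : ZMod q) * nt τ M)‖ ≤ 2 * l := by
      rw [norm_mul, Complex.norm_real, Real.norm_of_nonneg hlogM.le]
      calc Real.log M * ‖χ (M : ZMod q) * nt τ M‖ ≤ (2 * l) * 1 :=
            mul_le_mul hlM2 hg1 (norm_nonneg _) (by positivity)
        _ = 2 * l := mul_one _
    have h5 : 2 * ((M : ℝ) / l ^ (K + 2)) * Real.log ((2 * M - 1 : ℕ) : ℝ) ≤ M / l ^ K / 3 := by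
      calc 2 * ((M : ℝ) / l ^ (K + 2)) * Real.log ((2 * M - 1 : ℕ) : ℝ) ≤
          2 * ((M : ℝ) / l ^ (K + 2)) * (3 * l) := mul_le_mul_of_nonneg_left h2M (by positivity)
        _ = M / l ^ K * (6 / l) := by
            have e : l ^ (K + 2) = l ^ K * l * l := by ring
            rw [e]
            field_simp
            try norm_num
        _ ≤ M / l ^ K * (1 / 3) := by
            apply mul_le_mul_of_nonneg_left _ (by positivity)
            rw [div_le_iff₀ hl0]
            linarith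
        _ = M / l ^ K / 3 := by ring
    have h6 : 2 * l ≤ (M : ℝ) / l ^ K * (2 / 3) := by
      rw [div_mul_eq_mul_div, le_div_iff₀ hlK]
      have e : 2 * l * l ^ K = 2 / 3 * (3 * l ^ (K + 1)) := by ring
      rw [e]
      nlinarith
    have h7 : (M : ℝ) / l ^ K / 3 = M / l ^ K * (1 / 3) := by ring
    linarith

end Pool.Agent.K9h19.CR
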