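import Pool.Agent.K9h19.CR.TW

/-!
# The windows for the primes without weights
-/

set_option autoImplicit false

namespace Pool.Agent.K9h19.CR

open Finset Filter Topology
open Pool.Agent.Q236.CR
open Pool.Agent.H373R2.T7 (lamz Vz pz Vz_pos Vz_inv_small)

/-- the difference of the characteristic function of the primes and its model -/
noncomputable def PE (z n : ℕ) : ℝ := (if n.Prime then 1 else 0) - lamz z n / Real.log n

/-- the prime powers -/
noncomputable def ppw (n : ℕ) : ℝ := ArithmeticFunction.vonMangoldt n - (if n.Prime then Real.log n else 0)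

theorem ppw_nonneg (n : ℕ) : 0 ≤ ppw n := by
  unfold ppw
  split_ifs with h
  · rw [ArithmeticFunction.vonMangoldt_apply_prime h, sub_self]
  · rw [sub_zero]
    exact ArithmeticFunction.vonMangoldt_nonneg

theorem ppw_le {n N : ℕ} (hn : 1 ≤ n) (hN : n ≤ N) : ppw n ≤ Real.log N := by
  have h1 : ArithmeticFunction.vonMangoldt n ≤ Real.log N :=
    ArithmeticFunction.vonMangoldt_le_log.trans
      (Real.log_le_log (by exact_mod_cast hn) (by exact_mod_cast hN))
  unfold ppw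
  have h2 : 0 ≤ (if n.Prime then Real.log n else 0) := by
    split_ifs
    · exact Real.log_natCast_nonneg n
    · exact le_rfl
  linarith

theorem ppw_one : ppw 1 = 0 := by
  unfold ppw
  simp [Nat.not_prime_one]

theorem sum_ppw {N : ℕ} (hN : 1 ≤ N) : ∑ n ∈ Icc 1 N, ppw n ≤ 2 * Real.sqrt N * Real.log N := by
  have h := Chebyshev.abs_psi_sub_theta_le_sqrt_mul_log (x := (N : ℝ)) (by exact_mod_cast hN)
  have h1 : ∑ n ∈ Icc 1 N, ppw n = Chebyshev.psi N - Chebyshev.theta N := by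
    unfold ppw
    rw [Finset.sum_sub_distrib]
    congr 1
    · unfold Chebyshev.psi
      rw [Nat.floor_natCast]
      rfl
    · unfold Chebyshev.theta
      rw [Nat.floor_natCast, ← Finset.sum_filter]
      rfl
  rw [h1]
  exact (le_abs_self _).trans h

theorem log_two_le {n : ℕ} (hn : 2 ≤ n) : 1 / 2 ≤ Real.log n := by
  have h1 : Real.log 2 ≤ Real.log n := Real.log_le_log two_pos (by exact_mod_cast hn)
  have := Real.log_two_gt_d9
  linarith

theorem PE_eq (z n : ℕ) : PE z n = EE z n / Real.log n - ppw n / Real.log n := by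
  unfold PE EE ppw
  split_ifs with h
  · have h1 : Real.log n ≠ 0 := by
      have := log_two_le h.two_le
      linarith
    field_simp
    ring
  · ring

theorem lamz_nonneg (z n : ℕ) : 0 ≤ lamz z n := by
  unfold lamz
  have := inv_pos.2 (Vz_pos z)
  split_ifs
  · exact this.le
  · exact le_rfl

theorem lamz_le (z n : ℕ) : lamz z n ≤ (Vz z)⁻¹ := by
  unfold lamz
  have := inv_pos.2 (Vz_pos z)
  split_ifs
  · exact le_rfl
  · exact this.le

theorem PE_le {z n N : ℕ} (hV : (Vz z)⁻¹ ≤ Real.log N) (hL : 1 ≤ Real.log N) :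
    |PE z n| ≤ 3 * Real.log N := by
  have h3 := lamz_nonneg z n
  have h4 := (lamz_le z n).trans hV
  have h5 : 0 ≤ lamz z n / Real.log n ∧ lamz z n / Real.log n ≤ 2 * Real.log N := by
    rcases Nat.lt_or_ge n 2 with h | h
    · have h6 : Real.log n = 0 := by
        interval_cases n <;> simp
      rw [h6, div_zero]
      exact ⟨le_rfl, by linarith⟩
    · have h6 := log_two_le h
      have h7 : 0 < Real.log n := by linarith
      refine ⟨by positivity, ?_⟩
      rw [div_le_iff₀ h7]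
      nlinarith
  unfold PE
  rw [abs_le]
  split_ifs <;> constructor <;> linarith [h5.1, h5.2]

theorem log_diff {a n m H : ℕ} (ha : 2 ≤ a) (hn : a < n) (hnm : n ≤ m) (hm : m ≤ n + H) :
    |1 / Real.log n - 1 / Real.log m| ≤ H / a := by
  have ha0 : (0 : ℝ) < a := by exact_mod_cast (by omega : 0 < a)
  have hn0 : (0 : ℝ) < n := by exact_mod_cast (by omega : 0 < n)
  have hm0 : (0 : ℝ) < m := by exact_mod_cast (by omega : 0 < m)
  have hnm' : (n : ℝ) ≤ m := by exact_mod_cast hnm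
  have h3 : (1 : ℝ) ≤ Real.log n := by
    rw [Real.le_log_iff_exp_le hn0]
    have h4 : (3 : ℝ) ≤ n := by exact_mod_cast (by omega : 3 ≤ n)
    have := Real.exp_one_lt_d9
    linarith
  have h4 : Real.log n ≤ Real.log m := Real.log_le_log hn0 hnm'
  have h5 : 0 ≤ 1 / Real.log n - 1 / Real.log m := by
    rw [sub_nonneg]
    exact one_div_le_one_div_of_le (by linarith) h4
  rw [abs_of_nonneg h5]
  have h6 : 1 / Real.log n - 1 / Real.log m = (Real.log m - Real.log n) / (Real.log n * Real.log m) := by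
    have h7 : Real.log n ≠ 0 := by linarith
    have h8 : Real.log m ≠ 0 := by linarith
    field_simp
  have h7 : Real.log m - Real.log n ≤ H / a := by
    rw [← Real.log_div hm0.ne' hn0.ne']
    have h8 := Real.log_le_sub_one_of_pos (show 0 < (m : ℝ) / n by positivity)
    refine h8.trans ?_
    have h9 : (m : ℝ) / n - 1 = (m - n) / n := by
      field_simp
    rw [h9]
    have h10 : (m : ℝ) - n ≤ H := by
      have : (m : ℝ) ≤ n + H := by exact_mod_cast hm
      linarith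
    have h11 : (a : ℝ) ≤ n := by exact_mod_cast hn.le
    apply div_le_div₀ (Nat.cast_nonneg _) h10 ha0 h11
  rw [h6]
  have h8 : 0 ≤ Real.log m - Real.log n := by linarith
  calc (Real.log m - Real.log n) / (Real.log n * Real.log m) ≤ (Real.log m - Real.log n) / 1 := by
        apply div_le_div_of_nonneg_left h8 one_pos
        nlinarith
    _ ≤ _ := by rw [div_one]; exact h7

theorem three_sq {s1 s2 s3 K : ℝ} (h : s3 ^ 2 ≤ K) :
    (s1 + s2 + 2 * s3) ^ 2 ≤ 3 * s1 ^ 2 + 3 * s2 ^ 2 + 12 * K := by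
  nlinarith [sq_nonneg (s1 - s2), sq_nonneg (s1 - 2 * s3), sq_nonneg (s2 - 2 * s3)]

theorem sq_large {L : ℝ} (h : 100 ≤ L) : 10000 ≤ L * L := by nlinarith

theorem twp (hc : S_CHR) (hm : S_MOC) : ∀ B E U : ℕ, ∃ C N₀ : ℕ, ∀ N : ℕ, N₀ ≤ N → ∀ z q : ℕ, 1 ≤ q →
    (q : ℝ) ≤ Real.log N ^ B → q ≤ z → (z : ℝ) ≤ Real.log N ^ E →
    ∀ c H : ℕ, (N : ℝ) ^ (1 / 3 : ℝ) * Real.log N ^ C ≤ H → (H : ℝ) * Real.log N ^ C ≤ N →
    ∑ m ∈ range (N + H + 1), |∑ n ∈ (Icc 1 N).filter (fun n => n < m ∧ m ≤ n + H ∧ n ≡ c [MOD q]),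
      PE z n| ^ 2 ≤ N * (H : ℝ) ^ 2 / Real.log N ^ U := by
  intro B E U
  obtain ⟨C₀, N₁, htw⟩ := tw hc hm B E (U + 2)
  obtain ⟨N₂, hVz⟩ := Vz_inv_small E
  obtain ⟨V, hV⟩ : ∃ V : ℕ, V = U + 4 := ⟨_, rfl⟩
  obtain ⟨N₃, hN₃⟩ := ev_natlog (P := fun l => 100 ≤ l ∧ 2 * l ^ V ≤ Real.exp (1 / 2 * l) ∧
      24 * l ^ (U + 3) ≤ Real.exp (1 / 2 * l)) (by
    filter_upwards [eventually_ge_atTop 100, ev_exp (1 / 2) 2 V (by norm_num),
      ev_exp (1 / 2) 24 (U + 3) (by norm_num)] with l h1 h2 h3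
    exact ⟨h1, h2, h3⟩)
  refine ⟨C₀ + V + U + 4, max (max N₁ N₂) (max N₃ 3), ?_⟩
  intro N hN z q hq hqN hqz hzN c H hH1 hH2
  have hN1' : N₁ ≤ N := (le_max_left _ _).trans ((le_max_left _ _).trans hN)
  have hVz' := hVz N ((le_max_right _ _).trans ((le_max_left _ _).trans hN)) z (hq.trans hqz) hzN
  obtain ⟨g1, g2, g3⟩ := hN₃ N ((le_max_left _ _).trans ((le_max_right _ _).trans hN))
  have hN3 : 3 ≤ N := (le_max_right _ _).trans ((le_max_right _ _).trans hN)
  have hN0 : (0 : ℝ) < N := by exact_mod_cast (by omega : 0 < N)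
  have hN1 : (1 : ℝ) ≤ N := by exact_mod_cast (by omega : 1 ≤ N)
  obtain ⟨L, hL⟩ : ∃ L : ℝ, L = Real.log N := ⟨_, rfl⟩
  rw [← hL] at g1 g2 g3 hqN hzN hH1 hH2 hVz'
  have hL0 : 0 < L := by linarith
  have hL1 : 1 ≤ L := by linarith
  have hLL := sq_large g1
  have htw' := htw N hN1' z q hq (by rw [← hL]; exact hqN) hqz (by rw [← hL]; exact hzN) c H
    (by
      refine le_trans ?_ hH1
      rw [← hL]
      apply mul_le_mul_of_nonneg_left _ (by positivity)
      exact pow_le_pow_right₀ hL1 (by omega))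
    (by
      refine le_trans ?_ hH2
      rw [← hL]
      apply mul_le_mul_of_nonneg_left _ (by positivity)
      exact pow_le_pow_right₀ hL1 (by omega))
  rw [← hL] at htw' ⊢
  have hsq : Real.sqrt N = Real.exp (1 / 2 * L) := by
    rw [Real.sqrt_eq_rpow, Real.rpow_def_of_pos hN0, hL]
    congr 1
    ring
  have hsqq : Real.sqrt N * Real.sqrt N = N := Real.mul_self_sqrt hN0.le
  have hsq0 : 0 < Real.sqrt N := Real.sqrt_pos.2 hN0
  rw [← hsq] at g2 g3
  obtain ⟨P, hP⟩ : ∃ P : ℝ, P = L ^ V := ⟨_, rfl⟩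
  rw [← hP] at g2
  have hP1 : 1 ≤ P := by rw [hP]; exact one_le_pow₀ hL1
  have hP0 : 0 < P := by linarith
  have hN13 : (1 : ℝ) ≤ (N : ℝ) ^ (1 / 3 : ℝ) := Real.one_le_rpow hN1 (by norm_num)
  have hH1r : (1 : ℝ) ≤ H := by
    refine le_trans ?_ hH1
    exact one_le_mul_of_one_le_of_one_le hN13 (one_le_pow₀ hL1)
  have hH0 : (0 : ℝ) < H := by linarith
  obtain ⟨a, ha⟩ : ∃ a : ℕ, a = ⌊(N : ℝ) / P⌋₊ := ⟨_, rfl⟩
  have ha1 : (a : ℝ) ≤ N / P := by rw [ha]; exact Nat.floor_le (by positivity)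
  have hNP : 2 ≤ (N : ℝ) / P := by
    rw [le_div_iff₀ hP0]
    have h1 : (1 : ℝ) ≤ Real.sqrt N := Real.one_le_sqrt.2 hN1
    calc 2 * P ≤ Real.sqrt N := g2
      _ = Real.sqrt N * 1 := by ring
      _ ≤ Real.sqrt N * Real.sqrt N := by gcongr
      _ = N := hsqq
  have ha2' : 2 ≤ a := by
    rw [ha]
    apply Nat.le_floor
    exact_mod_cast hNP
  have ha2r : (2 : ℝ) ≤ a := by exact_mod_cast ha2'
  have ha2 : (N : ℝ) / (2 * P) ≤ a := by
    have h1 : (N : ℝ) / P < a + 1 := by rw [ha]; exact Nat.lt_floor_add_one _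
    have h2 : (N : ℝ) / (2 * P) = (N / P) / 2 := by field_simp
    rw [h2]
    linarith
  have ha0 : (0 : ℝ) < a := by linarith
  -- the bound for H / a
  have hHa : (H : ℝ) * L / a ≤ 2 / L ^ (U + 3) := by
    rw [div_le_div_iff₀ ha0 (by positivity)]
    have h1 : (H : ℝ) * (P * L ^ (U + 4)) ≤ N := by
      refine le_trans ?_ hH2
      apply mul_le_mul_of_nonneg_left _ hH0.le
      rw [hP, ← pow_add]
      exact pow_le_pow_right₀ hL1 (by omega)
    have h2 : (N : ℝ) ≤ 2 * P * a := by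
      rw [div_le_iff₀ (by positivity)] at ha2
      linarith
    have h3 : (H : ℝ) * L ^ (U + 4) ≤ 2 * a := by
      have h4 : P * ((H : ℝ) * L ^ (U + 4)) ≤ P * (2 * a) := by
        calc P * ((H : ℝ) * L ^ (U + 4)) = (H : ℝ) * (P * L ^ (U + 4)) := by ring
          _ ≤ 2 * P * a := h1.trans h2
          _ = P * (2 * a) := by ring
      exact le_of_mul_le_mul_left h4 hP0
    calc (H : ℝ) * L * L ^ (U + 3) = H * L ^ (U + 4) := by ring
      _ ≤ 2 * a := h3
  have hHN : (H : ℝ) ≤ N := by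
    refine le_trans ?_ hH2
    have : (1 : ℝ) ≤ L ^ (C₀ + V + U + 4) := one_le_pow₀ hL1
    exact le_mul_of_one_le_right hH0.le this
  have hHP : (H : ℝ) ≤ N / P := by
    rw [le_div_iff₀ hP0]
    refine le_trans ?_ hH2
    apply mul_le_mul_of_nonneg_left _ hH0.le
    rw [hP]
    exact pow_le_pow_right₀ hL1 (by omega)
  obtain ⟨W, hW⟩ : ∃ W : ℕ → Finset ℕ, W = fun m =>
    (Icc 1 N).filter (fun n => n < m ∧ m ≤ n + H ∧ n ≡ c [MOD q]) := ⟨_, rfl⟩
  have hWm : ∀ m n, n ∈ W m ↔ ((1 ≤ n ∧ n ≤ N) ∧ n < m ∧ m ≤ n + H ∧ n ≡ c [MOD q]) := by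
    intro m n
    rw [hW]
    simp only [mem_filter, mem_Icc]
  have hgoal : ∀ g : ℕ → ℝ, ∑ m ∈ range (N + H + 1),
      |∑ n ∈ (Icc 1 N).filter (fun n => n < m ∧ m ≤ n + H ∧ n ≡ c [MOD q]), g n| ^ 2 =
      ∑ m ∈ range (N + H + 1), |∑ n ∈ W m, g n| ^ 2 := by
    intro g
    rw [hW]
  rw [hgoal] at htw' ⊢
  have hWc : ∀ m, ((W m).card : ℝ) ≤ H := by
    intro m
    have h1 : (W m).card ≤ (Ico (m - H) m).card := by
      apply card_le_card
      intro n hn
      rw [hWm] at hn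
      rw [mem_Ico]
      omega
    rw [Nat.card_Ico] at h1
    have h2 : (W m).card ≤ H := by omega
    exact_mod_cast h2
  have hPE : ∀ n, |PE z n| ≤ 3 * L := by
    intro n
    rw [hL]
    exact PE_le (by rw [← hL]; exact hVz') (by rw [← hL]; exact hL1)
  have hEE : ∀ n, 1 ≤ n → n ≤ N → |EE z n| ≤ L := by
    intro n h1 h2
    rw [hL]
    exact EE_le (by rw [← hL]; exact hVz') h1 h2
  -- trivial bound
  have htriv : ∀ m, |∑ n ∈ W m, PE z n| ^ 2 ≤ (H * (3 * L)) ^ 2 := by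
    intro m
    apply pow_le_pow_left₀ (abs_nonneg _)
    refine (abs_sum_le_sum_abs _ _).trans ?_
    refine (Finset.sum_le_sum (g := fun _ => 3 * L) fun n _ => hPE n).trans ?_
    rw [Finset.sum_const, nsmul_eq_mul]
    exact mul_le_mul_of_nonneg_right (hWc m) (by positivity)
  -- the main windows
  have hmain : ∀ m, a + H < m → |∑ n ∈ W m, PE z n| ^ 2 ≤ 3 * |∑ n ∈ W m, EE z n| ^ 2 +
      3 * (H * (2 / L ^ (U + 3))) ^ 2 + 12 * (H * L * ∑ n ∈ W m, ppw n) := by
    intro m hm'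
    have hwin : ∀ n ∈ W m, a < n ∧ n ≤ m ∧ m ≤ n + H := by
      intro n hn
      rw [hWm] at hn
      omega
    have hpp0 : 0 ≤ ∑ n ∈ W m, ppw n := Finset.sum_nonneg fun n _ => ppw_nonneg n
    have e1 : ∑ n ∈ W m, PE z n = 1 / Real.log m * ∑ n ∈ W m, EE z n +
        (∑ n ∈ W m, EE z n * (1 / Real.log n - 1 / Real.log m) - ∑ n ∈ W m, ppw n / Real.log n) := by
      rw [Finset.mul_sum, ← Finset.sum_sub_distrib, ← Finset.sum_add_distrib]
      apply Finset.sum_congr rfl
      intro n _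
      rw [PE_eq]
      ring
    have h1 : |1 / Real.log m * ∑ n ∈ W m, EE z n| ≤ |∑ n ∈ W m, EE z n| := by
      rw [abs_mul]
      have h2 : |1 / Real.log m| ≤ 1 := by
        have h3 : (1 : ℝ) ≤ Real.log m := by
          have h4 : (3 : ℝ) ≤ m := by exact_mod_cast (by omega : 3 ≤ m)
          rw [Real.le_log_iff_exp_le (by linarith)]
          have := Real.exp_one_lt_d9
          linarith
        rw [abs_of_pos (by positivity), div_le_one (by linarith)]
        exact h3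
      calc |1 / Real.log m| * |∑ n ∈ W m, EE z n| ≤ 1 * |∑ n ∈ W m, EE z n| := by gcongr
        _ = _ := one_mul _
    have h2 : |∑ n ∈ W m, EE z n * (1 / Real.log n - 1 / Real.log m)| ≤ H * (2 / L ^ (U + 3)) := by
      refine (abs_sum_le_sum_abs _ _).trans ?_
      refine (Finset.sum_le_sum (g := fun _ => 2 / L ^ (U + 3)) fun n hn => ?_).trans ?_
      · have h3 := hwin n hn
        have h4 := log_diff ha2' h3.1 h3.2.1 h3.2.2
        have h5 : |EE z n| ≤ L := by
          rw [hWm] at hn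
          exact hEE n hn.1.1 hn.1.2
        rw [abs_mul]
        refine le_trans ?_ hHa
        calc |EE z n| * |1 / Real.log n - 1 / Real.log m| ≤ L * (H / a) :=
              mul_le_mul h5 h4 (abs_nonneg _) hL0.le
          _ = H * L / a := by ring
      · rw [Finset.sum_const, nsmul_eq_mul]
        exact mul_le_mul_of_nonneg_right (hWc m) (by positivity)
    have h3 : |∑ n ∈ W m, ppw n / Real.log n| ≤ 2 * ∑ n ∈ W m, ppw n := by
      rw [Finset.mul_sum]
      refine (abs_sum_le_sum_abs _ _).trans ?_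
      apply Finset.sum_le_sum
      intro n hn
      have h4 := hwin n hn
      have h5 := log_two_le (by omega : 2 ≤ n)
      have h6 : 0 < Real.log n := by linarith
      rw [abs_of_nonneg (div_nonneg (ppw_nonneg n) h6.le), div_le_iff₀ h6]
      have h7 := ppw_nonneg n
      calc ppw n = 2 * ppw n * (1 / 2) := by ring
        _ ≤ 2 * ppw n * Real.log n := mul_le_mul_of_nonneg_left h5 (by linarith)
    have h4 : |∑ n ∈ W m, PE z n| ≤ |∑ n ∈ W m, EE z n| + H * (2 / L ^ (U + 3)) +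
        2 * ∑ n ∈ W m, ppw n := by
      rw [e1]
      refine (abs_add_le _ _).trans ?_
      have := abs_sub (∑ n ∈ W m, EE z n * (1 / Real.log n - 1 / Real.log m))
        (∑ n ∈ W m, ppw n / Real.log n)
      linarith
    have h5 : (∑ n ∈ W m, ppw n) ^ 2 ≤ H * L * ∑ n ∈ W m, ppw n := by
      rw [sq]
      apply mul_le_mul_of_nonneg_right _ hpp0
      refine (Finset.sum_le_sum (g := fun _ => L) fun n hn => ?_).trans ?_
      · rw [hWm] at hn
        rw [hL]
        exact ppw_le hn.1.1 hn.1.2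
      · rw [Finset.sum_const, nsmul_eq_mul]
        exact mul_le_mul_of_nonneg_right (hWc m) hL0.le
    have h6 : 0 ≤ H * (2 / L ^ (U + 3)) := by positivity
    obtain ⟨s1, hs1⟩ : ∃ s1, s1 = |∑ n ∈ W m, EE z n| := ⟨_, rfl⟩
    obtain ⟨s2, hs2⟩ : ∃ s2, s2 = (H : ℝ) * (2 / L ^ (U + 3)) := ⟨_, rfl⟩
    obtain ⟨s3, hs3⟩ : ∃ s3, s3 = ∑ n ∈ W m, ppw n := ⟨_, rfl⟩
    rw [← hs1, ← hs2, ← hs3] at h4
    rw [← hs3] at h5 hpp0
    rw [← hs1, ← hs2, ← hs3]
    have h7 : |∑ n ∈ W m, PE z n| ^ 2 ≤ (s1 + s2 + 2 * s3) ^ 2 := pow_le_pow_left₀ (abs_nonneg _) h4 2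
    exact h7.trans (three_sq h5)
  -- the sum of the prime powers
  have hpps : ∑ m ∈ range (N + H + 1), ∑ n ∈ W m, ppw n ≤ H * (2 * Real.sqrt N * L) := by
    have h1 : ∑ m ∈ range (N + H + 1), ∑ n ∈ W m, ppw n =
        ∑ n ∈ Icc 1 N, ∑ m ∈ (range (N + H + 1)).filter (fun m => n < m ∧ m ≤ n + H ∧ n ≡ c [MOD q]), ppw n := by
      rw [Finset.sum_comm']
      intro m n
      rw [hWm, mem_filter, mem_Icc]
      tauto
    rw [h1]
    have h2 : ∀ n ∈ Icc 1 N, ∑ m ∈ (range (N + H + 1)).filter (fun m => n < m ∧ m ≤ n + H ∧ n ≡ c [MOD q]),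
        ppw n ≤ H * ppw n := by
      intro n _
      rw [Finset.sum_const, nsmul_eq_mul]
      apply mul_le_mul_of_nonneg_right _ (ppw_nonneg n)
      have h3 : ((range (N + H + 1)).filter (fun m => n < m ∧ m ≤ n + H ∧ n ≡ c [MOD q])).card ≤
          (Ioc n (n + H)).card := by
        apply card_le_card
        intro m hm'
        rw [mem_filter] at hm'
        rw [mem_Ioc]
        omega
      rw [Nat.card_Ioc] at h3
      have h4 : ((range (N + H + 1)).filter (fun m => n < m ∧ m ≤ n + H ∧ n ≡ c [MOD q])).card ≤ H := by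
        omega
      exact_mod_cast h4
    refine (Finset.sum_le_sum h2).trans ?_
    rw [← Finset.mul_sum]
    apply mul_le_mul_of_nonneg_left _ hH0.le
    rw [hL]
    exact sum_ppw (by omega)
  obtain ⟨T, hT⟩ : ∃ T : ℝ, T = N * (H : ℝ) ^ 2 / L ^ U := ⟨_, rfl⟩
  have hT0 : 0 ≤ T := by rw [hT]; positivity
  rw [← hT]
  have hsum : ∑ m ∈ range (N + H + 1), |∑ n ∈ W m, PE z n| ^ 2 ≤
      ∑ m ∈ range (N + H + 1), (3 * |∑ n ∈ W m, EE z n| ^ 2 +
        3 * (H * (2 / L ^ (U + 3))) ^ 2 + 12 * (H * L * ∑ n ∈ W m, ppw n)) +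
      ((a : ℝ) + H + 1) * (H * (3 * L)) ^ 2 := by
    rw [← Finset.sum_filter_add_sum_filter_not (range (N + H + 1)) (fun m => a + H < m)]
    apply add_le_add
    · have h1 : ∀ m, 0 ≤ 3 * |∑ n ∈ W m, EE z n| ^ 2 +
        3 * (H * (2 / L ^ (U + 3))) ^ 2 + 12 * (H * L * ∑ n ∈ W m, ppw n) := by
        intro m
        have hpp0 : 0 ≤ ∑ n ∈ W m, ppw n := Finset.sum_nonneg fun n _ => ppw_nonneg n
        positivity
      refine (Finset.sum_le_sum fun m hm' => hmain m (mem_filter.1 hm').2).trans ?_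
      exact Finset.sum_le_sum_of_subset_of_nonneg (filter_subset _ _) fun m _ _ => h1 m
    · refine (Finset.sum_le_sum fun m _ => htriv m).trans ?_
      rw [Finset.sum_const, nsmul_eq_mul]
      apply mul_le_mul_of_nonneg_right _ (by positivity)
      have h1 : ((range (N + H + 1)).filter (fun m => ¬ a + H < m)).card ≤ (range (a + H + 1)).card := by
        apply card_le_card
        intro m hm'
        rw [mem_filter] at hm'
        rw [mem_range]
        omega
      rw [card_range] at h1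
      exact_mod_cast h1
  refine hsum.trans ?_
  have hdist : ∑ m ∈ range (N + H + 1), (3 * |∑ n ∈ W m, EE z n| ^ 2 +
        3 * (H * (2 / L ^ (U + 3))) ^ 2 + 12 * (H * L * ∑ n ∈ W m, ppw n)) =
      3 * ∑ m ∈ range (N + H + 1), |∑ n ∈ W m, EE z n| ^ 2 +
        ((N + H + 1 : ℕ) : ℝ) * (3 * (H * (2 / L ^ (U + 3))) ^ 2) +
        12 * (H * L * ∑ m ∈ range (N + H + 1), ∑ n ∈ W m, ppw n) := by
    rw [Finset.sum_add_distrib, Finset.sum_add_distrib, ← Finset.mul_sum, Finset.sum_const,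
      nsmul_eq_mul, card_range, ← Finset.mul_sum, ← Finset.mul_sum]
  rw [hdist]
  have q1 : 3 * ∑ m ∈ range (N + H + 1), |∑ n ∈ W m, EE z n| ^ 2 ≤ 1 / 4 * T := by
    have h1 : 3 * ∑ m ∈ range (N + H + 1), |∑ n ∈ W m, EE z n| ^ 2 ≤
      3 * (N * (H : ℝ) ^ 2 / L ^ (U + 2)) := by gcongr
    refine h1.trans ?_
    have h2 : 3 * (N * (H : ℝ) ^ 2 / L ^ (U + 2)) = (3 / L ^ 2) * T := by
      rw [hT, pow_add]
      field_simp
    rw [h2]
    apply mul_le_mul_of_nonneg_right _ hT0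
    rw [div_le_div_iff₀ (by positivity) (by norm_num), sq]
    linarith
  have q2 : ((N + H + 1 : ℕ) : ℝ) * (3 * (H * (2 / L ^ (U + 3))) ^ 2) ≤ 1 / 4 * T := by
    have h1 : ((N + H + 1 : ℕ) : ℝ) ≤ 3 * N := by
      push_cast
      linarith
    calc ((N + H + 1 : ℕ) : ℝ) * (3 * (H * (2 / L ^ (U + 3))) ^ 2) ≤
          (3 * N) * (3 * (H * (2 / L ^ (U + 3))) ^ 2) := by gcongr
      _ = (36 / (L ^ (U + 3) * L ^ 3)) * T := by
          rw [hT, pow_add L U 3]
          field_simp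
          try ring
      _ ≤ 1 / 4 * T := by
          apply mul_le_mul_of_nonneg_right _ hT0
          rw [div_le_div_iff₀ (by positivity) (by norm_num)]
          have h2 : (1 : ℝ) ≤ L ^ (U + 3) := one_le_pow₀ hL1
          have h3 : (10000 : ℝ) ≤ L ^ 3 := by
            have h4 : (100 : ℝ) ^ 3 ≤ L ^ 3 := by gcongr
            linarith
          have h4 : 1 * 10000 ≤ L ^ (U + 3) * L ^ 3 :=
            mul_le_mul h2 h3 (by norm_num) (by positivity)
          linarith
  have q3 : 12 * (H * L * ∑ m ∈ range (N + H + 1), ∑ n ∈ W m, ppw n) ≤ 1 / 4 * T := by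
    calc 12 * (H * L * ∑ m ∈ range (N + H + 1), ∑ n ∈ W m, ppw n) ≤
          12 * (H * L * (H * (2 * Real.sqrt N * L))) := by gcongr
      _ = (24 * L ^ (U + 3) * Real.sqrt N) * ((H : ℝ) ^ 2 / L ^ (U + 1)) := by
          have e1 : L ^ (U + 3) = L ^ (U + 1) * L ^ 2 := by ring
          rw [e1]
          field_simp
          ring
      _ ≤ (Real.sqrt N * Real.sqrt N) * ((H : ℝ) ^ 2 / L ^ (U + 1)) := by gcongr
      _ = (1 / L) * T := by
          rw [hsqq, hT, pow_succ]
          field_simp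
          try ring
      _ ≤ 1 / 4 * T := by
          apply mul_le_mul_of_nonneg_right _ hT0
          apply one_div_le_one_div_of_le (by norm_num)
          linarith
  have q4 : ((a : ℝ) + H + 1) * (H * (3 * L)) ^ 2 ≤ 1 / 4 * T := by
    have h1 : (a : ℝ) + H + 1 ≤ 3 * (N / P) := by linarith
    calc ((a : ℝ) + H + 1) * (H * (3 * L)) ^ 2 ≤ (3 * (N / P)) * (H * (3 * L)) ^ 2 := by gcongr
      _ = (27 / (L * L)) * T := by
          rw [hP, hV, hT, pow_add L U 4]
          field_simp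
          try ring
      _ ≤ 1 / 4 * T := by
          apply mul_le_mul_of_nonneg_right _ hT0
          rw [div_le_div_iff₀ (by positivity) (by norm_num)]
          linarith
  linarith

end Pool.Agent.K9h19.CR
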