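import Pool.Agent.R460.SB.Det
import Pool.Agent.K9h19.CR.PW
import Pool.Agent.K9h19.CR.SM1

/-!
# The model in windows: long windows
-/

set_option autoImplicit false

namespace Pool.Agent.K9h19.CR

open Finset Filter Topology
open Pool.Agent.H373R2.T7 (lamz Vz pz Vz_pos nuB PerB nuB_le sys_count mem_pz)
open Pool.Agent.R460.SB (QS QS_per QS_perB Sz Sz_bd)

theorem nuB_shift {Q : ℕ → ℕ → Prop} (hQ : ∀ p n, Q p n ↔ Q p (n % p)) (k : ℕ) {p : ℕ} (hp : 1 ≤ p) :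
    nuB (fun p m => Q p (m + k)) p = nuB Q p := by
  classical
  unfold nuB
  have h1 : ∀ r : ℕ, Q p ((r + k) % p) ↔ Q p (r + k) := fun r => (hQ p (r + k)).symm
  have hkp : k % p < p := Nat.mod_lt k hp
  have hA : ∀ r, (r + k) % p = (r + k % p) % p := by
    intro r
    rw [Nat.add_mod r (k % p), Nat.mod_mod, ← Nat.add_mod]
  refine card_nbij' (fun r => (r + k) % p) (fun r => (r + (p - k % p)) % p) ?_ ?_ ?_ ?_
  · intro r hr
    rw [mem_coe, mem_filter] at hr ⊢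
    exact ⟨mem_range.2 (Nat.mod_lt _ hp), (h1 r).2 hr.2⟩
  · intro r hr
    rw [mem_coe, mem_filter, mem_range] at hr ⊢
    refine ⟨Nat.mod_lt _ hp, ?_⟩
    show Q p ((r + (p - k % p)) % p + k)
    rw [hQ, hA]
    have e : ((r + (p - k % p)) % p + k % p) % p = r := by
      rw [Nat.mod_add_mod]
      have e2 : r + (p - k % p) + k % p = r + p := by omega
      rw [e2, Nat.add_mod_right, Nat.mod_eq_of_lt hr.1]
    rw [e]
    exact hr.2
  · intro r hr
    rw [mem_coe, mem_filter, mem_range] at hr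
    show ((r + k) % p + (p - k % p)) % p = r
    rw [hA, Nat.mod_add_mod]
    have e2 : r + k % p + (p - k % p) = r + p := by omega
    rw [e2, Nat.add_mod_right, Nat.mod_eq_of_lt hr.1]
  · intro r hr
    rw [mem_coe, mem_filter, mem_range] at hr
    show ((r + (p - k % p)) % p + k) % p = r
    rw [hA, Nat.mod_add_mod]
    have e2 : r + (p - k % p) + k % p = r + p := by omega
    rw [e2, Nat.add_mod_right, Nat.mod_eq_of_lt hr.1]

open Classical in
theorem sys_win (c E U : ℕ) (hc : 1 ≤ c) : ∃ N0 : ℕ, ∀ N : ℕ, N0 ≤ N → ∀ z : ℕ, 1 ≤ z → (z : ℝ) ≤ Real.log N ^ E →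
    ∀ Q : ℕ → ℕ → Prop, PerB Q c → ∀ k : ℕ,
      |((((Ioc k (k + N)).filter (fun n : ℕ => ∀ p ∈ pz z, ¬ Q p n)).card : ℕ) : ℝ) -
      N * ∏ p ∈ pz z, (1 - (nuB Q p : ℝ) / p)| ≤ N / Real.log N ^ U := by
  obtain ⟨N0, h0⟩ := sys_count c E U hc
  refine ⟨N0, fun N hN z hz hzE Q hQ k => ?_⟩
  have hP : PerB (fun p m => Q p (m + k)) c := by
    refine ⟨fun p n => ?_, fun p hp => ?_⟩
    · rcases Nat.eq_zero_or_pos p with h | h
      · rw [h, Nat.mod_zero]
      · rw [hQ.per p (n + k), hQ.per p (n % p + k), Nat.mod_add_mod]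
    · rw [nuB_shift hQ.per k hp.one_le]
      exact hQ.few p hp
  have h1 := h0 N hN z hz hzE _ hP
  have e1 : ((Icc 1 N).filter (fun n : ℕ => ∀ p ∈ pz z, ¬ Q p (n + k))).card =
      ((Ioc k (k + N)).filter (fun n : ℕ => ∀ p ∈ pz z, ¬ Q p n)).card := by
    refine card_nbij' (fun n => n + k) (fun n => n - k) ?_ ?_ ?_ ?_
    · intro n hn
      rw [mem_coe, mem_filter, mem_Icc] at hn
      rw [mem_coe, mem_filter, mem_Ioc]
      exact ⟨⟨by show k < n + k; omega, by show n + k ≤ k + N; omega⟩, hn.2⟩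
    · intro n hn
      rw [mem_coe, mem_filter, mem_Ioc] at hn
      rw [mem_coe, mem_filter, mem_Icc]
      have e : n - k + k = n := by omega
      refine ⟨⟨by show 1 ≤ n - k; omega, by show n - k ≤ N; omega⟩, ?_⟩
      show ∀ p ∈ pz z, ¬ Q p (n - k + k)
      rw [e]
      exact hn.2
    · intro n _
      simp
    · intro n hn
      rw [mem_coe, mem_filter, mem_Ioc] at hn
      simp only
      omega
  have e2 : ∏ p ∈ pz z, (1 - (nuB (fun p m => Q p (m + k)) p : ℝ) / p) =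
      ∏ p ∈ pz z, (1 - (nuB Q p : ℝ) / p) := by
    apply Finset.prod_congr rfl
    intro p hp
    rw [nuB_shift hQ.per k (mem_pz.1 hp).2.one_le]
  rw [e2] at h1
  rw [← e1]
  convert h1 using 5

open Classical in
/-- a version with the logarithm of a power of the length -/
theorem sys_win' (c E U M : ℕ) (hc : 1 ≤ c) : ∃ X0 : ℕ, ∀ X : ℕ, X0 ≤ X → ∀ z : ℕ, 1 ≤ z →
    (z : ℝ) ≤ Real.log X ^ E → ∀ N : ℕ, X ≤ N ^ M → ∀ Q : ℕ → ℕ → Prop, PerB Q c → ∀ k : ℕ,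
      |((((Ioc k (k + N)).filter (fun n : ℕ => ∀ p ∈ pz z, ¬ Q p n)).card : ℕ) : ℝ) -
      N * ∏ p ∈ pz z, (1 - (nuB Q p : ℝ) / p)| ≤ N / Real.log X ^ U := by
  obtain ⟨N0, h0⟩ := sys_win c (E + 1) (U + 1) hc
  obtain ⟨X1, hX1⟩ := ev_natlog (P := fun l => 1 ≤ l ∧ (M : ℝ) ^ (E + 1) ≤ l ∧ (M : ℝ) ^ (U + 2) ≤ l ∧ (M : ℝ) ≤ l) (by
    filter_upwards [eventually_ge_atTop 1, eventually_ge_atTop ((M : ℝ) ^ (E + 1)),
      eventually_ge_atTop ((M : ℝ) ^ (U + 2)), eventually_ge_atTop (M : ℝ)] with l h1 h2 h3 h4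
    exact ⟨h1, h2, h3, h4⟩)
  refine ⟨max X1 (max (N0 ^ M + 1) 3), fun X hX z hz hzE N hN Q hQ k => ?_⟩
  obtain ⟨g1, g2, g3, g4⟩ := hX1 X ((le_max_left _ _).trans hX)
  have hX3 : 3 ≤ X := (le_max_right _ _).trans ((le_max_right _ _).trans hX)
  have hXN0 : N0 ^ M + 1 ≤ X := (le_max_left _ _).trans ((le_max_right _ _).trans hX)
  have hM : 1 ≤ M := by
    rcases Nat.eq_zero_or_pos M with h | h
    · subst h
      rw [pow_zero] at hN
      omega
    · exact h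
  have hM1 : (1 : ℝ) ≤ M := by exact_mod_cast hM
  have hM0 : (0 : ℝ) < M := by linarith
  have hNN0 : N0 ≤ N := by
    by_contra h
    push Not at h
    have : N ^ M < N0 ^ M := Nat.pow_lt_pow_left h (by omega)
    omega
  have hN1 : 1 ≤ N := by
    rcases Nat.eq_zero_or_pos N with h | h
    · subst h
      rw [zero_pow (by omega)] at hN
      omega
    · exact h
  have hNr : (1 : ℝ) ≤ N := by exact_mod_cast hN1
  obtain ⟨L, hL⟩ : ∃ L : ℝ, L = Real.log X := ⟨_, rfl⟩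
  rw [← hL] at g1 g2 g3 g4 hzE ⊢
  have hL0 : 0 < L := by linarith
  obtain ⟨l, hl⟩ : ∃ l : ℝ, l = Real.log N := ⟨_, rfl⟩
  have hlL : L ≤ M * l := by
    rw [hL, hl, ← Real.log_pow]
    exact Real.log_le_log (by exact_mod_cast (by omega : 0 < X)) (by exact_mod_cast hN)
  have hl0 : 0 < l := by
    by_contra h
    push Not at h
    have : (M : ℝ) * l ≤ 0 := mul_nonpos_of_nonneg_of_nonpos hM0.le h
    linarith
  have hl1 : 1 ≤ l := by
    by_contra h
    push Not at h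
    have h2 : (M : ℝ) * l < M := by
      calc (M : ℝ) * l < M * 1 := by gcongr
        _ = M := mul_one _
    linarith
  have h1 := h0 N hNN0 z hz (by
    rw [← hl]
    calc (z : ℝ) ≤ L ^ E := hzE
      _ ≤ (M * l) ^ E := pow_le_pow_left₀ hL0.le hlL E
      _ = (M : ℝ) ^ E * l ^ E := mul_pow _ _ _
      _ ≤ l * l ^ E := by
          apply mul_le_mul_of_nonneg_right _ (by positivity)
          have h2 : (M : ℝ) ^ E * M ≤ l * M := by
            calc (M : ℝ) ^ E * M = (M : ℝ) ^ (E + 1) := by ring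
              _ ≤ L := g2
              _ ≤ M * l := hlL
              _ = l * M := by ring
          exact le_of_mul_le_mul_right h2 hM0
      _ = l ^ (E + 1) := by ring) Q hQ k
  refine h1.trans ?_
  rw [← hl]
  apply div_le_div_of_nonneg_left (Nat.cast_nonneg _) (by positivity)
  calc L ^ U ≤ (M * l) ^ U := pow_le_pow_left₀ hL0.le hlL U
    _ = (M : ℝ) ^ U * l ^ U := mul_pow _ _ _
    _ ≤ l * l ^ U := by
        apply mul_le_mul_of_nonneg_right _ (by positivity)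
        have h2 : (M : ℝ) ^ U * M ≤ l * M := by
          calc (M : ℝ) ^ U * M = (M : ℝ) ^ (U + 1) := by ring
            _ ≤ (M : ℝ) ^ (U + 2) := pow_le_pow_right₀ hM1 (by omega)
            _ ≤ L := g3
            _ ≤ M * l := hlL
            _ = l * M := by ring
        exact le_of_mul_le_mul_right h2 hM0
    _ = l ^ (U + 1) := by ring

open Classical in
theorem det_win {α γ : ℤ} (hα : α ≠ 0) (C E M : ℕ) : ∃ X₀ : ℕ, ∀ X : ℕ, X₀ ≤ X → ∀ z : ℕ, 1 ≤ z →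
    (z : ℝ) ≤ Real.log X ^ E → (Vz z)⁻¹ ≤ Real.log X → ∀ (n : ℤ) (k y : ℕ), X ≤ y ^ M →
    |(Vz z)⁻¹ * (((Ioc k (k + y)).filter (fun m : ℕ => ∀ p ∈ pz z, ¬ QS α γ n p m)).card : ℝ) -
      Sz α γ n z * y| ≤ y / Real.log X ^ C := by
  obtain ⟨X0, h0⟩ := sys_win' (α.natAbs + 2) E (C + 1) M (by omega)
  obtain ⟨X1, hX1⟩ := ev_natlog (P := fun l => 1 ≤ l) (eventually_ge_atTop 1)
  refine ⟨max X0 X1, fun X hX z hz hzE hV n k y hy => ?_⟩
  have hL1 := hX1 X ((le_max_right _ _).trans hX)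
  have h1 := h0 X ((le_max_left _ _).trans hX) z hz hzE y hy (QS α γ n) (QS_perB hα n) k
  obtain ⟨L, hL⟩ : ∃ L : ℝ, L = Real.log X := ⟨_, rfl⟩
  rw [← hL] at h1 hV hL1 ⊢
  have hL0 : 0 < L := by linarith
  obtain ⟨c, hc⟩ : ∃ c : ℝ, c = (((Ioc k (k + y)).filter (fun m : ℕ => ∀ p ∈ pz z, ¬ QS α γ n p m)).card : ℝ) := ⟨_, rfl⟩
  have h1' : |c - y * ∏ p ∈ pz z, (1 - (nuB (QS α γ n) p : ℝ) / p)| ≤ y / L ^ (C + 1) := by
    rw [hc]
    convert h1
  rw [← hc]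
  have hVp := inv_pos.2 (Vz_pos z)
  have e1 : (Vz z)⁻¹ * c - Sz α γ n z * y = (Vz z)⁻¹ * (c - y * ∏ p ∈ pz z, (1 - (nuB (QS α γ n) p : ℝ) / p)) := by
    unfold Sz
    ring
  rw [e1, abs_mul, abs_of_pos hVp]
  calc (Vz z)⁻¹ * |c - y * ∏ p ∈ pz z, (1 - (nuB (QS α γ n) p : ℝ) / p)| ≤ L * (y / L ^ (C + 1)) := by gcongr
    _ = y / L ^ C := by
        rw [pow_succ]
        field_simp

end Pool.Agent.K9h19.CR
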