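import Mathlib
import Pool.Agent.H807R2.Dav1
import Pool.Agent.H807R2.Dav3

/-!
# Parseval's identity, Weyl's inequality for quadratic polynomials
-/

set_option autoImplicit false

namespace Pool.Agent.K9h19.CR

open Finset Filter Topology MeasureTheory
open Pool.Agent.H807R2.Dav (ee norm_ee ee_add ee_zero KK KK_nonneg geo_bound vino conj_ee)

@[fun_prop]
theorem cont_ee : Continuous ee := by
  unfold ee
  fun_prop

theorem int_ee (n : ℤ) : ∫ β in (0 : ℝ)..1, ee (n * β) = if n = 0 then 1 else 0 := by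
  split_ifs with h
  · rw [h]
    simp [ee_zero]
  · have hc : (2 * Real.pi * Complex.I * (n : ℂ)) ≠ 0 := by
      have h1 : (n : ℂ) ≠ 0 := by exact_mod_cast h
      have h2 : (Real.pi : ℂ) ≠ 0 := by exact_mod_cast Real.pi_ne_zero
      simp [h1, h2, Complex.I_ne_zero]
    have e : ∀ β : ℝ, ee (n * β) = Complex.exp ((2 * Real.pi * Complex.I * (n : ℂ)) * β) := by
      intro β
      unfold ee
      congr 1
      push_cast
      ring
    simp_rw [e]
    rw [integral_exp_mul_complex hc]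
    have h1 : Complex.exp (2 * Real.pi * Complex.I * (n : ℂ) * ((1 : ℝ) : ℂ)) = 1 := by
      rw [Complex.exp_eq_one_iff]
      exact ⟨n, by push_cast; ring⟩
    have h2 : Complex.exp (2 * Real.pi * Complex.I * (n : ℂ) * ((0 : ℝ) : ℂ)) = 1 := by
      simp
    rw [h1, h2, sub_self, zero_div]

theorem norm_sq_int {f : ℝ → ℂ} : ((∫ β in (0 : ℝ)..1, ‖f β‖ ^ 2 : ℝ) : ℂ) =
    ∫ β in (0 : ℝ)..1, f β * (starRingEnd ℂ) (f β) := by
  rw [← intervalIntegral.integral_ofReal]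
  apply intervalIntegral.integral_congr
  intro β _
  simp only
  rw [Complex.mul_conj']
  push_cast
  rfl

/-- Parseval's identity for distinct frequencies -/
theorem pars (s : Finset ℤ) (A : ℤ → ℂ) :
    ∫ β in (0 : ℝ)..1, ‖∑ c ∈ s, A c * ee (c * β)‖ ^ 2 = ∑ c ∈ s, ‖A c‖ ^ 2 := by
  have h : ((∫ β in (0 : ℝ)..1, ‖∑ c ∈ s, A c * ee (c * β)‖ ^ 2 : ℝ) : ℂ) =
      ((∑ c ∈ s, ‖A c‖ ^ 2 : ℝ) : ℂ) := by
    rw [norm_sq_int]
    have e : ∀ β : ℝ, (∑ c ∈ s, A c * ee (c * β)) * (starRingEnd ℂ) (∑ c ∈ s, A c * ee (c * β)) =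
        ∑ c ∈ s, ∑ d ∈ s, (A c * (starRingEnd ℂ) (A d)) * ee (((c - d : ℤ) : ℝ) * β) := by
      intro β
      rw [map_sum, Finset.sum_mul_sum]
      apply Finset.sum_congr rfl
      intro c _
      apply Finset.sum_congr rfl
      intro d _
      rw [map_mul, conj_ee]
      have e1 : ((c - d : ℤ) : ℝ) * β = c * β + -(d * β) := by push_cast; ring
      rw [e1, ee_add]
      ring
    simp_rw [e]
    rw [intervalIntegral.integral_finsetSum]
    · rw [Complex.ofReal_sum]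
      apply Finset.sum_congr rfl
      intro c hc
      rw [intervalIntegral.integral_finsetSum]
      · have e3 : ∀ d ∈ s, ∫ β in (0 : ℝ)..1, (A c * (starRingEnd ℂ) (A d)) * ee (((c - d : ℤ) : ℝ) * β) =
            (A c * (starRingEnd ℂ) (A d)) * (if c - d = 0 then 1 else 0) := by
          intro d _
          rw [intervalIntegral.integral_const_mul, int_ee]
        rw [Finset.sum_congr rfl e3, Finset.sum_eq_single_of_mem c hc]
        · rw [if_pos (by ring), mul_one, Complex.mul_conj', Complex.ofReal_pow]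
        · intro d _ hd
          rw [if_neg (by intro h; exact hd (by linarith)), mul_zero]
      · intro d _
        apply Continuous.intervalIntegrable
        fun_prop
    · intro c _
      apply Continuous.intervalIntegrable
      fun_prop
  exact_mod_cast h

/-- Parseval's identity with grouping -/
theorem pars' {ι : Type} (s : Finset ι) (a : ι → ℂ) (ν : ι → ℤ) :
    ∫ β in (0 : ℝ)..1, ‖∑ i ∈ s, a i * ee (ν i * β)‖ ^ 2 =
      ∑ c ∈ s.image ν, ‖∑ i ∈ s with ν i = c, a i‖ ^ 2 := by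
  rw [← pars]
  apply intervalIntegral.integral_congr
  intro β _
  simp only
  congr 2
  rw [← Finset.sum_fiberwise_of_maps_to (s := s) (t := s.image ν) (g := ν)
    (fun i hi => mem_image_of_mem ν hi)]
  apply Finset.sum_congr rfl
  intro c _
  rw [Finset.sum_mul]
  apply Finset.sum_congr rfl
  intro i hi
  rw [mem_filter] at hi
  rw [hi.2]

/-- Bessel's inequality -/
theorem bess {ι : Type} (s : Finset ι) (a : ι → ℂ) (ν : ι → ℤ) (S : Finset ℤ) :
    ∑ c ∈ S, ‖∑ i ∈ s with ν i = c, a i‖ ^ 2 ≤ ∫ β in (0 : ℝ)..1, ‖∑ i ∈ s, a i * ee (ν i * β)‖ ^ 2 := by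
  rw [pars']
  have h1 : ∑ c ∈ S, ‖∑ i ∈ s with ν i = c, a i‖ ^ 2 =
      ∑ c ∈ S.filter (fun c => c ∈ s.image ν), ‖∑ i ∈ s with ν i = c, a i‖ ^ 2 := by
    rw [Finset.sum_filter]
    apply Finset.sum_congr rfl
    intro c _
    split_ifs with h
    · rfl
    · rw [Finset.sum_eq_zero]
      · simp
      · intro i hi
        rw [mem_filter] at hi
        exact absurd (mem_image.2 ⟨i, hi.1, hi.2⟩) h
  rw [h1]
  apply Finset.sum_le_sum_of_subset_of_nonneg
  · intro c hc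
    rw [mem_filter] at hc
    exact hc.2
  · intro c _ _
    positivity

/-- van der Corput's identity -/
theorem vdc_id (w : ℕ → ℂ) (y : ℕ) : ((‖∑ s ∈ range y, w s‖ ^ 2 : ℝ) : ℂ) =
    ∑ s ∈ range y, ((‖w s‖ ^ 2 : ℝ) : ℂ) +
    ((∑ j ∈ range y, ∑ s ∈ range (y - j - 1), w (s + j + 1) * (starRingEnd ℂ) (w s)) +
      (starRingEnd ℂ) (∑ j ∈ range y, ∑ s ∈ range (y - j - 1), w (s + j + 1) * (starRingEnd ℂ) (w s))) := by
  induction y with
  | zero => simp
  | succ y ih =>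
    have e1 : ∑ j ∈ range (y + 1), ∑ s ∈ range (y + 1 - j - 1), w (s + j + 1) * (starRingEnd ℂ) (w s) =
        (∑ j ∈ range y, ∑ s ∈ range (y - j - 1), w (s + j + 1) * (starRingEnd ℂ) (w s)) +
          w y * (starRingEnd ℂ) (∑ s ∈ range y, w s) := by
      rw [Finset.sum_range_succ]
      have h0 : y + 1 - y - 1 = 0 := by omega
      rw [h0, range_zero, sum_empty, add_zero]
      have h1 : ∀ j ∈ range y, ∑ s ∈ range (y + 1 - j - 1), w (s + j + 1) * (starRingEnd ℂ) (w s) =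
          ∑ s ∈ range (y - j - 1), w (s + j + 1) * (starRingEnd ℂ) (w s) +
            w y * (starRingEnd ℂ) (w (y - 1 - j)) := by
        intro j hj
        rw [mem_range] at hj
        have h2 : y + 1 - j - 1 = (y - j - 1) + 1 := by omega
        rw [h2, Finset.sum_range_succ]
        have h3 : y - j - 1 + j + 1 = y := by omega
        have h4 : y - j - 1 = y - 1 - j := by omega
        rw [h3, h4]
      rw [Finset.sum_congr rfl h1, Finset.sum_add_distrib, ← Finset.mul_sum, map_sum]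
      congr 2
      exact Finset.sum_range_reflect (fun s => (starRingEnd ℂ) (w s)) y
    rw [e1, Finset.sum_range_succ, Finset.sum_range_succ]
    have e2 : ((‖∑ s ∈ range y, w s + w y‖ ^ 2 : ℝ) : ℂ) = ((‖∑ s ∈ range y, w s‖ ^ 2 : ℝ) : ℂ) +
        ((‖w y‖ ^ 2 : ℝ) : ℂ) + (w y * (starRingEnd ℂ) (∑ s ∈ range y, w s) +
          (starRingEnd ℂ) (w y * (starRingEnd ℂ) (∑ s ∈ range y, w s))) := by
      have h : ∀ z : ℂ, ((‖z‖ ^ 2 : ℝ) : ℂ) = z * (starRingEnd ℂ) z := by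
        intro z
        rw [Complex.mul_conj']
        push_cast
        rfl
      rw [h, h, h]
      simp only [map_add, map_mul, Complex.conj_conj]
      ring
    rw [e2, ih, map_add]
    ring

theorem vdc_le (w : ℕ → ℂ) (y : ℕ) : ‖∑ s ∈ range y, w s‖ ^ 2 ≤ ∑ s ∈ range y, ‖w s‖ ^ 2 +
    2 * ∑ j ∈ range y, ‖∑ s ∈ range (y - j - 1), w (s + j + 1) * (starRingEnd ℂ) (w s)‖ := by
  have h := congrArg norm (vdc_id w y)
  rw [Complex.norm_real, Real.norm_of_nonneg (by positivity)] at h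
  rw [h]
  refine (norm_add_le _ _).trans ?_
  apply add_le_add
  · rw [← Complex.ofReal_sum, Complex.norm_real, Real.norm_of_nonneg (Finset.sum_nonneg fun _ _ => by positivity)]
  · refine (norm_add_le _ _).trans ?_
    rw [RCLike.norm_conj, ← two_mul]
    apply mul_le_mul_of_nonneg_left _ (by norm_num)
    exact norm_sum_le _ _

/-- Weyl's inequality for the values of a quadratic polynomial in a short interval -/
theorem weyl (α γ : ℤ) (u y : ℕ) (β : ℝ) {s : ℕ} {h : ℤ} (hs : 1 ≤ s) (hcop : IsCoprime h (s : ℤ))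
    (hβ : |2 * α * β - h / s| ≤ 1 / (s : ℝ) ^ 2) :
    ‖∑ t ∈ Ioc u (u + y), ee (((α * (t : ℤ) ^ 2 + γ * (t : ℤ) : ℤ) : ℝ) * β)‖ ^ 2 ≤
      y + 2 * ((((y + 1 : ℕ) : ℝ) / s + 1) * (39 * y + 3 * s * (1 + Real.log s))) := by
  obtain ⟨w, hw⟩ : ∃ w : ℕ → ℂ, w = fun r => ee (((α * ((u + 1 + r : ℕ) : ℤ) ^ 2 +
    γ * ((u + 1 + r : ℕ) : ℤ) : ℤ) : ℝ) * β) := ⟨_, rfl⟩
  have e1 : ∑ t ∈ Ioc u (u + y), ee (((α * (t : ℤ) ^ 2 + γ * (t : ℤ) : ℤ) : ℝ) * β) =
      ∑ r ∈ range y, w r := by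
    rw [hw]
    have e2 : Ioc u (u + y) = Ico (u + 1) (u + 1 + y) := by
      ext n
      rw [mem_Ioc, mem_Ico]
      omega
    rw [e2, Finset.sum_Ico_eq_sum_range]
    have e3 : u + 1 + y - (u + 1) = y := by omega
    rw [e3]
  rw [e1]
  refine (vdc_le w y).trans ?_
  have h1 : ∑ r ∈ range y, ‖w r‖ ^ 2 = y := by
    rw [hw]
    simp [norm_ee]
  have h2 : ∀ j ∈ range y, ‖∑ r ∈ range (y - j - 1), w (r + j + 1) * (starRingEnd ℂ) (w r)‖ ≤
      KK y (0 + ((j + 1 : ℕ) : ℝ) * (2 * α * β)) := by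
    intro j _
    rw [zero_add]
    have h3 : ∀ r ∈ range (y - j - 1), w (r + j + 1) * (starRingEnd ℂ) (w r) =
        ee (((α * ((j + 1 : ℕ) : ℤ) ^ 2 + 2 * α * (u + 1 : ℕ) * ((j + 1 : ℕ) : ℤ) +
          γ * ((j + 1 : ℕ) : ℤ) : ℤ) : ℝ) * β) * ee (r * (((j + 1 : ℕ) : ℝ) * (2 * α * β))) := by
      intro r _
      rw [hw]
      simp only
      rw [conj_ee, ← ee_add, ← ee_add]
      congr 1
      push_cast
      ring
    rw [Finset.sum_congr rfl h3, ← Finset.mul_sum, norm_mul, norm_ee, one_mul, Finset.range_eq_Ico]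
    apply geo_bound 0 (y - j - 1) (by omega)
    have : ((y - j - 1 : ℕ) : ℝ) ≤ y := by exact_mod_cast (by omega : y - j - 1 ≤ y)
    simpa using this
  rw [h1]
  apply add_le_add_right
  apply mul_le_mul_of_nonneg_left _ (by norm_num)
  refine (Finset.sum_le_sum h2).trans ?_
  have hv := vino hs hcop hβ (M := (y : ℝ)) (Nat.cast_nonneg _) 0 (y + 1)
  refine le_trans ?_ hv
  rw [Finset.sum_range_succ' (fun j : ℕ => KK y (0 + (j : ℝ) * (2 * α * β)))]
  have h3 := KK_nonneg (Nat.cast_nonneg (α := ℝ) y) (0 + ((0 : ℕ) : ℝ) * (2 * α * β))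
  linarith

/-- the kernel -/
noncomputable def DH (H : ℕ) (β : ℝ) : ℂ := ∑ h ∈ range H, ee (h * β)

theorem DH_lower {H : ℕ} {β : ℝ} (hβ : 6 * (H * |β|) ≤ 1) : (H : ℝ) / 2 ≤ ‖DH H β‖ := by
  have hre : (H : ℝ) / 2 ≤ (DH H β).re := by
    unfold DH
    rw [Complex.re_sum]
    have hterm : ∀ h ∈ range H, (1 / 2 : ℝ) ≤ (ee (h * β)).re := by
      intro h hh
      rw [mem_range] at hh
      have hh' : (h : ℝ) ≤ H := by exact_mod_cast hh.le
      have e1 : (ee (h * β)).re = Real.cos (2 * Real.pi * (h * β)) := by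
        unfold ee
        have e2 : (2 * Real.pi * Complex.I * ((h * β : ℝ) : ℂ)) =
            ((2 * Real.pi * (h * β) : ℝ) : ℂ) * Complex.I := by
          push_cast
          ring
        rw [e2, Complex.exp_ofReal_mul_I_re]
      rw [e1, ← Real.cos_abs, ← Real.cos_pi_div_three]
      apply Real.cos_le_cos_of_nonneg_of_le_pi (abs_nonneg _)
      · have := Real.pi_pos
        linarith
      · rw [abs_mul (2 * Real.pi) ((h : ℝ) * β), abs_mul (h : ℝ) β,
          abs_of_nonneg (by positivity : (0 : ℝ) ≤ 2 * Real.pi), abs_of_nonneg (Nat.cast_nonneg h)]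
        have h3 : (h : ℝ) * |β| ≤ H * |β| := mul_le_mul_of_nonneg_right hh' (abs_nonneg _)
        have h4 : (h : ℝ) * |β| ≤ 1 / 6 := by linarith
        calc 2 * Real.pi * ((h : ℝ) * |β|) ≤ 2 * Real.pi * (1 / 6) := by
              apply mul_le_mul_of_nonneg_left h4
              have := Real.pi_pos
              positivity
          _ = Real.pi / 3 := by ring
    calc (H : ℝ) / 2 = ∑ _h ∈ range H, (1 / 2 : ℝ) := by
          rw [Finset.sum_const, card_range, nsmul_eq_mul]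
          ring
      _ ≤ _ := Finset.sum_le_sum hterm
  exact hre.trans (Complex.re_le_norm _)

/-- the windows near a rational number -/
theorem win_int (a : ℕ → ℝ) (N H : ℕ) (θ : ℝ) :
    ∫ β in (0 : ℝ)..1, ‖∑ n ∈ Icc 1 N, (a n : ℂ) * ee (n * β)‖ ^ 2 * ‖DH H (β - θ)‖ ^ 2 ≤
      ∑ m ∈ range (N + H + 1), ‖∑ n ∈ (Icc 1 N).filter (fun n => n < m ∧ m ≤ n + H),
        (a n : ℂ) * ee (n * θ)‖ ^ 2 := by
  have h1 : ∀ β : ℝ, ‖∑ n ∈ Icc 1 N, (a n : ℂ) * ee (n * β)‖ ^ 2 * ‖DH H (β - θ)‖ ^ 2 =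
      ‖∑ i ∈ Icc 1 N ×ˢ range H, ((a i.1 : ℂ) * ee (-(i.2 * θ))) *
        ee ((((i.1 + i.2 : ℕ) : ℤ) : ℝ) * β)‖ ^ 2 := by
    intro β
    rw [← mul_pow, ← norm_mul]
    congr 2
    unfold DH
    rw [Finset.sum_mul_sum, Finset.sum_product]
    apply Finset.sum_congr rfl
    intro n _
    apply Finset.sum_congr rfl
    intro h _
    simp only
    have e1 : (h : ℝ) * (β - θ) = -(h * θ) + h * β := by ring
    have e2 : (((n + h : ℕ) : ℤ) : ℝ) * β = n * β + h * β := by push_cast; ring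
    rw [e1, e2, ee_add, ee_add]
    ring
  simp_rw [h1]
  rw [pars' (Icc 1 N ×ˢ range H) (fun i => (a i.1 : ℂ) * ee (-(i.2 * θ))) (fun i => ((i.1 + i.2 : ℕ) : ℤ))]
  obtain ⟨F, hF⟩ : ∃ F : ℕ → ℝ, F = fun m => ‖∑ n ∈ (Icc 1 N).filter (fun n => n < m ∧ m ≤ n + H),
    (a n : ℂ) * ee (n * θ)‖ ^ 2 := ⟨_, rfl⟩
  have hFm : ∑ m ∈ range (N + H + 1), ‖∑ n ∈ (Icc 1 N).filter (fun n => n < m ∧ m ≤ n + H),
      (a n : ℂ) * ee (n * θ)‖ ^ 2 = ∑ m ∈ range (N + H + 1), F m := by rw [hF]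
  rw [hFm]
  have h2 : ∀ c ∈ (Icc 1 N ×ˢ range H).image (fun i => ((i.1 + i.2 : ℕ) : ℤ)),
      ‖∑ i ∈ Icc 1 N ×ˢ range H with ((i.1 + i.2 : ℕ) : ℤ) = c, (a i.1 : ℂ) * ee (-(i.2 * θ))‖ ^ 2 =
      F (c.toNat + 1) ∧ 0 ≤ c ∧ c.toNat + 1 ∈ range (N + H + 1) := by
    intro c hc
    rw [mem_image] at hc
    obtain ⟨i0, hi0, rfl⟩ := hc
    rw [mem_product, mem_Icc, mem_range] at hi0
    obtain ⟨k, hk⟩ : ∃ k : ℕ, k = i0.1 + i0.2 := ⟨_, rfl⟩
    rw [← hk]
    refine ⟨?_, by positivity, by rw [mem_range, Int.toNat_natCast]; omega⟩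
    rw [hF, Int.toNat_natCast]
    simp only
    congr 1
    have e1 : ∑ i ∈ Icc 1 N ×ˢ range H with ((i.1 + i.2 : ℕ) : ℤ) = (k : ℤ),
        (a i.1 : ℂ) * ee (-(i.2 * θ)) =
        ∑ n ∈ (Icc 1 N).filter (fun n => n < k + 1 ∧ k + 1 ≤ n + H),
          ee (-(k * θ)) * ((a n : ℂ) * ee (n * θ)) := by
      refine Finset.sum_nbij' (fun i => i.1) (fun n => (n, k - n)) ?_ ?_ ?_ ?_ ?_
      · intro i hi
        rw [mem_filter, mem_product, mem_Icc, mem_range] at hi
        rw [mem_filter, mem_Icc]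
        have h3 : i.1 + i.2 = k := by exact_mod_cast hi.2
        omega
      · intro n hn
        rw [mem_filter, mem_Icc] at hn
        rw [mem_filter, mem_product, mem_Icc, mem_range]
        simp only
        refine ⟨⟨hn.1, by omega⟩, ?_⟩
        have h3 : n + (k - n) = k := by omega
        rw [h3]
      · intro i hi
        rw [mem_filter] at hi
        have h3 : i.1 + i.2 = k := by exact_mod_cast hi.2
        ext
        · rfl
        · simp only
          omega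
      · intro n _
        rfl
      · intro i hi
        rw [mem_filter] at hi
        have h3 : i.1 + i.2 = k := by exact_mod_cast hi.2
        have h4 : (k : ℝ) = i.1 + i.2 := by rw [← h3]; push_cast; ring
        have e : -((i.2 : ℝ) * θ) = -(k * θ) + i.1 * θ := by
          rw [h4]
          ring
        rw [e, ee_add]
        ring
    rw [e1, ← Finset.mul_sum, norm_mul, norm_ee, one_mul]
  rw [Finset.sum_congr rfl (fun c hc => (h2 c hc).1)]
  rw [← Finset.sum_image (f := F) (g := fun c : ℤ => c.toNat + 1)]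
  · apply Finset.sum_le_sum_of_subset_of_nonneg
    · intro m hm
      rw [mem_image] at hm
      obtain ⟨c, hc, rfl⟩ := hm
      exact (h2 c hc).2.2
    · intro m _ _
      rw [hF]
      positivity
  · intro c1 hc1 c2 hc2 h12
    have a1 := (h2 c1 (mem_coe.1 hc1)).2.1
    have a2 := (h2 c2 (mem_coe.1 hc2)).2.1
    simp only at h12
    omega

end Pool.Agent.K9h19.CR
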