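import Pool.Agent.K9h19.CR.BD3

/-!
# Prime plus square: the mean square of the error terms for the primes
-/

set_option autoImplicit false

namespace Pool.Agent.K9h19.CR

open Finset Filter Topology
open Pool.Agent.Q236.CR
open Pool.Agent.H373R2.T7 (lamz Vz pz Vz_pos Vz_inv_small nuB mem_pz PerB)

/-- the sum over all the squares -/
noncomputable def Gsq (a : ℕ → ℝ) (N n : ℕ) : ℝ := ∑ m ∈ range (Nat.sqrt n + 1), ext0 a N ((n : ℤ) - (m : ℤ) ^ 2)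

/-- a window which contains all the squares which matter -/
theorem Gsq_window (a : ℕ → ℝ) {N n u Y k : ℕ} (hu : u ≤ Nat.sqrt n) (hYu : N < Y * u) (hYs : Y ≤ u)
    (hk1 : Nat.sqrt n ≤ k + 2 * Y) (hk2 : k + Y < Nat.sqrt n) :
    ∑ t ∈ Ioc k (k + 3 * Y), ext0 a N ((n : ℤ) - (t : ℤ) ^ 2) = Gsq a N n := by
  obtain ⟨s, hs⟩ : ∃ s : ℕ, s = Nat.sqrt n := ⟨_, rfl⟩
  rw [← hs] at hu hk1 hk2
  have hsn : s ^ 2 ≤ n := by rw [hs]; exact Nat.sqrt_le' n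
  have hsn2 : n < (s + 1) ^ 2 := by rw [hs]; exact Nat.lt_succ_sqrt' n
  unfold Gsq
  rw [← hs]
  have e1 : ∑ t ∈ Ioc k (k + 3 * Y), ext0 a N ((n : ℤ) - (t : ℤ) ^ 2) =
      ∑ t ∈ Ioc k s, ext0 a N ((n : ℤ) - (t : ℤ) ^ 2) := by
    symm
    apply Finset.sum_subset
    · intro t ht
      rw [mem_Ioc] at ht ⊢
      omega
    · intro t ht ht'
      rw [mem_Ioc] at ht ht'
      apply ext0_neg
      have h1 : s + 1 ≤ t := by omega
      have h2 : (s + 1) ^ 2 ≤ t ^ 2 := Nat.pow_le_pow_left h1 2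
      have h3 : n ≤ t ^ 2 := by omega
      have h4 : (n : ℤ) ≤ (t : ℤ) ^ 2 := by exact_mod_cast h3
      linarith
  rw [e1]
  apply Finset.sum_subset
  · intro t ht
    rw [mem_Ioc] at ht
    rw [mem_range]
    omega
  · intro t ht ht'
    rw [mem_range] at ht
    rw [mem_Ioc] at ht'
    apply ext0_big
    have h1 : t ≤ k := by omega
    have h2 : t + Y ≤ s := by omega
    have h3 : t ^ 2 + Y * u ≤ n := by
      have h4 : (t + Y) ^ 2 ≤ s ^ 2 := Nat.pow_le_pow_left h2 2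
      obtain ⟨r, hr⟩ : ∃ r, s = t + Y + r := ⟨s - (t + Y), by omega⟩
      have h5 : t ^ 2 + Y * s ≤ s ^ 2 := by
        have h6 : Y * s ≤ s * s := Nat.mul_le_mul_right _ (hYs.trans hu)
        have h7 : t ^ 2 ≤ t * s := by
          rw [sq]
          exact Nat.mul_le_mul_left _ (by omega)
        have h8 : t * s + Y * s ≤ s * s := by
          rw [← Nat.add_mul]
          exact Nat.mul_le_mul_right _ h2
        rw [sq s]
        omega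
      have h6 : Y * u ≤ Y * s := Nat.mul_le_mul_left _ hu
      omega
    have h4 : t ^ 2 + N < n := by omega
    have h5 : (t : ℤ) ^ 2 + N < n := by exact_mod_cast h4
    linarith

/-- the mean square of the errors for the primes -/
theorem quad_part (hcr : S_CHR) (hmo : S_MOC) (A : ℕ) : ∃ B₀ : ℕ, ∀ E : ℕ, ∃ D N₀ : ℕ,
    ∀ N : ℕ, N₀ ≤ N → ∀ z : ℕ, Real.log N ^ B₀ ≤ z → (z : ℝ) ≤ Real.log N ^ E →
    ∀ u K Y : ℕ, N < Y * u → Y * u ≤ 2 * N → Y ≤ 30 * K → 1 ≤ Y → 2 * Y + 1 ≤ u → K ≤ u → Real.log N ^ D ≤ K →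
    (N : ℝ) ^ (1 / 3 : ℝ) * Real.log N ^ D ≤ Y * K →
    ∑ n ∈ Ico (u ^ 2) ((u + K) ^ 2), (Gsq (PE z) N n) ^ 2 ≤
      384300 * (N * K / Real.log N) + 549 * (N * K * Y / Real.log N ^ A) := by
  obtain ⟨B₀, hB₀⟩ := sm_gen hcr hmo 2 (by norm_num) A
  refine ⟨B₀, fun E => ?_⟩
  obtain ⟨D, N₁, h0⟩ := hB₀ E
  obtain ⟨N₂, hN₂⟩ := ev_natlog (P := fun l => 366 ≤ l) (eventually_ge_atTop 366)
  refine ⟨D, N₁ + N₂ + 3, fun N hN z hz1 hz2 u K Y hYu hYu2 hYK hY1 hYu3 hKu hK hNY => ?_⟩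
  have g1 := hN₂ N (by omega)
  have hN0 : (0 : ℝ) < N := by exact_mod_cast (by omega : 0 < N)
  have h1 := h0 N (by omega) z hz1 hz2
  obtain ⟨L, hL⟩ : ∃ L : ℝ, L = Real.log N := ⟨_, rfl⟩
  rw [← hL] at g1 hK hNY h1 ⊢
  have hL0 : 0 < L := by linarith
  have hY0 : (0 : ℝ) < Y := by exact_mod_cast hY1
  have hYKr : (Y : ℝ) ≤ 30 * K := by exact_mod_cast hYK
  have hK0 : (0 : ℝ) < K := by linarith
  obtain ⟨k₀, hk₀⟩ : ∃ k₀ : ℕ, k₀ = u - 2 * Y - 1 := ⟨_, rfl⟩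
  obtain ⟨K', hK'⟩ : ∃ K' : ℕ, K' = K + 2 * Y := ⟨_, rfl⟩
  have hK'r : (K' : ℝ) ≤ 61 * K := by
    rw [hK']
    push_cast
    linarith
  have hKK' : (K : ℝ) ≤ K' := by
    rw [hK']
    push_cast
    linarith
  obtain ⟨S, hS⟩ : ∃ S : ℕ → Finset ℤ, S = fun k => ((Ico (u ^ 2) ((u + K) ^ 2)).filter
    (fun n => Nat.sqrt n ≤ k + 2 * Y ∧ k + Y < Nat.sqrt n)).image (fun n : ℕ => (n : ℤ)) := ⟨_, rfl⟩
  have hmain := h1 ℕ (Ioc k₀ (k₀ + K')) (fun k => Ioc k (k + 3 * Y)) (fun _ t => -(((1 : ℕ) : ℤ) * (t : ℤ) ^ 2 + 0 * (t : ℤ)))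
    K' (3 * Y) (fam_quad_neg (α := 1) le_rfl 0 k₀ K' (3 * Y)) (by omega) (hK.trans hKK') (by
      refine hNY.trans ?_
      push_cast
      have : 0 ≤ (Y : ℝ) * K' := by positivity
      calc (Y : ℝ) * K ≤ Y * K' := by gcongr
        _ ≤ 3 * Y * K' := by linarith) (by
      push_cast
      have hKur : (K : ℝ) ≤ u := by exact_mod_cast hKu
      have hYu2r : (Y : ℝ) * u ≤ 2 * N := by exact_mod_cast hYu2
      calc 3 * (Y : ℝ) * K' ≤ 3 * Y * (61 * K) := by gcongr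
        _ = 183 * (Y * K) := by ring
        _ ≤ 183 * (Y * u) := by gcongr
        _ ≤ 183 * (2 * N) := by gcongr
        _ = N * 366 := by ring
        _ ≤ N * L := by gcongr) S
  -- the left side
  have hwin : ∀ n ∈ Ico (u ^ 2) ((u + K) ^ 2), u ≤ Nat.sqrt n ∧ Nat.sqrt n < u + K := by
    intro n hn
    rw [mem_Ico] at hn
    exact ⟨Nat.le_sqrt'.2 hn.1, Nat.sqrt_lt'.2 hn.2⟩
  have hleft : Y * ∑ n ∈ Ico (u ^ 2) ((u + K) ^ 2), (Gsq (PE z) N n) ^ 2 ≤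
      ∑ k ∈ Ioc k₀ (k₀ + K'), ∑ c ∈ S k, |∑ t ∈ Ioc k (k + 3 * Y), ext0 (PE z) N
        (c + (-(((1 : ℕ) : ℤ) * (t : ℤ) ^ 2 + 0 * (t : ℤ))))| ^ 2 := by
    have e1 : ∀ k ∈ Ioc k₀ (k₀ + K'), ∑ c ∈ S k, |∑ t ∈ Ioc k (k + 3 * Y), ext0 (PE z) N
        (c + (-(((1 : ℕ) : ℤ) * (t : ℤ) ^ 2 + 0 * (t : ℤ))))| ^ 2 =
        ∑ n ∈ Ico (u ^ 2) ((u + K) ^ 2), if Nat.sqrt n ≤ k + 2 * Y ∧ k + Y < Nat.sqrt n then (Gsq (PE z) N n) ^ 2 else 0 := by
      intro k _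
      rw [hS]
      simp only
      rw [Finset.sum_image (by
        intro x _ x' _ hxx'
        have h : (x : ℤ) = x' := hxx'
        exact_mod_cast h), ← Finset.sum_filter]
      apply Finset.sum_congr rfl
      intro n hn
      rw [mem_filter] at hn
      have e2 : ∀ t : ℕ, (n : ℤ) + (-(((1 : ℕ) : ℤ) * (t : ℤ) ^ 2 + 0 * (t : ℤ))) = (n : ℤ) - (t : ℤ) ^ 2 := by
        intro t
        push_cast
        ring
      simp only [e2]
      rw [Gsq_window (PE z) (hwin n hn.1).1 hYu (by omega) hn.2.1 hn.2.2, sq_abs]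
    rw [Finset.sum_congr rfl e1, Finset.sum_comm, Finset.mul_sum]
    apply Finset.sum_le_sum
    intro n hn
    obtain ⟨h2, h3⟩ := hwin n hn
    rw [← Finset.sum_filter, Finset.sum_const, nsmul_eq_mul]
    apply mul_le_mul_of_nonneg_right _ (sq_nonneg _)
    have h4 : (Ico (Nat.sqrt n - 2 * Y) (Nat.sqrt n - Y)).card ≤
        ((Ioc k₀ (k₀ + K')).filter (fun k => Nat.sqrt n ≤ k + 2 * Y ∧ k + Y < Nat.sqrt n)).card := by
      apply card_le_card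
      intro k hk
      rw [mem_Ico] at hk
      rw [mem_filter, mem_Ioc]
      omega
    rw [Nat.card_Ico] at h4
    have h5 : Nat.sqrt n - Y - (Nat.sqrt n - 2 * Y) = Y := by omega
    rw [h5] at h4
    exact_mod_cast h4
  have h2 := hleft.trans hmain
  push_cast at h2
  have h3 : 2100 * ((N : ℝ) * K' * (3 * Y) / L) + N * K' * (3 * Y) ^ 2 / L ^ A ≤
      Y * (384300 * (N * K / L) + 549 * (N * K * Y / L ^ A)) := by
    calc 2100 * ((N : ℝ) * K' * (3 * Y) / L) + N * K' * (3 * Y) ^ 2 / L ^ A ≤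
        2100 * ((N : ℝ) * (61 * K) * (3 * Y) / L) + N * (61 * K) * (3 * Y) ^ 2 / L ^ A := by gcongr
      _ = _ := by ring
  exact le_of_mul_le_mul_left (h2.trans h3) hY0

end Pool.Agent.K9h19.CR
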