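import Pool.Agent.K9h19.CR.QU0
import Pool.Agent.R460.SB.Leg

/-!
# Prime plus square: the mean square of the model
-/

set_option autoImplicit false

namespace Pool.Agent.K9h19.CR

open Finset Filter Topology
open Pool.Agent.Q236.CR
open Pool.Agent.H373R2.T7 (lamz Vz pz Vz_pos Vz_inv_small nuB mem_pz PerB)
open Pool.Agent.R460.SB (QS Sz Sz_bd fv nu_zmod QS_perB)

/-- the singular series of `n = p + m²`, up to `z` -/
noncomputable def Szn (n z : ℕ) : ℝ := Sz (-1) 0 (-(n : ℤ)) z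

theorem nu_shift (s c : ℕ) {p : ℕ} (hp : p.Prime) :
    nuB (QS 1 (-((2 * s : ℕ) : ℤ)) (c : ℤ)) p = nuB (QS (-1) 0 (-((s ^ 2 + c : ℕ) : ℤ))) p := by
  have : Fact p.Prime := ⟨hp⟩
  rw [nu_zmod, nu_zmod]
  refine card_nbij' (fun x : ZMod p => (s : ZMod p) - x) (fun y : ZMod p => (s : ZMod p) - y) ?_ ?_ ?_ ?_
  · intro x hx
    rw [mem_coe, mem_filter] at hx ⊢
    refine ⟨mem_univ _, ?_⟩
    have h1 := hx.2
    push_cast at h1 ⊢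
    linear_combination -h1
  · intro y hy
    rw [mem_coe, mem_filter] at hy ⊢
    refine ⟨mem_univ _, ?_⟩
    have h1 := hy.2
    push_cast at h1 ⊢
    linear_combination -h1
  · intro x _
    simp only
    ring
  · intro y _
    simp only
    ring

theorem Szn_eq (s c z : ℕ) : Szn (s ^ 2 + c) z = Sz 1 (-((2 * s : ℕ) : ℤ)) (c : ℤ) z := by
  unfold Szn Sz
  congr 1
  apply Finset.prod_congr rfl
  intro p hp
  rw [nu_shift s c (mem_pz.1 hp).2]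

/-- the mean square of the errors of the model -/
theorem quad_model (A E : ℕ) : ∃ X₀ : ℕ, ∀ X : ℕ, X₀ ≤ X → ∀ z : ℕ, 1 ≤ z → (z : ℝ) ≤ Real.log X ^ E →
    (Vz z)⁻¹ ≤ Real.log X → ∀ B K t : ℕ, 1 ≤ t → Real.log X ^ (A + 4) ≤ K →
    ∑ b ∈ Ioc B (B + K), ∑ c ∈ Ioc 0 (0 + X),
      (∑ s ∈ Ioc 0 (0 + t), (sgz z ((c : ℤ) + (-1 * (s : ℤ) ^ 2 + (b : ℤ) * (s : ℤ))) - Sz 1 (-(b : ℤ)) (c : ℤ) z)) ^ 2 ≤
      8 * (X * K * t * (Vz z)⁻¹) + 18 * (X * K * (t : ℝ) ^ 2 / Real.log X ^ (A + 3)) := by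
  classical
  obtain ⟨X₁, h1⟩ := model_var E (A + 3)
  obtain ⟨X₂, h2⟩ := sys_win' ((1 : ℤ).natAbs + 2) E (A + 3 + 1) 8 (by omega)
  obtain ⟨X₃, h3⟩ := ev_natlog (P := fun l => 100 ≤ l) (eventually_ge_atTop 100)
  refine ⟨X₁ + X₂ + X₃ + 3, fun X hX z hz hzE hV B K t ht hK => ?_⟩
  have g1 := h3 X (by omega)
  have hX0 : (0 : ℝ) < X := by exact_mod_cast (by omega : 0 < X)
  obtain ⟨M, hM⟩ : ∃ M : ℕ, M = t + (Nat.sqrt X + 1) := ⟨_, rfl⟩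
  have hyM : 0 + t ≤ M := by omega
  have hXM : X ≤ M ^ 8 := by
    have h4 : X < (Nat.sqrt X + 1) ^ 2 := Nat.lt_succ_sqrt' X
    have h5 : Nat.sqrt X + 1 ≤ M := by
      rw [hM]
      exact Nat.le_add_left _ _
    have hM1 : 1 ≤ M := by omega
    calc X ≤ (Nat.sqrt X + 1) ^ 2 := h4.le
      _ ≤ M ^ 2 := Nat.pow_le_pow_left h5 2
      _ ≤ M ^ 8 := Nat.pow_le_pow_right hM1 (by norm_num)
  have k1 := h1 X (by omega) z hz hzE hV (-1) B K 0 t M 0 ht hyM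
  have k2 := h2 X (by omega) z hz hzE M hXM
  obtain ⟨L, hL⟩ : ∃ L : ℝ, L = Real.log X := ⟨_, rfl⟩
  rw [← hL] at g1 hV hK k1 k2 ⊢
  have hL0 : 0 < L := by linarith
  have hL1 : 1 ≤ L := by linarith
  have hyr : (1 : ℝ) ≤ t := by exact_mod_cast ht
  have hy0 : (0 : ℝ) < t := by linarith
  have hM0 : (0 : ℝ) < M := by exact_mod_cast (by omega : 0 < M)
  have hV0 := inv_pos.2 (Vz_pos z)
  obtain ⟨D1, hD1⟩ : ∃ D1 : ℕ → ℕ → ℝ, D1 = fun (b c : ℕ) =>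
    1 / (t : ℝ) * ∑ s ∈ Ioc 0 (0 + t), sgz z ((c : ℤ) + (-1 * (s : ℤ) ^ 2 + (b : ℤ) * (s : ℤ))) -
      1 / (M : ℝ) * ∑ s ∈ Ioc 0 M, sgz z ((c : ℤ) + (-1 * (s : ℤ) ^ 2 + (b : ℤ) * (s : ℤ))) := ⟨_, rfl⟩
  have hpt : ∀ b ∈ Ioc B (B + K), ∀ c ∈ Ioc 0 (0 + X),
      (∑ s ∈ Ioc 0 (0 + t), (sgz z ((c : ℤ) + (-1 * (s : ℤ) ^ 2 + (b : ℤ) * (s : ℤ))) - Sz 1 (-(b : ℤ)) (c : ℤ) z)) ^ 2 ≤
      2 * (t : ℝ) ^ 2 * (D1 b c) ^ 2 + 2 * ((t : ℝ) ^ 2 / L ^ (A + 3)) := by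
    intro b _ c _
    have k3 := k2 (QS 1 (-(b : ℤ)) (c : ℤ)) (QS_perB one_ne_zero _) 0
    obtain ⟨σ, hσ⟩ : ∃ σ : ℝ, σ = Sz 1 (-(b : ℤ)) (c : ℤ) z := ⟨_, rfl⟩
    obtain ⟨s1, hs1⟩ : ∃ s1 : ℝ, s1 = ∑ s ∈ Ioc 0 (0 + t), sgz z ((c : ℤ) + (-1 * (s : ℤ) ^ 2 + (b : ℤ) * (s : ℤ))) := ⟨_, rfl⟩
    obtain ⟨s2, hs2⟩ : ∃ s2 : ℝ, s2 = ∑ s ∈ Ioc 0 M, sgz z ((c : ℤ) + (-1 * (s : ℤ) ^ 2 + (b : ℤ) * (s : ℤ))) := ⟨_, rfl⟩
    have k4 : |s2 - σ * M| ≤ M / L ^ (A + 3) := by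
      have e1 := sgz_window (-1) (b : ℤ) (c : ℤ) z 0 M
      rw [neg_neg, zero_add] at e1
      have hfv : ∀ t : ℕ, fv 1 (-(b : ℤ)) (c : ℤ) t = (c : ℤ) + (-1 * (t : ℤ) ^ 2 + (b : ℤ) * (t : ℤ)) := by
        intro t
        unfold fv
        ring
      simp only [hfv] at e1
      rw [hs2, e1, hσ]
      rw [zero_add] at k3
      unfold Sz
      obtain ⟨cd, hcd⟩ : ∃ cd : ℝ, cd = ((((Ioc 0 M).filter (fun n : ℕ => ∀ p ∈ pz z, ¬ QS 1 (-(b : ℤ)) (c : ℤ) p n)).card : ℕ) : ℝ) := ⟨_, rfl⟩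
      have k3' : |cd - M * ∏ p ∈ pz z, (1 - (nuB (QS 1 (-(b : ℤ)) (c : ℤ)) p : ℝ) / p)| ≤ M / L ^ (A + 3 + 1) := by
        rw [hcd]
        convert k3
      have hcd' : ((((Ioc 0 M).filter (fun n : ℕ => ∀ p ∈ pz z, ¬ QS 1 (-(b : ℤ)) (c : ℤ) p n)).card : ℕ) : ℝ) = cd := by
        rw [hcd]
      have e3 : (Vz z)⁻¹ * (((Ioc 0 M).filter (fun t : ℕ => ∀ p ∈ pz z, ¬ QS 1 (-(b : ℤ)) (c : ℤ) p t)).card : ℝ) =
          (Vz z)⁻¹ * cd := by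
        rw [hcd]
      obtain ⟨pr, hpr⟩ : ∃ pr : ℝ, pr = ∏ p ∈ pz z, (1 - (nuB (QS 1 (-(b : ℤ)) (c : ℤ)) p : ℝ) / p) := ⟨_, rfl⟩
      rw [← hpr] at k3' ⊢
      have e2 : (Vz z)⁻¹ * cd - (Vz z)⁻¹ * pr * M = (Vz z)⁻¹ * (cd - M * pr) := by ring
      have e4 : |(Vz z)⁻¹ * cd - (Vz z)⁻¹ * pr * M| ≤ M / L ^ (A + 3) := by
        rw [e2, abs_mul, abs_of_pos hV0]
        calc (Vz z)⁻¹ * |cd - M * pr| ≤ L * (M / L ^ (A + 3 + 1)) := by gcongr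
          _ = M / L ^ (A + 3) := by
              rw [pow_succ L (A + 3)]
              field_simp
      convert e4 using 4
    have e0 : ∑ s ∈ Ioc 0 (0 + t), (sgz z ((c : ℤ) + (-1 * (s : ℤ) ^ 2 + (b : ℤ) * (s : ℤ))) - Sz 1 (-(b : ℤ)) (c : ℤ) z) =
        s1 - σ * t := by
      rw [Finset.sum_sub_distrib, ← hs1, ← hσ, Finset.sum_const, nsmul_eq_mul, Nat.card_Ioc,
        Nat.add_sub_cancel_left]
      ring
    rw [e0]
    have e1 : D1 b c = 1 / (t : ℝ) * s1 - 1 / (M : ℝ) * s2 := by rw [hD1, hs1, hs2]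
    have e2 : s1 - σ * t = t * D1 b c + t * (1 / (M : ℝ) * (s2 - σ * M)) := by
      rw [e1]
      field_simp
      ring
    rw [e2]
    refine two_sq.trans ?_
    have h5 : |1 / (M : ℝ) * (s2 - σ * M)| ≤ 1 / L ^ (A + 3) := by
      rw [abs_mul, abs_of_pos (by positivity)]
      calc 1 / (M : ℝ) * |s2 - σ * M| ≤ 1 / (M : ℝ) * (M / L ^ (A + 3)) := by gcongr
        _ = 1 / L ^ (A + 3) := by field_simp
    have h6 : (t * (1 / (M : ℝ) * (s2 - σ * M))) ^ 2 ≤ (t : ℝ) ^ 2 / L ^ (A + 3) := by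
      have h7 : (1 / (M : ℝ) * (s2 - σ * M)) ^ 2 ≤ (1 / L ^ (A + 3)) ^ 2 := by
        rw [← sq_abs]
        exact pow_le_pow_left₀ (abs_nonneg _) h5 2
      have h8 : (1 / L ^ (A + 3)) ^ 2 ≤ 1 / L ^ (A + 3) := by
        have h9 : 1 / L ^ (A + 3) ≤ 1 := by
          rw [div_le_one (by positivity)]
          exact one_le_pow₀ hL1
        have h10 : 0 ≤ 1 / L ^ (A + 3) := by positivity
        rw [sq]
        exact mul_le_of_le_one_right h10 h9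
      calc (t * (1 / (M : ℝ) * (s2 - σ * M))) ^ 2 = (t : ℝ) ^ 2 * (1 / (M : ℝ) * (s2 - σ * M)) ^ 2 := by ring
        _ ≤ (t : ℝ) ^ 2 * (1 / L ^ (A + 3)) := by
            apply mul_le_mul_of_nonneg_left (h7.trans h8) (by positivity)
        _ = _ := by ring
    have h7 : 2 * (t * D1 b c) ^ 2 = 2 * (t : ℝ) ^ 2 * (D1 b c) ^ 2 := by ring
    rw [h7]
    linarith
  have hsum : ∑ b ∈ Ioc B (B + K), ∑ c ∈ Ioc 0 (0 + X),
      (∑ s ∈ Ioc 0 (0 + t), (sgz z ((c : ℤ) + (-1 * (s : ℤ) ^ 2 + (b : ℤ) * (s : ℤ))) - Sz 1 (-(b : ℤ)) (c : ℤ) z)) ^ 2 ≤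
      2 * (t : ℝ) ^ 2 * (X * K * (4 / t * (Vz z)⁻¹) + X * (4 * (Vz z)⁻¹) + K * (4 * (X / L ^ (A + 3)))) +
        2 * (X * K * ((t : ℝ) ^ 2 / L ^ (A + 3))) := by
    calc ∑ b ∈ Ioc B (B + K), ∑ c ∈ Ioc 0 (0 + X),
      (∑ s ∈ Ioc 0 (0 + t), (sgz z ((c : ℤ) + (-1 * (s : ℤ) ^ 2 + (b : ℤ) * (s : ℤ))) - Sz 1 (-(b : ℤ)) (c : ℤ) z)) ^ 2 ≤
        ∑ b ∈ Ioc B (B + K), ∑ c ∈ Ioc 0 (0 + X),
          (2 * (t : ℝ) ^ 2 * (D1 b c) ^ 2 + 2 * ((t : ℝ) ^ 2 / L ^ (A + 3))) :=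
          Finset.sum_le_sum fun b hb => Finset.sum_le_sum fun c hc => hpt b hb c hc
      _ = 2 * (t : ℝ) ^ 2 * ∑ b ∈ Ioc B (B + K), ∑ c ∈ Ioc 0 (0 + X), (D1 b c) ^ 2 +
          2 * (X * K * ((t : ℝ) ^ 2 / L ^ (A + 3))) := by
          simp_rw [Finset.sum_add_distrib, Finset.sum_const, nsmul_eq_mul, Nat.card_Ioc,
            Nat.add_sub_cancel_left, Finset.mul_sum]
          ring
      _ ≤ _ := by
          have k1' : ∑ b ∈ Ioc B (B + K), ∑ c ∈ Ioc 0 (0 + X), (D1 b c) ^ 2 ≤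
            X * K * (4 / t * (Vz z)⁻¹) + X * (4 * (Vz z)⁻¹) + K * (4 * (X / L ^ (A + 3))) := by
            rw [hD1]
            exact k1
          gcongr
  refine hsum.trans ?_
  have e1 : 2 * (t : ℝ) ^ 2 * (X * K * (4 / t * (Vz z)⁻¹) + X * (4 * (Vz z)⁻¹) + K * (4 * (X / L ^ (A + 3)))) +
        2 * (X * K * ((t : ℝ) ^ 2 / L ^ (A + 3))) =
      8 * (X * K * t * (Vz z)⁻¹) + 8 * (X * (t : ℝ) ^ 2 * (Vz z)⁻¹) + 10 * (X * K * (t : ℝ) ^ 2 / L ^ (A + 3)) := by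
    field_simp
    ring
  rw [e1]
  have e2 : X * (t : ℝ) ^ 2 * (Vz z)⁻¹ ≤ X * K * (t : ℝ) ^ 2 / L ^ (A + 3) := by
    rw [le_div_iff₀ (by positivity)]
    calc X * (t : ℝ) ^ 2 * (Vz z)⁻¹ * L ^ (A + 3) ≤ X * (t : ℝ) ^ 2 * L * L ^ (A + 3) := by gcongr
      _ = X * (t : ℝ) ^ 2 * L ^ (A + 4) := by ring
      _ ≤ X * (t : ℝ) ^ 2 * K := by gcongr
      _ = X * K * (t : ℝ) ^ 2 := by ring
  linarith

/-- the decrease of the weight -/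
theorem w_dec2 {x y q ℓ : ℝ} {t : ℕ} (ht : 1 ≤ t) (hq : 0 < q) (hx : q * t ≤ x) (hxy : x ≤ y)
    (hyx : y - x ≤ 2 * q) (hℓ : 0 < ℓ) (hlog : ℓ ≤ Real.log x) :
    1 / Real.log x - 1 / Real.log y ≤ 2 / (t * ℓ ^ 2) ∧ 1 / Real.log y ≤ 1 / Real.log x := by
  have htr : (1 : ℝ) ≤ t := by exact_mod_cast ht
  have hx0 : 0 < x := lt_of_lt_of_le (by positivity) hx
  have hy0 : 0 < y := by linarith
  have hl0 : 0 < Real.log x := by linarith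
  have hl1 : Real.log x ≤ Real.log y := Real.log_le_log hx0 hxy
  have hl2 : 0 < Real.log y := by linarith
  constructor
  · have h1 : Real.log y - Real.log x ≤ 2 / t := by
      rw [← Real.log_div hy0.ne' hx0.ne']
      have h2 := Real.log_le_sub_one_of_pos (show 0 < y / x by positivity)
      have e : y / x - 1 = (y - x) / x := by field_simp
      rw [e] at h2
      refine h2.trans ?_
      rw [div_le_div_iff₀ hx0 (by linarith)]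
      calc (y - x) * t ≤ 2 * q * t := by gcongr
        _ = 2 * (q * t) := by ring
        _ ≤ 2 * x := by linarith
    have e : 1 / Real.log x - 1 / Real.log y =
        (Real.log y - Real.log x) / (Real.log x * Real.log y) := by
      field_simp
    rw [e]
    have h3 : ℓ ^ 2 ≤ Real.log x * Real.log y := by
      rw [sq]
      exact mul_le_mul hlog (hlog.trans hl1) hℓ.le hl0.le
    calc (Real.log y - Real.log x) / (Real.log x * Real.log y) ≤ (2 / t) / ℓ ^ 2 := by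
          apply div_le_div₀ (by positivity) h1 (by positivity) h3
      _ = 2 / (t * ℓ ^ 2) := by rw [div_div]
  · exact one_div_le_one_div_of_le hl0 hl1

end Pool.Agent.K9h19.CR
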