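import Pool.Agent.K9h19.CR.QU1

/-!
# Prime plus square: the model with the weights
-/

set_option autoImplicit false

namespace Pool.Agent.K9h19.CR

open Finset Filter Topology
open Pool.Agent.Q236.CR
open Pool.Agent.H373R2.T7 (lamz Vz pz Vz_pos Vz_inv_small nuB mem_pz PerB)
open Pool.Agent.R460.SB (QS Sz Sz_bd fv)

/-- the value `n - (s - t) ^ 2` for `n = s ^ 2 + c` -/
def vq (s c t : ℕ) : ℤ := (c : ℤ) + (-1 * (t : ℤ) ^ 2 + ((2 * s : ℕ) : ℤ) * (t : ℤ))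

theorem vq_eq (s c t : ℕ) : vq s c t = ((s ^ 2 + c : ℕ) : ℤ) - ((s : ℤ) - t) ^ 2 := by
  unfold vq
  push_cast
  ring

theorem vq_low {s c t : ℕ} (ht : t ≤ s) : (s : ℤ) * t ≤ vq s c t := by
  unfold vq
  push_cast
  have h1 : (t : ℤ) ≤ s := by exact_mod_cast ht
  have h2 : (0 : ℤ) ≤ t := by positivity
  have h3 : (t : ℤ) * t ≤ s * t := mul_le_mul_of_nonneg_right h1 h2
  have h4 : (0 : ℤ) ≤ c := by positivity
  have e : (t : ℤ) ^ 2 = t * t := sq _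
  rw [e]
  linarith

theorem vq_lowr {s c t : ℕ} (ht : t ≤ s) : (s : ℝ) * t ≤ ((vq s c t : ℤ) : ℝ) := by
  exact_mod_cast vq_low ht

theorem vq_step {s c t : ℕ} (ht : t + 1 ≤ s) :
    ((vq s c t : ℤ) : ℝ) ≤ ((vq s c (t + 1) : ℤ) : ℝ) ∧
      ((vq s c (t + 1) : ℤ) : ℝ) - ((vq s c t : ℤ) : ℝ) ≤ 2 * (s : ℝ) := by
  have e : vq s c (t + 1) = vq s c t + (2 * s - 2 * t - 1) := by
    unfold vq
    push_cast
    ring
  have h1 : (t : ℝ) + 1 ≤ s := by exact_mod_cast ht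
  have h2 : (0 : ℝ) ≤ t := Nat.cast_nonneg _
  rw [e]
  push_cast
  constructor <;> linarith

/-- the model with the weights -/
theorem quad_weighted (A E : ℕ) : ∃ X₀ : ℕ, ∀ u : ℕ, X₀ ≤ u → ∀ z : ℕ, 1 ≤ z →
    (z : ℝ) ≤ Real.log (4 * u : ℕ) ^ E → (Vz z)⁻¹ ≤ Real.log (4 * u : ℕ) → ∀ K J : ℕ, 1 ≤ J → J ≤ u → K ≤ u →
    Real.log (4 * u : ℕ) ^ (A + 4) ≤ K →
    ∑ s ∈ Ico u (u + K), ∑ c ∈ Icc 1 (2 * s),
      (∑ t ∈ Icc 1 J, (sgz z (vq s c t) - Szn (s ^ 2 + c) z) * (1 / Real.log ((vq s c t : ℤ) : ℝ))) ^ 2 ≤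
      3 / Real.log u ^ 2 *
        (64 * (u * K * J * (Vz z)⁻¹) + 144 * (u * K * (J : ℝ) ^ 2 / Real.log (4 * u : ℕ) ^ (A + 3))) := by
  obtain ⟨X₁, h1⟩ := quad_model A E
  obtain ⟨X₂, hX₂⟩ := ev_natlog (P := fun l => 2 ≤ l) (eventually_ge_atTop 2)
  refine ⟨X₁ + X₂ + 3, fun u hu z hz hzE hV K J hJ hJu hKu hK => ?_⟩
  have g1 := hX₂ u (by omega)
  have h2 := h1 (4 * u) (by omega) z hz hzE hV (2 * u - 1) (2 * K)
  obtain ⟨ℓ, hℓ⟩ : ∃ ℓ : ℝ, ℓ = Real.log u := ⟨_, rfl⟩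
  rw [← hℓ] at g1 ⊢
  have hℓ0 : 0 < ℓ := by linarith
  have hu0 : (0 : ℝ) < u := by exact_mod_cast (by omega : 0 < u)
  obtain ⟨α, hα⟩ : ∃ α : ℝ, α = 64 * (u * K * (Vz z)⁻¹) := ⟨_, rfl⟩
  obtain ⟨β, hβ⟩ : ∃ β : ℝ, β = 144 * (u * K / Real.log (4 * u : ℕ) ^ (A + 3)) := ⟨_, rfl⟩
  have hV0 := inv_pos.2 (Vz_pos z)
  have hl2 : 0 < Real.log (4 * u : ℕ) := lt_of_lt_of_le hV0 hV
  have hα0 : 0 ≤ α := by rw [hα]; positivity
  have hβ0 : 0 ≤ β := by rw [hβ]; positivity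
  obtain ⟨At, hAt⟩ : ∃ At : ℕ → ℕ → ℕ → ℝ, At = fun (s c t : ℕ) =>
    ∑ r ∈ Ioc 0 (0 + t), (sgz z (vq s c r) - Szn (s ^ 2 + c) z) := ⟨_, rfl⟩
  have h3 : ∀ t : ℕ, 1 ≤ t → ∑ s ∈ Ico u (u + K), ∑ c ∈ Icc 1 (2 * s), (At s c t) ^ 2 ≤
      α * t + β * (t : ℝ) ^ 2 := by
    intro t ht
    have h4 := h2 t ht (by
      push_cast
      have : (0 : ℝ) ≤ K := Nat.cast_nonneg _
      push_cast at hK
      linarith)
    refine le_trans ?_ (h4.trans (le_of_eq ?_))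
    · obtain ⟨F, hF⟩ : ∃ F : ℕ → ℝ, F = fun (b : ℕ) => ∑ c ∈ Ioc 0 (0 + 4 * u),
        (∑ s ∈ Ioc 0 (0 + t), (sgz z ((c : ℤ) + (-1 * (s : ℤ) ^ 2 + (b : ℤ) * (s : ℤ))) - Sz 1 (-(b : ℤ)) (c : ℤ) z)) ^ 2 :=
        ⟨_, rfl⟩
      have hF0 : ∀ b : ℕ, 0 ≤ F b := by
        intro b
        rw [hF]
        exact Finset.sum_nonneg fun _ _ => by positivity
      have h5 : ∀ s ∈ Ico u (u + K), ∑ c ∈ Icc 1 (2 * s), (At s c t) ^ 2 ≤ F (2 * s) := by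
        intro s hs
        rw [mem_Ico] at hs
        rw [hF]
        simp only
        have h6 : ∑ c ∈ Icc 1 (2 * s), (At s c t) ^ 2 = ∑ c ∈ Icc 1 (2 * s),
            (∑ r ∈ Ioc 0 (0 + t), (sgz z ((c : ℤ) + (-1 * (r : ℤ) ^ 2 + ((2 * s : ℕ) : ℤ) * (r : ℤ))) -
              Sz 1 (-((2 * s : ℕ) : ℤ)) (c : ℤ) z)) ^ 2 := by
          apply Finset.sum_congr rfl
          intro c _
          rw [hAt]
          simp only [Szn_eq]
          rfl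
        rw [h6]
        apply Finset.sum_le_sum_of_subset_of_nonneg
        · intro c hc
          rw [mem_Icc] at hc
          rw [mem_Ioc]
          omega
        · intro _ _ _
          positivity
      refine (Finset.sum_le_sum h5).trans ?_
      have h7 : ∑ s ∈ Ico u (u + K), F (2 * s) = ∑ b ∈ (Ico u (u + K)).image (fun s : ℕ => 2 * s), F b := by
        rw [Finset.sum_image]
        intro x _ x' _ hxx'
        have : 2 * x = 2 * x' := hxx'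
        omega
      rw [h7]
      have h8 : ∑ b ∈ (Ico u (u + K)).image (fun s : ℕ => 2 * s), F b ≤ ∑ b ∈ Ioc (2 * u - 1) (2 * u - 1 + 2 * K), F b := by
        apply Finset.sum_le_sum_of_subset_of_nonneg
        · intro b hb
          rw [mem_image] at hb
          obtain ⟨s, hs, rfl⟩ := hb
          rw [mem_Ico] at hs
          rw [mem_Ioc]
          omega
        · intro b _ _
          exact hF0 b
      refine h8.trans (le_of_eq ?_)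
      rw [hF]
    · rw [hα, hβ]
      push_cast
      ring
  -- one integer
  have h5 : ∀ s ∈ Ico u (u + K), ∀ c ∈ Icc 1 (2 * s),
      (∑ t ∈ Icc 1 J, (sgz z (vq s c t) - Szn (s ^ 2 + c) z) * (1 / Real.log ((vq s c t : ℤ) : ℝ))) ^ 2 ≤
      1 / ℓ * (∑ t ∈ Ico 1 J, (At s c t) ^ 2 * (2 / (t * ℓ ^ 2)) + (At s c J) ^ 2 * (1 / ℓ)) := by
    intro s hs c _
    rw [mem_Ico] at hs
    have hus : (u : ℝ) ≤ s := by exact_mod_cast hs.1
    have hs0 : (0 : ℝ) < s := by linarith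
    have hx : ∀ t : ℕ, 1 ≤ t → t ≤ J → (s : ℝ) * t ≤ ((vq s c t : ℤ) : ℝ) ∧ ℓ ≤ Real.log ((vq s c t : ℤ) : ℝ) := by
      intro t ht htJ
      have htr : (1 : ℝ) ≤ t := by exact_mod_cast ht
      have h6 : (s : ℝ) * t ≤ ((vq s c t : ℤ) : ℝ) := vq_lowr (by omega)
      refine ⟨h6, ?_⟩
      rw [hℓ]
      apply Real.log_le_log hu0
      calc (u : ℝ) ≤ s * 1 := by linarith
        _ ≤ s * t := by gcongr
        _ ≤ _ := h6
    have hW : ∀ t ∈ Ico 1 J, 1 / Real.log ((vq s c t : ℤ) : ℝ) - 1 / Real.log ((vq s c (t + 1) : ℤ) : ℝ) ≤ 2 / (t * ℓ ^ 2) ∧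
        1 / Real.log ((vq s c (t + 1) : ℤ) : ℝ) ≤ 1 / Real.log ((vq s c t : ℤ) : ℝ) := by
      intro t ht
      rw [mem_Ico] at ht
      obtain ⟨k1, k2⟩ := hx t ht.1 ht.2.le
      obtain ⟨k3, k4⟩ := vq_step (c := c) (by omega : t + 1 ≤ s)
      exact w_dec2 ht.1 hs0 k1 k3 k4 hℓ0 k2
    have hJ0 : 0 ≤ 1 / Real.log ((vq s c J : ℤ) : ℝ) := by
      have := (hx J hJ le_rfl).2
      have : 0 < Real.log ((vq s c J : ℤ) : ℝ) := by linarith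
      positivity
    have h7 := abel_sq (fun t => sgz z (vq s c t) - Szn (s ^ 2 + c) z)
      (fun t => 1 / Real.log ((vq s c t : ℤ) : ℝ)) J hJ (fun t ht => (hW t ht).2) hJ0
    refine h7.trans ?_
    have e1 : 1 / Real.log ((vq s c 1 : ℤ) : ℝ) ≤ 1 / ℓ := one_div_le_one_div_of_le hℓ0 (hx 1 le_rfl hJ).2
    have e2 : 1 / Real.log ((vq s c J : ℤ) : ℝ) ≤ 1 / ℓ := one_div_le_one_div_of_le hℓ0 (hx J hJ le_rfl).2
    have e3 : ∑ t ∈ Ico 1 J, (∑ r ∈ Ioc 0 (0 + t), (sgz z (vq s c r) - Szn (s ^ 2 + c) z)) ^ 2 *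
        (1 / Real.log ((vq s c t : ℤ) : ℝ) - 1 / Real.log ((vq s c (t + 1) : ℤ) : ℝ)) ≤
        ∑ t ∈ Ico 1 J, (At s c t) ^ 2 * (2 / (t * ℓ ^ 2)) := by
      apply Finset.sum_le_sum
      intro t ht
      rw [hAt]
      exact mul_le_mul_of_nonneg_left (hW t ht).1 (by positivity)
    have e4 : (∑ r ∈ Ioc 0 (0 + J), (sgz z (vq s c r) - Szn (s ^ 2 + c) z)) ^ 2 *
        (1 / Real.log ((vq s c J : ℤ) : ℝ)) ≤ (At s c J) ^ 2 * (1 / ℓ) := by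
      rw [hAt]
      exact mul_le_mul_of_nonneg_left e2 (by positivity)
    exact mul_le_mul e1 (add_le_add e3 e4) (by
      apply add_nonneg
      · apply Finset.sum_nonneg
        intro t ht
        apply mul_nonneg (by positivity)
        have := (hW t ht).2
        linarith
      · exact mul_nonneg (by positivity) hJ0) (by positivity)
  refine (Finset.sum_le_sum fun s hs => Finset.sum_le_sum fun c hc => h5 s hs c hc).trans ?_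
  -- the sum
  have hJr : (1 : ℝ) ≤ J := by exact_mod_cast hJ
  have e6 : ∑ s ∈ Ico u (u + K), ∑ c ∈ Icc 1 (2 * s),
      1 / ℓ * (∑ t ∈ Ico 1 J, (At s c t) ^ 2 * (2 / (t * ℓ ^ 2)) + (At s c J) ^ 2 * (1 / ℓ)) =
      1 / ℓ * (∑ t ∈ Ico 1 J, (∑ s ∈ Ico u (u + K), ∑ c ∈ Icc 1 (2 * s), (At s c t) ^ 2) *
        (2 / (t * ℓ ^ 2)) + (∑ s ∈ Ico u (u + K), ∑ c ∈ Icc 1 (2 * s), (At s c J) ^ 2) *
          (1 / ℓ)) := by
    simp_rw [Finset.sum_mul, ← Finset.mul_sum, Finset.sum_add_distrib]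
    congr 2
    have e7 : ∀ s ∈ Ico u (u + K), ∑ c ∈ Icc 1 (2 * s), ∑ t ∈ Ico 1 J,
        (At s c t) ^ 2 * (2 / (t * ℓ ^ 2)) = ∑ t ∈ Ico 1 J, ∑ c ∈ Icc 1 (2 * s),
        (At s c t) ^ 2 * (2 / (t * ℓ ^ 2)) := fun s _ => Finset.sum_comm
    rw [Finset.sum_congr rfl e7, Finset.sum_comm]
  rw [e6]
  have e8 : ∑ t ∈ Ico 1 J, (∑ s ∈ Ico u (u + K), ∑ c ∈ Icc 1 (2 * s), (At s c t) ^ 2) *
        (2 / (t * ℓ ^ 2)) ≤ (α * J + β * (J : ℝ) ^ 2) * (2 / ℓ ^ 2) := by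
    calc ∑ t ∈ Ico 1 J, (∑ s ∈ Ico u (u + K), ∑ c ∈ Icc 1 (2 * s), (At s c t) ^ 2) *
        (2 / (t * ℓ ^ 2)) ≤ ∑ _t ∈ Ico 1 J, (α + β * J) * (2 / ℓ ^ 2) := by
          apply Finset.sum_le_sum
          intro t ht
          rw [mem_Ico] at ht
          have ht0 : (0 : ℝ) < t := by exact_mod_cast (by omega : 0 < t)
          have htJ : (t : ℝ) ≤ J := by exact_mod_cast ht.2.le
          calc (∑ s ∈ Ico u (u + K), ∑ c ∈ Icc 1 (2 * s), (At s c t) ^ 2) *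
              (2 / (t * ℓ ^ 2)) ≤ (α * t + β * (t : ℝ) ^ 2) * (2 / (t * ℓ ^ 2)) :=
                mul_le_mul_of_nonneg_right (h3 t ht.1) (by positivity)
            _ = (α + β * t) * (2 / ℓ ^ 2) := by field_simp
            _ ≤ (α + β * J) * (2 / ℓ ^ 2) := by gcongr
      _ = ((J : ℝ) - 1) * ((α + β * J) * (2 / ℓ ^ 2)) := by
          rw [Finset.sum_const, nsmul_eq_mul, Nat.card_Ico, Nat.cast_sub hJ, Nat.cast_one]
      _ ≤ J * ((α + β * J) * (2 / ℓ ^ 2)) := by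
          apply mul_le_mul_of_nonneg_right _ (by positivity)
          linarith
      _ = (α * J + β * (J : ℝ) ^ 2) * (2 / ℓ ^ 2) := by ring
  have e9 := mul_le_mul_of_nonneg_right (h3 J hJ) (show 0 ≤ 1 / ℓ by positivity)
  have e10 : 1 / ℓ * ((α * J + β * (J : ℝ) ^ 2) * (2 / ℓ ^ 2) + (α * J + β * (J : ℝ) ^ 2) * (1 / ℓ)) ≤
      3 / ℓ ^ 2 * (α * J + β * (J : ℝ) ^ 2) := by
    have e11 : 1 / ℓ * ((α * J + β * (J : ℝ) ^ 2) * (2 / ℓ ^ 2) + (α * J + β * (J : ℝ) ^ 2) * (1 / ℓ)) =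
        (2 / ℓ + 1) / ℓ ^ 2 * (α * J + β * (J : ℝ) ^ 2) := by
      field_simp
    rw [e11]
    apply mul_le_mul_of_nonneg_right _ (by positivity)
    apply div_le_div_of_nonneg_right _ (by positivity)
    have : 2 / ℓ ≤ 1 := by rw [div_le_one hℓ0]; exact g1
    linarith
  refine (mul_le_mul_of_nonneg_left (add_le_add e8 e9) (by positivity)).trans (e10.trans (le_of_eq ?_))
  rw [hα, hβ]
  ring

end Pool.Agent.K9h19.CR
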