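import Pool.Agent.K9h19.CR.QU2
import Pool.Agent.K9h19.CR.BD4

/-!
# Prime plus square: one integer
-/

set_option autoImplicit false

namespace Pool.Agent.K9h19.CR

open Finset Filter Topology
open Pool.Agent.Q236.CR
open Pool.Agent.H373R2.T7 (lamz Vz pz Vz_pos Vz_inv_small nuB mem_pz PerB)
open Pool.Agent.R460.SB (QS Sz Sz_bd fv)

/-- the difference of the number of the `m`, `⌊√n⌋ - J ≤ m < ⌊√n⌋`, with `n - m ^ 2` prime and the expected number -/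
noncomputable def devn (S : ℝ) (J n : ℕ) : ℝ :=
  (((Icc 1 J).filter (fun t : ℕ => (n - (Nat.sqrt n - t) ^ 2).Prime)).card : ℝ) -
    S * ∑ t ∈ Icc 1 J, 1 / Real.log ((n - (Nat.sqrt n - t) ^ 2 : ℕ) : ℝ)

theorem sqrt_sc {s c : ℕ} (hc : c ≤ 2 * s) : Nat.sqrt (s ^ 2 + c) = s := by
  symm
  rw [Nat.eq_sqrt']
  constructor
  · omega
  · have : (s + 1) ^ 2 = s ^ 2 + 2 * s + 1 := by ring
    omega

theorem vq_nat {s c t : ℕ} (ht : t ≤ s) :
    (vq s c t).toNat = s ^ 2 + c - (s - t) ^ 2 ∧ ((vq s c t : ℤ) : ℝ) = ((s ^ 2 + c - (s - t) ^ 2 : ℕ) : ℝ) := by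
  have h1 : (s - t) ^ 2 ≤ s ^ 2 + c := by
    have : (s - t) ^ 2 ≤ s ^ 2 := Nat.pow_le_pow_left (by omega) 2
    omega
  have e : vq s c t = ((s ^ 2 + c : ℕ) : ℤ) - (((s - t) ^ 2 : ℕ) : ℤ) := by
    rw [vq_eq]
    push_cast [Nat.cast_sub ht]
    ring
  constructor
  · rw [e]
    exact Int.toNat_sub _ _
  · rw [e, Nat.cast_sub h1]
    push_cast
    ring

theorem vq_up {s c t u K J N : ℕ} (hs : s ∈ Ico u (u + K)) (hc : c ∈ Icc 1 (2 * s)) (ht : t ≤ J)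
    (hN : 2 * (u + K) * (J + 1) ≤ N) : vq s c t ≤ N := by
  rw [mem_Ico] at hs
  rw [mem_Icc] at hc
  unfold vq
  have h1 : (s : ℤ) ≤ u + K := by exact_mod_cast hs.2.le
  have h2 : (c : ℤ) ≤ 2 * s := by exact_mod_cast hc.2
  have h3 : (t : ℤ) ≤ J := by exact_mod_cast ht
  have h4 : 2 * ((u : ℤ) + K) * (J + 1) ≤ N := by exact_mod_cast hN
  have h5 : (0 : ℤ) ≤ t ^ 2 := by positivity
  have h6 : (0 : ℤ) ≤ t := by positivity
  have h7 : (0 : ℤ) ≤ s := by positivity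
  have h8 : (s : ℤ) * t ≤ (u + K) * J := mul_le_mul h1 h3 h6 (by positivity)
  push_cast
  linarith

/-- the sum over all the squares, in terms of the distance to the square root -/
theorem Gsq_sc (a : ℕ → ℝ) {N s c : ℕ} (hc : c ≤ 2 * s) :
    Gsq a N (s ^ 2 + c) = ∑ t ∈ range (s + 1), ext0 a N (vq s c t) := by
  unfold Gsq
  rw [sqrt_sc hc, ← Finset.sum_range_reflect]
  apply Finset.sum_congr rfl
  intro t ht
  rw [mem_range] at ht
  have e : s + 1 - 1 - t = s - t := by omega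
  rw [e, vq_eq]
  congr 1
  push_cast [Nat.cast_sub (by omega : t ≤ s)]
  ring

/-- the pointwise inequality -/
theorem quad_pt {u K J N z s c : ℕ} {S R δ : ℝ} (hs : s ∈ Ico u (u + K)) (hc : c ∈ Icc 1 (2 * s)) (hJu : J ≤ u)
    (hu : 3 ≤ u) (hV : (Vz z)⁻¹ ≤ Real.log u) (hN : 2 * (u + K) * (J + 1) ≤ N) (hR0 : 0 ≤ R)
    (hR : ∀ t : ℕ, J < t → t ≤ s → vq s c t ≤ N → (t : ℝ) ≤ J + R) (hS : |S - Szn (s ^ 2 + c) z| ≤ δ) :
    (devn S J (s ^ 2 + c)) ^ 2 ≤ 3 * (Gsq (PE z) N (s ^ 2 + c)) ^ 2 +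
      3 * (∑ t ∈ Icc 1 J, (sgz z (vq s c t) - Szn (s ^ 2 + c) z) * (1 / Real.log ((vq s c t : ℤ) : ℝ))) ^ 2 +
      9 * (ext0 (PE z) N (c : ℤ)) ^ 2 + 9 * R ^ 2 + 9 * (δ * J) ^ 2 := by
  have hup : ∀ t : ℕ, t ≤ J → vq s c t ≤ N := fun t ht => vq_up hs hc ht hN
  rw [mem_Ico] at hs
  rw [mem_Icc] at hc
  have hu0 : (0 : ℝ) < u := by exact_mod_cast (by omega : 0 < u)
  have hlu : 1 ≤ Real.log u := by
    rw [Real.le_log_iff_exp_le hu0]
    have h1 := Real.exp_one_lt_d9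
    have h2 : (3 : ℝ) ≤ u := by exact_mod_cast hu
    linarith
  have hlu0 : 0 < Real.log u := by linarith
  have hδ0 : 0 ≤ δ := (abs_nonneg _).trans hS
  have hus : (u : ℝ) ≤ s := by exact_mod_cast hs.1
  -- the values
  have hbig : ∀ t : ℕ, 1 ≤ t → t ≤ s → (u : ℝ) ≤ ((vq s c t : ℤ) : ℝ) := by
    intro t h1 h2
    have h3 : (1 : ℝ) ≤ t := by exact_mod_cast h1
    calc (u : ℝ) ≤ s * 1 := by linarith
      _ ≤ s * t := by gcongr
      _ ≤ _ := vq_lowr h2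
  have hpos : ∀ t : ℕ, 1 ≤ t → t ≤ s → 1 ≤ vq s c t := by
    intro t h1 h2
    have h3 := hbig t h1 h2
    have h4 : (3 : ℝ) ≤ u := by exact_mod_cast hu
    have h5 : (1 : ℝ) ≤ ((vq s c t : ℤ) : ℝ) := by linarith
    exact_mod_cast h5
  have hlog : ∀ t : ℕ, 1 ≤ t → t ≤ s → Real.log u ≤ Real.log ((vq s c t : ℤ) : ℝ) := fun t h1 h2 =>
    Real.log_le_log hu0 (hbig t h1 h2)
  have hcast : ∀ t : ℕ, t ≤ s → ((vq s c t).toNat : ℝ) = ((vq s c t : ℤ) : ℝ) := by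
    intro t h2
    rw [(vq_nat h2).1, (vq_nat h2).2]
  have hterm : ∀ t ∈ Ico 1 (J + 1), ext0 (PE z) N (vq s c t) =
      (if (s ^ 2 + c - (s - t) ^ 2).Prime then (1 : ℝ) else 0) - sgz z (vq s c t) * (1 / Real.log ((vq s c t : ℤ) : ℝ)) := by
    intro t ht
    rw [mem_Ico] at ht
    have h1 := hpos t ht.1 (by omega)
    unfold ext0
    rw [if_pos ⟨h1, hup t (by omega)⟩]
    unfold PE
    rw [lamz_eq_sgz (by omega), hcast t (by omega), (vq_nat (by omega : t ≤ s)).1]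
    ring
  have hrest : |∑ t ∈ Ico (J + 1) (s + 1), ext0 (PE z) N (vq s c t)| ≤ R := by
    have h1 : ∀ t ∈ Ico (J + 1) (s + 1), |ext0 (PE z) N (vq s c t)| ≤ if t ∈ Ioc J (J + ⌊R⌋₊) then 1 else 0 := by
      intro t ht
      rw [mem_Ico] at ht
      unfold ext0
      by_cases h : 1 ≤ vq s c t ∧ vq s c t ≤ N
      · rw [if_pos h, if_pos]
        · apply PE_one hlu0 _ hV
          rw [hcast t (by omega)]
          exact hlog t (by omega) (by omega)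
        · rw [mem_Ioc]
          refine ⟨by omega, ?_⟩
          have h2 := hR t (by omega) (by omega) h.2
          have h3 : ((t - J : ℕ) : ℝ) ≤ R := by
            rw [Nat.cast_sub (by omega)]
            linarith
          have h4 := Nat.le_floor h3
          omega
      · rw [if_neg h, abs_zero]
        split_ifs <;> norm_num
    refine (abs_sum_le_sum_abs _ _).trans ((Finset.sum_le_sum h1).trans ?_)
    rw [← Finset.sum_filter, Finset.sum_const, nsmul_eq_mul, mul_one]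
    have h2 : ((Ico (J + 1) (s + 1)).filter (fun t => t ∈ Ioc J (J + ⌊R⌋₊))).card ≤ (Ioc J (J + ⌊R⌋₊)).card := by
      apply card_le_card
      intro t ht
      exact (mem_filter.1 ht).2
    rw [Nat.card_Ioc, Nat.add_sub_cancel_left] at h2
    calc _ ≤ ((⌊R⌋₊ : ℕ) : ℝ) := by exact_mod_cast h2
      _ ≤ R := Nat.floor_le hR0
  obtain ⟨e0, he0⟩ : ∃ e0 : ℝ, e0 = ext0 (PE z) N (c : ℤ) := ⟨_, rfl⟩
  obtain ⟨rr, hrr⟩ : ∃ rr : ℝ, rr = ∑ t ∈ Ico (J + 1) (s + 1), ext0 (PE z) N (vq s c t) := ⟨_, rfl⟩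
  obtain ⟨S1, hS1⟩ : ∃ S1 : ℝ, S1 = ∑ t ∈ Icc 1 J, sgz z (vq s c t) * (1 / Real.log ((vq s c t : ℤ) : ℝ)) := ⟨_, rfl⟩
  obtain ⟨W, hW⟩ : ∃ W : ℝ, W = ∑ t ∈ Icc 1 J, 1 / Real.log ((vq s c t : ℤ) : ℝ) := ⟨_, rfl⟩
  obtain ⟨σ, hσ⟩ : ∃ σ : ℝ, σ = Szn (s ^ 2 + c) z := ⟨_, rfl⟩
  obtain ⟨cd, hcd⟩ : ∃ cd : ℝ, cd = (((Icc 1 J).filter (fun t : ℕ => (s ^ 2 + c - (s - t) ^ 2).Prime)).card : ℝ) := ⟨_, rfl⟩
  have hIco : Ico 1 (J + 1) = Icc 1 J := by
    ext i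
    rw [mem_Ico, mem_Icc]
    omega
  have hG : Gsq (PE z) N (s ^ 2 + c) = e0 + (cd - S1) + rr := by
    rw [Gsq_sc _ hc.2, Finset.range_eq_Ico, ← Finset.sum_Ico_consecutive _ (Nat.zero_le 1) (by omega : 1 ≤ s + 1),
      ← Finset.sum_Ico_consecutive _ (by omega : 1 ≤ J + 1) (by omega : J + 1 ≤ s + 1), Finset.sum_congr rfl hterm,
      Finset.sum_sub_distrib, ← hrr, hIco, ← hS1]
    have e1 : ∑ i ∈ Ico (0 : ℕ) 1, ext0 (PE z) N (vq s c i) = e0 := by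
      rw [he0]
      unfold vq
      simp
    have e2 : ∑ t ∈ Icc 1 J, (if (s ^ 2 + c - (s - t) ^ 2).Prime then (1 : ℝ) else 0) = cd := by
      rw [hcd, ← Finset.sum_filter, Finset.sum_const, nsmul_eq_mul, mul_one]
    rw [e1, e2]
    ring
  have hDD : ∑ t ∈ Icc 1 J, (sgz z (vq s c t) - Szn (s ^ 2 + c) z) * (1 / Real.log ((vq s c t : ℤ) : ℝ)) = S1 - σ * W := by
    rw [hS1, hW, hσ, Finset.mul_sum, ← Finset.sum_sub_distrib]
    exact Finset.sum_congr rfl fun _ _ => by ring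
  have hdev : devn S J (s ^ 2 + c) = cd - S * W := by
    unfold devn
    rw [sqrt_sc hc.2, hcd, hW]
    congr 2
    apply Finset.sum_congr rfl
    intro t ht
    rw [mem_Icc] at ht
    rw [(vq_nat (by omega : t ≤ s)).2]
  have hW0 : |W| ≤ J := by
    rw [hW]
    refine (abs_sum_le_sum_abs _ _).trans ?_
    calc ∑ t ∈ Icc 1 J, |1 / Real.log ((vq s c t : ℤ) : ℝ)| ≤ ∑ _t ∈ Icc 1 J, (1 : ℝ) := by
          apply Finset.sum_le_sum
          intro t ht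
          rw [mem_Icc] at ht
          have h1 := hlog t ht.1 (by omega)
          have h2 : 0 < Real.log ((vq s c t : ℤ) : ℝ) := by linarith
          rw [abs_of_pos (by positivity), div_le_one h2]
          linarith
      _ = J := by
          rw [Finset.sum_const, nsmul_eq_mul, Nat.card_Icc, Nat.add_sub_cancel, mul_one]
  rw [hDD, hdev, ← he0]
  rw [← hσ] at hS
  rw [← hrr] at hrest
  obtain ⟨G, hGG⟩ : ∃ G : ℝ, G = Gsq (PE z) N (s ^ 2 + c) := ⟨_, rfl⟩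
  rw [← hGG] at hG ⊢
  obtain ⟨D, hD⟩ : ∃ D : ℝ, D = S1 - σ * W := ⟨_, rfl⟩
  rw [← hD]
  have hSW : |(S - σ) * W| ≤ δ * J := by
    rw [abs_mul]
    exact mul_le_mul hS hW0 (abs_nonneg _) hδ0
  have hfin : |cd - S * W| ≤ |G| + |D| + (|e0| + R + δ * J) := by
    have e : cd - S * W = G + D - e0 - rr - (S - σ) * W := by
      rw [hG, hD]
      ring
    rw [e]
    have b1 := abs_sub (G + D - e0 - rr) ((S - σ) * W)
    have b2 := abs_sub (G + D - e0) rr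
    have b3 := abs_sub (G + D) e0
    have b4 := abs_add_le G D
    linarith
  have h9 := three_sq' _ hfin
  have h10 : |(|e0| + R + δ * J)| ≤ |e0| + R + δ * J := by
    rw [abs_of_nonneg (by positivity)]
  have h11 := three_sq' _ h10
  rw [sq_abs, sq_abs] at h9
  rw [sq_abs] at h11
  linarith

/-- the edge -/
theorem edge {u K J s c t : ℕ} {P : ℝ} (hP : 0 < P) (hs : s ∈ Ico u (u + K)) (hu : 1 ≤ u) (hKP : K * P ≤ u)
    (hJP : J * P ≤ u) (hJ : 1 ≤ J) (hKu : K ≤ u) (hts : t ≤ s)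
    (hv : vq s c t ≤ (2 * (u + K) * (J + 1) : ℕ)) : (t : ℝ) ≤ J + (1 + 34 * J / P) := by
  rw [mem_Ico] at hs
  have hu0 : (0 : ℝ) < u := by exact_mod_cast hu
  have hus : (u : ℝ) ≤ s := by exact_mod_cast hs.1
  have hJr : (1 : ℝ) ≤ J := by exact_mod_cast hJ
  have hKur : (K : ℝ) ≤ u := by exact_mod_cast hKu
  have ht0 : (0 : ℝ) ≤ t := Nat.cast_nonneg _
  have hK0 : (0 : ℝ) ≤ K := Nat.cast_nonneg _
  have hc0 : (0 : ℝ) ≤ c := Nat.cast_nonneg _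
  have hvr : ((vq s c t : ℤ) : ℝ) ≤ 2 * ((u : ℝ) + K) * (J + 1) := by exact_mod_cast hv
  have h1 : (u : ℝ) * t ≤ 2 * ((u : ℝ) + K) * (J + 1) := by
    calc (u : ℝ) * t ≤ s * t := by gcongr
      _ ≤ _ := vq_lowr hts
      _ ≤ _ := hvr
  have h2 : (t : ℝ) ≤ 8 * J := by
    have h3 : (u : ℝ) * t ≤ u * (8 * J) := by
      calc (u : ℝ) * t ≤ 2 * ((u : ℝ) + K) * (J + 1) := h1
        _ ≤ 2 * ((u : ℝ) + u) * (J + J) := by gcongr
        _ = u * (8 * J) := by ring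
    exact le_of_mul_le_mul_left h3 hu0
  have h3 : ((vq s c t : ℤ) : ℝ) = c + (2 * s * t - (t : ℝ) ^ 2) := by
    unfold vq
    push_cast
    ring
  have h4 : (t : ℝ) ^ 2 ≤ 64 * (J : ℝ) ^ 2 := by
    calc (t : ℝ) ^ 2 ≤ (8 * J) ^ 2 := pow_le_pow_left₀ ht0 h2 2
      _ = _ := by ring
  have h5 : (u : ℝ) * t ≤ s * t := by gcongr
  have h6 : (u : ℝ) * t ≤ (u + K) * (J + 1) + 32 * (J : ℝ) ^ 2 := by linarith
  have hKJ : (K : ℝ) ≤ u / P := by rw [le_div_iff₀ hP]; exact hKP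
  have hJJ : (J : ℝ) ≤ u / P := by rw [le_div_iff₀ hP]; exact hJP
  have h7 : (K : ℝ) * (J + 1) ≤ u / P * (2 * J) := by
    apply mul_le_mul hKJ (by linarith) (by positivity) (by positivity)
  have h8 : 32 * (J : ℝ) ^ 2 ≤ u / P * (32 * J) := by
    calc 32 * (J : ℝ) ^ 2 = J * (32 * J) := by ring
      _ ≤ u / P * (32 * J) := by gcongr
  have h9 : (u : ℝ) * t ≤ u * (J + (1 + 34 * J / P)) := by
    calc (u : ℝ) * t ≤ (u + K) * (J + 1) + 32 * (J : ℝ) ^ 2 := h6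
      _ = u * (J + 1) + (K * (J + 1) + 32 * (J : ℝ) ^ 2) := by ring
      _ ≤ u * (J + 1) + (u / P * (2 * J) + u / P * (32 * J)) := by linarith
      _ = u * (J + (1 + 34 * J / P)) := by
          field_simp
          ring
  exact le_of_mul_le_mul_left h9 hu0

/-- the sum over the integers in terms of the square roots -/
theorem sum_sc (g : ℕ → ℝ) {u K : ℕ} {T : Finset ℕ} (hT : T ⊆ Ico (u ^ 2) ((u + K) ^ 2)) (hsq : ∀ n ∈ T, ¬ IsSquare n) :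
    ∑ n ∈ T, g n = ∑ s ∈ Ico u (u + K), ∑ c ∈ (Icc 1 (2 * s)).filter (fun c => s ^ 2 + c ∈ T), g (s ^ 2 + c) := by
  have hm : ∀ n ∈ T, Nat.sqrt n ∈ Ico u (u + K) := by
    intro n hn
    have h1 := hT hn
    rw [mem_Ico] at h1 ⊢
    exact ⟨Nat.le_sqrt'.2 h1.1, Nat.sqrt_lt'.2 h1.2⟩
  rw [← Finset.sum_fiberwise_of_maps_to hm]
  apply Finset.sum_congr rfl
  intro s _
  refine Finset.sum_nbij' (fun n => n - s ^ 2) (fun c => s ^ 2 + c) ?_ ?_ ?_ ?_ ?_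
  · intro n hn
    rw [mem_filter] at hn
    obtain ⟨hn1, hn2⟩ := hn
    have h1 : s ^ 2 ≤ n := by rw [← hn2]; exact Nat.sqrt_le' n
    have h2 : n < (s + 1) ^ 2 := by rw [← hn2]; exact Nat.lt_succ_sqrt' n
    have h3 : (s + 1) ^ 2 = s ^ 2 + 2 * s + 1 := by ring
    have h4 : n ≠ s ^ 2 := by
      intro h
      exact hsq n hn1 ⟨s, by rw [h]; ring⟩
    rw [mem_filter, mem_Icc]
    have h5 : s ^ 2 + (n - s ^ 2) = n := by omega
    refine ⟨by omega, ?_⟩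
    rw [h5]
    exact hn1
  · intro c hc
    rw [mem_filter, mem_Icc] at hc
    rw [mem_filter]
    exact ⟨hc.2, sqrt_sc hc.1.2⟩
  · intro n hn
    rw [mem_filter] at hn
    have h1 : s ^ 2 ≤ n := by rw [← hn.2]; exact Nat.sqrt_le' n
    show s ^ 2 + (n - s ^ 2) = n
    omega
  · intro c _
    show s ^ 2 + c - s ^ 2 = c
    omega
  · intro n hn
    rw [mem_filter] at hn
    have h1 : s ^ 2 ≤ n := by rw [← hn.2]; exact Nat.sqrt_le' n
    have h5 : s ^ 2 + (n - s ^ 2) = n := by omega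
    rw [h5]

end Pool.Agent.K9h19.CR
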