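import Pool.Agent.K9h19.CR.QU3

/-!
# Prime plus square: the variance in a block
-/

set_option autoImplicit false

namespace Pool.Agent.K9h19.CR

open Finset Filter Topology
open Pool.Agent.Q236.CR
open Pool.Agent.H373R2.T7 (lamz Vz pz Vz_pos Vz_inv_small nuB mem_pz PerB)
open Pool.Agent.R460.SB (QS Sz Sz_bd fv)

/-- the final computation -/
theorem quad_arith {u K J ℓ Λ l4 N Y V R δ P q : ℝ} (A : ℕ) (hu : 0 < u) (hK : 0 < K) (hℓ : 300000 ≤ ℓ)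
    (hJℓ : ℓ ≤ J) (hΛ : ℓ ≤ Λ) (hl4 : ℓ ≤ l4) (hN0 : 0 ≤ N) (hN : N ≤ 8 * (u * J)) (hY0 : 0 ≤ Y) (hY : Y ≤ 9 * J)
    (hV : V ≤ ℓ) (hR0 : 0 ≤ R) (hR : R ≤ 1 + 34 * J / P) (hP : ℓ ^ (A + 1) ≤ P) (hδ0 : 0 ≤ δ)
    (hδ : δ = 12 / ℓ ^ (A + 1))
    (h : q ≤ 3 * (384300 * (N * K / Λ) + 549 * (N * K * Y / Λ ^ (A + 1))) +
      3 * (3 / ℓ ^ 2 * (64 * (u * K * J * V) + 144 * (u * K * J ^ 2 / l4 ^ (A + 1 + 3)))) +
      9 * (K * (26 * (4 * u / l4))) + 3 * (u * K) * (9 * R ^ 2 + 9 * (δ * J) ^ 2)) :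
    q ≤ 10000000 * (u * K * J / ℓ) + u * K * J ^ 2 / ℓ ^ A := by
  have hℓ0 : 0 < ℓ := by linarith
  have hℓ1 : 1 ≤ ℓ := by linarith
  have hJ0 : 0 < J := by linarith
  have hΛ0 : 0 < Λ := by linarith
  have hl0 : 0 < l4 := by linarith
  have hLA : 0 < ℓ ^ (A + 1) := by positivity
  have hP0 : 0 < P := by linarith
  obtain ⟨M, hM⟩ : ∃ M : ℝ, M = u * K * J / ℓ := ⟨_, rfl⟩
  obtain ⟨Q, hQ⟩ : ∃ Q : ℝ, Q = u * K * J ^ 2 / ℓ ^ (A + 1) := ⟨_, rfl⟩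
  have hM0 : 0 ≤ M := by rw [hM]; positivity
  have hQ0 : 0 ≤ Q := by rw [hQ]; positivity
  have t1 : N * K / Λ ≤ 8 * M := by
    calc N * K / Λ ≤ 8 * (u * J) * K / ℓ := by gcongr
      _ = 8 * M := by rw [hM]; ring
  have t2 : N * K * Y / Λ ^ (A + 1) ≤ 72 * Q := by
    calc N * K * Y / Λ ^ (A + 1) ≤ 8 * (u * J) * K * (9 * J) / ℓ ^ (A + 1) := by gcongr
      _ = 72 * Q := by rw [hQ]; ring
  have t3 : 3 / ℓ ^ 2 * (64 * (u * K * J * V)) ≤ 192 * M := by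
    calc 3 / ℓ ^ 2 * (64 * (u * K * J * V)) ≤ 3 / ℓ ^ 2 * (64 * (u * K * J * ℓ)) := by gcongr
      _ = 192 * M := by
          rw [hM]
          field_simp
          norm_num
  have hone : ∀ x : ℝ, 0 ≤ x → x / ℓ ≤ x := fun x hx => div_le_self hx hℓ1
  have t4 : 3 / ℓ ^ 2 * (144 * (u * K * J ^ 2 / l4 ^ (A + 1 + 3))) ≤ 432 * Q := by
    have h1 : u * K * J ^ 2 / l4 ^ (A + 1 + 3) ≤ Q := by
      rw [hQ]
      apply div_le_div_of_nonneg_left (by positivity) hLA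
      calc ℓ ^ (A + 1) ≤ ℓ ^ (A + 1 + 3) := pow_le_pow_right₀ hℓ1 (by omega)
        _ ≤ _ := pow_le_pow_left₀ hℓ0.le hl4 _
    have h2 : 3 / ℓ ^ 2 ≤ 3 := by
      apply div_le_self (by norm_num)
      exact one_le_pow₀ hℓ1
    calc 3 / ℓ ^ 2 * (144 * (u * K * J ^ 2 / l4 ^ (A + 1 + 3))) ≤ 3 * (144 * Q) := by gcongr
      _ = 432 * Q := by ring
  have t5 : K * (26 * (4 * u / l4)) ≤ 104 * M := by
    have h1 : (1 : ℝ) ≤ J := by linarith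
    calc K * (26 * (4 * u / l4)) ≤ K * (26 * (4 * u / ℓ)) := by gcongr
      _ = 104 * (u * K * 1 / ℓ) := by ring
      _ ≤ 104 * (u * K * J / ℓ) := by gcongr
      _ = 104 * M := by rw [hM]
  have huK : u * K ≤ M := by
    rw [hM, le_div_iff₀ hℓ0]
    gcongr
  have hJP : 34 * J / P ≤ 34 * J / ℓ ^ (A + 1) := by gcongr
  have t6 : u * K * R ^ 2 ≤ 2 * M + 2312 * Q := by
    have h1 : R ^ 2 ≤ 2 * 1 ^ 2 + 2 * (34 * J / ℓ ^ (A + 1)) ^ 2 := by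
      calc R ^ 2 ≤ (1 + 34 * J / ℓ ^ (A + 1)) ^ 2 := pow_le_pow_left₀ hR0 (by linarith) 2
        _ ≤ _ := two_sq
    have h2 : (34 * J / ℓ ^ (A + 1)) ^ 2 ≤ 1156 * (J ^ 2 / ℓ ^ (A + 1)) := by
      have h3 : (34 * J / ℓ ^ (A + 1)) ^ 2 = 1156 * (J ^ 2 / ℓ ^ (A + 1)) * (1 / ℓ ^ (A + 1)) := by
        field_simp
        norm_num
      rw [h3]
      apply mul_le_of_le_one_right (by positivity)
      rw [div_le_one hLA]
      exact one_le_pow₀ hℓ1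
    have h4 : R ^ 2 ≤ 2 + 2312 * (J ^ 2 / ℓ ^ (A + 1)) := by linarith
    calc u * K * R ^ 2 ≤ u * K * (2 + 2312 * (J ^ 2 / ℓ ^ (A + 1))) := by gcongr
      _ = 2 * (u * K) + 2312 * Q := by rw [hQ]; ring
      _ ≤ _ := by linarith
  have t7 : u * K * (δ * J) ^ 2 ≤ 144 * Q := by
    have h1 : (δ * J) ^ 2 ≤ 144 * (J ^ 2 / ℓ ^ (A + 1)) := by
      have h3 : (δ * J) ^ 2 = 144 * (J ^ 2 / ℓ ^ (A + 1)) * (1 / ℓ ^ (A + 1)) := by
        rw [hδ]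
        field_simp
        norm_num
      rw [h3]
      apply mul_le_of_le_one_right (by positivity)
      rw [div_le_one hLA]
      exact one_le_pow₀ hℓ1
    calc u * K * (δ * J) ^ 2 ≤ u * K * (144 * (J ^ 2 / ℓ ^ (A + 1))) := by gcongr
      _ = 144 * Q := by rw [hQ]; ring
  have h8 : u * K * J ^ 2 / ℓ ^ A = ℓ * Q := by
    rw [hQ, pow_succ ℓ A]
    field_simp
  have h9 : 300000 * Q ≤ ℓ * Q := mul_le_mul_of_nonneg_right hℓ hQ0
  rw [h8, ← hM]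
  have h10 : 3 * (3 / ℓ ^ 2 * (64 * (u * K * J * V) + 144 * (u * K * J ^ 2 / l4 ^ (A + 1 + 3)))) =
      3 * (3 / ℓ ^ 2 * (64 * (u * K * J * V))) + 3 * (3 / ℓ ^ 2 * (144 * (u * K * J ^ 2 / l4 ^ (A + 1 + 3)))) := by ring
  have h11 : 3 * (u * K) * (9 * R ^ 2 + 9 * (δ * J) ^ 2) = 27 * (u * K * R ^ 2) + 27 * (u * K * (δ * J) ^ 2) := by ring
  rw [h10, h11] at h
  linarith

/-- the variance in a block -/
theorem quad_sum (hcr : S_CHR) (hmo : S_MOC) (A : ℕ) : ∃ B₀ : ℕ, ∀ E : ℕ, ∃ D u₀ : ℕ, ∀ u : ℕ, u₀ ≤ u → ∀ z : ℕ,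
    Real.log u ^ B₀ ≤ z → (z : ℝ) ≤ Real.log u ^ E → ∀ K J : ℕ, Real.log u ≤ J → J * Real.log u ^ D ≤ u →
    K * Real.log u ^ D ≤ u → Real.log u ^ D ≤ K → J ≤ 3 * K →
    ((u : ℝ) * J) ^ (1 / 3 : ℝ) * Real.log u ^ D ≤ (J : ℝ) * K →
    ∀ (T : Finset ℕ) (S : ℕ → ℝ), T ⊆ Ico (u ^ 2) ((u + K) ^ 2) →
      (∀ n ∈ T, ¬ IsSquare n ∧ |S n - Szn n z| ≤ 12 / Real.log u ^ (A + 1)) →
      ∑ n ∈ T, (devn (S n) J n) ^ 2 ≤
        10000000 * (u * K * J / Real.log u) + u * K * (J : ℝ) ^ 2 / Real.log u ^ A := by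
  classical
  obtain ⟨B₀, hB₀⟩ := quad_part hcr hmo (A + 1)
  refine ⟨B₀ + 1, fun E => ?_⟩
  obtain ⟨D₀, N₁, h1⟩ := hB₀ E
  obtain ⟨X₁, h2⟩ := quad_weighted (A + 1) E
  obtain ⟨N₂, h3⟩ := PE_sq E
  obtain ⟨N₃, h4⟩ := Vz_inv_small E
  obtain ⟨N₄, h5⟩ := ev_natlog (P := fun l => 300000 + 3 ^ B₀ + 3 ^ D₀ + 2 ^ (A + 5) ≤ l)
    (eventually_ge_atTop (300000 + 3 ^ B₀ + 3 ^ D₀ + 2 ^ (A + 5)))
  refine ⟨D₀ + A + 8, N₁ + X₁ + N₂ + N₃ + N₄ + 3, fun u hu z hz1 hz2 K J hJ hJD hKD hDK hJK hJKu T S hT hS => ?_⟩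
  have g1 := h5 u (by omega)
  have hu0 : (0 : ℝ) < u := by exact_mod_cast (by omega : 0 < u)
  have hu1 : (1 : ℝ) ≤ u := by exact_mod_cast (by omega : 1 ≤ u)
  obtain ⟨ℓ, hℓ⟩ : ∃ ℓ : ℝ, ℓ = Real.log u := ⟨_, rfl⟩
  have hV : (Vz z)⁻¹ ≤ ℓ := by
    rw [hℓ]
    apply h4 u (by omega) z _ hz2
    rw [← hℓ] at hz1 g1
    have p2 : (0 : ℝ) < 3 ^ B₀ := by positivity
    have p3 : (0 : ℝ) < 3 ^ D₀ := by positivity
    have p4 : (0 : ℝ) < 2 ^ (A + 5) := by positivity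
    have h7 : 1 ≤ ℓ ^ (B₀ + 1) := one_le_pow₀ (by linarith)
    exact_mod_cast h7.trans hz1
  rw [← hℓ] at g1 hz1 hz2 hJ hJD hKD hDK hJKu hS ⊢
  have p2 : (0 : ℝ) < 3 ^ B₀ := by positivity
  have p3 : (0 : ℝ) < 3 ^ D₀ := by positivity
  have p4 : (0 : ℝ) < 2 ^ (A + 5) := by positivity
  have hL : 300000 ≤ ℓ := by linarith
  have hLB : (3 : ℝ) ^ B₀ ≤ ℓ := by linarith
  have hLD : (3 : ℝ) ^ D₀ ≤ ℓ := by linarith
  have hLA : (2 : ℝ) ^ (A + 5) ≤ ℓ := by linarith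
  have hℓ0 : 0 < ℓ := by linarith
  have hℓ1 : 1 ≤ ℓ := by linarith
  have hz0 : 1 ≤ z := by
    have h7 : 1 ≤ ℓ ^ (B₀ + 1) := one_le_pow₀ hℓ1
    exact_mod_cast h7.trans hz1
  have hPow : ∀ k : ℕ, k ≤ D₀ + A + 8 → ℓ ^ k ≤ ℓ ^ (D₀ + A + 8) := fun k hk => pow_le_pow_right₀ hℓ1 hk
  have hℓP : ℓ ≤ ℓ ^ (D₀ + A + 8) := le_self_pow₀ hℓ1 (by omega)
  have hP0 : 0 < ℓ ^ (D₀ + A + 8) := by positivity
  have hJ0 : (0 : ℝ) < J := by linarith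
  have hJ1 : 1 ≤ J := by exact_mod_cast hJ0
  have hJr : (1 : ℝ) ≤ J := by exact_mod_cast hJ1
  have hK0 : (0 : ℝ) < K := by linarith
  have hKn : 1 ≤ K := by exact_mod_cast hK0
  have hKu : (K : ℝ) ≤ u := by
    calc (K : ℝ) = K * 1 := (mul_one _).symm
      _ ≤ K * ℓ ^ (D₀ + A + 8) := by
          apply mul_le_mul_of_nonneg_left _ hK0.le
          linarith
      _ ≤ u := hKD
  have hKun : K ≤ u := by exact_mod_cast hKu
  have hJu19 : (J : ℝ) * 19 ≤ u := by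
    calc (J : ℝ) * 19 ≤ J * ℓ ^ (D₀ + A + 8) := by
          apply mul_le_mul_of_nonneg_left _ hJ0.le
          linarith
      _ ≤ u := hJD
  have hJu19n : J * 19 ≤ u := by exact_mod_cast hJu19
  have hJun : J ≤ u := by omega
  -- N
  obtain ⟨N, hN⟩ : ∃ N : ℕ, N = 2 * (u + K) * (J + 1) := ⟨_, rfl⟩
  have hNr : (N : ℝ) = 2 * ((u : ℝ) + K) * (J + 1) := by rw [hN]; push_cast; ring
  have hN8 : (N : ℝ) ≤ 8 * (u * J) := by
    rw [hNr]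
    calc 2 * ((u : ℝ) + K) * (J + 1) ≤ 2 * ((u : ℝ) + u) * (J + J) := by gcongr
      _ = 8 * (u * J) := by ring
  have huN : (u : ℝ) ≤ N := by
    rw [hNr]
    have h6 : (u : ℝ) * 1 ≤ (u + K) * (J + 1) := mul_le_mul (by linarith) (by linarith) (by norm_num) (by positivity)
    linarith
  have huNn : u ≤ N := by exact_mod_cast huN
  have hN0 : (0 : ℝ) < N := by linarith
  obtain ⟨Λ, hΛ⟩ : ∃ Λ : ℝ, Λ = Real.log N := ⟨_, rfl⟩
  have hℓΛ : ℓ ≤ Λ := by rw [hℓ, hΛ]; exact Real.log_le_log hu0 huN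
  have hΛ0 : 0 < Λ := by linarith
  have h8u : 8 ≤ u := by omega
  have hΛ3 : Λ ≤ 3 * ℓ := by
    have e : (3 : ℝ) * Real.log u = Real.log ((u : ℝ) ^ 3) := by
      rw [Real.log_pow]
      norm_num
    rw [hℓ, hΛ, e]
    apply Real.log_le_log hN0
    have h8r : (8 : ℝ) ≤ u := by exact_mod_cast h8u
    have hJur : (J : ℝ) ≤ u := by exact_mod_cast hJun
    calc (N : ℝ) ≤ 8 * (u * J) := hN8
      _ ≤ u * (u * u) := by gcongr
      _ = (u : ℝ) ^ 3 := by ring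
  have hΛB : Λ ^ B₀ ≤ z := by
    calc Λ ^ B₀ ≤ (3 * ℓ) ^ B₀ := pow_le_pow_left₀ hΛ0.le hΛ3 _
      _ = 3 ^ B₀ * ℓ ^ B₀ := mul_pow _ _ _
      _ ≤ ℓ * ℓ ^ B₀ := by gcongr
      _ = ℓ ^ (B₀ + 1) := by ring
      _ ≤ z := hz1
  have hΛD : Λ ^ D₀ ≤ ℓ ^ (D₀ + 1) := by
    calc Λ ^ D₀ ≤ (3 * ℓ) ^ D₀ := pow_le_pow_left₀ hΛ0.le hΛ3 _
      _ = 3 ^ D₀ * ℓ ^ D₀ := mul_pow _ _ _
      _ ≤ ℓ * ℓ ^ D₀ := by gcongr
      _ = ℓ ^ (D₀ + 1) := by ring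
  -- Y
  obtain ⟨Y, hY⟩ : ∃ Y : ℕ, Y = N / u + 1 := ⟨_, rfl⟩
  have hu0n : 0 < u := by omega
  have hYu : N < Y * u := by
    rw [hY, mul_comm]
    exact Nat.lt_mul_div_succ N hu0n
  have hYu2 : Y * u ≤ 2 * N := by
    rw [hY, add_mul, one_mul]
    have := Nat.div_mul_le_self N u
    omega
  have hYJ : Y ≤ 9 * J := by
    have h6 : N / u ≤ 4 * (J + 1) := by
      apply Nat.div_le_of_le_mul
      rw [hN]
      calc 2 * (u + K) * (J + 1) ≤ 2 * (u + u) * (J + 1) := by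
            apply Nat.mul_le_mul_right
            omega
        _ = u * (4 * (J + 1)) := by ring
    omega
  have hY2J : 2 * (J : ℝ) ≤ Y := by
    have h6 : (N : ℝ) < Y * u := by exact_mod_cast hYu
    have h7 : (u : ℝ) * (2 * J) ≤ u * Y := by
      calc (u : ℝ) * (2 * J) ≤ 2 * ((u : ℝ) + K) * (J + 1) := by
            have a1 : (0 : ℝ) ≤ K * (J + 1) := by positivity
            have e : 2 * ((u : ℝ) + K) * (J + 1) = u * (2 * J) + 2 * u + 2 * (K * (J + 1)) := by ring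
            rw [e]
            linarith
        _ = N := hNr.symm
        _ ≤ Y * u := h6.le
        _ = u * Y := by ring
    exact le_of_mul_le_mul_left h7 hu0
  have hY1 : 1 ≤ Y := by
    rw [hY]
    exact Nat.le_add_left _ _
  have hYr : (Y : ℝ) ≤ 9 * J := by exact_mod_cast hYJ
  -- the three bounds
  have k1 := h1 N (by omega) z (by rw [← hΛ]; exact hΛB) (by
    rw [← hΛ]
    exact hz2.trans (pow_le_pow_left₀ hℓ0.le hℓΛ _)) u K Y hYu hYu2 (by omega) hY1 (by omega) hKun (by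
    rw [← hΛ]
    exact hΛD.trans ((hPow _ (by omega)).trans hDK)) (by
    rw [← hΛ]
    have h6 : (N : ℝ) ^ (1 / 3 : ℝ) ≤ 2 * ((u : ℝ) * J) ^ (1 / 3 : ℝ) := by
      calc (N : ℝ) ^ (1 / 3 : ℝ) ≤ (8 * (u * J)) ^ (1 / 3 : ℝ) := Real.rpow_le_rpow hN0.le hN8 (by norm_num)
        _ = (8 : ℝ) ^ (1 / 3 : ℝ) * ((u : ℝ) * J) ^ (1 / 3 : ℝ) := Real.mul_rpow (by norm_num) (by positivity)
        _ = 2 * ((u : ℝ) * J) ^ (1 / 3 : ℝ) := by
            congr 1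
            rw [show (8 : ℝ) = 2 ^ (3 : ℝ) by norm_num, ← Real.rpow_mul (by norm_num)]
            norm_num
    calc (N : ℝ) ^ (1 / 3 : ℝ) * Λ ^ D₀ ≤ 2 * ((u : ℝ) * J) ^ (1 / 3 : ℝ) * ℓ ^ (D₀ + A + 8) :=
          mul_le_mul h6 (hΛD.trans (hPow _ (by omega))) (by positivity) (by positivity)
      _ = 2 * (((u : ℝ) * J) ^ (1 / 3 : ℝ) * ℓ ^ (D₀ + A + 8)) := by ring
      _ ≤ 2 * (J * K) := by linarith
      _ = 2 * J * K := by ring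
      _ ≤ Y * K := by gcongr)
  rw [← hΛ] at k1
  obtain ⟨l4, hl4⟩ : ∃ l4 : ℝ, l4 = Real.log ((4 * u : ℕ) : ℝ) := ⟨_, rfl⟩
  have hℓl4 : ℓ ≤ l4 := by
    rw [hℓ, hl4]
    exact Real.log_le_log hu0 (by push_cast; linarith)
  have hl42 : l4 ≤ 2 * ℓ := by
    have e : (2 : ℝ) * Real.log u = Real.log ((u : ℝ) ^ 2) := by
      rw [Real.log_pow]
      norm_num
    rw [hℓ, hl4, e]
    apply Real.log_le_log (by push_cast; linarith)
    push_cast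
    have h4r : (4 : ℝ) ≤ u := by exact_mod_cast (by omega : 4 ≤ u)
    calc (4 : ℝ) * u ≤ u * u := by gcongr
      _ = (u : ℝ) ^ 2 := by ring
  have hl40 : 0 < l4 := by linarith
  have k2 := h2 u (by omega) z hz0 (by
    rw [← hl4]
    exact hz2.trans (pow_le_pow_left₀ hℓ0.le hℓl4 _)) (by rw [← hl4]; exact hV.trans hℓl4) K J hJ1 hJun hKun (by
    rw [← hl4]
    calc l4 ^ (A + 1 + 4) ≤ (2 * ℓ) ^ (A + 1 + 4) := pow_le_pow_left₀ hl40.le hl42 _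
      _ = 2 ^ (A + 5) * ℓ ^ (A + 5) := by rw [mul_pow]
      _ ≤ ℓ * ℓ ^ (A + 5) := by gcongr
      _ = ℓ ^ (A + 6) := by ring
      _ ≤ K := (hPow _ (by omega)).trans hDK)
  rw [← hℓ, ← hl4] at k2
  have k3 := h3 (4 * u) (by omega) z hz0 (by
    rw [← hl4]
    exact hz2.trans (pow_le_pow_left₀ hℓ0.le hℓl4 _))
  rw [← hl4] at k3
  -- the parameters of the pointwise inequality
  obtain ⟨R, hR⟩ : ∃ R : ℝ, R = 1 + 34 * J / ℓ ^ (D₀ + A + 8) := ⟨_, rfl⟩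
  have hR0 : 0 ≤ R := by rw [hR]; positivity
  obtain ⟨δ, hδ⟩ : ∃ δ : ℝ, δ = 12 / ℓ ^ (A + 1) := ⟨_, rfl⟩
  have hδ0 : 0 ≤ δ := by rw [hδ]; positivity
  obtain ⟨W, hW⟩ : ∃ W : ℕ → ℕ → ℝ, W = fun (s c : ℕ) =>
    ∑ t ∈ Icc 1 J, (sgz z (vq s c t) - Szn (s ^ 2 + c) z) * (1 / Real.log ((vq s c t : ℤ) : ℝ)) := ⟨_, rfl⟩
  have hpt : ∀ s ∈ Ico u (u + K), ∀ c ∈ (Icc 1 (2 * s)).filter (fun c => s ^ 2 + c ∈ T),
      (devn (S (s ^ 2 + c)) J (s ^ 2 + c)) ^ 2 ≤ 3 * (Gsq (PE z) N (s ^ 2 + c)) ^ 2 + 3 * (W s c) ^ 2 +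
        9 * (ext0 (PE z) N (c : ℤ)) ^ 2 + (9 * R ^ 2 + 9 * (δ * J) ^ 2) := by
    intro s hs c hc
    rw [mem_filter] at hc
    have h6 := quad_pt (z := z) (S := S (s ^ 2 + c)) (δ := δ) (R := R) hs hc.1 hJun (by omega) (by rw [← hℓ]; exact hV) hN.ge hR0
      (fun t ht1 ht2 hv => by
        rw [hR]
        rw [hN] at hv
        exact edge hP0 hs (by omega) hKD hJD hJ1 hKun ht2 hv) (by
        rw [hδ]
        exact (hS _ hc.2).2)
    rw [hW]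
    refine h6.trans (le_of_eq ?_)
    ring
  -- the number of the integers
  have hcard : (T.card : ℝ) ≤ 3 * (u * K) := by
    have h6 := card_le_card hT
    rw [Nat.card_Ico] at h6
    have h7 : (u + K) ^ 2 - u ^ 2 ≤ 3 * (u * K) := by
      have e : (u + K) ^ 2 = u ^ 2 + (2 * (u * K) + K * K) := by ring
      have h8 : K * K ≤ u * K := Nat.mul_le_mul_right _ hKun
      omega
    exact_mod_cast h6.trans h7
  have hmain : ∑ n ∈ T, (devn (S n) J n) ^ 2 ≤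
      3 * (384300 * (N * K / Λ) + 549 * (N * K * Y / Λ ^ (A + 1))) +
      3 * (3 / ℓ ^ 2 * (64 * (u * K * J * (Vz z)⁻¹) + 144 * (u * K * (J : ℝ) ^ 2 / l4 ^ (A + 1 + 3)))) +
      9 * (K * (26 * (4 * u / l4))) + 3 * (u * K) * (9 * R ^ 2 + 9 * (δ * J) ^ 2) := by
    have hsq : ∀ n ∈ T, ¬ IsSquare n := fun n hn => (hS n hn).1
    have c0 : 0 ≤ 9 * R ^ 2 + 9 * (δ * J) ^ 2 := by positivity
    calc ∑ n ∈ T, (devn (S n) J n) ^ 2 =
        ∑ s ∈ Ico u (u + K), ∑ c ∈ (Icc 1 (2 * s)).filter (fun c => s ^ 2 + c ∈ T),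
          (devn (S (s ^ 2 + c)) J (s ^ 2 + c)) ^ 2 := sum_sc (fun n => (devn (S n) J n) ^ 2) hT hsq
      _ ≤ ∑ s ∈ Ico u (u + K), ∑ c ∈ (Icc 1 (2 * s)).filter (fun c => s ^ 2 + c ∈ T),
          (3 * (Gsq (PE z) N (s ^ 2 + c)) ^ 2 + 3 * (W s c) ^ 2 +
            9 * (ext0 (PE z) N (c : ℤ)) ^ 2 + (9 * R ^ 2 + 9 * (δ * J) ^ 2)) :=
          Finset.sum_le_sum fun s hs => Finset.sum_le_sum fun c hc => hpt s hs c hc
      _ = 3 * (∑ s ∈ Ico u (u + K), ∑ c ∈ (Icc 1 (2 * s)).filter (fun c => s ^ 2 + c ∈ T), (Gsq (PE z) N (s ^ 2 + c)) ^ 2) +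
          3 * (∑ s ∈ Ico u (u + K), ∑ c ∈ (Icc 1 (2 * s)).filter (fun c => s ^ 2 + c ∈ T), (W s c) ^ 2) +
          9 * (∑ s ∈ Ico u (u + K), ∑ c ∈ (Icc 1 (2 * s)).filter (fun c => s ^ 2 + c ∈ T), (ext0 (PE z) N (c : ℤ)) ^ 2) +
          ∑ s ∈ Ico u (u + K), ∑ _c ∈ (Icc 1 (2 * s)).filter (fun c => s ^ 2 + c ∈ T), (9 * R ^ 2 + 9 * (δ * J) ^ 2) := by
          simp_rw [Finset.sum_add_distrib, ← Finset.mul_sum]
      _ ≤ _ := by
          have b1 : ∑ s ∈ Ico u (u + K), ∑ c ∈ (Icc 1 (2 * s)).filter (fun c => s ^ 2 + c ∈ T),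
              (Gsq (PE z) N (s ^ 2 + c)) ^ 2 ≤ 384300 * (N * K / Λ) + 549 * (N * K * Y / Λ ^ (A + 1)) := by
            rw [← sum_sc (fun n => (Gsq (PE z) N n) ^ 2) hT hsq]
            refine le_trans ?_ k1
            exact Finset.sum_le_sum_of_subset_of_nonneg hT fun _ _ _ => by positivity
          have b2 : ∑ s ∈ Ico u (u + K), ∑ c ∈ (Icc 1 (2 * s)).filter (fun c => s ^ 2 + c ∈ T), (W s c) ^ 2 ≤
              3 / ℓ ^ 2 * (64 * (u * K * J * (Vz z)⁻¹) + 144 * (u * K * (J : ℝ) ^ 2 / l4 ^ (A + 1 + 3))) := by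
            refine le_trans ?_ k2
            apply Finset.sum_le_sum
            intro s _
            rw [hW]
            exact Finset.sum_le_sum_of_subset_of_nonneg (filter_subset _ _) fun _ _ _ => by positivity
          have b3 : ∑ s ∈ Ico u (u + K), ∑ c ∈ (Icc 1 (2 * s)).filter (fun c => s ^ 2 + c ∈ T), (ext0 (PE z) N (c : ℤ)) ^ 2 ≤
              K * (26 * (4 * u / l4)) := by
            have b4 : ∀ s ∈ Ico u (u + K), ∑ c ∈ (Icc 1 (2 * s)).filter (fun c => s ^ 2 + c ∈ T), (ext0 (PE z) N (c : ℤ)) ^ 2 ≤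
                26 * (4 * u / l4) := by
              intro s hs
              rw [mem_Ico] at hs
              calc ∑ c ∈ (Icc 1 (2 * s)).filter (fun c => s ^ 2 + c ∈ T), (ext0 (PE z) N (c : ℤ)) ^ 2 ≤
                  ∑ c ∈ (Icc 1 (2 * s)).filter (fun c => s ^ 2 + c ∈ T), (PE z c) ^ 2 := by
                    apply Finset.sum_le_sum
                    intro c _
                    unfold ext0
                    split_ifs
                    · rw [Int.toNat_natCast]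
                    · rw [zero_pow (by norm_num)]
                      positivity
                _ ≤ ∑ c ∈ Icc 1 (4 * u), (PE z c) ^ 2 := by
                    apply Finset.sum_le_sum_of_subset_of_nonneg
                    · intro c hc
                      rw [mem_filter, mem_Icc] at hc
                      rw [mem_Icc]
                      omega
                    · intro _ _ _
                      positivity
                _ ≤ 26 * (((4 * u : ℕ) : ℝ) / l4) := k3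
                _ = 26 * (4 * u / l4) := by push_cast; ring
            calc _ ≤ ∑ _s ∈ Ico u (u + K), 26 * (4 * (u : ℝ) / l4) := Finset.sum_le_sum b4
              _ = K * (26 * (4 * u / l4)) := by
                  rw [Finset.sum_const, nsmul_eq_mul, Nat.card_Ico, Nat.add_sub_cancel_left]
          have b5 : ∑ s ∈ Ico u (u + K), ∑ _c ∈ (Icc 1 (2 * s)).filter (fun c => s ^ 2 + c ∈ T),
              (9 * R ^ 2 + 9 * (δ * J) ^ 2) ≤ 3 * (u * K) * (9 * R ^ 2 + 9 * (δ * J) ^ 2) := by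
            rw [← sum_sc (fun _ => 9 * R ^ 2 + 9 * (δ * J) ^ 2) hT hsq, Finset.sum_const, nsmul_eq_mul]
            exact mul_le_mul_of_nonneg_right hcard c0
          linarith
  exact quad_arith (P := ℓ ^ (D₀ + A + 8)) A hu0 hK0 hL hJ hℓΛ hℓl4 hN0.le hN8 (Nat.cast_nonneg _) hYr hV hR0 hR.le
    (hPow _ (by omega)) hδ0 hδ hmain

end Pool.Agent.K9h19.CR
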