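import Pool.Agent.K9h19.CR.VR5

/-!
# Almost all the pairs
-/

set_option autoImplicit false

namespace Pool.Agent.K9h19.CR

open Finset Filter Topology
open Pool.Agent.Q236.CR
open Pool.Agent.H373R2.T7 (lamz Vz pz Vz_pos Vz_inv_small nuB mem_pz)
open Pool.Agent.R460.SB (QS Sz Sz_bd Sz_low loc_lt fv fv_two)
open Pool.Agent.R460.SC (Sz_split PJ_ge)
open Pool.Agent.W468.ConjF (SJ PJ)
open Pool.Agent.Y868.TB (low_count_lin)

/-- the lower bound for most of the constants -/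
noncomputable def kap (a : ℤ) (z₀ : ℕ) : ℝ :=
  (1 / ((-a).natAbs : ℝ)) ^ (-a).natAbs * Vz z₀ ^ 2 * Real.exp (-3)

theorem kap_pos {a : ℤ} (ha : 0 < a) (z₀ : ℕ) : 0 < kap a z₀ := by
  unfold kap
  have h1 : (0 : ℝ) < ((-a).natAbs : ℝ) := by
    have : 0 < (-a).natAbs := Int.natAbs_pos.2 (by omega)
    exact_mod_cast this
  have h2 := Vz_pos z₀
  have h3 := Real.exp_pos (-3)
  positivity

/-- the constants are rarely small -/
theorem low_S {a : ℤ} (ha : 0 < a) (E z₀ : ℕ) (hz0 : 2 ≤ z₀) (haz : 4 * a ≤ z₀) :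
    ∃ X₀ : ℕ, ∀ X : ℕ, X₀ ≤ X → ∀ z : ℕ, z₀ ≤ z → (z : ℝ) ≤ Real.log X ^ E → ∀ b : ℤ,
      ∃ Bd : Finset ℕ, (Bd.card : ℝ) ≤ 12 * (X / z₀) ∧ ∀ c ∈ Ioc 0 (0 + X), c ∉ Bd →
        (∀ p : ℕ, p.Prime → ∃ m : ℕ, ¬ (p : ℤ) ∣ fv (-a) (-b) (c : ℤ) m) →
        kap a z₀ ≤ Sz (-a) (-b) (c : ℤ) z := by
  classical
  obtain ⟨X₁, hX₁⟩ := ev_natlog (P := fun l => 1 ≤ l ∧ ((z₀ : ℝ) + 2) * l ^ (2 * E) ≤ Real.exp (1 * l)) (by
    filter_upwards [eventually_ge_atTop 1, ev_exp 1 ((z₀ : ℝ) + 2) (2 * E) (by norm_num)] with l h1 h2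
    exact ⟨h1, h2⟩)
  refine ⟨X₁ + 3, fun X hX z hz hzE b => ?_⟩
  obtain ⟨g1, g2⟩ := hX₁ X (by omega)
  have hX0 : (0 : ℝ) < X := by exact_mod_cast (by omega : 0 < X)
  rw [one_mul, Real.exp_log hX0] at g2
  obtain ⟨L, hL⟩ : ∃ L : ℝ, L = Real.log X := ⟨_, rfl⟩
  rw [← hL] at g1 g2 hzE
  have hz00 : (0 : ℝ) < z₀ := by exact_mod_cast (by omega : 0 < z₀)
  obtain ⟨P, hP⟩ : ∃ P : Finset ℕ, P = (Ioc z₀ z).filter Nat.Prime := ⟨_, rfl⟩
  have hPp : ∀ p ∈ P, p.Prime ∧ p ≠ 2 ∧ z₀ < p ∧ p ≤ z ∧ ¬ (p : ℤ) ∣ -(4 * a) := by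
    intro p hp
    rw [hP, mem_filter, mem_Ioc] at hp
    refine ⟨hp.2, by omega, hp.1.1, hp.1.2, ?_⟩
    intro h
    rw [dvd_neg] at h
    have := Int.le_of_dvd (by omega) h
    omega
  have hlc := low_count_lin (b ^ 2) (-(4 * a)) P z₀ z (X + 1) (by omega) hPp (1 / 2) (by norm_num)
  refine ⟨(range (X + 1)).filter (fun c : ℕ => 1 / 2 < |∑ p ∈ P, (jacobiSym (b ^ 2 + -(4 * a) * (c : ℤ)) p : ℝ) / p|),
    hlc.trans ?_, ?_⟩
  · have h1 : (z : ℝ) ^ 2 ≤ L ^ (2 * E) := by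
      calc (z : ℝ) ^ 2 ≤ (L ^ E) ^ 2 := pow_le_pow_left₀ (Nat.cast_nonneg _) hzE 2
        _ = L ^ (2 * E) := by rw [← pow_mul, mul_comm]
    have h2 : 1 ≤ L ^ (2 * E) := one_le_pow₀ g1
    have h3 : 2 + (z₀ : ℝ) * (z : ℝ) ^ 2 ≤ X := by
      calc 2 + (z₀ : ℝ) * (z : ℝ) ^ 2 ≤ 2 * L ^ (2 * E) + z₀ * L ^ (2 * E) := by
            apply add_le_add
            · linarith
            · gcongr
        _ = ((z₀ : ℝ) + 2) * L ^ (2 * E) := by ring
        _ ≤ X := g2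
    push_cast
    have e : (2 * (((X : ℝ) + 1) / z₀) + (z : ℝ) ^ 2) / (1 / 2) ^ 2 =
        (8 * X + 4 * (2 + z₀ * (z : ℝ) ^ 2)) / z₀ := by
      field_simp
      ring
    have e2 : 12 * ((X : ℝ) / z₀) = (8 * X + 4 * X) / z₀ := by ring
    rw [e, e2]
    gcongr
  · intro c hc hcB hloc
    rw [mem_Ioc] at hc
    rw [mem_filter, not_and] at hcB
    have h1 := hcB (by rw [mem_range]; omega)
    push Not at h1
    have h2 : |SJ (b ^ 2 - 4 * a * (c : ℤ)) z₀ z| ≤ 1 / 2 := by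
      unfold SJ
      rw [← hP]
      have e : b ^ 2 - 4 * a * (c : ℤ) = b ^ 2 + -(4 * a) * (c : ℤ) := by ring
      rw [e]
      exact h1
    have h3 := PJ_ge (b ^ 2 - 4 * a * (c : ℤ)) z₀ z hz0 hz
    have h4 : Real.exp (-3) ≤ PJ (b ^ 2 - 4 * a * (c : ℤ)) z₀ z := by
      refine le_trans (Real.exp_le_exp.2 ?_) h3
      have h5 : 5 / (z₀ : ℝ) ≤ 5 / 2 := by
        apply div_le_div_of_nonneg_left (by norm_num) (by norm_num)
        exact_mod_cast hz0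
      linarith
    have h5 := Sz_low (α := -a) (γ := -b) (by omega) (c : ℤ) z₀
      (fun p hp => loc_lt (mem_pz.1 hp).2 (hloc p (mem_pz.1 hp).2))
    rw [Sz_split ha hz0 (by omega) hz]
    unfold kap
    have h6 := (Sz_bd (-a) (-b) (c : ℤ) z₀).1
    exact mul_le_mul h5 h4 (Real.exp_pos _).le h6

/-- if the deviation is small, then there is a prime -/
theorem dev_prime {a : ℤ} {S : ℝ} {u y b c : ℕ} {L δ : ℝ} (hy : 1 ≤ y) (hL : 0 < L) (hδ : 0 < δ) (hS : δ ≤ S)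
    (hlog : ∀ t ∈ Ioc u (u + y), 0 < Real.log ((fv (-a) (-(b : ℤ)) (c : ℤ) t : ℤ) : ℝ) ∧
      Real.log ((fv (-a) (-(b : ℤ)) (c : ℤ) t : ℤ) : ℝ) ≤ 2 * L)
    (h : |dev a S u y b c| ≤ δ / 3 * (y / L)) :
    ∃ t ∈ Ioc u (u + y), (fv (-a) (-(b : ℤ)) (c : ℤ) t).toNat.Prime := by
  by_contra hno
  push Not at hno
  have hy0 : (0 : ℝ) < y := by exact_mod_cast hy
  have e0 : ((Ioc u (u + y)).filter (fun t : ℕ => (fv (-a) (-(b : ℤ)) (c : ℤ) t).toNat.Prime)).card = 0 := by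
    rw [Finset.card_eq_zero, Finset.filter_eq_empty_iff]
    exact fun t ht => hno t ht
  unfold dev at h
  rw [e0, Nat.cast_zero, zero_sub, abs_neg] at h
  have h1 : (y : ℝ) / (2 * L) ≤ ∑ t ∈ Ioc u (u + y), 1 / Real.log ((fv (-a) (-(b : ℤ)) (c : ℤ) t : ℤ) : ℝ) := by
    have e1 : (y : ℝ) / (2 * L) = ∑ _t ∈ Ioc u (u + y), 1 / (2 * L) := by
      rw [Finset.sum_const, Nat.card_Ioc, nsmul_eq_mul, Nat.add_sub_cancel_left]
      ring
    rw [e1]
    apply Finset.sum_le_sum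
    intro t ht
    exact one_div_le_one_div_of_le (hlog t ht).1 (hlog t ht).2
  have h2 := (le_abs_self _).trans h
  have h3 : δ * (y / (2 * L)) ≤ δ / 3 * (y / L) :=
    (mul_le_mul hS h1 (by positivity) (hδ.le.trans hS)).trans h2
  have h4 : δ * (y / (2 * L)) = δ / 2 * (y / L) := by
    field_simp
  have h5 : 0 < δ * (y / L) := by positivity
  rw [h4] at h3
  linarith

/-- the inequality of Chebyshev -/
theorem cheb {ι : Type*} (s : Finset ι) (f : ι → ℝ) {η M : ℝ} (hη : 0 < η) (hM : ∑ x ∈ s, f x ^ 2 ≤ M) :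
    ((s.filter (fun x => η < |f x|)).card : ℝ) ≤ M / η ^ 2 := by
  classical
  rw [le_div_iff₀ (by positivity)]
  refine le_trans ?_ hM
  calc ((s.filter (fun x => η < |f x|)).card : ℝ) * η ^ 2 = ∑ x ∈ s.filter (fun x => η < |f x|), η ^ 2 := by
        rw [Finset.sum_const, nsmul_eq_mul]
    _ ≤ ∑ x ∈ s.filter (fun x => η < |f x|), f x ^ 2 := by
        apply Finset.sum_le_sum
        intro x hx
        rw [mem_filter] at hx
        rw [← sq_abs (f x)]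
        exact pow_le_pow_left₀ hη.le hx.2.le 2
    _ ≤ ∑ x ∈ s, f x ^ 2 := by
        apply Finset.sum_le_sum_of_subset_of_nonneg (filter_subset _ _)
        intro _ _ _
        positivity

theorem fin_almost (hcr : S_CHR) (hmo : S_MOC) {a : ℤ} (ha : 0 < a) {H : ℕ} (hH : 1 ≤ H) :
    ∃ D : ℕ, ∀ ε : ℝ, 0 < ε → ∃ h : ℝ, 0 < h ∧ ∃ X₀ : ℕ, ∀ X : ℕ, X₀ ≤ X → ∀ B K : ℕ,
      Real.log X ^ D ≤ K → ((B : ℝ) + K) ^ 2 ≤ H * X → ∀ u y : ℕ, h * Real.log X ≤ y →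
      ((u : ℝ) + y) ^ 2 ≤ H * X → (X : ℝ) ^ (1 / 3 : ℝ) * Real.log X ^ D ≤ (y : ℝ) * K →
      ∃ Bad : Finset (ℕ × ℕ), (Bad.card : ℝ) ≤ ε * (X * K) ∧ ∀ b ∈ Ioc B (B + K), ∀ c ∈ Ioc 0 (0 + X),
        (b, c) ∉ Bad → ∃ S : ℝ, Tendsto (fun z : ℕ => Sz (-a) (-(b : ℤ)) (c : ℤ) z) atTop (𝓝 S) ∧
          |dev a S u y b c| ≤ ε * (y / Real.log X) ∧
          ((∀ p : ℕ, p.Prime → ∃ m : ℕ, ¬ (p : ℤ) ∣ fv (-a) (-(b : ℤ)) (c : ℤ) m) →
            ∃ t ∈ Ioc u (u + y), (fv (-a) (-(b : ℤ)) (c : ℤ) t).toNat.Prime) := by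
  classical
  obtain ⟨D, E, X₁, h1⟩ := fin_var hcr hmo ha hH 3
  obtain ⟨g, hg⟩ : ∃ g : ℝ, g = 12700 * (((a : ℝ) + 1) * H + 1) := ⟨_, rfl⟩
  have ha0 : (0 : ℝ) < a := by exact_mod_cast ha
  have hHr : (1 : ℝ) ≤ H := by exact_mod_cast hH
  have hg0 : 0 < g := by rw [hg]; positivity
  refine ⟨D, fun ε hε => ?_⟩
  obtain ⟨α, hα⟩ : ∃ α : ℕ, (α : ℤ) = a := ⟨a.toNat, Int.toNat_of_nonneg ha.le⟩
  obtain ⟨z₀, hz₀⟩ : ∃ z₀ : ℕ, z₀ = ⌈36 / ε⌉₊ + 4 * α + 2 := ⟨_, rfl⟩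
  have hz0 : 2 ≤ z₀ := by omega
  have haz : 4 * a ≤ z₀ := by
    rw [hz₀, ← hα]
    push_cast
    omega
  have hz0ε : 12 / (z₀ : ℝ) ≤ ε / 3 := by
    have h2 : 36 / ε ≤ z₀ := by
      refine (Nat.le_ceil _).trans ?_
      exact_mod_cast (by omega : ⌈36 / ε⌉₊ ≤ z₀)
    have h3 : (0 : ℝ) < z₀ := by exact_mod_cast (by omega : 0 < z₀)
    rw [div_le_iff₀ hε] at h2
    rw [div_le_div_iff₀ h3 (by norm_num)]
    linarith
  obtain ⟨δ, hδ⟩ : ∃ δ : ℝ, δ = kap a z₀ / 2 := ⟨_, rfl⟩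
  have hδ0 : 0 < δ := by
    rw [hδ]
    have := kap_pos ha z₀
    positivity
  obtain ⟨η, hη⟩ : ∃ η : ℝ, η = min ε (δ / 3) := ⟨_, rfl⟩
  have hη0 : 0 < η := by
    rw [hη]
    exact lt_min hε (by positivity)
  have hηε : η ≤ ε := by rw [hη]; exact min_le_left _ _
  have hηδ : η ≤ δ / 3 := by rw [hη]; exact min_le_right _ _
  obtain ⟨X₂, h2⟩ := low_S ha E z₀ hz0 haz
  obtain ⟨X₃, hX₃⟩ := ev_natlog (P := fun l => 100 + 3 / ε + 6 / (η ^ 2 * ε) + z₀ + g ≤ l ∧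
      1 * l ^ 1 ≤ Real.exp (1 * l)) (by
    filter_upwards [eventually_ge_atTop (100 + 3 / ε + 6 / (η ^ 2 * ε) + z₀ + g), ev_exp 1 1 1 (by norm_num)] with l h1 h2
    exact ⟨h1, h2⟩)
  obtain ⟨h, hh⟩ : ∃ h : ℝ, h = 6 * g / (η ^ 2 * ε) + 1 := ⟨_, rfl⟩
  refine ⟨h, by rw [hh]; positivity, X₁ + X₂ + X₃ + 3, fun X hX B K hK hBK u y hy hy1 hyK => ?_⟩
  obtain ⟨g1, g2⟩ := hX₃ X (by omega)
  obtain ⟨Ex, hE1, S, hS, ⟨z, hzL, hzE, hSz⟩, hvar⟩ := h1 X (by omega) B K hK hBK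
  have hX0 : (0 : ℝ) < X := by exact_mod_cast (by omega : 0 < X)
  have hX1 : (1 : ℝ) ≤ X := by exact_mod_cast (by omega : 1 ≤ X)
  rw [one_mul, one_mul, Real.exp_log hX0, pow_one] at g2
  have h2' := h2 X (by omega) z
  simp only [← hg] at hvar
  obtain ⟨L, hL⟩ : ∃ L : ℝ, L = Real.log X := ⟨_, rfl⟩
  rw [← hL] at g1 g2 hK hE1 hzL hzE hvar h2' hy hyK ⊢
  have p1 : 0 < 3 / ε := by positivity
  have p2 : 0 < 6 / (η ^ 2 * ε) := by positivity
  have p3 : (0 : ℝ) ≤ z₀ := Nat.cast_nonneg _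
  have hL100 : 100 ≤ L := by linarith
  have hLε : 3 / ε ≤ L := by linarith
  have hLη : 6 / (η ^ 2 * ε) ≤ L := by linarith
  have hLg : g ≤ L := by linarith
  have hL0 : 0 < L := by linarith
  have hL1 : 1 ≤ L := by linarith
  have hzz : z₀ ≤ z := by
    have : (z₀ : ℝ) ≤ z := by linarith
    exact_mod_cast this
  have hh1 : 1 ≤ h := by
    rw [hh]
    have : 0 ≤ 6 * g / (η ^ 2 * ε) := by positivity
    linarith
  have hy0 : (0 : ℝ) < y := by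
    have : 0 < h * L := by positivity
    linarith
  have hyn : 1 ≤ y := by exact_mod_cast hy0
  have hK0 : (0 : ℝ) < K := lt_of_lt_of_le (by positivity) hK
  choose Bd hBd1 hBd2 using h2' hzz hzE
  obtain ⟨Q, hQ⟩ : ∃ Q : Finset (ℕ × ℕ), Q = Ioc B (B + K) ×ˢ Ioc 0 (0 + X) := ⟨_, rfl⟩
  obtain ⟨C₁, hC₁⟩ : ∃ C₁ : Finset (ℕ × ℕ), C₁ = (Q \ Ex).filter (fun x =>
    η * (y / L) < |dev a (S x.1 x.2) u y x.1 x.2|) := ⟨_, rfl⟩
  obtain ⟨C₂, hC₂⟩ : ∃ C₂ : Finset (ℕ × ℕ), C₂ = Q.filter (fun x => x.2 ∈ Bd (x.1 : ℤ)) := ⟨_, rfl⟩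
  refine ⟨Ex ∪ C₁ ∪ C₂, ?_, ?_⟩
  · have k1 : (Ex.card : ℝ) ≤ ε / 3 * (X * K) := by
      refine hE1.trans ?_
      have h3 : 1 / L ^ 3 ≤ ε / 3 := by
        have h4 : 1 / L ^ 3 ≤ 1 / L := one_div_le_one_div_of_le hL0 (le_self_pow₀ hL1 (by norm_num))
        have h5 : 1 / L ≤ ε / 3 := by
          rw [div_le_div_iff₀ hL0 (by norm_num)]
          rw [div_le_iff₀ hε] at hLε
          linarith
        linarith
      calc X * K / L ^ 3 = 1 / L ^ 3 * (X * K) := by ring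
        _ ≤ ε / 3 * (X * K) := by gcongr
    have k2 : (C₁.card : ℝ) ≤ ε / 3 * (X * K) := by
      rw [hC₁, hQ]
      have h3 := hvar u y hyn hy1 hyK
      have h4 := cheb ((Ioc B (B + K) ×ˢ Ioc 0 (0 + X)) \ Ex) (fun x => dev a (S x.1 x.2) u y x.1 x.2)
        (η := η * (y / L)) (by positivity) h3
      refine h4.trans ?_
      have e : (g * (X * K * y / L) + X * K * (y : ℝ) ^ 2 / L ^ 3) / (η * (y / L)) ^ 2 =
          (g * L / (η ^ 2 * y) + 1 / (η ^ 2 * L)) * (X * K) := by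
        field_simp
      rw [e]
      apply mul_le_mul_of_nonneg_right _ (by positivity)
      have h5 : g * L / (η ^ 2 * y) ≤ ε / 6 := by
        rw [div_le_div_iff₀ (by positivity) (by norm_num)]
        have h6 : 6 * g / (η ^ 2 * ε) * L ≤ y := by
          refine le_trans ?_ hy
          apply mul_le_mul_of_nonneg_right _ hL0.le
          rw [hh]
          linarith
        have h7 : 6 * g / (η ^ 2 * ε) * L = (g * L * 6) / (ε * η ^ 2) := by
          field_simp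
        rw [h7, div_le_iff₀ (by positivity)] at h6
        linarith
      have h6 : 1 / (η ^ 2 * L) ≤ ε / 6 := by
        rw [div_le_div_iff₀ (by positivity) (by norm_num)]
        rw [div_le_iff₀ (by positivity)] at hLη
        linarith
      linarith
    have k3 : (C₂.card : ℝ) ≤ ε / 3 * (X * K) := by
      have e1 : (C₂.card : ℝ) = ∑ b ∈ Ioc B (B + K), (((Ioc 0 (0 + X)).filter (fun c => c ∈ Bd (b : ℤ))).card : ℝ) := by
        rw [hC₂, hQ, Finset.card_eq_sum_ones, Nat.cast_sum, Finset.sum_filter, Finset.sum_product]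
        apply Finset.sum_congr rfl
        intro b _
        rw [Finset.card_eq_sum_ones, Nat.cast_sum, Finset.sum_filter]
      rw [e1]
      have h3 : ∀ b ∈ Ioc B (B + K), (((Ioc 0 (0 + X)).filter (fun c => c ∈ Bd (b : ℤ))).card : ℝ) ≤
          12 * (X / z₀) := by
        intro b _
        refine le_trans ?_ (hBd1 (b : ℤ))
        have h4 : ((Ioc 0 (0 + X)).filter (fun c => c ∈ Bd (b : ℤ))).card ≤ (Bd (b : ℤ)).card := by
          apply card_le_card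
          intro c hc
          rw [mem_filter] at hc
          exact hc.2
        exact_mod_cast h4
      refine (Finset.sum_le_sum h3).trans ?_
      rw [Finset.sum_const, nsmul_eq_mul, Nat.card_Ioc, Nat.add_sub_cancel_left]
      calc (K : ℝ) * (12 * (X / z₀)) = 12 / (z₀ : ℝ) * (X * K) := by ring
        _ ≤ ε / 3 * (X * K) := by gcongr
    have k4 : ((Ex ∪ C₁ ∪ C₂).card : ℝ) ≤ (Ex.card : ℝ) + C₁.card + C₂.card := by
      have e2 := card_union_le Ex C₁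
      have e3 := card_union_le (Ex ∪ C₁) C₂
      exact_mod_cast e3.trans (Nat.add_le_add_right e2 _)
    linarith
  · intro b hb c hc hbad
    rw [mem_union, mem_union, not_or, not_or] at hbad
    obtain ⟨⟨n1, n2⟩, n3⟩ := hbad
    have hQm : (b, c) ∈ Q := by
      rw [hQ, mem_product]
      exact ⟨hb, hc⟩
    have hdev : |dev a (S b c) u y b c| ≤ η * (y / L) := by
      by_contra hcon
      push Not at hcon
      apply n2
      rw [hC₁, mem_filter, Finset.mem_sdiff]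
      exact ⟨⟨hQm, n1⟩, hcon⟩
    have hcB : c ∉ Bd (b : ℤ) := by
      intro hcon
      apply n3
      rw [hC₂, mem_filter]
      exact ⟨hQm, hcon⟩
    refine ⟨S b c, hS b hb c hc n1, hdev.trans ?_, fun hloc => ?_⟩
    · gcongr
    · have k1 := hBd2 (b : ℤ) c hc hcB hloc
      have k2 := hSz b hb c hc n1
      have k3 : δ ≤ S b c := by
        rw [hδ]
        linarith
      refine dev_prime (L := L) (δ := δ) hyn hL0 hδ0 k3 ?_ (hdev.trans (by gcongr))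
      intro t ht
      rw [mem_Ioc] at ht hb hc
      have ht1 : (1 : ℤ) ≤ t := by exact_mod_cast (by omega : 1 ≤ t)
      have hb1 : (1 : ℤ) ≤ b := by exact_mod_cast (by omega : 1 ≤ b)
      have hc1 : (1 : ℤ) ≤ c := by exact_mod_cast hc.1
      have e3 : fv (-a) (-(b : ℤ)) (c : ℤ) t = a * (t : ℤ) ^ 2 + (b : ℤ) * t + c := by
        rw [fv_val]
        ring
      have hlow : (3 : ℤ) ≤ fv (-a) (-(b : ℤ)) (c : ℤ) t := by
        rw [e3]
        have h3 : 1 ≤ a * (t : ℤ) ^ 2 := by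
          have : (1 : ℤ) ≤ (t : ℤ) ^ 2 := one_le_pow₀ ht1
          nlinarith
        have h4 : 1 ≤ (b : ℤ) * t := by nlinarith
        linarith
      have hlowr : (3 : ℝ) ≤ ((fv (-a) (-(b : ℤ)) (c : ℤ) t : ℤ) : ℝ) := by exact_mod_cast hlow
      have hup : ((fv (-a) (-(b : ℤ)) (c : ℤ) t : ℤ) : ℝ) ≤ X ^ 2 := by
        rw [e3]
        push_cast
        obtain ⟨R, hR⟩ : ∃ R : ℝ, R = Real.sqrt (H * X) := ⟨_, rfl⟩
        have hHX0 : (0 : ℝ) ≤ H * X := by positivity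
        have hRR : R ^ 2 = H * X := by rw [hR]; exact Real.sq_sqrt hHX0
        have hR0 : 0 ≤ R := by rw [hR]; exact Real.sqrt_nonneg _
        have huR : (u : ℝ) + y ≤ R := by
          rw [hR]
          exact Real.le_sqrt_of_sq_le hy1
        have hBR : (B : ℝ) + K ≤ R := by
          rw [hR]
          exact Real.le_sqrt_of_sq_le hBK
        have htR : (t : ℝ) ≤ R := by
          have : (t : ℝ) ≤ u + y := by exact_mod_cast ht.2
          linarith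
        have hbR : (b : ℝ) ≤ R := by
          have : (b : ℝ) ≤ B + K := by exact_mod_cast hb.2
          linarith
        have hcX : (c : ℝ) ≤ X := by exact_mod_cast (by omega : c ≤ X)
        have ht0 : (0 : ℝ) ≤ t := Nat.cast_nonneg _
        have q1 : (a : ℝ) * (t : ℝ) ^ 2 ≤ a * R ^ 2 := by gcongr
        have q2 : (b : ℝ) * t ≤ R * R := mul_le_mul hbR htR ht0 hR0
        have q3 : ((a : ℝ) + 1) * H + 1 ≤ g := by
          rw [hg]
          have : 0 ≤ ((a : ℝ) + 1) * H := by positivity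
          linarith
        calc (a : ℝ) * (t : ℝ) ^ 2 + b * t + c ≤ a * R ^ 2 + R * R + X := by linarith
          _ = (((a : ℝ) + 1) * H + 1) * X := by
              rw [← sq, hRR]
              ring
          _ ≤ X * X := by
              apply mul_le_mul_of_nonneg_right _ hX0.le
              linarith
          _ = (X : ℝ) ^ 2 := by ring
      refine ⟨Real.log_pos (by linarith), ?_⟩
      have h5 := Real.log_le_log (by linarith) hup
      rw [Real.log_pow] at h5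
      rw [hL]
      exact_mod_cast h5

end Pool.Agent.K9h19.CR
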