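import Pool.Agent.K9h19.CR.QU4
import Pool.Agent.K9h19.CR.VR6

/-!
# Prime plus square: the singular series in short intervals
-/

set_option autoImplicit false

namespace Pool.Agent.K9h19.CR

open Finset Filter Topology
open Pool.Agent.Q236.CR
open Pool.Agent.H373R2.T7 (lamz Vz pz Vz_pos Vz_inv_small nuB mem_pz PerB)
open Pool.Agent.R460.SB (QS Sz Sz_bd Sz_low loc_lt fv)
open Pool.Agent.R460.SC (Sz_split PJ_ge sol_lin tail_gen2)
open Pool.Agent.W468.ConjF (SJ PJ)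
open Pool.Agent.Y868.TB (low_count_lin)

open Classical in
/-- the singular series of `n = p + m²` -/
noncomputable def SS (n : ℕ) : ℝ :=
  if h : ∃ S : ℝ, Tendsto (fun z : ℕ => Szn n z) atTop (𝓝 S) then h.choose else 0

theorem SS_eq {n : ℕ} {S : ℝ} (h : Tendsto (fun z : ℕ => Szn n z) atTop (𝓝 S)) : SS n = S := by
  have h1 : ∃ S : ℝ, Tendsto (fun z : ℕ => Szn n z) atTop (𝓝 S) := ⟨S, h⟩
  unfold SS
  rw [dif_pos h1]
  exact tendsto_nhds_unique h1.choose_spec h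

theorem SS_lim {n z V : ℕ} {L : ℝ} (hz : 2 ≤ z) (hL : 64 ≤ L) (hV : (Vz z)⁻¹ ≤ L) (hzL : L ^ (V + 2) ≤ z)
    (hsq : ¬ IsSquare (4 * (n : ℤ))) (htail : ∀ᶠ M in atTop, |SJ (4 * (n : ℤ)) z M| ≤ 1 / L ^ (V + 2)) :
    Tendsto (fun z : ℕ => Szn n z) atTop (𝓝 (SS n)) ∧ |SS n - Szn n z| ≤ 12 / L ^ (V + 1) ∧ Szn n z / 2 ≤ SS n := by
  have e : (0 : ℤ) ^ 2 - 4 * 1 * (-(n : ℤ)) = 4 * (n : ℤ) := by ring
  obtain ⟨S, h1, h2, h3⟩ := S_lim (a := 1) (b := 0) (c := -(n : ℤ)) (V := V) one_pos hz (by exact_mod_cast (by omega : 1 ≤ z))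
    hL hV hzL (by rw [e]; exact hsq) (by rw [e]; exact htail)
  rw [neg_zero] at h1 h2 h3
  have h4 : SS n = S := SS_eq h1
  rw [h4]
  exact ⟨h1, h2, h3⟩

theorem Szn_loc (n : ℕ) {p : ℕ} (hp : p.Prime) : ∃ m : ℕ, ¬ (p : ℤ) ∣ fv (-1) 0 (-(n : ℤ)) m := by
  by_contra hcon
  push Not at hcon
  have h0 := hcon 0
  have h1 := hcon 1
  unfold fv at h0 h1
  have h2 := dvd_sub h1 h0
  have e : -(n : ℤ) - (-1 * ((1 : ℕ) : ℤ) ^ 2 + 0 * ((1 : ℕ) : ℤ)) - (-(n : ℤ) - (-1 * ((0 : ℕ) : ℤ) ^ 2 + 0 * ((0 : ℕ) : ℤ))) = 1 := by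
    push_cast
    ring
  rw [e] at h2
  have h3 : p ∣ 1 := by exact_mod_cast h2
  exact hp.one_lt.ne' (Nat.dvd_one.1 h3)

/-- the tail of the product in short intervals -/
theorem tail_int (U E : ℕ) : ∃ X₀ : ℕ, ∀ X : ℕ, X₀ ≤ X → ∀ z : ℕ, Real.log X ^ (3 * (U + 1) + 4) ≤ z →
    (z : ℝ) ≤ Real.log X ^ E → ∀ H : ℕ, H ≤ 3 * X → (X : ℝ) ^ (4 / 7 : ℝ) ≤ H →
    ∃ Ex : Finset ℕ, (Ex.card : ℝ) ≤ H / Real.log X ^ U ∧ ∀ n ∈ Ico X (X + H), n ∉ Ex →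
      ¬ IsSquare (4 * (n : ℤ)) ∧ ∀ᶠ N in atTop, |SJ (4 * (n : ℤ)) z N| ≤ 1 / Real.log X ^ U := by
  classical
  obtain ⟨H₀, h0⟩ := tail_gen2 (U + 1) (E + 1) 3 10 (by norm_num) (by norm_num)
  obtain ⟨X₁, hX₁⟩ := ev_natlog (P := fun l => (H₀ : ℝ) + 2 ^ (3 * (U + 1) + 3) + 2 ^ (E + 1) + 2 ^ (U + 3) + 100 ≤ l ∧
      1 * l ^ 1 ≤ Real.exp (4 / 7 * l) ∧ 16 * l ^ 0 ≤ Real.exp (5 / 7 * l) ∧ 5 ^ 10 * l ^ 0 ≤ Real.exp (1 / 7 * l)) (by
    filter_upwards [eventually_ge_atTop ((H₀ : ℝ) + 2 ^ (3 * (U + 1) + 3) + 2 ^ (E + 1) + 2 ^ (U + 3) + 100),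
      ev_exp (4 / 7) 1 1 (by norm_num), ev_exp (5 / 7) 16 0 (by norm_num), ev_exp (1 / 7) (5 ^ 10) 0 (by norm_num)]
      with l h1 h2 h3 h4
    exact ⟨h1, h2, h3, h4⟩)
  refine ⟨X₁ + 4, fun X hX z hz1 hz2 H hHX hXH => ?_⟩
  obtain ⟨g1, g2, g3, g4⟩ := hX₁ X (by omega)
  rw [one_mul, pow_one] at g2
  rw [pow_zero, mul_one] at g3 g4
  have hX0 : (0 : ℝ) < X := by exact_mod_cast (by omega : 0 < X)
  have hX1 : (1 : ℝ) ≤ X := by exact_mod_cast (by omega : 1 ≤ X)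
  obtain ⟨L, hL⟩ : ∃ L : ℝ, L = Real.log X := ⟨_, rfl⟩
  have hexp : Real.exp L = X := by rw [hL, Real.exp_log hX0]
  have h47 : (X : ℝ) ^ (4 / 7 : ℝ) = Real.exp (4 / 7 * L) := by
    rw [Real.rpow_def_of_pos hX0, ← hL, mul_comm]
  rw [h47] at hXH
  rw [← hL] at g1 g2 g3 g4 hz1 hz2 ⊢
  have p1 : (0 : ℝ) < 2 ^ (3 * (U + 1) + 3) := by positivity
  have p2 : (0 : ℝ) < 2 ^ (E + 1) := by positivity
  have p3 : (0 : ℝ) < 2 ^ (U + 3) := by positivity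
  have p4 : (0 : ℝ) ≤ H₀ := Nat.cast_nonneg _
  have hL100 : 100 ≤ L := by linarith
  have hL0 : 0 < L := by linarith
  have hL1 : 1 ≤ L := by linarith
  have he0 : 0 < Real.exp (4 / 7 * L) := Real.exp_pos _
  have hH0 : (0 : ℝ) < H := by linarith
  have hHn : 1 ≤ H := by exact_mod_cast hH0
  have hHr : (H : ℝ) ≤ 3 * X := by exact_mod_cast hHX
  have hlogH1 : 4 / 7 * L ≤ Real.log H := by
    rw [Real.le_log_iff_exp_le hH0]
    exact hXH
  have hlogH1' : L / 2 ≤ Real.log H := by linarith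
  have hlogH2 : Real.log H ≤ 2 * L := by
    have h5 : (H : ℝ) ≤ X * X := by
      refine hHr.trans ?_
      have h7 : (3 : ℝ) ≤ X := by exact_mod_cast (by omega : 3 ≤ X)
      gcongr
    have h6 := Real.log_le_log hH0 h5
    rw [Real.log_mul hX0.ne' hX0.ne', ← hL] at h6
    linarith
  have hlogH0 : 0 < Real.log H := by linarith
  have hHX' : L ≤ H := g2.trans hXH
  -- the sequence
  obtain ⟨α, hα⟩ : ∃ α : ℤ, α = 4 * ((X : ℤ) - 1) := ⟨_, rfl⟩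
  obtain ⟨β, hβ⟩ : ∃ β : ℤ, β = 4 := ⟨_, rfl⟩
  have hβ0 : β ≠ 0 := by rw [hβ]; norm_num
  have hbd : ∀ k ∈ Icc 1 H, (α + β * (k : ℤ)).natAbs ≤ 16 * X := by
    intro k hk
    rw [mem_Icc] at hk
    rw [hα, hβ]
    omega
  have hX3 : 16 * X ≤ H ^ 3 := by
    have h5 : (16 * (X : ℝ)) ≤ (H : ℝ) ^ 3 := by
      calc 16 * (X : ℝ) = 16 * Real.exp L := by rw [hexp]
        _ ≤ Real.exp (5 / 7 * L) * Real.exp L := by gcongr
        _ = Real.exp (4 / 7 * L) ^ 3 := by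
            rw [← Real.exp_add, ← Real.exp_nat_mul]
            congr 1
            push_cast
            ring
        _ ≤ (H : ℝ) ^ 3 := pow_le_pow_left₀ he0.le hXH _
    exact_mod_cast h5
  have hβb : β.natAbs ≤ H ^ 3 := by
    refine le_trans ?_ hX3
    rw [hβ]
    omega
  obtain ⟨W, hW⟩ : ∃ W : ℝ, W = ((Nat.sqrt (16 * X) + 1 : ℕ) : ℝ) := ⟨_, rfl⟩
  have hW0 : 0 ≤ W := by rw [hW]; positivity
  have hWX : W ≤ 5 * Real.exp (1 / 2 * L) := by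
    have h5 : ((Nat.sqrt (16 * X) : ℕ) : ℝ) ≤ 4 * Real.exp (1 / 2 * L) := by
      have h6 : (Nat.sqrt (16 * X)) ^ 2 ≤ 16 * X := Nat.sqrt_le' _
      have h7 : (((Nat.sqrt (16 * X)) : ℕ) : ℝ) ^ 2 ≤ 16 * X := by exact_mod_cast h6
      have h8 : 16 * (X : ℝ) = (4 * Real.exp (1 / 2 * L)) ^ 2 := by
        rw [mul_pow, ← Real.exp_nat_mul, ← hexp]
        norm_num
        congr 1
        ring
      rw [h8] at h7
      exact le_of_pow_le_pow_left₀ (by norm_num) (by positivity) h7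
    have h6 : 1 ≤ Real.exp (1 / 2 * L) := Real.one_le_exp (by positivity)
    rw [hW]
    push_cast
    linarith
  have hWκ : W ^ 10 ≤ (H : ℝ) ^ (10 - 1) := by
    calc W ^ 10 ≤ (5 * Real.exp (1 / 2 * L)) ^ 10 := pow_le_pow_left₀ hW0 hWX _
      _ = 5 ^ 10 * Real.exp (5 * L) := by
          rw [mul_pow, ← Real.exp_nat_mul]
          congr 2
          push_cast
          ring
      _ ≤ Real.exp (1 / 7 * L) * Real.exp (5 * L) := by gcongr
      _ = Real.exp (4 / 7 * L) ^ 9 := by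
          rw [← Real.exp_add, ← Real.exp_nat_mul]
          congr 1
          push_cast
          ring
      _ ≤ (H : ℝ) ^ 9 := pow_le_pow_left₀ he0.le hXH _
  have hz1n : (1 : ℝ) ≤ z := (one_le_pow₀ hL1).trans hz1
  have hz1' : 1 ≤ z := by exact_mod_cast hz1n
  obtain ⟨Ex, hEx1, hEx2⟩ := h0 H (by
      have h5 : (H₀ : ℝ) ≤ H := by linarith
      exact_mod_cast h5) z (by
      calc Real.log H ^ (3 * (U + 1) + 3) ≤ (2 * L) ^ (3 * (U + 1) + 3) := pow_le_pow_left₀ hlogH0.le hlogH2 _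
        _ = 2 ^ (3 * (U + 1) + 3) * L ^ (3 * (U + 1) + 3) := mul_pow _ _ _
        _ ≤ L * L ^ (3 * (U + 1) + 3) := mul_le_mul_of_nonneg_right (by linarith) (by positivity)
        _ = L ^ (3 * (U + 1) + 4) := by ring
        _ ≤ z := hz1) (by
      calc (z : ℝ) ≤ L ^ E := hz2
        _ ≤ (2 * Real.log H) ^ E := pow_le_pow_left₀ hL0.le (by linarith) _
        _ = 2 ^ E * Real.log H ^ E := mul_pow _ _ _
        _ ≤ Real.log H * Real.log H ^ E := by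
            apply mul_le_mul_of_nonneg_right _ (by positivity)
            have : (2 : ℝ) ^ (E + 1) = 2 * 2 ^ E := by ring
            have : (0 : ℝ) < 2 ^ E := by positivity
            linarith
        _ = Real.log H ^ (E + 1) := by ring)
    (fun k : ℕ => α + β * (k : ℤ)) β hβ0 hβb (fun k hk => (hbd k hk).trans hX3)
    (fun P Z hP τ hτ => by
      have h5 := low_count_lin α β P z Z (H + 1) hz1' hP τ hτ
      exact h5)
    W hW0 (fun d => by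
      rw [hW]
      exact_mod_cast sol_lin α β hβ0 H (16 * X) hbd d) hWκ
  refine ⟨Ex.image (fun k : ℕ => X - 1 + k), ?_, ?_⟩
  · have h5 : ((Ex.image (fun k : ℕ => X - 1 + k)).card : ℝ) ≤ Ex.card := by exact_mod_cast card_image_le
    refine h5.trans (hEx1.trans ?_)
    apply div_le_div_of_nonneg_left hH0.le (by positivity)
    calc L ^ U ≤ (2 * Real.log H) ^ U := pow_le_pow_left₀ hL0.le (by linarith) _
      _ = 2 ^ U * Real.log H ^ U := mul_pow _ _ _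
      _ ≤ Real.log H * Real.log H ^ U := by
          apply mul_le_mul_of_nonneg_right _ (by positivity)
          have e1 : (2 : ℝ) ^ (U + 3) = 8 * 2 ^ U := by ring
          have : (0 : ℝ) < 2 ^ U := by positivity
          linarith
      _ = Real.log H ^ (U + 1) := by ring
  · intro n hn hnE
    rw [mem_Ico] at hn
    obtain ⟨k, hk⟩ : ∃ k : ℕ, k = n - (X - 1) := ⟨_, rfl⟩
    have hkn : X - 1 + k = n := by omega
    have hkH : k ∈ Icc 1 H := by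
      rw [mem_Icc]
      omega
    have hkE : k ∉ Ex := by
      intro h
      apply hnE
      rw [mem_image]
      exact ⟨k, h, hkn⟩
    obtain ⟨g5, g6⟩ := hEx2 k hkH hkE
    have e : α + β * (k : ℤ) = 4 * (n : ℤ) := by
      rw [hα, hβ]
      omega
    simp only [e] at g5 g6
    refine ⟨g5, ?_⟩
    filter_upwards [g6] with N hN
    refine hN.trans ?_
    apply one_div_le_one_div_of_le (by positivity)
    calc L ^ U ≤ (2 * Real.log H) ^ U := pow_le_pow_left₀ hL0.le (by linarith) _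
      _ = 2 ^ U * Real.log H ^ U := mul_pow _ _ _
      _ ≤ Real.log H * Real.log H ^ U := by
          apply mul_le_mul_of_nonneg_right _ (by positivity)
          have e1 : (2 : ℝ) ^ (U + 3) = 8 * 2 ^ U := by ring
          have : (0 : ℝ) < 2 ^ U := by positivity
          linarith
      _ = Real.log H ^ (U + 1) := by ring

/-- the constants are rarely small -/
theorem low_Szn (E z₀ : ℕ) (hz0 : 4 ≤ z₀) :
    ∃ X₀ : ℕ, ∀ X : ℕ, X₀ ≤ X → ∀ z : ℕ, z₀ ≤ z → (z : ℝ) ≤ Real.log X ^ E → ∀ H : ℕ, (X : ℝ) ^ (4 / 7 : ℝ) ≤ H →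
      ∃ Bd : Finset ℕ, (Bd.card : ℝ) ≤ 12 * (H / z₀) ∧ ∀ n ∈ Ico X (X + H), n ∉ Bd → kap 1 z₀ ≤ Szn n z := by
  classical
  obtain ⟨X₁, hX₁⟩ := ev_natlog (P := fun l => 1 ≤ l ∧ ((z₀ : ℝ) + 2) * l ^ (2 * E) ≤ Real.exp (4 / 7 * l)) (by
    filter_upwards [eventually_ge_atTop 1, ev_exp (4 / 7) ((z₀ : ℝ) + 2) (2 * E) (by norm_num)] with l h1 h2
    exact ⟨h1, h2⟩)
  refine ⟨X₁ + 3, fun X hX z hz hzE H hXH => ?_⟩
  obtain ⟨g1, g2⟩ := hX₁ X (by omega)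
  have hX0 : (0 : ℝ) < X := by exact_mod_cast (by omega : 0 < X)
  obtain ⟨L, hL⟩ : ∃ L : ℝ, L = Real.log X := ⟨_, rfl⟩
  have h47 : (X : ℝ) ^ (4 / 7 : ℝ) = Real.exp (4 / 7 * L) := by
    rw [Real.rpow_def_of_pos hX0, ← hL, mul_comm]
  rw [h47] at hXH
  rw [← hL] at g1 g2 hzE
  have hz00 : (0 : ℝ) < z₀ := by exact_mod_cast (by omega : 0 < z₀)
  obtain ⟨P, hP⟩ : ∃ P : Finset ℕ, P = (Ioc z₀ z).filter Nat.Prime := ⟨_, rfl⟩
  have hPp : ∀ p ∈ P, p.Prime ∧ p ≠ 2 ∧ z₀ < p ∧ p ≤ z ∧ ¬ (p : ℤ) ∣ (4 : ℤ) := by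
    intro p hp
    rw [hP, mem_filter, mem_Ioc] at hp
    refine ⟨hp.2, by omega, hp.1.1, hp.1.2, ?_⟩
    intro h
    have := Int.le_of_dvd (by norm_num) h
    omega
  have hlc := low_count_lin (4 * ((X : ℤ) - 1)) 4 P z₀ z (H + 1) (by omega) hPp (1 / 2) (by norm_num)
  obtain ⟨F, hF⟩ : ∃ F : Finset ℕ, F = (range (H + 1)).filter (fun c : ℕ =>
    1 / 2 < |∑ p ∈ P, (jacobiSym (4 * ((X : ℤ) - 1) + 4 * (c : ℤ)) p : ℝ) / p|) := ⟨_, rfl⟩
  rw [← hF] at hlc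
  refine ⟨F.image (fun k : ℕ => X - 1 + k), ?_, ?_⟩
  · have h0 : ((F.image (fun k : ℕ => X - 1 + k)).card : ℝ) ≤ F.card := by exact_mod_cast card_image_le
    refine h0.trans (hlc.trans ?_)
    have h1 : (z : ℝ) ^ 2 ≤ L ^ (2 * E) := by
      calc (z : ℝ) ^ 2 ≤ (L ^ E) ^ 2 := pow_le_pow_left₀ (Nat.cast_nonneg _) hzE 2
        _ = L ^ (2 * E) := by rw [← pow_mul, mul_comm]
    have h2 : 1 ≤ L ^ (2 * E) := one_le_pow₀ g1
    have h3 : 2 + (z₀ : ℝ) * (z : ℝ) ^ 2 ≤ H := by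
      calc 2 + (z₀ : ℝ) * (z : ℝ) ^ 2 ≤ 2 * L ^ (2 * E) + z₀ * L ^ (2 * E) := by
            apply add_le_add
            · linarith
            · gcongr
        _ = ((z₀ : ℝ) + 2) * L ^ (2 * E) := by ring
        _ ≤ H := g2.trans hXH
    push_cast
    have e : (2 * (((H : ℝ) + 1) / z₀) + (z : ℝ) ^ 2) / (1 / 2) ^ 2 =
        (8 * H + 4 * (2 + z₀ * (z : ℝ) ^ 2)) / z₀ := by
      field_simp
      ring
    have e2 : 12 * ((H : ℝ) / z₀) = (8 * H + 4 * H) / z₀ := by ring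
    rw [e, e2]
    gcongr
  · intro n hn hnB
    rw [mem_Ico] at hn
    obtain ⟨k, hk⟩ : ∃ k : ℕ, k = n - (X - 1) := ⟨_, rfl⟩
    have hkn : X - 1 + k = n := by omega
    have hkB : k ∉ F := by
      intro h
      apply hnB
      rw [mem_image]
      exact ⟨k, h, hkn⟩
    rw [hF, mem_filter, not_and] at hkB
    have h1 := hkB (by rw [mem_range]; omega)
    push Not at h1
    have e : 4 * ((X : ℤ) - 1) + 4 * (k : ℤ) = 4 * (n : ℤ) := by omega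
    rw [e] at h1
    have h2 : |SJ (4 * (n : ℤ)) z₀ z| ≤ 1 / 2 := by
      unfold SJ
      rw [← hP]
      exact h1
    have h3 := PJ_ge (4 * (n : ℤ)) z₀ z (by omega) hz
    have h4 : Real.exp (-3) ≤ PJ (4 * (n : ℤ)) z₀ z := by
      refine le_trans (Real.exp_le_exp.2 ?_) h3
      have h5 : 5 / (z₀ : ℝ) ≤ 5 / 4 := by
        apply div_le_div_of_nonneg_left (by norm_num) (by norm_num)
        exact_mod_cast hz0
      linarith
    have h5 := Sz_low (α := -1) (γ := 0) (by norm_num) (-(n : ℤ)) z₀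
      (fun p hp => loc_lt (mem_pz.1 hp).2 (Szn_loc n (mem_pz.1 hp).2))
    have h6 := Sz_split (a := 1) (b := 0) (c := -(n : ℤ)) one_pos (by omega : 2 ≤ z₀)
      (by exact_mod_cast (by omega : 1 ≤ z₀)) hz
    have e3 : (0 : ℤ) ^ 2 - 4 * 1 * (-(n : ℤ)) = 4 * (n : ℤ) := by ring
    rw [neg_zero, e3] at h6
    unfold Szn
    rw [h6]
    unfold kap
    have h7 := (Sz_bd (-1) 0 (-(n : ℤ)) z₀).1
    exact mul_le_mul h5 h4 (Real.exp_pos _).le h7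

end Pool.Agent.K9h19.CR
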