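import Pool.Agent.K9h19.CR.QU5

/-!
# Prime plus square: the variance in short intervals
-/

set_option autoImplicit false

namespace Pool.Agent.K9h19.CR

open Finset Filter Topology
open Pool.Agent.Q236.CR
open Pool.Agent.H373R2.T7 (lamz Vz pz Vz_pos Vz_inv_small nuB mem_pz PerB)

/-- the numbers of the square roots and of the integers -/
theorem sqrt_range {X H u K : ℕ} (hu : u = Nat.sqrt X) (hK : K = Nat.sqrt (X + H) + 1 - u) (hHX : H ≤ X) (hu3 : 4 ≤ u) :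
    1 ≤ K ∧ K ≤ u ∧ 2 * (u * K) ≤ H + 4 * u ∧ H ≤ 3 * (u * K) ∧ u ^ 2 ≤ X ∧ X < (u + 1) ^ 2 ∧
      Ioc X (X + H) ⊆ Ico (u ^ 2) ((u + K) ^ 2) := by
  obtain ⟨w, hw⟩ : ∃ w : ℕ, w = Nat.sqrt (X + H) := ⟨_, rfl⟩
  rw [← hw] at hK
  have h1 : u ^ 2 ≤ X := by rw [hu]; exact Nat.sqrt_le' X
  have h2 : X < (u + 1) ^ 2 := by rw [hu]; exact Nat.lt_succ_sqrt' X
  have h3 : w ^ 2 ≤ X + H := by rw [hw]; exact Nat.sqrt_le' _
  have h4 : X + H < (w + 1) ^ 2 := by rw [hw]; exact Nat.lt_succ_sqrt' _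
  have huw : u ≤ w := by
    rw [hu, hw]
    exact Nat.sqrt_le_sqrt (by omega)
  have hwK : w + 1 = u + K := by omega
  have hw2 : w < 2 * u := by
    by_contra hcon
    push Not at hcon
    have h5 : (2 * u) ^ 2 ≤ w ^ 2 := Nat.pow_le_pow_left hcon 2
    have e1 : (2 * u) ^ 2 = 4 * (u * u) := by ring
    have e2 : (u + 1) ^ 2 = u * u + 2 * u + 1 := by ring
    have h6 : 4 * u ≤ u * u := Nat.mul_le_mul_right _ hu3
    omega
  rw [hwK] at h4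
  have e3 : (u + K) ^ 2 = u ^ 2 + (2 * (u * K) + K * K) := by ring
  have hKu : K ≤ u := by omega
  have h7 : K * K ≤ u * K := Nat.mul_le_mul_right _ hKu
  refine ⟨by omega, hKu, ?_, by omega, h1, h2, ?_⟩
  · obtain ⟨k, hk⟩ : ∃ k : ℕ, K = k + 1 := ⟨K - 1, by omega⟩
    have hwk : w = u + k := by omega
    rw [hwk] at h3
    have e4 : (u + k) ^ 2 = u ^ 2 + 2 * (u * k) + k * k := by ring
    have e5 : (u + 1) ^ 2 = u ^ 2 + 2 * u + 1 := by ring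
    have e6 : u * K = u * k + u := by rw [hk]; ring
    have h8 : 0 ≤ k * k := Nat.zero_le _
    omega
  · intro n hn
    rw [mem_Ioc] at hn
    rw [mem_Ico]
    omega

/-- the variance in short intervals -/
theorem quad_var (hcr : S_CHR) (hmo : S_MOC) (A : ℕ) : ∃ D E X₀ : ℕ, ∀ X : ℕ, X₀ ≤ X → ∀ H : ℕ, H ≤ X →
    (X : ℝ) ^ (3 / 5 : ℝ) ≤ H →
    ∃ Ex : Finset ℕ, (Ex.card : ℝ) ≤ H / Real.log X ^ A ∧
      (∀ n ∈ Ioc X (X + H), n ∉ Ex → ¬ IsSquare n ∧ Tendsto (fun z : ℕ => Szn n z) atTop (𝓝 (SS n))) ∧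
      (∃ z : ℕ, Real.log X ≤ z ∧ (z : ℝ) ≤ Real.log X ^ E ∧ ∀ n ∈ Ioc X (X + H), n ∉ Ex → Szn n z / 2 ≤ SS n) ∧
      ∀ J : ℕ, Real.log X ≤ J → J * Real.log X ^ D ≤ Real.sqrt X → J * Real.sqrt X ≤ H →
        (X : ℝ) ^ (2 / 3 : ℝ) * Real.log X ^ D ≤ H * (J : ℝ) ^ (2 / 3 : ℝ) →
        ∑ n ∈ Ioc X (X + H) \ Ex, (devn (SS n) J n) ^ 2 ≤
          200000000 * (H * J / Real.log X) + H * (J : ℝ) ^ 2 / Real.log X ^ A := by
  classical
  obtain ⟨B₀, hB₀⟩ := quad_sum hcr hmo (A + 1)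
  obtain ⟨B', hB'⟩ : ∃ B' : ℕ, B' = B₀ + 3 * ((A + 3) + 1) + 4 := ⟨_, rfl⟩
  obtain ⟨D₁, u₀, h1⟩ := hB₀ (B' + 2)
  obtain ⟨X₁, h2⟩ := tail_int (A + 3) (B' + 1)
  obtain ⟨X₂, h3⟩ := Vz_inv_small (B' + 1)
  obtain ⟨X₃, h4⟩ := ev_natlog (P := fun l => 100 + 3 ^ (B' + 3) + 6 * 3 ^ (A + 1) ≤ l ∧ 3 * l ^ D₁ ≤ Real.exp (1 / 10 * l) ∧
      4 * l ^ 0 ≤ Real.exp (1 / 10 * l) ∧ 8 * l ^ (2 * D₁) ≤ Real.exp (1 / 3 * l) ∧
      (2 * (u₀ : ℝ) + 10) * l ^ 0 ≤ Real.exp (1 / 2 * l)) (by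
    filter_upwards [eventually_ge_atTop (100 + 3 ^ (B' + 3) + 6 * 3 ^ (A + 1)), ev_exp (1 / 10) 3 D₁ (by norm_num),
      ev_exp (1 / 10) 4 0 (by norm_num), ev_exp (1 / 3) 8 (2 * D₁) (by norm_num),
      ev_exp (1 / 2) (2 * (u₀ : ℝ) + 10) 0 (by norm_num)] with l h1 h2 h3 h4 h5
    exact ⟨h1, h2, h3, h4, h5⟩)
  refine ⟨D₁ + 1, B' + 1, X₁ + X₂ + X₃ + 3, fun X hX H hHX hXH => ?_⟩
  obtain ⟨g1, g2, g3, g4, g5⟩ := h4 X (by omega)
  rw [pow_zero, mul_one] at g3 g5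
  have hX0 : (0 : ℝ) < X := by exact_mod_cast (by omega : 0 < X)
  have hX1 : (1 : ℝ) ≤ X := by exact_mod_cast (by omega : 1 ≤ X)
  have hHXr : (H : ℝ) ≤ X := by exact_mod_cast hHX
  obtain ⟨L, hL⟩ : ∃ L : ℝ, L = Real.log X := ⟨_, rfl⟩
  have hexp : Real.exp L = X := by rw [hL, Real.exp_log hX0]
  have h35 : (X : ℝ) ^ (3 / 5 : ℝ) = Real.exp (3 / 5 * L) := by
    rw [Real.rpow_def_of_pos hX0, ← hL, mul_comm]
  have h47 : (X : ℝ) ^ (4 / 7 : ℝ) = Real.exp (4 / 7 * L) := by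
    rw [Real.rpow_def_of_pos hX0, ← hL, mul_comm]
  have h23 : (X : ℝ) ^ (2 / 3 : ℝ) = Real.exp (2 / 3 * L) := by
    rw [Real.rpow_def_of_pos hX0, ← hL, mul_comm]
  rw [h35] at hXH
  rw [h23]
  obtain ⟨x, hx⟩ : ∃ x : ℝ, x = Real.sqrt X := ⟨_, rfl⟩
  have hxe : x = Real.exp (1 / 2 * L) := by
    have h5 : (X : ℝ) = Real.exp (1 / 2 * L) ^ 2 := by
      rw [← Real.exp_nat_mul]
      have e : ((2 : ℕ) : ℝ) * (1 / 2 * L) = L := by push_cast; ring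
      rw [e, hexp]
    rw [hx, h5, Real.sqrt_sq (Real.exp_pos _).le]
  have h2' := h2 X (by omega)
  have h3' := h3 X (by omega)
  rw [← hL] at g1 g2 g3 g4 g5 h2' h3'
  rw [← hL, ← hx]
  rw [← hxe] at g5
  have p1 : (0 : ℝ) < 3 ^ (B' + 3) := by positivity
  have p2 : (0 : ℝ) < 6 * 3 ^ (A + 1) := by positivity
  have p3 : (0 : ℝ) ≤ u₀ := Nat.cast_nonneg _
  have hL100 : 100 ≤ L := by linarith
  have hLB : (3 : ℝ) ^ (B' + 3) ≤ L := by linarith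
  have hLA : 6 * (3 : ℝ) ^ (A + 1) ≤ L := by linarith
  have hL0 : 0 < L := by linarith
  have hL1 : 1 ≤ L := by linarith
  have hx0 : 0 < x := by rw [hxe]; exact Real.exp_pos _
  have hH0 : (0 : ℝ) < H := lt_of_lt_of_le (Real.exp_pos _) hXH
  -- the sieving limit
  obtain ⟨z, hz⟩ : ∃ z : ℕ, z = ⌈L ^ B'⌉₊ := ⟨_, rfl⟩
  have hzlo : L ^ B' ≤ z := by rw [hz]; exact Nat.le_ceil _
  have hzhi : (z : ℝ) ≤ L ^ (B' + 1) := by
    have := Nat.ceil_lt_add_one (show 0 ≤ L ^ B' by positivity)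
    rw [← hz] at this
    have h1 : 1 ≤ L ^ B' := one_le_pow₀ hL1
    calc (z : ℝ) ≤ L ^ B' + 1 := this.le
      _ ≤ L ^ B' + L ^ B' := by linarith
      _ = 2 * L ^ B' := by ring
      _ ≤ L * L ^ B' := mul_le_mul_of_nonneg_right (by linarith) (by positivity)
      _ = L ^ (B' + 1) := by ring
  have hzL : L ≤ z := (le_self_pow₀ hL1 (by omega)).trans hzlo
  have hz2 : 2 ≤ z := by
    have : (2 : ℝ) ≤ z := by linarith
    exact_mod_cast this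
  have hV := h3' z (by omega) hzhi
  obtain ⟨Ex, hE1, hE2⟩ := h2' z ((pow_le_pow_right₀ hL1 (by omega)).trans hzlo) hzhi (H + 1) (by omega) (by
    rw [h47]
    push_cast
    have : Real.exp (4 / 7 * L) ≤ Real.exp (3 / 5 * L) := Real.exp_le_exp.2 (by linarith)
    linarith)
  have hS : ∀ n ∈ Ioc X (X + H), n ∉ Ex → ¬ IsSquare n ∧ Tendsto (fun z : ℕ => Szn n z) atTop (𝓝 (SS n)) ∧
      |SS n - Szn n z| ≤ 12 / L ^ (A + 1 + 1) ∧ Szn n z / 2 ≤ SS n := by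
    intro n hn hnE
    rw [mem_Ioc] at hn
    obtain ⟨k1, k2⟩ := hE2 n (by rw [mem_Ico]; omega) hnE
    refine ⟨?_, SS_lim (V := A + 1) hz2 (by linarith) hV ((pow_le_pow_right₀ hL1 (by omega)).trans hzlo) k1 (by
      filter_upwards [k2] with M hM
      exact hM)⟩
    rintro ⟨m, hm⟩
    apply k1
    exact ⟨2 * m, by rw [hm]; push_cast; ring⟩
  refine ⟨Ex, ?_, fun n hn hnE => ⟨(hS n hn hnE).1, (hS n hn hnE).2.1⟩, ⟨z, hzL, hzhi, fun n hn hnE =>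
    (hS n hn hnE).2.2.2⟩, ?_⟩
  · refine hE1.trans ?_
    rw [div_le_div_iff₀ (by positivity) (by positivity)]
    have h5 : ((H + 1 : ℕ) : ℝ) ≤ H * L := by
      push_cast
      have h6 : (1 : ℝ) ≤ H := by
        have : 1 ≤ Real.exp (3 / 5 * L) := Real.one_le_exp (by positivity)
        linarith
      calc (H : ℝ) + 1 ≤ H * 2 := by linarith
        _ ≤ H * L := by
            apply mul_le_mul_of_nonneg_left _ hH0.le
            linarith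
    calc ((H + 1 : ℕ) : ℝ) * L ^ A ≤ H * L * L ^ A := mul_le_mul_of_nonneg_right h5 (by positivity)
      _ = H * L ^ (A + 1) := by ring
      _ ≤ H * L ^ (A + 3) := by
          apply mul_le_mul_of_nonneg_left _ hH0.le
          exact pow_le_pow_right₀ hL1 (by omega)
  -- the variance
  intro J hJ hJD hJx hJH
  obtain ⟨u, hu⟩ : ∃ u : ℕ, u = Nat.sqrt X := ⟨_, rfl⟩
  obtain ⟨K, hK⟩ : ∃ K : ℕ, K = Nat.sqrt (X + H) + 1 - u := ⟨_, rfl⟩
  have hux : (u : ℝ) ≤ x := by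
    rw [hu, hx]
    exact Real.nat_sqrt_le_real_sqrt
  have hxu : x < u + 1 := by
    rw [hu, hx]
    have := Nat.lt_succ_sqrt' X
    rw [Real.sqrt_lt' (by positivity)]
    exact_mod_cast this
  have hu4r : 2 * (u₀ : ℝ) + 9 ≤ u := by linarith
  have hu4 : 2 * u₀ + 9 ≤ u := by exact_mod_cast hu4r
  obtain ⟨hK1, hKu, hKH, hHK, hu2, hu2', hsub⟩ := sqrt_range hu hK hHX (by omega)
  have hu0 : (0 : ℝ) < u := by exact_mod_cast (by omega : 0 < u)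
  have hu1 : (1 : ℝ) ≤ u := by exact_mod_cast (by omega : 1 ≤ u)
  have hx2u : x ≤ 2 * u := by linarith
  have hK0 : (0 : ℝ) < K := by exact_mod_cast hK1
  have hJ0 : (0 : ℝ) < J := by linarith
  have hJr : (1 : ℝ) ≤ J := by linarith
  have hHKr : (H : ℝ) ≤ 3 * (u * K) := by exact_mod_cast hHK
  have hKHr : 2 * ((u : ℝ) * K) ≤ H + 4 * u := by exact_mod_cast hKH
  have hH4u : 4 * (u : ℝ) ≤ H := by
    calc 4 * (u : ℝ) ≤ Real.exp (1 / 10 * L) * Real.exp (1 / 2 * L) := by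
          apply mul_le_mul g3 _ hu0.le (Real.exp_pos _).le
          rw [← hxe]
          exact hux
      _ = Real.exp (3 / 5 * L) := by
          rw [← Real.exp_add]
          congr 1
          ring
      _ ≤ H := hXH
  have huKH : (u : ℝ) * K ≤ H := by linarith
  have hPD : 0 < L ^ D₁ := by positivity
  have hPD1 : 1 ≤ L ^ D₁ := one_le_pow₀ hL1
  -- the length of the blocks
  obtain ⟨K₂, hK₂⟩ : ∃ K₂ : ℕ, K₂ = ⌊(u : ℝ) / L ^ D₁⌋₊ := ⟨_, rfl⟩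
  obtain ⟨K₁, hK₁⟩ : ∃ K₁ : ℕ, K₁ = min K K₂ := ⟨_, rfl⟩
  have hK2a : (K₂ : ℝ) ≤ u / L ^ D₁ := by rw [hK₂]; exact Nat.floor_le (by positivity)
  have hK2b : (u : ℝ) / L ^ D₁ < K₂ + 1 := by rw [hK₂]; exact Nat.lt_floor_add_one _
  have hux3 : 8 * (L ^ D₁ * L ^ D₁) ≤ Real.exp (1 / 3 * L) := by
    have e : L ^ D₁ * L ^ D₁ = L ^ (2 * D₁) := by rw [← pow_add]; congr 1; ring
    rw [e]
    exact g4
  have hxx : Real.exp (1 / 3 * L) ≤ x := by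
    rw [hxe]
    exact Real.exp_le_exp.2 (by linarith)
  have hu4D : 4 * (L ^ D₁ * L ^ D₁) ≤ u := by linarith
  have hK2c : 2 * L ^ D₁ ≤ u / L ^ D₁ := by
    rw [le_div_iff₀ hPD]
    have : 0 ≤ L ^ D₁ * L ^ D₁ := by positivity
    calc 2 * L ^ D₁ * L ^ D₁ = 2 * (L ^ D₁ * L ^ D₁) := by ring
      _ ≤ u := by linarith
  have hK2d : (u : ℝ) / L ^ D₁ / 2 ≤ K₂ := by linarith
  have hK2e : L ^ D₁ ≤ K₂ := by linarith
  have hKe : L ^ D₁ ≤ K := by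
    have h5 : Real.exp (3 / 5 * L) ≤ 3 * (x * K) := by
      refine hXH.trans (hHKr.trans ?_)
      gcongr
    have h6 : Real.exp (3 / 5 * L) = x * Real.exp (1 / 10 * L) := by
      rw [hxe, ← Real.exp_add]
      congr 1
      ring
    rw [h6] at h5
    have h7 : x * Real.exp (1 / 10 * L) ≤ x * (3 * K) := by linarith
    have h8 := le_of_mul_le_mul_left h7 hx0
    linarith
  have hK1K : K₁ ≤ K := by rw [hK₁]; exact min_le_left _ _
  have hK1K2 : K₁ ≤ K₂ := by rw [hK₁]; exact min_le_right _ _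
  have hK1cases : K₁ = K ∨ K₁ = K₂ := by
    rw [hK₁]
    exact min_choice K K₂
  have hK1e : L ^ D₁ ≤ K₁ := by
    rcases hK1cases with h | h
    · rw [h]; exact hKe
    · rw [h]; exact hK2e
  have hK1r : (0 : ℝ) < K₁ := by linarith
  have hK1n : 0 < K₁ := by exact_mod_cast hK1r
  have hK1a : (K₁ : ℝ) * L ^ D₁ ≤ u := by
    have h5 : (K₁ : ℝ) ≤ u / L ^ D₁ := le_trans (by exact_mod_cast hK1K2) hK2a
    rwa [le_div_iff₀ hPD] at h5
  obtain ⟨r, hr⟩ : ∃ r : ℕ, r = K / K₁ + 1 := ⟨_, rfl⟩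
  have hr1 : K ≤ r * K₁ := by
    rw [hr]
    have := Nat.lt_mul_div_succ K hK1n
    calc K ≤ K₁ * (K / K₁ + 1) := this.le
      _ = _ := by ring
  have hr2 : r * K₁ ≤ 2 * K := by
    rw [hr, Nat.add_mul, one_mul]
    have := Nat.div_mul_le_self K K₁
    omega
  have hJL : J * L ^ D₁ ≤ u / 50 := by
    have h5 : J * L ^ D₁ * L ≤ x := by
      calc J * L ^ D₁ * L = J * L ^ (D₁ + 1) := by ring
        _ ≤ x := hJD
    have h6 : J * L ^ D₁ * 100 ≤ J * L ^ D₁ * L := by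
      apply mul_le_mul_of_nonneg_left hL100
      positivity
    linarith
  have hJ3K : (J : ℝ) ≤ 3 * K := by
    have h5 : x * J ≤ x * (3 * K) := by
      calc x * J = J * x := by ring
        _ ≤ H := hJx
        _ ≤ 3 * (u * K) := hHKr
        _ ≤ 3 * (x * K) := by gcongr
        _ = x * (3 * K) := by ring
    exact le_of_mul_le_mul_left h5 hx0
  have hJ3K1 : J ≤ 3 * K₁ := by
    have h5 : (J : ℝ) ≤ 3 * K₁ := by
      rcases hK1cases with h | h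
      · rw [h]; exact hJ3K
      · rw [h]
        have h6 : (J : ℝ) ≤ u / L ^ D₁ / 50 := by
          rw [div_div, le_div_iff₀ (by positivity)]
          linarith
        have h7 : 0 ≤ u / L ^ D₁ := by positivity
        linarith
    exact_mod_cast h5
  have hJK13 : 2 * (((u : ℝ) * J) ^ (1 / 3 : ℝ) * L ^ D₁) ≤ J * K₁ := by
    rcases hK1cases with h | h
    · rw [h]
      -- the first case
      have hu23 : Real.exp (2 / 3 * L) = x ^ (4 / 3 : ℝ) := by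
        rw [hxe, ← Real.exp_mul]
        congr 1
        ring
      rw [hu23] at hJH
      have h5 : (u : ℝ) ^ (4 / 3 : ℝ) * L ^ (D₁ + 1) ≤ 3 * (u * K) * (J : ℝ) ^ (2 / 3 : ℝ) := by
        calc (u : ℝ) ^ (4 / 3 : ℝ) * L ^ (D₁ + 1) ≤ x ^ (4 / 3 : ℝ) * L ^ (D₁ + 1) := by gcongr
          _ ≤ H * (J : ℝ) ^ (2 / 3 : ℝ) := hJH
          _ ≤ 3 * (u * K) * (J : ℝ) ^ (2 / 3 : ℝ) := by gcongr
      have e1 : (u : ℝ) ^ (4 / 3 : ℝ) = u * (u : ℝ) ^ (1 / 3 : ℝ) := by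
        rw [← Real.rpow_one_add' hu0.le (by norm_num)]
        norm_num
      have e2 : (J : ℝ) = (J : ℝ) ^ (2 / 3 : ℝ) * (J : ℝ) ^ (1 / 3 : ℝ) := by
        rw [← Real.rpow_add hJ0]
        norm_num
      rw [e1] at h5
      have h6 : (u : ℝ) ^ (1 / 3 : ℝ) * L ^ (D₁ + 1) ≤ 3 * K * (J : ℝ) ^ (2 / 3 : ℝ) := by
        have h7 : (u : ℝ) * ((u : ℝ) ^ (1 / 3 : ℝ) * L ^ (D₁ + 1)) ≤ u * (3 * K * (J : ℝ) ^ (2 / 3 : ℝ)) := by
          calc (u : ℝ) * ((u : ℝ) ^ (1 / 3 : ℝ) * L ^ (D₁ + 1)) = u * (u : ℝ) ^ (1 / 3 : ℝ) * L ^ (D₁ + 1) := by ring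
            _ ≤ 3 * (u * K) * (J : ℝ) ^ (2 / 3 : ℝ) := h5
            _ = _ := by ring
        exact le_of_mul_le_mul_left h7 hu0
      have hJ13 : 0 < (J : ℝ) ^ (1 / 3 : ℝ) := Real.rpow_pos_of_pos hJ0 _
      have h8 : ((u : ℝ) * J) ^ (1 / 3 : ℝ) * L ^ (D₁ + 1) ≤ 3 * K * J := by
        rw [Real.mul_rpow hu0.le hJ0.le]
        calc (u : ℝ) ^ (1 / 3 : ℝ) * (J : ℝ) ^ (1 / 3 : ℝ) * L ^ (D₁ + 1) =
            ((u : ℝ) ^ (1 / 3 : ℝ) * L ^ (D₁ + 1)) * (J : ℝ) ^ (1 / 3 : ℝ) := by ring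
          _ ≤ (3 * K * (J : ℝ) ^ (2 / 3 : ℝ)) * (J : ℝ) ^ (1 / 3 : ℝ) := by gcongr
          _ = 3 * K * ((J : ℝ) ^ (2 / 3 : ℝ) * (J : ℝ) ^ (1 / 3 : ℝ)) := by ring
          _ = 3 * K * J := by rw [← e2]
      have h9 : 0 ≤ ((u : ℝ) * J) ^ (1 / 3 : ℝ) * L ^ D₁ := by positivity
      have h10 : ((u : ℝ) * J) ^ (1 / 3 : ℝ) * L ^ D₁ * 100 ≤ ((u : ℝ) * J) ^ (1 / 3 : ℝ) * L ^ D₁ * L :=
        mul_le_mul_of_nonneg_left hL100 h9
      have e3 : ((u : ℝ) * J) ^ (1 / 3 : ℝ) * L ^ D₁ * L = ((u : ℝ) * J) ^ (1 / 3 : ℝ) * L ^ (D₁ + 1) := by ring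
      rw [e3] at h10
      have h11 : 0 ≤ (K : ℝ) * J := by positivity
      linarith
    · rw [h]
      obtain ⟨y, hy⟩ : ∃ y : ℝ, y = (u : ℝ) * J := ⟨_, rfl⟩
      have hy0 : 0 < y := by rw [hy]; positivity
      have huy : (u : ℝ) ≤ y := by
        rw [hy]
        exact le_mul_of_one_le_right hu0.le hJr
      have h5 : 4 * (L ^ D₁ * L ^ D₁) ≤ y ^ (2 / 3 : ℝ) := by
        have h6 : Real.exp (1 / 3 * L) = x ^ (2 / 3 : ℝ) := by
          rw [hxe, ← Real.exp_mul]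
          congr 1
          ring
        have h7 : x ^ (2 / 3 : ℝ) ≤ 2 * y ^ (2 / 3 : ℝ) := by
          calc x ^ (2 / 3 : ℝ) ≤ (2 * y) ^ (2 / 3 : ℝ) := by
                apply Real.rpow_le_rpow hx0.le _ (by norm_num)
                linarith
            _ = (2 : ℝ) ^ (2 / 3 : ℝ) * y ^ (2 / 3 : ℝ) := Real.mul_rpow (by norm_num) hy0.le
            _ ≤ 2 * y ^ (2 / 3 : ℝ) := by
                apply mul_le_mul_of_nonneg_right _ (by positivity)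
                calc (2 : ℝ) ^ (2 / 3 : ℝ) ≤ (2 : ℝ) ^ (1 : ℝ) :=
                      Real.rpow_le_rpow_of_exponent_le (by norm_num) (by norm_num)
                  _ = 2 := Real.rpow_one _
        rw [h6] at hux3
        linarith
      have e2 : y = y ^ (2 / 3 : ℝ) * y ^ (1 / 3 : ℝ) := by
        rw [← Real.rpow_add hy0]
        norm_num
      rw [← hy]
      have hy13 : 0 < y ^ (1 / 3 : ℝ) := Real.rpow_pos_of_pos hy0 _
      calc 2 * (y ^ (1 / 3 : ℝ) * L ^ D₁) = 4 * (L ^ D₁ * L ^ D₁) * y ^ (1 / 3 : ℝ) / (2 * L ^ D₁) := by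
            field_simp
            ring
        _ ≤ y ^ (2 / 3 : ℝ) * y ^ (1 / 3 : ℝ) / (2 * L ^ D₁) := by gcongr
        _ = y / (2 * L ^ D₁) := by rw [← e2]
        _ = J * (u / L ^ D₁ / 2) := by
            rw [hy]
            field_simp
        _ ≤ J * K₂ := by gcongr
  -- the blocks
  obtain ⟨T, hT⟩ : ∃ T : Finset ℕ, T = Ioc X (X + H) \ Ex := ⟨_, rfl⟩
  rw [← hT]
  have hTm : ∀ n ∈ T, u ≤ Nat.sqrt n ∧ Nat.sqrt n < u + K ∧ n ∈ Ioc X (X + H) ∧ n ∉ Ex := by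
    intro n hn
    rw [hT, Finset.mem_sdiff] at hn
    have h5 := hsub hn.1
    rw [mem_Ico] at h5
    exact ⟨Nat.le_sqrt'.2 h5.1, Nat.sqrt_lt'.2 h5.2, hn.1, hn.2⟩
  have hmaps : ∀ n ∈ T, (Nat.sqrt n - u) / K₁ ∈ range r := by
    intro n hn
    obtain ⟨k1, k2, -, -⟩ := hTm n hn
    rw [mem_range, Nat.div_lt_iff_lt_mul hK1n]
    omega
  rw [← Finset.sum_fiberwise_of_maps_to hmaps]
  have hblock : ∀ i ∈ range r, ∑ n ∈ T.filter (fun n => (Nat.sqrt n - u) / K₁ = i), (devn (SS n) J n) ^ 2 ≤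
      90000000 * (u * K₁ * J / L) + 3 * 3 ^ (A + 1) * (u * K₁ * (J : ℝ) ^ 2 / L ^ (A + 1)) := by
    intro i hi
    rw [mem_range] at hi
    obtain ⟨v, hv⟩ : ∃ v : ℕ, v = u + i * K₁ := ⟨_, rfl⟩
    have h5 : i * K₁ ≤ 2 * K := by
      have : i * K₁ ≤ r * K₁ := Nat.mul_le_mul_right _ hi.le
      omega
    have hv3 : v ≤ 3 * u := by omega
    have huv : u ≤ v := by omega
    have hv3r : (v : ℝ) ≤ 3 * u := by exact_mod_cast hv3
    have huvr : (u : ℝ) ≤ v := by exact_mod_cast huv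
    have hv0 : (0 : ℝ) < v := by linarith
    obtain ⟨ℓ, hℓ⟩ : ∃ ℓ : ℝ, ℓ = Real.log v := ⟨_, rfl⟩
    have hℓL : ℓ ≤ L := by
      rw [hℓ, hL]
      apply Real.log_le_log hv0
      have h6 : 3 * u ≤ u ^ 2 := by
        rw [sq]
        exact Nat.mul_le_mul_right _ (by omega)
      exact_mod_cast (hv3.trans h6).trans hu2
    have hLℓ : L ≤ 3 * ℓ := by
      have e : (3 : ℝ) * Real.log v = Real.log ((v : ℝ) ^ 3) := by
        rw [Real.log_pow]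
        norm_num
      rw [hℓ, hL, e]
      apply Real.log_le_log hX0
      have h6 : (u + 1) ^ 2 ≤ u ^ 3 := by
        obtain ⟨k, hk⟩ : ∃ k : ℕ, u = k + 4 := ⟨u - 4, by omega⟩
        rw [hk]
        have : (k + 4) ^ 3 = (k + 4 + 1) ^ 2 + (k ^ 3 + 11 * k ^ 2 + 38 * k + 39) := by ring
        omega
      have h7 : u ^ 3 ≤ v ^ 3 := Nat.pow_le_pow_left huv 3
      exact_mod_cast (hu2'.le.trans h6).trans h7
    have hℓ0 : 0 < ℓ := by linarith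
    have hℓ1 : 1 ≤ ℓ := by linarith
    have hℓk : ∀ k : ℕ, ℓ ^ k ≤ L ^ k := fun k => pow_le_pow_left₀ hℓ0.le hℓL k
    have h6 := h1 v (by omega) z (by
      rw [← hℓ]
      calc ℓ ^ B₀ ≤ L ^ B₀ := hℓk _
        _ ≤ L ^ B' := pow_le_pow_right₀ hL1 (by omega)
        _ ≤ z := hzlo) (by
      rw [← hℓ]
      calc (z : ℝ) ≤ L ^ (B' + 1) := hzhi
        _ ≤ (3 * ℓ) ^ (B' + 1) := pow_le_pow_left₀ hL0.le hLℓ _
        _ = 3 ^ (B' + 1) * ℓ ^ (B' + 1) := mul_pow _ _ _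
        _ ≤ ℓ * ℓ ^ (B' + 1) := by
            apply mul_le_mul_of_nonneg_right _ (by positivity)
            have e1 : (3 : ℝ) ^ (B' + 3) = 9 * 3 ^ (B' + 1) := by
              rw [pow_add 3 B' 3, pow_add 3 B' 1]
              ring
            have : (0 : ℝ) < 3 ^ (B' + 1) := by positivity
            linarith
        _ = ℓ ^ (B' + 2) := by ring) K₁ J (by rw [← hℓ]; linarith) (by
      rw [← hℓ]
      calc (J : ℝ) * ℓ ^ D₁ ≤ J * L ^ D₁ := by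
            apply mul_le_mul_of_nonneg_left (hℓk _) hJ0.le
        _ ≤ u / 50 := hJL
        _ ≤ v := by linarith) (by
      rw [← hℓ]
      calc (K₁ : ℝ) * ℓ ^ D₁ ≤ K₁ * L ^ D₁ := by
            apply mul_le_mul_of_nonneg_left (hℓk _) hK1r.le
        _ ≤ v := by linarith) (by rw [← hℓ]; exact (hℓk _).trans hK1e) hJ3K1 (by
      rw [← hℓ]
      have h7 : ((v : ℝ) * J) ^ (1 / 3 : ℝ) ≤ 2 * ((u : ℝ) * J) ^ (1 / 3 : ℝ) := by
        calc ((v : ℝ) * J) ^ (1 / 3 : ℝ) ≤ (8 * (u * J)) ^ (1 / 3 : ℝ) := by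
              apply Real.rpow_le_rpow (by positivity) _ (by norm_num)
              calc (v : ℝ) * J ≤ 3 * u * J := by gcongr
                _ = 3 * (u * J) := by ring
                _ ≤ 8 * (u * J) := by
                    apply mul_le_mul_of_nonneg_right (by norm_num) (by positivity)
          _ = (8 : ℝ) ^ (1 / 3 : ℝ) * ((u : ℝ) * J) ^ (1 / 3 : ℝ) := Real.mul_rpow (by norm_num) (by positivity)
          _ = 2 * ((u : ℝ) * J) ^ (1 / 3 : ℝ) := by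
              congr 1
              rw [show (8 : ℝ) = 2 ^ (3 : ℝ) by norm_num, ← Real.rpow_mul (by norm_num)]
              norm_num
      calc ((v : ℝ) * J) ^ (1 / 3 : ℝ) * ℓ ^ D₁ ≤ 2 * ((u : ℝ) * J) ^ (1 / 3 : ℝ) * L ^ D₁ :=
            mul_le_mul h7 (hℓk _) (by positivity) (by positivity)
        _ = 2 * (((u : ℝ) * J) ^ (1 / 3 : ℝ) * L ^ D₁) := by ring
        _ ≤ J * K₁ := hJK13) (T.filter (fun n => (Nat.sqrt n - u) / K₁ = i)) SS (by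
      intro n hn
      rw [mem_filter] at hn
      obtain ⟨k1, k2, -, -⟩ := hTm n hn.1
      have h7 : i * K₁ ≤ Nat.sqrt n - u := by
        rw [← hn.2]
        exact Nat.div_mul_le_self _ _
      have h8 : Nat.sqrt n - u < (i + 1) * K₁ := by
        rw [← hn.2, mul_comm]
        exact Nat.lt_mul_div_succ _ hK1n
      have e4 : (i + 1) * K₁ = i * K₁ + K₁ := by ring
      rw [mem_Ico, ← Nat.le_sqrt', ← Nat.sqrt_lt']
      omega) (by
      intro n hn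
      rw [mem_filter] at hn
      obtain ⟨-, -, k3, k4⟩ := hTm n hn.1
      obtain ⟨m1, -, m2, -⟩ := hS n k3 k4
      refine ⟨m1, m2.trans ?_⟩
      rw [← hℓ]
      apply div_le_div_of_nonneg_left (by norm_num) (by positivity)
      exact hℓk _)
    rw [← hℓ] at h6
    refine h6.trans ?_
    have h7 : (v : ℝ) * K₁ * J / ℓ ≤ 9 * (u * K₁ * J / L) := by
      rw [div_le_iff₀ hℓ0]
      have e5 : 9 * (u * K₁ * J / L) * ℓ = (3 * u * K₁ * J) * (3 * ℓ / L) := by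
        field_simp
        ring
      rw [e5]
      have h8 : 1 ≤ 3 * ℓ / L := by
        rw [one_le_div hL0]
        exact hLℓ
      calc (v : ℝ) * K₁ * J ≤ 3 * u * K₁ * J := by gcongr
        _ ≤ (3 * u * K₁ * J) * (3 * ℓ / L) := le_mul_of_one_le_right (by positivity) h8
    have h8 : (v : ℝ) * K₁ * (J : ℝ) ^ 2 / ℓ ^ (A + 1) ≤ 3 * 3 ^ (A + 1) * (u * K₁ * (J : ℝ) ^ 2 / L ^ (A + 1)) := by
      have h9 : L ^ (A + 1) ≤ 3 ^ (A + 1) * ℓ ^ (A + 1) := by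
        rw [← mul_pow]
        exact pow_le_pow_left₀ hL0.le hLℓ _
      rw [div_le_iff₀ (by positivity)]
      have e5 : 3 * 3 ^ (A + 1) * (u * K₁ * (J : ℝ) ^ 2 / L ^ (A + 1)) * ℓ ^ (A + 1) =
          (3 * u * K₁ * (J : ℝ) ^ 2) * (3 ^ (A + 1) * ℓ ^ (A + 1) / L ^ (A + 1)) := by
        field_simp
      rw [e5]
      have h10 : 1 ≤ 3 ^ (A + 1) * ℓ ^ (A + 1) / L ^ (A + 1) := by
        rw [one_le_div (by positivity)]
        exact h9
      calc (v : ℝ) * K₁ * (J : ℝ) ^ 2 ≤ 3 * u * K₁ * (J : ℝ) ^ 2 := by gcongr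
        _ ≤ _ := le_mul_of_one_le_right (by positivity) h10
    linarith
  refine (Finset.sum_le_sum hblock).trans ?_
  rw [Finset.sum_const, card_range, nsmul_eq_mul]
  have hr2r : (r : ℝ) * K₁ ≤ 2 * K := by exact_mod_cast hr2
  have e6 : (r : ℝ) * (90000000 * (u * K₁ * J / L) + 3 * 3 ^ (A + 1) * (u * K₁ * (J : ℝ) ^ 2 / L ^ (A + 1))) =
      (r * K₁) * (u * (90000000 * (J / L) + 3 * 3 ^ (A + 1) * ((J : ℝ) ^ 2 / L ^ (A + 1)))) := by ring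
  rw [e6]
  have h11 : (r * K₁) * (u * (90000000 * (J / L) + 3 * 3 ^ (A + 1) * ((J : ℝ) ^ 2 / L ^ (A + 1)))) ≤
      (2 * K) * (u * (90000000 * (J / L) + 3 * 3 ^ (A + 1) * ((J : ℝ) ^ 2 / L ^ (A + 1)))) :=
    mul_le_mul_of_nonneg_right hr2r (by positivity)
  refine h11.trans ?_
  have h12 : (2 * K) * (u * (90000000 * (J / L) + 3 * 3 ^ (A + 1) * ((J : ℝ) ^ 2 / L ^ (A + 1)))) =
      (u * K) * (180000000 * (J / L)) + (u * K) * (6 * 3 ^ (A + 1) * ((J : ℝ) ^ 2 / L ^ (A + 1))) := by ring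
  rw [h12]
  have h13 : (u * K) * (180000000 * (J / L)) ≤ 200000000 * (H * J / L) := by
    calc (u * K) * (180000000 * (J / L)) ≤ H * (200000000 * (J / L)) := by
          apply mul_le_mul huKH _ (by positivity) hH0.le
          apply mul_le_mul_of_nonneg_right (by norm_num) (by positivity)
      _ = _ := by ring
  have h14 : (u * K) * (6 * 3 ^ (A + 1) * ((J : ℝ) ^ 2 / L ^ (A + 1))) ≤ H * (J : ℝ) ^ 2 / L ^ A := by
    calc (u * K) * (6 * 3 ^ (A + 1) * ((J : ℝ) ^ 2 / L ^ (A + 1))) ≤ H * (L * ((J : ℝ) ^ 2 / L ^ (A + 1))) := by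
          apply mul_le_mul huKH _ (by positivity) hH0.le
          apply mul_le_mul_of_nonneg_right hLA (by positivity)
      _ = H * (J : ℝ) ^ 2 / L ^ A := by
          rw [pow_succ L A]
          field_simp
  linarith

end Pool.Agent.K9h19.CR
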