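import Pool.Agent.K9h19.CR.QU6

/-!
# Prime plus square: almost all the integers
-/

set_option autoImplicit false

namespace Pool.Agent.K9h19.CR

open Finset Filter Topology
open Pool.Agent.Q236.CR
open Pool.Agent.H373R2.T7 (lamz Vz pz Vz_pos Vz_inv_small nuB mem_pz PerB)

theorem val_bd {n t : ℕ} (ht : 1 ≤ t) (hts : t ≤ Nat.sqrt n) :
    Nat.sqrt n ≤ n - (Nat.sqrt n - t) ^ 2 ∧ n - (Nat.sqrt n - t) ^ 2 ≤ n := by
  obtain ⟨s, hs⟩ : ∃ s : ℕ, s = Nat.sqrt n := ⟨_, rfl⟩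
  have h1 : s ^ 2 ≤ n := by rw [hs]; exact Nat.sqrt_le' n
  rw [← hs] at hts ⊢
  refine ⟨?_, Nat.sub_le _ _⟩
  have h2 : (s - t) ^ 2 + s ≤ s ^ 2 := by
    obtain ⟨r, hr⟩ : ∃ r : ℕ, s = r + 1 := ⟨s - 1, by omega⟩
    have h3 : (s - t) ^ 2 ≤ (s - t) * s := by
      rw [sq]
      exact Nat.mul_le_mul_left _ (by omega)
    have h4 : (s - t) * s ≤ r * s := Nat.mul_le_mul_right _ (by omega)
    have h5 : r * s + s = s ^ 2 := by
      rw [hr]
      ring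
    omega
  omega

/-- if the deviation is small, then there is a prime -/
theorem devn_prime {S δ L : ℝ} {J n : ℕ} (hJ : 1 ≤ J) (hJn : J ≤ Nat.sqrt n) (hn : 9 ≤ n) (hL : 0 < L) (hδ : 0 < δ)
    (hS : δ ≤ S) (hlog : Real.log n ≤ 2 * L) (h : |devn S J n| ≤ δ / 3 * (J / L)) :
    ∃ t ∈ Icc 1 J, (n - (Nat.sqrt n - t) ^ 2).Prime := by
  by_contra hno
  push Not at hno
  have hy0 : (0 : ℝ) < J := by exact_mod_cast hJ
  have h3 : 3 ≤ Nat.sqrt n := Nat.le_sqrt'.2 (by omega)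
  have hb : ∀ t ∈ Icc 1 J, 0 < Real.log ((n - (Nat.sqrt n - t) ^ 2 : ℕ) : ℝ) ∧
      Real.log ((n - (Nat.sqrt n - t) ^ 2 : ℕ) : ℝ) ≤ 2 * L := by
    intro t ht
    rw [mem_Icc] at ht
    obtain ⟨h4, h5⟩ := val_bd ht.1 (by omega : t ≤ Nat.sqrt n)
    have h6 : (3 : ℝ) ≤ ((n - (Nat.sqrt n - t) ^ 2 : ℕ) : ℝ) := by exact_mod_cast h3.trans h4
    refine ⟨Real.log_pos (by linarith), le_trans ?_ hlog⟩
    apply Real.log_le_log (by linarith)
    exact_mod_cast h5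
  have e0 : ((Icc 1 J).filter (fun t : ℕ => (n - (Nat.sqrt n - t) ^ 2).Prime)).card = 0 := by
    rw [Finset.card_eq_zero, Finset.filter_eq_empty_iff]
    exact fun t ht => hno t ht
  unfold devn at h
  rw [e0, Nat.cast_zero, zero_sub, abs_neg] at h
  have h1 : (J : ℝ) / (2 * L) ≤ ∑ t ∈ Icc 1 J, 1 / Real.log ((n - (Nat.sqrt n - t) ^ 2 : ℕ) : ℝ) := by
    have e1 : (J : ℝ) / (2 * L) = ∑ _t ∈ Icc 1 J, 1 / (2 * L) := by
      rw [Finset.sum_const, Nat.card_Icc, nsmul_eq_mul, Nat.add_sub_cancel]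
      ring
    rw [e1]
    apply Finset.sum_le_sum
    intro t ht
    exact one_div_le_one_div_of_le (hb t ht).1 (hb t ht).2
  have h2 := (le_abs_self _).trans h
  have h4 : δ * (J / (2 * L)) ≤ δ / 3 * (J / L) :=
    (mul_le_mul hS h1 (by positivity) (hδ.le.trans hS)).trans h2
  have h5 : δ * (J / (2 * L)) = δ / 2 * (J / L) := by
    field_simp
  have h6 : 0 < δ * (J / L) := by positivity
  rw [h5] at h4
  linarith

theorem quad_almost (hcr : S_CHR) (hmo : S_MOC) : ∃ D : ℕ, ∀ ε : ℝ, 0 < ε → ∃ h : ℝ, 0 < h ∧ ∃ X₀ : ℕ,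
    ∀ X : ℕ, X₀ ≤ X → ∀ H : ℕ, H ≤ X → ∀ J : ℕ, h * Real.log X ≤ J →
      J * Real.log X ^ D ≤ Real.sqrt X → J * Real.sqrt X ≤ H →
      (X : ℝ) ^ (2 / 3 : ℝ) * Real.log X ^ D ≤ H * (J : ℝ) ^ (2 / 3 : ℝ) →
      ∃ Bad : Finset ℕ, (Bad.card : ℝ) ≤ ε * H ∧ ∀ n ∈ Ioc X (X + H), n ∉ Bad →
        Tendsto (fun z : ℕ => Szn n z) atTop (𝓝 (SS n)) ∧ |devn (SS n) J n| ≤ ε * (J / Real.log X) ∧
          J ≤ Nat.sqrt n ∧ ∃ t ∈ Icc 1 J, (n - (Nat.sqrt n - t) ^ 2).Prime := by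
  classical
  obtain ⟨D, E, X₁, h1⟩ := quad_var hcr hmo 3
  refine ⟨D, fun ε hε => ?_⟩
  obtain ⟨g, hg⟩ : ∃ g : ℝ, g = 200000000 := ⟨_, rfl⟩
  have hg0 : 0 < g := by rw [hg]; norm_num
  obtain ⟨z₀, hz₀⟩ : ∃ z₀ : ℕ, z₀ = ⌈36 / ε⌉₊ + 4 := ⟨_, rfl⟩
  have hz0 : 4 ≤ z₀ := by rw [hz₀]; exact Nat.le_add_left _ _
  have hz0ε : 12 / (z₀ : ℝ) ≤ ε / 3 := by
    have h2 : 36 / ε ≤ z₀ := by
      refine (Nat.le_ceil _).trans ?_
      rw [hz₀]
      push_cast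
      linarith
    have h3 : (0 : ℝ) < z₀ := by exact_mod_cast (by omega : 0 < z₀)
    rw [div_le_iff₀ hε] at h2
    rw [div_le_div_iff₀ h3 (by norm_num)]
    linarith
  obtain ⟨δ, hδ⟩ : ∃ δ : ℝ, δ = kap 1 z₀ / 2 := ⟨_, rfl⟩
  have hδ0 : 0 < δ := by
    rw [hδ]
    have := kap_pos one_pos z₀
    positivity
  obtain ⟨η, hη⟩ : ∃ η : ℝ, η = min ε (δ / 3) := ⟨_, rfl⟩
  have hη0 : 0 < η := by
    rw [hη]
    exact lt_min hε (by positivity)
  have hηε : η ≤ ε := by rw [hη]; exact min_le_left _ _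
  have hηδ : η ≤ δ / 3 := by rw [hη]; exact min_le_right _ _
  obtain ⟨X₂, h2⟩ := low_Szn E z₀ hz0
  obtain ⟨X₃, hX₃⟩ := ev_natlog (P := fun l => 100 + 3 / ε + 6 / (η ^ 2 * ε) + z₀ ≤ l)
    (eventually_ge_atTop (100 + 3 / ε + 6 / (η ^ 2 * ε) + z₀))
  obtain ⟨h, hh⟩ : ∃ h : ℝ, h = 6 * g / (η ^ 2 * ε) + 1 := ⟨_, rfl⟩
  refine ⟨h, by rw [hh]; positivity, X₁ + X₂ + X₃ + 16, fun X hX H hHX J hJ hJD hJx hJH => ?_⟩
  have g1 := hX₃ X (by omega)
  have hX0 : (0 : ℝ) < X := by exact_mod_cast (by omega : 0 < X)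
  have hX1 : (1 : ℝ) ≤ X := by exact_mod_cast (by omega : 1 ≤ X)
  have hh1 : 1 ≤ h := by
    rw [hh]
    have : 0 ≤ 6 * g / (η ^ 2 * ε) := by positivity
    linarith
  obtain ⟨L, hL⟩ : ∃ L : ℝ, L = Real.log X := ⟨_, rfl⟩
  have p1 : 0 < 3 / ε := by positivity
  have p2 : 0 < 6 / (η ^ 2 * ε) := by positivity
  have p3 : (0 : ℝ) ≤ z₀ := Nat.cast_nonneg _
  have hJL : Real.log X ≤ J := by
    refine le_trans ?_ hJ
    apply le_mul_of_one_le_left _ hh1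
    linarith
  obtain ⟨x, hx⟩ : ∃ x : ℝ, x = Real.sqrt X := ⟨_, rfl⟩
  have hxX : x ^ 2 = X := by rw [hx]; exact Real.sq_sqrt hX0.le
  have hx0 : 0 < x := by rw [hx]; exact Real.sqrt_pos.2 hX0
  have hx1 : 1 ≤ x := by rw [hx]; exact Real.one_le_sqrt.2 hX1
  have hJ0 : (0 : ℝ) < J := by linarith
  -- the length of the interval
  have hXH : (X : ℝ) ^ (3 / 5 : ℝ) ≤ H := by
    have hH0 : (0 : ℝ) < H := lt_of_lt_of_le (by rw [hx] at hx0; positivity) hJx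
    have h5 : (J : ℝ) ≤ H / x := by
      rw [le_div_iff₀ hx0, hx]
      exact hJx
    have h6 : (X : ℝ) ^ (2 / 3 : ℝ) ≤ H * (H / x) ^ (2 / 3 : ℝ) := by
      have hD1 : 1 ≤ Real.log X ^ D := one_le_pow₀ (by linarith)
      calc (X : ℝ) ^ (2 / 3 : ℝ) = (X : ℝ) ^ (2 / 3 : ℝ) * 1 := (mul_one _).symm
        _ ≤ (X : ℝ) ^ (2 / 3 : ℝ) * Real.log X ^ D := by gcongr
        _ ≤ H * (J : ℝ) ^ (2 / 3 : ℝ) := hJH
        _ ≤ H * (H / x) ^ (2 / 3 : ℝ) := by gcongr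
    have hx23 : x ^ (2 / 3 : ℝ) = (X : ℝ) ^ (1 / 3 : ℝ) := by
      rw [hx, Real.sqrt_eq_rpow, ← Real.rpow_mul hX0.le]
      norm_num
    rw [Real.div_rpow hH0.le hx0.le, hx23, ← mul_div_assoc, le_div_iff₀ (by positivity)] at h6
    have e1 : (X : ℝ) ^ (2 / 3 : ℝ) * (X : ℝ) ^ (1 / 3 : ℝ) = X := by
      rw [← Real.rpow_add hX0]
      norm_num
    have e2 : (H : ℝ) * (H : ℝ) ^ (2 / 3 : ℝ) = (H : ℝ) ^ (5 / 3 : ℝ) := by
      rw [← Real.rpow_one_add' hH0.le (by norm_num)]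
      norm_num
    rw [e1, e2] at h6
    calc (X : ℝ) ^ (3 / 5 : ℝ) ≤ ((H : ℝ) ^ (5 / 3 : ℝ)) ^ (3 / 5 : ℝ) := Real.rpow_le_rpow hX0.le h6 (by norm_num)
      _ = H := by
          rw [← Real.rpow_mul hH0.le]
          norm_num
  have hXH' : (X : ℝ) ^ (4 / 7 : ℝ) ≤ H := by
    refine le_trans ?_ hXH
    exact Real.rpow_le_rpow_of_exponent_le hX1 (by norm_num)
  obtain ⟨Ex, hE1, hE2, ⟨z, hzL, hzE, hSz⟩, hvar⟩ := h1 X (by omega) H hHX hXH
  have hvar' := hvar J hJL hJD hJx hJH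
  rw [← hg] at hvar'
  rw [← hL] at g1 hzL hzE hE1 hvar' hJL hJ ⊢
  have hL100 : 100 ≤ L := by linarith
  have hLε : 3 / ε ≤ L := by linarith
  have hLη : 6 / (η ^ 2 * ε) ≤ L := by linarith
  have hL0 : 0 < L := by linarith
  have hL1 : 1 ≤ L := by linarith
  have hzz : z₀ ≤ z := by
    have : (z₀ : ℝ) ≤ z := by linarith
    exact_mod_cast this
  have hJn : 1 ≤ J := by exact_mod_cast hJ0
  have hH0 : (0 : ℝ) < H := lt_of_lt_of_le (Real.rpow_pos_of_pos hX0 _) hXH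
  obtain ⟨Bd, hBd1, hBd2⟩ := h2 X (by omega) z hzz (by rw [← hL]; exact hzE) (H + 1) (by push_cast; linarith)
  obtain ⟨C₁, hC₁⟩ : ∃ C₁ : Finset ℕ, C₁ = (Ioc X (X + H) \ Ex).filter (fun n => η * (J / L) < |devn (SS n) J n|) := ⟨_, rfl⟩
  have hJsx : (J : ℝ) ≤ x := by
    have hD1 : 1 ≤ Real.log X ^ D := one_le_pow₀ (by rw [← hL]; exact hL1)
    calc (J : ℝ) = J * 1 := (mul_one _).symm
      _ ≤ J * Real.log X ^ D := by gcongr
      _ ≤ Real.sqrt X := hJD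
      _ = x := hx.symm
  refine ⟨Ex ∪ C₁ ∪ Bd, ?_, ?_⟩
  · have k1 : (Ex.card : ℝ) ≤ ε / 4 * H := by
      refine hE1.trans ?_
      have h3 : 1 / L ^ 3 ≤ ε / 4 := by
        have h4 : 1 / L ^ 3 ≤ 1 / L ^ 2 := one_div_le_one_div_of_le (by positivity) (pow_le_pow_right₀ hL1 (by norm_num))
        have h5 : 1 / L ^ 2 ≤ ε / 4 := by
          rw [div_le_div_iff₀ (by positivity) (by norm_num)]
          rw [div_le_iff₀ hε] at hLε
          have h6 : 3 * L ≤ L * ε * L := mul_le_mul_of_nonneg_right hLε hL0.le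
          have h7 : L * ε * L = ε * L ^ 2 := by ring
          rw [h7] at h6
          linarith
        linarith
      calc H / L ^ 3 = 1 / L ^ 3 * H := by ring
        _ ≤ ε / 4 * H := by gcongr
    have k2 : (C₁.card : ℝ) ≤ ε / 3 * H := by
      rw [hC₁]
      have h4 := cheb (Ioc X (X + H) \ Ex) (fun n => devn (SS n) J n) (η := η * (J / L)) (by positivity) hvar'
      refine h4.trans ?_
      have e : (g * (H * J / L) + H * (J : ℝ) ^ 2 / L ^ 3) / (η * (J / L)) ^ 2 =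
          (g * L / (η ^ 2 * J) + 1 / (η ^ 2 * L)) * H := by
        field_simp
      rw [e]
      apply mul_le_mul_of_nonneg_right _ hH0.le
      have h5 : g * L / (η ^ 2 * J) ≤ ε / 6 := by
        rw [div_le_div_iff₀ (by positivity) (by norm_num)]
        have h6 : 6 * g / (η ^ 2 * ε) * L ≤ J := by
          refine le_trans ?_ hJ
          apply mul_le_mul_of_nonneg_right _ hL0.le
          rw [hh]
          linarith
        have h7 : 6 * g / (η ^ 2 * ε) * L = (g * L * 6) / (ε * η ^ 2) := by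
          field_simp
        rw [h7, div_le_iff₀ (by positivity)] at h6
        linarith
      have h6 : 1 / (η ^ 2 * L) ≤ ε / 6 := by
        rw [div_le_div_iff₀ (by positivity) (by norm_num)]
        rw [div_le_iff₀ (by positivity)] at hLη
        linarith
      linarith
    have k3 : (Bd.card : ℝ) ≤ ε / 3 * (H + 1) := by
      refine hBd1.trans ?_
      push_cast
      calc 12 * (((H : ℝ) + 1) / z₀) = 12 / (z₀ : ℝ) * (H + 1) := by ring
        _ ≤ ε / 3 * (H + 1) := by gcongr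
    have k4 : ((Ex ∪ C₁ ∪ Bd).card : ℝ) ≤ (Ex.card : ℝ) + C₁.card + Bd.card := by
      have e2 := card_union_le Ex C₁
      have e3 := card_union_le (Ex ∪ C₁) Bd
      exact_mod_cast e3.trans (Nat.add_le_add_right e2 _)
    have h100 : (100 : ℝ) ≤ H := by
      calc (100 : ℝ) ≤ J := by linarith
        _ ≤ J * x := le_mul_of_one_le_right hJ0.le hx1
        _ ≤ H := by rw [hx]; exact hJx
    have h5 : ε / 3 * (H + 1) ≤ ε / 3 * H + ε / 100 * H := by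
      have h6 : ε * 1 ≤ ε * (H / 100) := by
        apply mul_le_mul_of_nonneg_left _ hε.le
        linarith
      linarith
    have h6 : 0 ≤ ε * H := by positivity
    linarith
  · intro n hn hbad
    rw [mem_union, mem_union, not_or, not_or] at hbad
    obtain ⟨⟨n1, n2⟩, n3⟩ := hbad
    have hdev : |devn (SS n) J n| ≤ η * (J / L) := by
      by_contra hcon
      push Not at hcon
      apply n2
      rw [hC₁, mem_filter, Finset.mem_sdiff]
      exact ⟨⟨hn, n1⟩, hcon⟩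
    have hn' := mem_Ioc.1 hn
    have hJsn : J ≤ Nat.sqrt n := by
      rw [Nat.le_sqrt']
      have h5 : (J : ℝ) ^ 2 ≤ x ^ 2 := pow_le_pow_left₀ hJ0.le hJsx 2
      rw [hxX] at h5
      have h6 : J ^ 2 ≤ X := by exact_mod_cast h5
      omega
    refine ⟨(hE2 n hn n1).2, hdev.trans ?_, hJsn, ?_⟩
    · gcongr
    · have k1 := hBd2 n (by rw [mem_Ico]; omega) n3
      have k2 := hSz n hn n1
      have k3 : δ ≤ SS n := by
        rw [hδ]
        linarith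
      refine devn_prime (L := L) (δ := δ) hJn hJsn (by omega) hL0 hδ0 k3 ?_ (hdev.trans (by gcongr))
      have hn0 : (0 : ℝ) < n := by exact_mod_cast (by omega : 0 < n)
      have h5 : (n : ℝ) ≤ (X : ℝ) ^ 2 := by
        have h6 : n ≤ X ^ 2 := by
          have h7 : 2 * X ≤ X ^ 2 := by
            rw [sq]
            exact Nat.mul_le_mul_right _ (by omega)
          omega
        exact_mod_cast h6
      have h6 := Real.log_le_log hn0 h5
      rw [Real.log_pow] at h6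
      rw [hL]
      exact_mod_cast h6

end Pool.Agent.K9h19.CR
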