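import Pool.Agent.K9h19.CR.WIN1

/-!
# Project CR, job WIN, fourth part: from multiplicative windows to additive windows
-/

set_option autoImplicit false

namespace Pool.Agent.K9h19.CR

open Finset Filter Topology MeasureTheory
open scoped ENNReal

/-- sums up to a real number -/
noncomputable def Ps (f : ℕ → ℂ) (t : ℝ) : ℂ := ∑ n ∈ Icc 1 ⌊t⌋₊, f n

theorem Wd_eq (f : ℕ → ℂ) {N : ℕ} {k u : ℝ} (hk : 0 ≤ k) (hN : Real.exp (u + k) ≤ N) :
    Wd f N k u = Ps f (Real.exp (u + k)) - Ps f (Real.exp u) := by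
  unfold Wd Ps
  have h1 : ⌊Real.exp u⌋₊ ≤ ⌊Real.exp (u + k)⌋₊ :=
    Nat.floor_mono (Real.exp_le_exp.2 (by linarith))
  have hfl : ⌊Real.exp (u + k)⌋₊ ≤ N := by
    have := Nat.floor_mono hN
    rwa [Nat.floor_natCast] at this
  have e1 : Icc 1 ⌊Real.exp (u + k)⌋₊ = Icc 1 ⌊Real.exp u⌋₊ ∪
      Ioc ⌊Real.exp u⌋₊ ⌊Real.exp (u + k)⌋₊ := by
    ext n
    simp only [mem_union, mem_Icc, mem_Ioc]
    omega
  have e2 : Disjoint (Icc 1 ⌊Real.exp u⌋₊) (Ioc ⌊Real.exp u⌋₊ ⌊Real.exp (u + k)⌋₊) := by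
    rw [Finset.disjoint_left]
    intro n h4 h5
    rw [mem_Icc] at h4
    rw [mem_Ioc] at h5
    omega
  rw [e1, Finset.sum_union e2, add_sub_cancel_left]
  have e3 : Ioc ⌊Real.exp u⌋₊ ⌊Real.exp (u + k)⌋₊ =
      (Icc 1 N).filter (fun n : ℕ => u < Real.log n ∧ Real.log n ≤ u + k) := by
    ext n
    simp only [mem_Ioc, mem_filter, mem_Icc]
    rcases Nat.eq_zero_or_pos n with rfl | hn
    · constructor
      · rintro ⟨h2, _⟩
        omega
      · rintro ⟨⟨h2, _⟩, _⟩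
        omega
    have hn0 : (0 : ℝ) < n := by exact_mod_cast hn
    rw [Nat.floor_lt (Real.exp_pos _).le, Nat.le_floor_iff (Real.exp_pos _).le,
      Real.lt_log_iff_exp_lt hn0, Real.log_le_iff_le_exp hn0]
    constructor
    · rintro ⟨h2, h3⟩
      refine ⟨⟨hn, ?_⟩, h2, h3⟩
      have := h3.trans hN
      exact_mod_cast this
    · rintro ⟨_, h2, h3⟩
      exact ⟨h2, h3⟩
  rw [e3, Finset.sum_filter]
  apply Finset.sum_congr rfl
  intro n _
  split_ifs <;> simp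

theorem Ps_lip {f : ℕ → ℂ} {β s t : ℝ} {N : ℕ} (hβ : 0 ≤ β) (hf : ∀ n, 1 ≤ n → n ≤ N → ‖f n‖ ≤ β)
    (hs0 : 0 ≤ s) (ht0 : 0 ≤ t) (hs : s ≤ N) (ht : t ≤ N) : ‖Ps f s - Ps f t‖ ≤ β * (|s - t| + 1) := by
  wlog hst : t ≤ s generalizing s t with H
  · have := H ht0 hs0 ht hs (by linarith)
    rw [norm_sub_rev, abs_sub_comm]
    exact this
  unfold Ps
  have h1 : ⌊t⌋₊ ≤ ⌊s⌋₊ := Nat.floor_mono hst
  have hfl : ⌊s⌋₊ ≤ N := by
    have := Nat.floor_mono hs
    rwa [Nat.floor_natCast] at this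
  have e1 : Icc 1 ⌊s⌋₊ = Icc 1 ⌊t⌋₊ ∪ Ioc ⌊t⌋₊ ⌊s⌋₊ := by
    ext n
    simp only [mem_union, mem_Icc, mem_Ioc]
    omega
  have e2 : Disjoint (Icc 1 ⌊t⌋₊) (Ioc ⌊t⌋₊ ⌊s⌋₊) := by
    rw [Finset.disjoint_left]
    intro n h4 h5
    rw [mem_Icc] at h4
    rw [mem_Ioc] at h5
    omega
  rw [e1, Finset.sum_union e2, add_sub_cancel_left]
  have h2 : ‖∑ n ∈ Ioc ⌊t⌋₊ ⌊s⌋₊, f n‖ ≤ ((⌊s⌋₊ : ℝ) - ⌊t⌋₊) * β := by
    refine (norm_sum_le _ _).trans ?_
    refine (Finset.sum_le_sum (g := fun _ => β) fun n hn => ?_).trans ?_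
    · rw [mem_Ioc] at hn
      exact hf n (by omega) (by omega)
    · rw [Finset.sum_const, Nat.card_Ioc, nsmul_eq_mul, Nat.cast_sub h1]
  refine h2.trans ?_
  rw [mul_comm]
  apply mul_le_mul_of_nonneg_left _ hβ
  have h3 := Nat.floor_le hs0
  have h4 := Nat.lt_floor_add_one t
  rw [abs_of_nonneg (by linarith)]
  linarith

theorem Wd_int (c : ℕ → ℂ) (N : ℕ) (k : ℝ) : Integrable (Wd c N k) := by
  have e : Wd c N k = fun u => ∑ n ∈ Icc 1 N, c n * ei (Real.log n) k u := rfl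
  rw [e]
  apply integrable_finset_sum
  intro n _
  exact (ei_int _ _).const_mul _

theorem Wd_bd (c : ℕ → ℂ) (N : ℕ) (k : ℝ) : ∃ M : ℝ, ∀ u, ‖Wd c N k u‖ ≤ M := by
  refine ⟨∑ n ∈ Icc 1 N, ‖c n‖, fun u => ?_⟩
  have e : Wd c N k u = ∑ n ∈ Icc 1 N, c n * ei (Real.log n) k u := rfl
  rw [e]
  refine (norm_sum_le _ _).trans (Finset.sum_le_sum fun n _ => ?_)
  rw [norm_mul]
  calc ‖c n‖ * ‖ei (Real.log n) k u‖ ≤ ‖c n‖ * 1 :=
        mul_le_mul_of_nonneg_left (ei_le _ _ _) (norm_nonneg _)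
    _ = ‖c n‖ := mul_one _

theorem Wd_sq_int (c : ℕ → ℂ) (N : ℕ) (k : ℝ) : Integrable fun u => ‖Wd c N k u‖ ^ 2 := by
  have hi := Wd_int c N k
  obtain ⟨M, hM⟩ := Wd_bd c N k
  refine (hi.norm.const_mul M).mono' (hi.aestronglyMeasurable.norm.pow 2)
    (Eventually.of_forall fun x => ?_)
  rw [Real.norm_eq_abs, abs_of_nonneg (by positivity), sq]
  exact mul_le_mul_of_nonneg_right (hM x) (norm_nonneg _)

/-- one additive window -/
theorem cut1 {f : ℕ → ℂ} {N m Y : ℕ} {k β : ℝ} (hm : 1 ≤ m) (hY : 1 ≤ Y) (hk : 0 < k) (hk1 : k ≤ 1)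
    (hβ : 0 ≤ β) (hf : ∀ n, 1 ≤ n → n ≤ N → ‖f n‖ ≤ β) (hN : 3 * (m + Y) ≤ N) (J : ℕ)
    (hJ : J = ⌊Real.log (((m + Y : ℕ) : ℝ) / m) / k⌋₊) {v : ℝ} (hv : v ∈ Set.Icc 0 k) :
    ‖∑ n ∈ Ioc m (m + Y), f n - ∑ j ∈ range J, Wd f N k (Real.log m + v + j * k)‖ ≤
      β * (4 * k * ((m + Y : ℕ) : ℝ) + 2) := by
  have hm0 : (0 : ℝ) < m := by exact_mod_cast hm
  have hM0 : (0 : ℝ) < ((m + Y : ℕ) : ℝ) := by exact_mod_cast (by omega : 0 < m + Y)
  obtain ⟨M, hM⟩ : ∃ M : ℝ, M = ((m + Y : ℕ) : ℝ) := ⟨_, rfl⟩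
  rw [← hM] at hM0 hJ ⊢
  have hmM : (m : ℝ) ≤ M := by rw [hM]; exact_mod_cast (by omega : m ≤ m + Y)
  have hMN : 3 * M ≤ N := by rw [hM]; exact_mod_cast hN
  have hlog0 : 0 ≤ Real.log (M / m) := Real.log_nonneg (by rw [le_div_iff₀ hm0]; linarith)
  have hJ1 : (J : ℝ) * k ≤ Real.log (M / m) := by
    have h1 := Nat.floor_le (div_nonneg hlog0 hk.le)
    rw [← hJ, le_div_iff₀ hk] at h1
    exact h1
  have hJ2 : Real.log (M / m) < (J : ℝ) * k + k := by
    have h1 := Nat.lt_floor_add_one (Real.log (M / m) / k)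
    rw [← hJ, div_lt_iff₀ hk] at h1
    linarith
  rw [Real.log_div hM0.ne' hm0.ne'] at hJ1 hJ2
  have hexpk : Real.exp k ≤ 1 + 2 * k := by
    have h1 := Real.abs_exp_sub_one_sub_id_le (x := k) (by rw [abs_of_pos hk]; exact hk1)
    rw [abs_le] at h1
    nlinarith [h1.2]
  have hexpk3 : Real.exp k ≤ 3 := by linarith
  -- telescoping
  have htel : ∀ i : ℕ, i ≤ J → ∑ j ∈ range i, Wd f N k (Real.log m + v + j * k) =
      Ps f (Real.exp (Real.log m + v + i * k)) - Ps f (Real.exp (Real.log m + v)) := by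
    intro i
    induction i with
    | zero => intro _; simp
    | succ i ih =>
      intro hi
      have hi' : ((i + 1 : ℕ) : ℝ) ≤ J := by exact_mod_cast hi
      rw [Finset.sum_range_succ, ih (by omega), Wd_eq f hk.le]
      · have e : Real.log m + v + i * k + k = Real.log m + v + ((i + 1 : ℕ) : ℝ) * k := by
          push_cast
          ring
        rw [e]
        ring
      · have h2 : Real.log m + v + i * k + k ≤ Real.log M + k := by
          have h3 : ((i + 1 : ℕ) : ℝ) * k ≤ J * k := mul_le_mul_of_nonneg_right hi' hk.le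
          push_cast at h3
          linarith [hv.2]
        calc Real.exp (Real.log m + v + i * k + k) ≤ Real.exp (Real.log M + k) := Real.exp_le_exp.2 h2
          _ = M * Real.exp k := by rw [Real.exp_add, Real.exp_log hM0]
          _ ≤ M * 3 := by gcongr
          _ ≤ N := by linarith
  rw [htel J le_rfl]
  have e1 : ∑ n ∈ Ioc m (m + Y), f n = Ps f M - Ps f m := by
    unfold Ps
    rw [hM, Nat.floor_natCast, Nat.floor_natCast]
    have e : ∀ m : ℕ, Icc 1 m = Ioc 0 m := fun m => by ext k; simp [Nat.succ_le_iff]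
    rw [e, e, ← Finset.sum_Ioc_consecutive _ (Nat.zero_le m) (by omega : m ≤ m + Y),
      add_sub_cancel_left]
  rw [e1]
  obtain ⟨s, hs⟩ : ∃ s : ℝ, s = Real.exp (Real.log m + v + J * k) := ⟨_, rfl⟩
  obtain ⟨t, ht⟩ : ∃ t : ℝ, t = Real.exp (Real.log m + v) := ⟨_, rfl⟩
  rw [← hs, ← ht]
  have hs1 : s ≤ M * Real.exp k := by
    rw [hs, ← Real.exp_log hM0, ← Real.exp_add]
    apply Real.exp_le_exp.2
    linarith [hv.2]
  have hs2 : M * Real.exp (-k) ≤ s := by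
    rw [hs, ← Real.exp_log hM0, ← Real.exp_add]
    apply Real.exp_le_exp.2
    linarith [hv.1]
  have ht1 : t ≤ m * Real.exp k := by
    rw [ht, ← Real.exp_log hm0, ← Real.exp_add, Real.exp_log hm0]
    apply Real.exp_le_exp.2
    linarith [hv.2]
  have ht2 : (m : ℝ) ≤ t := by
    rw [ht]
    calc (m : ℝ) = Real.exp (Real.log m) := (Real.exp_log hm0).symm
      _ ≤ _ := Real.exp_le_exp.2 (by linarith [hv.1])
  have hs0 : 0 ≤ s := by rw [hs]; positivity
  have ht0 : 0 ≤ t := by rw [ht]; positivity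
  have hexpn : 1 - 2 * k ≤ Real.exp (-k) := by linarith [Real.add_one_le_exp (-k)]
  have hMs : |M - s| ≤ 2 * k * M := by
    rw [abs_le]
    constructor
    · have : M * Real.exp k ≤ M * (1 + 2 * k) := by gcongr
      linarith
    · have : M * (1 - 2 * k) ≤ M * Real.exp (-k) := by gcongr
      linarith
  have hmt : |(m : ℝ) - t| ≤ 2 * k * M := by
    rw [abs_le]
    constructor
    · have h1 : m * Real.exp k ≤ m * (1 + 2 * k) := by gcongr
      have h2 : 2 * k * m ≤ 2 * k * M := by gcongr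
      linarith
    · have : 0 ≤ 2 * k * M := by positivity
      linarith
  have hsN : s ≤ N := by
    have : M * Real.exp k ≤ M * 3 := by gcongr
    linarith
  have htN : t ≤ N := by
    have : (m : ℝ) * Real.exp k ≤ M * 3 := by gcongr
    linarith
  have a1 := Ps_lip hβ hf (s := M) (t := s) hM0.le hs0 (by linarith) hsN
  have a2 := Ps_lip hβ hf (s := (m : ℝ)) (t := t) hm0.le ht0 (by linarith) htN
  have e2 : Ps f M - Ps f m - (Ps f s - Ps f t) = (Ps f M - Ps f s) - (Ps f m - Ps f t) := by ring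
  rw [e2]
  refine (norm_sub_le _ _).trans ?_
  have a3 : β * (|M - s| + 1) ≤ β * (2 * k * M + 1) := by gcongr
  have a4 : β * (|(m : ℝ) - t| + 1) ≤ β * (2 * k * M + 1) := by gcongr
  calc _ ≤ β * (2 * k * M + 1) + β * (2 * k * M + 1) := add_le_add (a1.trans a3) (a2.trans a4)
    _ = _ := by ring

/-- one additive window in mean square -/
theorem cut2 {f : ℕ → ℂ} {N m Y : ℕ} {k β R : ℝ} (hm : 1 ≤ m) (hY : 1 ≤ Y) (hk : 0 < k) (hk1 : k ≤ 1)
    (hβ : 0 ≤ β) (hf : ∀ n, 1 ≤ n → n ≤ N → ‖f n‖ ≤ β) (hN : 3 * (m + Y) ≤ N)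
    (hR : β * (4 * k * ((m + Y : ℕ) : ℝ) + 2) ≤ R) :
    k * ‖∑ n ∈ Ioc m (m + Y), f n‖ ^ 2 ≤
      2 * (Y / (m * k)) * (∫ u in (Real.log m)..(Real.log ((m + Y : ℕ) : ℝ)), ‖Wd f N k u‖ ^ 2) +
        2 * k * R ^ 2 := by
  have hm0 : (0 : ℝ) < m := by exact_mod_cast hm
  have hM0 : (0 : ℝ) < ((m + Y : ℕ) : ℝ) := by exact_mod_cast (by omega : 0 < m + Y)
  obtain ⟨J, hJ⟩ : ∃ J : ℕ, J = ⌊Real.log (((m + Y : ℕ) : ℝ) / m) / k⌋₊ := ⟨_, rfl⟩
  have hlog0 : 0 ≤ Real.log (((m + Y : ℕ) : ℝ) / m) :=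
    Real.log_nonneg (by rw [le_div_iff₀ hm0, one_mul]; exact_mod_cast (by omega : m ≤ m + Y))
  have hJ1 : (J : ℝ) * k ≤ Real.log (((m + Y : ℕ) : ℝ) / m) := by
    have h1 := Nat.floor_le (div_nonneg hlog0 hk.le)
    rw [← hJ, le_div_iff₀ hk] at h1
    exact h1
  have hJ3 : (J : ℝ) ≤ Y / (m * k) := by
    have h1 : Real.log (((m + Y : ℕ) : ℝ) / m) ≤ Y / m := by
      have h2 := Real.log_le_sub_one_of_pos (div_pos hM0 hm0)
      refine h2.trans (le_of_eq ?_)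
      push_cast
      field_simp
      ring
    rw [← div_div, le_div_iff₀ hk]
    linarith
  have hJ4 : Real.log m + J * k ≤ Real.log ((m + Y : ℕ) : ℝ) := by
    rw [Real.log_div hM0.ne' hm0.ne'] at hJ1
    linarith
  obtain ⟨S, hS⟩ : ∃ S : ℂ, S = ∑ n ∈ Ioc m (m + Y), f n := ⟨_, rfl⟩
  have hint := Wd_sq_int f N k
  have hpt : ∀ v ∈ Set.Icc 0 k, ‖S‖ ^ 2 ≤
      2 * (J * ∑ j ∈ range J, ‖Wd f N k ((Real.log m + j * k) + v)‖ ^ 2) + 2 * R ^ 2 := by
    intro v hv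
    have h1 := cut1 hm hY hk hk1 hβ hf hN J hJ hv
    rw [← hS] at h1
    obtain ⟨A, hA⟩ : ∃ A : ℂ, A = ∑ j ∈ range J, Wd f N k (Real.log m + v + j * k) := ⟨_, rfl⟩
    rw [← hA] at h1
    have h2 : ‖A‖ ^ 2 ≤ J * ∑ j ∈ range J, ‖Wd f N k ((Real.log m + j * k) + v)‖ ^ 2 := by
      have h3 : ‖A‖ ≤ ∑ j ∈ range J, ‖Wd f N k ((Real.log m + j * k) + v)‖ := by
        rw [hA]
        refine (norm_sum_le _ _).trans (le_of_eq ?_)
        apply Finset.sum_congr rfl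
        intro j _
        congr 2
        ring
      have h4 := sq_sum_le_card_mul_sum_sq (s := range J)
        (f := fun j : ℕ => ‖Wd f N k ((Real.log m + j * k) + v)‖)
      rw [card_range] at h4
      exact (pow_le_pow_left₀ (norm_nonneg _) h3 2).trans h4
    have h3 : ‖S‖ ≤ ‖A‖ + R := by
      calc ‖S‖ = ‖A + (S - A)‖ := by rw [add_sub_cancel]
        _ ≤ ‖A‖ + ‖S - A‖ := norm_add_le _ _
        _ ≤ ‖A‖ + R := by linarith
    have h4 : ‖S‖ ^ 2 ≤ (‖A‖ + R) ^ 2 := pow_le_pow_left₀ (norm_nonneg _) h3 2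
    nlinarith [sq_nonneg (‖A‖ - R)]
  have hshift : ∀ j : ℕ, ∫ v in (0 : ℝ)..k, ‖Wd f N k ((Real.log m + j * k) + v)‖ ^ 2 =
      ∫ u in (Real.log m + j * k)..(Real.log m + ((j + 1 : ℕ) : ℝ) * k), ‖Wd f N k u‖ ^ 2 := by
    intro j
    rw [intervalIntegral.integral_comp_add_left (fun u => ‖Wd f N k u‖ ^ 2)]
    congr 1
    · ring
    · push_cast
      ring
  have hsint : ∀ j : ℕ, IntervalIntegrable
      (fun v : ℝ => ‖Wd f N k ((Real.log m + j * k) + v)‖ ^ 2) volume 0 k := by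
    intro j
    exact (hint.comp_add_left (Real.log m + j * k)).intervalIntegrable
  have hssum : IntervalIntegrable
      (fun v : ℝ => ∑ j ∈ range J, ‖Wd f N k ((Real.log m + j * k) + v)‖ ^ 2) volume 0 k := by
    have e : (fun v : ℝ => ∑ j ∈ range J, ‖Wd f N k ((Real.log m + j * k) + v)‖ ^ 2) =
        ∑ j ∈ range J, fun v : ℝ => ‖Wd f N k ((Real.log m + j * k) + v)‖ ^ 2 := by
      funext v
      rw [Finset.sum_apply]
    rw [e]
    exact IntervalIntegrable.sum (range J) (fun j _ => hsint j)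
  have h1 : ∫ _v in (0 : ℝ)..k, ‖S‖ ^ 2 ≤ ∫ v in (0 : ℝ)..k,
      (2 * (J * ∑ j ∈ range J, ‖Wd f N k ((Real.log m + j * k) + v)‖ ^ 2) + 2 * R ^ 2) := by
    apply intervalIntegral.integral_mono_on hk.le
    · exact intervalIntegrable_const
    · apply IntervalIntegrable.add _ intervalIntegrable_const
      exact (hssum.const_mul _).const_mul _
    · exact hpt
  rw [intervalIntegral.integral_const, sub_zero, smul_eq_mul, intervalIntegral.integral_add
    ((hssum.const_mul _).const_mul _) intervalIntegrable_const, intervalIntegral.integral_const, intervalIntegral.integral_const_mul,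
    intervalIntegral.integral_const_mul, intervalIntegral.integral_finsetSum (fun j _ => hsint j),
    sub_zero, smul_eq_mul, Finset.sum_congr rfl (fun j _ => hshift j),
    intervalIntegral.sum_integral_adjacent_intervals (fun j _ => hint.intervalIntegrable)] at h1
  rw [← hS]
  refine h1.trans ?_
  have h2 : ∫ u in (Real.log m + ((0 : ℕ) : ℝ) * k)..(Real.log m + (J : ℝ) * k), ‖Wd f N k u‖ ^ 2 ≤
      ∫ u in (Real.log m)..(Real.log ((m + Y : ℕ) : ℝ)), ‖Wd f N k u‖ ^ 2 := by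
    have e : Real.log m + ((0 : ℕ) : ℝ) * k = Real.log m := by simp
    rw [e]
    apply intervalIntegral.integral_mono_interval le_rfl
    · have : 0 ≤ (J : ℝ) * k := by positivity
      linarith
    · exact hJ4
    · exact Eventually.of_forall fun u => by positivity
    · exact hint.intervalIntegrable
  have h3 : 0 ≤ ∫ u in (Real.log m)..(Real.log ((m + Y : ℕ) : ℝ)), ‖Wd f N k u‖ ^ 2 := by
    apply intervalIntegral.integral_nonneg
    · exact Real.log_le_log hm0 (by exact_mod_cast (by omega : m ≤ m + Y))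
    · intro u _
      positivity
  have h4 : 2 * ((J : ℝ) * ∫ u in (Real.log m + ((0 : ℕ) : ℝ) * k)..(Real.log m + (J : ℝ) * k),
      ‖Wd f N k u‖ ^ 2) ≤ 2 * (Y / (m * k)) *
      ∫ u in (Real.log m)..(Real.log ((m + Y : ℕ) : ℝ)), ‖Wd f N k u‖ ^ 2 := by
    rw [mul_assoc]
    apply mul_le_mul_of_nonneg_left _ (by norm_num)
    calc _ ≤ (J : ℝ) * ∫ u in (Real.log m)..(Real.log ((m + Y : ℕ) : ℝ)), ‖Wd f N k u‖ ^ 2 :=
          mul_le_mul_of_nonneg_left h2 (Nat.cast_nonneg J)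
      _ ≤ _ := mul_le_mul_of_nonneg_right hJ3 h3
  linarith

/-- all additive windows in mean square -/
theorem cut3 {f : ℕ → ℂ} {N x Y : ℕ} {k β R I : ℝ} (hx : 1 ≤ x) (hY : 1 ≤ Y) (hYx : Y ≤ x) (hk : 0 < k)
    (hk1 : k ≤ 1) (hβ : 0 ≤ β) (hf : ∀ n, 1 ≤ n → n ≤ N → ‖f n‖ ≤ β) (hN : 9 * x ≤ N)
    (hR : β * (4 * k * (3 * x) + 2) ≤ R)
    (hI : ∫ u in (Real.log x)..(Real.log ((3 * x : ℕ) : ℝ)), ‖Wd f N k u‖ ^ 2 ≤ I) :
    ∑ m ∈ Ioc x (2 * x), ‖∑ n ∈ Ioc m (m + Y), f n‖ ^ 2 ≤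
      2 * (Y / (x * k)) * (Y * I) / k + 2 * x * R ^ 2 := by
  have hx0 : (0 : ℝ) < x := by exact_mod_cast hx
  have hint := Wd_sq_int f N k
  obtain ⟨t, ht⟩ : ∃ t : ℕ → ℝ, t = fun r : ℕ => ∫ u in (Real.log r)..(Real.log ((r + 1 : ℕ) : ℝ)),
      ‖Wd f N k u‖ ^ 2 := ⟨_, rfl⟩
  have ht0 : ∀ r : ℕ, 0 ≤ t r := by
    intro r
    rw [ht]
    apply intervalIntegral.integral_nonneg
    · rcases Nat.eq_zero_or_pos r with rfl | hr
      · simp
      · exact Real.log_le_log (by exact_mod_cast hr) (by exact_mod_cast (by omega : r ≤ r + 1))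
    · intro u _
      positivity
  have hadj : ∀ a L : ℕ, ∑ i ∈ range L, t (a + i) =
      ∫ u in (Real.log a)..(Real.log ((a + L : ℕ) : ℝ)), ‖Wd f N k u‖ ^ 2 := by
    intro a L
    have h := intervalIntegral.sum_integral_adjacent_intervals (n := L) (μ := volume)
      (a := fun i : ℕ => Real.log ((a + i : ℕ) : ℝ)) (f := fun u => ‖Wd f N k u‖ ^ 2)
      (fun i _ => hint.intervalIntegrable)
    rw [ht]
    simp only [add_zero] at h
    rw [← h]
    apply Finset.sum_congr rfl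
    intro i _
    rw [show a + (i + 1) = a + i + 1 by ring]
  have hI0 : 0 ≤ I := by
    refine le_trans ?_ hI
    apply intervalIntegral.integral_nonneg
    · exact Real.log_le_log hx0 (by exact_mod_cast (by omega : x ≤ 3 * x))
    · intro u _
      positivity
  have hR0 : 0 ≤ R := le_trans (by positivity) hR
  have hone : ∀ m ∈ Ioc x (2 * x), ‖∑ n ∈ Ioc m (m + Y), f n‖ ^ 2 ≤
      2 * (Y / (x * k)) / k * (∑ i ∈ range Y, t (m + i)) + 2 * R ^ 2 := by
    intro m hm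
    rw [mem_Ioc] at hm
    have hmx : (x : ℝ) ≤ m := by exact_mod_cast hm.1.le
    have hm0 : (0 : ℝ) < m := by linarith
    have hmY : ((m + Y : ℕ) : ℝ) ≤ 3 * x := by exact_mod_cast (by omega : m + Y ≤ 3 * x)
    have h1 := cut2 (m := m) (by omega) hY hk hk1 hβ hf (by omega) (R := R) (by
      refine le_trans ?_ hR
      gcongr)
    rw [← hadj m Y] at h1
    have hsum0 : 0 ≤ ∑ i ∈ range Y, t (m + i) := Finset.sum_nonneg fun i _ => ht0 _
    have h2 : 2 * (Y / (m * k)) * (∑ i ∈ range Y, t (m + i)) ≤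
        2 * (Y / (x * k)) * (∑ i ∈ range Y, t (m + i)) := by gcongr
    have h3 : k * ‖∑ n ∈ Ioc m (m + Y), f n‖ ^ 2 ≤ k * (2 * (Y / (x * k)) / k *
        (∑ i ∈ range Y, t (m + i)) + 2 * R ^ 2) := by
      refine (h1.trans (add_le_add_left h2 _)).trans (le_of_eq ?_)
      field_simp
    exact le_of_mul_le_mul_left h3 hk
  refine (Finset.sum_le_sum hone).trans ?_
  rw [Finset.sum_add_distrib, ← Finset.mul_sum, Finset.sum_comm]
  have hin : ∀ i ∈ range Y, ∑ m ∈ Ioc x (2 * x), t (m + i) ≤ I := by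
    intro i hi
    rw [mem_range] at hi
    refine le_trans ?_ hI
    have e : 3 * x = x + 2 * x := by ring
    rw [e, ← hadj x (2 * x)]
    calc ∑ m ∈ Ioc x (2 * x), t (m + i) = ∑ m ∈ Ioc x (2 * x), t (x + ((m - x) + i)) := by
          apply Finset.sum_congr rfl
          intro m hm
          rw [mem_Ioc] at hm
          congr 1
          omega
      _ = ∑ r ∈ (Ioc x (2 * x)).image (fun m => (m - x) + i), t (x + r) := by
          rw [Finset.sum_image]
          intro a ha b hb hab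
          simp only [coe_Ioc, Set.mem_Ioc] at ha hb
          simp only at hab
          omega
      _ ≤ ∑ r ∈ range (2 * x), t (x + r) := by
          apply Finset.sum_le_sum_of_subset_of_nonneg
          · intro r hr
            rw [mem_image] at hr
            obtain ⟨m, hm, rfl⟩ := hr
            rw [mem_Ioc] at hm
            rw [mem_range]
            omega
          · intro r _ _
            exact ht0 _
  have h2 : ∑ i ∈ range Y, ∑ m ∈ Ioc x (2 * x), t (m + i) ≤ Y * I := by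
    refine (Finset.sum_le_sum hin).trans (le_of_eq ?_)
    rw [Finset.sum_const, card_range, nsmul_eq_mul]
  have h3 : ∑ _m ∈ Ioc x (2 * x), 2 * R ^ 2 = 2 * x * R ^ 2 := by
    rw [Finset.sum_const, Nat.card_Ioc, nsmul_eq_mul]
    have : 2 * x - x = x := by omega
    rw [this]
    ring
  rw [h3]
  apply add_le_add_left
  calc 2 * (Y / (x * k)) / k * ∑ i ∈ range Y, ∑ m ∈ Ioc x (2 * x), t (m + i) ≤
      2 * (Y / (x * k)) / k * (Y * I) := by
        apply mul_le_mul_of_nonneg_left h2 (by positivity)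
    _ = _ := by ring

end Pool.Agent.K9h19.CR
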