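import Pool.Agent.K9h19.CR.WIN3
import Pool.Agent.K9h19.CR.WIN4
import Pool.Agent.H373R2.T7.LamMaj

/-!
# Project CR, job SIC: primes with characters in almost all short intervals
-/

set_option autoImplicit false

namespace Pool.Agent.K9h19.CR

open Finset Filter Topology MeasureTheory
open Pool.Agent.Q236.CR
open Pool.Agent.Q53.CR (norm_nt)
open scoped ENNReal

/-- the sum of a character over a period -/
theorem char_sum {q : ℕ} [NeZero q] (χ : DirichletCharacter ℂ q) :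
    ∑ c ∈ range q, χ (c : ZMod q) = if χ = 1 then (Nat.totient q : ℂ) else 0 := by
  have h1 : ∑ c ∈ range q, χ (c : ZMod q) = ∑ a : ZMod q, χ a := by
    refine Finset.sum_bij' (fun k _ => (k : ZMod q)) (fun a _ => a.val) ?_ ?_ ?_ ?_ ?_
    · intro a _; exact Finset.mem_univ _
    · intro a _; exact Finset.mem_range.mpr (ZMod.val_lt a)
    · intro a ha; exact ZMod.val_cast_of_lt (Finset.mem_range.mp ha)
    · intro a _; exact ZMod.natCast_zmod_val a
    · intro a _; rfl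
  rw [h1]
  split_ifs with h
  · rw [h, MulChar.sum_one_eq_card_units, ZMod.card_units_eq_totient]
  · exact MulChar.sum_eq_zero_of_ne_one h

theorem low_psi (B U : ℕ) : ∃ X₀ : ℕ, ∀ x : ℕ, X₀ ≤ x → ∀ (q : ℕ) (_ : NeZero q),
    (q : ℝ) ≤ Real.log x ^ B → ∀ (χ : DirichletCharacter ℂ q) (y : ℕ), y ≤ 4 * x →
    ‖∑ n ∈ Icc 1 y, cL χ n - (if χ = 1 then 1 else 0) * y‖ ≤ 4 * x / Real.log x ^ U := by
  obtain ⟨N0, hlam⟩ := Pool.Agent.H373R2.T7.lam_ap B (U + B)
  refine ⟨max N0 3, ?_⟩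
  intro x hx q hq hqx χ y hy
  have hx3 : 3 ≤ x := (le_max_right _ _).trans hx
  have hx0 : (0 : ℝ) < x := by exact_mod_cast (by omega : 0 < x)
  have hl0 : 0 < Real.log x := Real.log_pos (by exact_mod_cast (by omega : 1 < x))
  have hlN : Real.log x ≤ Real.log ((4 * x : ℕ) : ℝ) :=
    Real.log_le_log hx0 (by exact_mod_cast (by omega : x ≤ 4 * x))
  have hq0 : 0 < q := Nat.pos_of_ne_zero (NeZero.ne q)
  have hlam' := fun c => hlam (4 * x) (le_trans (le_max_left _ _) (hx.trans (by omega))) q hq0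
    (hqx.trans (pow_le_pow_left₀ hl0.le hlN B)) c y hy
  have e1 : ∑ n ∈ Icc 1 y, cL χ n = ∑ c ∈ range q, χ (c : ZMod q) *
      ((∑ n ∈ (Icc 1 y).filter (fun n => n ≡ c [MOD q]), ArithmeticFunction.vonMangoldt n : ℝ) : ℂ) := by
    have h1 : ∀ n : ℕ, cL χ n = ∑ c ∈ range q, (if n ≡ c [MOD q] then cL χ n else 0) := by
      intro n
      rw [Finset.sum_eq_single_of_mem (n % q) (mem_range.2 (Nat.mod_lt n hq0))]
      · rw [if_pos]
        exact (Nat.mod_modEq n q).symm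
      · intro c hc hcn
        rw [if_neg]
        intro h
        apply hcn
        rw [mem_range] at hc
        have : n % q = c % q := h
        rw [Nat.mod_eq_of_lt hc] at this
        exact this.symm
    rw [Finset.sum_congr rfl fun n _ => h1 n, Finset.sum_comm]
    apply Finset.sum_congr rfl
    intro c _
    rw [← Finset.sum_filter, Complex.ofReal_sum, Finset.mul_sum]
    apply Finset.sum_congr rfl
    intro n hn
    rw [mem_filter] at hn
    unfold cL
    have : (n : ZMod q) = (c : ZMod q) := (ZMod.natCast_eq_natCast_iff n c q).2 hn.2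
    rw [this]
  have e2 : (if χ = 1 then (1 : ℂ) else 0) * y = ∑ c ∈ range q, χ (c : ZMod q) *
      (((if c.Coprime q then (y : ℝ) / (Nat.totient q : ℝ) else 0) : ℝ) : ℂ) := by
    have h1 : ∀ c : ℕ, χ (c : ZMod q) *
        (((if c.Coprime q then (y : ℝ) / (Nat.totient q : ℝ) else 0) : ℝ) : ℂ) =
        χ (c : ZMod q) * ((y : ℂ) / (Nat.totient q : ℂ)) := by
      intro c
      by_cases h : c.Coprime q
      · rw [if_pos h]
        push_cast
        rfl
      · rw [if_neg h]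
        have : χ (c : ZMod q) = 0 := by
          apply MulChar.map_nonunit
          rwa [ZMod.isUnit_iff_coprime]
        rw [this]
        simp
    rw [Finset.sum_congr rfl fun c _ => h1 c, ← Finset.sum_mul, char_sum]
    have hφ : (Nat.totient q : ℂ) ≠ 0 := by
      exact_mod_cast (Nat.totient_pos.2 hq0).ne'
    split_ifs
    · field_simp
    · simp
  rw [e1, e2, ← Finset.sum_sub_distrib]
  have h1 : ∀ c ∈ range q, ‖χ (c : ZMod q) *
      ((∑ n ∈ (Icc 1 y).filter (fun n => n ≡ c [MOD q]), ArithmeticFunction.vonMangoldt n : ℝ) : ℂ) -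
      χ (c : ZMod q) * (((if c.Coprime q then (y : ℝ) / (Nat.totient q : ℝ) else 0) : ℝ) : ℂ)‖ ≤
      4 * x / Real.log x ^ (U + B) := by
    intro c _
    rw [← mul_sub, ← Complex.ofReal_sub, norm_mul, Complex.norm_real, Real.norm_eq_abs]
    have h2 := hlam' c
    have h3 : ((4 * x : ℕ) : ℝ) / Real.log ((4 * x : ℕ) : ℝ) ^ (U + B) ≤
        4 * x / Real.log x ^ (U + B) := by
      push_cast at hlN ⊢
      gcongr
    calc _ ≤ 1 * |∑ n ∈ (Icc 1 y).filter (fun n => n ≡ c [MOD q]), ArithmeticFunction.vonMangoldt n -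
          (if c.Coprime q then (y : ℝ) / (Nat.totient q : ℝ) else 0)| :=
          mul_le_mul_of_nonneg_right (χ.norm_le_one _) (abs_nonneg _)
      _ ≤ _ := by rw [one_mul]; exact h2.trans h3
  refine (norm_sum_le _ _).trans ((Finset.sum_le_sum h1).trans ?_)
  rw [Finset.sum_const, card_range, nsmul_eq_mul]
  calc (q : ℝ) * (4 * x / Real.log x ^ (U + B)) ≤ Real.log x ^ B * (4 * x / Real.log x ^ (U + B)) := by
        gcongr
    _ = 4 * x / Real.log x ^ U := by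
        rw [pow_add]
        field_simp

/-- the function in question -/
noncomputable def bb {q : ℕ} [NeZero q] (χ : DirichletCharacter ℂ q) (n : ℕ) : ℂ :=
  cL χ n - (if χ = 1 then 1 else 0)

theorem exp_cmp {k k1 : ℝ} (hk : 0 < k) (hkk : k ≤ k1) (hk1 : k1 ≤ 1) :
    |k / k1 * (Real.exp k1 - 1) - (Real.exp k - 1)| ≤ k * k1 := by
  have hk10 : 0 < k1 := lt_of_lt_of_le hk hkk
  have h1 := Real.abs_exp_sub_one_sub_id_le (x := k) (by rw [abs_of_pos hk]; linarith)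
  have h2 := Real.abs_exp_sub_one_sub_id_le (x := k1) (by rw [abs_of_pos hk10]; linarith)
  have h3 := Real.add_one_le_exp k
  have h4 := Real.add_one_le_exp k1
  rw [abs_le] at h1 h2
  have h5 : k / k1 * (Real.exp k1 - 1) ≤ k + k * k1 := by
    calc k / k1 * (Real.exp k1 - 1) ≤ k / k1 * (k1 + k1 ^ 2) := by
          apply mul_le_mul_of_nonneg_left _ (by positivity)
          linarith [h2.2]
      _ = k + k * k1 := by field_simp
  have h6 : k ≤ k / k1 * (Real.exp k1 - 1) := by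
    calc k = k / k1 * k1 := by field_simp
      _ ≤ k / k1 * (Real.exp k1 - 1) := by
          apply mul_le_mul_of_nonneg_left _ (by positivity)
          linarith
  have h7 : k ^ 2 ≤ k * k1 := by rw [sq]; gcongr
  rw [abs_le]
  constructor <;> linarith [h1.2]

theorem sic (hc : S_CHR) (hm : S_MOC) : ∀ B U : ℕ, ∃ C X₀ : ℕ, ∀ x : ℕ, X₀ ≤ x →
    ∀ (q : ℕ) (_ : NeZero q), (q : ℝ) ≤ Real.log x ^ B → ∀ (χ : DirichletCharacter ℂ q) (Y : ℕ),
    (x : ℝ) ^ (1 / 3 : ℝ) * Real.log x ^ C ≤ Y → Y ≤ x →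
    ∑ m ∈ Ioc x (2 * x), ‖∑ n ∈ Ioc m (m + Y), bb χ n‖ ^ 2 ≤ x * (Y : ℝ) ^ 2 / Real.log x ^ U := by
  intro B U
  obtain ⟨Cm, X₁, hgw⟩ := gwin hc hm B (U + 3)
  obtain ⟨E, hE⟩ : ∃ E : ℕ, E = Cm + U + 10 := ⟨_, rfl⟩
  obtain ⟨X₂, hpsi⟩ := low_psi B (2 * E)
  obtain ⟨X₃, hX₃⟩ := ev_natlog (P := fun l => 10000 ≤ l ∧ 2 * l ^ E ≤ Real.exp (1 / 3 * l)) (by
    filter_upwards [eventually_ge_atTop 10000, ev_exp (1 / 3) 2 E (by norm_num)] with l h3 h4
    exact ⟨h3, h4⟩)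
  refine ⟨Cm + E, max (max X₁ X₂) (max X₃ 3), ?_⟩
  intro x hx q hq hqx χ Y hYC hYx
  have hgw' := hgw x ((le_max_left _ _).trans ((le_max_left _ _).trans hx)) q hq hqx χ
  have hpsi' := hpsi x ((le_max_right _ _).trans ((le_max_left _ _).trans hx)) q hq hqx χ
  obtain ⟨g1, g2⟩ := hX₃ x ((le_max_left _ _).trans ((le_max_right _ _).trans hx))
  have hx3 : 3 ≤ x := (le_max_right _ _).trans ((le_max_right _ _).trans hx)
  have hx3r : (3 : ℝ) ≤ x := by exact_mod_cast hx3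
  have hx0 : (0 : ℝ) < x := by linarith
  obtain ⟨l, hl⟩ : ∃ l : ℝ, l = Real.log x := ⟨_, rfl⟩
  obtain ⟨y, hy⟩ : ∃ y : ℝ, y = (x : ℝ) ^ (1 / 3 : ℝ) := ⟨_, rfl⟩
  rw [← hl] at g1 g2 hgw' hpsi' hYC ⊢
  rw [← hy] at hYC hgw'
  have hl0 : 0 < l := by linarith
  have hl1 : 1 ≤ l := by linarith
  have hy0 : 0 < y := by rw [hy]; positivity
  have hyexp : y = Real.exp (1 / 3 * l) := by
    rw [hy, hl, Real.rpow_def_of_pos hx0, mul_comm]
  have hy3 : (x : ℝ) = y ^ 3 := by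
    rw [hy, ← Real.rpow_natCast, ← Real.rpow_mul hx0.le]
    norm_num
  have hlE : 1 ≤ l ^ E := one_le_pow₀ hl1
  have hlE0 : 0 < l ^ E := by positivity
  -- the parameters
  obtain ⟨P, hP⟩ : ∃ P : ℝ, P = l ^ E := ⟨_, rfl⟩
  rw [← hP] at g2 hlE hlE0
  have hY0 : (0 : ℝ) < Y := lt_of_lt_of_le (by positivity) hYC
  have hY1 : 1 ≤ Y := by
    have : (0 : ℝ) < Y := hY0
    exact_mod_cast this
  have hYxr : (Y : ℝ) ≤ x := by exact_mod_cast hYx
  obtain ⟨k, hk⟩ : ∃ k : ℝ, k = Y / (x * P) := ⟨_, rfl⟩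
  obtain ⟨k1, hk1⟩ : ∃ k1 : ℝ, k1 = 1 / P := ⟨_, rfl⟩
  have hk0 : 0 < k := by rw [hk]; positivity
  have hk10 : 0 < k1 := by rw [hk1]; positivity
  have hkk : k ≤ k1 := by
    rw [hk, hk1, div_le_div_iff₀ (by positivity) hlE0]
    calc (Y : ℝ) * P ≤ x * P := by gcongr
      _ = 1 * (x * P) := by ring
  have hkx : k * x = Y / P := by rw [hk]; field_simp
  have hP10 : 10000 ≤ P := by
    rw [hP]
    calc (10000 : ℝ) ≤ l := g1
      _ = l ^ 1 := (pow_one l).symm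
      _ ≤ l ^ E := pow_le_pow_right₀ hl1 (by omega)
  have hk1s : k1 ≤ 1 / 10 := by
    rw [hk1]
    exact one_div_le_one_div_of_le (by norm_num) (by linarith)
  have hkY : y ≤ k * x := by
    rw [hkx, le_div_iff₀ hlE0]
    refine le_trans ?_ hYC
    apply mul_le_mul_of_nonneg_left _ hy0.le
    rw [hP]
    exact pow_le_pow_right₀ hl1 (by omega)
  have h2P : 2 * P ≤ k * x := g2.trans (by rw [← hyexp]; exact hkY)
  -- the cut of Heath-Brown's identity and the number of dyadic pieces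
  obtain ⟨z, hz⟩ : ∃ z : ℕ, z = ⌊(4 * (x : ℝ)) ^ (1 / 3 : ℝ)⌋₊ := ⟨_, rfl⟩
  have h4x3 : ((4 * (x : ℝ)) ^ (1 / 3 : ℝ)) ^ 3 = 4 * x := by
    rw [← Real.rpow_natCast, ← Real.rpow_mul (by positivity)]
    norm_num
  have hz1 : (z : ℝ) ≤ 2 * y := by
    have h1 : (z : ℝ) ≤ (4 * (x : ℝ)) ^ (1 / 3 : ℝ) := by
      rw [hz]
      exact Nat.floor_le (by positivity)
    refine h1.trans ?_
    by_contra hcon
    push Not at hcon
    have h2 := pow_lt_pow_left₀ hcon (by positivity) (n := 3) (by norm_num)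
    rw [h4x3, mul_pow, ← hy3] at h2
    linarith
  have hz2 : 4 * x < (z + 1) ^ 3 := by
    have h1 : (4 * (x : ℝ)) ^ (1 / 3 : ℝ) < z + 1 := by
      rw [hz]
      exact Nat.lt_floor_add_one _
    have h2 := pow_lt_pow_left₀ h1 (by positivity) (n := 3) (by norm_num)
    rw [h4x3] at h2
    exact_mod_cast h2
  have hz3 : 1 ≤ z := by
    by_contra hcon
    have : z = 0 := by omega
    rw [this] at hz2
    norm_num at hz2
    omega
  obtain ⟨D, hD⟩ : ∃ D : ℕ, D = Nat.log 2 (4 * x) + 1 := ⟨_, rfl⟩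
  have hD1 : 1 ≤ D := by omega
  have hD2 : 4 * x < 2 ^ D := by
    rw [hD]
    exact Nat.lt_pow_succ_log_self (by norm_num) _
  have hl4 : Real.log (4 * x) ≤ 2 + l := by
    rw [Real.log_mul (by norm_num) hx0.ne', ← hl]
    have h6 : Real.log 4 = 2 * Real.log 2 := by
      rw [show (4 : ℝ) = 2 ^ 2 by norm_num, Real.log_pow]
      norm_num
    have := Real.log_two_lt_d9
    linarith
  have hD3 : (D : ℝ) ≤ 3 * l := by
    have h1 : (2 : ℝ) ^ (Nat.log 2 (4 * x)) ≤ 4 * x := by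
      have h2 : 2 ^ (Nat.log 2 (4 * x)) ≤ 4 * x := Nat.pow_log_le_self 2 (by omega)
      exact_mod_cast h2
    have h2 : (Nat.log 2 (4 * x) : ℝ) * Real.log 2 ≤ 2 + l := by
      rw [← Real.log_pow]
      exact (Real.log_le_log (by positivity) h1).trans hl4
    have h3 := Real.log_two_gt_d9
    have h4 : (0 : ℝ) ≤ Nat.log 2 (4 * x) := Nat.cast_nonneg _
    have h5 : (Nat.log 2 (4 * x) : ℝ) * (1 / 2) ≤ Nat.log 2 (4 * x) * Real.log 2 := by
      gcongr
      linarith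
    rw [hD]
    push_cast
    linarith
  obtain ⟨N, hN⟩ : ∃ N : ℕ, N = 256 * x := ⟨_, rfl⟩
  have hNr : (N : ℝ) = 256 * x := by rw [hN]; push_cast; ring
  have hwin := hgw' z D hz1 hD1 hD3 k k1 hk0 (by
    have e : k * y ^ 2 = Y / (y * P) := by
      rw [hk, hy3]
      field_simp
    rw [e, le_div_iff₀ (by positivity)]
    refine le_trans (le_of_eq ?_) hYC
    rw [hP, pow_add]
    ring) hkk (by
    rw [hk1, one_div_mul_eq_div, div_le_one hlE0, hP]
    exact pow_le_pow_right₀ hl1 (by omega)) (Real.log x) (Real.log ((3 * x : ℕ) : ℝ))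
    (Real.log_le_log hx0 (by exact_mod_cast (by omega : x ≤ 3 * x)))
  rw [← hN] at hwin
  -- long windows
  obtain ⟨δ, hδ⟩ : ∃ δ : ℂ, δ = if χ = 1 then 1 else 0 := ⟨_, rfl⟩
  have hδ1 : ‖δ‖ ≤ 1 := by rw [hδ]; split_ifs <;> simp
  rw [← hδ] at hpsi'
  have hρ : ∀ u ∈ Set.Icc (Real.log x) (Real.log ((3 * x : ℕ) : ℝ)),
      ‖Wd (bb χ) N k u - (k : ℂ) * GG (ca χ z D x) N k k1 u‖ ≤ 12 * (k * x) / P := by
    intro u hu
    have hu1 : (x : ℝ) ≤ Real.exp u := by
      rw [← Real.log_le_iff_le_exp hx0]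
      exact hu.1
    have hu2 : Real.exp u ≤ 3 * x := by
      have h1 := Real.exp_le_exp.2 hu.2
      rw [Real.exp_log (by exact_mod_cast (by omega : 0 < 3 * x))] at h1
      push_cast at h1
      exact h1
    have hexp1 : Real.exp k1 ≤ 4 / 3 := by
      have h1 := Real.abs_exp_sub_one_sub_id_le (x := k1) (by rw [abs_of_pos hk10]; linarith)
      rw [abs_le] at h1
      nlinarith [h1.2]
    have hexpw : ∀ w, 0 ≤ w → w ≤ k1 → Real.exp (u + w) ≤ 4 * x := by
      intro w _ hw1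
      rw [Real.exp_add]
      calc Real.exp u * Real.exp w ≤ (3 * x) * Real.exp k1 := by
            apply mul_le_mul hu2 (Real.exp_le_exp.2 hw1) (Real.exp_pos _).le (by positivity)
        _ ≤ (3 * x) * (4 / 3) := by gcongr
        _ = 4 * x := by ring
    have hca : ∀ w, 0 ≤ w → w ≤ k1 → Wd (ca χ z D x) N w u = Wd (cL χ) N w u := by
      intro w hw0 hw1
      unfold Wd
      apply Finset.sum_congr rfl
      intro n hn
      rw [mem_Icc] at hn
      have hn0 : (0 : ℝ) < n := by exact_mod_cast hn.1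
      by_cases h : u < Real.log n ∧ Real.log n ≤ u + w
      · have h1 : x ≤ n := by
          have h2 := Real.exp_lt_exp.2 h.1
          rw [Real.exp_log hn0] at h2
          have h3 : (x : ℝ) ≤ n := by linarith
          exact_mod_cast h3
        have h2 : n ≤ 4 * x := by
          have h2 := Real.exp_le_exp.2 h.2
          rw [Real.exp_log hn0] at h2
          have h3 : (n : ℝ) ≤ 4 * x := h2.trans (hexpw w hw0 hw1)
          exact_mod_cast h3
        unfold ca cL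
        rw [ax_eq hz3 (by omega) h1 h2 hD2 hz2]
        ring
      · rw [if_neg h, mul_zero, mul_zero]
    have hexpN : ∀ w, 0 ≤ w → w ≤ k1 → Real.exp (u + w) ≤ N := by
      intro w hw0 hw1
      have := hexpw w hw0 hw1
      rw [hNr]
      linarith
    have hone : ∀ t : ℝ, Ps (fun _ => 1) t = (⌊t⌋₊ : ℂ) := by
      intro t
      unfold Ps
      simp
    have hbb : Wd (bb χ) N k u = Wd (cL χ) N k u - δ * Wd (fun _ => 1) N k u := by
      unfold Wd bb
      rw [← hδ, Finset.mul_sum, ← Finset.sum_sub_distrib]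
      apply Finset.sum_congr rfl
      intro n _
      ring
    have hflo : ∀ w, 0 ≤ w → w ≤ k1 → ‖Ps (cL χ) (Real.exp (u + w)) -
        δ * (⌊Real.exp (u + w)⌋₊ : ℂ)‖ ≤ 4 * x / P ^ 2 := by
      intro w hw0 hw1
      have h1 : ⌊Real.exp (u + w)⌋₊ ≤ 4 * x := by
        have := Nat.floor_mono (hexpw w hw0 hw1)
        have e : (4 * (x : ℝ)) = ((4 * x : ℕ) : ℝ) := by push_cast; ring
        rwa [e, Nat.floor_natCast] at this
      have h2 := hpsi' _ h1
      unfold Ps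
      rw [hP, ← pow_mul, mul_comm E 2]
      exact h2
    have hW1 : ‖Wd (cL χ) N k1 u - δ * ((⌊Real.exp (u + k1)⌋₊ : ℂ) - (⌊Real.exp u⌋₊ : ℂ))‖ ≤
        8 * x / P ^ 2 := by
      rw [Wd_eq (cL χ) hk10.le (hexpN k1 hk10.le le_rfl)]
      have h1 := hflo k1 hk10.le le_rfl
      have h2 := hflo 0 le_rfl hk10.le
      rw [add_zero] at h2
      have e : Ps (cL χ) (Real.exp (u + k1)) - Ps (cL χ) (Real.exp u) -
          δ * ((⌊Real.exp (u + k1)⌋₊ : ℂ) - (⌊Real.exp u⌋₊ : ℂ)) =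
          (Ps (cL χ) (Real.exp (u + k1)) - δ * (⌊Real.exp (u + k1)⌋₊ : ℂ)) -
          (Ps (cL χ) (Real.exp u) - δ * (⌊Real.exp u⌋₊ : ℂ)) := by ring
      rw [e]
      refine (norm_sub_le _ _).trans ?_
      calc _ ≤ 4 * x / P ^ 2 + 4 * x / P ^ 2 := add_le_add h1 h2
        _ = _ := by ring
    have hW2 : Wd (fun _ => 1) N k u = (⌊Real.exp (u + k)⌋₊ : ℂ) - (⌊Real.exp u⌋₊ : ℂ) := by
      rw [Wd_eq _ hk0.le (hexpN k hk0.le hkk), hone, hone]
    have hmain : ‖((k / k1 : ℝ) : ℂ) * ((⌊Real.exp (u + k1)⌋₊ : ℂ) - (⌊Real.exp u⌋₊ : ℂ)) -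
        ((⌊Real.exp (u + k)⌋₊ : ℂ) - (⌊Real.exp u⌋₊ : ℂ))‖ ≤ 3 * x * (k * k1) + 2 := by
      have e : ((k / k1 : ℝ) : ℂ) * ((⌊Real.exp (u + k1)⌋₊ : ℂ) - (⌊Real.exp u⌋₊ : ℂ)) -
          ((⌊Real.exp (u + k)⌋₊ : ℂ) - (⌊Real.exp u⌋₊ : ℂ)) =
          (((k / k1) * ((⌊Real.exp (u + k1)⌋₊ : ℝ) - (⌊Real.exp u⌋₊ : ℝ)) -
          ((⌊Real.exp (u + k)⌋₊ : ℝ) - (⌊Real.exp u⌋₊ : ℝ)) : ℝ) : ℂ) := by
        push_cast
        ring
      rw [e, Complex.norm_real, Real.norm_eq_abs]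
      have hfl : ∀ t : ℝ, 0 ≤ t → t - 1 ≤ (⌊t⌋₊ : ℝ) ∧ (⌊t⌋₊ : ℝ) ≤ t := by
        intro t ht
        exact ⟨by linarith [Nat.lt_floor_add_one t], Nat.floor_le ht⟩
      obtain ⟨r1, r2⟩ := hfl (Real.exp (u + k1)) (Real.exp_pos _).le
      obtain ⟨r3, r4⟩ := hfl (Real.exp (u + k)) (Real.exp_pos _).le
      obtain ⟨r5, r6⟩ := hfl (Real.exp u) (Real.exp_pos _).le
      have hkk1 : k / k1 ≤ 1 := by rw [div_le_one hk10]; exact hkk
      have hkk0 : 0 ≤ k / k1 := by positivity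
      have hc1 := exp_cmp hk0 hkk (by linarith)
      have hc2 : |k / k1 * (Real.exp (u + k1) - Real.exp u) - (Real.exp (u + k) - Real.exp u)| ≤
          3 * x * (k * k1) := by
        have e2 : k / k1 * (Real.exp (u + k1) - Real.exp u) - (Real.exp (u + k) - Real.exp u) =
            Real.exp u * (k / k1 * (Real.exp k1 - 1) - (Real.exp k - 1)) := by
          rw [Real.exp_add, Real.exp_add]
          ring
        rw [e2, abs_mul, abs_of_pos (Real.exp_pos u)]
        exact mul_le_mul hu2 hc1 (abs_nonneg _) (by positivity)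
      have a1 : |k / k1 * (((⌊Real.exp (u + k1)⌋₊ : ℝ) - (⌊Real.exp u⌋₊ : ℝ)) -
          (Real.exp (u + k1) - Real.exp u))| ≤ 1 := by
        rw [abs_mul, abs_of_nonneg hkk0]
        have : |((⌊Real.exp (u + k1)⌋₊ : ℝ) - (⌊Real.exp u⌋₊ : ℝ)) -
            (Real.exp (u + k1) - Real.exp u)| ≤ 1 := by
          rw [abs_le]
          constructor <;> linarith
        calc _ ≤ 1 * 1 := mul_le_mul hkk1 this (abs_nonneg _) zero_le_one
          _ = 1 := one_mul _
      have a2 : |((⌊Real.exp (u + k)⌋₊ : ℝ) - (⌊Real.exp u⌋₊ : ℝ)) -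
          (Real.exp (u + k) - Real.exp u)| ≤ 1 := by
        rw [abs_le]
        constructor <;> linarith
      rw [abs_le] at hc2 a1 a2 ⊢
      constructor <;> nlinarith [hc2.1, hc2.2, a1.1, a1.2, a2.1, a2.2]
    have e0 : Wd (bb χ) N k u - (k : ℂ) * GG (ca χ z D x) N k k1 u =
        δ * (((k / k1 : ℝ) : ℂ) * ((⌊Real.exp (u + k1)⌋₊ : ℂ) - (⌊Real.exp u⌋₊ : ℂ)) -
          ((⌊Real.exp (u + k)⌋₊ : ℂ) - (⌊Real.exp u⌋₊ : ℂ))) +
        ((k / k1 : ℝ) : ℂ) * (Wd (cL χ) N k1 u -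
          δ * ((⌊Real.exp (u + k1)⌋₊ : ℂ) - (⌊Real.exp u⌋₊ : ℂ))) := by
      unfold GG
      rw [hca k hk0.le hkk, hca k1 hk10.le le_rfl, hbb, hW2]
      have hkc : (k : ℂ) ≠ 0 := by exact_mod_cast hk0.ne'
      push_cast
      field_simp
      ring
    rw [e0]
    refine (norm_add_le _ _).trans ?_
    rw [norm_mul, norm_mul, Complex.norm_real, Real.norm_of_nonneg (by positivity : 0 ≤ k / k1)]
    have b1 : ‖δ‖ * ‖((k / k1 : ℝ) : ℂ) * ((⌊Real.exp (u + k1)⌋₊ : ℂ) - (⌊Real.exp u⌋₊ : ℂ)) -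
        ((⌊Real.exp (u + k)⌋₊ : ℂ) - (⌊Real.exp u⌋₊ : ℂ))‖ ≤ 3 * x * (k * k1) + 2 := by
      calc _ ≤ 1 * (3 * x * (k * k1) + 2) := mul_le_mul hδ1 hmain (norm_nonneg _) zero_le_one
        _ = _ := one_mul _
    have b2 : k / k1 * ‖Wd (cL χ) N k1 u - δ * ((⌊Real.exp (u + k1)⌋₊ : ℂ) - (⌊Real.exp u⌋₊ : ℂ))‖ ≤
        8 * (k * x) / P := by
      calc _ ≤ k / k1 * (8 * x / P ^ 2) := mul_le_mul_of_nonneg_left hW1 (by positivity)
        _ = 8 * (k * x) / P := by
            rw [hk1]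
            field_simp
    have b3 : 2 ≤ (k * x) / P := by
      rw [le_div_iff₀ hlE0]
      exact h2P
    have b4 : 3 * x * (k * k1) = 3 * (k * x) / P := by
      rw [hk1]
      field_simp
    rw [b4] at b1
    calc _ ≤ (3 * (k * x) / P + 2) + 8 * (k * x) / P := add_le_add b1 b2
      _ ≤ (3 * (k * x) / P + (k * x) / P) + 8 * (k * x) / P := by linarith
      _ = 12 * (k * x) / P := by ring
  -- the integral over the short windows
  obtain ⟨I, hI⟩ : ∃ I : ℝ, I = 600 * (k ^ 2 * (x ^ 2 / l ^ (U + 3))) := ⟨_, rfl⟩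
  have hPU : l ^ (U + 3) ≤ P ^ 2 := by
    rw [hP, ← pow_mul]
    exact pow_le_pow_right₀ hl1 (by omega)
  have hlU0 : 0 < l ^ (U + 3) := by positivity
  have hab : Real.log x ≤ Real.log ((3 * x : ℕ) : ℝ) :=
    Real.log_le_log hx0 (by exact_mod_cast (by omega : x ≤ 3 * x))
  have hGint : Integrable fun u => ‖GG (ca χ z D x) N k k1 u‖ ^ 2 :=
    (memLp_two_iff_integrable_sq_norm (GG_int _ _ _ _).aestronglyMeasurable).1 (GG_mem _ _ _ _)
  have hIle : ∫ u in (Real.log x)..(Real.log ((3 * x : ℕ) : ℝ)), ‖Wd (bb χ) N k u‖ ^ 2 ≤ I := by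
    have h1 : ∫ u in (Real.log x)..(Real.log ((3 * x : ℕ) : ℝ)), ‖Wd (bb χ) N k u‖ ^ 2 ≤
        ∫ u in (Real.log x)..(Real.log ((3 * x : ℕ) : ℝ)),
          (2 * k ^ 2 * ‖GG (ca χ z D x) N k k1 u‖ ^ 2 + 2 * (12 * (k * x) / P) ^ 2) := by
      apply intervalIntegral.integral_mono_on hab
      · exact (Wd_sq_int _ _ _).intervalIntegrable
      · exact (hGint.const_mul _).intervalIntegrable.add intervalIntegrable_const
      · intro u hu
        have h2 := hρ u hu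
        have h3 : ‖Wd (bb χ) N k u‖ ≤ k * ‖GG (ca χ z D x) N k k1 u‖ + 12 * (k * x) / P := by
          calc ‖Wd (bb χ) N k u‖ = ‖(k : ℂ) * GG (ca χ z D x) N k k1 u +
                (Wd (bb χ) N k u - (k : ℂ) * GG (ca χ z D x) N k k1 u)‖ := by rw [add_sub_cancel]
            _ ≤ ‖(k : ℂ) * GG (ca χ z D x) N k k1 u‖ + 12 * (k * x) / P :=
                (norm_add_le _ _).trans (add_le_add_right h2 _)
            _ = _ := by rw [norm_mul, Complex.norm_real, Real.norm_of_nonneg hk0.le]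
        have h4 := pow_le_pow_left₀ (norm_nonneg _) h3 2
        nlinarith [sq_nonneg (k * ‖GG (ca χ z D x) N k k1 u‖ - 12 * (k * x) / P)]
    refine h1.trans ?_
    rw [intervalIntegral.integral_add (hGint.const_mul _).intervalIntegrable intervalIntegrable_const,
      intervalIntegral.integral_const_mul, intervalIntegral.integral_const, smul_eq_mul]
    have h2 : Real.log ((3 * x : ℕ) : ℝ) - Real.log x ≤ 2 := by
      push_cast
      rw [Real.log_mul (by norm_num) hx0.ne']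
      have h3 : Real.log 3 ≤ 2 := by
        have := Real.log_le_sub_one_of_pos (show (0 : ℝ) < 3 by norm_num)
        linarith
      linarith
    have h3 : (12 * (k * x) / P) ^ 2 ≤ 144 * (k ^ 2 * (x ^ 2 / l ^ (U + 3))) := by
      have e : (12 * (k * x) / P) ^ 2 = 144 * (k ^ 2 * (x ^ 2 / P ^ 2)) := by
        field_simp
        norm_num
      rw [e]
      gcongr
    have h4 : 2 * k ^ 2 * (∫ u in (Real.log x)..(Real.log ((3 * x : ℕ) : ℝ)),
        ‖GG (ca χ z D x) N k k1 u‖ ^ 2) ≤ 2 * k ^ 2 * (x ^ 2 / l ^ (U + 3)) :=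
      mul_le_mul_of_nonneg_left hwin (by positivity)
    have h5 : (Real.log ((3 * x : ℕ) : ℝ) - Real.log x) * (2 * (12 * (k * x) / P) ^ 2) ≤
        2 * (2 * (144 * (k ^ 2 * (x ^ 2 / l ^ (U + 3))))) := by
      apply mul_le_mul h2 _ (by positivity) (by norm_num)
      linarith
    rw [hI]
    have h6 : 0 ≤ k ^ 2 * (x ^ 2 / l ^ (U + 3)) := by positivity
    linarith
  have hβ : ∀ n, 1 ≤ n → n ≤ N → ‖bb χ n‖ ≤ 3 * l := by
    intro n hn1 hnN
    have hn0 : (0 : ℝ) < n := by exact_mod_cast hn1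
    have h1 : Real.log n ≤ 8 + l := by
      have h2 : Real.log n ≤ Real.log (256 * x) := by
        apply Real.log_le_log hn0
        rw [← hNr]
        exact_mod_cast hnN
      rw [Real.log_mul (by norm_num) hx0.ne', ← hl] at h2
      have h6 : Real.log 256 = 8 * Real.log 2 := by
        rw [show (256 : ℝ) = 2 ^ 8 by norm_num, Real.log_pow]
        norm_num
      have := Real.log_two_lt_d9
      linarith
    have h2 : ‖cL χ n‖ ≤ Real.log n := by
      unfold cL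
      rw [norm_mul, Complex.norm_real,
        Real.norm_of_nonneg ArithmeticFunction.vonMangoldt_nonneg]
      calc ‖χ (n : ZMod q)‖ * ArithmeticFunction.vonMangoldt n ≤
            1 * ArithmeticFunction.vonMangoldt n :=
            mul_le_mul_of_nonneg_right (χ.norm_le_one _) ArithmeticFunction.vonMangoldt_nonneg
        _ ≤ Real.log n := by
            rw [one_mul]
            exact ArithmeticFunction.vonMangoldt_le_log
    unfold bb
    rw [← hδ]
    have h3 := norm_sub_le (cL χ n) δ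
    linarith
  have hfin := cut3 (f := bb χ) (N := N) (x := x) (Y := Y) (k := k) (β := 3 * l)
    (R := 42 * l * (k * x)) (I := I) (by omega) hY1 hYx hk0 (by linarith) (by positivity) hβ
    (by rw [hN]; omega) (by
      have : 2 ≤ k * x * 2 := by linarith
      have h5 : 3 * l * (4 * k * (3 * x) + 2) ≤ 3 * l * (4 * k * (3 * x) + k * x * 2) := by
        gcongr
      refine h5.trans (le_of_eq ?_)
      ring) hIle
  refine hfin.trans ?_
  have c1 : 2 * ((Y : ℝ) / (x * k)) * (Y * I) / k = 1200 * (x * (Y : ℝ) ^ 2 / l ^ (U + 3)) := by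
    rw [hI]
    field_simp
    norm_num
  have c2 : 2 * x * (42 * l * (k * x)) ^ 2 ≤ 3528 * (x * (Y : ℝ) ^ 2 / l ^ (U + 3)) := by
    rw [hkx]
    have e : 2 * x * (42 * l * (Y / P)) ^ 2 = 3528 * (x * (Y : ℝ) ^ 2 * (l ^ 2 / P ^ 2)) := by
      field_simp
      norm_num
    rw [e]
    have h5 : l ^ 2 / P ^ 2 ≤ 1 / l ^ (U + 3) := by
      rw [div_le_div_iff₀ (by positivity) hlU0, one_mul, ← pow_add, hP, ← pow_mul]
      exact pow_le_pow_right₀ hl1 (by omega)
    calc 3528 * (x * (Y : ℝ) ^ 2 * (l ^ 2 / P ^ 2)) ≤ 3528 * (x * (Y : ℝ) ^ 2 * (1 / l ^ (U + 3))) := by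
          gcongr
      _ = _ := by ring
  rw [c1]
  have c3 : x * (Y : ℝ) ^ 2 / l ^ U = l ^ 3 * (x * (Y : ℝ) ^ 2 / l ^ (U + 3)) := by
    rw [pow_add]
    field_simp
  rw [c3]
  have c4 : 0 ≤ x * (Y : ℝ) ^ 2 / l ^ (U + 3) := by positivity
  have c5 : (4728 : ℝ) ≤ l ^ 3 := by
    calc (4728 : ℝ) ≤ l ^ 1 := by rw [pow_one]; linarith
      _ ≤ l ^ 3 := pow_le_pow_right₀ hl1 (by norm_num)
  calc _ ≤ 1200 * (x * (Y : ℝ) ^ 2 / l ^ (U + 3)) + 3528 * (x * (Y : ℝ) ^ 2 / l ^ (U + 3)) := by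
        linarith
    _ = 4728 * (x * (Y : ℝ) ^ 2 / l ^ (U + 3)) := by ring
    _ ≤ _ := mul_le_mul_of_nonneg_right c5 c4

end Pool.Agent.K9h19.CR
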