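import Pool.Agent.K9h19.CR.SM1
import Pool.Agent.H373R2.T7.SysCount

/-!
# The mean square of the coefficients
-/

set_option autoImplicit false

namespace Pool.Agent.K9h19.CR

open Finset Filter Topology
open Pool.Agent.H373R2.T7 (lamz Vz pz Vz_pos Vz_inv_small)

theorem nuB_dvd {p : ℕ} (hp : 1 ≤ p) : Pool.Agent.H373R2.T7.nuB (fun p n => p ∣ n) p = 1 := by
  classical
  have hset : ∀ S : Finset ℕ, S = (range p).filter (fun n : ℕ => p ∣ n) → S.card = 1 := by
    intro S hS
    rw [hS, Finset.card_eq_one]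
    refine ⟨0, ?_⟩
    ext a
    rw [mem_filter, mem_range, mem_singleton]
    constructor
    · rintro ⟨h3, h4⟩
      exact Nat.eq_zero_of_dvd_of_lt h4 h3
    · rintro rfl
      exact ⟨hp, dvd_zero _⟩
  unfold Pool.Agent.H373R2.T7.nuB
  apply hset
  ext n
  simp only [mem_filter]

/-- the mean square of the coefficients -/
theorem PE_sq (E : ℕ) : ∃ N₀ : ℕ, ∀ N : ℕ, N₀ ≤ N → ∀ z : ℕ, 1 ≤ z → (z : ℝ) ≤ Real.log N ^ E →
    ∑ n ∈ Icc 1 N, (PE z n) ^ 2 ≤ 26 * (N / Real.log N) := by
  classical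
  obtain ⟨N₁, h1⟩ := Pool.Agent.H373R2.T7.sys_count 1 E 2 le_rfl
  obtain ⟨N₂, hVz⟩ := Vz_inv_small E
  obtain ⟨N₃, hN₃⟩ := ev_natlog (P := fun l => 100 ≤ l ∧ 4 * l ^ 3 ≤ Real.exp (1 / 2 * l)) (by
    filter_upwards [eventually_ge_atTop 100, ev_exp (1 / 2) 4 3 (by norm_num)] with l h1 h2
    exact ⟨h1, h2⟩)
  refine ⟨max (max N₁ N₂) (max N₃ 4), fun N hN z hz hzE => ?_⟩
  obtain ⟨g1, g2⟩ := hN₃ N ((le_max_left _ _).trans ((le_max_right _ _).trans hN))
  have hN4 : 4 ≤ N := (le_max_right _ _).trans ((le_max_right _ _).trans hN)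
  have hN0 : (0 : ℝ) < N := by exact_mod_cast (by omega : 0 < N)
  have hV := hVz N ((le_max_right _ _).trans ((le_max_left _ _).trans hN)) z hz hzE
  have hcount := h1 N ((le_max_left _ _).trans ((le_max_left _ _).trans hN)) z hz hzE (fun p n => p ∣ n)
    ⟨fun p n => by rw [Nat.dvd_mod_iff (dvd_refl p)], fun p hp => (nuB_dvd hp.one_le).le⟩
  obtain ⟨L, hL⟩ : ∃ L : ℝ, L = Real.log N := ⟨_, rfl⟩
  rw [← hL] at g1 g2 hV hcount ⊢
  have hL0 : 0 < L := by linarith
  have hL1 : 1 ≤ L := by linarith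
  have hsq : Real.sqrt N = Real.exp (1 / 2 * L) := by
    rw [Real.sqrt_eq_rpow, Real.rpow_def_of_pos hN0, hL]
    congr 1
    ring
  have hsqq : Real.sqrt N * Real.sqrt N = N := Real.mul_self_sqrt hN0.le
  have hsq0 : 0 < Real.sqrt N := Real.sqrt_pos.2 hN0
  rw [← hsq] at g2
  -- the primes
  have hpi : (((Icc 1 N).filter Nat.Prime).card : ℝ) ≤ 4 * (N / L) := by
    have h2 := Chebyshev.pi_le_log4_mul_div (x := (N : ℝ)) (by exact_mod_cast (by omega : 1 < N))
    have e1 : (((Icc 1 N).filter Nat.Prime).card : ℝ) = (Nat.primeCounting ⌊(N : ℝ)⌋₊ : ℝ) := by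
      rw [Nat.floor_natCast, Nat.primeCounting, Nat.primeCounting', Nat.count_eq_card_filter_range]
      congr 2
      ext n
      simp only [mem_filter, mem_Icc, mem_range]
      constructor
      · rintro ⟨h3, h4⟩
        exact ⟨by omega, h4⟩
      · rintro ⟨h3, h4⟩
        exact ⟨⟨h4.one_le, by omega⟩, h4⟩
    rw [e1]
    refine h2.trans ?_
    have e2 : Real.log (Real.sqrt N) = L / 2 := by rw [Real.log_sqrt hN0.le, hL]
    rw [e2]
    have h4 : Real.log 4 ≤ 3 / 2 := by
      have : Real.log 4 = 2 * Real.log 2 := by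
        rw [show (4 : ℝ) = 2 ^ 2 by norm_num, Real.log_pow]
        norm_num
      rw [this]
      have := Real.log_two_lt_d9
      linarith
    have h5 : Real.sqrt N ≤ N / L := by
      rw [le_div_iff₀ hL0]
      calc Real.sqrt N * L ≤ Real.sqrt N * Real.sqrt N := by
            apply mul_le_mul_of_nonneg_left _ hsq0.le
            have : L ≤ L ^ 3 := le_self_pow₀ hL1 (by norm_num)
            linarith
        _ = N := hsqq
    have h6 : Real.log 4 * N / (L / 2) ≤ 3 * (N / L) := by
      have e3 : Real.log 4 * N / (L / 2) = (2 * Real.log 4) * (N / L) := by field_simp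
      rw [e3]
      apply mul_le_mul_of_nonneg_right _ (by positivity)
      linarith
    linarith
  -- the model
  have hVp := inv_pos.2 (Vz_pos z)
  have hsift : ∑ n ∈ Icc 1 N, lamz z n ≤ 2 * N := by
    have e1 : ∑ n ∈ Icc 1 N, lamz z n = (Vz z)⁻¹ * (((Icc 1 N).filter (fun n : ℕ => ∀ p ∈ pz z, ¬ p ∣ n)).card : ℝ) := by
      unfold lamz
      rw [← Finset.sum_filter, Finset.sum_const, nsmul_eq_mul, mul_comm]
    rw [e1]
    have h2 : ∏ p ∈ pz z, (1 - (Pool.Agent.H373R2.T7.nuB (fun p n => p ∣ n) p : ℝ) / p) = Vz z := by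
      unfold Vz
      apply Finset.prod_congr rfl
      intro p hp
      rw [nuB_dvd (Pool.Agent.H373R2.T7.mem_pz.1 hp).2.one_le]
      norm_num
    have hc2 : |(((Icc 1 N).filter (fun n : ℕ => ∀ p ∈ pz z, ¬ p ∣ n)).card : ℝ) -
        N * ∏ p ∈ pz z, (1 - (Pool.Agent.H373R2.T7.nuB (fun p n => p ∣ n) p : ℝ) / p)| ≤ N / L ^ 2 := by
      convert hcount
    rw [h2] at hc2
    have h3 : (((Icc 1 N).filter (fun n : ℕ => ∀ p ∈ pz z, ¬ p ∣ n)).card : ℝ) ≤ N * Vz z + N / L ^ 2 := by
      have := (abs_le.1 hc2).2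
      linarith
    calc (Vz z)⁻¹ * (((Icc 1 N).filter (fun n : ℕ => ∀ p ∈ pz z, ¬ p ∣ n)).card : ℝ) ≤
          (Vz z)⁻¹ * (N * Vz z + N / L ^ 2) := by gcongr
      _ = N + (Vz z)⁻¹ * (N / L ^ 2) := by
          have := (Vz_pos z).ne'
          field_simp
      _ ≤ N + L * (N / L ^ 2) := by gcongr
      _ = N + N / L := by
          rw [sq]
          field_simp
      _ ≤ N + N := by
          have := div_le_self hN0.le hL1
          linarith
      _ = 2 * N := by ring
  have hmodel : ∑ n ∈ Icc 1 N, (lamz z n / Real.log n) ^ 2 ≤ 9 * (N / L) := by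
    have h2 : ∀ n ∈ Icc 1 N, (lamz z n / Real.log n) ^ 2 ≤ (4 / L) * lamz z n + (if n ^ 2 ≤ N then 4 * L ^ 2 else 0) := by
      intro n hn
      rw [mem_Icc] at hn
      have h3 := lamz_nonneg z n
      have h4 := (lamz_le z n).trans hV
      rcases Nat.lt_or_ge n 2 with h5 | h5
      · have h6 : Real.log n = 0 := by
          interval_cases n <;> simp
        rw [h6, div_zero]
        have : (0 : ℝ) ≤ (if n ^ 2 ≤ N then 4 * L ^ 2 else 0) := by split_ifs <;> positivity
        have : 0 ≤ (4 / L) * lamz z n := by positivity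
        linarith
      · have h6 := log_two_le h5
        have h7 : 0 < Real.log n := by linarith
        split_ifs with h8
        · have h9 : lamz z n / Real.log n ≤ 2 * L := by
            rw [div_le_iff₀ h7]
            nlinarith
          have h10 : (lamz z n / Real.log n) ^ 2 ≤ (2 * L) ^ 2 := pow_le_pow_left₀ (by positivity) h9 2
          have : 0 ≤ (4 / L) * lamz z n := by positivity
          linarith
        · rw [add_zero]
          have h9 : L / 2 ≤ Real.log n := by
            have h10 : Real.log N ≤ Real.log ((n : ℝ) ^ 2) := by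
              apply Real.log_le_log hN0
              push Not at h8
              exact_mod_cast h8.le
            rw [Real.log_pow] at h10
            push_cast at h10
            rw [hL]
            linarith
          have h10 : (lamz z n / Real.log n) ^ 2 = lamz z n * lamz z n / (Real.log n * Real.log n) := by
            field_simp
          rw [h10]
          calc lamz z n * lamz z n / (Real.log n * Real.log n) ≤ lamz z n * L / (L / 2 * (L / 2)) := by gcongr
            _ = (4 / L) * lamz z n := by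
                field_simp
                ring
    refine (Finset.sum_le_sum h2).trans ?_
    rw [Finset.sum_add_distrib, ← Finset.mul_sum, ← Finset.sum_filter, Finset.sum_const, nsmul_eq_mul]
    have h3 : (((Icc 1 N).filter (fun n => n ^ 2 ≤ N)).card : ℝ) ≤ Real.sqrt N := by
      have h4 : ((Icc 1 N).filter (fun n => n ^ 2 ≤ N)).card ≤ (Icc 1 (Nat.sqrt N)).card := by
        apply card_le_card
        intro n hn
        rw [mem_filter, mem_Icc] at hn
        rw [mem_Icc]
        exact ⟨hn.1.1, Nat.le_sqrt'.2 hn.2⟩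
      rw [Nat.card_Icc, Nat.add_sub_cancel] at h4
      have h5 : (Nat.sqrt N : ℝ) ≤ Real.sqrt N := Real.nat_sqrt_le_real_sqrt
      have h6 : (((Icc 1 N).filter (fun n => n ^ 2 ≤ N)).card : ℝ) ≤ Nat.sqrt N := by exact_mod_cast h4
      linarith
    have h4 : (((Icc 1 N).filter (fun n => n ^ 2 ≤ N)).card : ℝ) * (4 * L ^ 2) ≤ N / L := by
      rw [le_div_iff₀ hL0]
      calc (((Icc 1 N).filter (fun n => n ^ 2 ≤ N)).card : ℝ) * (4 * L ^ 2) * L ≤
            Real.sqrt N * (4 * L ^ 2) * L := by gcongr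
        _ = Real.sqrt N * (4 * L ^ 3) := by ring
        _ ≤ Real.sqrt N * Real.sqrt N := by gcongr
        _ = N := hsqq
    have h5 : 4 / L * ∑ n ∈ Icc 1 N, lamz z n ≤ 8 * (N / L) := by
      calc 4 / L * ∑ n ∈ Icc 1 N, lamz z n ≤ 4 / L * (2 * N) := by gcongr
        _ = 8 * (N / L) := by ring
    linarith
  have hprime : ∑ n ∈ Icc 1 N, (if n.Prime then (1 : ℝ) else 0) ≤ 4 * (N / L) := by
    rw [← Finset.sum_filter, Finset.sum_const, nsmul_eq_mul, mul_one]
    exact hpi
  calc ∑ n ∈ Icc 1 N, (PE z n) ^ 2 ≤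
        ∑ n ∈ Icc 1 N, (2 * (if n.Prime then (1 : ℝ) else 0) + 2 * (lamz z n / Real.log n) ^ 2) := by
        apply Finset.sum_le_sum
        intro n _
        unfold PE
        split_ifs
        · nlinarith [sq_nonneg (1 + lamz z n / Real.log n)]
        · nlinarith [sq_nonneg (lamz z n / Real.log n)]
    _ = 2 * ∑ n ∈ Icc 1 N, (if n.Prime then (1 : ℝ) else 0) + 2 * ∑ n ∈ Icc 1 N, (lamz z n / Real.log n) ^ 2 := by
        rw [Finset.sum_add_distrib, Finset.mul_sum, Finset.mul_sum]
    _ ≤ 26 * (N / L) := by linarith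


end Pool.Agent.K9h19.CR
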