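import Pool.Agent.K9h19.CR.PAR

/-!
# The domination of the mean square of the Weyl sums
-/

set_option autoImplicit false

namespace Pool.Agent.K9h19.CR

open Finset Filter Topology MeasureTheory
open Pool.Agent.H807R2.Dav (ee norm_ee ee_add ee_zero KK KK_nonneg geo_bound vino conj_ee)

/-- the Weyl sum over a window -/
noncomputable def VV (α γ : ℤ) (y k : ℕ) (β : ℝ) : ℂ :=
  ∑ t ∈ Ioc k (k + y), ee (((α * (t : ℤ) ^ 2 + γ * (t : ℤ) : ℤ) : ℝ) * β)

theorem VV_triv (α γ : ℤ) (y k : ℕ) (β : ℝ) : ‖VV α γ y k β‖ ≤ y := by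
  unfold VV
  refine (norm_sum_le _ _).trans ?_
  simp [norm_ee]

theorem VV_cont (α γ : ℤ) (y k : ℕ) : Continuous (fun β => VV α γ y k β) := by
  unfold VV
  fun_prop

/-- the mean square of the Weyl sums over the windows -/
theorem weylK (α γ : ℤ) (u K y : ℕ) (β : ℝ) {s : ℕ} {h : ℤ} (hs : 1 ≤ s) (hcop : IsCoprime h (s : ℤ))
    (hβ : |2 * α * β - h / s| ≤ 1 / (s : ℝ) ^ 2) :
    ∑ k ∈ Ioc u (u + K), ‖VV α γ y k β‖ ^ 2 ≤
      y * (K + 2 * ((((y + 1 : ℕ) : ℝ) / s + 1) * (39 * K + 3 * s * (1 + Real.log s)))) := by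
  obtain ⟨w, hw⟩ : ∃ w : ℕ → ℕ → ℂ, w = fun k r => ee (((α * ((k + 1 + r : ℕ) : ℤ) ^ 2 +
    γ * ((k + 1 + r : ℕ) : ℤ) : ℤ) : ℝ) * β) := ⟨_, rfl⟩
  have e1 : ∀ k, VV α γ y k β = ∑ r ∈ range y, w k r := by
    intro k
    rw [hw]
    have e2 : Ioc k (k + y) = Ico (k + 1) (k + 1 + y) := by
      ext n
      rw [mem_Ioc, mem_Ico]
      omega
    unfold VV
    rw [e2, Finset.sum_Ico_eq_sum_range]
    have e3 : k + 1 + y - (k + 1) = y := by omega
    rw [e3]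
  have hw1 : ∀ k r, ‖w k r‖ = 1 := by
    intro k r
    rw [hw]
    exact norm_ee _
  -- the identity summed
  have h0 : ((∑ k ∈ Ioc u (u + K), ‖∑ r ∈ range y, w k r‖ ^ 2 : ℝ) : ℂ) =
      ((K * y : ℝ) : ℂ) + ((∑ j ∈ range y, ∑ r ∈ range (y - j - 1), ∑ k ∈ Ioc u (u + K),
        w k (r + j + 1) * (starRingEnd ℂ) (w k r)) +
      (starRingEnd ℂ) (∑ j ∈ range y, ∑ r ∈ range (y - j - 1), ∑ k ∈ Ioc u (u + K),
        w k (r + j + 1) * (starRingEnd ℂ) (w k r))) := by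
    rw [Complex.ofReal_sum, Finset.sum_congr rfl (fun k _ => vdc_id (w k) y), Finset.sum_add_distrib,
      Finset.sum_add_distrib]
    congr 1
    · simp_rw [hw1]
      simp
    · rw [← map_sum]
      have e2 : ∑ k ∈ Ioc u (u + K), ∑ j ∈ range y, ∑ s ∈ range (y - j - 1),
          w k (s + j + 1) * (starRingEnd ℂ) (w k s) =
          ∑ j ∈ range y, ∑ r ∈ range (y - j - 1), ∑ k ∈ Ioc u (u + K),
            w k (r + j + 1) * (starRingEnd ℂ) (w k r) := by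
        rw [Finset.sum_comm]
        apply Finset.sum_congr rfl
        intro j _
        rw [Finset.sum_comm]
      rw [e2]
  have h1 : ∑ k ∈ Ioc u (u + K), ‖∑ r ∈ range y, w k r‖ ^ 2 ≤ K * y +
      2 * ∑ j ∈ range y, ∑ r ∈ range (y - j - 1), ‖∑ k ∈ Ioc u (u + K),
        w k (r + j + 1) * (starRingEnd ℂ) (w k r)‖ := by
    have h2 := congrArg norm h0
    rw [Complex.norm_real, Real.norm_of_nonneg (Finset.sum_nonneg fun _ _ => by positivity)] at h2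
    rw [h2]
    refine (norm_add_le _ _).trans ?_
    apply add_le_add
    · rw [Complex.norm_real, Real.norm_of_nonneg (by positivity)]
    · refine (norm_add_le _ _).trans ?_
      rw [RCLike.norm_conj, ← two_mul]
      apply mul_le_mul_of_nonneg_left _ (by norm_num)
      refine (norm_sum_le _ _).trans ?_
      apply Finset.sum_le_sum
      intro j _
      exact norm_sum_le _ _
  have h2 : ∀ j ∈ range y, ∀ r ∈ range (y - j - 1), ‖∑ k ∈ Ioc u (u + K),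
      w k (r + j + 1) * (starRingEnd ℂ) (w k r)‖ ≤ KK K (0 + ((j + 1 : ℕ) : ℝ) * (2 * α * β)) := by
    intro j _ r _
    rw [zero_add]
    have h3 : ∀ k ∈ Ioc u (u + K), w k (r + j + 1) * (starRingEnd ℂ) (w k r) =
        ee (((α * ((j + 1 : ℕ) : ℤ) * ((2 * r + j + 3 : ℕ) : ℤ) +
          γ * ((j + 1 : ℕ) : ℤ) : ℤ) : ℝ) * β) * ee (k * (((j + 1 : ℕ) : ℝ) * (2 * α * β))) := by
      intro k _
      rw [hw]
      simp only
      rw [conj_ee, ← ee_add, ← ee_add]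
      congr 1
      push_cast
      ring
    have e2 : Ioc u (u + K) = Ico (u + 1) (u + 1 + K) := by
      ext n
      rw [mem_Ioc, mem_Ico]
      omega
    rw [Finset.sum_congr rfl h3, ← Finset.mul_sum, norm_mul, norm_ee, one_mul, e2]
    apply geo_bound (u + 1) (u + 1 + K) (by omega)
    push_cast
    linarith
  have h3 : ∑ j ∈ range y, ∑ r ∈ range (y - j - 1), ‖∑ k ∈ Ioc u (u + K),
      w k (r + j + 1) * (starRingEnd ℂ) (w k r)‖ ≤
      y * ((((y + 1 : ℕ) : ℝ) / s + 1) * (39 * K + 3 * s * (1 + Real.log s))) := by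
    have hv := vino hs hcop hβ (M := (K : ℝ)) (Nat.cast_nonneg _) 0 (y + 1)
    refine le_trans ?_ (mul_le_mul_of_nonneg_left hv (Nat.cast_nonneg y))
    rw [Finset.sum_range_succ' (fun j : ℕ => KK K (0 + (j : ℝ) * (2 * α * β)))]
    have h4 := KK_nonneg (Nat.cast_nonneg (α := ℝ) K) (0 + ((0 : ℕ) : ℝ) * (2 * α * β))
    have h5 : ∑ j ∈ range y, ∑ r ∈ range (y - j - 1), ‖∑ k ∈ Ioc u (u + K),
      w k (r + j + 1) * (starRingEnd ℂ) (w k r)‖ ≤
        ∑ j ∈ range y, (y : ℝ) * KK K (0 + ((j + 1 : ℕ) : ℝ) * (2 * α * β)) := by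
      apply Finset.sum_le_sum
      intro j hj
      refine (Finset.sum_le_sum (h2 j hj)).trans ?_
      rw [Finset.sum_const, nsmul_eq_mul, card_range]
      apply mul_le_mul_of_nonneg_right _ (KK_nonneg (Nat.cast_nonneg _) _)
      exact_mod_cast (by omega : y - j - 1 ≤ y)
    refine h5.trans ?_
    rw [← Finset.mul_sum]
    apply mul_le_mul_of_nonneg_left _ (Nat.cast_nonneg y)
    linarith
  have h4 : ∑ k ∈ Ioc u (u + K), ‖VV α γ y k β‖ ^ 2 = ∑ k ∈ Ioc u (u + K), ‖∑ r ∈ range y, w k r‖ ^ 2 := by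
    apply Finset.sum_congr rfl
    intro k _
    rw [e1]
  rw [h4]
  refine h1.trans ?_
  have h5 : (y : ℝ) * (K + 2 * ((((y + 1 : ℕ) : ℝ) / s + 1) * (39 * K + 3 * s * (1 + Real.log s)))) =
      K * y + 2 * (y * ((((y + 1 : ℕ) : ℝ) / s + 1) * (39 * K + 3 * s * (1 + Real.log s)))) := by ring
  rw [h5]
  linarith

theorem ee_int' (n : ℤ) : ee (n : ℝ) = 1 := by
  unfold ee
  rw [Complex.exp_eq_one_iff]
  exact ⟨n, by push_cast; ring⟩

theorem DH_per (H : ℕ) (β : ℝ) (m : ℤ) : DH H (β - m) = DH H β := by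
  unfold DH
  apply Finset.sum_congr rfl
  intro h _
  have e : (h : ℝ) * (β - m) = h * β + ((-(h : ℤ) * m : ℤ) : ℝ) := by
    push_cast
    ring
  rw [e, ee_add, ee_int', mul_one]

theorem DH_cont (H : ℕ) (θ : ℝ) : Continuous (fun β => DH H (β - θ)) := by
  unfold DH
  fun_prop

/-- arithmetic of the minor arcs -/
theorem minor_num {y K s Q R l : ℝ} (hy : 1 ≤ y) (hK : 1 ≤ K) (hs : 1 ≤ s) (hl0 : 0 ≤ l)
    (hQ : 1 ≤ Q) (hR : 1 ≤ R) (h1 : Q ≤ s) (h3 : Q * (1 + l) ≤ K)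
    (h4 : s * R ≤ y * K) (h5 : Q * (1 + l) ≤ R) :
    y * (K + 2 * (((y + 1) / s + 1) * (39 * K + 3 * s * (1 + l)))) ≤
      79 * (y * K) + 180 * (y ^ 2 * K / Q) := by
  have hs0 : 0 < s := by linarith
  have hQ0 : 0 < Q := by linarith
  have hy0 : 0 < y := by linarith
  have hK0 : 0 < K := by linarith
  have hR0 : 0 < R := by linarith
  have hl1 : 0 < 1 + l := by linarith
  obtain ⟨T, hT⟩ : ∃ T, T = y * K / Q := ⟨_, rfl⟩
  have hT0 : 0 < T := by rw [hT]; positivity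
  have t2 : y * K / s ≤ T := by
    rw [hT]
    exact div_le_div_of_nonneg_left (by positivity) hQ0 h1
  have t3 : y * (1 + l) ≤ T := by
    rw [hT, le_div_iff₀ hQ0]
    calc y * (1 + l) * Q = y * (Q * (1 + l)) := by ring
      _ ≤ y * K := by gcongr
  have t4 : s * (1 + l) ≤ T := by
    rw [hT, le_div_iff₀ hQ0]
    calc s * (1 + l) * Q = s * (Q * (1 + l)) := by ring
      _ ≤ s * R := by gcongr
      _ ≤ y * K := h4
  have e1 : ((y + 1) / s + 1) * (39 * K + 3 * s * (1 + l)) ≤ (2 * y / s + 1) * (39 * K + 3 * s * (1 + l)) := by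
    gcongr
    linarith
  have e2 : (2 * y / s + 1) * (39 * K + 3 * s * (1 + l)) =
      78 * (y * K / s) + 39 * K + 6 * (y * (1 + l)) + 3 * (s * (1 + l)) := by
    field_simp
    ring
  have e3 : K + 2 * (((y + 1) / s + 1) * (39 * K + 3 * s * (1 + l))) ≤ 79 * K + 174 * T := by linarith
  calc y * (K + 2 * (((y + 1) / s + 1) * (39 * K + 3 * s * (1 + l)))) ≤ y * (79 * K + 174 * T) := by gcongr
    _ = 79 * (y * K) + 174 * (y * T) := by ring
    _ ≤ 79 * (y * K) + 180 * (y * T) := by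
        have : 0 ≤ y * T := by positivity
        linarith
    _ = _ := by rw [hT]; ring

/-- the domination: `Q` the bound for the denominators, `Q'` the order of the approximation -/
theorem domin {α : ℕ} (hα : 1 ≤ α) (γ : ℤ) (u K y Q₀ Q' H : ℕ) (Q R : ℝ) (hK : 1 ≤ K) (hy : 1 ≤ y)
    (hH : 1 ≤ H) (hHQ : 3 * H ≤ Q' + 1) (hQ' : 1 ≤ Q') (hQ1 : 1 ≤ Q) (hR1 : 1 ≤ R) (hQ₀ : Q ≤ Q₀ + 1)
    (hQK : Q * (1 + Real.log Q') ≤ K) (hQR : Q * (1 + Real.log Q') ≤ R)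
    (hQ'R : Q' * R ≤ y * K) (β : ℝ) :
    ∑ k ∈ Ioc u (u + K), ‖VV α γ y k β‖ ^ 2 ≤ (79 * (y * K) + 180 * ((y : ℝ) ^ 2 * K / Q)) +
      K * (y : ℝ) ^ 2 * ((4 / (H : ℝ) ^ 2) * ∑ s ∈ Icc 1 Q₀, ∑ h ∈ range (2 * α * s),
        ‖DH H (β - (h : ℝ) / (2 * α * s : ℕ))‖ ^ 2) := by
  have hα0 : (0 : ℝ) < α := by exact_mod_cast hα
  have hK1 : (1 : ℝ) ≤ K := by exact_mod_cast hK
  have hy1 : (1 : ℝ) ≤ y := by exact_mod_cast hy
  have hH0 : (0 : ℝ) < H := by exact_mod_cast hH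
  obtain ⟨x, hx1, hx2⟩ := Real.exists_rat_abs_sub_le_and_den_le (2 * (α : ℤ) * β) (n := Q') (by omega)
  obtain ⟨s, hs⟩ : ∃ s : ℕ, s = x.den := ⟨_, rfl⟩
  obtain ⟨h, hh⟩ : ∃ h : ℤ, h = x.num := ⟨_, rfl⟩
  have hs1 : 1 ≤ s := by rw [hs]; exact x.pos
  have hs1r : (1 : ℝ) ≤ s := by exact_mod_cast hs1
  have hs0 : (0 : ℝ) < s := by linarith
  have hsQ : s ≤ Q' := by rw [hs]; exact hx2
  have hsQr : (s : ℝ) ≤ Q' := by exact_mod_cast hsQ
  have hxe : (x : ℝ) = h / s := by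
    rw [hs, hh]
    exact_mod_cast (Rat.num_div_den x).symm
  rw [hxe, ← hs] at hx1
  have hcop : IsCoprime h (s : ℤ) := by
    rw [hh, hs]
    exact Rat.isCoprime_num_den x
  have hQ'0 : (0 : ℝ) < (Q' : ℝ) + 1 := by positivity
  have hin1 : 0 ≤ 79 * ((y : ℝ) * K) + 180 * ((y : ℝ) ^ 2 * K / Q) := by
    have : 0 < Q := by linarith
    positivity
  have hin2 : 0 ≤ ∑ s ∈ Icc 1 Q₀, ∑ h ∈ range (2 * α * s),
        ‖DH H (β - (h : ℝ) / (2 * α * s : ℕ))‖ ^ 2 :=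
    Finset.sum_nonneg fun _ _ => Finset.sum_nonneg fun _ _ => by positivity
  rcases Nat.lt_or_ge Q₀ s with hc | hc
  · -- minor arcs
    have h1 : |2 * (α : ℤ) * β - h / s| ≤ 1 / (s : ℝ) ^ 2 := by
      refine hx1.trans ?_
      apply one_div_le_one_div_of_le (by positivity)
      rw [sq]
      apply mul_le_mul_of_nonneg_right _ hs0.le
      linarith
    have h2 := weylK (α : ℤ) γ u K y β hs1 hcop (by exact_mod_cast h1)
    refine h2.trans ?_
    have h3 : Q ≤ s := by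
      refine hQ₀.trans ?_
      exact_mod_cast hc
    have hl : Real.log s ≤ Real.log Q' := Real.log_le_log hs0 hsQr
    have h4 := minor_num hy1 hK1 hs1r (Real.log_nonneg hs1r) hQ1 hR1 h3
      (le_trans (mul_le_mul_of_nonneg_left (by linarith) (by linarith)) hQK)
      (le_trans (mul_le_mul_of_nonneg_right hsQr (by linarith)) hQ'R)
      (le_trans (mul_le_mul_of_nonneg_left (by linarith) (by linarith)) hQR)
    push_cast
    have h5 : 0 ≤ K * (y : ℝ) ^ 2 * ((4 / (H : ℝ) ^ 2) * ∑ s ∈ Icc 1 Q₀, ∑ h ∈ range (2 * α * s),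
        ‖DH H (β - (h : ℝ) / (2 * α * s : ℕ))‖ ^ 2) := by positivity
    push_cast at h5
    linarith
  · -- major arcs
    obtain ⟨r, hr⟩ : ∃ r : ℕ, r = 2 * α * s := ⟨_, rfl⟩
    have hr1 : 1 ≤ r := by rw [hr]; exact Nat.one_le_iff_ne_zero.2 (by positivity)
    have hr0 : (0 : ℝ) < r := by exact_mod_cast hr1
    obtain ⟨h', hh'⟩ : ∃ h' : ℕ, h' = (h % (r : ℤ)).toNat := ⟨_, rfl⟩
    have hmod : (h' : ℤ) = h % (r : ℤ) := by
      rw [hh', Int.toNat_of_nonneg (Int.emod_nonneg _ (by omega))]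
    have hlt : h' < r := by
      have : (h' : ℤ) < r := by
        rw [hmod]
        exact Int.emod_lt_of_pos _ (by exact_mod_cast hr1)
      exact_mod_cast this
    have hdiv : h = h' + r * (h / (r : ℤ)) := by
      rw [hmod]
      exact (Int.emod_add_mul_ediv h r).symm
    have hclose : 6 * (H * |β - h / r|) ≤ 1 := by
      have h1 : β - h / r = (2 * (α : ℤ) * β - h / s) / (2 * α) := by
        rw [hr]
        push_cast
        field_simp
      rw [h1, abs_div, abs_of_pos (show (0 : ℝ) < 2 * α by positivity)]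
      have h2 : |2 * (α : ℤ) * β - h / s| ≤ 1 / ((Q' : ℝ) + 1) := by
        refine hx1.trans ?_
        apply one_div_le_one_div_of_le hQ'0
        nlinarith
      have h3 : |2 * (α : ℤ) * β - h / s| / (2 * α) ≤ 1 / ((Q' : ℝ) + 1) / 2 := by
        apply div_le_div₀ (by positivity) h2 (by norm_num)
        have : (1 : ℝ) ≤ α := by exact_mod_cast hα
        linarith
      have h4 : 3 * (H : ℝ) ≤ Q' + 1 := by exact_mod_cast hHQ
      calc 6 * (H * (|2 * (α : ℤ) * β - h / s| / (2 * α))) ≤ 6 * (H * (1 / ((Q' : ℝ) + 1) / 2)) := by gcongr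
        _ = 3 * (H : ℝ) / (Q' + 1) := by ring
        _ ≤ 1 := by rw [div_le_one hQ'0]; exact h4
    have h2 := DH_lower hclose
    have h3 : DH H (β - h / r) = DH H (β - (h' : ℝ) / r) := by
      have e : β - (h : ℝ) / r = (β - (h' : ℝ) / r) - ((h / (r : ℤ) : ℤ) : ℝ) := by
        have e2 : (h : ℝ) = h' + r * ((h / (r : ℤ) : ℤ) : ℝ) := by exact_mod_cast hdiv
        rw [e2]
        field_simp
        ring
      rw [e, DH_per]
    rw [h3] at h2
    have h4 : 1 ≤ (4 / (H : ℝ) ^ 2) * ‖DH H (β - (h' : ℝ) / r)‖ ^ 2 := by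
      have h5 : ((H : ℝ) / 2) ^ 2 ≤ ‖DH H (β - (h' : ℝ) / r)‖ ^ 2 := pow_le_pow_left₀ (by positivity) h2 2
      calc (1 : ℝ) = (4 / (H : ℝ) ^ 2) * ((H : ℝ) / 2) ^ 2 := by field_simp; norm_num
        _ ≤ _ := by gcongr
    have h5 : ‖DH H (β - (h' : ℝ) / r)‖ ^ 2 ≤ ∑ s ∈ Icc 1 Q₀, ∑ h ∈ range (2 * α * s),
        ‖DH H (β - (h : ℝ) / (2 * α * s : ℕ))‖ ^ 2 := by
      have a1 : ‖DH H (β - (h' : ℝ) / r)‖ ^ 2 ≤ ∑ h ∈ range (2 * α * s),
          ‖DH H (β - (h : ℝ) / (2 * α * s : ℕ))‖ ^ 2 := by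
        rw [← hr]
        exact Finset.single_le_sum (f := fun h : ℕ => ‖DH H (β - (h : ℝ) / r)‖ ^ 2)
          (fun _ _ => by positivity) (mem_range.2 hlt)
      refine a1.trans ?_
      exact Finset.single_le_sum (f := fun s : ℕ => ∑ h ∈ range (2 * α * s),
        ‖DH H (β - (h : ℝ) / (2 * α * s : ℕ))‖ ^ 2)
        (fun _ _ => Finset.sum_nonneg fun _ _ => by positivity) (mem_Icc.2 ⟨hs1, hc⟩)
    have h6 : ∑ k ∈ Ioc u (u + K), ‖VV α γ y k β‖ ^ 2 ≤ K * (y : ℝ) ^ 2 := by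
      refine (Finset.sum_le_sum fun k _ => pow_le_pow_left₀ (norm_nonneg _) (VV_triv _ _ _ _ _) 2).trans ?_
      rw [Finset.sum_const, nsmul_eq_mul, Nat.card_Ioc, Nat.add_sub_cancel_left]
    have h7 : 1 ≤ (4 / (H : ℝ) ^ 2) * ∑ s ∈ Icc 1 Q₀, ∑ h ∈ range (2 * α * s),
        ‖DH H (β - (h : ℝ) / (2 * α * s : ℕ))‖ ^ 2 :=
      h4.trans (mul_le_mul_of_nonneg_left h5 (by positivity))
    have h8 : K * (y : ℝ) ^ 2 ≤ K * (y : ℝ) ^ 2 * ((4 / (H : ℝ) ^ 2) * ∑ s ∈ Icc 1 Q₀,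
        ∑ h ∈ range (2 * α * s), ‖DH H (β - (h : ℝ) / (2 * α * s : ℕ))‖ ^ 2) :=
      le_mul_of_one_le_right (by positivity) h7
    linarith

/-- windows with a rational frequency -/
theorem win_class (a : ℕ → ℝ) (N H m r h : ℕ) (hr : 1 ≤ r) :
    ‖∑ n ∈ (Icc 1 N).filter (fun n => n < m ∧ m ≤ n + H), (a n : ℂ) * ee (n * ((h : ℝ) / r))‖ ^ 2 ≤
      r * ∑ c ∈ range r, |∑ n ∈ (Icc 1 N).filter (fun n => n < m ∧ m ≤ n + H ∧ n ≡ c [MOD r]), a n| ^ 2 := by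
  have hr0 : (0 : ℝ) < r := by exact_mod_cast hr
  have e1 : ∑ n ∈ (Icc 1 N).filter (fun n => n < m ∧ m ≤ n + H), (a n : ℂ) * ee (n * ((h : ℝ) / r)) =
      ∑ c ∈ range r, ee (c * ((h : ℝ) / r)) *
        ((∑ n ∈ (Icc 1 N).filter (fun n => n < m ∧ m ≤ n + H ∧ n ≡ c [MOD r]), a n : ℝ) : ℂ) := by
    rw [← Finset.sum_fiberwise_of_maps_to (s := (Icc 1 N).filter (fun n => n < m ∧ m ≤ n + H))
      (t := range r) (g := fun n => n % r) (fun n _ => mem_range.2 (Nat.mod_lt n hr))]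
    apply Finset.sum_congr rfl
    intro c hc
    rw [mem_range] at hc
    rw [Complex.ofReal_sum, Finset.mul_sum]
    have e2 : ((Icc 1 N).filter (fun n => n < m ∧ m ≤ n + H)).filter (fun n => n % r = c) =
        (Icc 1 N).filter (fun n => n < m ∧ m ≤ n + H ∧ n ≡ c [MOD r]) := by
      ext n
      simp only [mem_filter]
      unfold Nat.ModEq
      rw [Nat.mod_eq_of_lt hc]
      tauto
    rw [e2]
    apply Finset.sum_congr rfl
    intro n hn
    rw [mem_filter] at hn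
    have h2 : n % r = c := by
      have := hn.2.2.2
      unfold Nat.ModEq at this
      rwa [Nat.mod_eq_of_lt hc] at this
    obtain ⟨d, hd⟩ : ∃ d : ℕ, d = n / r := ⟨_, rfl⟩
    have h3 : (n : ℝ) * ((h : ℝ) / r) = c * ((h : ℝ) / r) + (((d * h : ℕ) : ℤ) : ℝ) := by
      have h4 : (n : ℝ) = c + r * (d : ℝ) := by
        have h6 := Nat.mod_add_div n r
        rw [h2, ← hd] at h6
        exact_mod_cast h6.symm
      rw [h4]
      push_cast
      field_simp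
    rw [h3, ee_add, ee_int']
    ring
  rw [e1]
  have h1 : ‖∑ c ∈ range r, ee (c * ((h : ℝ) / r)) *
        ((∑ n ∈ (Icc 1 N).filter (fun n => n < m ∧ m ≤ n + H ∧ n ≡ c [MOD r]), a n : ℝ) : ℂ)‖ ≤
      ∑ c ∈ range r, |∑ n ∈ (Icc 1 N).filter (fun n => n < m ∧ m ≤ n + H ∧ n ≡ c [MOD r]), a n| := by
    refine (norm_sum_le _ _).trans ?_
    apply Finset.sum_le_sum
    intro c _
    rw [norm_mul, norm_ee, one_mul, Complex.norm_real, Real.norm_eq_abs]
  refine (pow_le_pow_left₀ (norm_nonneg _) h1 2).trans ?_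
  have h2 := sq_sum_le_card_mul_sum_sq (s := range r)
    (f := fun c => |∑ n ∈ (Icc 1 N).filter (fun n => n < m ∧ m ≤ n + H ∧ n ≡ c [MOD r]), a n|)
  rw [card_range] at h2
  exact h2

end Pool.Agent.K9h19.CR
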