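import Pool.Agent.K9h19.CR.SM1
import Pool.Agent.K9h19.CR.SM2
import Pool.Agent.K9h19.CR.SM0

/-!
# The mean square over the constant terms and the windows
-/

set_option autoImplicit false

namespace Pool.Agent.K9h19.CR

open Finset Filter Topology MeasureTheory
open Pool.Agent.Q236.CR
open Pool.Agent.H807R2.Dav (ee norm_ee ee_add ee_zero conj_ee)
open Pool.Agent.H373R2.T7 (lamz Vz pz Vz_pos Vz_inv_small)

/-- the extension by zero -/
noncomputable def ext0 (a : ℕ → ℝ) (N : ℕ) (v : ℤ) : ℝ := if 1 ≤ v ∧ v ≤ N then a v.toNat else 0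

/-- the exponential sum -/
noncomputable def FF (a : ℕ → ℝ) (N : ℕ) (β : ℝ) : ℂ := ∑ n ∈ Icc 1 N, (a n : ℂ) * ee (n * β)

theorem FF_cont (a : ℕ → ℝ) (N : ℕ) : Continuous (fun β => FF a N β) := by
  unfold FF
  fun_prop

theorem conv_int (a : ℕ → ℝ) (N : ℕ) (α γ : ℤ) (y k : ℕ) (S : Finset ℤ) :
    ∑ c ∈ S, |∑ t ∈ Ioc k (k + y), ext0 a N (c + α * (t : ℤ) ^ 2 + γ * (t : ℤ))| ^ 2 ≤
      ∫ β in (0 : ℝ)..1, ‖FF a N β‖ ^ 2 * ‖VV α γ y k β‖ ^ 2 := by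
  have h := bess (Icc 1 N ×ˢ Ioc k (k + y)) (fun i => (a i.1 : ℂ))
    (fun i => (i.1 : ℤ) - (α * (i.2 : ℤ) ^ 2 + γ * (i.2 : ℤ))) S
  have h1 : ∀ c ∈ S, |∑ t ∈ Ioc k (k + y), ext0 a N (c + α * (t : ℤ) ^ 2 + γ * (t : ℤ))| ^ 2 =
      ‖∑ i ∈ Icc 1 N ×ˢ Ioc k (k + y) with (i.1 : ℤ) - (α * (i.2 : ℤ) ^ 2 + γ * (i.2 : ℤ)) = c,
        (a i.1 : ℂ)‖ ^ 2 := by
    intro c _
    have e1 : ∑ i ∈ Icc 1 N ×ˢ Ioc k (k + y) with (i.1 : ℤ) - (α * (i.2 : ℤ) ^ 2 + γ * (i.2 : ℤ)) = c,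
        (a i.1 : ℂ) = ((∑ t ∈ Ioc k (k + y), ext0 a N (c + α * (t : ℤ) ^ 2 + γ * (t : ℤ)) : ℝ) : ℂ) := by
      rw [Finset.sum_filter, Finset.sum_product_right, Complex.ofReal_sum]
      apply Finset.sum_congr rfl
      intro t _
      unfold ext0
      simp only
      split_ifs with hv
      · obtain ⟨n, hn⟩ : ∃ n : ℕ, (n : ℤ) = c + α * (t : ℤ) ^ 2 + γ * (t : ℤ) :=
          ⟨(c + α * (t : ℤ) ^ 2 + γ * (t : ℤ)).toNat, Int.toNat_of_nonneg (by omega)⟩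
        rw [← hn] at hv ⊢
        rw [Int.toNat_natCast, Finset.sum_eq_single n]
        · rw [if_pos (by rw [hn]; ring)]
        · intro m _ hm
          rw [if_neg]
          intro h2
          apply hm
          have : (m : ℤ) = n := by rw [hn]; linarith
          exact_mod_cast this
        · intro h2
          exfalso
          apply h2
          rw [mem_Icc]
          constructor
          · exact_mod_cast hv.1
          · exact_mod_cast hv.2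
      · rw [Finset.sum_eq_zero, Complex.ofReal_zero]
        intro m hm
        rw [mem_Icc] at hm
        rw [if_neg]
        intro h2
        apply hv
        have h3 : c + α * (t : ℤ) ^ 2 + γ * (t : ℤ) = m := by linarith
        rw [h3]
        constructor
        · exact_mod_cast hm.1
        · exact_mod_cast hm.2
    rw [e1, Complex.norm_real, Real.norm_eq_abs]
  rw [Finset.sum_congr rfl h1]
  refine h.trans (le_of_eq ?_)
  apply intervalIntegral.integral_congr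
  intro β _
  simp only
  rw [← mul_pow]
  congr 1
  have e2 : ∑ i ∈ Icc 1 N ×ˢ Ioc k (k + y), (a i.1 : ℂ) *
      ee ((((i.1 : ℤ) - (α * (i.2 : ℤ) ^ 2 + γ * (i.2 : ℤ)) : ℤ) : ℝ) * β) =
      FF a N β * (starRingEnd ℂ) (VV α γ y k β) := by
    unfold FF VV
    rw [map_sum, Finset.sum_mul_sum, Finset.sum_product]
    apply Finset.sum_congr rfl
    intro n _
    apply Finset.sum_congr rfl
    intro t _
    simp only
    rw [conj_ee]
    have e3 : (((n : ℤ) - (α * (t : ℤ) ^ 2 + γ * (t : ℤ)) : ℤ) : ℝ) * β =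
        n * β + -(((α * (t : ℤ) ^ 2 + γ * (t : ℤ) : ℤ) : ℝ) * β) := by
      push_cast
      ring
    rw [e3, ee_add]
    ring
  rw [e2, norm_mul, RCLike.norm_conj]

/-- Parseval for the main sum -/
theorem FF_sq (a : ℕ → ℝ) (N : ℕ) :
    ∫ β in (0 : ℝ)..1, ‖FF a N β‖ ^ 2 = ∑ n ∈ Icc 1 N, (a n) ^ 2 := by
  have h := pars' (Icc 1 N) (fun n => (a n : ℂ)) (fun n => (n : ℤ))
  have e1 : ∫ β in (0 : ℝ)..1, ‖FF a N β‖ ^ 2 =
      ∫ β in (0 : ℝ)..1, ‖∑ i ∈ Icc 1 N, (a i : ℂ) * ee (((i : ℤ) : ℝ) * β)‖ ^ 2 := by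
    apply intervalIntegral.integral_congr
    intro β _
    simp only
    unfold FF
    push_cast
    rfl
  rw [e1, h, Finset.sum_image (fun x _ y _ hxy => by exact_mod_cast hxy)]
  apply Finset.sum_congr rfl
  intro n hn
  have e2 : (Icc 1 N).filter (fun i : ℕ => (i : ℤ) = (n : ℤ)) = {n} := by
    ext i
    rw [mem_filter, mem_singleton]
    constructor
    · rintro ⟨_, h2⟩
      exact_mod_cast h2
    · rintro rfl
      exact ⟨hn, rfl⟩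
  rw [e2, Finset.sum_singleton, Complex.norm_real, Real.norm_eq_abs, sq_abs]

/-- the integrated domination -/
theorem int_domin {α : ℕ} (hα : 1 ≤ α) (γ : ℤ) (u K y Q₀ Q' H : ℕ) (Q R : ℝ) (hK : 1 ≤ K) (hy : 1 ≤ y)
    (hH : 1 ≤ H) (hHQ : 3 * H ≤ Q' + 1) (hQ' : 1 ≤ Q') (hQ1 : 1 ≤ Q) (hR1 : 1 ≤ R) (hQ₀ : Q ≤ Q₀ + 1)
    (hQK : Q * (1 + Real.log Q') ≤ K) (hQR : Q * (1 + Real.log Q') ≤ R)
    (hQ'R : Q' * R ≤ y * K) (a : ℕ → ℝ) (N : ℕ) (S : Finset ℤ) (M₁ M₂ : ℝ)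
    (hM₁ : ∑ n ∈ Icc 1 N, (a n) ^ 2 ≤ M₁)
    (hM₂ : ∀ s ∈ Icc 1 Q₀, ∀ c ∈ range (2 * α * s), ∑ m ∈ range (N + H + 1),
      |∑ n ∈ (Icc 1 N).filter (fun n => n < m ∧ m ≤ n + H ∧ n ≡ c [MOD (2 * α * s)]), a n| ^ 2 ≤ M₂) :
    ∑ k ∈ Ioc u (u + K), ∑ c ∈ S,
      |∑ t ∈ Ioc k (k + y), ext0 a N (c + α * (t : ℤ) ^ 2 + γ * (t : ℤ))| ^ 2 ≤
      (79 * (y * K) + 180 * ((y : ℝ) ^ 2 * K / Q)) * M₁ +
      K * (y : ℝ) ^ 2 * ((4 / (H : ℝ) ^ 2) * (Q₀ * ((2 * α * Q₀) ^ 3 * M₂))) := by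
  have hM₂0 : 0 ≤ M₂ ∨ Q₀ = 0 := by
    rcases Nat.eq_zero_or_pos Q₀ with h | h
    · exact Or.inr h
    · left
      refine le_trans ?_ (hM₂ 1 (mem_Icc.2 ⟨le_rfl, h⟩) 0 (mem_range.2 (by positivity)))
      exact Finset.sum_nonneg fun _ _ => by positivity
  obtain ⟨G, hG⟩ : ∃ G : ℝ → ℝ, G = fun β => ∑ s ∈ Icc 1 Q₀, ∑ h ∈ range (2 * α * s),
        ‖DH H (β - (h : ℝ) / (2 * α * s : ℕ))‖ ^ 2 := ⟨_, rfl⟩
  have hGc : Continuous G := by
    rw [hG]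
    apply continuous_finset_sum
    intro s _
    apply continuous_finset_sum
    intro h _
    exact (DH_cont H _).norm.pow 2
  have hFc : Continuous (fun β => ‖FF a N β‖ ^ 2) := (FF_cont a N).norm.pow 2
  have hVc : ∀ k, Continuous (fun β => ‖VV (α : ℤ) γ y k β‖ ^ 2) := fun k => (VV_cont α γ y k).norm.pow 2
  -- step 1
  have s1 : ∑ k ∈ Ioc u (u + K), ∑ c ∈ S,
      |∑ t ∈ Ioc k (k + y), ext0 a N (c + α * (t : ℤ) ^ 2 + γ * (t : ℤ))| ^ 2 ≤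
      ∫ β in (0 : ℝ)..1, ‖FF a N β‖ ^ 2 * ∑ k ∈ Ioc u (u + K), ‖VV α γ y k β‖ ^ 2 := by
    have e1 : ∫ β in (0 : ℝ)..1, ‖FF a N β‖ ^ 2 * ∑ k ∈ Ioc u (u + K), ‖VV α γ y k β‖ ^ 2 =
        ∑ k ∈ Ioc u (u + K), ∫ β in (0 : ℝ)..1, ‖FF a N β‖ ^ 2 * ‖VV α γ y k β‖ ^ 2 := by
      rw [← intervalIntegral.integral_finsetSum]
      · apply intervalIntegral.integral_congr
        intro β _
        simp only
        rw [Finset.mul_sum]
      · intro k _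
        exact (hFc.mul (hVc k)).intervalIntegrable _ _
    rw [e1]
    apply Finset.sum_le_sum
    intro k _
    exact conv_int a N α γ y k S
  refine s1.trans ?_
  -- step 2
  have s2 : ∫ β in (0 : ℝ)..1, ‖FF a N β‖ ^ 2 * ∑ k ∈ Ioc u (u + K), ‖VV α γ y k β‖ ^ 2 ≤
      ∫ β in (0 : ℝ)..1, ((79 * (y * K) + 180 * ((y : ℝ) ^ 2 * K / Q)) * ‖FF a N β‖ ^ 2 +
        K * (y : ℝ) ^ 2 * (4 / (H : ℝ) ^ 2) * (‖FF a N β‖ ^ 2 * G β)) := by
    apply intervalIntegral.integral_mono_on (by norm_num)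
    · apply Continuous.intervalIntegrable
      exact hFc.mul (continuous_finset_sum _ fun k _ => hVc k)
    · apply Continuous.intervalIntegrable
      exact (hFc.const_mul _).add ((hFc.mul hGc).const_mul _)
    · intro β _
      have h1 := domin hα γ u K y Q₀ Q' H Q R hK hy hH hHQ hQ' hQ1 hR1 hQ₀ hQK hQR hQ'R β
      have h2 : 0 ≤ ‖FF a N β‖ ^ 2 := by positivity
      have h3 := mul_le_mul_of_nonneg_left h1 h2
      refine h3.trans (le_of_eq ?_)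
      rw [hG]
      ring
  refine s2.trans ?_
  rw [intervalIntegral.integral_add, intervalIntegral.integral_const_mul,
    intervalIntegral.integral_const_mul, FF_sq]
  rotate_left
  · exact (hFc.const_mul _).intervalIntegrable _ _
  · exact ((hFc.mul hGc).const_mul _).intervalIntegrable _ _
  have hQ0 : 0 < Q := by linarith
  apply add_le_add
  · exact mul_le_mul_of_nonneg_left hM₁ (by positivity)
  · rw [mul_assoc]
    apply mul_le_mul_of_nonneg_left _ (by positivity)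
    apply mul_le_mul_of_nonneg_left _ (by positivity)
    have e2 : ∫ β in (0 : ℝ)..1, ‖FF a N β‖ ^ 2 * G β =
        ∑ s ∈ Icc 1 Q₀, ∑ h ∈ range (2 * α * s),
          ∫ β in (0 : ℝ)..1, ‖FF a N β‖ ^ 2 * ‖DH H (β - (h : ℝ) / (2 * α * s : ℕ))‖ ^ 2 := by
      have e3 : ∀ s ∈ Icc 1 Q₀, ∑ h ∈ range (2 * α * s),
          ∫ β in (0 : ℝ)..1, ‖FF a N β‖ ^ 2 * ‖DH H (β - (h : ℝ) / (2 * α * s : ℕ))‖ ^ 2 =
          ∫ β in (0 : ℝ)..1, ∑ h ∈ range (2 * α * s),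
            ‖FF a N β‖ ^ 2 * ‖DH H (β - (h : ℝ) / (2 * α * s : ℕ))‖ ^ 2 := by
        intro s _
        rw [intervalIntegral.integral_finsetSum]
        intro h _
        exact (hFc.mul ((DH_cont H _).norm.pow 2)).intervalIntegrable _ _
      rw [Finset.sum_congr rfl e3, ← intervalIntegral.integral_finsetSum]
      · apply intervalIntegral.integral_congr
        intro β _
        rw [hG]
        simp only
        rw [Finset.mul_sum]
        apply Finset.sum_congr rfl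
        intro s _
        rw [Finset.mul_sum]
      · intro s _
        apply Continuous.intervalIntegrable
        apply continuous_finset_sum
        intro h _
        exact hFc.mul ((DH_cont H _).norm.pow 2)
    rw [e2]
    have h1 : ∀ s ∈ Icc 1 Q₀, ∑ h ∈ range (2 * α * s),
          ∫ β in (0 : ℝ)..1, ‖FF a N β‖ ^ 2 * ‖DH H (β - (h : ℝ) / (2 * α * s : ℕ))‖ ^ 2 ≤
        (2 * α * Q₀) ^ 3 * M₂ := by
      intro s hs
      have hM₂' : 0 ≤ M₂ := by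
        rcases hM₂0 with h | h
        · exact h
        · rw [h] at hs
          simp at hs
      have hs1 : 1 ≤ s := (mem_Icc.1 hs).1
      have hsQ : (s : ℝ) ≤ Q₀ := by exact_mod_cast (mem_Icc.1 hs).2
      obtain ⟨r, hr⟩ : ∃ r : ℕ, r = 2 * α * s := ⟨_, rfl⟩
      have hr1 : 1 ≤ r := by rw [hr]; exact Nat.one_le_iff_ne_zero.2 (by positivity)
      have h2 : ∀ h ∈ range r, ∫ β in (0 : ℝ)..1, ‖FF a N β‖ ^ 2 * ‖DH H (β - (h : ℝ) / (r : ℕ))‖ ^ 2 ≤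
          r * (r * M₂) := by
        intro h _
        refine (win_int a N H ((h : ℝ) / r)).trans ?_
        refine (Finset.sum_le_sum fun m _ => win_class a N H m r h hr1).trans ?_
        rw [← Finset.mul_sum, Finset.sum_comm]
        apply mul_le_mul_of_nonneg_left _ (Nat.cast_nonneg _)
        refine (Finset.sum_le_sum (g := fun _ => M₂) fun c hc => ?_).trans ?_
        · have := hM₂ s hs c (by rw [← hr]; exact hc)
          rw [← hr] at this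
          exact this
        · rw [Finset.sum_const, card_range, nsmul_eq_mul]
      rw [← hr]
      refine (Finset.sum_le_sum h2).trans ?_
      rw [Finset.sum_const, card_range, nsmul_eq_mul]
      have h3 : (r : ℝ) ≤ 2 * α * Q₀ := by
        rw [hr]
        push_cast
        gcongr
      calc (r : ℝ) * (r * (r * M₂)) = (r : ℝ) ^ 3 * M₂ := by ring
        _ ≤ _ := by gcongr
    refine (Finset.sum_le_sum h1).trans ?_
    rw [Finset.sum_const, nsmul_eq_mul, Nat.card_Icc, Nat.add_sub_cancel]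

/-- THE MEAN SQUARE: prime values in short windows, averaged over the constant terms and the windows -/
theorem sm (hc : S_CHR) (hm : S_MOC) (α : ℕ) (hα : 1 ≤ α) (A : ℕ) : ∃ B₀ : ℕ, ∀ E : ℕ, ∃ D N₀ : ℕ,
    ∀ N : ℕ, N₀ ≤ N → ∀ z : ℕ, Real.log N ^ B₀ ≤ z → (z : ℝ) ≤ Real.log N ^ E →
    ∀ (γ : ℤ) (u K y : ℕ), 1 ≤ y → Real.log N ^ D ≤ K →
    (N : ℝ) ^ (1 / 3 : ℝ) * Real.log N ^ D ≤ (y : ℝ) * K → (y : ℝ) * K ≤ N → ∀ S : Finset ℤ,
    ∑ k ∈ Ioc u (u + K), ∑ c ∈ S,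
      |∑ t ∈ Ioc k (k + y), ext0 (PE z) N (c + α * (t : ℤ) ^ 2 + γ * (t : ℤ))| ^ 2 ≤
      2100 * (N * K * y / Real.log N) + N * K * (y : ℝ) ^ 2 / Real.log N ^ A := by
  obtain ⟨A', hA'⟩ : ∃ A' : ℕ, A' = A + 4 := ⟨_, rfl⟩
  obtain ⟨U, hU⟩ : ∃ U : ℕ, U = 4 * A' + A + 2 := ⟨_, rfl⟩
  refine ⟨A' + 1, fun E => ?_⟩
  obtain ⟨C₁, N₁, htwp⟩ := twp hc hm (A' + 1) E U
  obtain ⟨N₂, hPE⟩ := PE_sq E
  obtain ⟨A'', hA''⟩ : ∃ A'' : ℕ, A'' = A' + C₁ + 2 := ⟨_, rfl⟩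
  obtain ⟨N₃, hN₃⟩ := ev_natlog (P := fun l => 100 ≤ l ∧ 2 * (α : ℝ) ≤ l ∧ 9360 ≤ l ∧
      64 * (α : ℝ) ^ 3 ≤ l) (by
    filter_upwards [eventually_ge_atTop 100, eventually_ge_atTop (2 * (α : ℝ)),
      eventually_ge_atTop 9360, eventually_ge_atTop (64 * (α : ℝ) ^ 3)] with l h1 h2 h3 h4
    exact ⟨h1, h2, h3, h4⟩)
  refine ⟨A'' + C₁ + 3, max (max N₁ N₂) (max N₃ 3), ?_⟩
  intro N hN z hz1 hz2 γ u K y hy hK hyK1 hyK2 S
  have hN1' : N₁ ≤ N := (le_max_left _ _).trans ((le_max_left _ _).trans hN)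
  obtain ⟨g1, g2, g3, g4⟩ := hN₃ N ((le_max_left _ _).trans ((le_max_right _ _).trans hN))
  have hN3 : 3 ≤ N := (le_max_right _ _).trans ((le_max_right _ _).trans hN)
  have hN0 : (0 : ℝ) < N := by exact_mod_cast (by omega : 0 < N)
  have hN1 : (1 : ℝ) ≤ N := by exact_mod_cast (by omega : 1 ≤ N)
  have hα0 : (0 : ℝ) < α := by exact_mod_cast hα
  have hα1 : (1 : ℝ) ≤ α := by exact_mod_cast hα
  obtain ⟨L, hL⟩ : ∃ L : ℝ, L = Real.log N := ⟨_, rfl⟩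
  have hPE0 := hPE N ((le_max_right _ _).trans ((le_max_left _ _).trans hN)) z
  rw [← hL] at g1 g2 g3 g4 hz1 hz2 hK hyK1 hPE0 ⊢
  have hL0 : 0 < L := by linarith
  have hL1 : 1 ≤ L := by linarith
  have hLA' : 1 ≤ L ^ A' := one_le_pow₀ hL1
  have hLA'' : 1 ≤ L ^ A'' := one_le_pow₀ hL1
  have hz1' : 1 ≤ z := by
    have : (1 : ℝ) ≤ z := (one_le_pow₀ hL1).trans hz1
    exact_mod_cast this
  have hM₁ := hPE0 hz1' hz2
  have hN13 : (1 : ℝ) ≤ (N : ℝ) ^ (1 / 3 : ℝ) := Real.one_le_rpow hN1 (by norm_num)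
  -- the parameters
  obtain ⟨Q₀, hQ₀⟩ : ∃ Q₀ : ℕ, Q₀ = ⌊L ^ A'⌋₊ := ⟨_, rfl⟩
  have hQ₀1 : (Q₀ : ℝ) ≤ L ^ A' := by rw [hQ₀]; exact Nat.floor_le (by positivity)
  have hQ₀2 : L ^ A' ≤ Q₀ + 1 := by rw [hQ₀]; exact (Nat.lt_floor_add_one _).le
  obtain ⟨Q', hQ'⟩ : ∃ Q' : ℕ, Q' = ⌊(y : ℝ) * K / L ^ A''⌋₊ := ⟨_, rfl⟩
  have hQ'1 : (Q' : ℝ) ≤ (y : ℝ) * K / L ^ A'' := by rw [hQ']; exact Nat.floor_le (by positivity)
  have hQ'2 : (y : ℝ) * K / L ^ A'' < Q' + 1 := by rw [hQ']; exact Nat.lt_floor_add_one _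
  have hbig : (N : ℝ) ^ (1 / 3 : ℝ) * L ^ (C₁ + 3) ≤ (y : ℝ) * K / L ^ A'' := by
    rw [le_div_iff₀ (by positivity)]
    refine le_trans (le_of_eq ?_) hyK1
    ring
  have hbig0 : L ≤ (N : ℝ) ^ (1 / 3 : ℝ) * L ^ (C₁ + 3) := by
    calc L = 1 * L := by ring
      _ ≤ (N : ℝ) ^ (1 / 3 : ℝ) * L ^ (C₁ + 3) := by
          apply mul_le_mul hN13 _ hL0.le (by positivity)
          exact le_self_pow₀ hL1 (by omega)
  have hQ'3 : 1 ≤ Q' := by
    have : (1 : ℝ) ≤ Q' := by linarith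
    exact_mod_cast this
  obtain ⟨H, hH⟩ : ∃ H : ℕ, H = (Q' + 1) / 3 := ⟨_, rfl⟩
  have hH3 : 3 * H ≤ Q' + 1 := by rw [hH]; exact Nat.mul_div_le _ _
  have hH4 : Q' + 1 < 3 * H + 3 := by rw [hH]; omega
  have hH4r : (Q' : ℝ) + 1 ≤ 3 * H + 3 := by exact_mod_cast hH4.le
  have hHlow : (N : ℝ) ^ (1 / 3 : ℝ) * L ^ C₁ ≤ H := by
    have h1 : (N : ℝ) ^ (1 / 3 : ℝ) * L ^ (C₁ + 3) ≤ 3 * H + 3 := by linarith
    have h2 : (N : ℝ) ^ (1 / 3 : ℝ) * L ^ (C₁ + 3) = ((N : ℝ) ^ (1 / 3 : ℝ) * L ^ C₁) * L ^ 3 := by ring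
    have h3 : 1 ≤ (N : ℝ) ^ (1 / 3 : ℝ) * L ^ C₁ :=
      one_le_mul_of_one_le_of_one_le hN13 (one_le_pow₀ hL1)
    have h4 : (6 : ℝ) ≤ L ^ 3 := by
      have : L ≤ L ^ 3 := le_self_pow₀ hL1 (by norm_num)
      linarith
    obtain ⟨T, hT⟩ : ∃ T : ℝ, T = (N : ℝ) ^ (1 / 3 : ℝ) * L ^ C₁ := ⟨_, rfl⟩
    rw [h2, ← hT] at h1
    rw [← hT] at h3 ⊢
    have h5 : T * 6 ≤ T * L ^ 3 := by gcongr
    linarith
  have hH1r : (1 : ℝ) ≤ H :=
    (one_le_mul_of_one_le_of_one_le hN13 (one_le_pow₀ hL1)).trans hHlow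
  have hH1 : 1 ≤ H := by exact_mod_cast hH1r
  have hH0 : (0 : ℝ) < H := by linarith
  have hHup : (H : ℝ) * L ^ C₁ ≤ N := by
    have h1 : 3 * (H : ℝ) ≤ Q' + 1 := by exact_mod_cast hH3
    have h2 : (1 : ℝ) ≤ Q' := by exact_mod_cast hQ'3
    have h3 : (H : ℝ) ≤ Q' := by linarith
    have h4 : (Q' : ℝ) * L ^ A'' ≤ N := by
      rw [le_div_iff₀ (by positivity)] at hQ'1
      linarith
    refine le_trans ?_ h4
    apply mul_le_mul h3 _ (by positivity) (by positivity)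
    exact pow_le_pow_right₀ hL1 (by omega)
  have hQ'N : (Q' : ℝ) ≤ N := by
    have h4 : (Q' : ℝ) * L ^ A'' ≤ N := by
      rw [le_div_iff₀ (by positivity)] at hQ'1
      linarith
    exact (le_mul_of_one_le_right (Nat.cast_nonneg _) hLA'').trans h4
  have hlogQ' : 1 + Real.log Q' ≤ 2 * L := by
    have h1 : Real.log Q' ≤ L := by
      rw [hL]
      exact Real.log_le_log (by exact_mod_cast hQ'3) hQ'N
    linarith
  have hL2 : L ^ A' * (2 * L) ≤ L ^ (A' + 2) := by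
    have e : L ^ (A' + 2) = L ^ A' * (L * L) := by ring
    rw [e]
    apply mul_le_mul_of_nonneg_left _ (by positivity)
    apply mul_le_mul_of_nonneg_right _ hL0.le
    linarith
  have hDK : ∀ j : ℕ, j ≤ A'' + C₁ + 3 → L ^ j ≤ K := fun j hj =>
    (pow_le_pow_right₀ hL1 hj).trans hK
  have hK1 : 1 ≤ K := by
    have : (1 : ℝ) ≤ K := (one_le_pow₀ hL1).trans (hDK 0 (by omega))
    exact_mod_cast this
  have hM₂ : ∀ s ∈ Icc 1 Q₀, ∀ c ∈ range (2 * α * s), ∑ m ∈ range (N + H + 1),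
      |∑ n ∈ (Icc 1 N).filter (fun n => n < m ∧ m ≤ n + H ∧ n ≡ c [MOD (2 * α * s)]), PE z n| ^ 2 ≤
      N * (H : ℝ) ^ 2 / L ^ U := by
    intro s hs c _
    rw [mem_Icc] at hs
    have hsr : (s : ℝ) ≤ L ^ A' := le_trans (by exact_mod_cast hs.2) hQ₀1
    have hr : ((2 * α * s : ℕ) : ℝ) ≤ L ^ (A' + 1) := by
      push_cast
      calc 2 * (α : ℝ) * s ≤ L * L ^ A' := by gcongr
        _ = L ^ (A' + 1) := by ring
    have h1 := htwp N hN1' z (2 * α * s) (Nat.one_le_iff_ne_zero.2 (by have := hs.1; positivity))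
      (by rw [← hL]; exact hr) (by exact_mod_cast hr.trans hz1) (by rw [← hL]; exact hz2) c H
      (by rw [← hL]; exact hHlow) (by rw [← hL]; exact hHup)
    rw [← hL] at h1
    exact h1
  have hmain := int_domin hα γ u K y Q₀ Q' H (L ^ A') (L ^ A'') hK1 hy hH1 hH3 hQ'3 hLA' hLA'' hQ₀2
    (by
      refine le_trans ?_ (hDK (A' + 2) (by omega))
      refine le_trans ?_ hL2
      exact mul_le_mul_of_nonneg_left hlogQ' (by positivity))
    (by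
      refine le_trans ?_ (pow_le_pow_right₀ hL1 (by omega : A' + 2 ≤ A''))
      refine le_trans ?_ hL2
      exact mul_le_mul_of_nonneg_left hlogQ' (by positivity))
    (by
      rw [le_div_iff₀ (by positivity)] at hQ'1
      exact hQ'1)
    (PE z) N S (26 * (N / L)) (N * (H : ℝ) ^ 2 / L ^ U) hM₁ hM₂
  refine hmain.trans ?_
  obtain ⟨T, hT⟩ : ∃ T : ℝ, T = N * K * (y : ℝ) ^ 2 / L ^ A := ⟨_, rfl⟩
  have hT0 : 0 ≤ T := by rw [hT]; positivity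
  rw [← hT]
  have r1 : (79 * ((y : ℝ) * K) + 180 * ((y : ℝ) ^ 2 * K / L ^ A')) * (26 * (N / L)) ≤
      2100 * (N * K * y / L) + 1 / 2 * T := by
    have e1 : (79 * ((y : ℝ) * K) + 180 * ((y : ℝ) ^ 2 * K / L ^ A')) * (26 * (N / L)) =
        2054 * (N * K * y / L) + (4680 / L ^ 5) * T := by
      rw [hT, hA', pow_add L A 4]
      field_simp
      ring
    rw [e1]
    have h1 : (4680 / L ^ 5) * T ≤ 1 / 2 * T := by
      apply mul_le_mul_of_nonneg_right _ hT0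
      rw [div_le_div_iff₀ (by positivity) (by norm_num)]
      have : L ≤ L ^ 5 := le_self_pow₀ hL1 (by norm_num)
      linarith
    have h2 : 0 ≤ N * K * y / L := by positivity
    linarith
  have r2 : K * (y : ℝ) ^ 2 * ((4 / (H : ℝ) ^ 2) * (Q₀ * ((2 * α * Q₀) ^ 3 * (N * (H : ℝ) ^ 2 / L ^ U)))) ≤
      1 / 2 * T := by
    have e1 : K * (y : ℝ) ^ 2 * ((4 / (H : ℝ) ^ 2) * (Q₀ * ((2 * α * Q₀) ^ 3 * (N * (H : ℝ) ^ 2 / L ^ U)))) =
        (32 * (α : ℝ) ^ 3 * (Q₀ : ℝ) ^ 4 / (L ^ (4 * A') * L ^ 2)) * T := by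
      rw [hT, hU, pow_add L (4 * A' + A) 2, pow_add L (4 * A') A]
      field_simp
      ring
    rw [e1]
    apply mul_le_mul_of_nonneg_right _ hT0
    rw [div_le_div_iff₀ (by positivity) (by norm_num)]
    have h1 : (Q₀ : ℝ) ^ 4 ≤ L ^ (4 * A') := by
      calc (Q₀ : ℝ) ^ 4 ≤ (L ^ A') ^ 4 := pow_le_pow_left₀ (Nat.cast_nonneg _) hQ₀1 4
        _ = L ^ (4 * A') := by rw [← pow_mul]; congr 1; ring
    have h2 : 64 * (α : ℝ) ^ 3 ≤ L ^ 2 := g4.trans (le_self_pow₀ hL1 (by norm_num))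
    calc 32 * (α : ℝ) ^ 3 * (Q₀ : ℝ) ^ 4 * 2 = (Q₀ : ℝ) ^ 4 * (64 * (α : ℝ) ^ 3) := by ring
      _ ≤ L ^ (4 * A') * L ^ 2 := by gcongr
      _ = 1 * (L ^ (4 * A') * L ^ 2) := by ring
  linarith

end Pool.Agent.K9h19.CR
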