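import Pool.Agent.K9h19.CR.SM3

/-!
# The mean square for a general family of sums
-/

set_option autoImplicit false

namespace Pool.Agent.K9h19.CR

open Finset Filter Topology MeasureTheory
open Pool.Agent.Q236.CR
open Pool.Agent.H807R2.Dav (ee norm_ee ee_add ee_zero KK KK_nonneg geo_bound vino conj_ee)
open Pool.Agent.H373R2.T7 (lamz Vz pz Vz_pos Vz_inv_small)

/-- an exponential sum -/
noncomputable def GV (T : Finset ℕ) (g : ℕ → ℤ) (β : ℝ) : ℂ := ∑ t ∈ T, ee ((g t : ℝ) * β)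

theorem GV_triv (T : Finset ℕ) (g : ℕ → ℤ) (β : ℝ) : ‖GV T g β‖ ≤ T.card := by
  unfold GV
  refine (norm_sum_le _ _).trans ?_
  simp [norm_ee]

theorem GV_cont (T : Finset ℕ) (g : ℕ → ℤ) : Continuous (fun β => GV T g β) := by
  unfold GV
  fun_prop

/-- a family of `K` sums of `y` terms, whose mean square is bounded by the method of Weyl -/
def WeylFam {ι : Type} (I : Finset ι) (T : ι → Finset ℕ) (g : ι → ℕ → ℤ) (ρ K y : ℕ) : Prop :=
  I.card ≤ K ∧ (∀ i ∈ I, (T i).card ≤ y) ∧ ∀ (β : ℝ) (s : ℕ) (h : ℤ), 1 ≤ s → IsCoprime h (s : ℤ) →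
    |ρ * β - h / s| ≤ 1 / (s : ℝ) ^ 2 → ∑ i ∈ I, ‖GV (T i) (g i) β‖ ^ 2 ≤
      y * (K + 2 * ((((y + 1 : ℕ) : ℝ) / s + 1) * (39 * K + 3 * s * (1 + Real.log s))))

theorem conv_gen (a : ℕ → ℝ) (N : ℕ) (T : Finset ℕ) (g : ℕ → ℤ) (S : Finset ℤ) :
    ∑ c ∈ S, |∑ t ∈ T, ext0 a N (c + g t)| ^ 2 ≤
      ∫ β in (0 : ℝ)..1, ‖FF a N β‖ ^ 2 * ‖GV T g β‖ ^ 2 := by
  have h := bess (Icc 1 N ×ˢ T) (fun i => (a i.1 : ℂ)) (fun i => (i.1 : ℤ) - g i.2) S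
  have h1 : ∀ c ∈ S, |∑ t ∈ T, ext0 a N (c + g t)| ^ 2 =
      ‖∑ i ∈ Icc 1 N ×ˢ T with (i.1 : ℤ) - g i.2 = c, (a i.1 : ℂ)‖ ^ 2 := by
    intro c _
    have e1 : ∑ i ∈ Icc 1 N ×ˢ T with (i.1 : ℤ) - g i.2 = c,
        (a i.1 : ℂ) = ((∑ t ∈ T, ext0 a N (c + g t) : ℝ) : ℂ) := by
      rw [Finset.sum_filter, Finset.sum_product_right, Complex.ofReal_sum]
      apply Finset.sum_congr rfl
      intro t _
      unfold ext0
      simp only
      split_ifs with hv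
      · obtain ⟨n, hn⟩ : ∃ n : ℕ, (n : ℤ) = c + g t := ⟨(c + g t).toNat, Int.toNat_of_nonneg (by omega)⟩
        rw [← hn] at hv ⊢
        rw [Int.toNat_natCast, Finset.sum_eq_single n]
        · rw [if_pos (by rw [hn]; ring)]
        · intro m _ hm
          rw [if_neg]
          intro h2
          apply hm
          have : (m : ℤ) = n := by rw [hn]; linarith
          exact_mod_cast this
        · intro h2
          exfalso
          apply h2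
          rw [mem_Icc]
          constructor
          · exact_mod_cast hv.1
          · exact_mod_cast hv.2
      · rw [Finset.sum_eq_zero, Complex.ofReal_zero]
        intro m hm
        rw [mem_Icc] at hm
        rw [if_neg]
        intro h2
        apply hv
        have h3 : c + g t = m := by linarith
        rw [h3]
        constructor
        · exact_mod_cast hm.1
        · exact_mod_cast hm.2
    rw [e1, Complex.norm_real, Real.norm_eq_abs]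
  rw [Finset.sum_congr rfl h1]
  refine h.trans (le_of_eq ?_)
  apply intervalIntegral.integral_congr
  intro β _
  simp only
  rw [← mul_pow]
  congr 1
  have e2 : ∑ i ∈ Icc 1 N ×ˢ T, (a i.1 : ℂ) * ee ((((i.1 : ℤ) - g i.2 : ℤ) : ℝ) * β) =
      FF a N β * (starRingEnd ℂ) (GV T g β) := by
    unfold FF GV
    rw [map_sum, Finset.sum_mul_sum, Finset.sum_product]
    apply Finset.sum_congr rfl
    intro n _
    apply Finset.sum_congr rfl
    intro t _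
    simp only
    rw [conj_ee]
    have e3 : (((n : ℤ) - g t : ℤ) : ℝ) * β = n * β + -((g t : ℝ) * β) := by
      push_cast
      ring
    rw [e3, ee_add]
    ring
  rw [e2, norm_mul, RCLike.norm_conj]

/-- the domination for a family -/
theorem domin_gen {ι : Type} {I : Finset ι} {T : ι → Finset ℕ} {g : ι → ℕ → ℤ} {ρ K y : ℕ}
    (hF : WeylFam I T g ρ K y) (hρ : 1 ≤ ρ) (Q₀ Q' H : ℕ) (Q R : ℝ) (hK : 1 ≤ K) (hy : 1 ≤ y)
    (hH : 1 ≤ H) (hHQ : 6 * H ≤ Q' + 1) (hQ' : 1 ≤ Q') (hQ1 : 1 ≤ Q) (hR1 : 1 ≤ R) (hQ₀ : Q ≤ Q₀ + 1)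
    (hQK : Q * (1 + Real.log Q') ≤ K) (hQR : Q * (1 + Real.log Q') ≤ R)
    (hQ'R : Q' * R ≤ y * K) (β : ℝ) :
    ∑ i ∈ I, ‖GV (T i) (g i) β‖ ^ 2 ≤ (79 * (y * K) + 180 * ((y : ℝ) ^ 2 * K / Q)) +
      K * (y : ℝ) ^ 2 * ((4 / (H : ℝ) ^ 2) * ∑ s ∈ Icc 1 Q₀, ∑ h ∈ range (ρ * s),
        ‖DH H (β - (h : ℝ) / (ρ * s : ℕ))‖ ^ 2) := by
  have hρ0 : (0 : ℝ) < ρ := by exact_mod_cast hρ
  have hK1 : (1 : ℝ) ≤ K := by exact_mod_cast hK
  have hy1 : (1 : ℝ) ≤ y := by exact_mod_cast hy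
  have hH0 : (0 : ℝ) < H := by exact_mod_cast hH
  obtain ⟨x, hx1, hx2⟩ := Real.exists_rat_abs_sub_le_and_den_le ((ρ : ℝ) * β) (n := Q') (by omega)
  obtain ⟨s, hs⟩ : ∃ s : ℕ, s = x.den := ⟨_, rfl⟩
  obtain ⟨h, hh⟩ : ∃ h : ℤ, h = x.num := ⟨_, rfl⟩
  have hs1 : 1 ≤ s := by rw [hs]; exact x.pos
  have hs1r : (1 : ℝ) ≤ s := by exact_mod_cast hs1
  have hs0 : (0 : ℝ) < s := by linarith
  have hsQ : s ≤ Q' := by rw [hs]; exact hx2
  have hsQr : (s : ℝ) ≤ Q' := by exact_mod_cast hsQ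
  have hxe : (x : ℝ) = h / s := by
    rw [hs, hh]
    exact_mod_cast (Rat.num_div_den x).symm
  rw [hxe, ← hs] at hx1
  have hcop : IsCoprime h (s : ℤ) := by
    rw [hh, hs]
    exact Rat.isCoprime_num_den x
  have hQ'0 : (0 : ℝ) < (Q' : ℝ) + 1 := by positivity
  have hin1 : 0 ≤ 79 * ((y : ℝ) * K) + 180 * ((y : ℝ) ^ 2 * K / Q) := by
    have : 0 < Q := by linarith
    positivity
  have hin2 : 0 ≤ ∑ s ∈ Icc 1 Q₀, ∑ h ∈ range (ρ * s), ‖DH H (β - (h : ℝ) / (ρ * s : ℕ))‖ ^ 2 :=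
    Finset.sum_nonneg fun _ _ => Finset.sum_nonneg fun _ _ => by positivity
  rcases Nat.lt_or_ge Q₀ s with hc | hc
  · -- minor arcs
    have h1 : |(ρ : ℝ) * β - h / s| ≤ 1 / (s : ℝ) ^ 2 := by
      refine hx1.trans ?_
      apply one_div_le_one_div_of_le (by positivity)
      rw [sq]
      apply mul_le_mul_of_nonneg_right _ hs0.le
      linarith
    have h2 := hF.2.2 β s h hs1 hcop h1
    refine h2.trans ?_
    have h3 : Q ≤ s := by
      refine hQ₀.trans ?_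
      exact_mod_cast hc
    have hl : Real.log s ≤ Real.log Q' := Real.log_le_log hs0 hsQr
    have h4 := minor_num hy1 hK1 hs1r (Real.log_nonneg hs1r) hQ1 hR1 h3
      (le_trans (mul_le_mul_of_nonneg_left (by linarith) (by linarith)) hQK)
      (le_trans (mul_le_mul_of_nonneg_right hsQr (by linarith)) hQ'R)
      (le_trans (mul_le_mul_of_nonneg_left (by linarith) (by linarith)) hQR)
    push_cast
    have h5 : 0 ≤ K * (y : ℝ) ^ 2 * ((4 / (H : ℝ) ^ 2) * ∑ s ∈ Icc 1 Q₀, ∑ h ∈ range (ρ * s),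
        ‖DH H (β - (h : ℝ) / (ρ * s : ℕ))‖ ^ 2) := by positivity
    push_cast at h5
    linarith
  · -- major arcs
    obtain ⟨r, hr⟩ : ∃ r : ℕ, r = ρ * s := ⟨_, rfl⟩
    have hr1 : 1 ≤ r := by rw [hr]; exact Nat.one_le_iff_ne_zero.2 (by positivity)
    have hr0 : (0 : ℝ) < r := by exact_mod_cast hr1
    obtain ⟨h', hh'⟩ : ∃ h' : ℕ, h' = (h % (r : ℤ)).toNat := ⟨_, rfl⟩
    have hmod : (h' : ℤ) = h % (r : ℤ) := by
      rw [hh', Int.toNat_of_nonneg (Int.emod_nonneg _ (by omega))]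
    have hlt : h' < r := by
      have : (h' : ℤ) < r := by
        rw [hmod]
        exact Int.emod_lt_of_pos _ (by exact_mod_cast hr1)
      exact_mod_cast this
    have hdiv : h = h' + r * (h / (r : ℤ)) := by
      rw [hmod]
      exact (Int.emod_add_mul_ediv h r).symm
    have hclose : 6 * (H * |β - h / r|) ≤ 1 := by
      have h1 : β - h / r = ((ρ : ℝ) * β - h / s) / ρ := by
        rw [hr]
        push_cast
        field_simp
      rw [h1, abs_div, abs_of_pos hρ0]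
      have h2 : |(ρ : ℝ) * β - h / s| ≤ 1 / ((Q' : ℝ) + 1) := by
        refine hx1.trans ?_
        apply one_div_le_one_div_of_le hQ'0
        nlinarith
      have h3 : |(ρ : ℝ) * β - h / s| / ρ ≤ 1 / ((Q' : ℝ) + 1) := by
        refine (div_le_self (abs_nonneg _) ?_).trans h2
        exact_mod_cast hρ
      have h4 : 6 * (H : ℝ) ≤ Q' + 1 := by exact_mod_cast hHQ
      calc 6 * (H * (|(ρ : ℝ) * β - h / s| / ρ)) ≤ 6 * (H * (1 / ((Q' : ℝ) + 1))) := by gcongr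
        _ = 6 * (H : ℝ) / (Q' + 1) := by ring
        _ ≤ 1 := by rw [div_le_one hQ'0]; exact h4
    have h2 := DH_lower hclose
    have h3 : DH H (β - h / r) = DH H (β - (h' : ℝ) / r) := by
      have e : β - (h : ℝ) / r = (β - (h' : ℝ) / r) - ((h / (r : ℤ) : ℤ) : ℝ) := by
        have e2 : (h : ℝ) = h' + r * ((h / (r : ℤ) : ℤ) : ℝ) := by exact_mod_cast hdiv
        rw [e2]
        field_simp
        ring
      rw [e, DH_per]
    rw [h3] at h2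
    have h4 : 1 ≤ (4 / (H : ℝ) ^ 2) * ‖DH H (β - (h' : ℝ) / r)‖ ^ 2 := by
      have h5 : ((H : ℝ) / 2) ^ 2 ≤ ‖DH H (β - (h' : ℝ) / r)‖ ^ 2 := pow_le_pow_left₀ (by positivity) h2 2
      calc (1 : ℝ) = (4 / (H : ℝ) ^ 2) * ((H : ℝ) / 2) ^ 2 := by field_simp; norm_num
        _ ≤ _ := by gcongr
    have h5 : ‖DH H (β - (h' : ℝ) / r)‖ ^ 2 ≤ ∑ s ∈ Icc 1 Q₀, ∑ h ∈ range (ρ * s),
        ‖DH H (β - (h : ℝ) / (ρ * s : ℕ))‖ ^ 2 := by
      have a1 : ‖DH H (β - (h' : ℝ) / r)‖ ^ 2 ≤ ∑ h ∈ range (ρ * s),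
          ‖DH H (β - (h : ℝ) / (ρ * s : ℕ))‖ ^ 2 := by
        rw [← hr]
        exact Finset.single_le_sum (f := fun h : ℕ => ‖DH H (β - (h : ℝ) / r)‖ ^ 2)
          (fun _ _ => by positivity) (mem_range.2 hlt)
      refine a1.trans ?_
      exact Finset.single_le_sum (f := fun s : ℕ => ∑ h ∈ range (ρ * s),
        ‖DH H (β - (h : ℝ) / (ρ * s : ℕ))‖ ^ 2)
        (fun _ _ => Finset.sum_nonneg fun _ _ => by positivity) (mem_Icc.2 ⟨hs1, hc⟩)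
    have h6 : ∑ i ∈ I, ‖GV (T i) (g i) β‖ ^ 2 ≤ K * (y : ℝ) ^ 2 := by
      have h7 : ∀ i ∈ I, ‖GV (T i) (g i) β‖ ^ 2 ≤ (y : ℝ) ^ 2 := by
        intro i hi
        apply pow_le_pow_left₀ (norm_nonneg _)
        refine (GV_triv _ _ _).trans ?_
        exact_mod_cast hF.2.1 i hi
      refine (Finset.sum_le_sum h7).trans ?_
      rw [Finset.sum_const, nsmul_eq_mul]
      apply mul_le_mul_of_nonneg_right _ (by positivity)
      exact_mod_cast hF.1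
    have h7 : 1 ≤ (4 / (H : ℝ) ^ 2) * ∑ s ∈ Icc 1 Q₀, ∑ h ∈ range (ρ * s),
        ‖DH H (β - (h : ℝ) / (ρ * s : ℕ))‖ ^ 2 :=
      h4.trans (mul_le_mul_of_nonneg_left h5 (by positivity))
    have h8 : K * (y : ℝ) ^ 2 ≤ K * (y : ℝ) ^ 2 * ((4 / (H : ℝ) ^ 2) * ∑ s ∈ Icc 1 Q₀,
        ∑ h ∈ range (ρ * s), ‖DH H (β - (h : ℝ) / (ρ * s : ℕ))‖ ^ 2) :=
      le_mul_of_one_le_right (by positivity) h7
    linarith

/-- the integrated domination for a family -/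
theorem int_gen {ι : Type} {I : Finset ι} {T : ι → Finset ℕ} {g : ι → ℕ → ℤ} {ρ K y : ℕ}
    (hF : WeylFam I T g ρ K y) (hρ : 1 ≤ ρ) (Q₀ Q' H : ℕ) (Q R : ℝ) (hK : 1 ≤ K) (hy : 1 ≤ y)
    (hH : 1 ≤ H) (hHQ : 6 * H ≤ Q' + 1) (hQ' : 1 ≤ Q') (hQ1 : 1 ≤ Q) (hR1 : 1 ≤ R) (hQ₀ : Q ≤ Q₀ + 1)
    (hQK : Q * (1 + Real.log Q') ≤ K) (hQR : Q * (1 + Real.log Q') ≤ R)
    (hQ'R : Q' * R ≤ y * K) (a : ℕ → ℝ) (N : ℕ) (S : ι → Finset ℤ) (M₁ M₂ : ℝ)
    (hM₁ : ∑ n ∈ Icc 1 N, (a n) ^ 2 ≤ M₁)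
    (hM₂ : ∀ s ∈ Icc 1 Q₀, ∀ c ∈ range (ρ * s), ∑ m ∈ range (N + H + 1),
      |∑ n ∈ (Icc 1 N).filter (fun n => n < m ∧ m ≤ n + H ∧ n ≡ c [MOD (ρ * s)]), a n| ^ 2 ≤ M₂) :
    ∑ i ∈ I, ∑ c ∈ S i, |∑ t ∈ T i, ext0 a N (c + g i t)| ^ 2 ≤
      (79 * (y * K) + 180 * ((y : ℝ) ^ 2 * K / Q)) * M₁ +
      K * (y : ℝ) ^ 2 * ((4 / (H : ℝ) ^ 2) * (Q₀ * ((ρ * Q₀) ^ 3 * M₂))) := by
  have hM₂0 : 0 ≤ M₂ ∨ Q₀ = 0 := by
    rcases Nat.eq_zero_or_pos Q₀ with h | h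
    · exact Or.inr h
    · left
      refine le_trans ?_ (hM₂ 1 (mem_Icc.2 ⟨le_rfl, h⟩) 0 (mem_range.2 (by positivity)))
      exact Finset.sum_nonneg fun _ _ => by positivity
  obtain ⟨G, hG⟩ : ∃ G : ℝ → ℝ, G = fun β => ∑ s ∈ Icc 1 Q₀, ∑ h ∈ range (ρ * s),
        ‖DH H (β - (h : ℝ) / (ρ * s : ℕ))‖ ^ 2 := ⟨_, rfl⟩
  have hGc : Continuous G := by
    rw [hG]
    apply continuous_finset_sum
    intro s _
    apply continuous_finset_sum
    intro h _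
    exact (DH_cont H _).norm.pow 2
  have hFc : Continuous (fun β => ‖FF a N β‖ ^ 2) := (FF_cont a N).norm.pow 2
  have hVc : ∀ i, Continuous (fun β => ‖GV (T i) (g i) β‖ ^ 2) := fun i => (GV_cont (T i) (g i)).norm.pow 2
  -- step 1
  have s1 : ∑ i ∈ I, ∑ c ∈ S i, |∑ t ∈ T i, ext0 a N (c + g i t)| ^ 2 ≤
      ∫ β in (0 : ℝ)..1, ‖FF a N β‖ ^ 2 * ∑ i ∈ I, ‖GV (T i) (g i) β‖ ^ 2 := by
    have e1 : ∫ β in (0 : ℝ)..1, ‖FF a N β‖ ^ 2 * ∑ i ∈ I, ‖GV (T i) (g i) β‖ ^ 2 =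
        ∑ i ∈ I, ∫ β in (0 : ℝ)..1, ‖FF a N β‖ ^ 2 * ‖GV (T i) (g i) β‖ ^ 2 := by
      rw [← intervalIntegral.integral_finsetSum]
      · apply intervalIntegral.integral_congr
        intro β _
        simp only
        rw [Finset.mul_sum]
      · intro i _
        exact (hFc.mul (hVc i)).intervalIntegrable _ _
    rw [e1]
    apply Finset.sum_le_sum
    intro i _
    exact conv_gen a N (T i) (g i) (S i)
  refine s1.trans ?_
  -- step 2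
  have s2 : ∫ β in (0 : ℝ)..1, ‖FF a N β‖ ^ 2 * ∑ i ∈ I, ‖GV (T i) (g i) β‖ ^ 2 ≤
      ∫ β in (0 : ℝ)..1, ((79 * (y * K) + 180 * ((y : ℝ) ^ 2 * K / Q)) * ‖FF a N β‖ ^ 2 +
        K * (y : ℝ) ^ 2 * (4 / (H : ℝ) ^ 2) * (‖FF a N β‖ ^ 2 * G β)) := by
    apply intervalIntegral.integral_mono_on (by norm_num)
    · apply Continuous.intervalIntegrable
      exact hFc.mul (continuous_finset_sum _ fun i _ => hVc i)
    · apply Continuous.intervalIntegrable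
      exact (hFc.const_mul _).add ((hFc.mul hGc).const_mul _)
    · intro β _
      have h1 := domin_gen hF hρ Q₀ Q' H Q R hK hy hH hHQ hQ' hQ1 hR1 hQ₀ hQK hQR hQ'R β
      have h2 : 0 ≤ ‖FF a N β‖ ^ 2 := by positivity
      have h3 := mul_le_mul_of_nonneg_left h1 h2
      refine h3.trans (le_of_eq ?_)
      rw [hG]
      ring
  refine s2.trans ?_
  rw [intervalIntegral.integral_add, intervalIntegral.integral_const_mul,
    intervalIntegral.integral_const_mul, FF_sq]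
  rotate_left
  · exact (hFc.const_mul _).intervalIntegrable _ _
  · exact ((hFc.mul hGc).const_mul _).intervalIntegrable _ _
  have hQ0 : 0 < Q := by linarith
  apply add_le_add
  · exact mul_le_mul_of_nonneg_left hM₁ (by positivity)
  · rw [mul_assoc]
    apply mul_le_mul_of_nonneg_left _ (by positivity)
    apply mul_le_mul_of_nonneg_left _ (by positivity)
    have e2 : ∫ β in (0 : ℝ)..1, ‖FF a N β‖ ^ 2 * G β =
        ∑ s ∈ Icc 1 Q₀, ∑ h ∈ range (ρ * s),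
          ∫ β in (0 : ℝ)..1, ‖FF a N β‖ ^ 2 * ‖DH H (β - (h : ℝ) / (ρ * s : ℕ))‖ ^ 2 := by
      have e3 : ∀ s ∈ Icc 1 Q₀, ∑ h ∈ range (ρ * s),
          ∫ β in (0 : ℝ)..1, ‖FF a N β‖ ^ 2 * ‖DH H (β - (h : ℝ) / (ρ * s : ℕ))‖ ^ 2 =
          ∫ β in (0 : ℝ)..1, ∑ h ∈ range (ρ * s),
            ‖FF a N β‖ ^ 2 * ‖DH H (β - (h : ℝ) / (ρ * s : ℕ))‖ ^ 2 := by
        intro s _
        rw [intervalIntegral.integral_finsetSum]
        intro h _
        exact (hFc.mul ((DH_cont H _).norm.pow 2)).intervalIntegrable _ _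
      rw [Finset.sum_congr rfl e3, ← intervalIntegral.integral_finsetSum]
      · apply intervalIntegral.integral_congr
        intro β _
        rw [hG]
        simp only
        rw [Finset.mul_sum]
        apply Finset.sum_congr rfl
        intro s _
        rw [Finset.mul_sum]
      · intro s _
        apply Continuous.intervalIntegrable
        apply continuous_finset_sum
        intro h _
        exact hFc.mul ((DH_cont H _).norm.pow 2)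
    rw [e2]
    have h1 : ∀ s ∈ Icc 1 Q₀, ∑ h ∈ range (ρ * s),
          ∫ β in (0 : ℝ)..1, ‖FF a N β‖ ^ 2 * ‖DH H (β - (h : ℝ) / (ρ * s : ℕ))‖ ^ 2 ≤
        (ρ * Q₀) ^ 3 * M₂ := by
      intro s hs
      have hM₂' : 0 ≤ M₂ := by
        rcases hM₂0 with h | h
        · exact h
        · rw [h] at hs
          simp at hs
      have hs1 : 1 ≤ s := (mem_Icc.1 hs).1
      have hsQ : (s : ℝ) ≤ Q₀ := by exact_mod_cast (mem_Icc.1 hs).2
      obtain ⟨r, hr⟩ : ∃ r : ℕ, r = ρ * s := ⟨_, rfl⟩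
      have hr1 : 1 ≤ r := by rw [hr]; exact Nat.one_le_iff_ne_zero.2 (by positivity)
      have h2 : ∀ h ∈ range r, ∫ β in (0 : ℝ)..1, ‖FF a N β‖ ^ 2 * ‖DH H (β - (h : ℝ) / (r : ℕ))‖ ^ 2 ≤
          r * (r * M₂) := by
        intro h _
        refine (win_int a N H ((h : ℝ) / r)).trans ?_
        refine (Finset.sum_le_sum fun m _ => win_class a N H m r h hr1).trans ?_
        rw [← Finset.mul_sum, Finset.sum_comm]
        apply mul_le_mul_of_nonneg_left _ (Nat.cast_nonneg _)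
        refine (Finset.sum_le_sum (g := fun _ => M₂) fun c hc => ?_).trans ?_
        · have := hM₂ s hs c (by rw [← hr]; exact hc)
          rw [← hr] at this
          exact this
        · rw [Finset.sum_const, card_range, nsmul_eq_mul]
      rw [← hr]
      refine (Finset.sum_le_sum h2).trans ?_
      rw [Finset.sum_const, card_range, nsmul_eq_mul]
      have h3 : (r : ℝ) ≤ ρ * Q₀ := by
        rw [hr]
        push_cast
        gcongr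
      calc (r : ℝ) * (r * (r * M₂)) = (r : ℝ) ^ 3 * M₂ := by ring
        _ ≤ _ := by gcongr
    refine (Finset.sum_le_sum h1).trans ?_
    rw [Finset.sum_const, nsmul_eq_mul, Nat.card_Icc, Nat.add_sub_cancel]

/-- THE MEAN SQUARE for a general family -/
theorem sm_gen (hc : S_CHR) (hm : S_MOC) (ρ : ℕ) (hρ : 1 ≤ ρ) (A : ℕ) : ∃ B₀ : ℕ, ∀ E : ℕ, ∃ D N₀ : ℕ,
    ∀ N : ℕ, N₀ ≤ N → ∀ z : ℕ, Real.log N ^ B₀ ≤ z → (z : ℝ) ≤ Real.log N ^ E →
    ∀ (ι : Type) (I : Finset ι) (T : ι → Finset ℕ) (g : ι → ℕ → ℤ) (K y : ℕ), WeylFam I T g ρ K y →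
    1 ≤ y → Real.log N ^ D ≤ K → (N : ℝ) ^ (1 / 3 : ℝ) * Real.log N ^ D ≤ (y : ℝ) * K →
    (y : ℝ) * K ≤ N * Real.log N → ∀ S : ι → Finset ℤ,
    ∑ i ∈ I, ∑ c ∈ S i, |∑ t ∈ T i, ext0 (PE z) N (c + g i t)| ^ 2 ≤
      2100 * (N * K * y / Real.log N) + N * K * (y : ℝ) ^ 2 / Real.log N ^ A := by
  obtain ⟨A', hA'⟩ : ∃ A' : ℕ, A' = A + 4 := ⟨_, rfl⟩
  obtain ⟨U, hU⟩ : ∃ U : ℕ, U = 4 * A' + A + 2 := ⟨_, rfl⟩
  refine ⟨A' + 1, fun E => ?_⟩
  obtain ⟨C₁, N₁, htwp⟩ := twp hc hm (A' + 1) E U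
  obtain ⟨N₂, hPE⟩ := PE_sq E
  obtain ⟨A'', hA''⟩ : ∃ A'' : ℕ, A'' = A' + C₁ + 3 := ⟨_, rfl⟩
  obtain ⟨N₃, hN₃⟩ := ev_natlog (P := fun l => 100 ≤ l ∧ (ρ : ℝ) ≤ l ∧ 9360 ≤ l ∧
      8 * (ρ : ℝ) ^ 3 ≤ l) (by
    filter_upwards [eventually_ge_atTop 100, eventually_ge_atTop (ρ : ℝ),
      eventually_ge_atTop 9360, eventually_ge_atTop (8 * (ρ : ℝ) ^ 3)] with l h1 h2 h3 h4
    exact ⟨h1, h2, h3, h4⟩)
  refine ⟨A'' + C₁ + 3, max (max N₁ N₂) (max N₃ 3), ?_⟩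
  intro N hN z hz1 hz2 ι I T g K y hF hy hK hyK1 hyK2 S
  have hN1' : N₁ ≤ N := (le_max_left _ _).trans ((le_max_left _ _).trans hN)
  obtain ⟨g1, g2, g3, g4⟩ := hN₃ N ((le_max_left _ _).trans ((le_max_right _ _).trans hN))
  have hN3 : 3 ≤ N := (le_max_right _ _).trans ((le_max_right _ _).trans hN)
  have hN0 : (0 : ℝ) < N := by exact_mod_cast (by omega : 0 < N)
  have hN1 : (1 : ℝ) ≤ N := by exact_mod_cast (by omega : 1 ≤ N)
  have hρ0 : (0 : ℝ) < ρ := by exact_mod_cast hρ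
  have hρ1 : (1 : ℝ) ≤ ρ := by exact_mod_cast hρ
  obtain ⟨L, hL⟩ : ∃ L : ℝ, L = Real.log N := ⟨_, rfl⟩
  have hPE0 := hPE N ((le_max_right _ _).trans ((le_max_left _ _).trans hN)) z
  rw [← hL] at g1 g2 g3 g4 hz1 hz2 hK hyK1 hyK2 hPE0 ⊢
  have hL0 : 0 < L := by linarith
  have hL1 : 1 ≤ L := by linarith
  have hLA' : 1 ≤ L ^ A' := one_le_pow₀ hL1
  have hLA'' : 1 ≤ L ^ A'' := one_le_pow₀ hL1
  have hz1' : 1 ≤ z := by
    have : (1 : ℝ) ≤ z := (one_le_pow₀ hL1).trans hz1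
    exact_mod_cast this
  have hM₁ := hPE0 hz1' hz2
  have hN13 : (1 : ℝ) ≤ (N : ℝ) ^ (1 / 3 : ℝ) := Real.one_le_rpow hN1 (by norm_num)
  -- the parameters
  obtain ⟨Q₀, hQ₀⟩ : ∃ Q₀ : ℕ, Q₀ = ⌊L ^ A'⌋₊ := ⟨_, rfl⟩
  have hQ₀1 : (Q₀ : ℝ) ≤ L ^ A' := by rw [hQ₀]; exact Nat.floor_le (by positivity)
  have hQ₀2 : L ^ A' ≤ Q₀ + 1 := by rw [hQ₀]; exact (Nat.lt_floor_add_one _).le
  obtain ⟨Q', hQ'⟩ : ∃ Q' : ℕ, Q' = ⌊(y : ℝ) * K / L ^ A''⌋₊ := ⟨_, rfl⟩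
  have hQ'1 : (Q' : ℝ) ≤ (y : ℝ) * K / L ^ A'' := by rw [hQ']; exact Nat.floor_le (by positivity)
  have hQ'2 : (y : ℝ) * K / L ^ A'' < Q' + 1 := by rw [hQ']; exact Nat.lt_floor_add_one _
  have hbig : (N : ℝ) ^ (1 / 3 : ℝ) * L ^ (C₁ + 3) ≤ (y : ℝ) * K / L ^ A'' := by
    rw [le_div_iff₀ (by positivity)]
    refine le_trans (le_of_eq ?_) hyK1
    ring
  have hbig0 : L ≤ (N : ℝ) ^ (1 / 3 : ℝ) * L ^ (C₁ + 3) := by
    calc L = 1 * L := by ring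
      _ ≤ (N : ℝ) ^ (1 / 3 : ℝ) * L ^ (C₁ + 3) := by
          apply mul_le_mul hN13 _ hL0.le (by positivity)
          exact le_self_pow₀ hL1 (by omega)
  have hQ'3 : 1 ≤ Q' := by
    have : (1 : ℝ) ≤ Q' := by linarith
    exact_mod_cast this
  obtain ⟨H, hH⟩ : ∃ H : ℕ, H = (Q' + 1) / 6 := ⟨_, rfl⟩
  have hH3 : 6 * H ≤ Q' + 1 := by rw [hH]; exact Nat.mul_div_le _ _
  have hH4 : Q' + 1 < 6 * H + 6 := by rw [hH]; omega
  have hH4r : (Q' : ℝ) + 1 ≤ 6 * H + 6 := by exact_mod_cast hH4.le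
  have hHlow : (N : ℝ) ^ (1 / 3 : ℝ) * L ^ C₁ ≤ H := by
    have h1 : (N : ℝ) ^ (1 / 3 : ℝ) * L ^ (C₁ + 3) ≤ 6 * H + 6 := by linarith
    have h2 : (N : ℝ) ^ (1 / 3 : ℝ) * L ^ (C₁ + 3) = ((N : ℝ) ^ (1 / 3 : ℝ) * L ^ C₁) * L ^ 3 := by ring
    have h3 : 1 ≤ (N : ℝ) ^ (1 / 3 : ℝ) * L ^ C₁ :=
      one_le_mul_of_one_le_of_one_le hN13 (one_le_pow₀ hL1)
    have h4 : (12 : ℝ) ≤ L ^ 3 := by
      have : L ≤ L ^ 3 := le_self_pow₀ hL1 (by norm_num)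
      linarith
    obtain ⟨W, hW⟩ : ∃ W : ℝ, W = (N : ℝ) ^ (1 / 3 : ℝ) * L ^ C₁ := ⟨_, rfl⟩
    rw [h2, ← hW] at h1
    rw [← hW] at h3 ⊢
    have h5 : W * 12 ≤ W * L ^ 3 := by gcongr
    linarith
  have hH1r : (1 : ℝ) ≤ H :=
    (one_le_mul_of_one_le_of_one_le hN13 (one_le_pow₀ hL1)).trans hHlow
  have hH1 : 1 ≤ H := by exact_mod_cast hH1r
  have hH0 : (0 : ℝ) < H := by linarith
  have hQ'L : (Q' : ℝ) * L ^ (A' + C₁ + 2) ≤ N := by
    rw [le_div_iff₀ (by positivity)] at hQ'1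
    have e : L ^ A'' = L ^ (A' + C₁ + 2) * L := by rw [hA'']; ring
    rw [e, ← mul_assoc] at hQ'1
    exact le_of_mul_le_mul_right (hQ'1.trans hyK2) hL0
  have hHup : (H : ℝ) * L ^ C₁ ≤ N := by
    have h1 : 6 * (H : ℝ) ≤ Q' + 1 := by exact_mod_cast hH3
    have h2 : (1 : ℝ) ≤ Q' := by exact_mod_cast hQ'3
    have h3 : (H : ℝ) ≤ Q' := by linarith
    refine le_trans ?_ hQ'L
    apply mul_le_mul h3 _ (by positivity) (by positivity)
    exact pow_le_pow_right₀ hL1 (by omega)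
  have hQ'N : (Q' : ℝ) ≤ N :=
    (le_mul_of_one_le_right (Nat.cast_nonneg _) (one_le_pow₀ hL1)).trans hQ'L
  have hlogQ' : 1 + Real.log Q' ≤ 2 * L := by
    have h1 : Real.log Q' ≤ L := by
      rw [hL]
      exact Real.log_le_log (by exact_mod_cast hQ'3) hQ'N
    linarith
  have hL2 : L ^ A' * (2 * L) ≤ L ^ (A' + 2) := by
    have e : L ^ (A' + 2) = L ^ A' * (L * L) := by ring
    rw [e]
    apply mul_le_mul_of_nonneg_left _ (by positivity)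
    apply mul_le_mul_of_nonneg_right _ hL0.le
    linarith
  have hDK : ∀ j : ℕ, j ≤ A'' + C₁ + 3 → L ^ j ≤ K := fun j hj =>
    (pow_le_pow_right₀ hL1 hj).trans hK
  have hK1 : 1 ≤ K := by
    have : (1 : ℝ) ≤ K := (one_le_pow₀ hL1).trans (hDK 0 (by omega))
    exact_mod_cast this
  have hM₂ : ∀ s ∈ Icc 1 Q₀, ∀ c ∈ range (ρ * s), ∑ m ∈ range (N + H + 1),
      |∑ n ∈ (Icc 1 N).filter (fun n => n < m ∧ m ≤ n + H ∧ n ≡ c [MOD (ρ * s)]), PE z n| ^ 2 ≤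
      N * (H : ℝ) ^ 2 / L ^ U := by
    intro s hs c _
    rw [mem_Icc] at hs
    have hsr : (s : ℝ) ≤ L ^ A' := le_trans (by exact_mod_cast hs.2) hQ₀1
    have hr : ((ρ * s : ℕ) : ℝ) ≤ L ^ (A' + 1) := by
      push_cast
      calc (ρ : ℝ) * s ≤ L * L ^ A' := by gcongr
        _ = L ^ (A' + 1) := by ring
    have h1 := htwp N hN1' z (ρ * s) (Nat.one_le_iff_ne_zero.2 (by have := hs.1; positivity))
      (by rw [← hL]; exact hr) (by exact_mod_cast hr.trans hz1) (by rw [← hL]; exact hz2) c H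
      (by rw [← hL]; exact hHlow) (by rw [← hL]; exact hHup)
    rw [← hL] at h1
    exact h1
  have hmain := int_gen hF hρ Q₀ Q' H (L ^ A') (L ^ A'') hK1 hy hH1 hH3 hQ'3 hLA' hLA'' hQ₀2
    (by
      refine le_trans ?_ (hDK (A' + 2) (by omega))
      refine le_trans ?_ hL2
      exact mul_le_mul_of_nonneg_left hlogQ' (by positivity))
    (by
      refine le_trans ?_ (pow_le_pow_right₀ hL1 (by omega : A' + 2 ≤ A''))
      refine le_trans ?_ hL2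
      exact mul_le_mul_of_nonneg_left hlogQ' (by positivity))
    (by
      rw [le_div_iff₀ (by positivity)] at hQ'1
      exact hQ'1)
    (PE z) N S (26 * (N / L)) (N * (H : ℝ) ^ 2 / L ^ U) hM₁ hM₂
  refine hmain.trans ?_
  obtain ⟨W, hW⟩ : ∃ W : ℝ, W = N * K * (y : ℝ) ^ 2 / L ^ A := ⟨_, rfl⟩
  have hW0 : 0 ≤ W := by rw [hW]; positivity
  rw [← hW]
  have r1 : (79 * ((y : ℝ) * K) + 180 * ((y : ℝ) ^ 2 * K / L ^ A')) * (26 * (N / L)) ≤
      2100 * (N * K * y / L) + 1 / 2 * W := by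
    have e1 : (79 * ((y : ℝ) * K) + 180 * ((y : ℝ) ^ 2 * K / L ^ A')) * (26 * (N / L)) =
        2054 * (N * K * y / L) + (4680 / L ^ 5) * W := by
      rw [hW, hA', pow_add L A 4]
      field_simp
      ring
    rw [e1]
    have h1 : (4680 / L ^ 5) * W ≤ 1 / 2 * W := by
      apply mul_le_mul_of_nonneg_right _ hW0
      rw [div_le_div_iff₀ (by positivity) (by norm_num)]
      have : L ≤ L ^ 5 := le_self_pow₀ hL1 (by norm_num)
      linarith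
    have h2 : 0 ≤ N * K * y / L := by positivity
    linarith
  have r2 : K * (y : ℝ) ^ 2 * ((4 / (H : ℝ) ^ 2) * (Q₀ * ((ρ * Q₀) ^ 3 * (N * (H : ℝ) ^ 2 / L ^ U)))) ≤
      1 / 2 * W := by
    have e1 : K * (y : ℝ) ^ 2 * ((4 / (H : ℝ) ^ 2) * (Q₀ * ((ρ * Q₀) ^ 3 * (N * (H : ℝ) ^ 2 / L ^ U)))) =
        (4 * (ρ : ℝ) ^ 3 * (Q₀ : ℝ) ^ 4 / (L ^ (4 * A') * L ^ 2)) * W := by
      rw [hW, hU, pow_add L (4 * A' + A) 2, pow_add L (4 * A') A]
      field_simp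
    rw [e1]
    apply mul_le_mul_of_nonneg_right _ hW0
    rw [div_le_div_iff₀ (by positivity) (by norm_num)]
    have h1 : (Q₀ : ℝ) ^ 4 ≤ L ^ (4 * A') := by
      calc (Q₀ : ℝ) ^ 4 ≤ (L ^ A') ^ 4 := pow_le_pow_left₀ (Nat.cast_nonneg _) hQ₀1 4
        _ = L ^ (4 * A') := by rw [← pow_mul]; congr 1; ring
    have h2 : 8 * (ρ : ℝ) ^ 3 ≤ L ^ 2 := g4.trans (le_self_pow₀ hL1 (by norm_num))
    calc 4 * (ρ : ℝ) ^ 3 * (Q₀ : ℝ) ^ 4 * 2 = (Q₀ : ℝ) ^ 4 * (8 * (ρ : ℝ) ^ 3) := by ring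
      _ ≤ L ^ (4 * A') * L ^ 2 := by gcongr
      _ = 1 * (L ^ (4 * A') * L ^ 2) := by ring
  linarith

/-- the family of the windows of a quadratic polynomial -/
theorem fam_quad {α : ℕ} (hα : 1 ≤ α) (γ : ℤ) (u K y : ℕ) :
    WeylFam (Ioc u (u + K)) (fun k => Ioc k (k + y)) (fun _ t => (α : ℤ) * (t : ℤ) ^ 2 + γ * (t : ℤ))
      (2 * α) K y := by
  refine ⟨by rw [Nat.card_Ioc, Nat.add_sub_cancel_left], fun k _ => by rw [Nat.card_Ioc, Nat.add_sub_cancel_left],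
    fun β s h hs hcop hβ => ?_⟩
  have h1 := weylK (α : ℤ) γ u K y β hs hcop (by
    refine le_trans (le_of_eq ?_) hβ
    push_cast
    rfl)
  exact h1

/-- the same for the negative polynomials -/
theorem fam_quad_neg {α : ℕ} (hα : 1 ≤ α) (γ : ℤ) (u K y : ℕ) :
    WeylFam (Ioc u (u + K)) (fun k => Ioc k (k + y)) (fun _ t => -((α : ℤ) * (t : ℤ) ^ 2 + γ * (t : ℤ)))
      (2 * α) K y := by
  have h := fam_quad hα γ u K y
  refine ⟨h.1, h.2.1, fun β s h' hs hcop hβ => ?_⟩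
  refine le_trans (le_of_eq ?_) (h.2.2 β s h' hs hcop hβ)
  apply Finset.sum_congr rfl
  intro k _
  have e : GV (Ioc k (k + y)) (fun t => -((α : ℤ) * (t : ℤ) ^ 2 + γ * (t : ℤ))) β =
      (starRingEnd ℂ) (GV (Ioc k (k + y)) (fun t => (α : ℤ) * (t : ℤ) ^ 2 + γ * (t : ℤ)) β) := by
    unfold GV
    rw [map_sum]
    apply Finset.sum_congr rfl
    intro t _
    rw [conj_ee]
    congr 1
    push_cast
    ring
  rw [e, RCLike.norm_conj]

/-- the family of the progressions -/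
theorem fam_lin (u Q K y : ℕ) :
    WeylFam (Ioc Q (Q + K)) (fun _ => Ioc u (u + y)) (fun q t => (q : ℤ) * (t : ℤ)) 1 K y := by
  refine ⟨by rw [Nat.card_Ioc, Nat.add_sub_cancel_left], fun k _ => by rw [Nat.card_Ioc, Nat.add_sub_cancel_left],
    fun β s h hs hcop hβ => ?_⟩
  have hβ' : |β - h / s| ≤ 1 / (s : ℝ) ^ 2 := by
    refine le_trans (le_of_eq ?_) hβ
    push_cast
    rw [one_mul]
  obtain ⟨w, hw⟩ : ∃ w : ℕ → ℕ → ℂ, w = fun (q r : ℕ) => ee ((((q : ℤ) * ((u + 1 + r : ℕ) : ℤ) : ℤ) : ℝ) * β) := ⟨_, rfl⟩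
  have e1 : ∀ q : ℕ, GV (Ioc u (u + y)) (fun t => (q : ℤ) * (t : ℤ)) β = ∑ r ∈ range y, w q r := by
    intro q
    rw [hw]
    have e2 : Ioc u (u + y) = Ico (u + 1) (u + 1 + y) := by
      ext n
      rw [mem_Ioc, mem_Ico]
      omega
    unfold GV
    rw [e2, Finset.sum_Ico_eq_sum_range]
    have e3 : u + 1 + y - (u + 1) = y := by omega
    rw [e3]
  have hw1 : ∀ q r, ‖w q r‖ = 1 := by
    intro q r
    rw [hw]
    exact norm_ee _
  have h0 : ((∑ q ∈ Ioc Q (Q + K), ‖∑ r ∈ range y, w q r‖ ^ 2 : ℝ) : ℂ) =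
      ((K * y : ℝ) : ℂ) + ((∑ j ∈ range y, ∑ r ∈ range (y - j - 1), ∑ q ∈ Ioc Q (Q + K),
        w q (r + j + 1) * (starRingEnd ℂ) (w q r)) +
      (starRingEnd ℂ) (∑ j ∈ range y, ∑ r ∈ range (y - j - 1), ∑ q ∈ Ioc Q (Q + K),
        w q (r + j + 1) * (starRingEnd ℂ) (w q r))) := by
    rw [Complex.ofReal_sum, Finset.sum_congr rfl (fun q _ => vdc_id (w q) y), Finset.sum_add_distrib,
      Finset.sum_add_distrib]
    congr 1
    · simp_rw [hw1]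
      simp
    · rw [← map_sum]
      have e2 : ∑ q ∈ Ioc Q (Q + K), ∑ j ∈ range y, ∑ s ∈ range (y - j - 1),
          w q (s + j + 1) * (starRingEnd ℂ) (w q s) =
          ∑ j ∈ range y, ∑ r ∈ range (y - j - 1), ∑ q ∈ Ioc Q (Q + K),
            w q (r + j + 1) * (starRingEnd ℂ) (w q r) := by
        rw [Finset.sum_comm]
        apply Finset.sum_congr rfl
        intro j _
        rw [Finset.sum_comm]
      rw [e2]
  have h1 : ∑ q ∈ Ioc Q (Q + K), ‖∑ r ∈ range y, w q r‖ ^ 2 ≤ K * y +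
      2 * ∑ j ∈ range y, ∑ r ∈ range (y - j - 1), ‖∑ q ∈ Ioc Q (Q + K),
        w q (r + j + 1) * (starRingEnd ℂ) (w q r)‖ := by
    have h2 := congrArg norm h0
    rw [Complex.norm_real, Real.norm_of_nonneg (Finset.sum_nonneg fun _ _ => by positivity)] at h2
    rw [h2]
    refine (norm_add_le _ _).trans ?_
    apply add_le_add
    · rw [Complex.norm_real, Real.norm_of_nonneg (by positivity)]
    · refine (norm_add_le _ _).trans ?_
      rw [RCLike.norm_conj, ← two_mul]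
      apply mul_le_mul_of_nonneg_left _ (by norm_num)
      refine (norm_sum_le _ _).trans ?_
      apply Finset.sum_le_sum
      intro j _
      exact norm_sum_le _ _
  have h2 : ∀ j ∈ range y, ∀ r ∈ range (y - j - 1), ‖∑ q ∈ Ioc Q (Q + K),
      w q (r + j + 1) * (starRingEnd ℂ) (w q r)‖ ≤ KK K (0 + ((j + 1 : ℕ) : ℝ) * β) := by
    intro j _ r _
    rw [zero_add]
    have h3 : ∀ q ∈ Ioc Q (Q + K), w q (r + j + 1) * (starRingEnd ℂ) (w q r) =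
        ee (q * (((j + 1 : ℕ) : ℝ) * β)) := by
      intro q _
      rw [hw]
      simp only
      rw [conj_ee, ← ee_add]
      congr 1
      push_cast
      ring
    have e2 : Ioc Q (Q + K) = Ico (Q + 1) (Q + 1 + K) := by
      ext n
      rw [mem_Ioc, mem_Ico]
      omega
    rw [Finset.sum_congr rfl h3, e2]
    apply geo_bound (Q + 1) (Q + 1 + K) (by omega)
    push_cast
    linarith
  have h3 : ∑ j ∈ range y, ∑ r ∈ range (y - j - 1), ‖∑ q ∈ Ioc Q (Q + K),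
      w q (r + j + 1) * (starRingEnd ℂ) (w q r)‖ ≤
      y * ((((y + 1 : ℕ) : ℝ) / s + 1) * (39 * K + 3 * s * (1 + Real.log s))) := by
    have hv := vino hs hcop hβ' (M := (K : ℝ)) (Nat.cast_nonneg _) 0 (y + 1)
    refine le_trans ?_ (mul_le_mul_of_nonneg_left hv (Nat.cast_nonneg y))
    rw [Finset.sum_range_succ' (fun j : ℕ => KK K (0 + (j : ℝ) * β))]
    have h4 := KK_nonneg (Nat.cast_nonneg (α := ℝ) K) (0 + ((0 : ℕ) : ℝ) * β)
    have h5 : ∑ j ∈ range y, ∑ r ∈ range (y - j - 1), ‖∑ q ∈ Ioc Q (Q + K),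
      w q (r + j + 1) * (starRingEnd ℂ) (w q r)‖ ≤
        ∑ j ∈ range y, (y : ℝ) * KK K (0 + ((j + 1 : ℕ) : ℝ) * β) := by
      apply Finset.sum_le_sum
      intro j hj
      refine (Finset.sum_le_sum (h2 j hj)).trans ?_
      rw [Finset.sum_const, nsmul_eq_mul, card_range]
      apply mul_le_mul_of_nonneg_right _ (KK_nonneg (Nat.cast_nonneg _) _)
      exact_mod_cast (by omega : y - j - 1 ≤ y)
    refine h5.trans ?_
    rw [← Finset.mul_sum]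
    apply mul_le_mul_of_nonneg_left _ (Nat.cast_nonneg y)
    linarith
  have h4 : ∑ q ∈ Ioc Q (Q + K), ‖GV (Ioc u (u + y)) (fun t => (q : ℤ) * (t : ℤ)) β‖ ^ 2 =
      ∑ q ∈ Ioc Q (Q + K), ‖∑ r ∈ range y, w q r‖ ^ 2 := by
    apply Finset.sum_congr rfl
    intro q _
    rw [e1]
  rw [h4]
  refine h1.trans ?_
  have h5 : (y : ℝ) * (K + 2 * ((((y + 1 : ℕ) : ℝ) / s + 1) * (39 * K + 3 * s * (1 + Real.log s)))) =
      K * y + 2 * (y * ((((y + 1 : ℕ) : ℝ) / s + 1) * (39 * K + 3 * s * (1 + Real.log s)))) := by ring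
  rw [h5]
  linarith

end Pool.Agent.K9h19.CR
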