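import Pool.Agent.K9h19.CR.SR0

/-!
# One good constant term
-/

set_option autoImplicit false

namespace Pool.Agent.K9h19.CR

open Finset Filter Topology
open Pool.Agent.H373R2.T7 (lamz Vz pz Vz_pos Vz_inv_small nuB mem_pz)
open Pool.Agent.R460.SB (QS Sz Sz_bd fv fv_two)

/-- one window on which the weight is nearly constant -/
theorem core_win {a b c : ℤ} (ha : 0 < a) {V : ℕ} {X L R : ℝ} {k m z N : ℕ} (hL : 100 ≤ L)
    (hX0 : 0 < X) (hb : 2 * b ^ 2 + 6 ≤ c) {A T : ℕ} (hcX : X / L ^ A ≤ c)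
    (hM3 : 3 ≤ X / (2 * L ^ A)) (hV : (Vz z)⁻¹ ≤ L) (hR1 : 1 ≤ R) (hkR : (k : ℝ) + m ≤ R)
    (hR2 : R ^ 2 ≤ X * L ^ T) (hLab : 2 * (2 * a + |(b : ℝ)|) ≤ L)
    (hN : (a + |(b : ℝ)|) * R ^ 2 + c ≤ N) (hm2 : m ≤ R / L ^ (V + A + T + 2))
    {ε₁ ε₂ : ℝ}
    (hPE : |∑ t ∈ Ioc k (k + m), ext0 (PE z) N (c + a * (t : ℤ) ^ 2 + b * (t : ℤ))| ≤ ε₁ * m)
    (hdet : |∑ t ∈ Ioc k (k + m), sgz z (fv (-a) (-b) c t) - Sz (-a) (-b) c z * m| ≤ ε₂ * m) :
    |∑ t ∈ Ioc k (k + m), ((if (fv (-a) (-b) c t).toNat.Prime then (1 : ℝ) else 0) -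
      Sz (-a) (-b) c z * (1 / Real.log ((fv (-a) (-b) c t).toNat : ℝ)))| ≤ (ε₁ + ε₂ + 1 / L ^ V) * m := by
  have hL0 : 0 < L := by linarith
  have hL1 : 1 ≤ L := by linarith
  have ha0 : (0 : ℝ) < a := by exact_mod_cast ha
  have ha1 : (1 : ℝ) ≤ a := by exact_mod_cast ha
  have hba : 0 ≤ |(b : ℝ)| := abs_nonneg _
  have hb' : b ^ 2 + 2 ≤ c := by nlinarith [sq_nonneg b]
  have hR0 : 0 < R := by linarith
  obtain ⟨s0, s1⟩ := Sz_bd (-a) (-b) c z
  have hpos : ∀ t : ℕ, 0 ≤ fv (-a) (-b) c t := by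
    intro t
    have := fv_low (b := b) (c := c) ha t
    linarith
  have hcast : ∀ t : ℕ, ((fv (-a) (-b) c t).toNat : ℝ) = ((fv (-a) (-b) c t : ℤ) : ℝ) := by
    intro t
    have : (((fv (-a) (-b) c t).toNat : ℕ) : ℤ) = fv (-a) (-b) c t := Int.toNat_of_nonneg (hpos t)
    exact_mod_cast this
  have hlow : ∀ t : ℕ, X / (2 * L ^ A) ≤ ((fv (-a) (-b) c t).toNat : ℝ) := by
    intro t
    rw [hcast]
    have h1 : ((c - b ^ 2 : ℤ) : ℝ) ≤ ((fv (-a) (-b) c t : ℤ) : ℝ) := by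
      exact_mod_cast fv_low (b := b) (c := c) ha t
    have h2 : (2 : ℝ) * (b : ℝ) ^ 2 + 6 ≤ c := by exact_mod_cast hb
    have h3 : X / (2 * L ^ A) = (X / L ^ A) / 2 := by
      field_simp
    rw [h3]
    push_cast at h1
    linarith
  obtain ⟨δ, hδ⟩ : ∃ δ : ℝ, δ = m * ((2 * a + |(b : ℝ)|) * R) / (X / (2 * L ^ A)) := ⟨_, rfl⟩
  have hδ1 : L * δ ≤ 1 / L ^ V := by
    have e1 : L * δ = m * (2 * (2 * a + |(b : ℝ)|)) * R * L ^ (A + 1) / X := by
      rw [hδ, pow_succ]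
      field_simp
    rw [e1, div_le_div_iff₀ hX0 (by positivity)]
    have h1 : (m : ℝ) * L ^ (V + A + T + 2) ≤ R := by
      rw [le_div_iff₀ (by positivity)] at hm2
      exact hm2
    have h2 : m * (2 * (2 * a + |(b : ℝ)|)) * R * L ^ (A + 1) * L ^ V * L ^ T ≤ X * L ^ T := by
      calc m * (2 * (2 * a + |(b : ℝ)|)) * R * L ^ (A + 1) * L ^ V * L ^ T ≤
            m * L * R * L ^ (A + 1) * L ^ V * L ^ T := by gcongr
        _ = (m * L ^ (V + A + T + 2)) * R := by ring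
        _ ≤ R * R := by gcongr
        _ = R ^ 2 := by ring
        _ ≤ X * L ^ T := hR2
    have h3 := le_of_mul_le_mul_right h2 (by positivity)
    linarith
  refine (glue (ε₁ := ε₁) (ε₂ := ε₂) (δ := δ) hV s0 (s1.trans hV) ?_ ?_ ?_ ?_).trans ?_
  · refine le_trans (le_of_eq ?_) hPE
    congr 1
    apply Finset.sum_congr rfl
    intro t ht
    rw [mem_Ioc] at ht
    have e : c + a * (t : ℤ) ^ 2 + b * (t : ℤ) = fv (-a) (-b) c t := (fv_val a b c t).symm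
    rw [e]
    unfold ext0
    rw [if_pos]
    constructor
    · have := fv_low (b := b) (c := c) ha t
      linarith
    · have h1 : ((fv (-a) (-b) c t : ℤ) : ℝ) ≤ N := by
        refine le_trans ?_ hN
        rw [fv_val]
        push_cast
        have ht1 : (1 : ℝ) ≤ t := by exact_mod_cast (by omega : 1 ≤ t)
        have ht2 : (t : ℝ) ≤ R := by
          have : (t : ℝ) ≤ k + m := by exact_mod_cast ht.2
          linarith
        have ht3 : (t : ℝ) ^ 2 ≤ R ^ 2 := pow_le_pow_left₀ (by linarith) ht2 2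
        have h2 : (b : ℝ) * t ≤ |(b : ℝ)| * R ^ 2 := by
          calc (b : ℝ) * t ≤ |(b : ℝ)| * t := by
                apply mul_le_mul_of_nonneg_right (le_abs_self _) (by linarith)
            _ ≤ |(b : ℝ)| * R ^ 2 := by
                apply mul_le_mul_of_nonneg_left _ hba
                calc (t : ℝ) ≤ R := ht2
                  _ ≤ R ^ 2 := le_self_pow₀ hR1 (by norm_num)
        have h3 : (a : ℝ) * (t : ℝ) ^ 2 ≤ a * R ^ 2 := by gcongr
        have e3 : (a + |(b : ℝ)|) * R ^ 2 = a * R ^ 2 + |(b : ℝ)| * R ^ 2 := by ring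
        linarith
      exact_mod_cast h1
  · rw [lamz_window ha hb']
    exact hdet
  · intro t _
    have := hlow t
    have h3 : (3 : ℝ) ≤ ((fv (-a) (-b) c t).toNat : ℝ) := by linarith
    exact_mod_cast h3
  · intro t ht t' ht'
    have h1 := wdiff hM3 (hlow t) (hlow t')
    refine h1.trans ?_
    rw [hcast, hcast, hδ]
    exact div_le_div_of_nonneg_right (fv_diff ha hR1 hkR ht ht') (by linarith)
  · apply mul_le_mul_of_nonneg_right _ (Nat.cast_nonneg _)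
    linarith

/-- all the windows of an interval -/
theorem core {a b c : ℤ} (ha : 0 < a) {C₂ : ℕ} {X L R S : ℝ} {u y m z N : ℕ} (hL : 100 ≤ L)
    (hX0 : 0 < X) (hb : 2 * b ^ 2 + 6 ≤ c) {A T : ℕ} (hcX : X / L ^ A ≤ c)
    (hM3 : 3 ≤ X / (2 * L ^ A)) (hV : (Vz z)⁻¹ ≤ L) (hR1 : 1 ≤ R) (huR : (u : ℝ) + y ≤ R)
    (hR2 : R ^ 2 ≤ X * L ^ T) (hLab : 2 * (2 * a + |(b : ℝ)|) ≤ L)
    (hN : (a + |(b : ℝ)|) * R ^ 2 + c ≤ N) (hm1 : 1 ≤ m) (hm2 : (m : ℝ) ≤ y / L ^ (C₂ + A + T + 4))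
    (hS : |S - Sz (-a) (-b) c z| ≤ 12 / L ^ (C₂ + 1))
    (hPE : ∀ j < y / m, |∑ t ∈ Ioc (u + j * m) (u + j * m + m),
      ext0 (PE z) N (c + a * (t : ℤ) ^ 2 + b * (t : ℤ))| ≤ 1 / L ^ (C₂ + 2) * m)
    (hdet : ∀ j < y / m, |∑ t ∈ Ioc (u + j * m) (u + j * m + m), sgz z (fv (-a) (-b) c t) -
      Sz (-a) (-b) c z * m| ≤ 1 / L ^ (C₂ + 2) * m) :
    |(((Ioc u (u + y)).filter (fun t : ℕ => (fv (-a) (-b) c t).toNat.Prime)).card : ℝ) -
      S * ∑ t ∈ Ioc u (u + y), 1 / Real.log ((fv (-a) (-b) c t : ℤ) : ℝ)| ≤ y / L ^ C₂ := by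
  have hL0 : 0 < L := by linarith
  have hL1 : 1 ≤ L := by linarith
  have hba : 0 ≤ |(b : ℝ)| := abs_nonneg _
  have hb' : b ^ 2 + 2 ≤ c := by nlinarith [sq_nonneg b]
  have hy0 : (0 : ℝ) ≤ y := Nat.cast_nonneg _
  have hyR : (y : ℝ) ≤ R := by
    have : (0 : ℝ) ≤ u := Nat.cast_nonneg _
    linarith
  obtain ⟨s0, s1⟩ := Sz_bd (-a) (-b) c z
  have hpos : ∀ t : ℕ, 0 ≤ fv (-a) (-b) c t := by
    intro t
    have := fv_low (b := b) (c := c) ha t
    linarith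
  have hcast : ∀ t : ℕ, ((fv (-a) (-b) c t).toNat : ℝ) = ((fv (-a) (-b) c t : ℤ) : ℝ) := by
    intro t
    have : (((fv (-a) (-b) c t).toNat : ℕ) : ℤ) = fv (-a) (-b) c t := Int.toNat_of_nonneg (hpos t)
    exact_mod_cast this
  have h3 : ∀ t : ℕ, 3 ≤ (fv (-a) (-b) c t).toNat := by
    intro t
    have h1 := fv_low (b := b) (c := c) ha t
    have h2 := sq_nonneg b
    have h4 : 3 ≤ fv (-a) (-b) c t := by linarith
    omega
  have hlog1 : ∀ t : ℕ, 1 ≤ Real.log ((fv (-a) (-b) c t).toNat : ℝ) := fun t => log_ge_one (h3 t)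
  have hw : ∀ t : ℕ, 0 ≤ 1 / Real.log ((fv (-a) (-b) c t).toNat : ℝ) ∧
      1 / Real.log ((fv (-a) (-b) c t).toNat : ℝ) ≤ 1 := by
    intro t
    have := hlog1 t
    exact ⟨by positivity, by rw [div_le_one (by linarith)]; exact this⟩
  obtain ⟨g, hg⟩ : ∃ g : ℕ → ℝ, g = fun t => (if (fv (-a) (-b) c t).toNat.Prime then (1 : ℝ) else 0) -
      Sz (-a) (-b) c z * (1 / Real.log ((fv (-a) (-b) c t).toNat : ℝ)) := ⟨_, rfl⟩
  have hblock : ∀ j < y / m, |∑ t ∈ Ioc (u + j * m) (u + j * m + m), g t| ≤ 3 / L ^ (C₂ + 2) * m := by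
    intro j hj
    have hjm : (j + 1) * m ≤ y := (Nat.mul_le_mul_right m (Nat.succ_le_of_lt hj)).trans (Nat.div_mul_le_self y m)
    have hjm' : j * m + m ≤ y := by
      have : (j + 1) * m = j * m + m := by ring
      omega
    have h1 := core_win ha (V := C₂ + 2) (k := u + j * m) (m := m) hL hX0 hb hcX hM3 hV hR1 (by
      have h2 : (((u + j * m : ℕ) : ℝ)) + m ≤ u + y := by exact_mod_cast (by omega : u + j * m + m ≤ u + y)
      linarith) hR2 hLab hN (by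
        refine hm2.trans ?_
        have e : C₂ + 2 + A + T + 2 = C₂ + A + T + 4 := by ring
        rw [e]
        exact div_le_div_of_nonneg_right hyR (by positivity)) (hPE j hj) (hdet j hj)
    rw [hg]
    refine h1.trans (le_of_eq ?_)
    ring
  have hG : ∀ t ∈ Ioc u (u + y), |g t| ≤ 2 * L := by
    intro t _
    rw [hg]
    simp only
    have h1 := (hw t).1
    have h2 := (hw t).2
    have h4 : 0 ≤ Sz (-a) (-b) c z * (1 / Real.log ((fv (-a) (-b) c t).toNat : ℝ)) := mul_nonneg s0 h1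
    have h5 : Sz (-a) (-b) c z * (1 / Real.log ((fv (-a) (-b) c t).toNat : ℝ)) ≤ L * 1 :=
      mul_le_mul (s1.trans hV) h2 h1 hL0.le
    rw [abs_le]
    split_ifs <;> constructor <;> linarith
  have h1 := blocks g u y m hm1 (by positivity) hblock hG (by linarith)
  have h2 : |∑ t ∈ Ioc u (u + y), g t| ≤ 5 * (y / L ^ (C₂ + 2)) := by
    refine h1.trans ?_
    have h4 : 2 * L * (m : ℝ) ≤ 2 * (y / L ^ (C₂ + 2)) := by
      calc 2 * L * (m : ℝ) ≤ 2 * L * (y / L ^ (C₂ + A + T + 4)) := by gcongr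
        _ ≤ 2 * L * (y / L ^ (C₂ + 3)) := by
            apply mul_le_mul_of_nonneg_left _ (by positivity)
            apply div_le_div_of_nonneg_left hy0 (by positivity)
            exact pow_le_pow_right₀ hL1 (by omega)
        _ = 2 * (y / L ^ (C₂ + 2)) := by
            rw [pow_succ L (C₂ + 2)]
            field_simp
    have e : 3 / L ^ (C₂ + 2) * (y : ℝ) = 3 * (y / L ^ (C₂ + 2)) := by ring
    rw [e]
    linarith
  obtain ⟨Sg, hSg⟩ : ∃ Sg : ℝ, Sg = ∑ t ∈ Ioc u (u + y), 1 / Real.log ((fv (-a) (-b) c t).toNat : ℝ) := ⟨_, rfl⟩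
  have hSg0 : 0 ≤ Sg := by rw [hSg]; exact Finset.sum_nonneg fun t _ => (hw t).1
  have hSg1 : Sg ≤ y := by
    rw [hSg]
    refine (Finset.sum_le_sum fun t _ => (hw t).2).trans ?_
    rw [Finset.sum_const, Nat.card_Ioc, nsmul_eq_mul, Nat.add_sub_cancel_left, mul_one]
  have e1 : ∑ t ∈ Ioc u (u + y), g t =
      (((Ioc u (u + y)).filter (fun t : ℕ => (fv (-a) (-b) c t).toNat.Prime)).card : ℝ) -
        Sz (-a) (-b) c z * Sg := by
    rw [hg, hSg, Finset.sum_sub_distrib, Finset.mul_sum, ← Finset.sum_filter, Finset.sum_const,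
      nsmul_eq_mul, mul_one]
  have e2 : ∑ t ∈ Ioc u (u + y), 1 / Real.log ((fv (-a) (-b) c t : ℤ) : ℝ) = Sg := by
    rw [hSg]
    apply Finset.sum_congr rfl
    intro t _
    rw [hcast]
  rw [e1] at h2
  rw [e2]
  have e3 : (((Ioc u (u + y)).filter (fun t : ℕ => (fv (-a) (-b) c t).toNat.Prime)).card : ℝ) - S * Sg =
      ((((Ioc u (u + y)).filter (fun t : ℕ => (fv (-a) (-b) c t).toNat.Prime)).card : ℝ) -
        Sz (-a) (-b) c z * Sg) - (S - Sz (-a) (-b) c z) * Sg := by ring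
  rw [e3]
  refine (abs_sub _ _).trans ?_
  have h4 : |(S - Sz (-a) (-b) c z) * Sg| ≤ 12 * (y / L ^ (C₂ + 1)) := by
    rw [abs_mul, abs_of_nonneg hSg0]
    calc |S - Sz (-a) (-b) c z| * Sg ≤ 12 / L ^ (C₂ + 1) * y := mul_le_mul hS hSg1 hSg0 (by positivity)
      _ = 12 * (y / L ^ (C₂ + 1)) := by ring
  have h5 : y / L ^ (C₂ + 1) = (y / L ^ C₂) * (1 / L) := by
    rw [pow_succ]
    field_simp
  have h6 : y / L ^ (C₂ + 2) = (y / L ^ C₂) * (1 / L) * (1 / L) := by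
    rw [pow_succ, pow_succ]
    field_simp
  have h7 : 0 ≤ y / L ^ C₂ := by positivity
  have h8 : 1 / L ≤ 1 / 100 := one_div_le_one_div_of_le (by norm_num) hL
  have h9 : (y / L ^ C₂) * (1 / L) ≤ (y / L ^ C₂) * (1 / 100) := by gcongr
  have h10 : (y / L ^ C₂) * (1 / L) * (1 / L) ≤ (y / L ^ C₂) * (1 / 100) * (1 / 100) := by gcongr
  rw [h5] at h4
  rw [h6] at h2
  linarith

end Pool.Agent.K9h19.CR
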