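import Pool.Agent.K9h19.CR.SR1

/-!
# Prime values of quadratic polynomials with arguments in a short interval
-/

set_option autoImplicit false

namespace Pool.Agent.K9h19.CR

open Finset Filter Topology
open Pool.Agent.Q236.CR
open Pool.Agent.H373R2.T7 (lamz Vz pz Vz_pos Vz_inv_small nuB mem_pz)
open Pool.Agent.R460.SB (QS Sz Sz_bd Sz_low loc_lt fv fv_two)
open Pool.Agent.R460.SC (tail_class)
open Pool.Agent.W468.ConjF (SJ PJ)

/-- the conclusion for one constant term -/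
def GoodS (a b : ℤ) (C D T X u : ℕ) (c : ℤ) : Prop :=
  ∃ S : ℝ, Tendsto (fun z : ℕ => Sz (-a) (-b) c z) atTop (𝓝 S) ∧
    ∀ y : ℕ, (X : ℝ) ^ (1 / 6 : ℝ) * Real.log X ^ D ≤ y → ((u : ℝ) + y) ^ 2 ≤ X * Real.log X ^ T →
      |(((Ioc u (u + y)).filter (fun t : ℕ => (fv (-a) (-b) c t).toNat.Prime)).card : ℝ) -
        S * ∑ t ∈ Ioc u (u + y), 1 / Real.log ((fv (-a) (-b) c t : ℤ) : ℝ)| ≤ y / Real.log X ^ C ∧
      ((∀ p : ℕ, p.Prime → ∃ m : ℕ, ¬ (p : ℤ) ∣ fv (-a) (-b) c m) →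
        ∃ t ∈ Ioc u (u + y), (fv (-a) (-b) c t).toNat.Prime)

theorem exist_prime {a b c : ℤ} {u y C₂ : ℕ} {S L κ : ℝ} (hL : 100 ≤ L) (hC : 4 ≤ C₂) (hκ : 0 < κ)
    (hκL : 8 / κ ≤ L) (hy : 1 ≤ y) (hS : κ / (2 * L ^ 2) ≤ S)
    (hlog : ∀ t ∈ Ioc u (u + y), 0 < Real.log ((fv (-a) (-b) c t : ℤ) : ℝ) ∧
      Real.log ((fv (-a) (-b) c t : ℤ) : ℝ) ≤ 2 * L)
    (h : |(((Ioc u (u + y)).filter (fun t : ℕ => (fv (-a) (-b) c t).toNat.Prime)).card : ℝ) -
        S * ∑ t ∈ Ioc u (u + y), 1 / Real.log ((fv (-a) (-b) c t : ℤ) : ℝ)| ≤ y / L ^ C₂) :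
    ∃ t ∈ Ioc u (u + y), (fv (-a) (-b) c t).toNat.Prime := by
  by_contra hno
  push Not at hno
  have hL0 : 0 < L := by linarith
  have hL1 : 1 ≤ L := by linarith
  have hy0 : (0 : ℝ) < y := by exact_mod_cast hy
  have e0 : ((Ioc u (u + y)).filter (fun t : ℕ => (fv (-a) (-b) c t).toNat.Prime)).card = 0 := by
    rw [Finset.card_eq_zero, Finset.filter_eq_empty_iff]
    exact fun t ht => hno t ht
  rw [e0, Nat.cast_zero, zero_sub, abs_neg] at h
  have h1 : (y : ℝ) / (2 * L) ≤ ∑ t ∈ Ioc u (u + y), 1 / Real.log ((fv (-a) (-b) c t : ℤ) : ℝ) := by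
    have e1 : (y : ℝ) / (2 * L) = ∑ _t ∈ Ioc u (u + y), 1 / (2 * L) := by
      rw [Finset.sum_const, Nat.card_Ioc, nsmul_eq_mul, Nat.add_sub_cancel_left]
      ring
    rw [e1]
    apply Finset.sum_le_sum
    intro t ht
    exact one_div_le_one_div_of_le (hlog t ht).1 (hlog t ht).2
  have h2 := (le_abs_self _).trans h
  have h3 : κ / (2 * L ^ 2) * (y / (2 * L)) ≤ y / L ^ C₂ := by
    refine le_trans ?_ h2
    exact mul_le_mul hS h1 (by positivity) (le_trans (by positivity) hS)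
  have h4 : y / L ^ C₂ ≤ y / L ^ 4 := by
    apply div_le_div_of_nonneg_left hy0.le (by positivity)
    exact pow_le_pow_right₀ hL1 hC
  have h5 : κ / (2 * L ^ 2) * (y / (2 * L)) = (y / L ^ 4) * (κ * L / 4) := by
    field_simp
    ring
  have h6 : 0 < y / L ^ 4 := by positivity
  have h7 : 8 ≤ κ * L := by
    rw [div_le_iff₀ hκ] at hκL
    linarith
  rw [h5] at h3
  have h8 : (y / L ^ 4) * 2 ≤ (y / L ^ 4) * (κ * L / 4) := by
    apply mul_le_mul_of_nonneg_left _ h6.le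
    linarith
  linarith

theorem fin_short (hcr : S_CHR) (hmo : S_MOC) {a b : ℤ} (ha : 0 < a) (A C T : ℕ) :
    ∃ D X₀ : ℕ, ∀ X : ℕ, X₀ ≤ X → ∀ u : ℕ, ∃ Bad : Finset ℤ, (Bad.card : ℝ) ≤ X / Real.log X ^ A ∧
      ∀ c : ℤ, 1 ≤ c → c ≤ X → c ∉ Bad → GoodS a b C D T X u c := by
  classical
  obtain ⟨α, hα⟩ : ∃ α : ℕ, (α : ℤ) = a := ⟨a.toNat, Int.toNat_of_nonneg ha.le⟩
  have hα1 : 1 ≤ α := by omega
  obtain ⟨C₂, hC₂⟩ : ∃ C₂ : ℕ, C₂ = C + 4 := ⟨_, rfl⟩
  obtain ⟨C', hC'⟩ : ∃ C' : ℕ, C' = C₂ + (A + 2) + T + 4 := ⟨_, rfl⟩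
  obtain ⟨U, hU⟩ : ∃ U : ℕ, U = A + C₂ + 4 := ⟨_, rfl⟩
  obtain ⟨A₁, hA₁⟩ : ∃ A₁ : ℕ, A₁ = A + T + C' + 6 := ⟨_, rfl⟩
  obtain ⟨B₀, hB₀⟩ := bad_win hcr hmo α hα1 A₁ (C₂ + 2)
  obtain ⟨B', hB'⟩ : ∃ B' : ℕ, B' = B₀ + 3 * (U + 1) + 4 + C₂ + 4 := ⟨_, rfl⟩
  obtain ⟨D₀, N₁, hbad⟩ := hB₀ (B' + 1)
  obtain ⟨X₂, htail⟩ := tail_class a ha b (1 / 4) (by norm_num) U (B' + 1)
  obtain ⟨X₃, hdet⟩ := det_win (α := -a) (γ := -b) (by omega) (C₂ + 2) (B' + 1) 8
  obtain ⟨X₄, hVz⟩ := Vz_inv_small (B' + 1)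
  obtain ⟨κ, hκ⟩ : ∃ κ : ℝ, κ = (1 / ((-a).natAbs : ℝ)) ^ (-a).natAbs := ⟨_, rfl⟩
  have hκ0 : 0 < κ := by
    rw [hκ]
    have : (0 : ℝ) < ((-a).natAbs : ℝ) := by
      have : 0 < (-a).natAbs := Int.natAbs_pos.2 (by omega)
      exact_mod_cast this
    positivity
  obtain ⟨G, hG⟩ : ∃ G : ℝ, G = 2 * (2 * a + |(b : ℝ)|) + 8 / κ + 2 ^ B₀ + 2 ^ D₀ + 100 +
    (2 * ((α : ℝ) + b.natAbs + 1) + 1) := ⟨_, rfl⟩
  obtain ⟨X₅, hX₅⟩ := ev_natlog (P := fun l => G ≤ l ∧ 6 * l ^ (A + 2) ≤ Real.exp (1 * l) ∧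
      (2 * (b : ℝ) ^ 2 + 6) * l ^ (A + 2) ≤ Real.exp (1 * l) ∧ 1 * l ^ (T + 1) ≤ Real.exp (1 * l)) (by
    filter_upwards [eventually_ge_atTop G, ev_exp 1 6 (A + 2) (by norm_num),
      ev_exp 1 (2 * (b : ℝ) ^ 2 + 6) (A + 2) (by norm_num), ev_exp 1 1 (T + 1) (by norm_num)]
      with l h1 h2 h3 h4
    exact ⟨h1, h2, h3, h4⟩)
  refine ⟨D₀ + C' + T + 6, N₁ + X₂ + X₃ + X₄ + X₅ + 3, fun X hX u => ?_⟩
  obtain ⟨g1, g2, g3, g4⟩ := hX₅ X (by omega)
  have hXN₁ : N₁ ≤ X := by omega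
  have hX3 : 3 ≤ X := by omega
  have hX0 : (0 : ℝ) < X := by exact_mod_cast (by omega : 0 < X)
  have hX1 : (1 : ℝ) ≤ X := by exact_mod_cast (by omega : 1 ≤ X)
  have hX2 := htail X (by omega)
  have hX3' := hdet X (by omega)
  have hX4 := hVz X (by omega)
  obtain ⟨L, hL⟩ : ∃ L : ℝ, L = Real.log X := ⟨_, rfl⟩
  have hexpL : Real.exp (1 * L) = X := by rw [one_mul, hL, Real.exp_log hX0]
  unfold GoodS
  rw [← hL] at g1 g2 g3 g4 hX2 hX3' hX4 ⊢
  rw [hexpL] at g2 g3 g4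
  have ha0 : (0 : ℝ) < a := by exact_mod_cast ha
  have hba : 0 ≤ |(b : ℝ)| := abs_nonneg _
  have hk1 : 0 < 8 / κ := by positivity
  have hk2 : (0 : ℝ) < 2 ^ B₀ := by positivity
  have hk3 : (0 : ℝ) < 2 ^ D₀ := by positivity
  have hk4 : (0 : ℝ) ≤ (b.natAbs : ℝ) := Nat.cast_nonneg _
  have hk5 : (0 : ℝ) ≤ (α : ℝ) := Nat.cast_nonneg _
  have hαr : (α : ℝ) = a := by exact_mod_cast hα
  have hbr : (b.natAbs : ℝ) = |(b : ℝ)| := by
    rw [Nat.cast_natAbs]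
    push_cast
    rfl
  have hL100 : 100 ≤ L := by linarith
  have hLab : 2 * (2 * a + |(b : ℝ)|) ≤ L := by linarith
  have hLκ : 8 / κ ≤ L := by linarith
  have hLB : (2 : ℝ) ^ B₀ ≤ L := by linarith
  have hLD : (2 : ℝ) ^ D₀ ≤ L := by linarith
  have hLN : 2 * ((α : ℝ) + b.natAbs + 1) + 1 ≤ L := by linarith
  have hL0 : 0 < L := by linarith
  have hL1 : 1 ≤ L := by linarith
  have hLT : 1 ≤ L ^ T := one_le_pow₀ hL1
  -- the range of the values
  obtain ⟨N, hN⟩ : ∃ N : ℕ, N = (α + b.natAbs + 1) * (X * ⌈L ^ T⌉₊) + X := ⟨_, rfl⟩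
  have hceil1 : L ^ T ≤ ⌈L ^ T⌉₊ := Nat.le_ceil _
  have hceil2 : (⌈L ^ T⌉₊ : ℝ) ≤ 2 * L ^ T := by
    have := Nat.ceil_lt_add_one (show 0 ≤ L ^ T by positivity)
    linarith
  have hNr : (N : ℝ) = ((α : ℝ) + b.natAbs + 1) * (X * ⌈L ^ T⌉₊) + X := by rw [hN]; push_cast; ring
  have hNlow : (a + |(b : ℝ)|) * (X * L ^ T) + X ≤ N := by
    rw [hNr, hαr, hbr]
    have h1 : (a + |(b : ℝ)|) * (X * L ^ T) ≤ (a + |(b : ℝ)| + 1) * (X * ⌈L ^ T⌉₊) := by
      apply mul_le_mul _ _ (by positivity) (by positivity)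
      · linarith
      · gcongr
    linarith
  have hNup : (N : ℝ) ≤ X * L ^ (T + 1) := by
    rw [hNr]
    calc ((α : ℝ) + b.natAbs + 1) * (X * ⌈L ^ T⌉₊) + X ≤
          ((α : ℝ) + b.natAbs + 1) * (X * (2 * L ^ T)) + X * L ^ T := by
          apply add_le_add
          · gcongr
          · exact le_mul_of_one_le_right hX0.le hLT
      _ = (2 * ((α : ℝ) + b.natAbs + 1) + 1) * (X * L ^ T) := by ring
      _ ≤ L * (X * L ^ T) := by gcongr
      _ = X * L ^ (T + 1) := by ring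
  have hXN : (X : ℝ) ≤ N := by
    have : 0 ≤ (a + |(b : ℝ)|) * (X * L ^ T) := by positivity
    linarith
  have hXNn : X ≤ N := by exact_mod_cast hXN
  obtain ⟨l, hl⟩ : ∃ l : ℝ, l = Real.log N := ⟨_, rfl⟩
  have hlL : L ≤ l := by rw [hL, hl]; exact Real.log_le_log hX0 hXN
  have hl2 : l ≤ 2 * L := by
    have h1 : (N : ℝ) ≤ X ^ 2 := by
      calc (N : ℝ) ≤ X * L ^ (T + 1) := hNup
        _ ≤ X * X := by
            apply mul_le_mul_of_nonneg_left _ hX0.le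
            linarith
        _ = X ^ 2 := by ring
    have h2 := Real.log_le_log (by linarith) h1
    rw [Real.log_pow] at h2
    rw [hl, hL]
    exact_mod_cast h2
  have hl0 : 0 < l := by linarith
  -- the sieving limit
  obtain ⟨z, hz⟩ : ∃ z : ℕ, z = ⌈L ^ B'⌉₊ := ⟨_, rfl⟩
  have hzlo : L ^ B' ≤ z := by rw [hz]; exact Nat.le_ceil _
  have hzhi : (z : ℝ) ≤ L ^ (B' + 1) := by
    have := Nat.ceil_lt_add_one (show 0 ≤ L ^ B' by positivity)
    rw [← hz] at this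
    have h1 : 1 ≤ L ^ B' := one_le_pow₀ hL1
    calc (z : ℝ) ≤ L ^ B' + 1 := this.le
      _ ≤ L ^ B' + L ^ B' := by linarith
      _ = 2 * L ^ B' := by ring
      _ ≤ L * L ^ B' := mul_le_mul_of_nonneg_right (by linarith) (by positivity)
      _ = L ^ (B' + 1) := by ring
  have hzL : L ≤ z := (le_self_pow₀ hL1 (by omega)).trans hzlo
  have hz2 : 2 ≤ z := by
    have : (2 : ℝ) ≤ z := by linarith
    exact_mod_cast this
  have haz : a ≤ z := by
    have : (a : ℝ) ≤ z := by linarith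
    exact_mod_cast this
  have hV := hX4 z (by omega) hzhi
  obtain ⟨Ex, hEx1, hEx2⟩ := hX2 z ((pow_le_pow_right₀ hL1 (by omega)).trans hzlo) hzhi 1 le_rfl
    (by rw [Nat.cast_one]; exact Real.one_le_rpow hX1 (by norm_num)) 0
  have hbadN := hbad N (by omega) z
    (by
      rw [← hl]
      calc l ^ B₀ ≤ (2 * L) ^ B₀ := pow_le_pow_left₀ hl0.le hl2 _
        _ = 2 ^ B₀ * L ^ B₀ := mul_pow _ _ _
        _ ≤ L * L ^ B₀ := by gcongr
        _ = L ^ (B₀ + 1) := by ring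
        _ ≤ L ^ B' := pow_le_pow_right₀ hL1 (by omega)
        _ ≤ z := hzlo)
    (by
      rw [← hl]
      exact hzhi.trans (pow_le_pow_left₀ hL0.le hlL _)) b
  rw [← hl] at hbadN
  have hlD : l ^ D₀ ≤ L ^ (D₀ + 1) := by
    calc l ^ D₀ ≤ (2 * L) ^ D₀ := pow_le_pow_left₀ hl0.le hl2 _
      _ = 2 ^ D₀ * L ^ D₀ := mul_pow _ _ _
      _ ≤ L * L ^ D₀ := by gcongr
      _ = L ^ (D₀ + 1) := by ring
  -- the exceptional sets
  obtain ⟨I, hI⟩ : ∃ I : ℕ, I = Nat.log 2 X + 1 := ⟨_, rfl⟩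
  obtain ⟨J, hJ⟩ : ∃ J : ℕ, J = ⌈2 * L ^ C'⌉₊ := ⟨_, rfl⟩
  obtain ⟨W, hW⟩ : ∃ W : Finset (ℕ × ℕ), W = (range I ×ˢ range J).filter (fun ij =>
    l ^ D₀ ≤ ((2 ^ ij.1 : ℕ) : ℝ) ∧ (N : ℝ) ^ (1 / 3 : ℝ) * l ^ D₀ ≤ ((2 ^ ij.1 : ℕ) : ℝ) ^ 2 ∧
      ((2 ^ ij.1 : ℕ) : ℝ) ^ 2 ≤ N) := ⟨_, rfl⟩
  obtain ⟨Bw, hBw⟩ : ∃ Bw : ℕ × ℕ → Finset ℤ, Bw = fun ij => (Icc 1 (X : ℤ)).filter
    (fun c : ℤ => ((2 ^ ij.1 : ℕ) : ℝ) / l ^ (C₂ + 2) <
      |∑ t ∈ (Ioc (u + ij.2 * 2 ^ ij.1) (u + ij.2 * 2 ^ ij.1 + 2 ^ ij.1) : Finset ℕ),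
        ext0 (PE z) N (c + α * (t : ℤ) ^ 2 + b * (t : ℤ))|) := ⟨_, rfl⟩
  have hBwc : ∀ ij ∈ W, ((Bw ij).card : ℝ) ≤ N / l ^ A₁ := by
    intro ij hij
    rw [hW, mem_filter] at hij
    rw [hBw]
    exact hbadN (u + ij.2 * 2 ^ ij.1) (2 ^ ij.1) hij.2.1 hij.2.2.1 hij.2.2.2 (Icc 1 (X : ℤ))
  obtain ⟨Sm, hSm⟩ : ∃ Sm : Finset ℤ, Sm = Icc 1 ⌊(X : ℝ) / L ^ (A + 2)⌋ := ⟨_, rfl⟩
  obtain ⟨P, hP⟩ : ∃ P : ℝ, P = X / L ^ (A + 2) := ⟨_, rfl⟩
  have hP0 : 0 < P := by rw [hP]; positivity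
  refine ⟨W.biUnion Bw ∪ Ex ∪ Sm, ?_, ?_⟩
  · -- the cardinality
    have h1 : ((W.biUnion Bw).card : ℝ) ≤ P := by
      have h2 : ((W.biUnion Bw).card : ℝ) ≤ ∑ ij ∈ W, ((Bw ij).card : ℝ) := by
        exact_mod_cast card_biUnion_le
      refine h2.trans ((Finset.sum_le_sum hBwc).trans ?_)
      rw [Finset.sum_const, nsmul_eq_mul]
      have h3 : (W.card : ℝ) ≤ (3 * L) * (3 * L ^ C') := by
        have h4 : W.card ≤ I * J := by
          rw [hW]
          refine (card_filter_le _ _).trans ?_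
          rw [card_product, card_range, card_range]
        have h5 : (W.card : ℝ) ≤ I * J := by exact_mod_cast h4
        refine h5.trans ?_
        have h6 : (I : ℝ) ≤ 3 * L := by
          have h7 : (Nat.log 2 X : ℝ) * Real.log 2 ≤ L := by
            rw [hL, ← Real.log_pow]
            apply Real.log_le_log (by positivity)
            exact_mod_cast Nat.pow_log_le_self 2 (by omega)
          have h8 : 1 / 2 ≤ Real.log 2 := by
            have := Real.log_two_gt_d9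
            linarith
          have h9 : (0 : ℝ) ≤ Nat.log 2 X := Nat.cast_nonneg _
          have h10 : (Nat.log 2 X : ℝ) * (1 / 2) ≤ L := (mul_le_mul_of_nonneg_left h8 h9).trans h7
          rw [hI]
          push_cast
          linarith
        have h7 : (J : ℝ) ≤ 3 * L ^ C' := by
          have := Nat.ceil_lt_add_one (show 0 ≤ 2 * L ^ C' by positivity)
          rw [← hJ] at this
          have h8 : 1 ≤ L ^ C' := one_le_pow₀ hL1
          linarith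
        exact mul_le_mul h6 h7 (Nat.cast_nonneg _) (by positivity)
      have h4 : (N : ℝ) / l ^ A₁ ≤ X * L ^ (T + 1) / L ^ A₁ := by
        apply div_le_div₀ (by positivity) hNup (by positivity)
        exact pow_le_pow_left₀ hL0.le hlL _
      calc (W.card : ℝ) * (N / l ^ A₁) ≤ ((3 * L) * (3 * L ^ C')) * (X * L ^ (T + 1) / L ^ A₁) := by
            apply mul_le_mul h3 h4 (by positivity) (by positivity)
        _ = P * (9 / L ^ 2) := by
            have e : L ^ A₁ = L ^ C' * L ^ (T + 1) * L ^ (A + 2) * L * L ^ 2 := by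
              rw [hA₁]
              ring
            rw [hP, e]
            field_simp
            try norm_num
        _ ≤ P * 1 := by
            apply mul_le_mul_of_nonneg_left _ hP0.le
            rw [div_le_one (by positivity)]
            have : L ≤ L ^ 2 := le_self_pow₀ hL1 (by norm_num)
            linarith
        _ = P := mul_one _
    have h2 : (Ex.card : ℝ) ≤ P := by
      refine hEx1.trans ?_
      rw [hP, Nat.cast_one, one_mul]
      apply div_le_div_of_nonneg_left hX0.le (by positivity)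
      exact pow_le_pow_right₀ hL1 (by omega)
    have h3 : (Sm.card : ℝ) ≤ P := by
      rw [hSm, ← hP, Int.card_Icc]
      have h4 : (⌊P⌋ : ℝ) ≤ P := Int.floor_le _
      have h5 : 0 ≤ ⌊P⌋ := Int.floor_nonneg.2 hP0.le
      have h6 : (((⌊P⌋ + 1 - 1).toNat : ℕ) : ℤ) = ⌊P⌋ := by
        rw [Int.toNat_of_nonneg (by omega)]
        ring
      have h7 : (((⌊P⌋ + 1 - 1).toNat : ℕ) : ℝ) = (⌊P⌋ : ℝ) := by exact_mod_cast h6
      rw [h7]
      exact h4
    have h4 : ((W.biUnion Bw ∪ Ex ∪ Sm).card : ℝ) ≤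
        ((W.biUnion Bw).card : ℝ) + (Ex.card : ℝ) + (Sm.card : ℝ) := by
      have e2 := card_union_le (W.biUnion Bw) Ex
      have e3 := card_union_le (W.biUnion Bw ∪ Ex) Sm
      exact_mod_cast e3.trans (Nat.add_le_add_right e2 _)
    refine h4.trans ?_
    have h5 : (X : ℝ) / L ^ A = P * L ^ 2 := by
      rw [hP, pow_add]
      field_simp
    rw [h5]
    have h6 : 3 ≤ L ^ 2 := by
      have : L ≤ L ^ 2 := le_self_pow₀ hL1 (by norm_num)
      linarith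
    have h7 : P * 3 ≤ P * L ^ 2 := by gcongr
    linarith
  · -- a good constant term
    intro c hc1 hcX hcB
    rw [mem_union, mem_union, not_or, not_or] at hcB
    obtain ⟨⟨n1, n2⟩, n3⟩ := hcB
    have hcP : P ≤ c := by
      by_contra hlt
      push Not at hlt
      apply n3
      rw [hSm, mem_Icc, ← hP]
      exact ⟨hc1, Int.le_floor.2 hlt.le⟩
    have hb2 : 2 * b ^ 2 + 6 ≤ c := by
      have h1 : (2 * (b : ℝ) ^ 2 + 6) ≤ P := by
        rw [hP, le_div_iff₀ (by positivity)]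
        exact g3
      have h2 : (2 * (b : ℝ) ^ 2 + 6) ≤ (c : ℝ) := h1.trans hcP
      exact_mod_cast h2
    have hM3 : 3 ≤ X / (2 * L ^ (A + 2)) := by
      rw [le_div_iff₀ (by positivity)]
      linarith
    have hcXr : (c : ℝ) ≤ X := by exact_mod_cast hcX
    obtain ⟨hsq, htl⟩ := hEx2 c hc1 hcX (by
      rw [Nat.cast_one]
      exact Int.modEq_one) n2
    obtain ⟨S, hS1, hS2, hS3⟩ := S_lim (b := b) (c := c) (V := C₂) ha hz2 haz (by linarith : (64 : ℝ) ≤ L) hV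
      ((pow_le_pow_right₀ hL1 (by omega)).trans hzlo) hsq (by
        filter_upwards [htl] with M hM
        refine hM.trans ?_
        apply one_div_le_one_div_of_le (by positivity)
        exact pow_le_pow_right₀ hL1 (by omega))
    refine ⟨S, hS1, fun y hy1 hy2 => ?_⟩
    obtain ⟨R, hR⟩ : ∃ R : ℝ, R = Real.sqrt (X * L ^ T) := ⟨_, rfl⟩
    have hXT0 : 0 ≤ X * L ^ T := by positivity
    have hRR : R ^ 2 = X * L ^ T := by rw [hR]; exact Real.sq_sqrt hXT0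
    have hR0 : 0 ≤ R := by rw [hR]; exact Real.sqrt_nonneg _
    have huR : (u : ℝ) + y ≤ R := by
      rw [hR]
      exact Real.le_sqrt_of_sq_le hy2
    have hR1 : 1 ≤ R := by
      rw [hR]
      apply Real.one_le_sqrt.2
      exact one_le_mul_of_one_le_of_one_le hX1 hLT
    have hX6 : (1 : ℝ) ≤ (X : ℝ) ^ (1 / 6 : ℝ) := Real.one_le_rpow hX1 (by norm_num)
    have hyL : L ^ (D₀ + C' + T + 6) ≤ y := by
      refine le_trans ?_ hy1
      exact le_mul_of_one_le_left (by positivity) hX6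
    have hy0 : (0 : ℝ) < y := lt_of_lt_of_le (by positivity) hyL
    have hyn : 1 ≤ y := by exact_mod_cast hy0
    have hyX : (y : ℝ) ≤ X := by
      have h1 : (y : ℝ) ^ 2 ≤ (X : ℝ) ^ 2 := by
        have hu0 : (0 : ℝ) ≤ u := Nat.cast_nonneg _
        calc (y : ℝ) ^ 2 ≤ ((u : ℝ) + y) ^ 2 := pow_le_pow_left₀ hy0.le (by linarith) 2
          _ ≤ X * L ^ T := hy2
          _ ≤ X * L ^ (T + 1) := by
              apply mul_le_mul_of_nonneg_left _ hX0.le
              exact pow_le_pow_right₀ hL1 (by omega)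
          _ ≤ X * X := by
              apply mul_le_mul_of_nonneg_left _ hX0.le
              linarith
          _ = (X : ℝ) ^ 2 := by ring
      exact (pow_le_pow_iff_left₀ hy0.le hX0.le (by norm_num)).1 h1
    -- the length of the blocks
    obtain ⟨w, hw⟩ : ∃ w : ℕ, w = ⌊(y : ℝ) / L ^ C'⌋₊ := ⟨_, rfl⟩
    have hw1 : (w : ℝ) ≤ y / L ^ C' := by rw [hw]; exact Nat.floor_le (by positivity)
    have hw2 : (y : ℝ) / L ^ C' < w + 1 := by rw [hw]; exact Nat.lt_floor_add_one _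
    have hw3 : 1 ≤ w := by
      rw [hw]
      apply Nat.le_floor
      rw [Nat.cast_one, one_le_div (by positivity)]
      exact (pow_le_pow_right₀ hL1 (by omega)).trans hyL
    obtain ⟨i, hi⟩ : ∃ i : ℕ, i = Nat.log 2 w := ⟨_, rfl⟩
    obtain ⟨m, hm⟩ : ∃ m : ℕ, m = 2 ^ i := ⟨_, rfl⟩
    have hmw : m ≤ w := by rw [hm, hi]; exact Nat.pow_log_le_self 2 (by omega)
    have hmw2 : w < 2 * m := by
      rw [hm, hi]
      have := Nat.lt_pow_succ_log_self (by norm_num : 1 < 2) w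
      rw [pow_succ] at this
      omega
    have hm1 : 1 ≤ m := by rw [hm]; exact Nat.one_le_two_pow
    have hm1r : (1 : ℝ) ≤ m := by exact_mod_cast hm1
    have hm0 : (0 : ℝ) < m := by linarith
    have hmy : (m : ℝ) ≤ y / L ^ C' := by
      have : (m : ℝ) ≤ w := by exact_mod_cast hmw
      linarith
    have hym : (y : ℝ) / L ^ C' ≤ 2 * m := by
      have : (w : ℝ) + 1 ≤ 2 * m := by exact_mod_cast hmw2
      linarith
    have hym' : (y : ℝ) ≤ 2 * L ^ C' * m := by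
      rw [div_le_iff₀ (by positivity)] at hym
      linarith
    have hlowm : (X : ℝ) ^ (1 / 6 : ℝ) * L ^ (D₀ + T + 5) ≤ m := by
      have h1 : (X : ℝ) ^ (1 / 6 : ℝ) * L ^ (D₀ + T + 6) ≤ 2 * m := by
        refine le_trans ?_ hym
        rw [le_div_iff₀ (by positivity)]
        refine le_trans (le_of_eq ?_) hy1
        ring
      have h2 : (X : ℝ) ^ (1 / 6 : ℝ) * L ^ (D₀ + T + 6) = ((X : ℝ) ^ (1 / 6 : ℝ) * L ^ (D₀ + T + 5)) * L := by
        ring
      rw [h2] at h1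
      have h3 : 0 ≤ (X : ℝ) ^ (1 / 6 : ℝ) * L ^ (D₀ + T + 5) := by positivity
      have h4 : ((X : ℝ) ^ (1 / 6 : ℝ) * L ^ (D₀ + T + 5)) * 2 ≤ ((X : ℝ) ^ (1 / 6 : ℝ) * L ^ (D₀ + T + 5)) * L := by
        gcongr
        linarith
      linarith
    have hm2low : (X : ℝ) ^ (1 / 3 : ℝ) * L ^ (2 * (D₀ + T + 5)) ≤ (m : ℝ) ^ 2 := by
      calc (X : ℝ) ^ (1 / 3 : ℝ) * L ^ (2 * (D₀ + T + 5)) =
            ((X : ℝ) ^ (1 / 6 : ℝ) * L ^ (D₀ + T + 5)) ^ 2 := by
            rw [mul_pow, ← pow_mul, ← Real.rpow_natCast ((X : ℝ) ^ (1 / 6 : ℝ)) 2, ← Real.rpow_mul hX0.le]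
            norm_num
            left
            ring
        _ ≤ (m : ℝ) ^ 2 := pow_le_pow_left₀ (by positivity) hlowm 2
    have hcond : l ^ D₀ ≤ (m : ℝ) ∧ (N : ℝ) ^ (1 / 3 : ℝ) * l ^ D₀ ≤ (m : ℝ) ^ 2 ∧ (m : ℝ) ^ 2 ≤ N := by
      refine ⟨?_, ?_, ?_⟩
      · refine hlD.trans ((?_ : _ ≤ _).trans hlowm)
        calc L ^ (D₀ + 1) ≤ L ^ (D₀ + T + 5) := pow_le_pow_right₀ hL1 (by omega)
          _ ≤ (X : ℝ) ^ (1 / 6 : ℝ) * L ^ (D₀ + T + 5) := le_mul_of_one_le_left (by positivity) hX6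
      · refine le_trans ?_ hm2low
        have h1 : (N : ℝ) ^ (1 / 3 : ℝ) ≤ (X : ℝ) ^ (1 / 3 : ℝ) * L ^ (T + 1) := by
          calc (N : ℝ) ^ (1 / 3 : ℝ) ≤ (X * L ^ (T + 1)) ^ (1 / 3 : ℝ) :=
                Real.rpow_le_rpow (Nat.cast_nonneg _) hNup (by norm_num)
            _ = (X : ℝ) ^ (1 / 3 : ℝ) * (L ^ (T + 1)) ^ (1 / 3 : ℝ) := Real.mul_rpow hX0.le (by positivity)
            _ ≤ (X : ℝ) ^ (1 / 3 : ℝ) * L ^ (T + 1) := by
                apply mul_le_mul_of_nonneg_left _ (by positivity)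
                calc (L ^ (T + 1)) ^ (1 / 3 : ℝ) ≤ (L ^ (T + 1)) ^ (1 : ℝ) :=
                      Real.rpow_le_rpow_of_exponent_le (one_le_pow₀ hL1) (by norm_num)
                  _ = L ^ (T + 1) := Real.rpow_one _
        calc (N : ℝ) ^ (1 / 3 : ℝ) * l ^ D₀ ≤ ((X : ℝ) ^ (1 / 3 : ℝ) * L ^ (T + 1)) * L ^ (D₀ + 1) :=
              mul_le_mul h1 hlD (by positivity) (by positivity)
          _ = (X : ℝ) ^ (1 / 3 : ℝ) * L ^ (D₀ + T + 2) := by ring
          _ ≤ (X : ℝ) ^ (1 / 3 : ℝ) * L ^ (2 * (D₀ + T + 5)) := by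
              apply mul_le_mul_of_nonneg_left _ (by positivity)
              exact pow_le_pow_right₀ hL1 (by omega)
      · have h1 : (m : ℝ) ≤ y := hmy.trans (div_le_self hy0.le (one_le_pow₀ hL1))
        have hu0 : (0 : ℝ) ≤ u := Nat.cast_nonneg _
        calc (m : ℝ) ^ 2 ≤ R ^ 2 := pow_le_pow_left₀ hm0.le (by linarith) 2
          _ = X * L ^ T := hRR
          _ ≤ X * ⌈L ^ T⌉₊ := by gcongr
          _ ≤ ((α : ℝ) + b.natAbs + 1) * (X * ⌈L ^ T⌉₊) := by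
              apply le_mul_of_one_le_left (by positivity)
              linarith
          _ ≤ N := by rw [hNr]; linarith
    have hX8 : X ≤ m ^ 8 := by
      have h1 : (X : ℝ) ^ (1 / 3 : ℝ) ≤ (m : ℝ) ^ 2 := by
        refine le_trans ?_ hm2low
        exact le_mul_of_one_le_right (by positivity) (one_le_pow₀ hL1)
      have h2 : (X : ℝ) ≤ (m : ℝ) ^ 8 := by
        calc (X : ℝ) = ((X : ℝ) ^ (1 / 3 : ℝ)) ^ 3 := by
              rw [← Real.rpow_natCast ((X : ℝ) ^ (1 / 3 : ℝ)) 3, ← Real.rpow_mul hX0.le]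
              norm_num
          _ ≤ ((m : ℝ) ^ 2) ^ 3 := pow_le_pow_left₀ (by positivity) h1 3
          _ = (m : ℝ) ^ 6 := by ring
          _ ≤ (m : ℝ) ^ 8 := pow_le_pow_right₀ hm1r (by norm_num)
      exact_mod_cast h2
    have hij : ∀ j < y / m, (i, j) ∈ W := by
      intro j hj
      rw [hW, mem_filter, mem_product, mem_range, mem_range]
      refine ⟨⟨?_, ?_⟩, ?_⟩
      · rw [hI, hi]
        have h1 : w ≤ X := by
          have h2 : (w : ℝ) ≤ X := hw1.trans ((div_le_self hy0.le (one_le_pow₀ hL1)).trans hyX)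
          exact_mod_cast h2
        have := Nat.log_mono_right (b := 2) h1
        omega
      · have h1 : (j : ℝ) < 2 * L ^ C' := by
          have h2 : j * m + m ≤ y := by
            have h3 := (Nat.mul_le_mul_right m (Nat.succ_le_of_lt hj)).trans (Nat.div_mul_le_self y m)
            have : (j + 1) * m = j * m + m := by ring
            simp only [Nat.succ_eq_add_one] at h3
            omega
          have h3 : (j : ℝ) * m + m ≤ 2 * L ^ C' * m := le_trans (by exact_mod_cast h2) hym'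
          have h4 : (j : ℝ) * m < 2 * L ^ C' * m := by linarith
          exact lt_of_mul_lt_mul_right h4 hm0.le
        have h2 : (j : ℝ) < J := by
          rw [hJ]
          exact lt_of_lt_of_le h1 (Nat.le_ceil _)
        exact_mod_cast h2
      · simp only
        rw [← hm]
        exact hcond
    have hPE : ∀ j < y / m, |∑ t ∈ Ioc (u + j * m) (u + j * m + m),
        ext0 (PE z) N (c + a * (t : ℤ) ^ 2 + b * (t : ℤ))| ≤ 1 / L ^ (C₂ + 2) * m := by
      intro j hj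
      by_contra hcon
      push Not at hcon
      apply n1
      rw [mem_biUnion]
      refine ⟨(i, j), hij j hj, ?_⟩
      rw [hBw, mem_filter, mem_Icc]
      simp only
      rw [← hm, hα]
      refine ⟨⟨hc1, hcX⟩, lt_of_le_of_lt ?_ hcon⟩
      calc (m : ℝ) / l ^ (C₂ + 2) ≤ m / L ^ (C₂ + 2) := by
            apply div_le_div_of_nonneg_left hm0.le (by positivity)
            exact pow_le_pow_left₀ hL0.le hlL _
        _ = 1 / L ^ (C₂ + 2) * m := by ring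
    have hde : ∀ j < y / m, |∑ t ∈ Ioc (u + j * m) (u + j * m + m), sgz z (fv (-a) (-b) c t) -
        Sz (-a) (-b) c z * m| ≤ 1 / L ^ (C₂ + 2) * m := by
      intro j _
      have h1 := hX3' z (by omega) hzhi hV c (u + j * m) m hX8
      rw [sgz_window]
      refine le_trans (le_of_eq ?_) (h1.trans (le_of_eq ?_))
      · congr 1
      · ring
    have hcore := core ha (C₂ := C₂) (S := S) (u := u) (y := y) (m := m) (z := z) (N := N) hL100 hX0 hb2
      (A := A + 2) (T := T) (by rw [← hP]; exact hcP) hM3 hV hR1 huR hRR.le hLab (by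
        rw [hRR]
        linarith) hm1 (by rw [hC'] at hmy; exact hmy) hS2 hPE hde
    refine ⟨hcore.trans ?_, fun hloc => ?_⟩
    · apply div_le_div_of_nonneg_left hy0.le (by positivity)
      exact pow_le_pow_right₀ hL1 (by omega)
    · have hSlow := Sz_low (α := -a) (γ := -b) (by omega) c z
        (fun p hp => loc_lt (mem_pz.1 hp).2 (hloc p (mem_pz.1 hp).2))
      rw [← hκ] at hSlow
      have hVp := Vz_pos z
      have h1 : 1 / L ≤ Vz z := by
        rw [one_div]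
        exact inv_le_of_inv_le₀ hVp hV
      have h2 : κ / (2 * L ^ 2) ≤ S := by
        refine le_trans ?_ hS3
        have h3 : κ * (1 / L) ^ 2 ≤ κ * Vz z ^ 2 := by gcongr
        have e : κ / (2 * L ^ 2) = κ * (1 / L) ^ 2 / 2 := by
          field_simp
        rw [e]
        linarith
      refine exist_prime hL100 (by omega : 4 ≤ C₂) hκ0 hLκ hyn h2 ?_ hcore
      intro t ht
      have hlow := fv_low (b := b) (c := c) ha t
      have hsqb := sq_nonneg b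
      have h3 : (3 : ℝ) ≤ ((fv (-a) (-b) c t : ℤ) : ℝ) := by
        have : 3 ≤ fv (-a) (-b) c t := by linarith
        exact_mod_cast this
      have h4 : ((fv (-a) (-b) c t : ℤ) : ℝ) ≤ N := by
        refine le_trans ?_ hNlow
        rw [fv_val]
        push_cast
        rw [mem_Ioc] at ht
        have ht1 : (1 : ℝ) ≤ t := by exact_mod_cast (by omega : 1 ≤ t)
        have ht2 : (t : ℝ) ≤ R := by
          have : (t : ℝ) ≤ u + y := by exact_mod_cast ht.2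
          linarith
        have ht3 : (t : ℝ) ^ 2 ≤ R ^ 2 := pow_le_pow_left₀ (by linarith) ht2 2
        have h2 : (b : ℝ) * t ≤ |(b : ℝ)| * R ^ 2 := by
          calc (b : ℝ) * t ≤ |(b : ℝ)| * t := by
                apply mul_le_mul_of_nonneg_right (le_abs_self _) (by linarith)
            _ ≤ |(b : ℝ)| * R ^ 2 := by
                apply mul_le_mul_of_nonneg_left _ hba
                calc (t : ℝ) ≤ R := ht2
                  _ ≤ R ^ 2 := le_self_pow₀ hR1 (by norm_num)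
        have h3 : (a : ℝ) * (t : ℝ) ^ 2 ≤ a * R ^ 2 := by gcongr
        rw [hRR] at h2 h3
        have e3 : (a + |(b : ℝ)|) * (X * L ^ T) = a * (X * L ^ T) + |(b : ℝ)| * (X * L ^ T) := by ring
        linarith
      refine ⟨Real.log_pos (by linarith), ?_⟩
      have h5 := Real.log_le_log (by linarith) h4
      rw [← hl] at h5
      linarith

end Pool.Agent.K9h19.CR
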