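import Pool.Agent.Q236.CR.Stm
import Pool.Agent.N704.GN.LineB

/-!
# Project CR, job TNB: the bilinear sums with a linear twist
-/

set_option autoImplicit false

namespace Pool.Agent.K9h19.CR

open Finset Pool.Agent.Y957.VK
open Pool.Agent.Q236.CR
open Pool.Agent.N704.GN (Adm' tn')

theorem alb_of_ne (β t : ℝ) (n : ℕ) {j : ℕ} (hj : j ≠ 1) : alb β t n j = al t n j := by
  unfold alb
  rw [if_neg hj, add_zero]

theorem tnb : S_TNB := by
  obtain ⟨C, hC⟩ := tn' 7 (by norm_num)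
  refine ⟨C, 1 / 10 ^ 10, by norm_num, by norm_num, ?_⟩
  intro N n t κ β hN hn hκ ht
  rw [Finset.mem_Icc] at hn
  have hNr : (2 : ℝ) ≤ N := by exact_mod_cast hN
  have hN0 : (0 : ℝ) < N := by linarith
  have hn1 : (N : ℝ) ≤ n := by exact_mod_cast hn.1
  have hn2 : (n : ℝ) ≤ 2 * N := by exact_mod_cast hn.2
  have hn0 : (0 : ℝ) < n := by linarith
  set S : Finset ℕ := (Finset.Icc 1 (⌈5 * κ⌉₊ + 5)).filter
    fun j : ℕ => 2 * κ ≤ (j : ℝ) ∧ (j : ℝ) ≤ 3 * κ + 1 / 2 with hS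
  refine hC N κ S (alb β t n) hN (by linarith) ⟨?_, ?_, ?_, ?_⟩
  · intro j hj
    rw [hS, Finset.mem_filter] at hj
    exact hj
  · -- the number of indices
    have h1 : Finset.Icc ⌈2 * κ⌉₊ ⌊3 * κ + 1 / 2⌋₊ ⊆ S := by
      intro j hj
      rw [Finset.mem_Icc] at hj
      have h2 : 2 * κ ≤ (j : ℝ) := (Nat.le_ceil _).trans (by exact_mod_cast hj.1)
      have h3 : (j : ℝ) ≤ 3 * κ + 1 / 2 :=
        le_trans (by exact_mod_cast hj.2) (Nat.floor_le (by linarith))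
      rw [hS, Finset.mem_filter, Finset.mem_Icc]
      refine ⟨⟨?_, ?_⟩, h2, h3⟩
      · have : (0 : ℝ) < j := by linarith
        exact_mod_cast this
      · have h4 : (j : ℝ) ≤ ((⌈5 * κ⌉₊ + 5 : ℕ) : ℝ) := by
          push_cast
          linarith [Nat.le_ceil (5 * κ)]
        exact_mod_cast h4
    have h2 := Finset.card_le_card h1
    rw [Nat.card_Icc] at h2
    have h3 : (⌊3 * κ + 1 / 2⌋₊ : ℝ) + 1 - ⌈2 * κ⌉₊ ≤ (S.card : ℝ) := by
      have h4 : ⌊3 * κ + 1 / 2⌋₊ + 1 ≤ S.card + ⌈2 * κ⌉₊ := by omega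
      have h5 : ((⌊3 * κ + 1 / 2⌋₊ + 1 : ℕ) : ℝ) ≤ ((S.card + ⌈2 * κ⌉₊ : ℕ) : ℝ) := by exact_mod_cast h4
      push_cast at h5
      linarith
    have h4 : 3 * κ + 1 / 2 < ⌊3 * κ + 1 / 2⌋₊ + 1 := Nat.lt_floor_add_one _
    have h5 : (⌈2 * κ⌉₊ : ℝ) < 2 * κ + 1 := Nat.ceil_lt_add_one (by linarith)
    linarith
  · intro j hj
    rw [hS, Finset.mem_filter, Finset.mem_Icc] at hj
    have hj2 : (2 : ℝ) ≤ j := by linarith [hj.2.1]
    have hj1 : j ≠ 1 := by
      intro h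
      rw [h] at hj2
      norm_num at hj2
    rw [alb_of_ne β t n hj1]
    unfold al
    rw [abs_div, abs_mul, abs_pow, abs_neg, abs_one, one_pow, one_mul, ht,
      abs_of_pos (by have := Real.pi_pos; positivity : 0 < 2 * Real.pi * j * (n : ℝ) ^ j)]
    have hpi := Real.pi_gt_three
    apply div_le_div_of_nonneg_left (by positivity) (by positivity)
    have h1 : (N : ℝ) ^ j ≤ (n : ℝ) ^ j := pow_le_pow_left₀ hN0.le hn1 j
    calc 6 * (N : ℝ) ^ j ≤ (2 * Real.pi * j) * (n : ℝ) ^ j :=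
          mul_le_mul (by nlinarith) h1 (by positivity) (by positivity)
      _ = _ := by ring
  · intro j hj
    rw [hS, Finset.mem_filter, Finset.mem_Icc] at hj
    have hj2 : (2 : ℝ) ≤ j := by linarith [hj.2.1]
    have hj1 : j ≠ 1 := by
      intro h
      rw [h] at hj2
      norm_num at hj2
    rw [alb_of_ne β t n hj1]
    unfold al
    rw [abs_div, abs_mul, abs_pow, abs_neg, abs_one, one_pow, one_mul, ht,
      abs_of_pos (by have := Real.pi_pos; positivity : 0 < 2 * Real.pi * j * (n : ℝ) ^ j)]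
    have hpi := Real.pi_lt_d2
    have hpi0 := Real.pi_pos
    apply div_le_div_of_nonneg_left (by positivity) (by positivity)
    have h1 : (n : ℝ) ^ j ≤ (2 * (N : ℝ)) ^ j := pow_le_pow_left₀ hn0.le hn2 j
    have h2 : 2 * Real.pi * j ≤ 7 * (j : ℝ) ^ 2 := by nlinarith
    exact mul_le_mul h2 h1 (by positivity) (by positivity)

end Pool.Agent.K9h19.CR
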