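import Pool.Agent.K9h19.CR.CLS
import Pool.Agent.H373R2.T7.LamZ2

/-!
# Project CR: windows over the whole range
-/

set_option autoImplicit false

namespace Pool.Agent.K9h19.CR

open Finset Filter Topology
open Pool.Agent.Q236.CR
open Pool.Agent.H373R2.T7 (lamz Vz pz Vz_pos Vz_inv_small)

/-- the difference of the primes and the model -/
noncomputable def EE (z n : ℕ) : ℝ := ArithmeticFunction.vonMangoldt n - lamz z n

theorem EE_le {z n N : ℕ} (hV : (Vz z)⁻¹ ≤ Real.log N) (hn : 1 ≤ n) (hnN : n ≤ N) :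
    |EE z n| ≤ Real.log N := by
  have h1 : ArithmeticFunction.vonMangoldt n ≤ Real.log N :=
    ArithmeticFunction.vonMangoldt_le_log.trans
      (Real.log_le_log (by exact_mod_cast hn) (by exact_mod_cast hnN))
  have h2 : 0 ≤ ArithmeticFunction.vonMangoldt n := ArithmeticFunction.vonMangoldt_nonneg
  have h3 : 0 ≤ lamz z n ∧ lamz z n ≤ (Vz z)⁻¹ := by
    unfold lamz
    have := inv_pos.2 (Vz_pos z)
    split_ifs
    · exact ⟨this.le, le_rfl⟩
    · exact ⟨le_rfl, this.le⟩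
  unfold EE
  rw [abs_le]
  constructor <;> linarith [h3.1, h3.2]

theorem tw (hc : S_CHR) (hm : S_MOC) : ∀ B E U : ℕ, ∃ C N₀ : ℕ, ∀ N : ℕ, N₀ ≤ N → ∀ z q : ℕ, 1 ≤ q →
    (q : ℝ) ≤ Real.log N ^ B → q ≤ z → (z : ℝ) ≤ Real.log N ^ E →
    ∀ c H : ℕ, (N : ℝ) ^ (1 / 3 : ℝ) * Real.log N ^ C ≤ H → (H : ℝ) * Real.log N ^ C ≤ N →
    ∑ m ∈ range (N + H + 1), |∑ n ∈ (Icc 1 N).filter (fun n => n < m ∧ m ≤ n + H ∧ n ≡ c [MOD q]),
      EE z n| ^ 2 ≤ N * (H : ℝ) ^ 2 / Real.log N ^ U := by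
  intro B E U
  obtain ⟨C₀, X₁, hcls⟩ := e_cls hc hm (B + 1) (E + 1) (U + 2)
  obtain ⟨X₂, hVz⟩ := Vz_inv_small E
  obtain ⟨V, hV⟩ : ∃ V : ℕ, V = U + 4 := ⟨_, rfl⟩
  obtain ⟨X₃, hX₃⟩ := ev_natlog (P := fun l => 40 ≤ l ∧ 2 ^ (U + 3) ≤ l ∧ 2 * 2 ^ B ≤ l ∧ 2 * 2 ^ E ≤ l ∧
      2 * l ^ V ≤ Real.exp (1 / 2 * l) ∧ X₁ ≤ Real.exp (1 / 2 * l)) (by
    filter_upwards [eventually_ge_atTop 40, eventually_ge_atTop (2 ^ (U + 3)),
      eventually_ge_atTop (2 * 2 ^ B), eventually_ge_atTop (2 * 2 ^ E),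
      ev_exp (1 / 2) 2 V (by norm_num), ev_exp (1 / 2) X₁ 0 (by norm_num)] with l h1 h2 h3 h4 h5 h6
    rw [pow_zero, mul_one] at h6
    exact ⟨h1, h2, h3, h4, h5, h6⟩)
  refine ⟨C₀ + V + 1, max (max X₂ X₃) 3, ?_⟩
  intro N hN z q hq hqN hqz hzN c H hH1 hH2
  have hVz' := hVz N ((le_max_left _ _).trans ((le_max_left _ _).trans hN)) z (hq.trans hqz) hzN
  obtain ⟨g1, g2, g3, g4, g5, g6⟩ := hX₃ N ((le_max_right _ _).trans ((le_max_left _ _).trans hN))
  have hN3 : 3 ≤ N := (le_max_right _ _).trans hN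
  have hN0 : (0 : ℝ) < N := by exact_mod_cast (by omega : 0 < N)
  obtain ⟨L, hL⟩ : ∃ L : ℝ, L = Real.log N := ⟨_, rfl⟩
  have hEE : ∀ n, 1 ≤ n → n ≤ N → |EE z n| ≤ L := by
    intro n h1 h2
    rw [hL]
    exact EE_le hVz' h1 h2
  rw [← hL] at g1 g2 g3 g4 g5 g6 hqN hzN hH1 hH2 ⊢
  have hL0 : 0 < L := by linarith
  have hL1 : 1 ≤ L := by linarith
  have hNexp : (N : ℝ) = Real.exp (1 / 2 * L) * Real.exp (1 / 2 * L) := by
    rw [← Real.exp_add, hL]
    have e : 1 / 2 * Real.log N + 1 / 2 * Real.log N = Real.log N := by ring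
    rw [e, Real.exp_log hN0]
  obtain ⟨P, hP⟩ : ∃ P : ℝ, P = L ^ V := ⟨_, rfl⟩
  rw [← hP] at g5
  have hP1 : 1 ≤ P := by rw [hP]; exact one_le_pow₀ hL1
  have hP0 : 0 < P := by linarith
  have hN13 : (1 : ℝ) ≤ (N : ℝ) ^ (1 / 3 : ℝ) :=
    Real.one_le_rpow (by exact_mod_cast (by omega : 1 ≤ N)) (by norm_num)
  have hH1r : (1 : ℝ) ≤ H := by
    refine le_trans ?_ hH1
    exact one_le_mul_of_one_le_of_one_le hN13 (one_le_pow₀ hL1)
  have hH0 : (0 : ℝ) < H := by linarith
  have hHP : (H : ℝ) * (L * P) ≤ N := by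
    refine le_trans ?_ hH2
    apply mul_le_mul_of_nonneg_left _ hH0.le
    rw [hP, ← pow_succ']
    exact pow_le_pow_right₀ hL1 (by omega)
  have hHP' : (H : ℝ) ≤ N / P / 40 := by
    rw [div_div, le_div_iff₀ (by positivity)]
    refine le_trans ?_ hHP
    apply mul_le_mul_of_nonneg_left _ hH0.le
    nlinarith
  obtain ⟨f, hf⟩ : ∃ f : ℕ → ℝ, f = fun m =>
    |∑ n ∈ (Icc 1 N).filter (fun n => n < m ∧ m ≤ n + H ∧ n ≡ c [MOD q]), EE z n| ^ 2 := ⟨_, rfl⟩
  have hf0 : ∀ m, 0 ≤ f m := by intro m; rw [hf]; positivity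
  -- trivial bound
  have htriv : ∀ m, f m ≤ (H * L) ^ 2 := by
    intro m
    rw [hf]
    apply pow_le_pow_left₀ (abs_nonneg _)
    refine (abs_sum_le_sum_abs _ _).trans ?_
    refine (Finset.sum_le_sum (g := fun _ => L) fun n hn => ?_).trans ?_
    · rw [mem_filter, mem_Icc] at hn
      exact hEE n hn.1.1 hn.1.2
    · rw [Finset.sum_const, nsmul_eq_mul]
      apply mul_le_mul_of_nonneg_right _ hL0.le
      have h1 : ((Icc 1 N).filter (fun n => n < m ∧ m ≤ n + H ∧ n ≡ c [MOD q])).card ≤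
          (Ico (m - H) m).card := by
        apply card_le_card
        intro n hn
        rw [mem_filter] at hn
        rw [mem_Ico]
        omega
      rw [Nat.card_Ico] at h1
      have h2 : ((Icc 1 N).filter (fun n => n < m ∧ m ≤ n + H ∧ n ≡ c [MOD q])).card ≤ H := by omega
      exact_mod_cast h2
  obtain ⟨a, ha⟩ : ∃ a : ℕ, a = ⌊(N : ℝ) / P⌋₊ := ⟨_, rfl⟩
  have ha1 : (a : ℝ) ≤ N / P := by rw [ha]; exact Nat.floor_le (by positivity)
  have ha2 : (N : ℝ) / P < a + 1 := by rw [ha]; exact Nat.lt_floor_add_one _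
  obtain ⟨G, hG⟩ : ∃ G : Finset ℕ, G = (range (N + H + 1)).filter (fun m => a + H + 1 < m ∧ m ≤ N) :=
    ⟨_, rfl⟩
  have hsplit : ∑ m ∈ range (N + H + 1), f m ≤ ∑ m ∈ G, f m +
      ((a : ℝ) + H + 2 + H) * (H * L) ^ 2 := by
    rw [← Finset.sum_filter_add_sum_filter_not (range (N + H + 1)) (fun m => a + H + 1 < m ∧ m ≤ N), hG]
    apply add_le_add_right
    refine (Finset.sum_le_sum fun m _ => htriv m).trans ?_
    rw [Finset.sum_const, nsmul_eq_mul]
    apply mul_le_mul_of_nonneg_right _ (by positivity)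
    have h1 : ((range (N + H + 1)).filter (fun m => ¬ (a + H + 1 < m ∧ m ≤ N))).card ≤
        (range (a + H + 2) ∪ Ioc N (N + H)).card := by
      apply card_le_card
      intro m hm'
      rw [mem_filter, mem_range] at hm'
      rw [mem_union, mem_range, mem_Ioc]
      omega
    have h2 := h1.trans (card_union_le _ _)
    rw [card_range, Nat.card_Ioc] at h2
    have h3 : ((range (N + H + 1)).filter (fun m => ¬ (a + H + 1 < m ∧ m ≤ N))).card ≤
        a + H + 2 + H := by omega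
    exact_mod_cast h3
  -- the inner windows
  obtain ⟨g, hg⟩ : ∃ g : ℕ → ℝ, g = fun m =>
    |∑ n ∈ (Ioc m (m + H)).filter (fun n => n ≡ c [MOD q]), (ArithmeticFunction.vonMangoldt n -
      lamz z n)| ^ 2 := ⟨_, rfl⟩
  have hg0 : ∀ m, 0 ≤ g m := by intro m; rw [hg]; positivity
  have hG1 : ∑ m ∈ G, f m ≤ ∑ m ∈ Ioc a N, g m := by
    calc ∑ m ∈ G, f m = ∑ m ∈ G.image (fun m => m - (H + 1)), g m := by
          rw [Finset.sum_image]
          · apply Finset.sum_congr rfl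
            intro m hm'
            rw [hG, mem_filter, mem_range] at hm'
            rw [hf, hg]
            simp only
            congr 2
            have e1 : (Icc 1 N).filter (fun n => n < m ∧ m ≤ n + H ∧ n ≡ c [MOD q]) =
                (Ioc (m - (H + 1)) (m - (H + 1) + H)).filter (fun n => n ≡ c [MOD q]) := by
              ext n
              simp only [mem_filter, mem_Icc, mem_Ioc]
              constructor
              · rintro ⟨h1, h2, h3, h4⟩
                exact ⟨by omega, h4⟩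
              · rintro ⟨h1, h4⟩
                exact ⟨by omega, by omega, by omega, h4⟩
            rw [e1]
            rfl
          · intro m1 h1 m2 h2 h3
            rw [hG, mem_coe, mem_filter] at h1 h2
            simp only at h3
            omega
      _ ≤ ∑ m ∈ Ioc a N, g m := by
          apply Finset.sum_le_sum_of_subset_of_nonneg
          · intro m0 hm0
            rw [mem_image] at hm0
            obtain ⟨m, hm', rfl⟩ := hm0
            rw [hG, mem_filter] at hm'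
            rw [mem_Ioc]
            omega
          · intro m _ _
            exact hg0 m
  obtain ⟨J, hJ⟩ : ∃ J : Finset ℕ, J = (range (Nat.log 2 N + 1)).filter
    (fun j => (N : ℝ) / P ≤ 2 * 2 ^ j) := ⟨_, rfl⟩
  have hpow : ∀ j ∈ J, (2 : ℝ) ^ j ≤ N := by
    intro j hj
    rw [hJ, mem_filter, mem_range] at hj
    have h1 : 2 ^ j ≤ N := by
      calc 2 ^ j ≤ 2 ^ (Nat.log 2 N) := Nat.pow_le_pow_right (by norm_num) (by omega)
        _ ≤ N := Nat.pow_log_le_self 2 (by omega)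
    exact_mod_cast h1
  have hG2 : ∑ m ∈ Ioc a N, g m ≤ ∑ j ∈ J, ∑ m ∈ Ioc (2 ^ j) (2 * 2 ^ j), g m := by
    have hP2 : 2 * P ≤ N := by
      rw [hNexp]
      have h1 : 1 ≤ Real.exp (1 / 2 * L) := Real.one_le_exp (by positivity)
      nlinarith [Real.exp_pos (1 / 2 * L)]
    have ha2' : 2 ≤ a := by
      rw [ha]
      apply Nat.le_floor
      rw [le_div_iff₀ hP0]
      exact_mod_cast hP2
    have hmaps : ∀ m ∈ Ioc a N, Nat.log 2 (m - 1) ∈ J := by
      intro m hm'
      rw [mem_Ioc] at hm'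
      rw [hJ, mem_filter, mem_range]
      constructor
      · have : Nat.log 2 (m - 1) ≤ Nat.log 2 N := Nat.log_mono_right (by omega)
        omega
      · have h1 : m - 1 < 2 ^ (Nat.log 2 (m - 1) + 1) := Nat.lt_pow_succ_log_self (by norm_num) _
        have h2 : m ≤ 2 * 2 ^ (Nat.log 2 (m - 1)) := by
          rw [pow_succ] at h1
          omega
        have h3 : (m : ℝ) ≤ 2 * 2 ^ (Nat.log 2 (m - 1)) := by exact_mod_cast h2
        have h4 : ((a + 1 : ℕ) : ℝ) ≤ m := by exact_mod_cast hm'.1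
        push_cast at h4
        linarith
    rw [← Finset.sum_fiberwise_of_maps_to hmaps]
    apply Finset.sum_le_sum
    intro j _
    apply Finset.sum_le_sum_of_subset_of_nonneg
    · intro m hm'
      rw [mem_filter, mem_Ioc] at hm'
      rw [mem_Ioc]
      have h1 : 2 ^ (Nat.log 2 (m - 1)) ≤ m - 1 := Nat.pow_log_le_self 2 (by omega)
      have h2 : m - 1 < 2 ^ (Nat.log 2 (m - 1) + 1) := Nat.lt_pow_succ_log_self (by norm_num) _
      rw [hm'.2] at h1 h2
      rw [pow_succ] at h2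
      omega
    · intro m _ _
      exact hg0 m
  have hG3 : ∀ j ∈ J, ∑ m ∈ Ioc (2 ^ j) (2 * 2 ^ j), g m ≤
      2 ^ j * ((H : ℝ) ^ 2 * 2 ^ (U + 2) / L ^ (U + 2)) := by
    intro j hj
    have hjN := hpow j hj
    rw [hJ, mem_filter] at hj
    obtain ⟨x, hx⟩ : ∃ x : ℕ, x = 2 ^ j := ⟨_, rfl⟩
    have hxr : (x : ℝ) = 2 ^ j := by rw [hx]; push_cast; rfl
    rw [← hxr] at hjN hj ⊢
    rw [← hx]
    have hxP : (N : ℝ) / (2 * P) ≤ x := by
      have h1 := hj.2
      rw [div_le_iff₀ hP0] at h1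
      rw [div_le_iff₀ (by positivity)]
      linarith
    have hxs : Real.exp (1 / 2 * L) ≤ x := by
      refine le_trans ?_ hxP
      rw [le_div_iff₀ (by positivity)]
      calc Real.exp (1 / 2 * L) * (2 * P) ≤ Real.exp (1 / 2 * L) * Real.exp (1 / 2 * L) := by gcongr
        _ = N := hNexp.symm
    have hx0 : (0 : ℝ) < x := lt_of_lt_of_le (Real.exp_pos _) hxs
    have hlx1 : 1 / 2 * L ≤ Real.log x := by
      rw [Real.le_log_iff_exp_le hx0]
      exact hxs
    have hlx2 : Real.log x ≤ L := by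
      rw [hL]
      exact Real.log_le_log hx0 hjN
    have hlx0 : 0 < Real.log x := by linarith
    have hxX : X₁ ≤ x := by
      have h1 : (X₁ : ℝ) ≤ x := g6.trans hxs
      exact_mod_cast h1
    have hpw : ∀ K : ℕ, 2 * 2 ^ K ≤ L → L ^ K ≤ Real.log x ^ (K + 1) := by
      intro K hK
      calc L ^ K ≤ (2 * Real.log x) ^ K := pow_le_pow_left₀ hL0.le (by linarith) K
        _ = 2 ^ K * Real.log x ^ K := mul_pow _ _ _
        _ ≤ Real.log x * Real.log x ^ K := by
            apply mul_le_mul_of_nonneg_right _ (by positivity)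
            linarith
        _ = Real.log x ^ (K + 1) := by ring
    have h1 := hcls x hxX z q hq (hqN.trans (hpw B g3)) hqz (hzN.trans (hpw E g4)) c H
      (by
        refine le_trans ?_ hH1
        apply mul_le_mul
        · exact Real.rpow_le_rpow hx0.le hjN (by norm_num)
        · calc Real.log x ^ C₀ ≤ L ^ C₀ := pow_le_pow_left₀ hlx0.le hlx2 _
            _ ≤ L ^ (C₀ + V + 1) := pow_le_pow_right₀ hL1 (by omega)
        · positivity
        · positivity)
      (by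
        have h2 : (H : ℝ) ≤ x := by
          refine hHP'.trans (le_trans ?_ hxP)
          rw [div_div]
          apply div_le_div_of_nonneg_left hN0.le (by positivity)
          linarith
        exact_mod_cast h2)
    rw [hg]
    refine h1.trans ?_
    have h2 : (L / 2) ^ (U + 2) ≤ Real.log x ^ (U + 2) :=
      pow_le_pow_left₀ (by positivity) (by linarith) _
    calc (x : ℝ) * (H : ℝ) ^ 2 / Real.log x ^ (U + 2) ≤ (x : ℝ) * (H : ℝ) ^ 2 / (L / 2) ^ (U + 2) := by
          apply div_le_div_of_nonneg_left (by positivity) (by positivity) h2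
      _ = _ := by
          rw [div_pow]
          field_simp
  have hG4 : ∑ j ∈ J, (2 : ℝ) ^ j ≤ 2 * N := by
    have h1 : ∑ j ∈ J, (2 : ℝ) ^ j ≤ ∑ j ∈ range (Nat.log 2 N + 1), (2 : ℝ) ^ j := by
      rw [hJ]
      apply Finset.sum_le_sum_of_subset_of_nonneg (filter_subset _ _)
      intro j _ _
      positivity
    have h2 : ∑ j ∈ range (Nat.log 2 N + 1), (2 : ℝ) ^ j ≤ 2 * 2 ^ (Nat.log 2 N) := by
      rw [geom_sum_eq (by norm_num)]
      norm_num
      rw [pow_succ]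
      linarith
    have h3 : (2 : ℝ) ^ (Nat.log 2 N) ≤ N := by
      have h4 : 2 ^ (Nat.log 2 N) ≤ N := Nat.pow_log_le_self 2 (by omega)
      exact_mod_cast h4
    linarith
  have hfin1 : ∑ m ∈ G, f m ≤ 1 / 2 * (N * (H : ℝ) ^ 2 / L ^ U) := by
    refine (hG1.trans hG2).trans ((Finset.sum_le_sum hG3).trans ?_)
    rw [← Finset.sum_mul]
    calc (∑ j ∈ J, (2 : ℝ) ^ j) * ((H : ℝ) ^ 2 * 2 ^ (U + 2) / L ^ (U + 2)) ≤
          (2 * N) * ((H : ℝ) ^ 2 * 2 ^ (U + 2) / L ^ (U + 2)) := by gcongr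
      _ = (2 ^ (U + 3) / (L * L)) * (N * (H : ℝ) ^ 2 / L ^ U) := by
          rw [pow_add L U 2, pow_succ (2 : ℝ) (U + 2)]
          field_simp
      _ ≤ 1 / 2 * (N * (H : ℝ) ^ 2 / L ^ U) := by
          apply mul_le_mul_of_nonneg_right _ (by positivity)
          rw [div_le_div_iff₀ (by positivity) (by norm_num)]
          nlinarith
  have hfin2 : ((a : ℝ) + H + 2 + H) * (H * L) ^ 2 ≤ 1 / 2 * (N * (H : ℝ) ^ 2 / L ^ U) := by
    have h1 : (a : ℝ) + H + 2 + H ≤ 2 * (N / P) := by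
      have h2 : 2 ≤ 2 * (H : ℝ) := by linarith
      have h3 : (N : ℝ) / P / 40 ≤ N / P / 4 := by
        apply div_le_div_of_nonneg_left (by positivity) (by norm_num) (by norm_num)
      linarith
    calc ((a : ℝ) + H + 2 + H) * (H * L) ^ 2 ≤ (2 * (N / P)) * (H * L) ^ 2 := by gcongr
      _ = (2 / (L * L)) * (N * (H : ℝ) ^ 2 / L ^ U) := by
          rw [hP, hV, pow_add L U 4]
          field_simp
      _ ≤ 1 / 2 * (N * (H : ℝ) ^ 2 / L ^ U) := by
          apply mul_le_mul_of_nonneg_right _ (by positivity)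
          rw [div_le_div_iff₀ (by positivity) (by norm_num)]
          nlinarith
  have hres : ∑ m ∈ range (N + H + 1), f m ≤ N * (H : ℝ) ^ 2 / L ^ U := by linarith
  rw [hf] at hres
  exact hres

end Pool.Agent.K9h19.CR
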