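import Pool.Agent.K9h19.CR.SR0

/-!
# One quadratic polynomial: the pointwise inequality for the variance
-/

set_option autoImplicit false

namespace Pool.Agent.K9h19.CR

open Finset Filter Topology
open Pool.Agent.H373R2.T7 (lamz Vz pz Vz_pos Vz_inv_small nuB mem_pz)
open Pool.Agent.R460.SB (QS Sz Sz_bd fv fv_two)

/-- the number of the primes in a window on which the weight is nearly constant -/
theorem glue' {z k m : ℕ} {F : ℕ → ℕ} {S ω δ L : ℝ} (hV : (Vz z)⁻¹ ≤ L) (hS0 : 0 ≤ S) (hS : S ≤ L)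
    (hF : ∀ t ∈ Ioc k (k + m), 3 ≤ F t) (hω0 : 0 ≤ ω) (hω : ∀ t ∈ Ioc k (k + m), 1 / Real.log (F t) ≤ ω)
    (hδ : ∀ t ∈ Ioc k (k + m), ∀ t' ∈ Ioc k (k + m), |1 / Real.log (F t) - 1 / Real.log (F t')| ≤ δ) :
    |∑ t ∈ Ioc k (k + m), ((if (F t).Prime then 1 else 0) - S * (1 / Real.log (F t)))| ≤
      |∑ t ∈ Ioc k (k + m), PE z (F t)| + ω * |∑ t ∈ Ioc k (k + m), lamz z (F t) - S * m| + L * δ * m := by
  rcases Nat.eq_zero_or_pos m with h0 | hm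
  · subst h0
    simp
  have ht0 : k + 1 ∈ Ioc k (k + m) := by
    rw [mem_Ioc]
    omega
  obtain ⟨w0, hw0⟩ : ∃ w0 : ℝ, w0 = 1 / Real.log (F (k + 1)) := ⟨_, rfl⟩
  have hw1 : |w0| ≤ ω := by
    have h3 := log_ge_one (hF _ ht0)
    rw [hw0, abs_of_pos (by positivity)]
    exact hω _ ht0
  have hL0 : 0 ≤ L := hS0.trans hS
  have e1 : ∑ t ∈ Ioc k (k + m), ((if (F t).Prime then 1 else 0) - S * (1 / Real.log (F t))) =
      ∑ t ∈ Ioc k (k + m), PE z (F t) + (w0 * (∑ t ∈ Ioc k (k + m), lamz z (F t) - S * m) +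
        ∑ t ∈ Ioc k (k + m), (lamz z (F t) - S) * (1 / Real.log (F t) - w0)) := by
    have e2 : S * (m : ℝ) = ∑ _t ∈ Ioc k (k + m), S := by
      rw [Finset.sum_const, nsmul_eq_mul, Nat.card_Ioc, Nat.add_sub_cancel_left]
      ring
    rw [e2, ← Finset.sum_sub_distrib, Finset.mul_sum, ← Finset.sum_add_distrib, ← Finset.sum_add_distrib]
    apply Finset.sum_congr rfl
    intro t _
    unfold PE
    ring
  rw [e1]
  have h3 : |w0 * (∑ t ∈ Ioc k (k + m), lamz z (F t) - S * m)| ≤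
      ω * |∑ t ∈ Ioc k (k + m), lamz z (F t) - S * m| := by
    rw [abs_mul]
    exact mul_le_mul_of_nonneg_right hw1 (abs_nonneg _)
  have h4 : |∑ t ∈ Ioc k (k + m), (lamz z (F t) - S) * (1 / Real.log (F t) - w0)| ≤ L * δ * m := by
    refine (abs_sum_le_sum_abs _ _).trans ?_
    refine (Finset.sum_le_sum (g := fun _ => L * δ) fun t ht => ?_).trans ?_
    · rw [abs_mul]
      apply mul_le_mul _ _ (abs_nonneg _) hL0
      · have a1 := lamz_nonneg z (F t)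
        have a2 := (lamz_le z (F t)).trans hV
        rw [abs_le]
        constructor <;> linarith
      · rw [hw0]
        exact hδ t ht _ ht0
    · rw [Finset.sum_const, nsmul_eq_mul, Nat.card_Ioc, Nat.add_sub_cancel_left]
      linarith
  refine (abs_add_le _ _).trans ?_
  have h5 := abs_add_le (w0 * (∑ t ∈ Ioc k (k + m), lamz z (F t) - S * m))
    (∑ t ∈ Ioc k (k + m), (lamz z (F t) - S) * (1 / Real.log (F t) - w0))
  linarith

theorem three_sq' {x y z : ℝ} (w : ℝ) (hw : |w| ≤ x + y + z) :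
    w ^ 2 ≤ 3 * x ^ 2 + 3 * y ^ 2 + 3 * z ^ 2 := by
  have h : |w| ^ 2 ≤ (x + y + z) ^ 2 := pow_le_pow_left₀ (abs_nonneg _) hw 2
  rw [sq_abs] at h
  nlinarith [sq_nonneg (x - y), sq_nonneg (x - z), sq_nonneg (y - z)]

/-- the lower bound for the values, nonnegative linear coefficients -/
theorem fv_low0 {a : ℤ} (ha : 0 < a) (b : ℕ) (c : ℤ) (t : ℕ) : c ≤ fv (-a) (-(b : ℤ)) c t := by
  rw [fv_val]
  have h1 : 0 ≤ a * (t : ℤ) ^ 2 := by positivity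
  have h2 : 0 ≤ (b : ℤ) * (t : ℤ) := by positivity
  linarith

theorem fv_diff2 {a : ℤ} (ha : 0 < a) (b : ℕ) (c : ℤ) {u y t t' : ℕ}
    (ht : t ∈ Ioc u (u + y)) (ht' : t' ∈ Ioc u (u + y)) :
    |((fv (-a) (-(b : ℤ)) c t : ℤ) : ℝ) - ((fv (-a) (-(b : ℤ)) c t' : ℤ) : ℝ)| ≤
      y * (2 * a * (u + y) + b) := by
  rw [mem_Ioc] at ht ht'
  have e : ((fv (-a) (-(b : ℤ)) c t : ℤ) : ℝ) - ((fv (-a) (-(b : ℤ)) c t' : ℤ) : ℝ) =
      ((t : ℝ) - t') * (a * (t + t') + b) := by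
    have := fv_sub a b c t t'
    exact_mod_cast this
  rw [e, abs_mul]
  have ha0 : (0 : ℝ) < a := by exact_mod_cast ha
  have h1 : (t : ℝ) ≤ u + y := by exact_mod_cast ht.2
  have h2 : (t' : ℝ) ≤ u + y := by exact_mod_cast ht'.2
  have h5 : (u : ℝ) ≤ t := by exact_mod_cast ht.1.le
  have h6 : (u : ℝ) ≤ t' := by exact_mod_cast ht'.1.le
  have hu0 : (0 : ℝ) ≤ u := Nat.cast_nonneg _
  have hy0 : (0 : ℝ) ≤ y := Nat.cast_nonneg _
  have h3 : |(t : ℝ) - t'| ≤ y := by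
    rw [abs_le]
    constructor <;> linarith
  have h4 : |(a : ℝ) * (t + t') + b| ≤ 2 * a * (u + y) + b := by
    have h7 : (0 : ℝ) ≤ b := Nat.cast_nonneg _
    have h9 : (0 : ℝ) ≤ t := Nat.cast_nonneg _
    have h10 : (0 : ℝ) ≤ t' := Nat.cast_nonneg _
    rw [abs_of_nonneg (by positivity)]
    have h8 : (a : ℝ) * (t + t') ≤ a * ((u + y) + (u + y)) := by gcongr
    linarith
  exact mul_le_mul h3 h4 (abs_nonneg _) (Nat.cast_nonneg _)

/-- the pointwise inequality -/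
theorem core_var {a : ℤ} (ha : 0 < a) {b : ℕ} {c : ℤ} {V A : ℕ} {X L S : ℝ} {u y z N : ℕ} (hL : 100 ≤ L)
    (hX0 : 0 < X) (hcX : X / L ^ A ≤ c) (hexp : Real.exp (1 / 2 * L) ≤ X / L ^ A) (hV : (Vz z)⁻¹ ≤ L)
    (hδ : L * (y * (2 * a * (u + y) + b) / (X / L ^ A)) ≤ 1 / L ^ V)
    (hN : a * ((u : ℝ) + y) ^ 2 + b * (u + y) + c ≤ N) (hS : |S - Sz (-a) (-(b : ℤ)) c z| ≤ 12 / L ^ (V + 1)) :
    ((((Ioc u (u + y)).filter (fun t : ℕ => (fv (-a) (-(b : ℤ)) c t).toNat.Prime)).card : ℝ) -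
      S * ∑ t ∈ Ioc u (u + y), 1 / Real.log ((fv (-a) (-(b : ℤ)) c t : ℤ) : ℝ)) ^ 2 ≤
      3 * |∑ t ∈ Ioc u (u + y), ext0 (PE z) N (c + a * (t : ℤ) ^ 2 + (b : ℤ) * (t : ℤ))| ^ 2 +
      12 / L ^ 2 * (∑ t ∈ Ioc u (u + y), sgz z (fv (-a) (-(b : ℤ)) c t) -
        Sz (-a) (-(b : ℤ)) c z * y) ^ 2 + 12 * (y / L ^ V) ^ 2 := by
  have hL0 : 0 < L := by linarith
  have hL1 : 1 ≤ L := by linarith
  have ha0 : (0 : ℝ) < a := by exact_mod_cast ha
  have hy0 : (0 : ℝ) ≤ y := Nat.cast_nonneg _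
  have hb0 : (0 : ℝ) ≤ b := Nat.cast_nonneg _
  obtain ⟨M, hM⟩ : ∃ M : ℝ, M = X / L ^ A := ⟨_, rfl⟩
  rw [← hM] at hcX hexp hδ
  have hM3 : 3 ≤ M := by
    have h1 := Real.add_one_le_exp (1 / 2 * L)
    linarith
  obtain ⟨s0, s1⟩ := Sz_bd (-a) (-(b : ℤ)) c z
  obtain ⟨F, hF⟩ : ∃ F : ℕ → ℕ, F = fun t => (fv (-a) (-(b : ℤ)) c t).toNat := ⟨_, rfl⟩
  have hlowr : ∀ t : ℕ, M ≤ ((fv (-a) (-(b : ℤ)) c t : ℤ) : ℝ) := by
    intro t
    have h1 : (c : ℝ) ≤ ((fv (-a) (-(b : ℤ)) c t : ℤ) : ℝ) := by exact_mod_cast fv_low0 ha b c t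
    linarith
  have hpos : ∀ t : ℕ, 0 ≤ fv (-a) (-(b : ℤ)) c t := by
    intro t
    have h1 := hlowr t
    have h2 : (0 : ℝ) ≤ ((fv (-a) (-(b : ℤ)) c t : ℤ) : ℝ) := by linarith
    exact_mod_cast h2
  have hcast : ∀ t : ℕ, (F t : ℝ) = ((fv (-a) (-(b : ℤ)) c t : ℤ) : ℝ) := by
    intro t
    rw [hF]
    have : (((fv (-a) (-(b : ℤ)) c t).toNat : ℕ) : ℤ) = fv (-a) (-(b : ℤ)) c t := Int.toNat_of_nonneg (hpos t)
    exact_mod_cast this
  have hlow : ∀ t : ℕ, M ≤ (F t : ℝ) := by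
    intro t
    rw [hcast]
    exact hlowr t
  have h3 : ∀ t : ℕ, 3 ≤ F t := by
    intro t
    have h1 := hlow t
    have h2 : (3 : ℝ) ≤ (F t : ℝ) := by linarith
    exact_mod_cast h2
  have hlog : ∀ t : ℕ, 1 / 2 * L ≤ Real.log (F t : ℝ) := by
    intro t
    have h1 := hlow t
    rw [Real.le_log_iff_exp_le (by linarith)]
    linarith
  have hw : ∀ t : ℕ, 0 ≤ 1 / Real.log (F t : ℝ) ∧ 1 / Real.log (F t : ℝ) ≤ 2 / L := by
    intro t
    have h1 := hlog t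
    have h2 : 0 < Real.log (F t : ℝ) := by linarith
    refine ⟨by positivity, ?_⟩
    rw [div_le_div_iff₀ h2 hL0]
    linarith
  have hglue := glue' (z := z) (k := u) (m := y) (F := F) (S := Sz (-a) (-(b : ℤ)) c z) (ω := 2 / L)
    (δ := y * (2 * a * (u + y) + b) / M) hV s0 (s1.trans hV) (fun t _ => h3 t) (by positivity)
    (fun t _ => (hw t).2) (fun t ht t' ht' => by
      refine (wdiff hM3 (hlow t) (hlow t')).trans ?_
      rw [hcast, hcast]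
      exact div_le_div_of_nonneg_right (fv_diff2 ha b c ht ht') (by linarith))
  have hPEe : ∑ t ∈ Ioc u (u + y), PE z (F t) =
      ∑ t ∈ Ioc u (u + y), ext0 (PE z) N (c + a * (t : ℤ) ^ 2 + (b : ℤ) * (t : ℤ)) := by
    apply Finset.sum_congr rfl
    intro t ht
    rw [mem_Ioc] at ht
    have e : c + a * (t : ℤ) ^ 2 + (b : ℤ) * (t : ℤ) = fv (-a) (-(b : ℤ)) c t := (fv_val a b c t).symm
    rw [e]
    unfold ext0
    rw [if_pos, hF]
    constructor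
    · have h1 := h3 t
      rw [hF] at h1
      simp only at h1
      omega
    · have h1 : ((fv (-a) (-(b : ℤ)) c t : ℤ) : ℝ) ≤ N := by
        refine le_trans ?_ hN
        rw [fv_val]
        push_cast
        have ht2 : (t : ℝ) ≤ u + y := by exact_mod_cast ht.2
        have ht0 : (0 : ℝ) ≤ t := Nat.cast_nonneg _
        have h2 : (b : ℝ) * t ≤ b * (u + y) := by gcongr
        have h3 : (a : ℝ) * (t : ℝ) ^ 2 ≤ a * ((u : ℝ) + y) ^ 2 := by gcongr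
        linarith
      exact_mod_cast h1
  have hlamz : ∑ t ∈ Ioc u (u + y), lamz z (F t) = ∑ t ∈ Ioc u (u + y), sgz z (fv (-a) (-(b : ℤ)) c t) := by
    apply Finset.sum_congr rfl
    intro t _
    rw [hF]
    exact lamz_eq_sgz (hpos t)
  rw [hPEe, hlamz] at hglue
  obtain ⟨P, hP⟩ : ∃ P : ℝ, P = |∑ t ∈ Ioc u (u + y), ext0 (PE z) N (c + a * (t : ℤ) ^ 2 + (b : ℤ) * (t : ℤ))| := ⟨_, rfl⟩
  obtain ⟨Mo, hMo⟩ : ∃ Mo : ℝ, Mo = ∑ t ∈ Ioc u (u + y), sgz z (fv (-a) (-(b : ℤ)) c t) -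
    Sz (-a) (-(b : ℤ)) c z * y := ⟨_, rfl⟩
  rw [← hP, ← hMo] at hglue
  rw [← hP, ← hMo]
  obtain ⟨Sg, hSg⟩ : ∃ Sg : ℝ, Sg = ∑ t ∈ Ioc u (u + y), 1 / Real.log (F t : ℝ) := ⟨_, rfl⟩
  have hSg0 : 0 ≤ Sg := by rw [hSg]; exact Finset.sum_nonneg fun t _ => (hw t).1
  have hSg1 : Sg ≤ y := by
    rw [hSg]
    have h5 : 2 / L ≤ 1 := by rw [div_le_one hL0]; linarith
    refine (Finset.sum_le_sum fun t _ => (hw t).2.trans h5).trans ?_
    rw [Finset.sum_const, Nat.card_Ioc, nsmul_eq_mul, Nat.add_sub_cancel_left, mul_one]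
  have e1 : ∑ t ∈ Ioc u (u + y), ((if (F t).Prime then (1 : ℝ) else 0) -
      Sz (-a) (-(b : ℤ)) c z * (1 / Real.log (F t : ℝ))) =
      (((Ioc u (u + y)).filter (fun t : ℕ => (fv (-a) (-(b : ℤ)) c t).toNat.Prime)).card : ℝ) -
        Sz (-a) (-(b : ℤ)) c z * Sg := by
    rw [hSg, Finset.sum_sub_distrib, Finset.mul_sum, ← Finset.sum_filter, Finset.sum_const,
      nsmul_eq_mul, mul_one, hF]
  have e2 : ∑ t ∈ Ioc u (u + y), 1 / Real.log ((fv (-a) (-(b : ℤ)) c t : ℤ) : ℝ) = Sg := by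
    rw [hSg]
    apply Finset.sum_congr rfl
    intro t _
    rw [hcast]
  rw [e1] at hglue
  rw [e2]
  obtain ⟨cd, hcd⟩ : ∃ cd : ℝ, cd = (((Ioc u (u + y)).filter (fun t : ℕ =>
    (fv (-a) (-(b : ℤ)) c t).toNat.Prime)).card : ℝ) := ⟨_, rfl⟩
  rw [← hcd] at hglue ⊢
  have h4 : |(S - Sz (-a) (-(b : ℤ)) c z) * Sg| ≤ y / L ^ V := by
    rw [abs_mul, abs_of_nonneg hSg0]
    calc |S - Sz (-a) (-(b : ℤ)) c z| * Sg ≤ 12 / L ^ (V + 1) * y := mul_le_mul hS hSg1 hSg0 (by positivity)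
      _ = (y / L ^ V) * (12 / L) := by
          rw [pow_succ]
          field_simp
      _ ≤ (y / L ^ V) * 1 := by
          apply mul_le_mul_of_nonneg_left _ (by positivity)
          rw [div_le_one hL0]
          linarith
      _ = _ := mul_one _
  have h5 : |cd - S * Sg| ≤ P + 2 / L * |Mo| + 2 * (y / L ^ V) := by
    have e3 : cd - S * Sg = (cd - Sz (-a) (-(b : ℤ)) c z * Sg) - (S - Sz (-a) (-(b : ℤ)) c z) * Sg := by ring
    rw [e3]
    refine (abs_sub _ _).trans ?_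
    have h6 : L * (y * (2 * a * (u + y) + b) / M) * y ≤ y / L ^ V := by
      calc L * (y * (2 * a * (u + y) + b) / M) * y ≤ 1 / L ^ V * y := mul_le_mul_of_nonneg_right hδ hy0
        _ = y / L ^ V := by ring
    linarith
  have h6 := three_sq' _ h5
  refine h6.trans (le_of_eq ?_)
  have h7 : (2 / L * |Mo|) ^ 2 = 4 / L ^ 2 * Mo ^ 2 := by
    rw [mul_pow, sq_abs, div_pow]
    norm_num
  rw [h7]
  ring

end Pool.Agent.K9h19.CR
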