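import Pool.Agent.K9h19.CR.VR0
import Pool.Agent.R460.SC.Cm

/-!
# Sums over the linear coefficients and the constant terms
-/

set_option autoImplicit false

namespace Pool.Agent.K9h19.CR

open Finset Filter Topology
open Pool.Agent.H373R2.T7 (lamz Vz pz Vz_pos Vz_inv_small nuB mem_pz)
open Pool.Agent.R460.SC (tail_both)
open Pool.Agent.W468.ConjF (SJ PJ)

/-- windows at one place for all the polynomials against all the windows for a few polynomials -/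
theorem bc_PE (g : ℕ → ℝ) {α : ℕ} (hα : 1 ≤ α) (N X B K u y Z : ℕ) (hZ : X + 3 * α * (B + K + 2) ^ 2 ≤ Z) :
    ∑ b ∈ Ioc B (B + K), ∑ c ∈ Ioc 0 (0 + X),
      |∑ t ∈ Ioc u (u + y), ext0 g N ((c : ℤ) + (α : ℤ) * (t : ℤ) ^ 2 + (b : ℤ) * (t : ℤ))| ^ 2 ≤
    ∑ b₀ ∈ range (2 * α), ∑ k ∈ Ioc (B / (2 * α)) (B / (2 * α) + (K / (2 * α) + 2)),
      ∑ c ∈ Icc (-(Z : ℤ)) Z,
      |∑ t ∈ Ioc (k + u) (k + u + y), ext0 g N (c + α * (t : ℤ) ^ 2 + ((b₀ : ℤ) - 2 * α) * (t : ℤ))| ^ 2 := by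
  obtain ⟨Φ, hΦ⟩ : ∃ Φ : ℕ × ℕ → ℝ, Φ = fun x => ∑ c ∈ Icc (-(Z : ℤ)) Z,
    |∑ t ∈ Ioc (x.2 + u) (x.2 + u + y), ext0 g N (c + α * (t : ℤ) ^ 2 + ((x.1 : ℤ) - 2 * α) * (t : ℤ))| ^ 2 := ⟨_, rfl⟩
  have hΦ0 : ∀ x, 0 ≤ Φ x := by
    intro x
    rw [hΦ]
    exact Finset.sum_nonneg fun _ _ => by positivity
  have hα2 : 0 < 2 * α := by omega
  have h1 : ∀ b ∈ Ioc B (B + K), ∑ c ∈ Ioc 0 (0 + X),
      |∑ t ∈ Ioc u (u + y), ext0 g N ((c : ℤ) + (α : ℤ) * (t : ℤ) ^ 2 + (b : ℤ) * (t : ℤ))| ^ 2 ≤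
      Φ (b % (2 * α), b / (2 * α) + 1) := by
    intro b hb
    rw [mem_Ioc] at hb
    obtain ⟨b₀, hb₀⟩ : ∃ b₀ : ℕ, b₀ = b % (2 * α) := ⟨_, rfl⟩
    obtain ⟨k, hk⟩ : ∃ k : ℕ, k = b / (2 * α) + 1 := ⟨_, rfl⟩
    rw [← hb₀, ← hk, hΦ]
    simp only
    have hbe : (b : ℤ) = 2 * α * (k - 1) + b₀ := by
      have h2 := Nat.div_add_mod b (2 * α)
      rw [← hb₀] at h2
      have h3 : b / (2 * α) = k - 1 := by rw [hk, Nat.add_sub_cancel]
      have h4 : ((k - 1 : ℕ) : ℤ) = (k : ℤ) - 1 := by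
        rw [hk, Nat.add_sub_cancel, Nat.cast_add, Nat.cast_one]
        ring
      rw [h3] at h2
      have h5 : (b : ℤ) = 2 * α * ((k - 1 : ℕ) : ℤ) + b₀ := by exact_mod_cast h2.symm
      rw [h5, h4]
    have hk1 : 1 ≤ k := by rw [hk]; exact Nat.le_add_left _ _
    have hkB : k ≤ B + K + 2 := by
      have h9 : b / (2 * α) ≤ b := Nat.div_le_self _ _
      obtain ⟨d, hd⟩ : ∃ d : ℕ, d = b / (2 * α) := ⟨_, rfl⟩
      rw [← hd] at h9 hk
      omega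
    obtain ⟨w, hw⟩ : ∃ w : ℤ, w = α * (k : ℤ) ^ 2 + ((b₀ : ℤ) - 2 * α) * k := ⟨_, rfl⟩
    have hb₀lt : b₀ < 2 * α := by rw [hb₀]; exact Nat.mod_lt _ hα2
    have hwabs : -(3 * (α : ℤ) * ((B + K + 2 : ℕ) : ℤ) ^ 2) ≤ -w ∧ -w ≤ 3 * (α : ℤ) * ((B + K + 2 : ℕ) : ℤ) ^ 2 := by
      have hk0 : (1 : ℤ) ≤ k := by exact_mod_cast hk1
      have hkB' : (k : ℤ) ≤ ((B + K + 2 : ℕ) : ℤ) := by exact_mod_cast hkB
      have hα0 : (1 : ℤ) ≤ α := by exact_mod_cast hα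
      have hb0' : (0 : ℤ) ≤ b₀ := by positivity
      have hb1' : (b₀ : ℤ) < 2 * α := by exact_mod_cast hb₀lt
      have h2 : (k : ℤ) ^ 2 ≤ ((B + K + 2 : ℕ) : ℤ) ^ 2 := pow_le_pow_left₀ (by omega) hkB' 2
      have h3 : (k : ℤ) ≤ (k : ℤ) ^ 2 := by nlinarith
      have h4 : (α : ℤ) * (k : ℤ) ^ 2 ≤ α * ((B + K + 2 : ℕ) : ℤ) ^ 2 := by gcongr
      have h5 : 0 ≤ (α : ℤ) * (k : ℤ) ^ 2 := by positivity
      have h6 : (α : ℤ) * (k : ℤ) ≤ α * (k : ℤ) ^ 2 := by gcongr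
      have h7 : ((b₀ : ℤ) - 2 * α) * k ≤ 0 := mul_nonpos_of_nonpos_of_nonneg (by linarith) (by linarith)
      have h8 : -(2 * (α : ℤ) * k) ≤ ((b₀ : ℤ) - 2 * α) * k := by nlinarith
      rw [hw]
      constructor <;> linarith
    calc ∑ c ∈ Ioc 0 (0 + X), |∑ t ∈ Ioc u (u + y),
          ext0 g N ((c : ℤ) + (α : ℤ) * (t : ℤ) ^ 2 + (b : ℤ) * (t : ℤ))| ^ 2 =
        ∑ c ∈ Ioc 0 (0 + X), |∑ t ∈ Ioc (k + u) (k + u + y),
          ext0 g N (((c : ℤ) - w) + α * (t : ℤ) ^ 2 + ((b₀ : ℤ) - 2 * α) * (t : ℤ))| ^ 2 := by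
          apply Finset.sum_congr rfl
          intro c _
          congr 2
          refine Finset.sum_nbij' (fun t => t + k) (fun t => t - k) ?_ ?_ ?_ ?_ ?_
          · intro t ht
            rw [mem_Ioc] at ht ⊢
            constructor
            · show k + u < t + k
              omega
            · show t + k ≤ k + u + y
              omega
          · intro t ht
            rw [mem_Ioc] at ht ⊢
            constructor
            · show u < t - k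
              omega
            · show t - k ≤ u + y
              omega
          · intro t _
            simp
          · intro t ht
            rw [mem_Ioc] at ht
            show t - k + k = t
            omega
          · intro t _
            congr 1
            rw [hw, hbe]
            push_cast
            ring
      _ = ∑ c' ∈ (Ioc 0 (0 + X)).image (fun c : ℕ => (c : ℤ) - w), |∑ t ∈ Ioc (k + u) (k + u + y),
          ext0 g N (c' + α * (t : ℤ) ^ 2 + ((b₀ : ℤ) - 2 * α) * (t : ℤ))| ^ 2 := by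
          rw [Finset.sum_image]
          intro x _ x' _ hxx'
          have : (x : ℤ) = x' := by
            have h9 : (x : ℤ) - w = (x' : ℤ) - w := hxx'
            linarith
          exact_mod_cast this
      _ ≤ _ := by
          apply Finset.sum_le_sum_of_subset_of_nonneg
          · intro c' hc'
            rw [mem_image] at hc'
            obtain ⟨c, hc, rfl⟩ := hc'
            rw [mem_Ioc] at hc
            rw [mem_Icc]
            have hZ' : (X : ℤ) + 3 * α * ((B + K + 2 : ℕ) : ℤ) ^ 2 ≤ Z := by exact_mod_cast hZ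
            have hcX : (c : ℤ) ≤ X := by exact_mod_cast (by omega : c ≤ X)
            have hc0 : (0 : ℤ) < c := by exact_mod_cast hc.1
            have hX0 : (0 : ℤ) ≤ X := by positivity
            constructor
            · linarith [hwabs.1]
            · linarith [hwabs.2]
          · intro _ _ _
            positivity
  refine (Finset.sum_le_sum h1).trans ?_
  have h2 : ∑ b ∈ Ioc B (B + K), Φ (b % (2 * α), b / (2 * α) + 1) =
      ∑ x ∈ (Ioc B (B + K)).image (fun b => (b % (2 * α), b / (2 * α) + 1)), Φ x := by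
    rw [Finset.sum_image]
    intro b _ b' _ hbb'
    simp only [Prod.mk.injEq] at hbb'
    have e1 := Nat.div_add_mod b (2 * α)
    have e2 := Nat.div_add_mod b' (2 * α)
    rw [← e1, ← e2, hbb'.1]
    have : b / (2 * α) = b' / (2 * α) := by omega
    rw [this]
  rw [h2]
  have h3 : ∑ b₀ ∈ range (2 * α), ∑ k ∈ Ioc (B / (2 * α)) (B / (2 * α) + (K / (2 * α) + 2)),
      ∑ c ∈ Icc (-(Z : ℤ)) Z,
      |∑ t ∈ Ioc (k + u) (k + u + y), ext0 g N (c + α * (t : ℤ) ^ 2 + ((b₀ : ℤ) - 2 * α) * (t : ℤ))| ^ 2 =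
      ∑ x ∈ range (2 * α) ×ˢ Ioc (B / (2 * α)) (B / (2 * α) + (K / (2 * α) + 2)), Φ x := by
    rw [Finset.sum_product, hΦ]
  rw [h3]
  apply Finset.sum_le_sum_of_subset_of_nonneg
  · intro x hx
    rw [mem_image] at hx
    obtain ⟨b, hb, rfl⟩ := hx
    rw [mem_Ioc] at hb
    rw [mem_product, mem_range, mem_Ioc]
    simp only
    refine ⟨Nat.mod_lt _ hα2, ?_, ?_⟩
    · have := Nat.div_le_div_right (c := 2 * α) hb.1.le
      omega
    · have h4 : b / (2 * α) ≤ (B + K) / (2 * α) := Nat.div_le_div_right hb.2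
      have h5 : (B + K) / (2 * α) ≤ B / (2 * α) + K / (2 * α) + 1 := by
        have := Nat.add_div_le_add_div B K (2 * α)
        have h6 := Nat.div_add_mod B (2 * α)
        have h7 := Nat.div_add_mod K (2 * α)
        have h8 := Nat.mod_lt B hα2
        have h9 := Nat.mod_lt K hα2
        rw [Nat.div_le_iff_le_mul_add_pred hα2]
        have h10 : 2 * α * (B / (2 * α) + K / (2 * α) + 1) = 2 * α * (B / (2 * α)) + 2 * α * (K / (2 * α)) + 2 * α := by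
          ring
        omega
      omega
  · intro x _ _
    exact hΦ0 x

/-- the exceptional pairs for the tail of the product -/
theorem tail_bc {a : ℤ} (ha : 0 < a) (U E : ℕ) : ∃ Z₀ : ℕ, ∀ Z : ℕ, Z₀ ≤ Z → ∀ z : ℕ,
    Real.log Z ^ (3 * (U + 1) + 4) ≤ z → (z : ℝ) ≤ Real.log Z ^ E → ∀ X B K : ℕ,
    (X : ℤ) + 3 * a * ((B + K + 2 : ℕ) : ℤ) ^ 2 ≤ Z →
    ∃ Ex : Finset (ℕ × ℕ), (Ex.card : ℝ) ≤ K * (2 * (Z / Real.log Z ^ U) + 1) ∧
      ∀ b ∈ Ioc B (B + K), ∀ c ∈ Ioc 0 (0 + X), (b, c) ∉ Ex →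
        ¬ IsSquare ((b : ℤ) ^ 2 - 4 * a * (c : ℤ)) ∧
          ∀ᶠ N in atTop, |SJ ((b : ℤ) ^ 2 - 4 * a * (c : ℤ)) z N| ≤ 1 / Real.log Z ^ U := by
  classical
  have h : ∀ b₀ : ℕ, ∃ X₀ : ℕ, ∀ X : ℕ, X₀ ≤ X → ∀ z : ℕ, Real.log X ^ (3 * (U + 1) + 4) ≤ z →
      (z : ℝ) ≤ Real.log X ^ E → ∀ q : ℕ, 1 ≤ q → (q : ℝ) ≤ (X : ℝ) ^ (1 / 2 - 1 / 4 : ℝ) → ∀ c₀ : ℤ,
      ∃ Ex : Finset ℤ, (#Ex : ℝ) ≤ 2 * (X / (q * Real.log X ^ U)) + 1 ∧
        ∀ c : ℤ, -(X : ℤ) ≤ c → c ≤ X → c ≡ c₀ [ZMOD q] → c ∉ Ex →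
          ¬ IsSquare ((b₀ : ℤ) ^ 2 - 4 * a * c) ∧
          ∀ᶠ N in atTop, |SJ ((b₀ : ℤ) ^ 2 - 4 * a * c) z N| ≤ 1 / Real.log X ^ U :=
    fun b₀ => tail_both a ha.ne' b₀ (1 / 4) (by norm_num) U E
  choose f hf using h
  obtain ⟨α, hα⟩ : ∃ α : ℕ, (α : ℤ) = a := ⟨a.toNat, Int.toNat_of_nonneg ha.le⟩
  have hα1 : 1 ≤ α := by omega
  have hα2 : 0 < 2 * α := by omega
  refine ⟨∑ b₀ ∈ range (2 * α), f b₀ + 1, fun Z hZ z hz1 hz2 X B K hXZ => ?_⟩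
  have hZ1 : (1 : ℝ) ≤ Z := by exact_mod_cast (by omega : 1 ≤ Z)
  have h2 : ∀ b₀ : ℕ, ∃ Ex : Finset ℤ, b₀ ∈ range (2 * α) → (#Ex : ℝ) ≤ 2 * (Z / Real.log Z ^ U) + 1 ∧
        ∀ c : ℤ, -(Z : ℤ) ≤ c → c ≤ Z → c ∉ Ex →
          ¬ IsSquare ((b₀ : ℤ) ^ 2 - 4 * a * c) ∧
          ∀ᶠ N in atTop, |SJ ((b₀ : ℤ) ^ 2 - 4 * a * c) z N| ≤ 1 / Real.log Z ^ U := by
    intro b₀
    by_cases hb : b₀ ∈ range (2 * α)
    · have h3 : f b₀ ≤ Z := by
        have := Finset.single_le_sum (f := f) (fun _ _ => Nat.zero_le _) hb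
        omega
      obtain ⟨Ex, e1, e2⟩ := hf b₀ Z h3 z hz1 hz2 1 le_rfl
        (by rw [Nat.cast_one]; exact Real.one_le_rpow hZ1 (by norm_num)) 0
      refine ⟨Ex, fun _ => ⟨?_, fun c hc1 hc2 hc3 => e2 c hc1 hc2 (by rw [Nat.cast_one]; exact Int.modEq_one) hc3⟩⟩
      rw [Nat.cast_one, one_mul] at e1
      exact e1
    · exact ⟨∅, fun h => absurd h hb⟩
  choose Ex hEx using h2
  obtain ⟨ψ, hψ⟩ : ∃ ψ : ℕ → ℕ → ℤ, ψ = fun (b c : ℕ) => (c : ℤ) - a * ((b / (2 * α) : ℕ) : ℤ) ^ 2 -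
    ((b % (2 * α) : ℕ) : ℤ) * ((b / (2 * α) : ℕ) : ℤ) := ⟨_, rfl⟩
  refine ⟨(Ioc B (B + K) ×ˢ Ioc 0 (0 + X)).filter (fun x => ψ x.1 x.2 ∈ Ex (x.1 % (2 * α))), ?_, ?_⟩
  · have e1 : (((Ioc B (B + K) ×ˢ Ioc 0 (0 + X)).filter
        (fun x => ψ x.1 x.2 ∈ Ex (x.1 % (2 * α)))).card : ℝ) =
        ∑ b ∈ Ioc B (B + K), (((Ioc 0 (0 + X)).filter (fun c => ψ b c ∈ Ex (b % (2 * α)))).card : ℝ) := by
      rw [Finset.card_eq_sum_ones, Nat.cast_sum, Finset.sum_filter, Finset.sum_product]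
      apply Finset.sum_congr rfl
      intro b _
      rw [Finset.card_eq_sum_ones, Nat.cast_sum, Finset.sum_filter]
    rw [e1]
    have h3 : ∀ b ∈ Ioc B (B + K), (((Ioc 0 (0 + X)).filter (fun c => ψ b c ∈ Ex (b % (2 * α)))).card : ℝ) ≤
        2 * (Z / Real.log Z ^ U) + 1 := by
      intro b _
      have h4 := (hEx (b % (2 * α)) (mem_range.2 (Nat.mod_lt _ hα2))).1
      refine le_trans ?_ h4
      have h5 : ((Ioc 0 (0 + X)).filter (fun c => ψ b c ∈ Ex (b % (2 * α)))).card ≤ (Ex (b % (2 * α))).card := by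
        apply Finset.card_le_card_of_injOn (fun c => ψ b c)
        · intro c hc
          rw [mem_coe, mem_filter] at hc
          exact hc.2
        · intro c _ c' _ hcc'
          rw [hψ] at hcc'
          simp only at hcc'
          have : (c : ℤ) = c' := by linarith
          exact_mod_cast this
      exact_mod_cast h5
    refine (Finset.sum_le_sum h3).trans ?_
    rw [Finset.sum_const, nsmul_eq_mul, Nat.card_Ioc, Nat.add_sub_cancel_left]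
  · intro b hb c hc hE
    rw [mem_filter, mem_product] at hE
    have hE' : ψ b c ∉ Ex (b % (2 * α)) := fun h => hE ⟨⟨hb, hc⟩, h⟩
    rw [mem_Ioc] at hb hc
    obtain ⟨k, hk⟩ : ∃ k : ℕ, k = b / (2 * α) := ⟨_, rfl⟩
    obtain ⟨b₀, hb₀⟩ : ∃ b₀ : ℕ, b₀ = b % (2 * α) := ⟨_, rfl⟩
    have hb₀lt : b₀ < 2 * α := by rw [hb₀]; exact Nat.mod_lt _ hα2
    have hbe : (b : ℤ) = 2 * a * k + b₀ := by
      have h2 := Nat.div_add_mod b (2 * α)
      rw [← hb₀, ← hk] at h2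
      rw [← hα]
      exact_mod_cast h2.symm
    have hψe : ψ b c = (c : ℤ) - a * (k : ℤ) ^ 2 - (b₀ : ℤ) * k := by rw [hψ, hk, hb₀]
    have hkB : k ≤ B + K + 2 := by
      have : b / (2 * α) ≤ b := Nat.div_le_self _ _
      omega
    have hbnd : 0 ≤ a * (k : ℤ) ^ 2 + (b₀ : ℤ) * k ∧
        a * (k : ℤ) ^ 2 + (b₀ : ℤ) * k ≤ 3 * a * ((B + K + 2 : ℕ) : ℤ) ^ 2 := by
      have hk0 : (0 : ℤ) ≤ k := by positivity
      have hkB' : (k : ℤ) ≤ ((B + K + 2 : ℕ) : ℤ) := by exact_mod_cast hkB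
      have hb1' : (b₀ : ℤ) ≤ 2 * a := by
        rw [← hα]
        exact_mod_cast hb₀lt.le
      have hb0' : (0 : ℤ) ≤ b₀ := by positivity
      have h3 : (k : ℤ) ^ 2 ≤ ((B + K + 2 : ℕ) : ℤ) ^ 2 := pow_le_pow_left₀ hk0 hkB' 2
      have h4 : (k : ℤ) ≤ (k : ℤ) ^ 2 := by
        rcases Nat.eq_zero_or_pos k with h | h
        · rw [h]; norm_num
        · have : (1 : ℤ) ≤ k := by exact_mod_cast h
          nlinarith
      have h5 : a * (k : ℤ) ^ 2 ≤ a * ((B + K + 2 : ℕ) : ℤ) ^ 2 := by gcongr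
      have h6 : (b₀ : ℤ) * k ≤ 2 * a * ((B + K + 2 : ℕ) : ℤ) ^ 2 :=
        mul_le_mul hb1' (h4.trans h3) hk0 (by positivity)
      constructor
      · positivity
      · linarith
    have hcX : (c : ℤ) ≤ X := by exact_mod_cast (by omega : c ≤ X)
    have hc0 : (0 : ℤ) < c := by exact_mod_cast hc.1
    have hX0 : (0 : ℤ) ≤ X := by positivity
    have h3 := (hEx (b % (2 * α)) (mem_range.2 (Nat.mod_lt _ hα2))).2 (ψ b c)
      (by rw [hψe]; linarith [hbnd.2]) (by rw [hψe]; linarith [hbnd.1, hbnd.2]) hE'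
    have e2 : ((b % (2 * α) : ℕ) : ℤ) ^ 2 - 4 * a * ψ b c = (b : ℤ) ^ 2 - 4 * a * (c : ℤ) := by
      rw [hψe, ← hb₀, hbe]
      ring
    rw [e2] at h3
    exact h3

end Pool.Agent.K9h19.CR
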