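import Pool.Agent.K9h19.CR.VR1

/-!
# The variance of the number of the prime values
-/

set_option autoImplicit false

namespace Pool.Agent.K9h19.CR

open Finset Filter Topology
open Pool.Agent.Q236.CR
open Pool.Agent.H373R2.T7 (lamz Vz pz Vz_pos Vz_inv_small nuB mem_pz)
open Pool.Agent.R460.SB (QS Sz Sz_bd fv fv_two)
open Pool.Agent.W468.ConjF (SJ PJ)

/-- the difference for one polynomial -/
noncomputable def dev (a : ℤ) (S : ℝ) (u y b c : ℕ) : ℝ :=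
  (((Ioc u (u + y)).filter (fun t : ℕ => (fv (-a) (-(b : ℤ)) (c : ℤ) t).toNat.Prime)).card : ℝ) -
    S * ∑ t ∈ Ioc u (u + y), 1 / Real.log ((fv (-a) (-(b : ℤ)) (c : ℤ) t : ℤ) : ℝ)

/-- the sum of the mean squares of the error terms for the primes -/
theorem sum_PE (hcr : S_CHR) (hmo : S_MOC) {α : ℕ} (hα : 1 ≤ α) (A : ℕ) :
    ∃ B₀ : ℕ, ∀ E : ℕ, ∃ D N₀ : ℕ, ∀ N : ℕ, N₀ ≤ N → ∀ z : ℕ, Real.log N ^ B₀ ≤ z →
    (z : ℝ) ≤ Real.log N ^ E → ∀ B K u y X : ℕ, 1 ≤ y → Real.log N ^ D ≤ K →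
    (N : ℝ) ^ (1 / 3 : ℝ) * Real.log N ^ D ≤ (y : ℝ) * K → (y : ℝ) * (K + 2) ≤ N →
    ∑ b ∈ Ioc B (B + K), ∑ c ∈ Ioc 0 (0 + X),
      |∑ t ∈ Ioc u (u + y), ext0 (PE z) N ((c : ℤ) + (α : ℤ) * (t : ℤ) ^ 2 + (b : ℤ) * (t : ℤ))| ^ 2 ≤
      4200 * (N * K * y / Real.log N) + N * K * (y : ℝ) ^ 2 / Real.log N ^ A := by
  obtain ⟨B₀, hB₀⟩ := sm hcr hmo α hα (A + 1)
  refine ⟨B₀, fun E => ?_⟩
  obtain ⟨D, N₁, hsm⟩ := hB₀ E
  obtain ⟨N₂, hN₂⟩ := ev_natlog (P := fun l => 2 ≤ l ∧ 4 * (α : ℝ) ≤ l) (by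
    filter_upwards [eventually_ge_atTop 2, eventually_ge_atTop (4 * (α : ℝ))] with l h1 h2
    exact ⟨h1, h2⟩)
  refine ⟨D + 1, max N₁ N₂, fun N hN z hz1 hz2 B K u y X hy hK hyK1 hyK2 => ?_⟩
  obtain ⟨g1, g2⟩ := hN₂ N ((le_max_right _ _).trans hN)
  have hsm0 := hsm N ((le_max_left _ _).trans hN) z hz1 hz2
  obtain ⟨L, hL⟩ : ∃ L : ℝ, L = Real.log N := ⟨_, rfl⟩
  rw [← hL] at g1 g2 hK hyK1 hsm0 ⊢
  have hL0 : 0 < L := by linarith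
  have hL1 : 1 ≤ L := by linarith
  have hα0 : (0 : ℝ) < α := by exact_mod_cast hα
  have hα1 : (1 : ℝ) ≤ α := by exact_mod_cast hα
  have hyr : (1 : ℝ) ≤ y := by exact_mod_cast hy
  have hy0 : (0 : ℝ) < y := by linarith
  obtain ⟨K₁, hK₁⟩ : ∃ K₁ : ℕ, K₁ = K / (2 * α) + 2 := ⟨_, rfl⟩
  have hα2 : 0 < 2 * α := by omega
  have hK1r : (K : ℝ) / (2 * α) ≤ K₁ := by
    have h1 := Nat.lt_mul_div_succ K hα2
    have h2 : (K : ℝ) ≤ 2 * α * K₁ := by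
      have h3 : K ≤ 2 * α * K₁ := by
        rw [hK₁]
        calc K ≤ 2 * α * (K / (2 * α) + 1) := h1.le
          _ ≤ 2 * α * (K / (2 * α) + 2) := Nat.mul_le_mul_left _ (by omega)
      exact_mod_cast h3
    rw [div_le_iff₀ (by positivity)]
    linarith
  have hK2r : 2 * (α : ℝ) * K₁ ≤ K + 4 * α := by
    have h1 : 2 * α * K₁ ≤ K + 4 * α := by
      rw [hK₁]
      have := Nat.mul_div_le K (2 * α)
      calc 2 * α * (K / (2 * α) + 2) = 2 * α * (K / (2 * α)) + 4 * α := by ring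
        _ ≤ K + 4 * α := by omega
    exact_mod_cast h1
  have hLK : L ≤ K := (le_self_pow₀ hL1 (by omega)).trans hK
  have hK2 : 2 * (α : ℝ) * K₁ ≤ 2 * K := by linarith
  have hK3 : (K₁ : ℝ) ≤ K + 2 := by
    rw [hK₁]
    have : K / (2 * α) ≤ K := Nat.div_le_self _ _
    exact_mod_cast (by omega : K / (2 * α) + 2 ≤ K + 2)
  have h2α : 2 * (α : ℝ) ≤ L := by linarith
  obtain ⟨Z, hZ⟩ : ∃ Z : ℕ, Z = X + 3 * α * (B + K + 2) ^ 2 := ⟨_, rfl⟩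
  refine (bc_PE (PE z) hα N X B K u y Z hZ.ge).trans ?_
  rw [← hK₁]
  have hshift : ∀ b₀ : ℕ, ∑ k ∈ Ioc (B / (2 * α)) (B / (2 * α) + K₁), ∑ c ∈ Icc (-(Z : ℤ)) Z,
      |∑ t ∈ Ioc (k + u) (k + u + y), ext0 (PE z) N (c + α * (t : ℤ) ^ 2 + ((b₀ : ℤ) - 2 * α) * (t : ℤ))| ^ 2 =
      ∑ k ∈ Ioc (B / (2 * α) + u) (B / (2 * α) + u + K₁), ∑ c ∈ Icc (-(Z : ℤ)) Z,
      |∑ t ∈ Ioc k (k + y), ext0 (PE z) N (c + α * (t : ℤ) ^ 2 + ((b₀ : ℤ) - 2 * α) * (t : ℤ))| ^ 2 := by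
    intro b₀
    have e0 : B / (2 * α) + u + K₁ = (B / (2 * α) + K₁) + u := by ring
    rw [e0, ← Finset.image_add_right_Ioc, Finset.sum_image (add_left_injective u).injOn]
  simp_rw [hshift]
  have h1 : ∀ b₀ ∈ range (2 * α), ∑ k ∈ Ioc (B / (2 * α) + u) (B / (2 * α) + u + K₁), ∑ c ∈ Icc (-(Z : ℤ)) Z,
      |∑ t ∈ Ioc k (k + y), ext0 (PE z) N (c + α * (t : ℤ) ^ 2 + ((b₀ : ℤ) - 2 * α) * (t : ℤ))| ^ 2 ≤
      2100 * (N * K₁ * y / L) + N * K₁ * (y : ℝ) ^ 2 / L ^ (A + 1) := by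
    intro b₀ _
    apply hsm0 ((b₀ : ℤ) - 2 * α) (B / (2 * α) + u) K₁ y hy
    · refine le_trans ?_ hK1r
      rw [le_div_iff₀ (by positivity)]
      calc L ^ D * (2 * α) ≤ L ^ D * L := by gcongr
        _ = L ^ (D + 1) := by ring
        _ ≤ K := hK
    · calc (N : ℝ) ^ (1 / 3 : ℝ) * L ^ D ≤ (y : ℝ) * K / (2 * α) := by
            rw [le_div_iff₀ (by positivity)]
            calc (N : ℝ) ^ (1 / 3 : ℝ) * L ^ D * (2 * α) ≤ (N : ℝ) ^ (1 / 3 : ℝ) * L ^ D * L := by gcongr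
              _ = (N : ℝ) ^ (1 / 3 : ℝ) * L ^ (D + 1) := by ring
              _ ≤ (y : ℝ) * K := hyK1
        _ = (y : ℝ) * (K / (2 * α)) := by ring
        _ ≤ (y : ℝ) * K₁ := by gcongr
    · calc (y : ℝ) * K₁ ≤ (y : ℝ) * (K + 2) := by gcongr
        _ ≤ N := hyK2
  refine (Finset.sum_le_sum h1).trans ?_
  rw [Finset.sum_const, card_range, nsmul_eq_mul]
  push_cast
  have e1 : 2 * (α : ℝ) * (2100 * (N * K₁ * y / L) + N * K₁ * (y : ℝ) ^ 2 / L ^ (A + 1)) =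
      (2 * (α : ℝ) * K₁) * (2100 * (N * y / L) + N * (y : ℝ) ^ 2 / L ^ (A + 1)) := by ring
  rw [e1]
  have e2 : N * (y : ℝ) ^ 2 / L ^ (A + 1) ≤ (1 / 2) * (N * (y : ℝ) ^ 2 / L ^ A) := by
    have e3 : N * (y : ℝ) ^ 2 / L ^ (A + 1) = (1 / L) * (N * (y : ℝ) ^ 2 / L ^ A) := by
      rw [pow_succ L A]
      field_simp
    rw [e3]
    apply mul_le_mul_of_nonneg_right _ (by positivity)
    exact one_div_le_one_div_of_le (by norm_num) g1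
  calc (2 * (α : ℝ) * K₁) * (2100 * (N * y / L) + N * (y : ℝ) ^ 2 / L ^ (A + 1)) ≤
        (2 * K) * (2100 * (N * y / L) + (1 / 2) * (N * (y : ℝ) ^ 2 / L ^ A)) := by gcongr
    _ = _ := by ring

/-- arithmetic of the final step -/
theorem fin_arith {XK y2 L q : ℝ} (hXK : 0 ≤ XK) (hy2 : 0 ≤ y2) (hL : 100 ≤ L) (a2 : ℝ) (ha2 : 0 ≤ a2)
    (ha2L : 6 * a2 ≤ L) (A : ℕ)
    (hq : q = 6 * a2 * (XK * y2 / L ^ (A + 2)) + 96 * (XK * y2 / L ^ (A + 2)) + 96 * (XK * y2 / L ^ (A + 2)) +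
      24 * (XK * y2 / L ^ (A + 2)) + 12 * (XK * y2 / L ^ (A + 2))) : q ≤ XK * y2 / L ^ A := by
  have hL0 : 0 < L := by linarith
  have e1 : q = (XK * y2 / L ^ A) * ((6 * a2 + 228) / L ^ 2) := by
    rw [hq, pow_add]
    field_simp
    ring
  rw [e1]
  have h1 : (6 * a2 + 228) / L ^ 2 ≤ 1 := by
    rw [div_le_one (by positivity)]
    nlinarith
  calc (XK * y2 / L ^ A) * ((6 * a2 + 228) / L ^ 2) ≤ (XK * y2 / L ^ A) * 1 := by gcongr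
    _ = _ := mul_one _

end Pool.Agent.K9h19.CR
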