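import Pool.Agent.K9h19.CR.VR3

/-!
# The variance of the number of the prime values over the linear coefficients and the constant terms
-/

set_option autoImplicit false

namespace Pool.Agent.K9h19.CR

open Finset Filter Topology
open Pool.Agent.Q236.CR
open Pool.Agent.H373R2.T7 (lamz Vz pz Vz_pos Vz_inv_small nuB mem_pz)
open Pool.Agent.R460.SB (QS Sz Sz_bd fv fv_two)
open Pool.Agent.W468.ConjF (SJ PJ)

theorem fin_var0 (hcr : S_CHR) (hmo : S_MOC) {a : ℤ} (ha : 0 < a) {H : ℕ} (hH : 1 ≤ H) (A : ℕ) :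
    ∃ D E X₀ : ℕ, ∀ X : ℕ, X₀ ≤ X → ∀ B K : ℕ, Real.log X ^ D ≤ K → ((B : ℝ) + K) ^ 2 ≤ H * X →
      ∃ Ex : Finset (ℕ × ℕ), (Ex.card : ℝ) ≤ X * K / Real.log X ^ A ∧ ∃ S : ℕ → ℕ → ℝ,
        (∀ b ∈ Ioc B (B + K), ∀ c ∈ Ioc 0 (0 + X), (b, c) ∉ Ex →
          Tendsto (fun z : ℕ => Sz (-a) (-(b : ℤ)) (c : ℤ) z) atTop (𝓝 (S b c))) ∧
        (∃ z : ℕ, Real.log X ≤ z ∧ (z : ℝ) ≤ Real.log X ^ E ∧ ∀ b ∈ Ioc B (B + K), ∀ c ∈ Ioc 0 (0 + X),
          (b, c) ∉ Ex → Sz (-a) (-(b : ℤ)) (c : ℤ) z / 2 ≤ S b c) ∧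
        ∀ u y : ℕ, 1 ≤ y → ((u : ℝ) + y) ^ 2 ≤ H * X → (y : ℝ) * Real.log X ^ D ≤ Real.sqrt X →
          (X : ℝ) ^ (1 / 3 : ℝ) * Real.log X ^ D ≤ (y : ℝ) * K →
          ∑ x ∈ (Ioc B (B + K) ×ˢ Ioc 0 (0 + X)) \ Ex, (dev a (S x.1 x.2) u y x.1 x.2) ^ 2 ≤
            12700 * (((a : ℝ) + 1) * H + 1) * (X * K * y / Real.log X) +
              X * K * (y : ℝ) ^ 2 / Real.log X ^ A := by
  classical
  obtain ⟨α, hα⟩ : ∃ α : ℕ, (α : ℤ) = a := ⟨a.toNat, Int.toNat_of_nonneg ha.le⟩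
  have hα1 : 1 ≤ α := by omega
  obtain ⟨V, hVd⟩ : ∃ V : ℕ, V = A + 2 := ⟨_, rfl⟩
  obtain ⟨U, hU⟩ : ∃ U : ℕ, U = A + 2 + V := ⟨_, rfl⟩
  obtain ⟨B₀, hB₀⟩ := sum_PE hcr hmo hα1 (A + 2)
  obtain ⟨B', hB'⟩ : ∃ B' : ℕ, B' = B₀ + 3 * (U + 1) + 5 + V + 4 := ⟨_, rfl⟩
  obtain ⟨D₀, N₁, hsum⟩ := hB₀ (B' + 1)
  obtain ⟨Z₁, htail⟩ := tail_bc ha U (B' + 1)
  obtain ⟨X₃, hmodel⟩ := sum_model ha A (B' + 1)
  obtain ⟨X₄, hVz⟩ := Vz_inv_small (B' + 1)
  obtain ⟨g, hg⟩ : ∃ g : ℝ, g = ((a : ℝ) + 1) * H + 1 := ⟨_, rfl⟩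
  obtain ⟨G, hG⟩ : ∃ G : ℝ, G = 100 + 2 ^ B₀ + 2 ^ D₀ + 2 ^ (3 * (U + 1) + 4) + (1 + 27 * a * H) +
    (2 * a + 1) * H + a + 6 * g := ⟨_, rfl⟩
  obtain ⟨X₅, hX₅⟩ := ev_natlog (P := fun l => G ≤ l ∧ 1 * l ^ (A + 2) ≤ Real.exp (1 / 2 * l) ∧
      1 * l ^ 1 ≤ Real.exp (1 * l) ∧ 1 * l ^ U ≤ Real.exp (1 * l)) (by
    filter_upwards [eventually_ge_atTop G, ev_exp (1 / 2) 1 (A + 2) (by norm_num),
      ev_exp 1 1 1 (by norm_num), ev_exp 1 1 U (by norm_num)]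
      with l h1 h2 h3 h4
    exact ⟨h1, h2, h3, h4⟩)
  obtain ⟨D, hD⟩ : ∃ D : ℕ, D = D₀ + 2 * A + V + 10 := ⟨_, rfl⟩
  refine ⟨D, B' + 1, N₁ + Z₁ + X₃ + X₄ + X₅ + 3, fun X hX B K hK hBK => ?_⟩
  obtain ⟨g1, g2, g3, g4⟩ := hX₅ X (by omega)
  have hX0 : (0 : ℝ) < X := by exact_mod_cast (by omega : 0 < X)
  have hX1 : (1 : ℝ) ≤ X := by exact_mod_cast (by omega : 1 ≤ X)
  have hX3' := hmodel X (by omega)
  have hX4 := hVz X (by omega)
  obtain ⟨L, hL⟩ : ∃ L : ℝ, L = Real.log X := ⟨_, rfl⟩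
  have hexpL : Real.exp (1 * L) = X := by rw [one_mul, hL, Real.exp_log hX0]
  rw [← hL] at g1 g2 g3 g4 hX3' hX4 hK ⊢
  rw [hexpL] at g3 g4
  have ha0 : (0 : ℝ) < a := by exact_mod_cast ha
  have hHr : (1 : ℝ) ≤ H := by exact_mod_cast hH
  have hH0 : (0 : ℝ) < H := by linarith
  have hg0 : 0 < g := by rw [hg]; positivity
  have hk2 : (0 : ℝ) < 2 ^ B₀ := by positivity
  have hk3 : (0 : ℝ) < 2 ^ D₀ := by positivity
  have hk4 : (0 : ℝ) < 2 ^ (3 * (U + 1) + 4) := by positivity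
  have hk5 : (0 : ℝ) < 27 * a * H := by positivity
  have hk6 : (0 : ℝ) < (2 * a + 1) * H := by positivity
  have hL100 : 100 ≤ L := by linarith
  have hLB : (2 : ℝ) ^ B₀ ≤ L := by linarith
  have hLD : (2 : ℝ) ^ D₀ ≤ L := by linarith
  have hLU : (2 : ℝ) ^ (3 * (U + 1) + 4) ≤ L := by linarith
  have hLZ : 1 + 27 * (a : ℝ) * H ≤ L := by linarith
  have hLa : (2 * (a : ℝ) + 1) * H ≤ L := by linarith
  have hLa' : (a : ℝ) ≤ L := by linarith
  have hLg : 6 * g ≤ L := by linarith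
  have hαr : (α : ℝ) = a := by exact_mod_cast hα
  have hL0 : 0 < L := by linarith
  have hL1 : 1 ≤ L := by linarith
  have hLX : L ≤ X := by
    rw [pow_one, one_mul] at g3
    exact g3
  -- the range of the values
  obtain ⟨N, hN⟩ : ∃ N : ℕ, N = ((α + 1) * H + 1) * X := ⟨_, rfl⟩
  have hNr : (N : ℝ) = g * X := by rw [hN, hg]; push_cast; rw [hαr]
  have hg1 : 1 ≤ g := by
    rw [hg]
    have : 0 ≤ ((a : ℝ) + 1) * H := by positivity
    linarith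
  have hNup : (N : ℝ) ≤ X * L := by
    rw [hNr]
    have : g ≤ L := by linarith
    nlinarith
  have hXN : (X : ℝ) ≤ N := by
    rw [hNr]
    exact le_mul_of_one_le_left hX0.le hg1
  have hXNn : X ≤ N := by exact_mod_cast hXN
  obtain ⟨l, hl⟩ : ∃ l : ℝ, l = Real.log N := ⟨_, rfl⟩
  have hlog2 : ∀ M : ℝ, (X : ℝ) ≤ M → M ≤ X * L → L ≤ Real.log M ∧ Real.log M ≤ 2 * L := by
    intro M h1 h2
    refine ⟨by rw [hL]; exact Real.log_le_log hX0 h1, ?_⟩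
    have h3 : M ≤ X ^ 2 := by
      calc M ≤ X * L := h2
        _ ≤ X * X := mul_le_mul_of_nonneg_left hLX hX0.le
        _ = X ^ 2 := by ring
    have h4 := Real.log_le_log (by linarith) h3
    rw [Real.log_pow] at h4
    rw [hL]
    exact_mod_cast h4
  obtain ⟨hlL, hl2⟩ := hlog2 N hXN hNup
  rw [← hl] at hlL hl2
  have hl0 : 0 < l := by linarith
  have hlD : ∀ k : ℕ, (2 : ℝ) ^ k ≤ L → ∀ v : ℝ, 0 ≤ v → v ≤ 2 * L → v ^ k ≤ L ^ (k + 1) := by
    intro k hk v hv0 hv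
    calc v ^ k ≤ (2 * L) ^ k := pow_le_pow_left₀ hv0 hv _
      _ = 2 ^ k * L ^ k := mul_pow _ _ _
      _ ≤ L * L ^ k := by gcongr
      _ = L ^ (k + 1) := by ring
  have hK1 : (1 : ℝ) ≤ K := (one_le_pow₀ hL1).trans hK
  have hK0 : (0 : ℝ) < K := by linarith
  have hB0 : (0 : ℝ) ≤ B := Nat.cast_nonneg _
  -- the range of the shifted constant terms
  obtain ⟨Z, hZ⟩ : ∃ Z : ℕ, Z = X + 3 * α * (B + K + 2) ^ 2 := ⟨_, rfl⟩
  have hZr : (Z : ℝ) ≤ X * L := by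
    rw [hZ]
    push_cast
    rw [hαr]
    have h1 : ((B : ℝ) + K + 2) ^ 2 ≤ 9 * (H * X) := by
      calc ((B : ℝ) + K + 2) ^ 2 ≤ (3 * ((B : ℝ) + K)) ^ 2 := by
            apply pow_le_pow_left₀ (by positivity)
            linarith
        _ = 9 * ((B : ℝ) + K) ^ 2 := by ring
        _ ≤ 9 * (H * X) := by linarith
    calc (X : ℝ) + 3 * a * ((B : ℝ) + K + 2) ^ 2 ≤ X + 3 * a * (9 * (H * X)) := by gcongr
      _ = X * (1 + 27 * a * H) := by ring
      _ ≤ X * L := by gcongr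
  have hXZn : X ≤ Z := by
    rw [hZ]
    exact Nat.le_add_right _ _
  have hXZ : (X : ℝ) ≤ Z := by exact_mod_cast hXZn
  obtain ⟨hZL, hZ2⟩ := hlog2 Z hXZ hZr
  have hZ0 : 0 ≤ Real.log Z := by linarith
  -- the sieving limit
  obtain ⟨z, hz⟩ : ∃ z : ℕ, z = ⌈L ^ B'⌉₊ := ⟨_, rfl⟩
  have hzlo : L ^ B' ≤ z := by rw [hz]; exact Nat.le_ceil _
  have hzhi : (z : ℝ) ≤ L ^ (B' + 1) := by
    have := Nat.ceil_lt_add_one (show 0 ≤ L ^ B' by positivity)
    rw [← hz] at this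
    have h1 : 1 ≤ L ^ B' := one_le_pow₀ hL1
    calc (z : ℝ) ≤ L ^ B' + 1 := this.le
      _ ≤ L ^ B' + L ^ B' := by linarith
      _ = 2 * L ^ B' := by ring
      _ ≤ L * L ^ B' := mul_le_mul_of_nonneg_right (by linarith) (by positivity)
      _ = L ^ (B' + 1) := by ring
  have hzL : L ≤ z := (le_self_pow₀ hL1 (by omega)).trans hzlo
  have hz2 : 2 ≤ z := by
    have : (2 : ℝ) ≤ z := by linarith
    exact_mod_cast this
  have haz : a ≤ z := by
    have : (a : ℝ) ≤ z := by linarith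
    exact_mod_cast this
  have hV := hX4 z (by omega) hzhi
  obtain ⟨Ex₁, hE1, hE2⟩ := htail Z (by omega) z
    (((hlD _ hLU _ hZ0 hZ2).trans (pow_le_pow_right₀ hL1 (by omega))).trans hzlo)
    (hzhi.trans (pow_le_pow_left₀ hL0.le hZL _)) X B K (by
      rw [hZ]
      push_cast
      rw [hα])
  have hsumN := hsum N (by omega) z (by
      rw [← hl]
      exact ((hlD _ hLB _ hl0.le hl2).trans (pow_le_pow_right₀ hL1 (by omega))).trans hzlo) (by
      rw [← hl]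
      exact hzhi.trans (pow_le_pow_left₀ hL0.le hlL _)) B K
  rw [← hl] at hsumN
  obtain ⟨P, hP⟩ : ∃ P : ℝ, P = X / L ^ (A + 2) := ⟨_, rfl⟩
  have hP0 : 0 < P := by rw [hP]; positivity
  obtain ⟨Ex₂, hEx₂⟩ : ∃ Ex₂ : Finset (ℕ × ℕ), Ex₂ = Ioc B (B + K) ×ˢ Icc 1 ⌊P⌋₊ := ⟨_, rfl⟩
  have hcP : ∀ b ∈ Ioc B (B + K), ∀ c ∈ Ioc 0 (0 + X), (b, c) ∉ Ex₁ ∪ Ex₂ → P ≤ c := by
    intro b hb c hc hE
    rw [mem_union, not_or] at hE
    by_contra hlt
    push Not at hlt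
    apply hE.2
    rw [mem_Ioc] at hc
    rw [hEx₂, mem_product, mem_Icc]
    exact ⟨hb, hc.1, Nat.le_floor hlt.le⟩
  have hSex : ∀ b c : ℕ, ∃ S : ℝ, b ∈ Ioc B (B + K) → c ∈ Ioc 0 (0 + X) → (b, c) ∉ Ex₁ ∪ Ex₂ →
      Tendsto (fun z : ℕ => Sz (-a) (-(b : ℤ)) (c : ℤ) z) atTop (𝓝 S) ∧
        |S - Sz (-a) (-(b : ℤ)) (c : ℤ) z| ≤ 12 / L ^ (V + 1) ∧ Sz (-a) (-(b : ℤ)) (c : ℤ) z / 2 ≤ S := by
    intro b c
    by_cases h : b ∈ Ioc B (B + K) ∧ c ∈ Ioc 0 (0 + X) ∧ (b, c) ∉ Ex₁ ∪ Ex₂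
    · obtain ⟨hb, hc, hE⟩ := h
      rw [mem_union, not_or] at hE
      obtain ⟨hsq, htl⟩ := hE2 b hb c hc hE.1
      obtain ⟨S, hS1, hS2, hS3⟩ := S_lim (b := (b : ℤ)) (c := (c : ℤ)) (V := V) ha hz2 haz
        (by linarith : (64 : ℝ) ≤ L) hV ((pow_le_pow_right₀ hL1 (by omega)).trans hzlo) hsq (by
          filter_upwards [htl] with M hM
          refine hM.trans ?_
          apply one_div_le_one_div_of_le (by positivity)
          calc L ^ (V + 2) ≤ L ^ U := pow_le_pow_right₀ hL1 (by omega)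
            _ ≤ Real.log Z ^ U := pow_le_pow_left₀ hL0.le hZL _)
      exact ⟨S, fun _ _ _ => ⟨hS1, hS2, hS3⟩⟩
    · exact ⟨0, fun h1 h2 h3 => absurd ⟨h1, h2, h3⟩ h⟩
  choose S hS using hSex
  refine ⟨Ex₁ ∪ Ex₂, ?_, S, fun b hb c hc hE => (hS b c hb hc hE).1,
    ⟨z, hzL, hzhi, fun b hb c hc hE => (hS b c hb hc hE).2.2⟩, ?_⟩
  · -- the number of the exceptional pairs
    have h1 : (Ex₁.card : ℝ) ≤ K * (3 * (X / L ^ (U - 1))) := by
      refine hE1.trans ?_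
      apply mul_le_mul_of_nonneg_left _ hK0.le
      have h2 : (Z : ℝ) / Real.log Z ^ U ≤ X / L ^ (U - 1) := by
        have e : (X : ℝ) / L ^ (U - 1) = X * L / L ^ U := by
          have e2 : L ^ U = L ^ (U - 1) * L := by
            rw [← pow_succ]
            congr 1
            omega
          rw [e2]
          field_simp
        rw [e]
        apply div_le_div₀ (by positivity) hZr (by positivity)
        exact pow_le_pow_left₀ hL0.le hZL _
      have h3 : 1 ≤ X / L ^ (U - 1) := by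
        rw [one_le_div (by positivity)]
        calc L ^ (U - 1) ≤ L ^ U := pow_le_pow_right₀ hL1 (by omega)
          _ ≤ X := by linarith
      linarith
    have h2 : (Ex₂.card : ℝ) ≤ K * P := by
      rw [hEx₂, card_product, Nat.card_Ioc, Nat.card_Icc, Nat.add_sub_cancel_left, Nat.add_sub_cancel]
      push_cast
      exact mul_le_mul_of_nonneg_left (Nat.floor_le hP0.le) hK0.le
    have h3 : ((Ex₁ ∪ Ex₂).card : ℝ) ≤ (Ex₁.card : ℝ) + Ex₂.card := by exact_mod_cast card_union_le _ _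
    refine h3.trans ((add_le_add h1 h2).trans ?_)
    have e1 : K * (3 * (X / L ^ (U - 1))) ≤ X * K / L ^ A * (3 / L) := by
      have h4 : X / L ^ (U - 1) ≤ X / L ^ (A + 1) := by
        apply div_le_div_of_nonneg_left hX0.le (by positivity)
        exact pow_le_pow_right₀ hL1 (by omega)
      have e : X * K / L ^ A * (3 / L) = K * (3 * (X / L ^ (A + 1))) := by
        rw [pow_succ L A]
        field_simp
      rw [e]
      gcongr
    have e2 : K * P = X * K / L ^ A * (1 / L ^ 2) := by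
      rw [hP, pow_add L A 2]
      field_simp
    have h5 : 3 / L + 1 / L ^ 2 ≤ 1 := by
      have h6 : 1 / L ^ 2 ≤ 1 / L := by
        apply one_div_le_one_div_of_le hL0
        exact le_self_pow₀ hL1 (by norm_num)
      have h7 : 3 / L + 1 / L = 4 / L := by ring
      have h8 : 4 / L ≤ 1 := by
        rw [div_le_one hL0]
        linarith
      linarith
    have h6 : 0 ≤ X * K / L ^ A := by positivity
    calc K * (3 * (X / L ^ (U - 1))) + K * P ≤ X * K / L ^ A * (3 / L) + X * K / L ^ A * (1 / L ^ 2) := by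
          rw [← e2]
          exact add_le_add_left e1 _
      _ = X * K / L ^ A * (3 / L + 1 / L ^ 2) := by ring
      _ ≤ X * K / L ^ A * 1 := mul_le_mul_of_nonneg_left h5 h6
      _ = _ := mul_one _
  · -- the variance
    intro u y hy hy1 hy2 hyK
    have hu0 : (0 : ℝ) ≤ u := Nat.cast_nonneg _
    have hyr : (1 : ℝ) ≤ y := by exact_mod_cast hy
    have hy0 : (0 : ℝ) < y := by linarith
    obtain ⟨R, hR⟩ : ∃ R : ℝ, R = Real.sqrt (H * X) := ⟨_, rfl⟩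
    have hHX0 : (0 : ℝ) ≤ H * X := by positivity
    have hRR : R ^ 2 = H * X := by rw [hR]; exact Real.sq_sqrt hHX0
    have hR0 : 0 ≤ R := by rw [hR]; exact Real.sqrt_nonneg _
    have huR : (u : ℝ) + y ≤ R := by
      rw [hR]
      exact Real.le_sqrt_of_sq_le hy1
    have hBR : (B : ℝ) + K ≤ R := by
      rw [hR]
      exact Real.le_sqrt_of_sq_le hBK
    have hsX : Real.sqrt X ^ 2 = X := Real.sq_sqrt hX0.le
    have hsX0 : 0 ≤ Real.sqrt X := Real.sqrt_nonneg _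
    have hsX1 : Real.sqrt X ≤ X := by
      have h1 : 1 ≤ Real.sqrt X := Real.one_le_sqrt.2 hX1
      calc Real.sqrt X ≤ Real.sqrt X ^ 2 := le_self_pow₀ h1 (by norm_num)
        _ = X := hsX
    have hRsX : R ≤ H * Real.sqrt X := by
      apply le_of_sq_le_sq _ (by positivity)
      rw [hRR, mul_pow, hsX]
      have : (H : ℝ) ≤ (H : ℝ) ^ 2 := le_self_pow₀ hHr (by norm_num)
      gcongr
    have hyR : y * R ≤ H * X / L ^ D := by
      rw [le_div_iff₀ (by positivity)]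
      calc y * R * L ^ D = (y * L ^ D) * R := by ring
        _ ≤ Real.sqrt X * (H * Real.sqrt X) := mul_le_mul hy2 hRsX hR0 hsX0
        _ = H * (Real.sqrt X ^ 2) := by ring
        _ = H * X := by rw [hsX]
    have hyKN : (y : ℝ) * (K + 2) ≤ N := by
      have h1 : (y : ℝ) * K ≤ H * X := by
        calc (y : ℝ) * K ≤ R * R := mul_le_mul (by linarith) (by linarith) hK0.le hR0
          _ = R ^ 2 := by ring
          _ = H * X := hRR
      have h2 : (y : ℝ) * 2 ≤ X := by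
        have h3 : (2 : ℝ) ≤ L ^ D := by
          have : L ≤ L ^ D := le_self_pow₀ hL1 (by omega)
          linarith
        calc (y : ℝ) * 2 ≤ y * L ^ D := by gcongr
          _ ≤ Real.sqrt X := hy2
          _ ≤ X := hsX1
      have h3 : H * (X : ℝ) + X ≤ N := by
        rw [hNr, hg]
        have : 0 ≤ (a : ℝ) * H * X := by positivity
        linarith
      linarith
    have hNK : (N : ℝ) ^ (1 / 3 : ℝ) * l ^ D₀ ≤ (y : ℝ) * K := by
      have h1 : (N : ℝ) ^ (1 / 3 : ℝ) ≤ (X : ℝ) ^ (1 / 3 : ℝ) * L := by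
        calc (N : ℝ) ^ (1 / 3 : ℝ) ≤ (X * L) ^ (1 / 3 : ℝ) :=
              Real.rpow_le_rpow (Nat.cast_nonneg _) hNup (by norm_num)
          _ = (X : ℝ) ^ (1 / 3 : ℝ) * L ^ (1 / 3 : ℝ) := Real.mul_rpow hX0.le (by positivity)
          _ ≤ (X : ℝ) ^ (1 / 3 : ℝ) * L := by
              apply mul_le_mul_of_nonneg_left _ (by positivity)
              calc L ^ (1 / 3 : ℝ) ≤ L ^ (1 : ℝ) :=
                    Real.rpow_le_rpow_of_exponent_le hL1 (by norm_num)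
                _ = L := Real.rpow_one _
      calc (N : ℝ) ^ (1 / 3 : ℝ) * l ^ D₀ ≤ ((X : ℝ) ^ (1 / 3 : ℝ) * L) * L ^ (D₀ + 1) :=
            mul_le_mul h1 (hlD _ hLD _ hl0.le hl2) (by positivity) (by positivity)
        _ = (X : ℝ) ^ (1 / 3 : ℝ) * L ^ (D₀ + 2) := by ring
        _ ≤ (X : ℝ) ^ (1 / 3 : ℝ) * L ^ D := by
            apply mul_le_mul_of_nonneg_left _ (by positivity)
            exact pow_le_pow_right₀ hL1 (by omega)
        _ ≤ _ := hyK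
    have k1 := hsumN u y X hy ((hlD _ hLD _ hl0.le hl2).trans ((pow_le_pow_right₀ hL1 (by omega)).trans hK))
      hNK hyKN
    have k2 := hX3' z (by omega) hzhi hV B K u y hy ((pow_le_pow_right₀ hL1 (by omega)).trans hK)
    obtain ⟨Φ, hΦ⟩ : ∃ Φ : ℕ → ℕ → ℝ, Φ = fun (b c : ℕ) =>
      |∑ t ∈ Ioc u (u + y), ext0 (PE z) N ((c : ℤ) + (α : ℤ) * (t : ℤ) ^ 2 + (b : ℤ) * (t : ℤ))| ^ 2 := ⟨_, rfl⟩
    obtain ⟨Ψ, hΨ⟩ : ∃ Ψ : ℕ → ℕ → ℝ, Ψ = fun (b c : ℕ) =>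
      (∑ t ∈ Ioc u (u + y), sgz z (fv (-a) (-(b : ℤ)) (c : ℤ) t) - Sz (-a) (-(b : ℤ)) (c : ℤ) z * y) ^ 2 := ⟨_, rfl⟩
    have hpt : ∀ x ∈ (Ioc B (B + K) ×ˢ Ioc 0 (0 + X)) \ (Ex₁ ∪ Ex₂), (dev a (S x.1 x.2) u y x.1 x.2) ^ 2 ≤
        3 * Φ x.1 x.2 + 12 / L ^ 2 * Ψ x.1 x.2 + 12 * (y / L ^ V) ^ 2 := by
      intro x hx
      rw [Finset.mem_sdiff, mem_product] at hx
      obtain ⟨⟨hb, hc⟩, hE⟩ := hx
      have h1 := (hS x.1 x.2 hb hc hE).2.1
      have h2 := hcP x.1 hb x.2 hc hE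
      rw [mem_Ioc] at hb hc
      have hbR : (x.1 : ℝ) ≤ R := by
        have : (x.1 : ℝ) ≤ B + K := by exact_mod_cast hb.2
        linarith
      have hcX : (x.2 : ℝ) ≤ X := by exact_mod_cast (by omega : x.2 ≤ X)
      have hb0 : (0 : ℝ) ≤ x.1 := Nat.cast_nonneg _
      have hbd : y * (2 * a * (u + y) + x.1) ≤ X * L / L ^ D := by
        calc y * (2 * a * (u + y) + x.1) ≤ y * (2 * a * R + R) := by gcongr
          _ = (2 * a + 1) * (y * R) := by ring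
          _ ≤ (2 * a + 1) * (H * X / L ^ D) := by gcongr
          _ = X * ((2 * a + 1) * H) / L ^ D := by ring
          _ ≤ X * L / L ^ D := by gcongr
      have h3 := core_var (a := a) ha (b := x.1) (c := (x.2 : ℤ)) (V := V) (A := A + 2) (X := X) (L := L)
        (S := S x.1 x.2) (u := u) (y := y) (z := z) (N := N) hL100 hX0 (by
          rw [← hP]
          exact_mod_cast h2) (by
          rw [le_div_iff₀ (by positivity)]
          have h4 : (X : ℝ) = Real.exp (1 / 2 * L) * Real.exp (1 / 2 * L) := by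
            rw [← Real.exp_add, ← hexpL]
            congr 1
            ring
          rw [h4]
          apply mul_le_mul_of_nonneg_left _ (Real.exp_pos _).le
          linarith) hV (by
          have h5 : L * (y * (2 * a * (u + y) + x.1) / (X / L ^ (A + 2))) ≤
              L * ((X * L / L ^ D) / (X / L ^ (A + 2))) := by gcongr
          refine h5.trans ?_
          have e : L * ((X * L / L ^ D) / (X / L ^ (A + 2))) = L ^ (A + 4) / L ^ D := by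
            have e3 : L ^ (A + 4) = L ^ (A + 2) * L ^ 2 := by ring
            rw [e3]
            field_simp
          rw [e, div_le_div_iff₀ (by positivity) (by positivity), one_mul, ← pow_add]
          exact pow_le_pow_right₀ hL1 (by omega)) (by
          have h6 : (a : ℝ) * ((u : ℝ) + y) ^ 2 ≤ a * (H * X) := by gcongr
          have h7 : (x.1 : ℝ) * (u + y) ≤ H * X := by
            calc (x.1 : ℝ) * (u + y) ≤ R * R := mul_le_mul hbR huR (by positivity) hR0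
              _ = R ^ 2 := by ring
              _ = H * X := hRR
          have h8 : ((x.2 : ℤ) : ℝ) ≤ X := by exact_mod_cast hcX
          rw [hNr, hg]
          linarith) h1
      refine h3.trans (le_of_eq ?_)
      rw [hΦ, hΨ]
      simp only [hα]
    have hΦ0 : ∀ b c, 0 ≤ Φ b c := by
      intro b c
      rw [hΦ]
      positivity
    have hΨ0 : ∀ b c, 0 ≤ Ψ b c := by
      intro b c
      rw [hΨ]
      positivity
    refine (Finset.sum_le_sum hpt).trans ?_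
    have hsub : ∑ x ∈ (Ioc B (B + K) ×ˢ Ioc 0 (0 + X)) \ (Ex₁ ∪ Ex₂),
        (3 * Φ x.1 x.2 + 12 / L ^ 2 * Ψ x.1 x.2 + 12 * (y / L ^ V) ^ 2) ≤
        ∑ x ∈ Ioc B (B + K) ×ˢ Ioc 0 (0 + X),
        (3 * Φ x.1 x.2 + 12 / L ^ 2 * Ψ x.1 x.2 + 12 * (y / L ^ V) ^ 2) := by
      apply Finset.sum_le_sum_of_subset_of_nonneg sdiff_subset
      intro x _ _
      have h1 := hΦ0 x.1 x.2
      have h2 := hΨ0 x.1 x.2
      positivity
    refine hsub.trans ?_
    have e1 : ∑ x ∈ Ioc B (B + K) ×ˢ Ioc 0 (0 + X),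
        (3 * Φ x.1 x.2 + 12 / L ^ 2 * Ψ x.1 x.2 + 12 * (y / L ^ V) ^ 2) =
        3 * ∑ b ∈ Ioc B (B + K), ∑ c ∈ Ioc 0 (0 + X), Φ b c +
        12 / L ^ 2 * ∑ b ∈ Ioc B (B + K), ∑ c ∈ Ioc 0 (0 + X), Ψ b c +
        X * K * (12 * (y / L ^ V) ^ 2) := by
      rw [Finset.sum_product]
      simp_rw [Finset.sum_add_distrib, Finset.sum_const, nsmul_eq_mul, Nat.card_Ioc,
        Nat.add_sub_cancel_left, Finset.mul_sum]
      ring
    rw [e1]
    obtain ⟨Q, hQ⟩ : ∃ Q : ℝ, Q = X * K * (y : ℝ) ^ 2 := ⟨_, rfl⟩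
    have hQ0 : 0 ≤ Q := by rw [hQ]; positivity
    obtain ⟨W, hW⟩ : ∃ W : ℝ, W = X * K * y / L := ⟨_, rfl⟩
    have hW0 : 0 ≤ W := by rw [hW]; positivity
    have k1' : ∑ b ∈ Ioc B (B + K), ∑ c ∈ Ioc 0 (0 + X), Φ b c ≤ 4200 * (g * W) + g * (Q / L ^ (A + 2)) := by
      rw [hΦ]
      refine k1.trans ?_
      have h1 : (N : ℝ) * K * y / l ≤ g * W := by
        calc (N : ℝ) * K * y / l ≤ N * K * y / L := by
              apply div_le_div_of_nonneg_left (by positivity) hL0 hlL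
          _ = g * W := by rw [hNr, hW]; ring
      have h2 : (N : ℝ) * K * (y : ℝ) ^ 2 / l ^ (A + 2) ≤ g * (Q / L ^ (A + 2)) := by
        calc (N : ℝ) * K * (y : ℝ) ^ 2 / l ^ (A + 2) ≤ N * K * (y : ℝ) ^ 2 / L ^ (A + 2) := by
              apply div_le_div_of_nonneg_left (by positivity) (by positivity)
              exact pow_le_pow_left₀ hL0.le hlL _
          _ = g * (Q / L ^ (A + 2)) := by rw [hNr, hQ]; ring
      linarith
    have k2' : 12 / L ^ 2 * ∑ b ∈ Ioc B (B + K), ∑ c ∈ Ioc 0 (0 + X), Ψ b c ≤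
        96 * W + 216 * (Q / L ^ (A + 2)) := by
      rw [hΨ]
      refine k2.trans (le_of_eq ?_)
      rw [hW, hQ]
    have k3' : X * K * (12 * (y / L ^ V) ^ 2) ≤ 12 * (Q / L ^ (A + 2)) := by
      have h1 : (y / L ^ V) ^ 2 ≤ (y : ℝ) ^ 2 / L ^ (A + 2) := by
        rw [div_pow, ← hVd]
        apply div_le_div_of_nonneg_left (by positivity) (by positivity)
        exact le_self_pow₀ (one_le_pow₀ hL1) (by norm_num)
      calc X * K * (12 * (y / L ^ V) ^ 2) ≤ X * K * (12 * ((y : ℝ) ^ 2 / L ^ (A + 2))) := by gcongr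
        _ = _ := by rw [hQ]; ring
    have k4 := var_arith (a2 := g) hQ0 hL100 hLg A
    rw [← hg, ← hW, ← hQ]
    have k5 : 96 * W ≤ 100 * (g * W) := by
      have : W ≤ g * W := le_mul_of_one_le_left hW0 hg1
      linarith
    have e6 : (3 * g + 228) * (Q / L ^ (A + 2)) = 3 * (g * (Q / L ^ (A + 2))) + 216 * (Q / L ^ (A + 2)) +
      12 * (Q / L ^ (A + 2)) := by ring
    rw [e6] at k4
    have e7 : 12700 * g * W = 3 * (4200 * (g * W)) + 100 * (g * W) := by ring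
    rw [e7]
    linarith

end Pool.Agent.K9h19.CR
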