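import Pool.Agent.K9h19.CR.VR4

/-!
# The variance: all the lengths
-/

set_option autoImplicit false

namespace Pool.Agent.K9h19.CR

open Finset Filter Topology
open Pool.Agent.Q236.CR
open Pool.Agent.R460.SB (QS Sz Sz_bd fv fv_two)

theorem dev_add (a : ℤ) (S : ℝ) (u m n b c : ℕ) :
    dev a S u (m + n) b c = dev a S u m b c + dev a S (u + m) n b c := by
  unfold dev
  have h : Ioc u (u + (m + n)) = Ioc u (u + m) ∪ Ioc (u + m) (u + m + n) := by
    rw [← add_assoc, Ioc_union_Ioc_eq_Ioc (Nat.le_add_right _ _) (Nat.le_add_right _ _)]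
  have hd : Disjoint (Ioc u (u + m)) (Ioc (u + m) (u + m + n)) := by
    rw [Finset.disjoint_left]
    intro x hx hx'
    rw [mem_Ioc] at hx hx'
    omega
  rw [h, filter_union, card_union_of_disjoint (Finset.disjoint_filter_filter hd), Finset.sum_union hd]
  push_cast
  ring

theorem dev_blocks (a : ℤ) (S : ℝ) (u m b c J : ℕ) : ∀ r : ℕ, dev a S u (J * m + r) b c =
    ∑ j ∈ range J, dev a S (u + j * m) m b c + dev a S (u + J * m) r b c := by
  induction J with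
  | zero => intro r; simp
  | succ J ih =>
    intro r
    have e : (J + 1) * m + r = J * m + (m + r) := by ring
    have e2 : u + (J + 1) * m = u + J * m + m := by ring
    rw [e, ih, dev_add, Finset.sum_range_succ, e2]
    ring

theorem dev_sq (a : ℤ) (S : ℝ) (u m b c J r : ℕ) : (dev a S u (J * m + r) b c) ^ 2 ≤
    2 * (J * ∑ j ∈ range J, (dev a S (u + j * m) m b c) ^ 2) + 2 * (dev a S (u + J * m) r b c) ^ 2 := by
  rw [dev_blocks]
  refine two_sq.trans ?_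
  have h := sq_sum_le_card_mul_sum_sq (s := range J) (f := fun j => dev a S (u + j * m) m b c)
  rw [card_range] at h
  linarith

theorem blocks_arith {XK g L y m r J : ℝ} (A : ℕ) (hXK : 0 ≤ XK) (hg : 0 ≤ g) (hL : 100 ≤ L) (hm : 0 < m)
    (hr0 : 0 ≤ r) (hr : r ≤ y) (hJ0 : 0 ≤ J) (hJ : (J + 1) * m ≤ y) (hmg : 2 * g * L ^ (A + 1) ≤ m) :
    2 * (J * (J * (g * (XK * m / L) + XK * m ^ 2 / L ^ (A + 1)))) +
      2 * (g * (XK * r / L) + XK * r ^ 2 / L ^ (A + 1)) ≤ XK * y ^ 2 / L ^ A := by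
  have hL0 : 0 < L := by linarith
  have hy0 : 0 ≤ y := hr0.trans hr
  have hJm : J * m ≤ y := by linarith
  obtain ⟨Q, hQ⟩ : ∃ Q : ℝ, Q = XK * y ^ 2 / L ^ (A + 1) := ⟨_, rfl⟩
  have hQ0 : 0 ≤ Q := by rw [hQ]; positivity
  have h1 : 2 * (J * (J * (XK * m ^ 2 / L ^ (A + 1)))) ≤ 2 * Q := by
    have e : 2 * (J * (J * (XK * m ^ 2 / L ^ (A + 1)))) = 2 * (XK * (J * m) ^ 2 / L ^ (A + 1)) := by ring
    rw [e, hQ]
    gcongr
  have h2 : 2 * (XK * r ^ 2 / L ^ (A + 1)) ≤ 2 * Q := by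
    rw [hQ]
    gcongr
  have h3 : 2 * (J * (J * (g * (XK * m / L)))) + 2 * (g * (XK * r / L)) ≤ 2 * (J + 1) * (g * (XK * y / L)) := by
    have h4 : 2 * (J * (J * (g * (XK * m / L)))) ≤ 2 * J * (g * (XK * y / L)) := by
      have e : 2 * (J * (J * (g * (XK * m / L)))) = 2 * J * (g * (XK * (J * m) / L)) := by ring
      rw [e]
      gcongr
    have h5 : 2 * (g * (XK * r / L)) ≤ 2 * (g * (XK * y / L)) := by gcongr
    linarith
  have h4 : 2 * (J + 1) * (g * (XK * y / L)) ≤ Q := by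
    have h5 : 2 * (J + 1) * g * L ^ (A + 1) ≤ y := by
      calc 2 * (J + 1) * g * L ^ (A + 1) = (J + 1) * (2 * g * L ^ (A + 1)) := by ring
        _ ≤ (J + 1) * m := mul_le_mul_of_nonneg_left hmg (by linarith)
        _ ≤ y := hJ
    have h6 : 2 * (J + 1) * (g * (XK * y / L)) = XK * y * (2 * (J + 1) * g * L ^ (A + 1)) / (L * L ^ (A + 1)) := by
      field_simp
    rw [h6, hQ]
    calc XK * y * (2 * (J + 1) * g * L ^ (A + 1)) / (L * L ^ (A + 1)) ≤ XK * y * y / (L * L ^ (A + 1)) := by gcongr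
      _ = XK * y ^ 2 / L ^ (A + 1) * (1 / L) := by
          field_simp
      _ ≤ XK * y ^ 2 / L ^ (A + 1) * 1 := by
          apply mul_le_mul_of_nonneg_left _ (by positivity)
          rw [div_le_one hL0]
          linarith
      _ = _ := mul_one _
  have h5 : XK * y ^ 2 / L ^ A = L * Q := by
    rw [hQ, pow_succ L A]
    field_simp
  rw [h5]
  have h6 : 5 * Q ≤ L * Q := by
    apply mul_le_mul_of_nonneg_right _ hQ0
    linarith
  linarith

theorem fin_var (hcr : S_CHR) (hmo : S_MOC) {a : ℤ} (ha : 0 < a) {H : ℕ} (hH : 1 ≤ H) (A : ℕ) :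
    ∃ D E X₀ : ℕ, ∀ X : ℕ, X₀ ≤ X → ∀ B K : ℕ, Real.log X ^ D ≤ K → ((B : ℝ) + K) ^ 2 ≤ H * X →
      ∃ Ex : Finset (ℕ × ℕ), (Ex.card : ℝ) ≤ X * K / Real.log X ^ A ∧ ∃ S : ℕ → ℕ → ℝ,
        (∀ b ∈ Ioc B (B + K), ∀ c ∈ Ioc 0 (0 + X), (b, c) ∉ Ex →
          Tendsto (fun z : ℕ => Sz (-a) (-(b : ℤ)) (c : ℤ) z) atTop (𝓝 (S b c))) ∧
        (∃ z : ℕ, Real.log X ≤ z ∧ (z : ℝ) ≤ Real.log X ^ E ∧ ∀ b ∈ Ioc B (B + K), ∀ c ∈ Ioc 0 (0 + X),
          (b, c) ∉ Ex → Sz (-a) (-(b : ℤ)) (c : ℤ) z / 2 ≤ S b c) ∧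
        ∀ u y : ℕ, 1 ≤ y → ((u : ℝ) + y) ^ 2 ≤ H * X →
          (X : ℝ) ^ (1 / 3 : ℝ) * Real.log X ^ D ≤ (y : ℝ) * K →
          ∑ x ∈ (Ioc B (B + K) ×ˢ Ioc 0 (0 + X)) \ Ex, (dev a (S x.1 x.2) u y x.1 x.2) ^ 2 ≤
            12700 * (((a : ℝ) + 1) * H + 1) * (X * K * y / Real.log X) +
              X * K * (y : ℝ) ^ 2 / Real.log X ^ A := by
  obtain ⟨D, E, X₁, h1⟩ := fin_var0 hcr hmo ha hH (A + 1)
  obtain ⟨g, hg⟩ : ∃ g : ℝ, g = 12700 * (((a : ℝ) + 1) * H + 1) := ⟨_, rfl⟩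
  obtain ⟨X₂, hX₂⟩ := ev_natlog (P := fun l => 100 ≤ l ∧ 4 * l ^ D ≤ Real.exp (1 / 6 * l) ∧
      (8 * g) * l ^ (A + 1 + D) ≤ Real.exp (1 / 2 * l)) (by
    filter_upwards [eventually_ge_atTop 100, ev_exp (1 / 6) 4 D (by norm_num),
      ev_exp (1 / 2) (8 * g) (A + 1 + D) (by norm_num)] with l h1 h2 h3
    exact ⟨h1, h2, h3⟩)
  refine ⟨D, E, X₁ + X₂ + 3, fun X hX B K hK hBK => ?_⟩
  obtain ⟨g1, g2, g3⟩ := hX₂ X (by omega)
  have hX0 : (0 : ℝ) < X := by exact_mod_cast (by omega : 0 < X)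
  obtain ⟨Ex, hE1, S, hS, hSz, hvar⟩ := h1 X (by omega) B K hK hBK
  obtain ⟨L, hL⟩ : ∃ L : ℝ, L = Real.log X := ⟨_, rfl⟩
  rw [← hL] at g1 g2 g3 hK hE1 hSz hvar ⊢
  have hL0 : 0 < L := by linarith
  have hL1 : 1 ≤ L := by linarith
  have ha0 : (0 : ℝ) < a := by exact_mod_cast ha
  have hg0 : 0 ≤ g := by rw [hg]; positivity
  have hAA : ∀ Q : ℝ, 0 ≤ Q → Q / L ^ (A + 1) ≤ Q / L ^ A := by
    intro Q hQ
    apply div_le_div_of_nonneg_left hQ (by positivity)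
    exact pow_le_pow_right₀ hL1 (by omega)
  refine ⟨Ex, hE1.trans (hAA _ (by positivity)), S, hS, hSz, fun u y hy hy1 hyK => ?_⟩
  rw [← hg]
  simp only [← hg] at hvar
  by_cases hcase : (y : ℝ) * L ^ D ≤ Real.sqrt X
  · refine (hvar u y hy hy1 hcase hyK).trans ?_
    exact add_le_add_right (hAA _ (by positivity)) _
  · push Not at hcase
    obtain ⟨s, hs⟩ : ∃ s : ℝ, s = Real.sqrt X := ⟨_, rfl⟩
    rw [← hs] at hcase
    have hse : s = Real.exp (1 / 2 * L) := by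
      have h2 : (X : ℝ) = Real.exp (1 / 2 * L) ^ 2 := by
        rw [← Real.exp_nat_mul]
        have e : ((2 : ℕ) : ℝ) * (1 / 2 * L) = L := by push_cast; ring
        rw [e, hL, Real.exp_log hX0]
      rw [hs, h2, Real.sqrt_sq (Real.exp_pos _).le]
    have hs0 : 0 < s := by rw [hse]; exact Real.exp_pos _
    have hX3 : (X : ℝ) ^ (1 / 3 : ℝ) = Real.exp (1 / 3 * L) := by
      rw [Real.rpow_def_of_pos hX0, ← hL]
      congr 1
      ring
    have hsplit : s = Real.exp (1 / 3 * L) * Real.exp (1 / 6 * L) := by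
      rw [hse, ← Real.exp_add]
      congr 1
      ring
    have hs4 : Real.exp (1 / 3 * L) ≤ s / (4 * L ^ D) := by
      rw [le_div_iff₀ (by positivity), hsplit]
      exact mul_le_mul_of_nonneg_left g2 (Real.exp_pos _).le
    have he1 : 2 ≤ Real.exp (1 / 3 * L) := by
      have := Real.add_one_le_exp (1 / 3 * L)
      linarith
    obtain ⟨m, hm⟩ : ∃ m : ℕ, m = ⌊s / (2 * L ^ D)⌋₊ := ⟨_, rfl⟩
    have hm1 : (m : ℝ) ≤ s / (2 * L ^ D) := by rw [hm]; exact Nat.floor_le (by positivity)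
    have hm2 : s / (4 * L ^ D) ≤ m := by
      have h2 : s / (2 * L ^ D) < m + 1 := by rw [hm]; exact Nat.lt_floor_add_one _
      have h3 : s / (2 * L ^ D) = 2 * (s / (4 * L ^ D)) := by
        field_simp
        ring
      linarith
    have hm3 : Real.exp (1 / 3 * L) ≤ m := hs4.trans hm2
    have hm0 : (0 : ℝ) < m := by linarith
    have hmn : 1 ≤ m := by exact_mod_cast hm0
    have h2m : 2 * m < y := by
      have h2 : (2 : ℝ) * m < y := by
        have h3 : 2 * (m : ℝ) * L ^ D ≤ s := by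
          rw [le_div_iff₀ (by positivity)] at hm1
          linarith
        exact lt_of_mul_lt_mul_right (lt_of_le_of_lt h3 hcase) (by positivity)
      exact_mod_cast h2
    obtain ⟨J, hJ⟩ : ∃ J : ℕ, J = y / m - 1 := ⟨_, rfl⟩
    have hym2 : 2 ≤ y / m := (Nat.le_div_iff_mul_le (by omega)).2 h2m.le
    have hJ1 : y / m = J + 1 := by omega
    have hJm : (J + 1) * m ≤ y := by
      rw [← hJ1]
      exact Nat.div_mul_le_self y m
    have hJm' : y < (J + 2) * m := by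
      have h2 := Nat.lt_mul_div_succ y (by omega : 0 < m)
      rw [hJ1] at h2
      calc y < m * (J + 1 + 1) := h2
        _ = (J + 2) * m := by ring
    obtain ⟨r, hr⟩ : ∃ r : ℕ, r = y - J * m := ⟨_, rfl⟩
    have e1 : (J + 1) * m = J * m + m := by ring
    have e2 : (J + 2) * m = J * m + 2 * m := by ring
    have hyr : J * m + r = y := by omega
    have hr1 : m ≤ r := by omega
    have hr2 : r ≤ 2 * m := by omega
    have hm2s : 2 * (m : ℝ) * L ^ D ≤ s := by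
      rw [le_div_iff₀ (by positivity)] at hm1
      linarith
    have hmD : (m : ℝ) * L ^ D ≤ s := by
      have : 0 ≤ (m : ℝ) * L ^ D := by positivity
      linarith
    have hrD : (r : ℝ) * L ^ D ≤ s := by
      have h2 : (r : ℝ) ≤ 2 * m := by exact_mod_cast hr2
      calc (r : ℝ) * L ^ D ≤ 2 * m * L ^ D := by gcongr
        _ ≤ s := hm2s
    have hmK : (X : ℝ) ^ (1 / 3 : ℝ) * L ^ D ≤ (m : ℝ) * K := by
      rw [hX3]
      exact mul_le_mul hm3 hK (by positivity) hm0.le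
    have hrK : (X : ℝ) ^ (1 / 3 : ℝ) * L ^ D ≤ (r : ℝ) * K := by
      refine hmK.trans ?_
      have : (m : ℝ) ≤ r := by exact_mod_cast hr1
      gcongr
    have hblock : ∀ j ∈ range J, ∑ x ∈ (Ioc B (B + K) ×ˢ Ioc 0 (0 + X)) \ Ex,
        (dev a (S x.1 x.2) (u + j * m) m x.1 x.2) ^ 2 ≤ g * (X * K * m / L) + X * K * (m : ℝ) ^ 2 / L ^ (A + 1) := by
      intro j hj
      rw [mem_range] at hj
      apply hvar (u + j * m) m hmn _ (by rw [← hs]; exact hmD) hmK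
      refine le_trans ?_ hy1
      apply pow_le_pow_left₀ (by positivity)
      have h2 : u + j * m + m ≤ u + y := by
        have h3 : (j + 1) * m ≤ J * m := Nat.mul_le_mul_right m hj
        have h4 : (j + 1) * m = j * m + m := by ring
        omega
      exact_mod_cast h2
    have hlast : ∑ x ∈ (Ioc B (B + K) ×ˢ Ioc 0 (0 + X)) \ Ex,
        (dev a (S x.1 x.2) (u + J * m) r x.1 x.2) ^ 2 ≤ g * (X * K * r / L) + X * K * (r : ℝ) ^ 2 / L ^ (A + 1) := by
      apply hvar (u + J * m) r (by omega) _ (by rw [← hs]; exact hrD) hrK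
      refine le_trans (le_of_eq ?_) hy1
      have h2 : u + J * m + r = u + y := by omega
      have h3 : ((u + J * m : ℕ) : ℝ) + r = (u : ℝ) + y := by exact_mod_cast h2
      rw [h3]
    have hpt : ∀ x ∈ (Ioc B (B + K) ×ˢ Ioc 0 (0 + X)) \ Ex, (dev a (S x.1 x.2) u y x.1 x.2) ^ 2 ≤
        2 * (J * ∑ j ∈ range J, (dev a (S x.1 x.2) (u + j * m) m x.1 x.2) ^ 2) +
          2 * (dev a (S x.1 x.2) (u + J * m) r x.1 x.2) ^ 2 := by
      intro x _
      have h2 := dev_sq a (S x.1 x.2) u m x.1 x.2 J r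
      rwa [hyr] at h2
    refine (Finset.sum_le_sum hpt).trans ?_
    rw [Finset.sum_add_distrib, ← Finset.mul_sum, ← Finset.mul_sum, ← Finset.mul_sum, Finset.sum_comm]
    have h2 : ∑ j ∈ range J, ∑ x ∈ (Ioc B (B + K) ×ˢ Ioc 0 (0 + X)) \ Ex,
        (dev a (S x.1 x.2) (u + j * m) m x.1 x.2) ^ 2 ≤
        J * (g * (X * K * m / L) + X * K * (m : ℝ) ^ 2 / L ^ (A + 1)) := by
      refine (Finset.sum_le_sum hblock).trans ?_
      rw [Finset.sum_const, card_range, nsmul_eq_mul]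
    have h3 := blocks_arith (XK := X * K) (g := g) (L := L) (y := y) (m := m) (r := r) (J := J) A (by positivity)
      hg0 g1 hm0 (Nat.cast_nonneg _) (by exact_mod_cast (by omega : r ≤ y)) (Nat.cast_nonneg _)
      (by exact_mod_cast hJm) (by
        refine le_trans ?_ hm2
        rw [le_div_iff₀ (by positivity), hse]
        refine le_trans (le_of_eq ?_) g3
        ring)
    have h4 : 0 ≤ g * (X * K * y / L) := by positivity
    calc 2 * (J * ∑ j ∈ range J, ∑ x ∈ (Ioc B (B + K) ×ˢ Ioc 0 (0 + X)) \ Ex,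
          (dev a (S x.1 x.2) (u + j * m) m x.1 x.2) ^ 2) +
        2 * ∑ x ∈ (Ioc B (B + K) ×ˢ Ioc 0 (0 + X)) \ Ex, (dev a (S x.1 x.2) (u + J * m) r x.1 x.2) ^ 2 ≤
        2 * (J * (J * (g * (X * K * m / L) + X * K * (m : ℝ) ^ 2 / L ^ (A + 1)))) +
        2 * (g * (X * K * r / L) + X * K * (r : ℝ) ^ 2 / L ^ (A + 1)) := by gcongr
      _ ≤ X * K * (y : ℝ) ^ 2 / L ^ A := h3
      _ ≤ _ := by linarith

end Pool.Agent.K9h19.CR
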