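import Pool.Agent.Q236.CR.Stm
import Pool.Agent.Q53.CR.SHB
import Pool.Agent.H153R4.Pl

/-!
# Project CR, job WIN, first part: Plancherel's theorem for multiplicative windows
-/

set_option autoImplicit false

namespace Pool.Agent.K9h19.CR

open Finset Filter Topology MeasureTheory FourierTransform
open Pool.Agent.Q236.CR (nt)
open scoped ENNReal

/-- the multiplicative window -/
noncomputable def Wd (c : ℕ → ℂ) (N : ℕ) (k u : ℝ) : ℂ :=
  ∑ n ∈ Icc 1 N, c n * (if u < Real.log n ∧ Real.log n ≤ u + k then 1 else 0)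

/-- the indicator function of one integer -/
noncomputable def ei (ℓ k u : ℝ) : ℂ := if u < ℓ ∧ ℓ ≤ u + k then 1 else 0

theorem ei_eq (ℓ k : ℝ) : ei ℓ k = Set.indicator (Set.Ico (ℓ - k) ℓ) (fun _ => (1 : ℂ)) := by
  funext u
  unfold ei
  rw [Set.indicator_apply]
  congr 1
  simp only [Set.mem_Ico, eq_iff_iff]
  constructor
  · rintro ⟨h1, h2⟩
    exact ⟨by linarith, h1⟩
  · rintro ⟨h1, h2⟩
    exact ⟨h2, by linarith⟩

theorem ei_int (ℓ k : ℝ) : Integrable (ei ℓ k) := by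
  rw [ei_eq, integrable_indicator_iff measurableSet_Ico]
  exact integrableOn_const (by simp)

/-- the multiplier -/
noncomputable def ps (k ξ : ℝ) : ℂ :=
  ∫ v in (-k)..0, Complex.exp (((-2 * Real.pi * v * ξ : ℝ) : ℂ) * Complex.I)

theorem four_ei {ℓ k : ℝ} (hk : 0 ≤ k) (ξ : ℝ) :
    ∫ v : ℝ, Complex.exp (((-2 * Real.pi * v * ξ : ℝ) : ℂ) * Complex.I) • ei ℓ k v =
      Complex.exp (((-(2 * Real.pi * ξ * ℓ) : ℝ) : ℂ) * Complex.I) * ps k ξ := by
  rw [ei_eq]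
  have e1 : ∀ v : ℝ, Complex.exp (((-2 * Real.pi * v * ξ : ℝ) : ℂ) * Complex.I) •
      Set.indicator (Set.Ico (ℓ - k) ℓ) (fun _ => (1 : ℂ)) v =
      Set.indicator (Set.Ico (ℓ - k) ℓ)
        (fun v => Complex.exp (((-2 * Real.pi * v * ξ : ℝ) : ℂ) * Complex.I)) v := by
    intro v
    rw [Set.indicator_apply, Set.indicator_apply]
    split_ifs <;> simp
  simp_rw [e1]
  rw [integral_indicator measurableSet_Ico, integral_Ico_eq_integral_Ioc,
    ← intervalIntegral.integral_of_le (by linarith)]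
  unfold ps
  rw [← intervalIntegral.integral_const_mul]
  have h2 := intervalIntegral.integral_comp_add_left (a := -k) (b := 0)
    (fun v : ℝ => Complex.exp (((-2 * Real.pi * v * ξ : ℝ) : ℂ) * Complex.I)) ℓ
  rw [add_zero, ← sub_eq_add_neg] at h2
  rw [← h2]
  apply intervalIntegral.integral_congr
  intro v _
  simp only
  rw [← Complex.exp_add]
  congr 1
  push_cast
  ring

theorem ps_le {k : ℝ} (hk : 0 ≤ k) (ξ : ℝ) : ‖ps k ξ‖ ≤ k := by
  unfold ps
  have h := intervalIntegral.norm_integral_le_of_norm_le_const (a := -k) (b := 0) (C := 1)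
    (f := fun v : ℝ => Complex.exp (((-2 * Real.pi * v * ξ : ℝ) : ℂ) * Complex.I))
    (fun v _ => (Complex.norm_exp_ofReal_mul_I _).le)
  refine h.trans (le_of_eq ?_)
  rw [sub_neg_eq_add, zero_add, one_mul, abs_of_nonneg hk]

theorem ps_low {k : ℝ} (hk : 0 ≤ k) (ξ : ℝ) : ‖ps k ξ - k‖ ≤ 2 * Real.pi * |ξ| * k * k := by
  have e : ps k ξ - k = ∫ v in (-k)..0,
      (Complex.exp (((-2 * Real.pi * v * ξ : ℝ) : ℂ) * Complex.I) - 1) := by
    rw [intervalIntegral.integral_sub]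
    · unfold ps
      rw [intervalIntegral.integral_const]
      simp
    · apply Continuous.intervalIntegrable
      fun_prop
    · exact intervalIntegrable_const
  rw [e]
  have h := intervalIntegral.norm_integral_le_of_norm_le_const (a := -k) (b := 0)
    (C := 2 * Real.pi * |ξ| * k)
    (f := fun v : ℝ => Complex.exp (((-2 * Real.pi * v * ξ : ℝ) : ℂ) * Complex.I) - 1)
    (fun v hv => by
      rw [Set.uIoc_of_le (by linarith), Set.mem_Ioc] at hv
      have h1 := Real.norm_exp_I_mul_ofReal_sub_one_le (x := -2 * Real.pi * v * ξ)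
      rw [mul_comm] at h1
      refine h1.trans ?_
      rw [Real.norm_eq_abs, abs_mul, abs_mul, abs_mul, abs_neg, abs_two, abs_of_pos Real.pi_pos]
      have h2 : |v| ≤ k := by
        rw [abs_le]
        constructor <;> linarith
      calc 2 * Real.pi * |v| * |ξ| = 2 * Real.pi * |ξ| * |v| := by ring
        _ ≤ 2 * Real.pi * |ξ| * k := by gcongr)
  refine h.trans (le_of_eq ?_)
  rw [sub_neg_eq_add, zero_add, abs_of_nonneg hk]

theorem ps_high {k ξ : ℝ} (hξ : ξ ≠ 0) : ‖ps k ξ‖ ≤ 2 / |2 * Real.pi * ξ| := by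
  have hc : (((-2 * Real.pi * ξ : ℝ) : ℂ) * Complex.I) ≠ 0 := by
    apply mul_ne_zero _ Complex.I_ne_zero
    rw [Complex.ofReal_ne_zero]
    have := Real.pi_pos
    positivity
  have e : ps k ξ = ∫ v in (-k)..0,
      Complex.exp ((((-2 * Real.pi * ξ : ℝ) : ℂ) * Complex.I) * v) := by
    unfold ps
    apply intervalIntegral.integral_congr
    intro v _
    simp only
    congr 1
    push_cast
    ring
  rw [e, integral_exp_mul_complex hc, norm_div]
  have h1 : ‖((-2 * Real.pi * ξ : ℝ) : ℂ) * Complex.I‖ = |2 * Real.pi * ξ| := by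
    rw [norm_mul, Complex.norm_I, mul_one, Complex.norm_real, Real.norm_eq_abs, ← abs_neg]
    congr 1
    ring
  rw [h1]
  apply div_le_div_of_nonneg_right _ (abs_nonneg _)
  refine (norm_sub_le _ _).trans ?_
  have h2 : ∀ v : ℝ, ‖Complex.exp ((((-2 * Real.pi * ξ : ℝ) : ℂ) * Complex.I) * (v : ℂ))‖ = 1 := by
    intro v
    have e2 : (((-2 * Real.pi * ξ : ℝ) : ℂ) * Complex.I) * (v : ℂ) =
        ((-2 * Real.pi * ξ * v : ℝ) : ℂ) * Complex.I := by
      push_cast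
      ring
    rw [e2, Complex.norm_exp_ofReal_mul_I]
  rw [h2, h2]
  norm_num

theorem ei_le (ℓ k u : ℝ) : ‖ei ℓ k u‖ ≤ 1 := by
  unfold ei
  split_ifs <;> simp

/-- the Dirichlet polynomial -/
noncomputable def Ac (c : ℕ → ℂ) (N : ℕ) (τ : ℝ) : ℂ := ∑ n ∈ Icc 1 N, c n * nt τ n

/-- the difference of two normalised windows -/
noncomputable def GG (c : ℕ → ℂ) (N : ℕ) (k k1 u : ℝ) : ℂ :=
  (1 / k : ℝ) * Wd c N k u - (1 / k1 : ℝ) * Wd c N k1 u

theorem GG_eq (c : ℕ → ℂ) (N : ℕ) (k k1 u : ℝ) : GG c N k k1 u =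
    ∑ n ∈ Icc 1 N, c n * ((1 / k : ℝ) * ei (Real.log n) k u - (1 / k1 : ℝ) * ei (Real.log n) k1 u) := by
  unfold GG Wd ei
  rw [Finset.mul_sum, Finset.mul_sum, ← Finset.sum_sub_distrib]
  apply Finset.sum_congr rfl
  intro n _
  ring

theorem GG_int (c : ℕ → ℂ) (N : ℕ) (k k1 : ℝ) : Integrable (GG c N k k1) := by
  have e : GG c N k k1 = fun u => ∑ n ∈ Icc 1 N, c n *
      ((1 / k : ℝ) * ei (Real.log n) k u - (1 / k1 : ℝ) * ei (Real.log n) k1 u) := by
    funext u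
    exact GG_eq c N k k1 u
  rw [e]
  apply integrable_finset_sum
  intro n _
  exact (((ei_int _ _).const_mul _).sub ((ei_int _ _).const_mul _)).const_mul _

theorem GG_bd (c : ℕ → ℂ) (N : ℕ) (k k1 : ℝ) : ∃ M : ℝ, ∀ u, ‖GG c N k k1 u‖ ≤ M := by
  refine ⟨∑ n ∈ Icc 1 N, ‖c n‖ * (|1 / k| + |1 / k1|), fun u => ?_⟩
  rw [GG_eq]
  refine (norm_sum_le _ _).trans (Finset.sum_le_sum fun n _ => ?_)
  rw [norm_mul]
  apply mul_le_mul_of_nonneg_left _ (norm_nonneg _)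
  refine (norm_sub_le _ _).trans ?_
  rw [norm_mul, norm_mul, Complex.norm_real, Complex.norm_real, Real.norm_eq_abs, Real.norm_eq_abs]
  have h1 := ei_le (Real.log n) k u
  have h2 := ei_le (Real.log n) k1 u
  have h3 := mul_le_mul_of_nonneg_left h1 (abs_nonneg (1 / k))
  have h4 := mul_le_mul_of_nonneg_left h2 (abs_nonneg (1 / k1))
  linarith

theorem GG_mem (c : ℕ → ℂ) (N : ℕ) (k k1 : ℝ) : MemLp (GG c N k k1) 2 := by
  have hi := GG_int c N k k1
  obtain ⟨M, hM⟩ := GG_bd c N k k1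
  rw [memLp_two_iff_integrable_sq_norm hi.aestronglyMeasurable]
  refine (hi.norm.const_mul M).mono' (hi.aestronglyMeasurable.norm.pow 2)
    (Eventually.of_forall fun x => ?_)
  rw [Real.norm_eq_abs, abs_of_nonneg (by positivity), sq]
  exact mul_le_mul_of_nonneg_right (hM x) (norm_nonneg _)

theorem nt_exp' (t : ℝ) {n : ℕ} (hn : 1 ≤ n) :
    nt t n = Complex.exp (((-(t * Real.log n) : ℝ) : ℂ) * Complex.I) := by
  have hm0 : (n : ℂ) ≠ 0 := by exact_mod_cast (by omega : n ≠ 0)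
  unfold nt
  rw [Complex.cpow_def_of_ne_zero hm0, ← Complex.natCast_log]
  congr 1
  push_cast
  ring

theorem four_GG (c : ℕ → ℂ) (N : ℕ) {k k1 : ℝ} (hk : 0 ≤ k) (hk1 : 0 ≤ k1) (ξ : ℝ) :
    𝓕 (GG c N k k1) ξ = Ac c N (2 * Real.pi * ξ) *
      ((1 / k : ℝ) * ps k ξ - (1 / k1 : ℝ) * ps k1 ξ) := by
  rw [Real.fourier_real_eq_integral_exp_smul]
  have e1 : ∀ v : ℝ, Complex.exp (((-2 * Real.pi * v * ξ : ℝ) : ℂ) * Complex.I) • GG c N k k1 v =
      ∑ n ∈ Icc 1 N, (c n * (1 / k : ℝ) *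
        (Complex.exp (((-2 * Real.pi * v * ξ : ℝ) : ℂ) * Complex.I) • ei (Real.log n) k v) -
        c n * (1 / k1 : ℝ) *
        (Complex.exp (((-2 * Real.pi * v * ξ : ℝ) : ℂ) * Complex.I) • ei (Real.log n) k1 v)) := by
    intro v
    rw [GG_eq, smul_eq_mul, Finset.mul_sum]
    apply Finset.sum_congr rfl
    intro n _
    rw [smul_eq_mul, smul_eq_mul]
    ring
  have hint : ∀ ℓ k : ℝ, Integrable fun v : ℝ =>
      Complex.exp (((-2 * Real.pi * v * ξ : ℝ) : ℂ) * Complex.I) • ei ℓ k v := by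
    intro ℓ k
    refine (ei_int ℓ k).mono ?_ (Eventually.of_forall fun v => ?_)
    · have h1 : Continuous fun v : ℝ =>
          Complex.exp (((-2 * Real.pi * v * ξ : ℝ) : ℂ) * Complex.I) := by fun_prop
      have h2 := h1.aestronglyMeasurable (μ := (volume : Measure ℝ))
      have h3 := h2.smul (ei_int ℓ k).aestronglyMeasurable
      exact h3
    · rw [norm_smul, Complex.norm_exp_ofReal_mul_I, one_mul]
  simp_rw [e1]
  rw [integral_finset_sum]
  · unfold Ac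
    rw [Finset.sum_mul]
    apply Finset.sum_congr rfl
    intro n hn
    rw [mem_Icc] at hn
    rw [integral_sub ((hint _ _).const_mul _) ((hint _ _).const_mul _), integral_const_mul,
      integral_const_mul, four_ei hk, four_ei hk1, nt_exp' _ hn.1]
    ring
  · intro n _
    exact ((hint _ _).const_mul _).sub ((hint _ _).const_mul _)

theorem plw (c : ℕ → ℂ) (N : ℕ) {k k1 : ℝ} (hk : 0 ≤ k) (hk1 : 0 ≤ k1) :
    ∫⁻ u, ‖GG c N k k1 u‖ₑ ^ 2 = ∫⁻ ξ : ℝ, ‖Ac c N (2 * Real.pi * ξ)‖ₑ ^ 2 *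
      ‖((1 / k : ℝ) * ps k ξ - (1 / k1 : ℝ) * ps k1 ξ : ℂ)‖ₑ ^ 2 := by
  rw [← Pool.Agent.H153R4.plancherel (GG c N k k1) (GG_int c N k k1) (GG_mem c N k k1)]
  apply lintegral_congr
  intro ξ
  rw [four_GG c N hk hk1, enorm_mul, mul_pow]

/-- the three bounds for the multiplier -/
theorem mult_bd {k k1 : ℝ} (hk : 0 < k) (hkk : k ≤ k1) (ξ : ℝ) :
    ‖((1 / k : ℝ) * ps k ξ - (1 / k1 : ℝ) * ps k1 ξ : ℂ)‖ ≤ 2 ∧
    ‖((1 / k : ℝ) * ps k ξ - (1 / k1 : ℝ) * ps k1 ξ : ℂ)‖ ≤ 2 * |2 * Real.pi * ξ| * k1 ∧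
    (ξ ≠ 0 → ‖((1 / k : ℝ) * ps k ξ - (1 / k1 : ℝ) * ps k1 ξ : ℂ)‖ ≤ 4 / (k * |2 * Real.pi * ξ|)) := by
  have hk1 : 0 < k1 := lt_of_lt_of_le hk hkk
  have hn : ∀ k : ℝ, 0 < k → ‖((1 / k : ℝ) : ℂ)‖ = 1 / k := by
    intro k hk
    rw [Complex.norm_real, Real.norm_of_nonneg (by positivity)]
  have hπ : |2 * Real.pi * ξ| = 2 * Real.pi * |ξ| := by
    rw [abs_mul, abs_of_pos (by positivity)]
  refine ⟨?_, ?_, ?_⟩
  · refine (norm_sub_le _ _).trans ?_
    rw [norm_mul, norm_mul, hn k hk, hn k1 hk1]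
    have h1 : 1 / k * ‖ps k ξ‖ ≤ 1 / k * k := mul_le_mul_of_nonneg_left (ps_le hk.le ξ) (by positivity)
    have h2 : 1 / k1 * ‖ps k1 ξ‖ ≤ 1 / k1 * k1 :=
      mul_le_mul_of_nonneg_left (ps_le hk1.le ξ) (by positivity)
    rw [one_div_mul_cancel hk.ne'] at h1
    rw [one_div_mul_cancel hk1.ne'] at h2
    linarith
  · have e : ∀ k : ℝ, 0 < k → ‖((1 / k : ℝ) : ℂ) * ps k ξ - 1‖ ≤ 2 * Real.pi * |ξ| * k := by
      intro k hk
      have hkc : (k : ℂ) ≠ 0 := by exact_mod_cast hk.ne'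
      have e1 : ((1 / k : ℝ) : ℂ) * ps k ξ - 1 = ((1 / k : ℝ) : ℂ) * (ps k ξ - k) := by
        push_cast
        field_simp
      rw [e1, norm_mul, hn k hk]
      calc 1 / k * ‖ps k ξ - k‖ ≤ 1 / k * (2 * Real.pi * |ξ| * k * k) :=
            mul_le_mul_of_nonneg_left (ps_low hk.le ξ) (by positivity)
        _ = 2 * Real.pi * |ξ| * k := by field_simp
    have h1 := e k hk
    have h2 := e k1 hk1
    have e3 : ((1 / k : ℝ) * ps k ξ - (1 / k1 : ℝ) * ps k1 ξ : ℂ) =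
        (((1 / k : ℝ) : ℂ) * ps k ξ - 1) - (((1 / k1 : ℝ) : ℂ) * ps k1 ξ - 1) := by ring
    rw [e3, hπ]
    refine (norm_sub_le _ _).trans ?_
    have h3 : 2 * Real.pi * |ξ| * k ≤ 2 * Real.pi * |ξ| * k1 := by gcongr
    linarith
  · intro hξ
    have hpos : 0 < |2 * Real.pi * ξ| := by
      rw [hπ]
      have := Real.pi_pos
      positivity
    refine (norm_sub_le _ _).trans ?_
    rw [norm_mul, norm_mul, hn k hk, hn k1 hk1]
    have h1 : 1 / k * ‖ps k ξ‖ ≤ 1 / k * (2 / |2 * Real.pi * ξ|) :=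
      mul_le_mul_of_nonneg_left (ps_high hξ) (by positivity)
    have h2 : 1 / k1 * ‖ps k1 ξ‖ ≤ 1 / k * (2 / |2 * Real.pi * ξ|) := by
      apply mul_le_mul _ (ps_high hξ) (norm_nonneg _) (by positivity)
      exact one_div_le_one_div_of_le hk hkk
    have e : 4 / (k * |2 * Real.pi * ξ|) = 1 / k * (2 / |2 * Real.pi * ξ|) +
        1 / k * (2 / |2 * Real.pi * ξ|) := by
      field_simp
      norm_num
    rw [e]
    exact add_le_add h1 h2

theorem cont_Ac (c : ℕ → ℂ) (N : ℕ) : Continuous fun τ : ℝ => Ac c N τ := by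
  unfold Ac
  apply continuous_finsetSum
  intro n hn
  rw [mem_Icc] at hn
  apply Continuous.mul continuous_const
  unfold nt
  apply Continuous.const_cpow
  · fun_prop
  · left
    exact_mod_cast (by omega : n ≠ 0)

/-- one range of frequencies -/
theorem piece (c : ℕ → ℂ) (N : ℕ) {a b : ℝ} (hab : a ≤ b) :
    ∫⁻ ξ in Set.Icc (a / (2 * Real.pi)) (b / (2 * Real.pi)), ‖Ac c N (2 * Real.pi * ξ)‖ₑ ^ 2 ≤
      ENNReal.ofReal (∫ τ in a..b, ‖Ac c N τ‖ ^ 2) := by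
  have hπ := Real.pi_gt_three
  have hπ0 := Real.pi_pos
  have hab' : a / (2 * Real.pi) ≤ b / (2 * Real.pi) := div_le_div_of_nonneg_right hab (by positivity)
  have hcont : Continuous fun ξ : ℝ => ‖Ac c N (2 * Real.pi * ξ)‖ ^ 2 :=
    ((cont_Ac c N).comp (by fun_prop : Continuous fun ξ : ℝ => 2 * Real.pi * ξ)).norm.pow 2
  have e1 : ∀ ξ : ℝ, ‖Ac c N (2 * Real.pi * ξ)‖ₑ ^ 2 =
      ENNReal.ofReal (‖Ac c N (2 * Real.pi * ξ)‖ ^ 2) := by
    intro ξ
    rw [ENNReal.ofReal_pow (norm_nonneg _), ofReal_norm_eq_enorm]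
  simp_rw [e1]
  rw [← ofReal_integral_eq_lintegral_ofReal]
  · apply ENNReal.ofReal_le_ofReal
    rw [integral_Icc_eq_integral_Ioc, ← intervalIntegral.integral_of_le hab']
    have h1 := intervalIntegral.integral_comp_mul_left (a := a / (2 * Real.pi)) (b := b / (2 * Real.pi))
      (fun τ : ℝ => ‖Ac c N τ‖ ^ 2) (c := 2 * Real.pi) (by positivity)
    rw [h1, mul_div_cancel₀ _ (by positivity), mul_div_cancel₀ _ (by positivity), smul_eq_mul]
    have h2 : 0 ≤ ∫ τ in a..b, ‖Ac c N τ‖ ^ 2 :=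
      intervalIntegral.integral_nonneg hab fun _ _ => by positivity
    have h3 : (2 * Real.pi)⁻¹ ≤ 1 := inv_le_one_of_one_le₀ (by linarith)
    nlinarith
  · exact hcont.integrableOn_Icc
  · exact Eventually.of_forall fun ξ => by positivity

end Pool.Agent.K9h19.CR
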