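import Pool.Agent.K9h19.CR.WIN1

/-!
# Project CR, job WIN, second part: the frequencies
-/

set_option autoImplicit false

namespace Pool.Agent.K9h19.CR

open Finset Filter Topology MeasureTheory FourierTransform
open Pool.Agent.Q236.CR (nt)
open scoped ENNReal

/-- the integrand on the side of the frequencies -/
noncomputable def Fr (c : ℕ → ℂ) (N : ℕ) (k k1 ξ : ℝ) : ℝ≥0∞ :=
  ‖Ac c N (2 * Real.pi * ξ)‖ₑ ^ 2 * ‖((1 / k : ℝ) * ps k ξ - (1 / k1 : ℝ) * ps k1 ξ : ℂ)‖ₑ ^ 2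

theorem enorm_sq_le {z : ℂ} {w : ℝ} (h : ‖z‖ ≤ w) : ‖z‖ₑ ^ 2 ≤ ENNReal.ofReal (w ^ 2) := by
  have e1 : ‖z‖ₑ ^ 2 = ENNReal.ofReal (‖z‖ ^ 2) := by
    rw [ENNReal.ofReal_pow (norm_nonneg _), ofReal_norm_eq_enorm]
  rw [e1]
  apply ENNReal.ofReal_le_ofReal
  exact pow_le_pow_left₀ (norm_nonneg _) h 2

theorem range_bd (c : ℕ → ℂ) (N : ℕ) {k k1 a b w β : ℝ} (hab : a ≤ b)
    (hw : ∀ ξ ∈ Set.Icc (a / (2 * Real.pi)) (b / (2 * Real.pi)),
      ‖((1 / k : ℝ) * ps k ξ - (1 / k1 : ℝ) * ps k1 ξ : ℂ)‖ ≤ w)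
    (hβ : ∫ τ in a..b, ‖Ac c N τ‖ ^ 2 ≤ β) :
    ∫⁻ ξ in Set.Icc (a / (2 * Real.pi)) (b / (2 * Real.pi)), Fr c N k k1 ξ ≤
      ENNReal.ofReal (w ^ 2 * β) := by
  have h1 : ∫⁻ ξ in Set.Icc (a / (2 * Real.pi)) (b / (2 * Real.pi)), Fr c N k k1 ξ ≤
      ∫⁻ ξ in Set.Icc (a / (2 * Real.pi)) (b / (2 * Real.pi)),
        ENNReal.ofReal (w ^ 2) * ‖Ac c N (2 * Real.pi * ξ)‖ₑ ^ 2 := by
    apply setLIntegral_mono' measurableSet_Icc
    intro ξ hξ
    unfold Fr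
    rw [mul_comm]
    exact mul_le_mul_left (enorm_sq_le (hw ξ hξ)) _
  refine h1.trans ?_
  rw [lintegral_const_mul']
  · rw [ENNReal.ofReal_mul (by positivity)]
    apply mul_le_mul_right
    exact (piece c N hab).trans (ENNReal.ofReal_le_ofReal hβ)
  · exact ENNReal.ofReal_ne_top

theorem win (c : ℕ → ℂ) (N : ℕ) {k k1 T0 α β V H : ℝ} (hk : 0 < k) (hkk : k ≤ k1) (hT0 : 0 < T0)
    (J : ℕ) (hα : 0 ≤ α) (hβ0 : 0 ≤ β) (hV : 0 ≤ V) (hH : 0 ≤ H)
    (h0 : ∀ τ : ℝ, |τ| ≤ T0 → ‖Ac c N τ‖ ≤ α)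
    (h1 : ∀ j : ℕ, j < J → ∫ τ in (2 ^ j * T0)..(2 ^ (j + 1) * T0), ‖Ac c N τ‖ ^ 2 ≤ β ∧
      ∫ τ in (-(2 ^ (j + 1) * T0))..(-(2 ^ j * T0)), ‖Ac c N τ‖ ^ 2 ≤ β)
    (h2 : ∀ j : ℕ, J ≤ j → ∫ τ in (2 ^ j * T0)..(2 ^ (j + 1) * T0), ‖Ac c N τ‖ ^ 2 ≤
      (2 ^ j * T0 + H) * V ∧
      ∫ τ in (-(2 ^ (j + 1) * T0))..(-(2 ^ j * T0)), ‖Ac c N τ‖ ^ 2 ≤ (2 ^ j * T0 + H) * V) :
    ∫⁻ u, ‖GG c N k k1 u‖ₑ ^ 2 ≤ ENNReal.ofReal ((2 * T0 * k1) ^ 2 * (2 * T0 * α ^ 2) +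
      2 * (4 * J * β + 2 * (16 * V / k ^ 2 * (1 / (2 ^ J * T0) + H / (2 ^ J * T0) ^ 2)))) := by
  have hk1 : 0 < k1 := lt_of_lt_of_le hk hkk
  have hπ := Real.pi_pos
  have h2π : 0 < 2 * Real.pi := by positivity
  obtain ⟨Q, hQ⟩ : ∃ Q : ℝ, Q = 16 * V / k ^ 2 * (1 / (2 ^ J * T0) + H / (2 ^ J * T0) ^ 2) := ⟨_, rfl⟩
  have hQ0 : 0 ≤ Q := by rw [hQ]; positivity
  rw [← hQ]
  obtain ⟨a, ha⟩ : ∃ a : ℕ → ℝ, a = fun j => if j < J then 4 * β else Q * (1 / 2) ^ (j - J) := ⟨_, rfl⟩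
  have ha0 : ∀ j, 0 ≤ a j := by
    intro j
    rw [ha]
    simp only
    split_ifs <;> positivity
  have hgeo : Summable fun i : ℕ => Q * (1 / 2 : ℝ) ^ i :=
    (summable_geometric_of_lt_one (by norm_num) (by norm_num)).mul_left Q
  have hsh : (fun i : ℕ => a (i + J)) = fun i : ℕ => Q * (1 / 2 : ℝ) ^ i := by
    funext i
    rw [ha]
    simp
  have hasum : Summable a := by
    rw [← summable_nat_add_iff J, hsh]
    exact hgeo
  have hatot : ∑' j, a j = 4 * J * β + 2 * Q := by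
    rw [← hasum.sum_add_tsum_nat_add J, hsh, tsum_mul_left, tsum_geometric_two]
    have e : ∑ i ∈ range J, a i = 4 * J * β := by
      rw [Finset.sum_congr rfl (g := fun _ => 4 * β), Finset.sum_const, card_range, nsmul_eq_mul]
      · ring
      · intro i hi
        rw [mem_range] at hi
        rw [ha]
        simp only
        rw [if_pos hi]
    rw [e]
    ring
  -- multiplier times mean square
  have hlow : ∀ ξ : ℝ, ‖((1 / k : ℝ) * ps k ξ - (1 / k1 : ℝ) * ps k1 ξ : ℂ)‖ ≤ 2 :=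
    fun ξ => (mult_bd hk hkk ξ).1
  have hr : ∀ j : ℕ, ∃ w b : ℝ, w ^ 2 * b ≤ a j ∧
      (∀ ξ : ℝ, 2 ^ j * T0 ≤ |2 * Real.pi * ξ| →
        ‖((1 / k : ℝ) * ps k ξ - (1 / k1 : ℝ) * ps k1 ξ : ℂ)‖ ≤ w) ∧
      ∫ τ in (2 ^ j * T0)..(2 ^ (j + 1) * T0), ‖Ac c N τ‖ ^ 2 ≤ b ∧
      ∫ τ in (-(2 ^ (j + 1) * T0))..(-(2 ^ j * T0)), ‖Ac c N τ‖ ^ 2 ≤ b := by
    intro j
    rcases lt_or_ge j J with hj | hj
    · refine ⟨2, β, ?_, fun ξ _ => hlow ξ, (h1 j hj).1, (h1 j hj).2⟩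
      rw [ha]
      simp only
      rw [if_pos hj]
      norm_num
    · refine ⟨4 / (k * (2 ^ j * T0)), (2 ^ j * T0 + H) * V, ?_, ?_, (h2 j hj).1, (h2 j hj).2⟩
      · rw [ha]
        simp only
        rw [if_neg (by omega), hQ]
        obtain ⟨i, hi⟩ : ∃ i, j = J + i := ⟨j - J, by omega⟩
        rw [hi, add_tsub_cancel_left, pow_add]
        obtain ⟨t, ht⟩ : ∃ t : ℝ, t = 2 ^ J * T0 := ⟨_, rfl⟩
        obtain ⟨s, hs⟩ : ∃ s : ℝ, s = 2 ^ i := ⟨_, rfl⟩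
        have hs1 : 1 ≤ s := by rw [hs]; exact one_le_pow₀ (by norm_num)
        have ht0 : 0 < t := by rw [ht]; positivity
        have hs0 : 0 < s := by linarith
        have e1 : (2 : ℝ) ^ J * 2 ^ i * T0 = t * s := by rw [ht, hs]; ring
        have e2 : (1 / 2 : ℝ) ^ i = 1 / s := by rw [hs, div_pow, one_pow]
        rw [e1, e2, ← ht]
        have e3 : (4 / (k * (t * s))) ^ 2 * ((t * s + H) * V) =
            16 * V / k ^ 2 * (1 / t + H / t ^ 2 * (1 / s)) * (1 / s) := by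
          field_simp
          ring
        rw [e3]
        gcongr
        have h5 : 0 ≤ H / t ^ 2 := by positivity
        calc H / t ^ 2 * (1 / s) ≤ H / t ^ 2 * 1 := by
              apply mul_le_mul_of_nonneg_left _ h5
              rw [div_le_one hs0]
              exact hs1
          _ = H / t ^ 2 := mul_one _
      · intro ξ hξ
        have hpos : 0 < 2 ^ j * T0 := by positivity
        have hξ0 : ξ ≠ 0 := by
          rintro rfl
          simp at hξ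
          linarith
        refine ((mult_bd hk hkk ξ).2.2 hξ0).trans ?_
        apply div_le_div_of_nonneg_left (by norm_num) (by positivity)
        exact mul_le_mul_of_nonneg_left hξ hk.le
  choose w b hwb hw hb1 hb2 using hr
  -- the three ranges
  have hmid : ∫⁻ ξ in Set.Icc (-T0 / (2 * Real.pi)) (T0 / (2 * Real.pi)), Fr c N k k1 ξ ≤
      ENNReal.ofReal ((2 * T0 * k1) ^ 2 * (2 * T0 * α ^ 2)) := by
    apply range_bd c N (by linarith)
    · intro ξ hξ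
      have h3 : |2 * Real.pi * ξ| ≤ T0 := by
        rw [Set.mem_Icc, div_le_iff₀ h2π, le_div_iff₀ h2π] at hξ
        rw [abs_le]
        constructor <;> linarith
      refine ((mult_bd hk hkk ξ).2.1).trans ?_
      gcongr
    · have h3 : ∫ τ in (-T0)..T0, ‖Ac c N τ‖ ^ 2 ≤ ∫ τ in (-T0)..T0, α ^ 2 := by
        apply intervalIntegral.integral_mono_on (by linarith)
        · exact ((cont_Ac c N).norm.pow 2).intervalIntegrable _ _
        · exact intervalIntegrable_const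
        · intro τ hτ
          apply pow_le_pow_left₀ (norm_nonneg _)
          apply h0
          rw [abs_le]
          exact hτ
      refine h3.trans (le_of_eq ?_)
      rw [intervalIntegral.integral_const, smul_eq_mul]
      ring
  have hplus : ∀ j : ℕ, ∫⁻ ξ in Set.Icc (2 ^ j * T0 / (2 * Real.pi)) (2 ^ (j + 1) * T0 / (2 * Real.pi)),
      Fr c N k k1 ξ ≤ ENNReal.ofReal (a j) := by
    intro j
    refine le_trans (range_bd c N (w := w j) (β := b j) ?_ ?_ (hb1 j))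
      (ENNReal.ofReal_le_ofReal (hwb j))
    · rw [pow_succ]
      have : 0 < 2 ^ j * T0 := by positivity
      linarith
    · intro ξ hξ
      apply hw j ξ
      rw [Set.mem_Icc, div_le_iff₀ h2π] at hξ
      refine le_trans ?_ (le_abs_self _)
      linarith [hξ.1]
  have hminus : ∀ j : ℕ, ∫⁻ ξ in Set.Icc (-(2 ^ (j + 1) * T0) / (2 * Real.pi))
      (-(2 ^ j * T0) / (2 * Real.pi)), Fr c N k k1 ξ ≤ ENNReal.ofReal (a j) := by
    intro j
    refine le_trans (range_bd c N (w := w j) (β := b j) ?_ ?_ (hb2 j))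
      (ENNReal.ofReal_le_ofReal (hwb j))
    · rw [pow_succ]
      have : 0 < 2 ^ j * T0 := by positivity
      linarith
    · intro ξ hξ
      apply hw j ξ
      rw [Set.mem_Icc, le_div_iff₀ h2π] at hξ
      refine le_trans ?_ (neg_le_abs _)
      linarith [hξ.2]
  -- the covering
  have hcov : (Set.univ : Set ℝ) ⊆ (Set.Icc (-T0 / (2 * Real.pi)) (T0 / (2 * Real.pi)) ∪
      ⋃ j : ℕ, Set.Icc (2 ^ j * T0 / (2 * Real.pi)) (2 ^ (j + 1) * T0 / (2 * Real.pi))) ∪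
      ⋃ j : ℕ, Set.Icc (-(2 ^ (j + 1) * T0) / (2 * Real.pi)) (-(2 ^ j * T0) / (2 * Real.pi)) := by
    intro ξ _
    have key : ∀ s : ℝ, T0 ≤ s → ∃ j : ℕ, 2 ^ j * T0 ≤ s ∧ s ≤ 2 ^ (j + 1) * T0 := by
      intro s hs
      have h3 : 1 ≤ s / T0 := by rw [le_div_iff₀ hT0]; linarith
      obtain ⟨j, hj1, hj2⟩ := exists_nat_pow_near h3 (by norm_num : (1 : ℝ) < 2)
      rw [le_div_iff₀ hT0] at hj1
      rw [div_lt_iff₀ hT0] at hj2
      exact ⟨j, hj1, hj2.le⟩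
    rcases le_or_gt |2 * Real.pi * ξ| T0 with h3 | h3
    · left; left
      rw [abs_le] at h3
      rw [Set.mem_Icc, div_le_iff₀ h2π, le_div_iff₀ h2π]
      constructor <;> linarith [h3.1, h3.2]
    · rcases lt_abs.1 h3 with h4 | h4
      · left; right
        obtain ⟨j, hj1, hj2⟩ := key _ h4.le
        rw [Set.mem_iUnion]
        refine ⟨j, ?_⟩
        rw [Set.mem_Icc, div_le_iff₀ h2π, le_div_iff₀ h2π]
        constructor <;> linarith
      · right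
        obtain ⟨j, hj1, hj2⟩ := key _ h4.le
        rw [Set.mem_iUnion]
        refine ⟨j, ?_⟩
        rw [Set.mem_Icc, div_le_iff₀ h2π, le_div_iff₀ h2π]
        constructor <;> linarith
  rw [plw c N hk.le hk1.le]
  have e : ∫⁻ ξ : ℝ, ‖Ac c N (2 * Real.pi * ξ)‖ₑ ^ 2 *
      ‖((1 / k : ℝ) * ps k ξ - (1 / k1 : ℝ) * ps k1 ξ : ℂ)‖ₑ ^ 2 =
      ∫⁻ ξ in Set.univ, Fr c N k k1 ξ := by
    rw [Measure.restrict_univ]
    rfl
  rw [e]
  refine (lintegral_mono_set hcov).trans ?_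
  refine (lintegral_union_le _ _ _).trans ?_
  have htot : ENNReal.ofReal ((2 * T0 * k1) ^ 2 * (2 * T0 * α ^ 2) + 2 * (4 * J * β + 2 * Q)) =
      (ENNReal.ofReal ((2 * T0 * k1) ^ 2 * (2 * T0 * α ^ 2)) + ENNReal.ofReal (∑' j, a j)) +
        ENNReal.ofReal (∑' j, a j) := by
    rw [hatot, ← ENNReal.ofReal_add (by positivity) (by positivity),
      ← ENNReal.ofReal_add (by positivity) (by positivity)]
    congr 1
    ring
  rw [htot, ENNReal.ofReal_tsum_of_nonneg ha0 hasum]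
  apply add_le_add
  · refine (lintegral_union_le _ _ _).trans ?_
    apply add_le_add hmid
    refine (lintegral_iUnion_le _ _).trans ?_
    exact ENNReal.tsum_le_tsum hplus
  · refine (lintegral_iUnion_le _ _).trans ?_
    exact ENNReal.tsum_le_tsum hminus

end Pool.Agent.K9h19.CR
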