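import Pool.Agent.K9h19.CR.WIN2
import Pool.Agent.K9h19.CR.DP3

/-!
# Project CR, job WIN, third part: short windows against long windows
-/

set_option autoImplicit false

namespace Pool.Agent.K9h19.CR

open Finset Filter Topology MeasureTheory FourierTransform
open Pool.Agent.Q236.CR
open Pool.Agent.Q53.CR (norm_nt)
open scoped ENNReal

/-- the coefficients with a character -/
noncomputable def ca {q : ℕ} (χ : DirichletCharacter ℂ q) (z D x n : ℕ) : ℂ :=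
  ((ax z D x n : ℝ) : ℂ) * χ (n : ZMod q)

theorem ca_Ax {q : ℕ} (χ : DirichletCharacter ℂ q) (z D x : ℕ) (τ : ℝ) :
    Ac (ca χ z D x) (256 * x) τ = Ax (gt χ τ) z D x := by
  unfold Ac Ax ca gt
  apply Finset.sum_congr rfl
  intro n _
  ring

theorem ax_bd (z D x n : ℕ) (hD : 1 ≤ D) :
    |ax z D x n| ≤ 7 * (D : ℝ) ^ 12 * (n.divisors.card : ℝ) ^ 6 := by
  have hD1 : (1 : ℝ) ≤ D := by exact_mod_cast hD
  have h1 : ∀ j : Fin 3, ∀ p ∈ PP D x, |tp z j p n| ≤ (D * (n.divisors.card : ℝ)) ^ 6 := by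
    intro j p hp
    unfold PP at hp
    rw [mem_filter, Fintype.mem_piFinset] at hp
    have h2 : ∀ i, p i < D := fun i => mem_range.1 (hp.1 i)
    have h3 := prod_bd (univ : Finset (Fin 6)) (fun i => pc (fac z (ty j i)) (p i)) (W := D)
      (by linarith) (fun i m => pc_bd (ty j i) (h2 i) m) n
    simp only [card_univ, Fintype.card_fin] at h3
    exact h3
  have h2 : ∀ j : Fin 3, |∑ p ∈ PP D x, tp z j p n| ≤
      (D : ℝ) ^ 6 * (D * (n.divisors.card : ℝ)) ^ 6 := by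
    intro j
    refine (abs_sum_le_sum_abs _ _).trans ((Finset.sum_le_sum (h1 j)).trans ?_)
    rw [Finset.sum_const, nsmul_eq_mul]
    apply mul_le_mul_of_nonneg_right _ (by positivity)
    exact_mod_cast card_PP D x
  unfold ax
  rw [Fin.sum_univ_three]
  have h3 := h2 0
  have h4 := h2 1
  have h5 := h2 2
  have c0 : cj 0 = 3 := rfl
  have c1 : cj 1 = -3 := rfl
  have c2 : cj 2 = 1 := rfl
  rw [c0, c1, c2]
  have e : 7 * (D : ℝ) ^ 12 * (n.divisors.card : ℝ) ^ 6 =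
      7 * ((D : ℝ) ^ 6 * (D * (n.divisors.card : ℝ)) ^ 6) := by ring
  rw [e]
  rw [abs_le] at h3 h4 h5 ⊢
  constructor <;> linarith [h3.1, h3.2, h4.1, h4.2, h5.1, h5.2]

theorem ca_bd {q : ℕ} (χ : DirichletCharacter ℂ q) (z D x n : ℕ) (hD : 1 ≤ D) :
    ‖ca χ z D x n‖ ≤ 7 * (D : ℝ) ^ 12 * (n.divisors.card : ℝ) ^ 6 := by
  unfold ca
  rw [norm_mul, Complex.norm_real, Real.norm_eq_abs]
  calc |ax z D x n| * ‖χ (n : ZMod q)‖ ≤ |ax z D x n| * 1 :=
        mul_le_mul_of_nonneg_left (χ.norm_le_one _) (abs_nonneg _)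
    _ ≤ _ := by
        rw [mul_one]
        exact ax_bd z D x n hD

/-- sizes of the sums of the coefficients -/
theorem ca_sums : ∃ C X₀ : ℕ, ∀ x : ℕ, X₀ ≤ x → ∀ (q : ℕ) (χ : DirichletCharacter ℂ q) (z D : ℕ),
    1 ≤ D → (D : ℝ) ≤ 3 * Real.log x →
    ∑ n ∈ Icc 1 (256 * x), ‖ca χ z D x n‖ ≤ x * Real.log x ^ C ∧
    ∑ n ∈ Icc 1 (256 * x), ‖ca χ z D x n‖ ^ 2 ≤ x * Real.log x ^ C ∧
    1 + Real.log ((256 * x : ℕ) : ℝ) ≤ 8 * Real.log x := by
  obtain ⟨e1, he1⟩ : ∃ e1 : ℕ, e1 = 2 ^ 6 := ⟨_, rfl⟩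
  obtain ⟨e2, he2⟩ : ∃ e2 : ℕ, e2 = 2 ^ 12 := ⟨_, rfl⟩
  obtain ⟨c1, hc1⟩ : ∃ c1 : ℝ, c1 = 7 * 3 ^ 12 * 256 * 8 ^ e1 := ⟨_, rfl⟩
  obtain ⟨c2, hc2⟩ : ∃ c2 : ℝ, c2 = 49 * 3 ^ 24 * 256 * 8 ^ e2 := ⟨_, rfl⟩
  obtain ⟨X₂, hX₂⟩ := ev_natlog (P := fun l => c1 ≤ l ∧ c2 ≤ l ∧ 3 ≤ l) (by
    filter_upwards [eventually_ge_atTop c1, eventually_ge_atTop c2,
      eventually_ge_atTop 3] with l h3 h4 h5
    exact ⟨h3, h4, h5⟩)
  refine ⟨1 + 24 + e1 + e2, max X₂ 3, ?_⟩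
  intro x hx q χ z D hD1 hD
  obtain ⟨g1, g2, g3⟩ := hX₂ x ((le_max_left _ _).trans hx)
  have hx3 : 3 ≤ x := (le_max_right _ _).trans hx
  have hx0 : (0 : ℝ) < x := by exact_mod_cast (by omega : 0 < x)
  obtain ⟨l, hl⟩ : ∃ l : ℝ, l = Real.log x := ⟨_, rfl⟩
  rw [← hl] at g1 g2 g3 hD ⊢
  have hl0 : 0 < l := by linarith
  have hl1 : 1 ≤ l := by linarith
  have hlogN : 1 + Real.log ((256 * x : ℕ) : ℝ) ≤ 8 * l := by
    have h1 : Real.log ((256 * x : ℕ) : ℝ) = Real.log 256 + l := by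
      push_cast
      rw [Real.log_mul (by norm_num) hx0.ne', ← hl]
    have h6 : Real.log 256 = 8 * Real.log 2 := by
      rw [show (256 : ℝ) = 2 ^ 8 by norm_num, Real.log_pow]
      norm_num
    have := Real.log_two_lt_d9
    linarith
  have hlogN0 : 0 ≤ Real.log ((256 * x : ℕ) : ℝ) := Real.log_natCast_nonneg _
  have hN1 : 1 ≤ 256 * x := by omega
  refine ⟨?_, ?_, hlogN⟩
  · calc ∑ n ∈ Icc 1 (256 * x), ‖ca χ z D x n‖ ≤
        ∑ n ∈ Icc 1 (256 * x), 7 * (D : ℝ) ^ 12 * (n.divisors.card : ℝ) ^ 6 :=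
          Finset.sum_le_sum fun n _ => ca_bd χ z D x n hD1
      _ = 7 * (D : ℝ) ^ 12 * ∑ n ∈ Icc 1 (256 * x), (n.divisors.card : ℝ) ^ 6 := by
          rw [Finset.mul_sum]
      _ ≤ 7 * (D : ℝ) ^ 12 * (((256 * x : ℕ) : ℝ) * (1 + Real.log ((256 * x : ℕ) : ℝ)) ^ e1) := by
          apply mul_le_mul_of_nonneg_left _ (by positivity)
          rw [he1]
          exact div_sum 6 (256 * x) hN1
      _ ≤ 7 * (3 * l) ^ 12 * (((256 * x : ℕ) : ℝ) * (8 * l) ^ e1) := by gcongr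
      _ = c1 * (x * l ^ (12 + e1)) := by
          rw [hc1]
          push_cast
          rw [mul_pow, mul_pow, pow_add]
          ring
      _ ≤ l * (x * l ^ (12 + e1)) := mul_le_mul_of_nonneg_right g1 (by positivity)
      _ = x * l ^ (1 + 12 + e1) := by
          rw [add_assoc 1 12 e1, pow_add l 1, pow_one]
          ring
      _ ≤ x * l ^ (1 + 24 + e1 + e2) := by
          apply mul_le_mul_of_nonneg_left _ hx0.le
          exact pow_le_pow_right₀ hl1 (by omega)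
  · calc ∑ n ∈ Icc 1 (256 * x), ‖ca χ z D x n‖ ^ 2 ≤
        ∑ n ∈ Icc 1 (256 * x), 49 * (D : ℝ) ^ 24 * (n.divisors.card : ℝ) ^ 12 := by
          apply Finset.sum_le_sum
          intro n _
          refine (pow_le_pow_left₀ (norm_nonneg _) (ca_bd χ z D x n hD1) 2).trans (le_of_eq ?_)
          ring
      _ = 49 * (D : ℝ) ^ 24 * ∑ n ∈ Icc 1 (256 * x), (n.divisors.card : ℝ) ^ 12 := by
          rw [Finset.mul_sum]
      _ ≤ 49 * (D : ℝ) ^ 24 * (((256 * x : ℕ) : ℝ) * (1 + Real.log ((256 * x : ℕ) : ℝ)) ^ e2) := by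
          apply mul_le_mul_of_nonneg_left _ (by positivity)
          rw [he2]
          exact div_sum 12 (256 * x) hN1
      _ ≤ 49 * (3 * l) ^ 24 * (((256 * x : ℕ) : ℝ) * (8 * l) ^ e2) := by gcongr
      _ = c2 * (x * l ^ (24 + e2)) := by
          rw [hc2]
          push_cast
          rw [mul_pow, mul_pow, pow_add]
          ring
      _ ≤ l * (x * l ^ (24 + e2)) := mul_le_mul_of_nonneg_right g2 (by positivity)
      _ = x * l ^ (1 + 24 + e2) := by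
          rw [add_assoc 1 24 e2, pow_add l 1, pow_one]
          ring
      _ ≤ x * l ^ (1 + 24 + e1 + e2) := by
          apply mul_le_mul_of_nonneg_left _ hx0.le
          exact pow_le_pow_right₀ hl1 (by omega)

theorem Ac_mv (c : ℕ → ℂ) (N : ℕ) {a b : ℝ} (hab : a ≤ b) :
    ∫ τ in a..b, ‖Ac c N τ‖ ^ 2 ≤ (b - a + 8 * N * (1 + Real.log N)) * ∑ n ∈ Icc 1 N, ‖c n‖ ^ 2 :=
  H370.mean_value c N a b hab

theorem gwin (hc : S_CHR) (hm : S_MOC) : ∀ B U : ℕ, ∃ Cm X₀ : ℕ, ∀ x : ℕ, X₀ ≤ x →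
    ∀ (q : ℕ) (_ : NeZero q), (q : ℝ) ≤ Real.log x ^ B → ∀ (χ : DirichletCharacter ℂ q) (z D : ℕ),
    (z : ℝ) ≤ 2 * (x : ℝ) ^ (1 / 3 : ℝ) → 1 ≤ D → (D : ℝ) ≤ 3 * Real.log x → ∀ k k1 : ℝ, 0 < k →
    Real.log x ^ Cm ≤ k * ((x : ℝ) ^ (1 / 3 : ℝ)) ^ 2 → k ≤ k1 → k1 * Real.log x ^ Cm ≤ 1 →
    ∀ a b : ℝ, a ≤ b →
    ∫ u in a..b, ‖GG (ca χ z D x) (256 * x) k k1 u‖ ^ 2 ≤ (x : ℝ) ^ 2 / Real.log x ^ U := by
  intro B U
  obtain ⟨C₀, X₁, hdpl⟩ := dpl hc hm B (U + 3)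
  obtain ⟨C₁, X₂, hsums⟩ := ca_sums
  obtain ⟨X₃, hX₃⟩ := ev_natlog (P := fun l => 2 ^ 30 ≤ l ∧ l ^ (2 * C₀) ≤ Real.exp (2 / 3 * l)) (by
    filter_upwards [eventually_ge_atTop (2 ^ 30), ev_exp (2 / 3) 1 (2 * C₀) (by norm_num)] with l h3 h4
    rw [one_mul] at h4
    exact ⟨h3, h4⟩)
  refine ⟨2 * C₀ + C₁ + U + 2, max (max X₁ X₂) (max X₃ 3), ?_⟩
  intro x hx q hq hqx χ z D hz hD1 hD k k1 hk hkx hkk hk1 a b hab
  have hdpl' := hdpl x ((le_max_left _ _).trans ((le_max_left _ _).trans hx)) q hq hqx χ z D hz hD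
  obtain ⟨hs1, hs2, hlogN⟩ := hsums x ((le_max_right _ _).trans ((le_max_left _ _).trans hx)) q χ z D
    hD1 hD
  obtain ⟨g1, g2⟩ := hX₃ x ((le_max_left _ _).trans ((le_max_right _ _).trans hx))
  have hx3 : 3 ≤ x := (le_max_right _ _).trans ((le_max_right _ _).trans hx)
  have hx3r : (3 : ℝ) ≤ x := by exact_mod_cast hx3
  have hx0 : (0 : ℝ) < x := by linarith
  obtain ⟨l, hl⟩ : ∃ l : ℝ, l = Real.log x := ⟨_, rfl⟩
  obtain ⟨y, hy⟩ : ∃ y : ℝ, y = (x : ℝ) ^ (1 / 3 : ℝ) := ⟨_, rfl⟩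
  rw [← hl] at g1 g2 hD hkx hk1 hdpl' hs1 hs2 hlogN ⊢
  rw [← hy] at hkx hdpl'
  have hl0 : 0 < l := by
    have : (0 : ℝ) < 2 ^ 30 := by norm_num
    linarith
  have hl1 : 1 ≤ l := by
    have : (1 : ℝ) ≤ 2 ^ 30 := by norm_num
    linarith
  have hy0 : 0 < y := by rw [hy]; positivity
  have hy2 : y ^ 2 = Real.exp (2 / 3 * l) := by
    rw [hy, hl, ← Real.rpow_natCast, ← Real.rpow_mul hx0.le, Real.rpow_def_of_pos hx0]
    congr 1
    norm_num
    ring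
  have hy3 : (x : ℝ) = y ^ 3 := by
    rw [hy, ← Real.rpow_natCast, ← Real.rpow_mul hx0.le]
    norm_num
  have hy1 : 1 ≤ y := by
    have h1 : (1 : ℝ) ≤ y ^ 3 := by rw [← hy3]; linarith
    by_contra hcon
    push Not at hcon
    have : y ^ 3 < 1 := pow_lt_one₀ hy0.le hcon (by norm_num)
    linarith
  have hy2x : y ^ 2 ≤ x := by
    rw [hy3]
    calc y ^ 2 = 1 * y ^ 2 := (one_mul _).symm
      _ ≤ y * y ^ 2 := by gcongr
      _ = y ^ 3 := by ring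
  obtain ⟨T0, hT0⟩ : ∃ T0 : ℝ, T0 = l ^ C₀ := ⟨_, rfl⟩
  rw [← hT0] at hdpl'
  have hT00 : 0 < T0 := by rw [hT0]; positivity
  have hT01 : 1 ≤ T0 := by rw [hT0]; exact one_le_pow₀ hl1
  have hr1 : 1 ≤ y ^ 2 / (T0 * T0) := by
    rw [le_div_iff₀ (by positivity), one_mul, hy2, hT0, ← pow_add]
    rw [two_mul] at g2
    exact g2
  obtain ⟨J0, hJ1, hJ2⟩ := exists_nat_pow_near hr1 (by norm_num : (1 : ℝ) < 2)
  rw [le_div_iff₀ (by positivity)] at hJ1
  rw [div_lt_iff₀ (by positivity)] at hJ2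
  have hk10 : 0 < k1 := lt_of_lt_of_le hk hkk
  obtain ⟨T1, hT1⟩ : ∃ T1 : ℝ, T1 = 2 ^ (J0 + 1) * T0 := ⟨_, rfl⟩
  have hT10 : 0 < T1 := by rw [hT1]; positivity
  have hT1a : y ^ 2 ≤ T1 * T0 := by
    rw [hT1]
    linarith
  have hT1b : T1 ≤ 2 * x := by
    have h1 : 2 ^ J0 * (T0 * 1) ≤ 2 ^ J0 * (T0 * T0) := by gcongr
    rw [hT1, pow_succ]
    linarith
  have hJl : ((J0 + 1 : ℕ) : ℝ) ≤ 3 * l := by
    have h1 : (2 : ℝ) ^ J0 ≤ x := by
      have h2 : (1 : ℝ) ≤ T0 * T0 := one_le_mul_of_one_le_of_one_le hT01 hT01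
      have h3 : (2 : ℝ) ^ J0 * 1 ≤ 2 ^ J0 * (T0 * T0) := by gcongr
      linarith
    have h2 : (J0 : ℝ) * Real.log 2 ≤ l := by
      rw [hl, ← Real.log_pow]
      exact Real.log_le_log (by positivity) h1
    have h3 := Real.log_two_gt_d9
    have h4 : (0 : ℝ) ≤ J0 := Nat.cast_nonneg J0
    push_cast
    have h5 : (J0 : ℝ) * (1 / 2) ≤ J0 * Real.log 2 := by gcongr; linarith
    linarith
  obtain ⟨V, hV⟩ : ∃ V : ℝ, V = x * l ^ C₁ := ⟨_, rfl⟩
  have hV0 : 0 ≤ V := by rw [hV]; positivity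
  rw [← hV] at hs1 hs2
  obtain ⟨H, hH⟩ : ∃ H : ℝ, H = 8 * (256 * x) * (8 * l) := ⟨_, rfl⟩
  have hH0 : 0 ≤ H := by rw [hH]; positivity
  obtain ⟨β, hβ⟩ : ∃ β : ℝ, β = x ^ 2 / l ^ (U + 3) := ⟨_, rfl⟩
  have hβ0 : 0 ≤ β := by rw [hβ]; positivity
  rw [← hβ] at hdpl'
  have hlen : ∀ j : ℕ, (2 : ℝ) ^ (j + 1) * T0 - 2 ^ j * T0 = 2 ^ j * T0 := by
    intro j
    rw [pow_succ]
    ring
  have hpw0 : ∀ j : ℕ, 0 < (2 : ℝ) ^ j * T0 := fun j => by positivity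
  have hw := win (ca χ z D x) (256 * x) (k := k) (k1 := k1) (T0 := T0) (α := V) (β := β) (V := V)
    (H := H) hk hkk hT00 (J0 + 1) hV0 hβ0 hV0 hH0 ?_ ?_ ?_
  · -- conclusion
    have hint : Integrable fun u => ‖GG (ca χ z D x) (256 * x) k k1 u‖ ^ 2 :=
      (memLp_two_iff_integrable_sq_norm (GG_int _ _ _ _).aestronglyMeasurable).1 (GG_mem _ _ _ _)
    rw [← hT1] at hw
    have h1 : ENNReal.ofReal (∫ u in a..b, ‖GG (ca χ z D x) (256 * x) k k1 u‖ ^ 2) ≤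
        ∫⁻ u, ‖GG (ca χ z D x) (256 * x) k k1 u‖ₑ ^ 2 := by
      rw [intervalIntegral.integral_of_le hab, ofReal_integral_eq_lintegral_ofReal hint.integrableOn
        (Eventually.of_forall fun u => by positivity)]
      refine (setLIntegral_le_lintegral _ _).trans (le_of_eq ?_)
      apply lintegral_congr
      intro u
      rw [ENNReal.ofReal_pow (norm_nonneg _), ofReal_norm_eq_enorm]
    have h2 := h1.trans hw
    rw [ENNReal.ofReal_le_ofReal_iff (by positivity)] at h2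
    refine h2.trans ?_
    -- the final estimate
    have hCm : l ^ (2 * C₀ + C₁ + U + 2) = T0 * T0 * l ^ C₁ * l ^ (U + 2) := by
      rw [hT0]
      ring
    rw [hCm] at hkx hk1
    obtain ⟨W, hW⟩ : ∃ W : ℝ, W = l ^ (U + 2) := ⟨_, rfl⟩
    obtain ⟨P, hP⟩ : ∃ P : ℝ, P = l ^ C₁ := ⟨_, rfl⟩
    rw [← hW, ← hP] at hkx hk1
    have hW1 : 1 ≤ W := by rw [hW]; exact one_le_pow₀ hl1
    have hP1 : 1 ≤ P := by rw [hP]; exact one_le_pow₀ hl1
    have hW0 : 0 < W := by linarith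
    have hP0 : 0 < P := by linarith
    have hVP : V = x * P := by rw [hV, hP]
    have hWl : x ^ 2 / l ^ U = l ^ 2 * (x ^ 2 / W) := by
      rw [hW, pow_add]
      field_simp
    have b1 : (2 * T0 * k1) ^ 2 * (2 * T0 * V ^ 2) ≤ 8 * (x ^ 2 / W) := by
      rw [mul_div_assoc', le_div_iff₀ hW0, hVP]
      have h3 : (k1 * (T0 * T0 * P * W)) ^ 2 ≤ 1 := pow_le_one₀ (by positivity) hk1
      calc (2 * T0 * k1) ^ 2 * (2 * T0 * (x * P) ^ 2) * W =
          8 * x ^ 2 * (k1 ^ 2 * T0 ^ 3 * P ^ 2 * W) := by ring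
        _ ≤ 8 * x ^ 2 * (k1 ^ 2 * (T0 ^ 3 * T0) * P ^ 2 * (W * W)) := by
            apply mul_le_mul_of_nonneg_left _ (by positivity)
            apply mul_le_mul _ _ (by positivity) (by positivity)
            · apply mul_le_mul_of_nonneg_right _ (by positivity)
              apply mul_le_mul_of_nonneg_left _ (by positivity)
              exact le_mul_of_one_le_right (by positivity) hT01
            · exact le_mul_of_one_le_right (by positivity) hW1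
        _ = 8 * x ^ 2 * (k1 * (T0 * T0 * P * W)) ^ 2 := by ring
        _ ≤ 8 * x ^ 2 * 1 := by gcongr
        _ = 8 * x ^ 2 := mul_one _
    have b2 : 4 * ((J0 + 1 : ℕ) : ℝ) * β ≤ 12 * (x ^ 2 / W) := by
      have e : 12 * (x ^ 2 / W) = 4 * (3 * l) * (x ^ 2 / l ^ (U + 3)) := by
        rw [hW, show U + 3 = (U + 2) + 1 by omega, pow_succ l (U + 2)]
        field_simp
        norm_num
      rw [e, hβ]
      gcongr
    have b3 : 16 * V / k ^ 2 * (1 / T1 + H / T1 ^ 2) ≤ 2 ^ 20 * l * (x ^ 2 / W) := by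
      have e : 16 * V / k ^ 2 * (1 / T1 + H / T1 ^ 2) = 16 * V * (T1 + H) / (k * T1) ^ 2 := by
        field_simp
      have h3 : T0 * P * W ≤ k * T1 := by
        have h4 : T0 * T0 * P * W ≤ (k * T1) * T0 := by
          calc T0 * T0 * P * W ≤ k * y ^ 2 := hkx
            _ ≤ k * (T1 * T0) := by gcongr
            _ = (k * T1) * T0 := by ring
        have h5 : T0 * P * W * T0 ≤ (k * T1) * T0 := by
          calc T0 * P * W * T0 = T0 * T0 * P * W := by ring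
            _ ≤ _ := h4
        exact le_of_mul_le_mul_right h5 hT00
      have h4 : T1 + H ≤ 2 ^ 16 * (x * l) := by
        rw [hH]
        have : (x : ℝ) * 1 ≤ x * l := by gcongr
        nlinarith
      rw [e, div_le_iff₀ (by positivity)]
      have h5 : P * W ≤ (k * T1) ^ 2 := by
        calc P * W = (1 * P * W) * 1 := by ring
          _ ≤ (T0 * P * W) * (T0 * P * W) := by
              apply mul_le_mul _ _ zero_le_one (by positivity)
              · gcongr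
              · exact one_le_mul_of_one_le_of_one_le (one_le_mul_of_one_le_of_one_le hT01 hP1) hW1
          _ = (T0 * P * W) ^ 2 := by ring
          _ ≤ (k * T1) ^ 2 := by gcongr
      calc 16 * V * (T1 + H) ≤ 16 * V * (2 ^ 16 * (x * l)) := by gcongr
        _ = 2 ^ 20 * l * (x ^ 2 / W) * (P * W) := by
            rw [hVP]
            field_simp
            norm_num
        _ ≤ 2 ^ 20 * l * (x ^ 2 / W) * (k * T1) ^ 2 := by gcongr
    have b4 : (8 + 2 * (12 + 2 * (2 ^ 20 * l))) ≤ l ^ 2 := by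
      have : (2 : ℝ) ^ 30 * l ≤ l ^ 2 := by rw [sq]; gcongr
      nlinarith
    rw [hWl]
    calc _ ≤ 8 * (x ^ 2 / W) + 2 * (12 * (x ^ 2 / W) + 2 * (2 ^ 20 * l * (x ^ 2 / W))) := by
          apply add_le_add b1
          linarith
      _ = (8 + 2 * (12 + 2 * (2 ^ 20 * l))) * (x ^ 2 / W) := by ring
      _ ≤ l ^ 2 * (x ^ 2 / W) := mul_le_mul_of_nonneg_right b4 (by positivity)
  · intro τ _
    unfold Ac
    refine (norm_sum_le _ _).trans (le_trans (Finset.sum_le_sum fun n hn => ?_) hs1)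
    rw [mem_Icc] at hn
    rw [norm_mul, norm_nt τ n hn.1, mul_one]
  · intro j hj
    have h1 : (2 : ℝ) ^ j * T0 * T0 ≤ y ^ 2 := by
      have h2 : (2 : ℝ) ^ j ≤ 2 ^ J0 := pow_le_pow_right₀ (by norm_num) (by omega)
      calc (2 : ℝ) ^ j * T0 * T0 = 2 ^ j * (T0 * T0) := by ring
        _ ≤ 2 ^ J0 * (T0 * T0) := by gcongr
        _ ≤ y ^ 2 := hJ1
    have h2 : T0 ≤ 2 ^ j * T0 := by
      have : (1 : ℝ) ≤ 2 ^ j := one_le_pow₀ (by norm_num)
      calc T0 = 1 * T0 := (one_mul _).symm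
        _ ≤ 2 ^ j * T0 := by gcongr
    have h3 := hpw0 j
    have h4 : (2 : ℝ) ^ (j + 1) * T0 = 2 * (2 ^ j * T0) := by rw [pow_succ]; ring
    simp_rw [ca_Ax]
    constructor
    · apply hdpl' (2 ^ j * T0) _ _ h2 h1
      · rw [h4]; linarith
      · rw [h4]; linarith
      · intro τ hτ
        rw [Set.mem_Icc, h4] at hτ
        rw [abs_of_pos (by linarith [hτ.1])]
        exact hτ
    · apply hdpl' (2 ^ j * T0) _ _ h2 h1
      · rw [h4]; linarith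
      · rw [h4]; linarith
      · intro τ hτ
        rw [Set.mem_Icc, h4] at hτ
        rw [abs_of_neg (by linarith [hτ.2])]
        constructor <;> linarith [hτ.1, hτ.2]
  · intro j _
    have h3 := hpw0 j
    have h4 : (2 : ℝ) ^ (j + 1) * T0 = 2 * (2 ^ j * T0) := by rw [pow_succ]; ring
    have key : ∀ a b : ℝ, a ≤ b → b - a = 2 ^ j * T0 →
        ∫ τ in a..b, ‖Ac (ca χ z D x) (256 * x) τ‖ ^ 2 ≤ (2 ^ j * T0 + H) * V := by
      intro a b hab hba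
      refine (Ac_mv (ca χ z D x) (256 * x) hab).trans ?_
      rw [hba]
      apply mul_le_mul _ hs2 (Finset.sum_nonneg fun _ _ => by positivity) (by positivity)
      rw [hH]
      have h5 : 8 * ((256 * x : ℕ) : ℝ) * (1 + Real.log ((256 * x : ℕ) : ℝ)) ≤
          8 * (256 * x) * (8 * l) := by
        push_cast at hlogN ⊢
        gcongr
      linarith
    constructor
    · apply key
      · rw [h4]; linarith
      · rw [h4]; ring
    · apply key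
      · rw [h4]; linarith
      · rw [h4]; ring

end Pool.Agent.K9h19.CR
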